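import Pool.Agent.Lib.MT.LayB
import Pool.Agent.Lib.SW.VinoSum

/-!
# SG: sums of primes from two sets which meet all clusters. Definitions

`ES f X α = ∑_{X < x ≤ 2X} f(x) e(α x)`, `FT f X α = ∑_{n < 4X} f(n) e(α n)`.
`mu Ω y X`: the presieved integers (all primes `p ≤ y`, classes `Ω p` excluded) of `(X, 2X]`, with mean about 1.
`Nice k Ω`: at most `k` excluded classes, at most one for `p ≤ 2k`. `Om h p`: the classes of the `-h i`.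
`rz z n`: the `z`-rough numbers with mean about 1. `Rst C δ₀ X ν`: `ν` is close (as a measure, for Fourier
purposes) to functions bounded by `C/δ`, with error `δ² X/(4C)`, for all `δ ≥ δ₀`.
`cor E u x = ∑_{s ∈ E, s ≥ x} u(s - x)`. `am A h w`: the adversary's part of the weights. `Wt`: the properties of the Maynard-Tao weights which are used.
`Hit m H Y A`: every interval `(x, x+H]`, `x ≤ Y`, with at least `m` primes contains a prime of `A`.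
-/

set_option autoImplicit false

open Finset

namespace Pool.Agent.Lib.SG

open Pool.Agent.Lib.MT

noncomputable def ES (f : ℕ → ℝ) (X : ℕ) (α : ℝ) : ℂ :=
  ∑ x ∈ Ioc X (2 * X), (f x : ℂ) * GT.e (α * x)

noncomputable def FT (f : ℕ → ℝ) (X : ℕ) (α : ℝ) : ℂ :=
  ∑ n ∈ range (4 * X), (f n : ℂ) * GT.e (α * n)

open Classical in
noncomputable def mu (Ω : ℕ → Finset ℕ) (y X x : ℕ) : ℝ :=
  if x ∈ Pre Ω y X then (V1 Ω y)⁻¹ else 0

structure Nice (k : ℕ) (Ω : ℕ → Finset ℕ) : Prop where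
  card : ∀ p, (Ω p).card ≤ k
  small : ∀ p, p ≤ 2 * k → (Ω p).card ≤ 1
  lt : ∀ p, ∀ c ∈ Ω p, c < p

/-- the classes `c` mod `p` with `c + h i ≡ 0` for some `i` -/
def Om {k : ℕ} (h : Fin k → ℕ) (p : ℕ) : Finset ℕ := (range p).filter (fun c => ∃ i, p ∣ c + h i)

open Classical in
noncomputable def rz (z n : ℕ) : ℝ := if ∀ p ∈ PP 0 z, ¬ p ∣ n then (kap z)⁻¹ else 0

structure Rst (C δ₀ : ℝ) (X : ℕ) (ν : ℕ → ℝ) : Prop where
  nonneg : ∀ n, 0 ≤ ν n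
  supp : ∀ n, 4 * X ≤ n → ν n = 0
  mass : ∑ n ∈ range (4 * X), ν n ≤ C * X
  model : ∀ δ : ℝ, δ₀ ≤ δ → δ ≤ 1 → ∃ ν' : ℕ → ℝ, (∀ n, 0 ≤ ν' n ∧ ν' n ≤ C / δ) ∧
    ∀ α : ℝ, ‖FT ν X α - FT ν' X α‖ ≤ δ ^ 2 / (4 * C) * X

noncomputable def cor (E : Finset ℕ) (u : ℕ → ℝ) (x : ℕ) : ℝ :=
  ∑ s ∈ E, if x ≤ s then u (s - x) else 0

/-- the properties of the weights `w` (tuple `h`, clusters of `m` primes, `k` shifts, range `H` of the clusters, presieve up to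
`z`): `v i` is the part of `w` on which `x + h i` is prime, `M` and `M' i` are the masses, `κ` the error -/
structure Wt (m k H z X c : ℕ) (h : Fin k → ℕ) (w : ℕ → ℝ) (v : Fin k → ℕ → ℝ) (M : ℝ)
    (M' : Fin k → ℝ) (κ : ℝ) : Prop where
  w0 : ∀ x, 0 ≤ w x
  ws : ∀ x, x ∉ Pre (Om h) z X → w x = 0
  v0 : ∀ i x, 0 ≤ v i x
  vw : ∀ i x, v i x ≤ w x
  vp : ∀ i x, v i x ≠ 0 → (x + h i).Prime
  l2 : ∑ x ∈ Ioc X (2 * X), (w x) ^ 2 ≤ X * (Real.log X) ^ c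
  M0 : 0 ≤ M
  M1 : M ≤ 1 + κ
  M'0 : ∀ i, 0 ≤ M' i
  M'1 : ∀ i, M' i ≤ 1 + κ
  M'2 : (m : ℝ) + 1 - κ ≤ ∑ i, M' i
  clw : ∀ α : ℝ, ‖ES w X α - M * ES (mu (Om h) z X) X α‖ ≤ X / (Real.log X) ^ (4 * c)
  clv : ∀ i, ∀ α : ℝ, ‖ES (v i) X α - M' i * ES (mu (Om h) z X) X α‖ ≤ X / (Real.log X) ^ (4 * c)
  bad : ∑ x ∈ Ioc X (2 * X), w x *
    (((Icc 1 H).filter (fun t => (∀ i, t ≠ h i) ∧ (x + t).Prime)).card : ℝ) ≤ κ * X

open Classical in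
/-- the part of the shifted weights on the primes of `A` -/
noncomputable def am {k : ℕ} (A : Set ℕ) (h : Fin k → ℕ) (w : ℕ → ℝ) (n : ℕ) : ℝ :=
  ∑ i, if h i ≤ n ∧ n ∈ A ∧ n.Prime then w (n - h i) else 0

/-- every interval `(x, x + H]`, `x ≤ Y`, with at least `m` primes contains a prime of `A` -/
def Hit (m H Y : ℕ) (A : Set ℕ) : Prop :=
  ∀ x : ℕ, x ≤ Y → m ≤ ((Ioc x (x + H)).filter Nat.Prime).card →
    ∃ p ∈ A, p.Prime ∧ x < p ∧ p ≤ x + H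

end Pool.Agent.Lib.SG
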