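import Pool.Agent.Lib.Sieve.Mertens
import Pool.Agent.Lib.SG.Defs
import Pool.Agent.Lib.MT.Vlow
import Pool.Agent.Lib.MT.OneDim

/-!
# SG-Num: numbers of the presieve

PROOF of `num_V1`: for primes `p ≤ 2k` the factor is at least `1 - 1/p ≥ 1/2 > 0`, for `p > 2k` it is at least
`1 - k/p > 1/2`, and `(1 - k/p)⁻¹ ≤ 1 + 2k/p ≤ (1 + 1/p)^(2k) ≤ ((1 - 1/p)⁻¹)^(2k)`; for `p ≤ 2k`:
`(1 - |Ω p|/p)⁻¹ ≤ (1 - 1/p)⁻¹ ≤ ((1 - 1/p)⁻¹)^(2k)` (if `k = 0` all factors are 1). The product over `p ≤ y` is at most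
`((∏ (1 - 1/p))⁻¹)^(2k) ≤ (C log y)^(2k)` (Mertens: `Pool.Agent.Lib.Sieve.mertens_product_upper`, see its use in MT/LayA).
`num_sum`: the sum over subsets is `∏ (1 + |Ω p|/p) ≤ ∏ (1 + k/p) ≤ ∏ (1 + 1/p)^k`, again Mertens.
`V1_omeq`: as MT `V1_eq` (Vlow): for every prime p the class of `-h i` belongs to `Om h p`, so the filtered set of `V2` has one
element less and `1 - n/p = (1 - 1/p)(1 - (n-1)/(p-1))`.
`om_nice`: the classes of `Om h p` are the `(p - h i % p) % p`, at most k; for `p ≤ 2k` prime `p ∣ P ∣ h i`, so `Om h p ⊆ {0}`; also for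
non prime p ≤ 2k: HERE the hypothesis is that `P` is divisible by all `p` with `1 ≤ p ≤ 2k`, so again `Om h p ⊆ {0}` (p = 0: range 0 is
empty). `om_zero`: if `p ∣ h i` for all i and k ≥ 1 then `Om h p = {0}` (p ≥ 1).
-/

set_option autoImplicit false

open Finset

namespace Pool.Agent.Lib.SG

open Pool.Agent.Lib.MT

private theorem Num_PP {z p : ℕ} (h : p ∈ PP 0 z) : p.Prime ∧ p ≤ z := by
  unfold PP at h
  rw [mem_filter, mem_range] at h
  exact ⟨h.2.1, by omega⟩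

private theorem Num_fac {p : ℕ} (hp : p.Prime) : (0 : ℝ) < 1 - 1 / (p : ℝ) ∧
    1 ≤ (1 - 1 / (p : ℝ))⁻¹ ∧ 1 + 1 / (p : ℝ) ≤ (1 - 1 / (p : ℝ))⁻¹ := by
  have h2 : (2 : ℝ) ≤ p := by exact_mod_cast hp.two_le
  have h3 : 1 / (p : ℝ) ≤ 1 / 2 := one_div_le_one_div_of_le (by norm_num) h2
  have h4 : 0 ≤ 1 / (p : ℝ) := by positivity
  have h5 : (0 : ℝ) < 1 - 1 / (p : ℝ) := by linarith
  refine ⟨h5, (one_le_inv₀ h5).2 (by linarith), ?_⟩
  rw [← one_div, le_div_iff₀ h5]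
  have h6 : 0 ≤ (1 / (p : ℝ)) ^ 2 := by positivity
  nlinarith

theorem num_kap : ∃ C : ℝ, 1 ≤ C ∧ ∀ y : ℕ, 2 ≤ y → 1 ≤ (kap y)⁻¹ ∧ (kap y)⁻¹ ≤ C * Real.log y := by
  obtain ⟨C, hC, hM⟩ := Pool.Agent.Lib.Sieve.mertens_product_upper
  refine ⟨max C 1, le_max_right _ _, fun y hy => ?_⟩
  have e : (kap y)⁻¹ = ∏ p ∈ PP 0 y, (1 - 1 / (p : ℝ))⁻¹ := by
    unfold kap
    rw [Finset.prod_inv_distrib]
  constructor
  · rw [one_le_inv₀ (kap_pos y)]
    unfold kap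
    refine Finset.prod_le_one (fun p hp => (Num_fac (Num_PP hp).1).1.le) (fun p hp => ?_)
    have : (0 : ℝ) ≤ 1 / (p : ℝ) := by positivity
    linarith
  · rw [e]
    have hsub : PP 0 y ⊆ (Icc 1 y).filter Nat.Prime := by
      intro p hp
      rw [mem_filter, mem_Icc]
      exact ⟨⟨(Num_PP hp).1.one_le, (Num_PP hp).2⟩, (Num_PP hp).1⟩
    have h5 : ∏ p ∈ PP 0 y, (1 - 1 / (p : ℝ))⁻¹ ≤ ∏ p ∈ (Icc 1 y).filter Nat.Prime,
        (1 - 1 / (p : ℝ))⁻¹ :=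
      prod_le_prod_of_subset_of_one_le hsub
        (fun p hp => inv_nonneg.2 (Num_fac (Num_PP hp).1).1.le)
        (fun p hp _ => (Num_fac (mem_filter.1 hp).2).2.1)
    refine h5.trans ((hM y hy).trans (mul_le_mul_of_nonneg_right (le_max_left _ _) ?_))
    apply Real.log_nonneg
    have : (2 : ℝ) ≤ y := by exact_mod_cast hy
    linarith

private theorem Num_f {k : ℕ} {Ω : ℕ → Finset ℕ} (hΩ : Nice k Ω) {p : ℕ} (hp : p.Prime) :
    0 < 1 - ((Ω p).card : ℝ) / p ∧ 1 - ((Ω p).card : ℝ) / p ≤ 1 ∧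
      (1 - ((Ω p).card : ℝ) / p)⁻¹ ≤ ((1 - 1 / (p : ℝ))⁻¹) ^ (2 * k) := by
  have h2 : (2 : ℝ) ≤ p := by exact_mod_cast hp.two_le
  obtain ⟨f1, f2, f3⟩ := Num_fac hp
  have hle1 : 1 - ((Ω p).card : ℝ) / p ≤ 1 := by
    have : (0 : ℝ) ≤ ((Ω p).card : ℝ) / p := by positivity
    linarith
  rcases le_or_gt p (2 * k) with h | h
  · have h3 : ((Ω p).card : ℝ) ≤ 1 := by exact_mod_cast hΩ.small p h
    have h4 : ((Ω p).card : ℝ) / p ≤ 1 / p := by gcongr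
    have h5 : 0 < 1 - ((Ω p).card : ℝ) / p := by linarith
    refine ⟨h5, hle1, ?_⟩
    calc (1 - ((Ω p).card : ℝ) / p)⁻¹ ≤ (1 - 1 / (p : ℝ))⁻¹ := by
          apply inv_anti₀ f1
          linarith
      _ = ((1 - 1 / (p : ℝ))⁻¹) ^ 1 := (pow_one _).symm
      _ ≤ ((1 - 1 / (p : ℝ))⁻¹) ^ (2 * k) := by
          apply pow_le_pow_right₀ f2
          have := hp.two_le
          omega
  · have h3 : ((Ω p).card : ℝ) ≤ k := by exact_mod_cast hΩ.card p
    have h4 : ((Ω p).card : ℝ) / p ≤ k / p := by gcongr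
    have h5 : 2 * (k : ℝ) ≤ p := by exact_mod_cast h.le
    set x : ℝ := 1 / (p : ℝ) with hx
    have hx0 : 0 ≤ x := by positivity
    have hpx : (p : ℝ) * x = 1 := by
      rw [hx]; field_simp
    have hkx : (k : ℝ) / p = k * x := by rw [hx]; ring
    have hk2 : 2 * (k : ℝ) * x ≤ 1 := by
      rw [← hpx]
      exact mul_le_mul_of_nonneg_right h5 hx0
    rw [hkx] at h4
    have h6 : (1 - x) ^ (2 * k) ≤ 1 - k * x := by
      have a1 : 1 + ((2 * k : ℕ) : ℝ) * x ≤ (1 + x) ^ (2 * k) :=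
        one_add_mul_le_pow (by linarith) (2 * k)
      have a2 : (1 - x) ^ (2 * k) * (1 + x) ^ (2 * k) ≤ 1 := by
        rw [← mul_pow]
        apply pow_le_one₀
        · have : 0 ≤ 1 - x := f1.le
          positivity
        · nlinarith
      have a3 : 0 ≤ (1 - x) ^ (2 * k) := pow_nonneg f1.le _
      have a4 : (1 - x) ^ (2 * k) * (1 + 2 * (k : ℝ) * x) ≤ 1 := by
        refine le_trans ?_ a2
        apply mul_le_mul_of_nonneg_left _ a3
        push_cast at a1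
        exact a1
      have hk0 : (0 : ℝ) ≤ k := Nat.cast_nonneg k
      have a5 : 1 ≤ (1 - k * x) * (1 + 2 * (k : ℝ) * x) := by
        have : (1 - k * x) * (1 + 2 * (k : ℝ) * x) = 1 + (k * x) * (1 - 2 * (k : ℝ) * x) := by ring
        rw [this]
        have : 0 ≤ (k * x) * (1 - 2 * (k : ℝ) * x) := mul_nonneg (by positivity) (by linarith)
        linarith
      have a6 : 0 < 1 + 2 * (k : ℝ) * x := by positivity
      exact le_of_mul_le_mul_right (a4.trans a5) a6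
    have h7 : 0 < (1 - x) ^ (2 * k) := pow_pos f1 _
    refine ⟨by linarith, hle1, ?_⟩
    rw [inv_pow]
    apply inv_anti₀ h7
    linarith

theorem num_V1 (k : ℕ) : ∃ C : ℝ, 1 ≤ C ∧ ∀ Ω : ℕ → Finset ℕ, Nice k Ω → ∀ y : ℕ, 2 ≤ y →
    0 < V1 Ω y ∧ 1 ≤ (V1 Ω y)⁻¹ ∧ (V1 Ω y)⁻¹ ≤ (C * Real.log y) ^ (2 * k) := by
  obtain ⟨C, hC, hM⟩ := num_kap
  refine ⟨C, hC, fun Ω hΩ y hy => ?_⟩
  have hpos : 0 < V1 Ω y := by
    unfold V1
    exact Finset.prod_pos fun p hp => (Num_f hΩ (Num_PP hp).1).1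
  refine ⟨hpos, ?_, ?_⟩
  · rw [one_le_inv₀ hpos]
    unfold V1
    exact Finset.prod_le_one (fun p hp => (Num_f hΩ (Num_PP hp).1).1.le)
      (fun p hp => (Num_f hΩ (Num_PP hp).1).2.1)
  · have h1 : (V1 Ω y)⁻¹ ≤ ((kap y)⁻¹) ^ (2 * k) := by
      unfold V1 kap
      rw [← Finset.prod_inv_distrib, ← Finset.prod_inv_distrib, ← Finset.prod_pow]
      exact Finset.prod_le_prod (fun p hp => inv_nonneg.2 (Num_f hΩ (Num_PP hp).1).1.le)
        (fun p hp => (Num_f hΩ (Num_PP hp).1).2.2)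
    exact h1.trans (pow_le_pow_left₀ (by have := (hM y hy).1; linarith) (hM y hy).2 _)

theorem num_sum (k : ℕ) : ∃ C : ℝ, 1 ≤ C ∧ ∀ Ω : ℕ → Finset ℕ, Nice k Ω → ∀ y : ℕ, 2 ≤ y →
    ∑ d ∈ (PP 0 y).powerset, ∏ p ∈ d, (((Ω p).card : ℝ) / p) ≤ (C * Real.log y) ^ k := by
  obtain ⟨C, hC, hM⟩ := num_kap
  refine ⟨C, hC, fun Ω hΩ y hy => ?_⟩
  rw [← Finset.prod_one_add]
  have h1 : ∏ p ∈ PP 0 y, (1 + ((Ω p).card : ℝ) / p) ≤ ((kap y)⁻¹) ^ k := by
    unfold kap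
    rw [← Finset.prod_inv_distrib, ← Finset.prod_pow]
    refine Finset.prod_le_prod (fun p _ => by positivity) (fun p hp => ?_)
    have h3 : ((Ω p).card : ℝ) ≤ k := by exact_mod_cast hΩ.card p
    have h4 : 1 + (k : ℝ) * (1 / (p : ℝ)) ≤ (1 + 1 / (p : ℝ)) ^ k := by
      apply one_add_mul_le_pow
      have : (0 : ℝ) ≤ 1 / (p : ℝ) := by positivity
      linarith
    calc 1 + ((Ω p).card : ℝ) / p ≤ 1 + (k : ℝ) / p := by gcongr
      _ = 1 + (k : ℝ) * (1 / (p : ℝ)) := by ring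
      _ ≤ (1 + 1 / (p : ℝ)) ^ k := h4
      _ ≤ ((1 - 1 / (p : ℝ))⁻¹) ^ k := by
          apply pow_le_pow_left₀ (by positivity)
          exact (Num_fac (Num_PP hp).1).2.2
  exact h1.trans (pow_le_pow_left₀ (by have := (hM y hy).1; linarith) (hM y hy).2 _)

private theorem Num_mem {k : ℕ} (h : Fin k → ℕ) (p c : ℕ) :
    c ∈ Om h p ↔ c < p ∧ ∃ i, p ∣ c + h i := by
  unfold Om
  rw [mem_filter, mem_range]

theorem V1_omeq {k : ℕ} (h : Fin k → ℕ) (z : ℕ) (i : Fin k) :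
    V1 (Om h) z = kap z * V2 (Om h) (h i) z := by
  classical
  unfold V1 kap V2
  rw [← prod_mul_distrib]
  apply prod_congr rfl
  intro p hp
  obtain ⟨hpp, -⟩ := Num_PP hp
  have hp2 : 2 ≤ p := hpp.two_le
  have hone : ((Om h p).filter (fun c => p ∣ c + h i)).card = 1 := by
    rw [card_eq_one]
    refine ⟨(p - h i % p) % p, ?_⟩
    ext c
    rw [mem_filter, mem_singleton, Num_mem]
    have hlt : h i % p < p := Nat.mod_lt _ hpp.pos
    have hdvd : p ∣ (p - h i % p) % p + h i := by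
      have h1 : (p - h i % p) % p + h i ≡ (p - h i % p) + h i % p [MOD p] :=
        Nat.ModEq.add (Nat.mod_modEq _ _) (Nat.mod_modEq _ _).symm
      rw [Nat.sub_add_cancel hlt.le] at h1
      exact (Nat.modEq_zero_iff_dvd.mp (h1.trans (Nat.modEq_zero_iff_dvd.mpr dvd_rfl)))
    constructor
    · rintro ⟨⟨hc, -⟩, hd⟩
      have h2 : c + h i ≡ (p - h i % p) % p + h i [MOD p] :=
        (Nat.modEq_zero_iff_dvd.mpr hd).trans (Nat.modEq_zero_iff_dvd.mpr hdvd).symm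
      exact Nat.ModEq.eq_of_lt_of_lt (Nat.ModEq.add_right_cancel' _ h2) hc (Nat.mod_lt _ hpp.pos)
    · rintro rfl
      exact ⟨⟨Nat.mod_lt _ hpp.pos, i, hdvd⟩, hdvd⟩
  have hsum := card_filter_add_card_filter_not (s := Om h p) (fun c => p ∣ c + h i)
  rw [hone] at hsum
  have hsumR : (1 : ℝ) + (((Om h p).filter (fun c => ¬ p ∣ c + h i)).card : ℝ) =
      ((Om h p).card : ℝ) := by exact_mod_cast hsum
  rw [← hsumR]
  have hp0 : (p : ℝ) ≠ 0 := by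
    have : (2 : ℝ) ≤ p := by exact_mod_cast hp2
    linarith
  have hp1 : (p : ℝ) - 1 ≠ 0 := by
    have : (2 : ℝ) ≤ p := by exact_mod_cast hp2
    linarith
  field_simp
  ring

theorem om_nice {k : ℕ} (h : Fin k → ℕ) (P : ℕ) (hP : ∀ p, 1 ≤ p → p ≤ 2 * k → p ∣ P)
    (hh : ∀ i, P ∣ h i) : Nice k (Om h) := by
  classical
  refine ⟨fun p => ?_, fun p hp => ?_, fun p c hc => ((Num_mem h p c).1 hc).1⟩
  · have hsub : Om h p ⊆ (univ : Finset (Fin k)).biUnion (fun i =>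
        ((range p).filter (fun c => p ∣ c + h i))) := by
      intro c hc
      obtain ⟨hcp, i, hi⟩ := (Num_mem h p c).1 hc
      rw [mem_biUnion]
      exact ⟨i, mem_univ _, by rw [mem_filter, mem_range]; exact ⟨hcp, hi⟩⟩
    refine (card_le_card hsub).trans ?_
    refine (card_biUnion_le_card_mul univ _ 1 ?_).trans (by simp)
    intro i _
    rw [card_le_one]
    intro a ha b hb
    rw [mem_filter, mem_range] at ha hb
    have hab : a + h i ≡ b + h i [MOD p] :=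
      ((Nat.modEq_zero_iff_dvd.mpr ha.2).trans (Nat.modEq_zero_iff_dvd.mpr hb.2).symm)
    exact Nat.ModEq.eq_of_lt_of_lt (Nat.ModEq.add_right_cancel' _ hab) ha.1 hb.1
  · rcases Nat.eq_zero_or_pos p with h0 | h0
    · subst h0
      unfold Om
      simp
    · have hsub : Om h p ⊆ {0} := by
        intro c hc
        obtain ⟨hcp, i, hi⟩ := (Num_mem h p c).1 hc
        have hd : p ∣ h i := (hP p h0 hp).trans (hh i)
        have hd2 : p ∣ c := (Nat.dvd_add_left hd).1 hi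
        rw [mem_singleton]
        exact Nat.eq_zero_of_dvd_of_lt hd2 hcp
      exact (card_le_card hsub).trans (by simp)

theorem om_zero {k : ℕ} (hk : 1 ≤ k) (h : Fin k → ℕ) (p : ℕ) (hp : 1 ≤ p) (hh : ∀ i, p ∣ h i) :
    Om h p = {0} := by
  ext c
  rw [Num_mem, mem_singleton]
  constructor
  · rintro ⟨hcp, i, hi⟩
    exact Nat.eq_zero_of_dvd_of_lt ((Nat.dvd_add_left (hh i)).1 hi) hcp
  · rintro rfl
    exact ⟨by omega, ⟨0, by omega⟩, by rw [zero_add]; exact hh _⟩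

end Pool.Agent.Lib.SG
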