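import Mathlib

/-!
# SG-RNum6: numerical facts for large X used in Ratio6 (helper10)
-/

set_option autoImplicit false

open Filter Topology

namespace Pool.Agent.Lib.SG

theorem RNum6_log : Tendsto (fun X : ℕ => Real.log (X : ℝ)) atTop atTop :=
  Real.tendsto_log_atTop.comp tendsto_natCast_atTop_atTop

theorem RNum6_real (C a : ℝ) (ha : 0 < a) (n : ℕ) :
    ∀ᶠ x : ℝ in atTop, C * (Real.log x) ^ n ≤ x ^ a := by
  have h := isLittleO_log_rpow_rpow_atTop (n : ℝ) ha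
  have h2 := h.bound (show 0 < 1 / (|C| + 1) by positivity)
  filter_upwards [h2, eventually_ge_atTop 1] with x h3 h4
  have h5 : 0 ≤ Real.log x := Real.log_nonneg h4
  rw [Real.rpow_natCast, Real.norm_of_nonneg (by positivity), Real.norm_of_nonneg (by positivity)]
    at h3
  have h6 : 0 ≤ (Real.log x) ^ n := by positivity
  have h7 : 0 ≤ x ^ a := by positivity
  calc C * (Real.log x) ^ n ≤ (|C| + 1) * (Real.log x) ^ n := by
        apply mul_le_mul_of_nonneg_right _ h6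
        linarith [le_abs_self C]
    _ ≤ (|C| + 1) * (1 / (|C| + 1) * x ^ a) := by gcongr
    _ = x ^ a := by field_simp

theorem RNum6_pow (C a : ℝ) (ha : 0 < a) (n : ℕ) :
    ∀ᶠ X : ℕ in atTop, C * (Real.log X) ^ n ≤ (X : ℝ) ^ a :=
  tendsto_natCast_atTop_atTop.eventually (RNum6_real C a ha n)

/-- `(C log z)^n ≤ log X` for `z ≤ (log X)^B` -/
theorem RNum6_loglog (C : ℝ) (hC : 0 ≤ C) (n B : ℕ) : ∃ X₀ : ℕ, ∀ X z : ℕ, X₀ ≤ X → 2 ≤ z →
    (z : ℝ) ≤ (Real.log X) ^ B → (C * Real.log z) ^ n ≤ Real.log X := by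
  have h1 := RNum6_log.eventually (RNum6_real ((C * B) ^ n) 1 one_pos n)
  have h2 := RNum6_log.eventually_ge_atTop 1
  obtain ⟨X₀, h⟩ := eventually_atTop.mp (h1.and h2)
  refine ⟨X₀, fun X z hX hz hzB => ?_⟩
  obtain ⟨h3, h4⟩ := h X hX
  rw [Real.rpow_one] at h3
  have hz0 : (0 : ℝ) < z := by
    have : 0 < z := by omega
    exact_mod_cast this
  have h5 : Real.log z ≤ B * Real.log (Real.log X) := by
    have := Real.log_le_log hz0 hzB
    rwa [Real.log_pow] at this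
  have h6 : 0 ≤ Real.log z := Real.log_nonneg (by exact_mod_cast (by omega : 1 ≤ z))
  calc (C * Real.log z) ^ n ≤ (C * (B * Real.log (Real.log X))) ^ n := by gcongr
    _ = (C * B) ^ n * (Real.log (Real.log X)) ^ n := by rw [← mul_pow]; ring
    _ ≤ Real.log X := h3

theorem rnum6 (C₁ : ℝ) (hC : 1 ≤ C₁) (J k H B : ℕ) (hJ : 1 ≤ J) (hk : 1 ≤ k) (c κ : ℝ) (hc : 0 < c)
    (hκ : 0 < κ) :
    ∃ X₀ : ℕ, ∀ X : ℕ, X₀ ≤ X → ∀ R : ℕ, R = ⌊(X : ℝ) ^ (1 / 1000 : ℝ)⌋₊ → ∀ ℓ : ℝ,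
      ℓ = Real.log R / (16 * C₁ * J * k) →
      (2 ≤ R ∧ (R : ℝ) ≤ (X : ℝ) ^ (1 / 5 : ℝ) ∧ ((R * R : ℕ) : ℝ) ≤ (X : ℝ) ^ (2 / 5 : ℝ) ∧ R ≤ X) ∧
      (Real.log (3 * X) / 2000 ≤ Real.log R ∧ 1 ≤ Real.log (3 * X) ∧ 2 ≤ Real.log X) ∧
      (2 ≤ Real.exp ℓ ∧ (Real.log X) ^ B ≤ Real.exp ℓ) ∧
      ((H : ℝ) ≤ (X : ℝ) ^ (1 / 2 : ℝ) ∧ H ≤ X) ∧
      (8 * H * (Real.log X) ^ (1 / 2 : ℝ) ≤ κ * Real.log R ∧
        2 * (H + 1) * Real.log X ≤ κ * (X : ℝ) ^ c ∧ 1 ≤ κ * (Real.log X) ^ 2) := by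
  have e1 : ∀ᶠ X : ℕ in atTop, 2 ≤ (X : ℝ) ^ (1 / 1000 : ℝ) :=
    ((tendsto_rpow_atTop (show (0 : ℝ) < 1 / 1000 by norm_num)).comp
      tendsto_natCast_atTop_atTop).eventually_ge_atTop 2
  have e2 := RNum6_log.eventually_ge_atTop 10000
  have e3 := RNum6_pow 2 (1 / (100000 * C₁ * J * k)) (by positivity) (B + 0)
  have e3' := RNum6_pow 2 (1 / (100000 * C₁ * J * k)) (by positivity) 0
  have e4 : ∀ᶠ X : ℕ in atTop, (H : ℝ) ≤ (X : ℝ) ^ (1 / 2 : ℝ) :=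
    ((tendsto_rpow_atTop (show (0 : ℝ) < 1 / 2 by norm_num)).comp
      tendsto_natCast_atTop_atTop).eventually_ge_atTop _
  have e5 : ∀ᶠ X : ℕ in atTop, (16000 * H / κ : ℝ) ≤ (Real.log X) ^ (1 / 2 : ℝ) :=
    ((tendsto_rpow_atTop (show (0 : ℝ) < 1 / 2 by norm_num)).comp RNum6_log).eventually_ge_atTop _
  have e6 := RNum6_pow (2 * (H + 1) / κ) c hc 1
  have e7 := RNum6_log.eventually_ge_atTop (1 / κ)
  obtain ⟨X₀, hX₀⟩ := eventually_atTop.mp (e1.and (e2.and (e3.and (e3'.and (e4.and (e5.and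
    (e6.and e7)))))))
  refine ⟨max X₀ (H + 3), fun X hX R hR ℓ hℓ => ?_⟩
  obtain ⟨h1, h2, h3, h3', h4, h5, h6, h7⟩ := hX₀ X (le_trans (le_max_left _ _) hX)
  have hHX : H + 3 ≤ X := le_trans (le_max_right _ _) hX
  have hX3 : (3 : ℝ) ≤ X := by
    have : 3 ≤ X := by omega
    exact_mod_cast this
  have hX0 : (0 : ℝ) < X := by linarith
  have hX1 : (1 : ℝ) ≤ X := by linarith
  have hR2 : 2 ≤ R := by
    rw [hR]
    exact Nat.le_floor (by exact_mod_cast h1)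
  have hRle : (R : ℝ) ≤ (X : ℝ) ^ (1 / 1000 : ℝ) := by
    rw [hR]
    exact Nat.floor_le (by positivity)
  have hRlt : (X : ℝ) ^ (1 / 1000 : ℝ) < R + 1 := by
    rw [hR]
    exact Nat.lt_floor_add_one _
  have hRle5 : (R : ℝ) ≤ (X : ℝ) ^ (1 / 5 : ℝ) :=
    hRle.trans (Real.rpow_le_rpow_of_exponent_le hX1 (by norm_num))
  have hR0 : (0 : ℝ) < R := by
    have : 0 < R := by omega
    exact_mod_cast this
  have hR2' : (2 : ℝ) ≤ R := by exact_mod_cast hR2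
  have hl3 : Real.log (3 * X) = Real.log 3 + Real.log X := Real.log_mul (by norm_num) hX0.ne'
  have hlog3 : Real.log 3 ≤ 2 := by
    have := Real.log_le_sub_one_of_pos (show (0 : ℝ) < 3 by norm_num)
    linarith
  have hlog3' : 0 ≤ Real.log 3 := Real.log_nonneg (by norm_num)
  have hlogR : Real.log X / 1000 - 1 ≤ Real.log R := by
    have a1 : (X : ℝ) ^ (1 / 1000 : ℝ) ≤ 2 * R := by linarith
    have a2 := Real.log_le_log (by positivity) a1
    rw [Real.log_rpow hX0, Real.log_mul (by norm_num) hR0.ne'] at a2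
    have a3 := Real.log_two_lt_d9
    linarith
  have hlogR6 : Real.log X / 1500 ≤ Real.log R := by linarith
  have hCJk : (0 : ℝ) < 16 * C₁ * J * k := by
    have : (0 : ℝ) < J := by exact_mod_cast hJ
    have : (0 : ℝ) < k := by exact_mod_cast hk
    positivity
  have hℓ1 : Real.log X * (1 / (100000 * C₁ * J * k)) ≤ ℓ := by
    rw [hℓ, mul_one_div, div_le_div_iff₀ (by linarith) hCJk]
    have a1 : 0 ≤ C₁ * J * k := by linarith
    calc Real.log X * (16 * C₁ * J * k) ≤ (1500 * Real.log R) * (16 * C₁ * J * k) := by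
          apply mul_le_mul_of_nonneg_right _ hCJk.le
          linarith
      _ = Real.log R * (24000 * (C₁ * J * k)) := by ring
      _ ≤ Real.log R * (100000 * (C₁ * J * k)) := by
          apply mul_le_mul_of_nonneg_left _ (by linarith)
          linarith
      _ = Real.log R * (100000 * C₁ * J * k) := by ring
  have hexp : (X : ℝ) ^ (1 / (100000 * C₁ * J * k)) ≤ Real.exp ℓ := by
    rw [Real.rpow_def_of_pos hX0]
    exact Real.exp_le_exp.mpr hℓ1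
  refine ⟨⟨hR2, hRle5, ?_, ?_⟩, ⟨?_, ?_, by linarith⟩, ⟨?_, ?_⟩, ⟨h4, by omega⟩, ⟨?_, ?_, ?_⟩⟩
  · push_cast
    calc (R : ℝ) * R ≤ (X : ℝ) ^ (1 / 5 : ℝ) * (X : ℝ) ^ (1 / 5 : ℝ) := by gcongr
      _ = (X : ℝ) ^ (2 / 5 : ℝ) := by
        rw [← Real.rpow_add hX0]
        norm_num
  · have a1 : (X : ℝ) ^ (1 / 5 : ℝ) ≤ X := by
      calc (X : ℝ) ^ (1 / 5 : ℝ) ≤ (X : ℝ) ^ (1 : ℝ) :=
            Real.rpow_le_rpow_of_exponent_le (by linarith) (by norm_num)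
        _ = X := Real.rpow_one _
    exact_mod_cast hRle5.trans a1
  · rw [hl3]
    linarith
  · rw [hl3]
    linarith
  · rw [pow_zero, mul_one] at h3'
    exact h3'.trans hexp
  · rw [Nat.add_zero] at h3
    have a1 : (0 : ℝ) ≤ (Real.log X) ^ B := by
      have : 0 ≤ Real.log X := by linarith
      positivity
    linarith
  · have a1 : Real.log X = (Real.log X) ^ (1 / 2 : ℝ) * (Real.log X) ^ (1 / 2 : ℝ) := by
      rw [← Real.rpow_add (by linarith)]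
      norm_num
    have a2 : 0 ≤ (Real.log X) ^ (1 / 2 : ℝ) := Real.rpow_nonneg (by linarith) _
    rw [div_le_iff₀ hκ] at h5
    have a3 : 16000 * H * (Real.log X) ^ (1 / 2 : ℝ) ≤
        (Real.log X) ^ (1 / 2 : ℝ) * κ * (Real.log X) ^ (1 / 2 : ℝ) :=
      mul_le_mul_of_nonneg_right h5 a2
    have a4 : (Real.log X) ^ (1 / 2 : ℝ) * κ * (Real.log X) ^ (1 / 2 : ℝ) = κ * Real.log X := by
      rw [mul_comm _ κ, mul_assoc, ← a1]
    rw [a4] at a3
    have a5 : κ * (Real.log X / 1500) ≤ κ * Real.log R := mul_le_mul_of_nonneg_left hlogR6 hκ.le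
    have a6 : (0 : ℝ) ≤ H * (Real.log X) ^ (1 / 2 : ℝ) := by positivity
    have a7 : 0 ≤ κ * Real.log X := mul_nonneg hκ.le (by linarith)
    nlinarith
  · rw [pow_one, div_mul_eq_mul_div, div_le_iff₀ hκ] at h6
    linarith
  · rw [div_le_iff₀ hκ] at h7
    have a1 : Real.log X ≤ (Real.log X) ^ 2 := by nlinarith
    calc (1 : ℝ) ≤ Real.log X * κ := h7
      _ ≤ (Real.log X) ^ 2 * κ := by gcongr
      _ = κ * (Real.log X) ^ 2 := by ring

end Pool.Agent.Lib.SG
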