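import Pool.Agent.Lib.SG.One

/-!
# SG-All: all scales (helper10)

PROOF. Scales t_j = X (2/3)^(j+1), Y_j = ⌊t_j⌋, j ≤ J with (2/3)^(J+1) ≤ ε/3. Every n ≥ ε X/2, n ≤ X, has 1.1 t_j ≤ n ≤ 1.9 t_j for some j ≤ J, so 2n is in the range of `one` for Y_j.
-/

set_option autoImplicit false

open Finset

namespace Pool.Agent.Lib.SG

open Pool.Agent.Lib.MT

private theorem All_scale (X : ℝ) (hX : 0 < X) (ε : ℝ) (J : ℕ) (hJ : (2 / 3 : ℝ) ^ (J + 1) ≤ ε / 3) (n : ℝ)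
    (hn : ε * X / 2 ≤ n) (hnX : n ≤ X) :
    ∃ j ≤ J, 11 / 10 * (X * (2 / 3 : ℝ) ^ (j + 1)) ≤ n ∧ n ≤ 19 / 10 * (X * (2 / 3 : ℝ) ^ (j + 1)) := by
  classical
  have hex : ∃ j : ℕ, 11 / 10 * (X * (2 / 3 : ℝ) ^ (j + 1)) ≤ n := by
    refine ⟨J, ?_⟩
    have : X * (2 / 3 : ℝ) ^ (J + 1) ≤ X * (ε / 3) := mul_le_mul_of_nonneg_left hJ hX.le
    have h0 : 0 < X * (2 / 3 : ℝ) ^ (J + 1) := by positivity
    linarith
  have hJ' : 11 / 10 * (X * (2 / 3 : ℝ) ^ (J + 1)) ≤ n := by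
    have : X * (2 / 3 : ℝ) ^ (J + 1) ≤ X * (ε / 3) := mul_le_mul_of_nonneg_left hJ hX.le
    have h0 : 0 < X * (2 / 3 : ℝ) ^ (J + 1) := by positivity
    linarith
  refine ⟨Nat.find hex, Nat.find_min' hex hJ', Nat.find_spec hex, ?_⟩
  rcases Nat.eq_zero_or_pos (Nat.find hex) with h | h
  · rw [h]
    norm_num
    linarith
  · have h1 := Nat.find_min hex (Nat.sub_lt h one_pos)
    push Not at h1
    have h2 : Nat.find hex - 1 + 1 = Nat.find hex := Nat.sub_add_cancel h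
    rw [h2] at h1
    rw [pow_succ]
    have h0 : 0 < X * (2 / 3 : ℝ) ^ (Nat.find hex) := by positivity
    linarith

private theorem All_Y (t : ℝ) (ht : 1000 ≤ t) (Y n : ℕ) (hY : Y = ⌊t⌋₊) (h1 : 11 / 10 * t ≤ n)
    (h2 : (n : ℝ) ≤ 19 / 10 * t) :
    2 * n < 8 * Y ∧ 2 * Y + Y / 8 ≤ 2 * n ∧ 2 * n + Y / 8 ≤ 4 * Y := by
  have a1 : (Y : ℝ) ≤ t := by
    rw [hY]
    exact Nat.floor_le (by linarith)
  have a2 : t < Y + 1 := by
    rw [hY]
    exact Nat.lt_floor_add_one _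
  have b1 : (22 * (Y : ℝ)) ≤ 20 * n := by linarith
  have b2 : (20 * (n : ℝ)) ≤ 38 * Y + 38 := by linarith
  have b3 : 22 * Y ≤ 20 * n := by exact_mod_cast b1
  have b4 : 20 * n ≤ 38 * Y + 38 := by exact_mod_cast b2
  have b5 : (999 : ℝ) ≤ Y := by linarith
  have b6 : 999 ≤ Y := by exact_mod_cast b5
  omega

open Classical in
theorem all (m : ℕ) (hm : 1 ≤ m) : ∃ C : ℕ, ∀ ε : ℝ, 0 < ε → ∃ H X₀ : ℕ, ∀ X : ℕ, X₀ ≤ X →
    ∀ A B : Set ℕ, Hit m H (2 * X) A → Hit m H (2 * X) B →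
    (((Icc 1 X).filter (fun n => (rep A B (2 * n) : ℝ) < X / (Real.log X) ^ C)).card : ℝ) ≤ ε * X := by
  obtain ⟨C, hC⟩ := one m hm
  refine ⟨C + 1, fun ε hε => ?_⟩
  obtain ⟨J, hJ⟩ : ∃ J : ℕ, (2 / 3 : ℝ) ^ (J + 1) ≤ ε / 3 := by
    obtain ⟨J, hJ⟩ := exists_pow_lt_of_lt_one (show 0 < ε / 3 by positivity) (show (2 / 3 : ℝ) < 1 by norm_num)
    refine ⟨J, le_trans ?_ hJ.le⟩
    exact pow_le_pow_of_le_one (by norm_num) (by norm_num) (Nat.le_succ J)
  obtain ⟨H, X₁, h1⟩ := hC (ε / (2 * (J + 1))) (by positivity)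
  obtain ⟨δ, hδ⟩ : ∃ δ : ℝ, δ = (2 / 3 : ℝ) ^ (J + 1) := ⟨_, rfl⟩
  have hδ0 : 0 < δ := by
    rw [hδ]
    positivity
  obtain ⟨X₂, h2⟩ := Filter.eventually_atTop.1 (RNum6_log.eventually_ge_atTop (2 / δ + 1))
  obtain ⟨X₃, h3⟩ : ∃ X₃ : ℕ, (X₁ + 1000) / δ ≤ (X₃ : ℝ) := exists_nat_ge _
  refine ⟨H, max (max X₂ X₃) 3, fun X hX A B hA hB => ?_⟩
  simp only [max_le_iff] at hX
  obtain ⟨⟨hX2, hX3⟩, hX1⟩ := hX
  have hlog := h2 X hX2
  have h2δ : 0 < 2 / δ := by positivity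
  have hlog0 : 0 < Real.log X := by linarith
  have hXX : (3 : ℝ) ≤ X := by exact_mod_cast hX1
  have hX0 : (0 : ℝ) < X := by linarith
  have hδX : X₁ + 1000 ≤ δ * X := by
    have a1 : (X₁ + 1000) / δ ≤ (X : ℝ) := h3.trans (by exact_mod_cast hX3)
    rw [div_le_iff₀ hδ0] at a1
    linarith
  obtain ⟨t, ht⟩ : ∃ t : ℕ → ℝ, t = fun j => X * (2 / 3 : ℝ) ^ (j + 1) := ⟨_, rfl⟩
  have htj : ∀ j ≤ J, δ * X ≤ t j ∧ t j ≤ X := by
    intro j hj
    rw [ht, hδ]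
    simp only
    constructor
    · rw [mul_comm]
      apply mul_le_mul_of_nonneg_left _ hX0.le
      exact pow_le_pow_of_le_one (by norm_num) (by norm_num) (by omega)
    · exact mul_le_of_le_one_right hX0.le (pow_le_one₀ (by norm_num) (by norm_num))
  obtain ⟨Y, hY⟩ : ∃ Y : ℕ → ℕ, Y = fun j => ⌊t j⌋₊ := ⟨_, rfl⟩
  have hYj : ∀ j ≤ J, (Y j : ℝ) ≤ t j ∧ t j < Y j + 1 := by
    intro j hj
    have h0 : 0 ≤ t j := by
      have := (htj j hj).1
      have h0 : 0 < δ * X := by positivity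
      linarith
    rw [hY]
    exact ⟨Nat.floor_le h0, Nat.lt_floor_add_one _⟩
  obtain ⟨E, hE⟩ : ∃ E : ℕ → Finset ℕ, E = fun j => (range (8 * Y j)).filter (fun s => Even s ∧
      2 * Y j + Y j / 8 ≤ s ∧ s + Y j / 8 ≤ 4 * Y j ∧
      (rep A B s : ℝ) < Y j / (Real.log (Y j)) ^ C) := ⟨_, rfl⟩
  have hYX : ∀ j ≤ J, Y j ≤ X := by
    intro j hj
    have : (Y j : ℝ) ≤ X := ((hYj j hj).1).trans (htj j hj).2
    exact_mod_cast this
  have hEj : ∀ j ≤ J, ((E j).card : ℝ) ≤ ε / (2 * (J + 1)) * X := by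
    intro j hj
    have a1 : X₁ ≤ Y j := by
      have : (X₁ : ℝ) ≤ Y j := by
        have a2 := (hYj j hj).2
        have a3 := (htj j hj).1
        linarith
      exact_mod_cast this
    have a2 : Y j ≤ X := hYX j hj
    have a3 := h1 (Y j) a1 A B (fun x hx h => hA x (by omega) h) (fun x hx h => hB x (by omega) h)
    rw [hE]
    refine a3.trans ?_
    have : (Y j : ℝ) ≤ X := by exact_mod_cast a2
    gcongr
  -- covering
  have hcov : (Icc 1 X).filter (fun n => (rep A B (2 * n) : ℝ) < X / (Real.log X) ^ (C + 1)) ⊆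
      Icc 1 ⌊ε * X / 2⌋₊ ∪ (range (J + 1)).biUnion (fun j => (E j).image (fun s => s / 2)) := by
    intro n hn
    rw [mem_filter, mem_Icc] at hn
    obtain ⟨⟨hn1, hnX⟩, hrep⟩ := hn
    rw [mem_union]
    by_cases hc : (n : ℝ) ≤ ε * X / 2
    · left
      rw [mem_Icc]
      exact ⟨hn1, Nat.le_floor hc⟩
    · right
      push Not at hc
      obtain ⟨j, hj, b1, b2⟩ := All_scale X hX0 ε J hJ n hc.le (by exact_mod_cast hnX)
      rw [mem_biUnion]
      refine ⟨j, by rw [mem_range]; omega, ?_⟩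
      rw [mem_image]
      refine ⟨2 * n, ?_, by omega⟩
      have htd : t j = X * (2 / 3 : ℝ) ^ (j + 1) := by rw [ht]
      rw [← htd] at b1 b2
      have b3 : 1000 ≤ t j := by
        have a3 := (htj j hj).1
        have a4 : (0 : ℝ) ≤ X₁ := Nat.cast_nonneg _
        linarith
      obtain ⟨c1, c2, c3⟩ := All_Y (t j) b3 (Y j) n (by rw [hY]) b1 b2
      rw [hE]
      simp only [mem_filter, mem_range]
      refine ⟨c1, even_two_mul n, c2, c3, ?_⟩
      refine hrep.trans_le ?_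
      have d1 : δ / 2 * X ≤ Y j := by
        have a2 := (hYj j hj).2
        have a3 := (htj j hj).1
        have a4 : (0 : ℝ) ≤ X₁ := Nat.cast_nonneg _
        linarith
      have d2 : 1000 ≤ (Y j : ℝ) + 1 := by
        have a2 := (hYj j hj).2
        linarith
      have d3 : (Y j : ℝ) ≤ X := by exact_mod_cast hYX j hj
      have d4 : 0 < Real.log (Y j) := Real.log_pos (by linarith)
      have d5 : Real.log (Y j) ≤ Real.log X := Real.log_le_log (by linarith) d3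
      have d6 : 1 ≤ δ / 2 * Real.log X := by
        have : 2 / δ ≤ Real.log X := by linarith
        rw [div_le_iff₀ hδ0] at this
        linarith
      have d7 : (Real.log (Y j)) ^ C ≤ (Real.log X) ^ C := pow_le_pow_left₀ d4.le d5 C
      calc X / (Real.log X) ^ (C + 1) ≤ (δ / 2 * X) / (Real.log X) ^ C := by
            rw [pow_succ, div_le_div_iff₀ (by positivity) (by positivity)]
            calc X * (Real.log X) ^ C = X * (Real.log X) ^ C * 1 := by ring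
              _ ≤ X * (Real.log X) ^ C * (δ / 2 * Real.log X) := by gcongr
              _ = δ / 2 * X * ((Real.log X) ^ C * Real.log X) := by ring
        _ ≤ Y j / (Real.log (Y j)) ^ C := by gcongr
  have hfin := card_le_card hcov
  have hfin2 : (((Icc 1 X).filter (fun n => (rep A B (2 * n) : ℝ) < X / (Real.log X) ^ (C + 1))).card : ℝ) ≤
      ((Icc 1 ⌊ε * X / 2⌋₊).card : ℝ) + ∑ j ∈ range (J + 1), ((E j).card : ℝ) := by
    have e1 : (Icc 1 ⌊ε * X / 2⌋₊ ∪ (range (J + 1)).biUnion (fun j => (E j).image (fun s => s / 2))).card ≤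
        (Icc 1 ⌊ε * X / 2⌋₊).card + ∑ j ∈ range (J + 1), (E j).card := by
      refine (card_union_le _ _).trans ?_
      apply Nat.add_le_add_left
      refine card_biUnion_le.trans ?_
      exact sum_le_sum fun j _ => card_image_le
    exact_mod_cast hfin.trans e1
  refine hfin2.trans ?_
  rw [Nat.card_Icc, Nat.add_sub_cancel]
  have f1 : ((⌊ε * X / 2⌋₊ : ℕ) : ℝ) ≤ ε * X / 2 := Nat.floor_le (by positivity)
  have f2 : ∑ j ∈ range (J + 1), ((E j).card : ℝ) ≤ ∑ j ∈ range (J + 1), ε / (2 * (J + 1)) * X :=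
    sum_le_sum fun j hj => hEj j (by rw [mem_range] at hj; omega)
  rw [sum_const, card_range, nsmul_eq_mul] at f2
  have f3 : ((J + 1 : ℕ) : ℝ) * (ε / (2 * (J + 1)) * X) = ε * X / 2 := by
    push_cast
    field_simp
  rw [f3] at f2
  linarith

end Pool.Agent.Lib.SG
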