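import Pool.Agent.Lib.SG.One7

/-!
# SG-All7: all scales, clusters of bounded length (helper10)

PROOF. λ = loglog X, δ = 1/(2D), p = λ^δ (so `p^(2D) = λ`), ε = 2/(5p); `(1/ε)^D = (5p/2)^D ≤ λ/2 ≤ loglog Y` for `Y ≥ √X`.
Scales t_j = X (2/3)^(j+1), Y_j = ⌊t_j⌋, j ≤ J with `2ε/9 ≤ (2/3)^(J+1) ≤ ε/3`. Every n ≥ ε X/2, n ≤ X, has 1.1 t_j ≤ n ≤ 1.9 t_j for some j ≤ J, so 2n is in the range of `one7` for Y_j. Total
`ε X/2 + ∑_j ε t_j ≤ 5 ε X/2 = X/p`.
-/

set_option autoImplicit false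

open Finset

namespace Pool.Agent.Lib.SG

open Pool.Agent.Lib.MT

private theorem All7_scale (X : ℝ) (hX : 0 < X) (ε : ℝ) (J : ℕ) (hJ : (2 / 3 : ℝ) ^ (J + 1) ≤ ε / 3) (n : ℝ)
    (hn : ε * X / 2 ≤ n) (hnX : n ≤ X) :
    ∃ j ≤ J, 11 / 10 * (X * (2 / 3 : ℝ) ^ (j + 1)) ≤ n ∧ n ≤ 19 / 10 * (X * (2 / 3 : ℝ) ^ (j + 1)) := by
  classical
  have hex : ∃ j : ℕ, 11 / 10 * (X * (2 / 3 : ℝ) ^ (j + 1)) ≤ n := by
    refine ⟨J, ?_⟩
    have : X * (2 / 3 : ℝ) ^ (J + 1) ≤ X * (ε / 3) := mul_le_mul_of_nonneg_left hJ hX.le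
    have h0 : 0 < X * (2 / 3 : ℝ) ^ (J + 1) := by positivity
    linarith
  have hJ' : 11 / 10 * (X * (2 / 3 : ℝ) ^ (J + 1)) ≤ n := by
    have : X * (2 / 3 : ℝ) ^ (J + 1) ≤ X * (ε / 3) := mul_le_mul_of_nonneg_left hJ hX.le
    have h0 : 0 < X * (2 / 3 : ℝ) ^ (J + 1) := by positivity
    linarith
  refine ⟨Nat.find hex, Nat.find_min' hex hJ', Nat.find_spec hex, ?_⟩
  rcases Nat.eq_zero_or_pos (Nat.find hex) with h | h
  · rw [h]
    norm_num
    linarith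
  · have h1 := Nat.find_min hex (Nat.sub_lt h one_pos)
    push Not at h1
    have h2 : Nat.find hex - 1 + 1 = Nat.find hex := Nat.sub_add_cancel h
    rw [h2] at h1
    rw [pow_succ]
    have h0 : 0 < X * (2 / 3 : ℝ) ^ (Nat.find hex) := by positivity
    linarith

private theorem All7_Y (t : ℝ) (ht : 1000 ≤ t) (Y n : ℕ) (hY : Y = ⌊t⌋₊) (h1 : 11 / 10 * t ≤ n)
    (h2 : (n : ℝ) ≤ 19 / 10 * t) :
    2 * n < 8 * Y ∧ 2 * Y + Y / 8 ≤ 2 * n ∧ 2 * n + Y / 8 ≤ 4 * Y := by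
  have a1 : (Y : ℝ) ≤ t := by
    rw [hY]
    exact Nat.floor_le (by linarith)
  have a2 : t < Y + 1 := by
    rw [hY]
    exact Nat.lt_floor_add_one _
  have b1 : (22 * (Y : ℝ)) ≤ 20 * n := by linarith
  have b2 : (20 * (n : ℝ)) ≤ 38 * Y + 38 := by linarith
  have b3 : 22 * Y ≤ 20 * n := by exact_mod_cast b1
  have b4 : 20 * n ≤ 38 * Y + 38 := by exact_mod_cast b2
  have b5 : (999 : ℝ) ≤ Y := by linarith
  have b6 : 999 ≤ Y := by exact_mod_cast b5
  omega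

private theorem All7_geom (n : ℕ) : ∑ j ∈ range n, (2 / 3 : ℝ) ^ (j + 1) ≤ 2 := by
  have h : ∑ j ∈ range n, (2 / 3 : ℝ) ^ (j + 1) = 2 - 2 * (2 / 3) ^ n := by
    induction n with
    | zero => simp
    | succ n ih =>
      rw [sum_range_succ, ih, pow_succ]
      ring
  rw [h]
  have : (0 : ℝ) < 2 * (2 / 3) ^ n := by positivity
  linarith

private theorem All7_J (ε : ℝ) (hε : 0 < ε) (hε1 : ε ≤ 1) :
    ∃ J : ℕ, (2 / 3 : ℝ) ^ (J + 1) ≤ ε / 3 ∧ 2 * ε / 9 ≤ (2 / 3 : ℝ) ^ (J + 1) := by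
  classical
  have hex : ∃ J : ℕ, (2 / 3 : ℝ) ^ J ≤ ε / 3 := by
    obtain ⟨J, hJ⟩ := exists_pow_lt_of_lt_one (show 0 < ε / 3 by positivity) (show (2 / 3 : ℝ) < 1 by norm_num)
    exact ⟨J, hJ.le⟩
  have h0 : 0 < Nat.find hex := by
    rw [Nat.find_pos]
    rw [pow_zero]
    linarith
  have h1 := Nat.find_min hex (Nat.sub_lt h0 one_pos)
  push Not at h1
  refine ⟨Nat.find hex - 1, ?_, ?_⟩
  · rw [Nat.sub_add_cancel h0]
    exact Nat.find_spec hex
  · rw [pow_succ]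
    linarith

/-- the numerical facts for large X -/
private theorem All7_num (D X₁ : ℕ) (hD : 1 ≤ D) : ∃ X₀ : ℕ, ∀ X : ℕ, X₀ ≤ X →
    9 ≤ Real.log X ∧ 5 ^ (2 * D) ≤ Real.log (Real.log X) ∧ 45 / 2 * Real.log (Real.log X) ≤ Real.log X ∧
    Real.sqrt X + X₁ + 1001 ≤ 4 / (45 * Real.log (Real.log X)) * X := by
  have hl := RNum6_log
  have hll := Real.tendsto_log_atTop.comp RNum6_log
  have ho1 := Real.isLittleO_log_id_atTop.bound (show (0 : ℝ) < 2 / 45 by norm_num)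
  obtain ⟨y₁, hy₁⟩ := Filter.eventually_atTop.1 ho1
  have ho2 := (isLittleO_log_rpow_atTop (show (0 : ℝ) < 1 / 2 by norm_num)).bound
    (show (0 : ℝ) < 2 / 45 by norm_num)
  obtain ⟨y₂, hy₂⟩ := Filter.eventually_atTop.1 ho2
  obtain ⟨X₂, h2⟩ := Filter.eventually_atTop.1 (hl.eventually_ge_atTop (max 9 y₁))
  obtain ⟨X₃, h3⟩ := Filter.eventually_atTop.1 (hll.eventually_ge_atTop ((5 : ℝ) ^ (2 * D)))
  obtain ⟨X₄, h4⟩ : ∃ X₄ : ℕ, max y₂ (((X₁ : ℝ) + 1001) ^ 2) ≤ (X₄ : ℝ) := exists_nat_ge _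
  refine ⟨max (max X₂ X₃) (max X₄ 3), fun X hX => ?_⟩
  simp only [max_le_iff] at hX
  obtain ⟨⟨hX2, hX3⟩, hX4, hX5⟩ := hX
  have a2 := h2 X hX2
  rw [max_le_iff] at a2
  have a3 : (5 : ℝ) ^ (2 * D) ≤ Real.log (Real.log X) := h3 X hX3
  have a4 : max y₂ (((X₁ : ℝ) + 1001) ^ 2) ≤ (X : ℝ) := h4.trans (by exact_mod_cast hX4)
  rw [max_le_iff] at a4
  have hXR : (3 : ℝ) ≤ X := by exact_mod_cast hX5
  have hX0 : (0 : ℝ) < X := by linarith
  have hL0 : 0 < Real.log X := by linarith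
  have h51 : (1 : ℝ) ≤ 5 ^ (2 * D) := one_le_pow₀ (by norm_num)
  have hll0 : 0 < Real.log (Real.log X) := by linarith
  have b1 := hy₁ (Real.log X) a2.2
  rw [Real.norm_of_nonneg hll0.le, id, Real.norm_of_nonneg hL0.le] at b1
  have b2 := hy₂ (X : ℝ) a4.1
  rw [Real.norm_of_nonneg hL0.le, Real.norm_of_nonneg (by positivity), ← Real.sqrt_eq_rpow] at b2
  refine ⟨a2.1, a3, by linarith, ?_⟩
  have hs : (X₁ : ℝ) + 1001 ≤ Real.sqrt X := by
    apply Real.le_sqrt_of_sq_le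
    exact a4.2
  have hs0 : 0 < Real.sqrt X := Real.sqrt_pos.2 hX0
  have hss : Real.sqrt X * Real.sqrt X = X := Real.mul_self_sqrt hX0.le
  have c1 : Real.log (Real.log X) ≤ Real.log X := by linarith
  have c2 : 4 / (45 * Real.log (Real.log X)) * X = 4 * X / (45 * Real.log (Real.log X)) := by ring
  rw [c2, le_div_iff₀ (by positivity)]
  calc (Real.sqrt X + X₁ + 1001) * (45 * Real.log (Real.log X))
      ≤ (2 * Real.sqrt X) * (45 * Real.log X) := by
        apply mul_le_mul (by linarith) (by linarith) (by positivity) (by positivity)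
    _ ≤ (2 * Real.sqrt X) * (45 * (2 / 45 * Real.sqrt X)) := by gcongr
    _ = 4 * (Real.sqrt X * Real.sqrt X) := by ring
    _ = 4 * X := by rw [hss]

private theorem All7_loglog (X Y : ℝ) (hX : 0 < X) (hL : 9 ≤ Real.log X) (hll : 5 ≤ Real.log (Real.log X))
    (hY : Real.sqrt X ≤ Y) : Real.log (Real.log X) / 2 ≤ Real.log (Real.log Y) := by
  have hs0 : 0 < Real.sqrt X := Real.sqrt_pos.2 hX
  have h1 : Real.log X / 2 ≤ Real.log Y := by
    rw [← Real.log_sqrt hX.le]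
    exact Real.log_le_log hs0 hY
  have h2 : Real.log (Real.log X / 2) ≤ Real.log (Real.log Y) := Real.log_le_log (by linarith) h1
  rw [Real.log_div (by linarith) (by norm_num)] at h2
  have h3 : Real.log 2 ≤ 1 := by
    have := Real.log_two_lt_d9
    linarith
  linarith

open Classical in
theorem all7 (m : ℕ) (hm : 1 ≤ m) : ∃ H C : ℕ, ∃ δ : ℝ, 0 < δ ∧ ∃ X₀ : ℕ, ∀ X : ℕ, X₀ ≤ X →
    ∀ A B : Set ℕ, Hit m H (2 * X) A → Hit m H (2 * X) B →
    (((Icc 1 X).filter (fun n => (rep A B (2 * n) : ℝ) < X / (Real.log X) ^ C)).card : ℝ) ≤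
      X / (Real.log (Real.log X)) ^ δ := by
  obtain ⟨H, C, D₀, X₁, h1'⟩ := one7 m hm
  obtain ⟨D, hD1, hDD⟩ : ∃ D : ℕ, 1 ≤ D ∧ D₀ ≤ D := ⟨D₀ + 1, by omega, by omega⟩
  obtain ⟨X₀, hnum⟩ := All7_num D X₁ hD1
  have hDR : (1 : ℝ) ≤ D := by exact_mod_cast hD1
  obtain ⟨δ', hδ'⟩ : ∃ δ' : ℝ, δ' = ((2 * D : ℕ) : ℝ)⁻¹ := ⟨_, rfl⟩
  have hδ'0 : 0 < δ' := by
    rw [hδ']
    have : 0 < 2 * D := by omega
    positivity
  refine ⟨H, C + 1, δ', hδ'0, max X₀ 3, fun X hX A B hA hB => ?_⟩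
  rw [max_le_iff] at hX
  obtain ⟨hL9, hll5, hllL, hsq⟩ := hnum X hX.1
  have hX1 := hX.2
  have hXX : (3 : ℝ) ≤ X := by exact_mod_cast hX1
  have hX0 : (0 : ℝ) < X := by linarith
  have hlog0 : 0 < Real.log X := by linarith
  obtain ⟨l, hl⟩ : ∃ l : ℝ, l = Real.log (Real.log X) := ⟨_, rfl⟩
  rw [← hl] at hll5 hllL hsq ⊢
  have h51 : (5 : ℝ) ≤ 5 ^ (2 * D) := by
    calc (5 : ℝ) = 5 ^ 1 := (pow_one _).symm
      _ ≤ 5 ^ (2 * D) := pow_le_pow_right₀ (by norm_num) (by omega)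
  have hl5 : 5 ≤ l := h51.trans hll5
  have hl0 : 0 < l := by linarith
  obtain ⟨p, hp⟩ : ∃ p : ℝ, p = l ^ δ' := ⟨_, rfl⟩
  have hpp : p ^ (2 * D) = l := by
    rw [hp, hδ']
    exact Real.rpow_inv_natCast_pow hl0.le (by omega)
  have hp0 : 0 < p := by
    rw [hp]
    positivity
  have hp5 : 5 ≤ p := by
    by_contra hc
    push Not at hc
    have : p ^ (2 * D) < 5 ^ (2 * D) := pow_lt_pow_left₀ hc hp0.le (by omega)
    rw [hpp] at this
    linarith
  have hpl : p ≤ l := by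
    calc p = p ^ 1 := (pow_one _).symm
      _ ≤ p ^ (2 * D) := pow_le_pow_right₀ (by linarith) (by omega)
      _ = l := hpp
  rw [← hp]
  obtain ⟨ε, hε⟩ : ∃ ε : ℝ, ε = 2 / (5 * p) := ⟨_, rfl⟩
  have hε0 : 0 < ε := by
    rw [hε]
    positivity
  have hε1 : ε ≤ 1 := by
    rw [hε, div_le_one (by positivity)]
    linarith
  have hεl : 2 / (5 * l) ≤ ε := by
    rw [hε]
    apply div_le_div_of_nonneg_left (by norm_num) (by positivity)
    linarith
  have hεD : (1 / ε) ^ D₀ ≤ l / 2 := by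
    have a1 : 1 / ε = 5 / 2 * p := by
      rw [hε]
      field_simp
    have a2 : (1 : ℝ) ≤ 1 / ε := by
      rw [a1]
      linarith
    refine (pow_le_pow_right₀ a2 hDD).trans ?_
    rw [a1, mul_pow, ← hpp, pow_mul', sq]
    have a3 : 2 * (5 / 2 : ℝ) ^ D ≤ p ^ D := by
      calc 2 * (5 / 2 : ℝ) ^ D = 2 ^ 1 * (5 / 2) ^ D := by ring
        _ ≤ 2 ^ D * (5 / 2) ^ D := by
            apply mul_le_mul_of_nonneg_right _ (by positivity)
            exact pow_le_pow_right₀ (by norm_num) hD1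
        _ = 5 ^ D := by rw [← mul_pow]; norm_num
        _ ≤ p ^ D := pow_le_pow_left₀ (by norm_num) hp5 D
    have a4 : 0 < p ^ D := by positivity
    nlinarith
  obtain ⟨J, hJ, hJ2⟩ := All7_J ε hε0 hε1
  obtain ⟨δ, hδ⟩ : ∃ δ : ℝ, δ = (2 / 3 : ℝ) ^ (J + 1) := ⟨_, rfl⟩
  have hδ0 : 0 < δ := by
    rw [hδ]
    positivity
  have hδl : 4 / (45 * l) ≤ δ := by
    rw [hδ]
    refine le_trans ?_ hJ2
    have : 4 / (45 * l) = 2 * (2 / (5 * l)) / 9 := by
      field_simp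
      norm_num
    rw [this]
    linarith
  have hδX : Real.sqrt X + X₁ + 1001 ≤ δ * X := hsq.trans (mul_le_mul_of_nonneg_right hδl hX0.le)
  have hs0 : 0 ≤ Real.sqrt X := Real.sqrt_nonneg _
  obtain ⟨t, ht⟩ : ∃ t : ℕ → ℝ, t = fun j => X * (2 / 3 : ℝ) ^ (j + 1) := ⟨_, rfl⟩
  have htj : ∀ j ≤ J, δ * X ≤ t j ∧ t j ≤ X := by
    intro j hj
    rw [ht, hδ]
    simp only
    constructor
    · rw [mul_comm]
      apply mul_le_mul_of_nonneg_left _ hX0.le
      exact pow_le_pow_of_le_one (by norm_num) (by norm_num) (by omega)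
    · exact mul_le_of_le_one_right hX0.le (pow_le_one₀ (by norm_num) (by norm_num))
  obtain ⟨Y, hY⟩ : ∃ Y : ℕ → ℕ, Y = fun j => ⌊t j⌋₊ := ⟨_, rfl⟩
  have hYj : ∀ j ≤ J, (Y j : ℝ) ≤ t j ∧ t j < Y j + 1 := by
    intro j hj
    have h0 : 0 ≤ t j := by
      have := (htj j hj).1
      have h0 : 0 < δ * X := by positivity
      linarith
    rw [hY]
    exact ⟨Nat.floor_le h0, Nat.lt_floor_add_one _⟩
  obtain ⟨E, hE⟩ : ∃ E : ℕ → Finset ℕ, E = fun j => (range (8 * Y j)).filter (fun s => Even s ∧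
      2 * Y j + Y j / 8 ≤ s ∧ s + Y j / 8 ≤ 4 * Y j ∧
      (rep A B s : ℝ) < Y j / (Real.log (Y j)) ^ C) := ⟨_, rfl⟩
  have hYX : ∀ j ≤ J, Y j ≤ X := by
    intro j hj
    have : (Y j : ℝ) ≤ X := ((hYj j hj).1).trans (htj j hj).2
    exact_mod_cast this
  have hX₁0 : (0 : ℝ) ≤ X₁ := Nat.cast_nonneg _
  have hEj : ∀ j ≤ J, ((E j).card : ℝ) ≤ ε * t j := by
    intro j hj
    have a2' := (hYj j hj).2
    have a3' := (htj j hj).1
    have a1 : X₁ ≤ Y j := by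
      have : (X₁ : ℝ) ≤ Y j := by linarith
      exact_mod_cast this
    have a2 : Y j ≤ X := hYX j hj
    have a4 : (1 / ε) ^ D₀ ≤ Real.log (Real.log (Y j)) := by
      refine hεD.trans ?_
      rw [hl]
      exact All7_loglog X (Y j) hX0 hL9 (by rw [← hl]; exact hl5) (by linarith)
    have a3 := h1' (Y j) a1 ε hε0 hε1 a4 A B (fun x hx h => hA x (by omega) h)
      (fun x hx h => hB x (by omega) h)
    rw [hE]
    refine a3.trans ?_
    exact mul_le_mul_of_nonneg_left (hYj j hj).1 hε0.le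
  -- covering
  have hcov : (Icc 1 X).filter (fun n => (rep A B (2 * n) : ℝ) < X / (Real.log X) ^ (C + 1)) ⊆
      Icc 1 ⌊ε * X / 2⌋₊ ∪ (range (J + 1)).biUnion (fun j => (E j).image (fun s => s / 2)) := by
    intro n hn
    rw [mem_filter, mem_Icc] at hn
    obtain ⟨⟨hn1, hnX⟩, hrep⟩ := hn
    rw [mem_union]
    by_cases hc : (n : ℝ) ≤ ε * X / 2
    · left
      rw [mem_Icc]
      exact ⟨hn1, Nat.le_floor hc⟩
    · right
      push Not at hc
      obtain ⟨j, hj, b1, b2⟩ := All7_scale X hX0 ε J hJ n hc.le (by exact_mod_cast hnX)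
      rw [mem_biUnion]
      refine ⟨j, by rw [mem_range]; omega, ?_⟩
      rw [mem_image]
      refine ⟨2 * n, ?_, by omega⟩
      have htd : t j = X * (2 / 3 : ℝ) ^ (j + 1) := by rw [ht]
      rw [← htd] at b1 b2
      have b3 : 1000 ≤ t j := by
        have a3 := (htj j hj).1
        linarith
      obtain ⟨c1, c2, c3⟩ := All7_Y (t j) b3 (Y j) n (by rw [hY]) b1 b2
      rw [hE]
      simp only [mem_filter, mem_range]
      refine ⟨c1, even_two_mul n, c2, c3, ?_⟩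
      refine hrep.trans_le ?_
      have d1 : δ / 2 * X ≤ Y j := by
        have a2 := (hYj j hj).2
        have a3 := (htj j hj).1
        have h0 : 0 < δ * X := by positivity
        have h1 : δ / 2 * X = δ * X / 2 := by ring
        linarith
      have d2 : 1000 ≤ (Y j : ℝ) + 1 := by
        have a2 := (hYj j hj).2
        linarith
      have d3 : (Y j : ℝ) ≤ X := by exact_mod_cast hYX j hj
      have d4 : 0 < Real.log (Y j) := Real.log_pos (by linarith)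
      have d5 : Real.log (Y j) ≤ Real.log X := Real.log_le_log (by linarith) d3
      have d6 : 1 ≤ δ / 2 * Real.log X := by
        have e1 : 45 / 2 * l * (δ / 2) ≤ Real.log X * (δ / 2) := by
          apply mul_le_mul_of_nonneg_right hllL
          positivity
        have e2 : 4 ≤ δ * (45 * l) := by
          rw [div_le_iff₀ (by positivity)] at hδl
          linarith
        linarith
      have d7 : (Real.log (Y j)) ^ C ≤ (Real.log X) ^ C := pow_le_pow_left₀ d4.le d5 C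
      calc X / (Real.log X) ^ (C + 1) ≤ (δ / 2 * X) / (Real.log X) ^ C := by
            rw [pow_succ, div_le_div_iff₀ (by positivity) (by positivity)]
            calc X * (Real.log X) ^ C = X * (Real.log X) ^ C * 1 := by ring
              _ ≤ X * (Real.log X) ^ C * (δ / 2 * Real.log X) := by gcongr
              _ = δ / 2 * X * ((Real.log X) ^ C * Real.log X) := by ring
        _ ≤ Y j / (Real.log (Y j)) ^ C := by gcongr
  have hfin := card_le_card hcov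
  have hfin2 : (((Icc 1 X).filter (fun n => (rep A B (2 * n) : ℝ) < X / (Real.log X) ^ (C + 1))).card : ℝ) ≤
      ((Icc 1 ⌊ε * X / 2⌋₊).card : ℝ) + ∑ j ∈ range (J + 1), ((E j).card : ℝ) := by
    have e1 : (Icc 1 ⌊ε * X / 2⌋₊ ∪ (range (J + 1)).biUnion (fun j => (E j).image (fun s => s / 2))).card ≤
        (Icc 1 ⌊ε * X / 2⌋₊).card + ∑ j ∈ range (J + 1), (E j).card := by
      refine (card_union_le _ _).trans ?_
      apply Nat.add_le_add_left
      refine card_biUnion_le.trans ?_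
      exact sum_le_sum fun j _ => card_image_le
    exact_mod_cast hfin.trans e1
  refine hfin2.trans ?_
  rw [Nat.card_Icc, Nat.add_sub_cancel]
  have f1 : ((⌊ε * X / 2⌋₊ : ℕ) : ℝ) ≤ ε * X / 2 := Nat.floor_le (by positivity)
  have f2 : ∑ j ∈ range (J + 1), ((E j).card : ℝ) ≤ ∑ j ∈ range (J + 1), ε * t j :=
    sum_le_sum fun j hj => hEj j (by rw [mem_range] at hj; omega)
  have f3 : ∑ j ∈ range (J + 1), ε * t j ≤ ε * X * 2 := by
    calc ∑ j ∈ range (J + 1), ε * t j = ε * X * ∑ j ∈ range (J + 1), (2 / 3 : ℝ) ^ (j + 1) := by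
          rw [mul_sum, ht]
          refine sum_congr rfl fun j _ => ?_
          ring
      _ ≤ ε * X * 2 := mul_le_mul_of_nonneg_left (All7_geom _) (by positivity)
  have f4 : X / p = 5 / 2 * (ε * X) := by
    rw [hε]
    field_simp
  rw [f4]
  linarith

end Pool.Agent.Lib.SG
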