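import Pool.Agent.Lib.SG.Tail

/-!
# SG-Amft: the Fourier coefficients of the adversary's weights

`fa A h w i x` = the part of `w x` with `x + h i ∈ A` prime.
PROOF. `am_eq`: `am A h w n = ∑_i (fa i)(n - h i)` for n ≥ h i. `ft_am`: exchange the sums, n = x + h i (w is supported on (X, 2X], h i ≤ X, so
n ≤ 3X < 4X). `am_supp`, `am_mass`: the same substitution. `am_tail`: on the set of the ξ where all `‖FT (fa i)‖ < η X`:
`‖FT am‖⁴ ≤ k³ ∑_i ‖FT (fa i)‖⁴` (Hölder / `inner_le_nnorm_mul_nnorm`, `inner_mul_le_norm`, or `Finset.inner_mul_le..`; e.g. `pow_arith_mean_le_arith_mean_pow`), `tail` for each i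
(0 ≤ fa i ≤ w). `am_l4`: the same with `l4`.
-/

set_option autoImplicit false

open Finset

namespace Pool.Agent.Lib.SG

open Classical in
/-- the part of the weight on which `x + h i` is a prime of `A` -/
noncomputable def fa {k : ℕ} (A : Set ℕ) (h : Fin k → ℕ) (w : ℕ → ℝ) (i : Fin k) (x : ℕ) : ℝ :=
  if x + h i ∈ A ∧ (x + h i).Prime then w x else 0

private theorem amft_subst {M : Type*} [AddCommMonoid M] (X h : ℕ) (hh : h ≤ X) (G : ℕ → M)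
    (hG : ∀ x, x ∉ Ioc X (2 * X) → G x = 0) (S : Finset ℕ) (hS : Ioc X (3 * X) ⊆ S) :
    ∑ n ∈ S, (if h ≤ n then G (n - h) else 0) = ∑ x ∈ Ioc X (2 * X), G x := by
  have h1 : ∑ x ∈ Ioc X (2 * X), G x =
      ∑ n ∈ (Ioc X (2 * X)).map (addRightEmbedding h), (if h ≤ n then G (n - h) else 0) := by
    rw [sum_map]
    refine sum_congr rfl fun x _ => ?_
    rw [addRightEmbedding_apply, if_pos (by omega), Nat.add_sub_cancel]
  rw [h1]
  symm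
  refine sum_subset ?_ ?_
  · intro n hn
    rw [mem_map] at hn
    obtain ⟨x, hx, rfl⟩ := hn
    rw [mem_Ioc] at hx
    apply hS
    rw [addRightEmbedding_apply, mem_Ioc]
    omega
  · intro n _ hn
    by_cases h2 : h ≤ n
    · rw [if_pos h2]
      refine hG _ fun h3 => hn ?_
      rw [mem_map]
      exact ⟨n - h, h3, by rw [addRightEmbedding_apply]; omega⟩
    · rw [if_neg h2]

private theorem am_eq {k : ℕ} (A : Set ℕ) (h : Fin k → ℕ) (w : ℕ → ℝ) (n : ℕ) :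
    am A h w n = ∑ i, if h i ≤ n then fa A h w i (n - h i) else 0 := by
  classical
  unfold am fa
  refine sum_congr rfl fun i _ => ?_
  by_cases h1 : h i ≤ n
  · have h2 : n - h i + h i = n := by omega
    rw [if_pos h1, h2]
    by_cases h3 : n ∈ A ∧ n.Prime
    · rw [if_pos h3, if_pos ⟨h1, h3⟩]
    · rw [if_neg h3, if_neg (fun h4 => h3 h4.2)]
  · rw [if_neg h1, if_neg (fun h4 => h1 h4.1)]

private theorem fa_supp {k : ℕ} (A : Set ℕ) (h : Fin k → ℕ) (w : ℕ → ℝ) (X : ℕ)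
    (hw : ∀ x, x ∉ Ioc X (2 * X) → w x = 0) (i : Fin k) (x : ℕ) (hx : x ∉ Ioc X (2 * X)) :
    fa A h w i x = 0 := by
  unfold fa
  split_ifs
  · exact hw x hx
  · rfl

private theorem fa_bd {k : ℕ} (A : Set ℕ) (h : Fin k → ℕ) (w : ℕ → ℝ) (hw0 : ∀ x, 0 ≤ w x)
    (i : Fin k) (x : ℕ) : 0 ≤ fa A h w i x ∧ fa A h w i x ≤ w x := by
  unfold fa
  split_ifs
  · exact ⟨hw0 x, le_rfl⟩
  · exact ⟨le_rfl, hw0 x⟩

theorem am_supp {k : ℕ} (A : Set ℕ) (h : Fin k → ℕ) (w : ℕ → ℝ) (X : ℕ) (hh : ∀ i, h i ≤ X)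
    (hw : ∀ x, x ∉ Ioc X (2 * X) → w x = 0) (hw0 : ∀ x, 0 ≤ w x) :
    (∀ n, n ∉ Ioc X (3 * X) → am A h w n = 0) ∧ (∀ n, 0 ≤ am A h w n) ∧
    (∀ φ : ℕ → ℝ, ∑ n ∈ Ioc X (3 * X), am A h w n * φ n =
      ∑ i, ∑ x ∈ Ioc X (2 * X), fa A h w i x * φ (x + h i)) ∧
    ∑ n ∈ Ioc X (3 * X), am A h w n ≤ k * ∑ x ∈ Ioc X (2 * X), w x ∧
    ∑ n ∈ Ioc X (3 * X), (am A h w n) ^ 2 ≤ k ^ 2 * ∑ x ∈ Ioc X (2 * X), (w x) ^ 2 := by
  have hφ : ∀ φ : ℕ → ℝ, ∑ n ∈ Ioc X (3 * X), am A h w n * φ n =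
      ∑ i, ∑ x ∈ Ioc X (2 * X), fa A h w i x * φ (x + h i) := by
    intro φ
    have h1 : ∀ n ∈ Ioc X (3 * X), am A h w n * φ n =
        ∑ i, if h i ≤ n then fa A h w i (n - h i) * φ (n - h i + h i) else 0 := by
      intro n _
      rw [am_eq, sum_mul]
      refine sum_congr rfl fun i _ => ?_
      by_cases h2 : h i ≤ n
      · have h3 : n - h i + h i = n := by omega
        rw [if_pos h2, if_pos h2, h3]
      · rw [if_neg h2, if_neg h2, zero_mul]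
    rw [sum_congr rfl h1, sum_comm]
    refine sum_congr rfl fun i _ => ?_
    exact amft_subst X (h i) (hh i) (fun x => fa A h w i x * φ (x + h i))
      (fun x hx => by rw [fa_supp A h w X hw i x hx, zero_mul]) _ (subset_refl _)
  refine ⟨?_, ?_, hφ, ?_, ?_⟩
  · intro n hn
    rw [am_eq]
    refine sum_eq_zero fun i _ => ?_
    by_cases h2 : h i ≤ n
    · rw [if_pos h2]
      refine fa_supp A h w X hw i _ fun h3 => hn ?_
      rw [mem_Ioc] at h3 ⊢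
      have := hh i
      omega
    · rw [if_neg h2]
  · intro n
    rw [am_eq]
    refine sum_nonneg fun i _ => ?_
    split_ifs
    · exact (fa_bd A h w hw0 i _).1
    · exact le_rfl
  · have h1 := hφ fun _ => 1
    simp only [mul_one] at h1
    rw [h1]
    calc ∑ i, ∑ x ∈ Ioc X (2 * X), fa A h w i x ≤ ∑ _i : Fin k, ∑ x ∈ Ioc X (2 * X), w x :=
          sum_le_sum fun i _ => sum_le_sum fun x _ => (fa_bd A h w hw0 i x).2
      _ = k * ∑ x ∈ Ioc X (2 * X), w x := by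
          rw [sum_const, card_univ, Fintype.card_fin, nsmul_eq_mul]
  · have h1 : ∀ n ∈ Ioc X (3 * X), (am A h w n) ^ 2 ≤
        k * ∑ i, if h i ≤ n then (fa A h w i (n - h i)) ^ 2 else 0 := by
      intro n _
      rw [am_eq]
      have h2 := sq_sum_le_card_mul_sum_sq (s := (univ : Finset (Fin k)))
        (f := fun i => if h i ≤ n then fa A h w i (n - h i) else 0)
      rw [card_univ, Fintype.card_fin] at h2
      refine h2.trans (le_of_eq ?_)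
      congr 1
      refine sum_congr rfl fun i _ => ?_
      split_ifs
      · rfl
      · ring
    refine (sum_le_sum h1).trans ?_
    rw [← mul_sum, sum_comm]
    have h3 : ∀ i : Fin k, ∑ n ∈ Ioc X (3 * X), (if h i ≤ n then (fa A h w i (n - h i)) ^ 2 else 0) ≤
        ∑ x ∈ Ioc X (2 * X), (w x) ^ 2 := by
      intro i
      rw [amft_subst X (h i) (hh i) (fun x => (fa A h w i x) ^ 2)
        (fun x hx => by rw [fa_supp A h w X hw i x hx]; ring) _ (subset_refl _)]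
      refine sum_le_sum fun x _ => ?_
      have h4 := fa_bd A h w hw0 i x
      exact pow_le_pow_left₀ h4.1 h4.2 2
    calc (k : ℝ) * ∑ i, ∑ n ∈ Ioc X (3 * X), (if h i ≤ n then (fa A h w i (n - h i)) ^ 2 else 0)
        ≤ k * ∑ _i : Fin k, ∑ x ∈ Ioc X (2 * X), (w x) ^ 2 :=
          mul_le_mul_of_nonneg_left (sum_le_sum fun i _ => h3 i) (Nat.cast_nonneg k)
      _ = k ^ 2 * ∑ x ∈ Ioc X (2 * X), (w x) ^ 2 := by
          rw [sum_const, card_univ, Fintype.card_fin, nsmul_eq_mul]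
          ring

theorem ft_am {k : ℕ} (A : Set ℕ) (h : Fin k → ℕ) (w : ℕ → ℝ) (X : ℕ) (hX : 1 ≤ X) (hh : ∀ i, h i ≤ X)
    (hw : ∀ x, x ∉ Ioc X (2 * X) → w x = 0) (α : ℝ) :
    FT (am A h w) X α = ∑ i, GT.e (α * h i) * FT (fa A h w i) X α := by
  unfold FT
  have h1 : ∀ n ∈ range (4 * X), ((am A h w n : ℝ) : ℂ) * GT.e (α * n) =
      ∑ i, if h i ≤ n then GT.e (α * h i) * (((fa A h w i (n - h i) : ℝ) : ℂ) * GT.e (α * (n - h i : ℕ)))
        else 0 := by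
    intro n _
    rw [am_eq]
    push_cast
    rw [sum_mul]
    refine sum_congr rfl fun i _ => ?_
    by_cases h2 : h i ≤ n
    · rw [if_pos h2, if_pos h2]
      have h3 : GT.e (α * n) = GT.e (α * h i) * GT.e (α * (n - h i : ℕ)) := by
        rw [← GT.e_add]
        congr 1
        rw [Nat.cast_sub h2]
        ring
      rw [h3]
      ring
    · rw [if_neg h2, if_neg h2]
      simp
  rw [sum_congr rfl h1, sum_comm]
  refine sum_congr rfl fun i _ => ?_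
  have h4 := amft_subst X (h i) (hh i)
    (fun x => GT.e (α * h i) * (((fa A h w i x : ℝ) : ℂ) * GT.e (α * x)))
    (fun x hx => by rw [fa_supp A h w X hw i x hx]; simp) (range (4 * X)) (by
      intro n hn
      rw [mem_Ioc] at hn
      rw [mem_range]
      omega)
  rw [h4, ← mul_sum]
  congr 1
  symm
  symm
  refine sum_subset ?_ ?_
  · intro n hn
    rw [mem_Ioc] at hn
    rw [mem_range]
    omega
  · intro n _ hn
    rw [fa_supp A h w X hw i n hn]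
    simp

private theorem amft_pow4 {k : ℕ} (a : Fin k → ℝ) :
    (∑ i, a i) ^ 4 ≤ k ^ 3 * ∑ i, (a i) ^ 4 := by
  have h1 := sq_sum_le_card_mul_sum_sq (s := (univ : Finset (Fin k))) (f := a)
  have h2 := sq_sum_le_card_mul_sum_sq (s := (univ : Finset (Fin k))) (f := fun i => (a i) ^ 2)
  rw [card_univ, Fintype.card_fin] at h1 h2
  have h3 : (0 : ℝ) ≤ k := Nat.cast_nonneg k
  have h4 : ∑ i, ((a i) ^ 2) ^ 2 = ∑ i, (a i) ^ 4 := sum_congr rfl fun i _ => by ring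
  rw [h4] at h2
  calc (∑ i, a i) ^ 4 = ((∑ i, a i) ^ 2) ^ 2 := by ring
    _ ≤ (k * ∑ i, (a i) ^ 2) ^ 2 := pow_le_pow_left₀ (sq_nonneg _) h1 2
    _ = k ^ 2 * (∑ i, (a i) ^ 2) ^ 2 := by ring
    _ ≤ k ^ 2 * (k * ∑ i, (a i) ^ 4) := mul_le_mul_of_nonneg_left h2 (by positivity)
    _ = k ^ 3 * ∑ i, (a i) ^ 4 := by ring

private theorem amft_norm {k : ℕ} (A : Set ℕ) (h : Fin k → ℕ) (w : ℕ → ℝ) (X : ℕ) (hX : 1 ≤ X)
    (hh : ∀ i, h i ≤ X) (hw : ∀ x, x ∉ Ioc X (2 * X) → w x = 0) (α : ℝ) :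
    ‖FT (am A h w) X α‖ ^ 4 ≤ k ^ 3 * ∑ i, ‖FT (fa A h w i) X α‖ ^ 4 := by
  rw [ft_am A h w X hX hh hw α]
  have h1 : ‖∑ i, GT.e (α * h i) * FT (fa A h w i) X α‖ ≤ ∑ i, ‖FT (fa A h w i) X α‖ := by
    refine (norm_sum_le _ _).trans (le_of_eq (sum_congr rfl fun i _ => ?_))
    rw [norm_mul, GT.norm_e, one_mul]
  exact (pow_le_pow_left₀ (norm_nonneg _) h1 4).trans (amft_pow4 _)

theorem am_tail {k : ℕ} (A : Set ℕ) (h : Fin k → ℕ) (w : ℕ → ℝ) (X : ℕ) (hX : 1 ≤ X) (hh : ∀ i, h i ≤ X)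
    (hw : ∀ x, x ∉ Ioc X (2 * X) → w x = 0) (C δ₀ : ℝ) (hC : 1 ≤ C) (hδ₀ : 0 < δ₀)
    (hν : Rst C δ₀ X w) (η : ℝ) (hη : δ₀ ≤ η) (hη1 : η ≤ 1) :
    ∃ Ξ ⊆ range (8 * X), (Ξ.card : ℝ) ≤ k * (11 * C ^ 2 / η ^ 3) ∧
      ∑ ξ ∈ range (8 * X) \ Ξ, ‖FT (am A h w) X ((ξ : ℝ) / (8 * X))‖ ^ 4 ≤
      k ^ 4 * (200 * C ^ 2 * η * X ^ 4 + 8 * δ₀ ^ 2 * X ^ 3 * ∑ n ∈ range (4 * X), (w n) ^ 2) := by
  classical
  have hf : ∀ i n, 0 ≤ fa A h w i n ∧ fa A h w i n ≤ w n := fun i n => fa_bd A h w hν.nonneg i n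
  refine ⟨univ.biUnion fun i => (range (8 * X)).filter (fun ξ : ℕ =>
    η * X ≤ ‖FT (fa A h w i) X ((ξ : ℝ) / (8 * X))‖), ?_, ?_, ?_⟩
  · intro ξ hξ
    rw [mem_biUnion] at hξ
    obtain ⟨i, -, hi⟩ := hξ
    exact (mem_filter.1 hi).1
  · have h1 : ((univ.biUnion fun i => (range (8 * X)).filter (fun ξ : ℕ =>
        η * X ≤ ‖FT (fa A h w i) X ((ξ : ℝ) / (8 * X))‖)).card : ℝ) ≤
        ∑ i, (((range (8 * X)).filter (fun ξ : ℕ =>
        η * X ≤ ‖FT (fa A h w i) X ((ξ : ℝ) / (8 * X))‖)).card : ℝ) := by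
      exact_mod_cast card_biUnion_le
    refine h1.trans ?_
    calc ∑ i, (((range (8 * X)).filter (fun ξ : ℕ =>
        η * X ≤ ‖FT (fa A h w i) X ((ξ : ℝ) / (8 * X))‖)).card : ℝ)
        ≤ ∑ _i : Fin k, 11 * C ^ 2 / η ^ 3 :=
          sum_le_sum fun i _ => large C δ₀ hC hδ₀ X hX w (fa A h w i) hν (hf i) η hη hη1
      _ = k * (11 * C ^ 2 / η ^ 3) := by
          rw [sum_const, card_univ, Fintype.card_fin, nsmul_eq_mul]
  · have h1 : ∀ i : Fin k, ∑ ξ ∈ range (8 * X) \ (univ.biUnion fun i => (range (8 * X)).filter (fun ξ : ℕ =>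
        η * X ≤ ‖FT (fa A h w i) X ((ξ : ℝ) / (8 * X))‖)), ‖FT (fa A h w i) X ((ξ : ℝ) / (8 * X))‖ ^ 4 ≤
        200 * C ^ 2 * η * X ^ 4 + 8 * δ₀ ^ 2 * X ^ 3 * ∑ n ∈ range (4 * X), (w n) ^ 2 := by
      intro i
      refine le_trans ?_ (tail C δ₀ hC hδ₀ X hX w (fa A h w i) hν (hf i) η hη hη1)
      refine sum_le_sum_of_subset_of_nonneg ?_ fun _ _ _ => by positivity
      intro ξ hξ
      rw [mem_sdiff, mem_biUnion] at hξ
      rw [mem_filter]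
      refine ⟨hξ.1, ?_⟩
      by_contra hcon
      exact hξ.2 ⟨i, mem_univ i, mem_filter.2 ⟨hξ.1, not_lt.1 hcon⟩⟩
    refine (sum_le_sum fun (ξ : ℕ) _ => amft_norm A h w X hX hh hw ((ξ : ℝ) / (8 * X))).trans ?_
    rw [← mul_sum, sum_comm]
    calc (k : ℝ) ^ 3 * ∑ i, ∑ ξ ∈ range (8 * X) \ (univ.biUnion fun i => (range (8 * X)).filter (fun ξ : ℕ =>
        η * X ≤ ‖FT (fa A h w i) X ((ξ : ℝ) / (8 * X))‖)), ‖FT (fa A h w i) X ((ξ : ℝ) / (8 * X))‖ ^ 4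
        ≤ k ^ 3 * ∑ _i : Fin k,
          (200 * C ^ 2 * η * X ^ 4 + 8 * δ₀ ^ 2 * X ^ 3 * ∑ n ∈ range (4 * X), (w n) ^ 2) :=
          mul_le_mul_of_nonneg_left (sum_le_sum fun i _ => h1 i) (by positivity)
      _ = _ := by
          rw [sum_const, card_univ, Fintype.card_fin, nsmul_eq_mul]
          ring

theorem am_l4 {k : ℕ} (A : Set ℕ) (h : Fin k → ℕ) (w : ℕ → ℝ) (X : ℕ) (hX : 1 ≤ X) (hh : ∀ i, h i ≤ X)
    (hw : ∀ x, x ∉ Ioc X (2 * X) → w x = 0) (C δ₀ : ℝ) (hC : 1 ≤ C) (hδ₀ : 0 < δ₀) (hδ₁ : δ₀ ≤ 1)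
    (hν : Rst C δ₀ X w) :
    ∑ ξ ∈ range (8 * X), ‖FT (am A h w) X ((ξ : ℝ) / (8 * X))‖ ^ 4 ≤
      k ^ 4 * (211 * C ^ 6 * X ^ 4 + 8 * δ₀ ^ 2 * X ^ 3 * ∑ n ∈ range (4 * X), (w n) ^ 2) := by
  have hf : ∀ i n, 0 ≤ fa A h w i n ∧ fa A h w i n ≤ w n := fun i n => fa_bd A h w hν.nonneg i n
  refine (sum_le_sum fun (ξ : ℕ) _ => amft_norm A h w X hX hh hw ((ξ : ℝ) / (8 * X))).trans ?_
  rw [← mul_sum, sum_comm]
  calc (k : ℝ) ^ 3 * ∑ i, ∑ ξ ∈ range (8 * X), ‖FT (fa A h w i) X ((ξ : ℝ) / (8 * X))‖ ^ 4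
      ≤ k ^ 3 * ∑ _i : Fin k,
        (211 * C ^ 6 * X ^ 4 + 8 * δ₀ ^ 2 * X ^ 3 * ∑ n ∈ range (4 * X), (w n) ^ 2) :=
        mul_le_mul_of_nonneg_left
          (sum_le_sum fun i _ => l4 C δ₀ hC hδ₀ hδ₁ X hX w (fa A h w i) hν (hf i)) (by positivity)
    _ = _ := by
        rw [sum_const, card_univ, Fintype.card_fin, nsmul_eq_mul]
        ring

end Pool.Agent.Lib.SG
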