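import Pool.Agent.Lib.SG.Defs
import Pool.Agent.Lib.MP_7b7e48_nt.GT.ClassUniform

/-!
# SG-Ap: an arithmetic progression against the density

PROOF. `ap_diff`: for every x, `1[x ≡ a mod D] = (1/D) ∑_{j < D} e(j (x - a)/D)` (`GT.sum_e_mod`); so the difference is
`(1/D) ∑_{1 ≤ j < D} e(-j a/D) ∑_{x ∈ Ioc A B} e((γ + j/D) x)`, and each inner sum is at most `SW.gmin (B - A) (γ + j/D)` (`SW.geom_le`)
`≤ 1/(2η)` (`SW.gmin_le'`). There are at most D terms.
`ap_two`: write x ≡ s mod Δ as x = s' + Δ x' (s' = the representative in [0, Δ)), x' in an interval Ioc A B; the condition x ≡ a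
mod D becomes x' ≡ a' mod D (Δ is invertible mod D) and e(α x) = e(α s') e(Δ α x'): apply `ap_diff` with γ = Δ α. (If the class is
empty in the interval both sums are 0.)
`ap_two_triv`: a class mod M has at most X/M + 1 elements in (X, 2X]: the first sum has at most X/(Δ D) + 1 terms (x ≡ s mod Δ and
x ≡ a mod D is one class mod Δ D), the second one at most X/Δ + 1, divided by D.
-/

set_option autoImplicit false

open Finset

namespace Pool.Agent.Lib.SG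

open Pool.Agent.Lib.MT

theorem ap_diff (γ η : ℝ) (hη : 0 < η) (D a A B : ℕ) (hD : 1 ≤ D) (hAB : A ≤ B)
    (h : ∀ j : ℤ, ¬ (D : ℤ) ∣ j → η ≤ SW.nd (γ + j / D)) :
    ‖∑ x ∈ (Ioc A B).filter (fun x => x ≡ a [MOD D]), GT.e (γ * x) -
      (1 / (D : ℂ)) * ∑ x ∈ Ioc A B, GT.e (γ * x)‖ ≤ 1 / (2 * η) := by
  have hD0 : (D : ℂ) ≠ 0 := by exact_mod_cast (by omega : D ≠ 0)
  have hDr : (0 : ℝ) < D := by exact_mod_cast hD
  have hind : ∀ x : ℕ, (if x ≡ a [MOD D] then (1 : ℂ) else 0) =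
      (1 / (D : ℂ)) * ∑ k ∈ range D, GT.e ((k : ℝ) * ((a : ℤ) - (x : ℤ) : ℤ) / D) := by
    intro x
    rw [GT.sum_e_mod hD]
    by_cases hx : x ≡ a [MOD D]
    · rw [if_pos hx, if_pos (Nat.modEq_iff_dvd.mp hx)]
      field_simp
    · rw [if_neg hx, if_neg (fun h' => hx (Nat.modEq_iff_dvd.mpr h')), mul_zero]
  have hmain : ∑ x ∈ (Ioc A B).filter (fun x => x ≡ a [MOD D]), GT.e (γ * x) =
      (1 / (D : ℂ)) * ∑ k ∈ range D, GT.e ((k : ℝ) * a / D) *
        ∑ x ∈ Ioc A B, GT.e (x * (γ + ((-(k : ℤ) : ℤ) : ℝ) / D)) := by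
    rw [Finset.sum_filter]
    have h1 : ∀ x ∈ Ioc A B, (if x ≡ a [MOD D] then GT.e (γ * x) else 0) =
        (1 / (D : ℂ)) * ∑ k ∈ range D, GT.e ((k : ℝ) * a / D) *
          GT.e (x * (γ + ((-(k : ℤ) : ℤ) : ℝ) / D)) := by
      intro x _
      have h2 : (if x ≡ a [MOD D] then GT.e (γ * x) else 0) =
          (if x ≡ a [MOD D] then (1 : ℂ) else 0) * GT.e (γ * x) := by
        split_ifs <;> simp
      rw [h2, hind x, mul_assoc, Finset.sum_mul]
      congr 1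
      apply Finset.sum_congr rfl
      intro k _
      rw [← GT.e_add, ← GT.e_add]
      congr 1
      push_cast
      field_simp
      ring
    rw [Finset.sum_congr rfl h1, ← Finset.mul_sum, Finset.sum_comm]
    congr 1
    apply Finset.sum_congr rfl
    intro k _
    rw [Finset.mul_sum]
  have h0 : (0 : ℕ) ∈ range D := Finset.mem_range.mpr hD
  rw [hmain, ← Finset.add_sum_erase _ _ h0]
  have h3 : GT.e (((0 : ℕ) : ℝ) * a / D) * ∑ x ∈ Ioc A B, GT.e (x * (γ + ((-((0 : ℕ) : ℤ) : ℤ) : ℝ) / D)) =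
      ∑ x ∈ Ioc A B, GT.e (γ * x) := by
    have h4 : GT.e (((0 : ℕ) : ℝ) * a / D) = 1 := by
      simp [GT.e_zero]
    rw [h4, one_mul]
    apply Finset.sum_congr rfl
    intro x _
    congr 1
    push_cast
    simp [mul_comm]
  rw [h3, mul_add, add_sub_cancel_left, norm_mul]
  have h5 : ‖(1 / (D : ℂ))‖ = 1 / D := by
    rw [norm_div, norm_one, Complex.norm_natCast]
  rw [h5]
  have h6 : ‖∑ k ∈ (range D).erase 0, GT.e ((k : ℝ) * a / D) *
        ∑ x ∈ Ioc A B, GT.e (x * (γ + ((-(k : ℤ) : ℤ) : ℝ) / D))‖ ≤ D * (1 / (2 * η)) := by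
    refine (norm_sum_le _ _).trans ?_
    have h7 : ∀ k ∈ (range D).erase 0, ‖GT.e ((k : ℝ) * a / D) *
        ∑ x ∈ Ioc A B, GT.e (x * (γ + ((-(k : ℤ) : ℤ) : ℝ) / D))‖ ≤ 1 / (2 * η) := by
      intro k hk
      rw [Finset.mem_erase, Finset.mem_range] at hk
      rw [norm_mul, GT.norm_e, one_mul]
      have hBA : (0 : ℝ) ≤ (B : ℝ) - A := by
        have : (A : ℝ) ≤ B := by exact_mod_cast hAB
        linarith
      refine (SW.geom_le ((B : ℝ) - A) _ A B hAB le_rfl).trans ?_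
      apply SW.gmin_le' _ _ _ hη _ hBA
      apply h
      intro hdvd
      rw [Int.dvd_neg] at hdvd
      have h8 : D ∣ k := by exact_mod_cast hdvd
      have := Nat.le_of_dvd (by omega) h8
      omega
    refine (Finset.sum_le_sum h7).trans ?_
    rw [Finset.sum_const, nsmul_eq_mul]
    apply mul_le_mul_of_nonneg_right _ (by positivity)
    have : ((range D).erase 0).card ≤ D := by
      refine (Finset.card_erase_le).trans ?_
      rw [Finset.card_range]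
    exact_mod_cast this
  calc 1 / (D : ℝ) * ‖∑ k ∈ (range D).erase 0, GT.e ((k : ℝ) * a / D) *
        ∑ x ∈ Ioc A B, GT.e (x * (γ + ((-(k : ℤ) : ℤ) : ℝ) / D))‖
      ≤ 1 / (D : ℝ) * (D * (1 / (2 * η))) := mul_le_mul_of_nonneg_left h6 (by positivity)
    _ = 1 / (2 * η) := by field_simp

/-- transport of a sum over a class mod `Δ` -/
private theorem ap_trans (α : ℝ) (Δ s X : ℕ) (hΔ : 1 ≤ Δ) (P Q : ℕ → Prop) [DecidablePred P]
    [DecidablePred Q] (hPQ : ∀ y, P (s % Δ + Δ * y) ↔ Q (y + 1)) :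
    ∑ x ∈ (Ioc X (2 * X)).filter (fun x => x ≡ s [MOD Δ] ∧ P x), GT.e (α * x) =
      GT.e (α * (((s % Δ : ℕ) : ℝ) - Δ)) *
        ∑ y ∈ (Ioc ((X + Δ - s % Δ) / Δ) ((2 * X + Δ - s % Δ) / Δ)).filter Q,
          GT.e (Δ * α * y) := by
  have hs : s % Δ < Δ := Nat.mod_lt _ hΔ
  set t := s % Δ with ht
  rw [Finset.mul_sum]
  apply Finset.sum_nbij' (fun x => x / Δ + 1) (fun y => t + Δ * (y - 1))
  · intro x hx
    rw [Finset.mem_filter, Finset.mem_Ioc] at hx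
    obtain ⟨⟨h1, h2⟩, h3, h4⟩ := hx
    have h5 : x % Δ = t := by rw [ht]; exact h3
    have h6 : x = t + Δ * (x / Δ) := by
      rw [← h5]; exact (Nat.mod_add_div x Δ).symm
    rw [Finset.mem_filter, Finset.mem_Ioc]
    refine ⟨⟨?_, ?_⟩, ?_⟩
    · rw [Nat.div_lt_iff_lt_mul hΔ]
      have : (x / Δ + 1) * Δ = Δ * (x / Δ) + Δ := by ring
      rw [this]
      omega
    · rw [Nat.le_div_iff_mul_le hΔ]
      have : (x / Δ + 1) * Δ = Δ * (x / Δ) + Δ := by ring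
      rw [this]
      omega
    · rw [← hPQ, ← h6]
      exact h4
  · intro y hy
    rw [Finset.mem_filter, Finset.mem_Ioc] at hy
    obtain ⟨⟨h1, h2⟩, h3⟩ := hy
    rw [Nat.div_lt_iff_lt_mul hΔ] at h1
    rw [Nat.le_div_iff_mul_le hΔ] at h2
    have hy1 : 1 ≤ y := by
      rcases Nat.eq_zero_or_pos y with h | h
      · rw [h, zero_mul] at h1; omega
      · exact h
    obtain ⟨z, rfl⟩ : ∃ z, y = z + 1 := ⟨y - 1, by omega⟩
    have hz : (z + 1) * Δ = Δ * z + Δ := by ring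
    rw [hz] at h1 h2
    rw [Finset.mem_filter, Finset.mem_Ioc]
    simp only [Nat.add_sub_cancel]
    refine ⟨⟨by omega, by omega⟩, ?_, ?_⟩
    · show (t + Δ * z) % Δ = s % Δ
      rw [Nat.add_mul_mod_self_left, ← ht, Nat.mod_eq_of_lt hs]
    · exact (hPQ z).mpr h3
  · intro x hx
    rw [Finset.mem_filter, Finset.mem_Ioc] at hx
    obtain ⟨⟨h1, h2⟩, h3, h4⟩ := hx
    have h5 : x % Δ = t := by rw [ht]; exact h3
    have h6 : x = t + Δ * (x / Δ) := by
      rw [← h5]; exact (Nat.mod_add_div x Δ).symm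
    simp only [Nat.add_sub_cancel]
    exact h6.symm
  · intro y hy
    rw [Finset.mem_filter, Finset.mem_Ioc] at hy
    obtain ⟨⟨h1, h2⟩, h3⟩ := hy
    rw [Nat.div_lt_iff_lt_mul hΔ] at h1
    have hy1 : 1 ≤ y := by
      rcases Nat.eq_zero_or_pos y with h | h
      · rw [h, zero_mul] at h1; omega
      · exact h
    show (t + Δ * (y - 1)) / Δ + 1 = y
    rw [Nat.add_mul_div_left _ _ hΔ, Nat.div_eq_of_lt hs]
    omega
  · intro x hx
    rw [Finset.mem_filter, Finset.mem_Ioc] at hx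
    obtain ⟨⟨h1, h2⟩, h3, h4⟩ := hx
    have h5 : x % Δ = t := by rw [ht]; exact h3
    have h6 : x = t + Δ * (x / Δ) := by
      rw [← h5]; exact (Nat.mod_add_div x Δ).symm
    have h7 : (x : ℝ) = t + Δ * ((x / Δ : ℕ) : ℝ) := by exact_mod_cast h6
    rw [← GT.e_add]
    congr 1
    rw [h7]
    push_cast
    have h8 : ((t : ℕ) + Δ * (x / Δ)) / Δ = x / Δ := by
      rw [Nat.add_mul_div_left _ _ hΔ, Nat.div_eq_of_lt hs, zero_add]
    ring

theorem ap_two (α η : ℝ) (hη : 0 < η) (Δ D s a X : ℕ) (hΔ : 1 ≤ Δ) (hD : 1 ≤ D)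
    (hc : Nat.Coprime Δ D) (h : ∀ j : ℤ, ¬ (D : ℤ) ∣ j → η ≤ SW.nd (Δ * α + j / D)) :
    ‖∑ x ∈ (Ioc X (2 * X)).filter (fun x => x ≡ s [MOD Δ] ∧ x ≡ a [MOD D]), GT.e (α * x) -
      (1 / (D : ℂ)) * ∑ x ∈ (Ioc X (2 * X)).filter (fun x => x ≡ s [MOD Δ]), GT.e (α * x)‖ ≤
      1 / (2 * η) := by
  obtain ⟨k, hk1, hk2⟩ := Nat.chineseRemainder hc (s % Δ) (a + Δ)
  have hs : s % Δ < Δ := Nat.mod_lt _ hΔ
  have hk3 : k = s % Δ + Δ * (k / Δ) := by
    have h1 : k % Δ = s % Δ := by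
      have : k % Δ = (s % Δ) % Δ := hk1
      rwa [Nat.mod_eq_of_lt hs] at this
    conv_lhs => rw [← Nat.mod_add_div k Δ, h1]
  have hPQ : ∀ y, s % Δ + Δ * y ≡ a [MOD D] ↔ y + 1 ≡ k / Δ [MOD D] := by
    intro y
    constructor
    · intro h1
      have h2 : s % Δ + Δ * y + Δ ≡ a + Δ [MOD D] := h1.add_right Δ
      have h3 : s % Δ + Δ * (y + 1) ≡ s % Δ + Δ * (k / Δ) [MOD D] := by
        rw [← hk3]
        have : s % Δ + Δ * (y + 1) = s % Δ + Δ * y + Δ := by ring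
        rw [this]
        exact h2.trans hk2.symm
      have h4 : Δ * (y + 1) ≡ Δ * (k / Δ) [MOD D] := Nat.ModEq.add_left_cancel' _ h3
      exact Nat.ModEq.cancel_left_of_coprime (by rw [Nat.gcd_comm]; exact hc) h4
    · intro h1
      have h4 : Δ * (y + 1) ≡ Δ * (k / Δ) [MOD D] := h1.mul_left Δ
      have h3 : s % Δ + Δ * (y + 1) ≡ s % Δ + Δ * (k / Δ) [MOD D] := h4.add_left _
      rw [← hk3] at h3
      have h5 : s % Δ + Δ * y + Δ ≡ a + Δ [MOD D] := by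
        have : s % Δ + Δ * (y + 1) = s % Δ + Δ * y + Δ := by ring
        rw [← this]
        exact h3.trans hk2
      exact Nat.ModEq.add_right_cancel' _ h5
  have e1 := ap_trans α Δ s X hΔ (fun x => x ≡ a [MOD D]) (fun y => y ≡ k / Δ [MOD D]) hPQ
  have e2 := ap_trans α Δ s X hΔ (fun _ => True) (fun _ => True) (fun y => Iff.rfl)
  simp only [and_true, Finset.filter_true] at e2
  have e3 : (Ioc X (2 * X)).filter (fun x => x ≡ s [MOD Δ] ∧ True) =
    (Ioc X (2 * X)).filter (fun x => x ≡ s [MOD Δ]) := by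
    apply Finset.filter_congr
    intro x _
    simp
  rw [e1, e2]
  have hAB : (X + Δ - s % Δ) / Δ ≤ (2 * X + Δ - s % Δ) / Δ := by
    apply Nat.div_le_div_right
    omega
  have h6 := ap_diff (Δ * α) η hη D (k / Δ) _ _ hD hAB h
  have h7 : ∀ (u v w c : ℂ), u * v - c * (u * w) = u * (v - c * w) := by
    intro u v w c; ring
  rw [h7, norm_mul, GT.norm_e, one_mul]
  exact h6

private theorem ap_card (M v X : ℕ) (hM : 1 ≤ M) :
    (((Ioc X (2 * X)).filter (fun x => x ≡ v [MOD M])).card : ℝ) ≤ X / M + 1 := by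
  have h1 := Nat.Ioc_filter_modEq_card X (2 * X) (r := M) hM v
  have hMq : (0 : ℚ) < M := by exact_mod_cast hM
  have h2 : (((Ioc X (2 * X)).filter (fun x => x ≡ v [MOD M])).card : ℚ) ≤ X / M + 1 := by
    have h3 : ((((Ioc X (2 * X)).filter (fun x => x ≡ v [MOD M])).card : ℤ) : ℚ) ≤ X / M + 1 := by
      rw [h1]
      rw [Int.cast_max]
      apply max_le
      · push_cast
        have h4 := Int.floor_le (((2 * X : ℕ) - v) / (M : ℚ) : ℚ)
        have h5 := Int.lt_floor_add_one (((X : ℕ) - v) / (M : ℚ) : ℚ)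
        have h6 : ((2 * X : ℕ) - v) / (M : ℚ) - ((X : ℕ) - v) / (M : ℚ) = X / M := by
          push_cast; field_simp; ring
        push_cast at h4 h5 h6 ⊢
        linarith
      · positivity
    exact_mod_cast h3
  have h7 : (((((Ioc X (2 * X)).filter (fun x => x ≡ v [MOD M])).card : ℚ)) : ℝ) ≤
      (((X : ℚ) / M + 1 : ℚ) : ℝ) := Rat.cast_le.mpr h2
  push_cast at h7
  exact h7

theorem ap_two_triv (α : ℝ) (Δ D s a X : ℕ) (hΔ : 1 ≤ Δ) (hD : 1 ≤ D) (hc : Nat.Coprime Δ D) :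
    ‖∑ x ∈ (Ioc X (2 * X)).filter (fun x => x ≡ s [MOD Δ] ∧ x ≡ a [MOD D]), GT.e (α * x) -
      (1 / (D : ℂ)) * ∑ x ∈ (Ioc X (2 * X)).filter (fun x => x ≡ s [MOD Δ]), GT.e (α * x)‖ ≤
      2 * X / (Δ * D) + 2 := by
  have hDr : (1 : ℝ) ≤ D := by exact_mod_cast hD
  have hΔr : (1 : ℝ) ≤ Δ := by exact_mod_cast hΔ
  obtain ⟨k, hk1, hk2⟩ := Nat.chineseRemainder hc s a
  have hn : ∀ S : Finset ℕ, ‖∑ x ∈ S, GT.e (α * x)‖ ≤ S.card := by
    intro S
    refine (norm_sum_le _ _).trans ?_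
    have h0 : ∀ x ∈ S, ‖GT.e (α * (x : ℝ))‖ = 1 := fun x _ => GT.norm_e _
    rw [Finset.sum_congr rfl h0, Finset.sum_const, nsmul_eq_mul, mul_one]
  have h1 : ‖∑ x ∈ (Ioc X (2 * X)).filter (fun x => x ≡ s [MOD Δ] ∧ x ≡ a [MOD D]), GT.e (α * x)‖ ≤
      X / (Δ * D) + 1 := by
    refine (hn _).trans ?_
    have h2 : ((Ioc X (2 * X)).filter (fun x => x ≡ s [MOD Δ] ∧ x ≡ a [MOD D])).card ≤
        ((Ioc X (2 * X)).filter (fun x => x ≡ k [MOD (Δ * D)])).card := by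
      apply Finset.card_le_card
      intro x hx
      rw [Finset.mem_filter] at hx ⊢
      refine ⟨hx.1, ?_⟩
      rw [← Nat.modEq_and_modEq_iff_modEq_mul hc]
      exact ⟨hx.2.1.trans hk1.symm, hx.2.2.trans hk2.symm⟩
    have h3 := ap_card (Δ * D) k X (Nat.mul_pos hΔ hD)
    have h4 : (((Ioc X (2 * X)).filter (fun x => x ≡ s [MOD Δ] ∧ x ≡ a [MOD D])).card : ℝ) ≤
        ((Ioc X (2 * X)).filter (fun x => x ≡ k [MOD (Δ * D)])).card := by exact_mod_cast h2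
    push_cast at h3
    exact h4.trans h3
  have h2 : ‖(1 / (D : ℂ)) * ∑ x ∈ (Ioc X (2 * X)).filter (fun x => x ≡ s [MOD Δ]), GT.e (α * x)‖ ≤
      X / (Δ * D) + 1 := by
    rw [norm_mul, norm_div, norm_one, Complex.norm_natCast]
    have h3 := (hn ((Ioc X (2 * X)).filter (fun x => x ≡ s [MOD Δ]))).trans (ap_card Δ s X hΔ)
    calc 1 / (D : ℝ) * ‖∑ x ∈ (Ioc X (2 * X)).filter (fun x => x ≡ s [MOD Δ]), GT.e (α * x)‖
        ≤ 1 / (D : ℝ) * (X / Δ + 1) := mul_le_mul_of_nonneg_left h3 (by positivity)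
      _ = X / (Δ * D) + 1 / D := by field_simp
      _ ≤ X / (Δ * D) + 1 := by
        have : 1 / (D : ℝ) ≤ 1 := by
          rw [div_le_one (by linarith)]; exact hDr
        linarith
  refine (norm_sub_le _ _).trans ?_
  have h3 : 2 * (X : ℝ) / (Δ * D) + 2 = (X / (Δ * D) + 1) + (X / (Δ * D) + 1) := by ring
  rw [h3]
  exact add_le_add h1 h2

end Pool.Agent.Lib.SG
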