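import Pool.Agent.Lib.SG.Defs
import Pool.Agent.Lib.MP_7b7e48_nt.GT.ExpTools

/-!
# SG-Pars: Fourier analysis modulo 8X

All functions live on [0, 4X), sums of two points on [0, 8X), the frequencies are ξ/(8X), ξ ∈ range (8X).
PROOF. `orth`: geometric series (integer t with |t| < 8X). `pars_gen`: open the square, exchange, `orth` with t = n - n' (|t| < 8X).
`ft_es`: the terms outside Ioc X (2X) vanish (X ≥ 1: 2X < 4X). `cor_fourier`: open both sides, exchange, `orth` with t = x + n - s: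
`∑_ξ FT f · FT u · conj(∑_{s ∈ E} e(ξ s/8X)) = 8X ∑_{x,n < 4X, s ∈ E, x + n = s} f x u n` (0 ≤ x + n < 8X and s < 8X, so |t| < 8X).
`cor_norm`: ∑_ξ ‖∑_{s∈E} e(ξ s/8X)‖² = 8X |E| (pars_gen-like on range (8X)). 
-/

set_option autoImplicit false

open Finset

namespace Pool.Agent.Lib.SG

theorem orth (N : ℕ) (hN : 1 ≤ N) (t : ℤ) (ht : |t| < N) :
    ∑ ξ ∈ range N, GT.e ((ξ : ℝ) * t / N) = if t = 0 then (N : ℂ) else 0 := by
  by_cases h : t = 0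
  · subst h
    simp [GT.e_zero]
  · rw [if_neg h]
    have h1 : ¬ (N : ℤ) ∣ t := by
      intro hd
      exact h (Int.eq_zero_of_abs_lt_dvd hd ht)
    rw [← GT.RE.sum_e_div_range N hN t h1]
    refine Finset.sum_congr rfl (fun ξ _ => ?_)
    congr 1
    ring

private theorem conj_e' (x : ℝ) : (starRingEnd ℂ) (GT.e x) = GT.e (-x) := by
  unfold GT.e
  rw [← Complex.exp_conj]
  congr 1
  simp only [map_mul, Complex.conj_I, Complex.conj_ofReal, map_ofNat]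
  push_cast
  ring

/-- opening a hermitian product -/
private theorem herm (N : ℕ) (hN : 1 ≤ N) (A B : Finset ℕ) (hA : A ⊆ range N) (hB : B ⊆ range N) (f g : ℕ → ℂ) :
    ∑ ξ ∈ range N, (∑ a ∈ A, f a * GT.e ((ξ : ℝ) / N * a)) *
      (starRingEnd ℂ) (∑ b ∈ B, g b * GT.e ((ξ : ℝ) / N * b)) =
    N * ∑ a ∈ A, ∑ b ∈ B, if a = b then f a * (starRingEnd ℂ) (g b) else 0 := by
  have h1 : ∀ ξ ∈ range N, (∑ a ∈ A, f a * GT.e ((ξ : ℝ) / N * a)) *
      (starRingEnd ℂ) (∑ b ∈ B, g b * GT.e ((ξ : ℝ) / N * b)) =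
      ∑ a ∈ A, ∑ b ∈ B, (f a * (starRingEnd ℂ) (g b)) * GT.e ((ξ : ℝ) * (((a : ℤ) - (b : ℤ) : ℤ) : ℝ) / N) := by
    intro ξ _
    rw [map_sum, Finset.sum_mul_sum]
    refine Finset.sum_congr rfl (fun a _ => Finset.sum_congr rfl (fun b _ => ?_))
    rw [map_mul, conj_e']
    have : GT.e ((ξ : ℝ) * (((a : ℤ) - (b : ℤ) : ℤ) : ℝ) / N) =
        GT.e ((ξ : ℝ) / N * a) * GT.e (-((ξ : ℝ) / N * b)) := by
      rw [← GT.e_add]
      congr 1
      push_cast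
      ring
    rw [this]
    ring
  rw [Finset.sum_congr rfl h1, Finset.sum_comm, Finset.mul_sum]
  refine Finset.sum_congr rfl (fun a ha => ?_)
  rw [Finset.sum_comm, Finset.mul_sum]
  refine Finset.sum_congr rfl (fun b hb => ?_)
  rw [← Finset.mul_sum]
  have ha' := Finset.mem_range.mp (hA ha)
  have hb' := Finset.mem_range.mp (hB hb)
  have h2 := orth N hN ((a : ℤ) - (b : ℤ)) (by rw [abs_lt]; constructor <;> omega)
  rw [h2]
  by_cases hab : a = b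
  · subst hab
    simp
    ring
  · rw [if_neg hab, if_neg (by intro h; apply hab; omega)]
    ring

private theorem herm_sq (N : ℕ) (hN : 1 ≤ N) (A : Finset ℕ) (hA : A ⊆ range N) (f : ℕ → ℂ) :
    ∑ ξ ∈ range N, ‖∑ a ∈ A, f a * GT.e ((ξ : ℝ) / N * a)‖ ^ 2 = N * ∑ a ∈ A, ‖f a‖ ^ 2 := by
  have h := herm N hN A A hA hA f f
  have h1 : ((∑ ξ ∈ range N, ‖∑ a ∈ A, f a * GT.e ((ξ : ℝ) / N * a)‖ ^ 2 : ℝ) : ℂ) =
      ((N * ∑ a ∈ A, ‖f a‖ ^ 2 : ℝ) : ℂ) := by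
    push_cast
    rw [show (∑ ξ ∈ range N, ((‖∑ a ∈ A, f a * GT.e ((ξ : ℝ) / N * a)‖ : ℝ) : ℂ) ^ 2) =
      ∑ ξ ∈ range N, (∑ a ∈ A, f a * GT.e ((ξ : ℝ) / N * a)) *
      (starRingEnd ℂ) (∑ b ∈ A, f b * GT.e ((ξ : ℝ) / N * b)) from
      Finset.sum_congr rfl (fun ξ _ => by rw [Complex.mul_conj'])]
    rw [h]
    congr 1
    refine Finset.sum_congr rfl (fun a ha => ?_)
    rw [Finset.sum_ite_eq, if_pos ha, Complex.mul_conj']
  exact_mod_cast h1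

/-- Parseval for complex functions on [0, N) with the frequencies ξ/N -/
theorem pars_gen (N : ℕ) (hN : 1 ≤ N) (f : ℕ → ℂ) :
    ∑ ξ ∈ range N, ‖∑ n ∈ range N, f n * GT.e ((ξ : ℝ) / N * n)‖ ^ 2 = N * ∑ n ∈ range N, ‖f n‖ ^ 2 :=
  herm_sq N hN (range N) (Finset.Subset.refl _) f

theorem pars (X : ℕ) (hX : 1 ≤ X) (f : ℕ → ℝ) :
    ∑ ξ ∈ range (8 * X), ‖FT f X ((ξ : ℝ) / (8 * X))‖ ^ 2 = 8 * X * ∑ n ∈ range (4 * X), (f n) ^ 2 := by
  have h := herm_sq (8 * X) (by omega) (range (4 * X)) (by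
    intro x hx; rw [Finset.mem_range] at hx ⊢; omega) (fun n => (f n : ℂ))
  unfold FT
  push_cast at h
  rw [h]
  congr 1
  refine Finset.sum_congr rfl (fun n _ => ?_)
  rw [Complex.norm_real, Real.norm_eq_abs, sq_abs]

private theorem ft_es_gen (X Y : ℕ) (f : ℕ → ℝ) (hY : Y < 4 * X ∨ Y ≤ X) (hf : ∀ x, x ∉ Ioc X Y → f x = 0) (α : ℝ) :
    FT f X α = ∑ x ∈ Ioc X Y, (f x : ℂ) * GT.e (α * x) := by
  unfold FT
  symm
  apply Finset.sum_subset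
  · intro x hx
    rw [Finset.mem_Ioc] at hx
    rw [Finset.mem_range]
    omega
  · intro x _ hx
    rw [hf x hx]
    simp

theorem ft_es (X : ℕ) (f : ℕ → ℝ) (hf : ∀ x, x ∉ Ioc X (2 * X) → f x = 0) (α : ℝ) :
    FT f X α = ES f X α := by
  unfold ES
  exact ft_es_gen X (2 * X) f (by omega) hf α

theorem cor_norm (X : ℕ) (hX : 1 ≤ X) (E : Finset ℕ) (hE : E ⊆ range (8 * X)) :
    ∑ ξ ∈ range (8 * X), ‖∑ s ∈ E, GT.e ((ξ : ℝ) / (8 * X) * s)‖ ^ 2 = 8 * X * (E.card : ℝ) := by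
  have h := herm_sq (8 * X) (by omega) E hE (fun _ => (1 : ℂ))
  push_cast at h
  simp only [one_mul, norm_one, one_pow, Finset.sum_const, nsmul_eq_mul, mul_one] at h
  exact h

/-- the correlation on the Fourier side; `t` is a shift -/
theorem cor_fourier (X t : ℕ) (hX : 1 ≤ X) (ht : t ≤ X) (E : Finset ℕ) (hE : E ⊆ range (8 * X)) (f u : ℕ → ℝ)
    (hf : ∀ x, x ∉ Ioc X (2 * X) → f x = 0) (hu : ∀ n, n ∉ Ioc X (3 * X) → u n = 0) :
    ((∑ x ∈ Ioc X (2 * X), f x * cor E u (x + t) : ℝ) : ℂ) * (8 * X) =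
      ∑ ξ ∈ range (8 * X), FT f X ((ξ : ℝ) / (8 * X)) * FT u X ((ξ : ℝ) / (8 * X)) *
        GT.e ((ξ : ℝ) / (8 * X) * t) * (starRingEnd ℂ) (∑ s ∈ E, GT.e ((ξ : ℝ) / (8 * X) * s)) := by
  have h1 : ∀ ξ ∈ range (8 * X), FT f X ((ξ : ℝ) / (8 * X)) * FT u X ((ξ : ℝ) / (8 * X)) *
        GT.e ((ξ : ℝ) / (8 * X) * t) * (starRingEnd ℂ) (∑ s ∈ E, GT.e ((ξ : ℝ) / (8 * X) * s)) =
      ∑ x ∈ Ioc X (2 * X), ∑ n ∈ Ioc X (3 * X), ∑ s ∈ E, ((f x : ℂ) * (u n : ℂ)) *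
        GT.e ((ξ : ℝ) * (((x : ℤ) + (n : ℤ) + (t : ℤ) - (s : ℤ) : ℤ) : ℝ) / ((8 * X : ℕ) : ℝ)) := by
    intro ξ _
    rw [ft_es_gen X (2 * X) f (by omega) hf, ft_es_gen X (3 * X) u (by omega) hu, Finset.sum_mul_sum, Finset.sum_mul,
      Finset.sum_mul]
    refine Finset.sum_congr rfl (fun x _ => ?_)
    rw [Finset.sum_mul, Finset.sum_mul]
    refine Finset.sum_congr rfl (fun n _ => ?_)
    rw [map_sum, Finset.mul_sum]
    refine Finset.sum_congr rfl (fun s _ => ?_)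
    rw [conj_e']
    have : GT.e ((ξ : ℝ) * (((x : ℤ) + (n : ℤ) + (t : ℤ) - (s : ℤ) : ℤ) : ℝ) / ((8 * X : ℕ) : ℝ)) =
        GT.e ((ξ : ℝ) / (8 * X) * x) * GT.e ((ξ : ℝ) / (8 * X) * n) * GT.e ((ξ : ℝ) / (8 * X) * t) *
          GT.e (-((ξ : ℝ) / (8 * X) * s)) := by
      rw [← GT.e_add, ← GT.e_add, ← GT.e_add]
      congr 1
      push_cast
      ring
    rw [this]
    ring
  rw [Finset.sum_congr rfl h1, Finset.sum_comm, Complex.ofReal_sum, Finset.sum_mul]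
  refine Finset.sum_congr rfl (fun x hx => ?_)
  rw [Finset.sum_comm]
  have h2 : ∀ n ∈ Ioc X (3 * X), (∑ ξ ∈ range (8 * X), ∑ s ∈ E, ((f x : ℂ) * (u n : ℂ)) *
        GT.e ((ξ : ℝ) * (((x : ℤ) + (n : ℤ) + (t : ℤ) - (s : ℤ) : ℤ) : ℝ) / ((8 * X : ℕ) : ℝ))) =
      ∑ s ∈ E, ((f x : ℂ) * (u n : ℂ)) * (if x + n + t = s then (8 * X : ℂ) else 0) := by
    intro n hn
    rw [Finset.sum_comm]
    refine Finset.sum_congr rfl (fun s hs => ?_)
    rw [← Finset.mul_sum]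
    congr 1
    have hs' := Finset.mem_range.mp (hE hs)
    rw [Finset.mem_Ioc] at hn hx
    rw [orth (8 * X) (by omega) ((x : ℤ) + (n : ℤ) + (t : ℤ) - (s : ℤ)) (by
      rw [abs_lt]; constructor <;> push_cast <;> omega)]
    by_cases h3 : x + n + t = s
    · rw [if_pos h3, if_pos (by omega)]
      push_cast
      rfl
    · rw [if_neg h3, if_neg (by omega)]
  have h2' : (∑ n ∈ Ioc X (3 * X), ∑ ξ ∈ range (8 * X), ∑ s ∈ E, ((f x : ℂ) * (u n : ℂ)) *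
        GT.e ((ξ : ℝ) * (((x : ℤ) + (n : ℤ) + (t : ℤ) - (s : ℤ) : ℤ) : ℝ) / ((8 * X : ℕ) : ℝ))) =
      ∑ n ∈ Ioc X (3 * X), ∑ s ∈ E, ((f x : ℂ) * (u n : ℂ)) * (if x + n + t = s then (8 * X : ℂ) else 0) :=
    Finset.sum_congr rfl h2
  rw [h2', Finset.sum_comm]
  unfold cor
  push_cast
  rw [Finset.mul_sum, Finset.sum_mul]
  refine Finset.sum_congr rfl (fun s _ => ?_)
  by_cases h4 : x + t ≤ s
  · rw [if_pos h4]
    by_cases h5 : s - (x + t) ∈ Ioc X (3 * X)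
    · rw [Finset.sum_eq_single (s - (x + t))]
      · rw [if_pos (by omega)]
      · intro n _ hne
        rw [if_neg (by omega)]
        ring
      · intro h6
        exact absurd h5 h6
    · rw [hu _ h5]
      rw [Finset.sum_eq_zero]
      · simp
      · intro n hn
        rw [if_neg, mul_zero]
        intro h6
        apply h5
        have : s - (x + t) = n := by omega
        rw [this]
        exact hn
  · rw [if_neg h4]
    rw [Finset.sum_eq_zero]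
    · simp
    · intro n _
      rw [if_neg (by omega), mul_zero]

end Pool.Agent.Lib.SG
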