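import Pool.Agent.Lib.SG.Defs7
import Pool.Agent.Lib.SG.Pars

/-!
# SG-Phi: the correlation modulo 8X and its structured part

N = 8X. PROOF. `ph_cor`: for s < N, n ≤ 4X: if n ≤ s then (s + N - n) % N = s - n; if s < n then s + N - n ∈ [4X, 8X), where W = 0 (W is supported on (X, 3X]). `ph_bound`: W ≥ 0, and s ↦ (s + N - n % N) % N is injective on E ⊆ range N with values in
range N. `ph0_bound`: averages. `ph_fourier`: inversion: for every j: `W(j % N) = (1/N) ∑_ξ FT W (ξ/N) e(-ξ j/N)` (`orth`; FT is a sum over range (4X) and W = 0 beyond 3X), j = s + N - n % N, and `e(-ξ (s + N - n % N)/N) = e(-ξ s/N) e(ξ n/N)`.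
`ph0_fourier`: average over n + t. `ph0_wien`: `c ξ = (1/N) FT W · conj(Ê ξ) · bt T X ξ`; `‖FT W‖ ≤ ∑ W`, Cauchy-Schwarz, `∑ ‖Ê‖² = N |E| ≤ N²` (`cor_norm`), `∑_ξ ‖bt‖² = N/|T|` (`cor_norm` for T ⊆ range N).
`ph_close`: `∑ f(x) (ph(x+t) - ph0(x+t)) = (1/N) ∑_ξ FT f · e(ξt/N) · FT W · conj Ê · (1 - bt)`, Hölder 4, 4, 2 as in Tri.lean (∑ ‖Ê‖² = N |E|).
-/

set_option autoImplicit false

open Finset

namespace Pool.Agent.Lib.SG

private theorem phi_val {N s r : ℕ} (hs : s < N) (hr : r < N) :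
    (s + N - r) % N = if r ≤ s then s - r else s + N - r := by
  by_cases h : r ≤ s
  · rw [if_pos h]
    have : s + N - r = (s - r) + N := by omega
    rw [this, Nat.add_mod_right, Nat.mod_eq_of_lt (by omega)]
  · rw [if_neg h]
    exact Nat.mod_eq_of_lt (by omega)

private theorem phi_lt {N s r : ℕ} (hs : s < N) (hr : r < N) : (s + N - r) % N < N :=
  Nat.mod_lt _ (by omega)

private theorem phi_inj {N s s' r : ℕ} (hs : s < N) (hs' : s' < N) (hr : r < N)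
    (h : (s + N - r) % N = (s' + N - r) % N) : s = s' := by
  rw [phi_val hs hr, phi_val hs' hr] at h
  split_ifs at h <;> omega

theorem ph_cor (X : ℕ) (hX : 1 ≤ X) (E : Finset ℕ) (hE : E ⊆ range (8 * X)) (W : ℕ → ℝ)
    (hW : ∀ n, n ∉ Ioc X (3 * X) → W n = 0) (n : ℕ) (hn : n ≤ 4 * X) : ph X E W n = cor E W n := by
  unfold ph cor
  refine sum_congr rfl fun s hs => ?_
  have hs' := mem_range.1 (hE hs)
  rw [Nat.mod_eq_of_lt (show n < 8 * X by omega), phi_val hs' (by omega)]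
  by_cases h : n ≤ s
  · rw [if_pos h, if_pos h]
  · rw [if_neg h, if_neg h]
    apply hW
    rw [mem_Ioc]
    omega

private theorem phi_mass (X : ℕ) (W : ℕ → ℝ)
    (hW : ∀ n, n ∉ Ioc X (3 * X) → W n = 0) : ∑ j ∈ range (8 * X), W j = ∑ j ∈ Ioc X (3 * X), W j := by
  symm
  apply sum_subset
  · intro x hx
    rw [mem_Ioc] at hx
    rw [mem_range]
    omega
  · intro x _ hx
    exact hW x hx

theorem ph_bound (X : ℕ) (hX : 1 ≤ X) (E : Finset ℕ) (hE : E ⊆ range (8 * X)) (W : ℕ → ℝ)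
    (hW0 : ∀ n, 0 ≤ W n) (hW : ∀ n, n ∉ Ioc X (3 * X) → W n = 0) (n : ℕ) :
    0 ≤ ph X E W n ∧ ph X E W n ≤ ∑ j ∈ Ioc X (3 * X), W j := by
  unfold ph
  refine ⟨sum_nonneg fun _ _ => hW0 _, ?_⟩
  have hr : n % (8 * X) < 8 * X := Nat.mod_lt _ (by omega)
  rw [← phi_mass X W hW,
    ← sum_image (f := W) (g := fun s => (s + 8 * X - n % (8 * X)) % (8 * X)) (s := E)
      (fun a ha b hb hab => phi_inj (mem_range.1 (hE ha)) (mem_range.1 (hE hb)) hr hab)]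
  refine sum_le_sum_of_subset_of_nonneg ?_ fun _ _ _ => hW0 _
  intro j hj
  obtain ⟨s, hs, rfl⟩ := mem_image.1 hj
  exact mem_range.2 (phi_lt (mem_range.1 (hE hs)) hr)

theorem ph0_bound (X : ℕ) (hX : 1 ≤ X) (E : Finset ℕ) (hE : E ⊆ range (8 * X)) (W : ℕ → ℝ)
    (hW0 : ∀ n, 0 ≤ W n) (hW : ∀ n, n ∉ Ioc X (3 * X) → W n = 0) (T : Finset ℕ) (n : ℕ) :
    0 ≤ ph0 X E W T n ∧ ph0 X E W T n ≤ ∑ j ∈ Ioc X (3 * X), W j := by
  have hb := fun t => ph_bound X hX E hE W hW0 hW (n + t)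
  unfold ph0
  refine ⟨mul_nonneg (by positivity) (sum_nonneg fun t _ => (hb t).1), ?_⟩
  rcases T.eq_empty_or_nonempty with hT | hT
  · rw [hT, sum_empty, mul_zero]
    exact sum_nonneg fun _ _ => hW0 _
  · have hc : (0 : ℝ) < T.card := by exact_mod_cast hT.card_pos
    rw [inv_mul_le_iff₀ hc]
    refine (sum_le_sum fun t _ => (hb t).2).trans (le_of_eq ?_)
    rw [sum_const, nsmul_eq_mul]

private theorem phi_conj (x : ℝ) : (starRingEnd ℂ) (GT.e x) = GT.e (-x) := by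
  unfold GT.e
  rw [← Complex.exp_conj]
  congr 1
  simp only [map_mul, Complex.conj_I, Complex.conj_ofReal, map_ofNat]
  push_cast
  ring

/-- inversion -/
private theorem phi_inv (X : ℕ) (hX : 1 ≤ X) (W : ℕ → ℝ) (hW : ∀ n, n ∉ Ioc X (3 * X) → W n = 0)
    (j : ℕ) (hj : j < 8 * X) : (W j : ℂ) * (8 * X) =
      ∑ ξ ∈ range (8 * X), FT W X ((ξ : ℝ) / (8 * X)) * GT.e (-((ξ : ℝ) / (8 * X) * j)) := by
  have h1 : ∀ ξ ∈ range (8 * X), FT W X ((ξ : ℝ) / (8 * X)) * GT.e (-((ξ : ℝ) / (8 * X) * j)) =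
      ∑ m ∈ range (4 * X), (W m : ℂ) *
        GT.e ((ξ : ℝ) * (((m : ℤ) - (j : ℤ) : ℤ) : ℝ) / ((8 * X : ℕ) : ℝ)) := by
    intro ξ _
    unfold FT
    rw [sum_mul]
    refine sum_congr rfl fun m _ => ?_
    rw [mul_assoc, ← GT.e_add]
    congr 2
    push_cast
    ring
  rw [sum_congr rfl h1, sum_comm]
  have h2 : ∀ m ∈ range (4 * X), (∑ ξ ∈ range (8 * X), (W m : ℂ) *
        GT.e ((ξ : ℝ) * (((m : ℤ) - (j : ℤ) : ℤ) : ℝ) / ((8 * X : ℕ) : ℝ))) =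
      if m = j then (W m : ℂ) * (8 * X) else 0 := by
    intro m hm
    have hm' := mem_range.1 hm
    rw [← mul_sum, orth (8 * X) (by omega) ((m : ℤ) - (j : ℤ)) (by
      rw [abs_lt]; constructor <;> push_cast <;> omega)]
    by_cases h3 : m = j
    · rw [if_pos h3, if_pos (by omega)]
      push_cast
      rfl
    · rw [if_neg h3, if_neg (by omega), mul_zero]
  rw [sum_congr rfl h2, sum_ite_eq']
  by_cases h4 : j ∈ range (4 * X)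
  · rw [if_pos h4]
  · rw [if_neg h4, hW j (by rw [mem_range] at h4; rw [mem_Ioc]; omega)]
    simp

private theorem phi_phase (X : ℕ) (hX : 1 ≤ X) (ξ s n : ℕ) (hs : s < 8 * X) :
    GT.e (-((ξ : ℝ) / (8 * X) * (((s + 8 * X - n % (8 * X)) % (8 * X) : ℕ) : ℝ))) =
      GT.e (-((ξ : ℝ) / (8 * X) * s)) * GT.e ((ξ : ℝ) / (8 * X) * n) := by
  have hX' : (8 * (X : ℝ)) ≠ 0 := by
    have : (1 : ℝ) ≤ X := by exact_mod_cast hX
    positivity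
  have hr : n % (8 * X) < 8 * X := Nat.mod_lt _ (by omega)
  rw [← GT.e_add, phi_val hs hr]
  have hn : (n : ℝ) = ((n % (8 * X) : ℕ) : ℝ) + 8 * X * ((n / (8 * X) : ℕ) : ℝ) := by
    have h1 := Nat.mod_add_div n (8 * X)
    have h2 : ((n % (8 * X) + 8 * X * (n / (8 * X)) : ℕ) : ℝ) = (n : ℝ) := by rw [h1]
    rw [← h2]
    push_cast
    ring
  rw [hn]
  generalize n / (8 * X) = q
  generalize n % (8 * X) = ρ at hr
  by_cases h : ρ ≤ s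
  · rw [if_pos h, Nat.cast_sub h]
    have h3 : -((ξ : ℝ) / (8 * X) * s) + (ξ : ℝ) / (8 * X) * ((ρ : ℝ) + 8 * X * q) =
        -((ξ : ℝ) / (8 * X) * ((s : ℝ) - (ρ : ℝ))) + (((ξ * q : ℕ) : ℤ) : ℝ) := by
      push_cast
      field_simp
      ring
    rw [h3, GT.e_add_int]
  · rw [if_neg h, Nat.cast_sub (by omega)]
    have h3 : -((ξ : ℝ) / (8 * X) * s) + (ξ : ℝ) / (8 * X) * ((ρ : ℝ) + 8 * X * q) =
        -((ξ : ℝ) / (8 * X) * (((s + 8 * X : ℕ) : ℝ) - (ρ : ℝ))) + (((ξ * q + ξ : ℕ) : ℤ) : ℝ) := by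
      push_cast
      field_simp
      ring
    rw [h3, GT.e_add_int]

/-- Fourier expansion of `ph` -/
private theorem phi_fourier (X : ℕ) (hX : 1 ≤ X) (E : Finset ℕ) (hE : E ⊆ range (8 * X)) (W : ℕ → ℝ)
    (hW : ∀ n, n ∉ Ioc X (3 * X) → W n = 0) (n : ℕ) : (ph X E W n : ℂ) * (8 * X) =
      ∑ ξ ∈ range (8 * X), FT W X ((ξ : ℝ) / (8 * X)) *
        (starRingEnd ℂ) (∑ s ∈ E, GT.e ((ξ : ℝ) / (8 * X) * s)) * GT.e ((ξ : ℝ) / (8 * X) * n) := by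
  have hr : n % (8 * X) < 8 * X := Nat.mod_lt _ (by omega)
  have h1 : (ph X E W n : ℂ) * (8 * X) = ∑ s ∈ E, ∑ ξ ∈ range (8 * X),
      FT W X ((ξ : ℝ) / (8 * X)) *
        (GT.e (-((ξ : ℝ) / (8 * X) * s)) * GT.e ((ξ : ℝ) / (8 * X) * n)) := by
    unfold ph
    rw [Complex.ofReal_sum, sum_mul]
    refine sum_congr rfl fun s hs => ?_
    have hs' := mem_range.1 (hE hs)
    rw [phi_inv X hX W hW _ (phi_lt hs' hr)]
    exact sum_congr rfl fun ξ _ => by rw [phi_phase X hX ξ s n hs']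
  rw [h1, sum_comm]
  refine sum_congr rfl fun ξ _ => ?_
  rw [map_sum, mul_sum, sum_mul]
  refine sum_congr rfl fun s _ => ?_
  rw [phi_conj]
  ring

/-- Fourier expansion of `ph0` -/
private theorem phi0_fourier (X : ℕ) (hX : 1 ≤ X) (E : Finset ℕ) (hE : E ⊆ range (8 * X)) (W : ℕ → ℝ)
    (hW : ∀ n, n ∉ Ioc X (3 * X) → W n = 0) (T : Finset ℕ) (n : ℕ) :
    (ph0 X E W T n : ℂ) * (8 * X) =
      ∑ ξ ∈ range (8 * X), FT W X ((ξ : ℝ) / (8 * X)) *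
        (starRingEnd ℂ) (∑ s ∈ E, GT.e ((ξ : ℝ) / (8 * X) * s)) * bt T X ξ *
          GT.e ((ξ : ℝ) / (8 * X) * n) := by
  unfold ph0 bt
  rw [Complex.ofReal_mul, Complex.ofReal_sum, mul_assoc, sum_mul]
  have h1 : ∀ t ∈ T, ((ph X E W (n + t) : ℝ) : ℂ) * (8 * X) = ∑ ξ ∈ range (8 * X),
      FT W X ((ξ : ℝ) / (8 * X)) * (starRingEnd ℂ) (∑ s ∈ E, GT.e ((ξ : ℝ) / (8 * X) * s)) *
        (GT.e ((ξ : ℝ) / (8 * X) * t) * GT.e ((ξ : ℝ) / (8 * X) * n)) := by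
    intro t _
    rw [phi_fourier X hX E hE W hW (n + t)]
    refine sum_congr rfl fun ξ _ => ?_
    congr 1
    rw [← GT.e_add]
    congr 1
    push_cast
    ring
  rw [sum_congr rfl h1, sum_comm, mul_sum]
  refine sum_congr rfl fun ξ _ => ?_
  rw [← mul_sum, ← sum_mul]
  ring

private theorem phi_bt (X : ℕ) (hX : 1 ≤ X) (T : Finset ℕ) (hT : T ⊆ range (8 * X))
    (hTn : T.Nonempty) : ∑ ξ ∈ range (8 * X), ‖bt T X ξ‖ ^ 2 = 8 * X / T.card := by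
  have hc : (0 : ℝ) < T.card := by exact_mod_cast hTn.card_pos
  have h1 : ∀ ξ ∈ range (8 * X), ‖bt T X ξ‖ ^ 2 = ((T.card : ℝ)⁻¹) ^ 2 *
      ‖∑ s ∈ T, GT.e ((ξ : ℝ) / (8 * X) * s)‖ ^ 2 := by
    intro ξ _
    unfold bt
    rw [norm_mul, mul_pow, Complex.norm_real, Real.norm_eq_abs, abs_of_pos (inv_pos.2 hc)]
  rw [sum_congr rfl h1, ← mul_sum, cor_norm X hX T hT]
  field_simp

theorem ph0_wien (X : ℕ) (hX : 1 ≤ X) (E : Finset ℕ) (hE : E ⊆ range (8 * X)) (W : ℕ → ℝ)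
    (hW0 : ∀ n, 0 ≤ W n) (hW : ∀ n, n ∉ Ioc X (3 * X) → W n = 0) (T : Finset ℕ) (hT : T ⊆ range (8 * X))
    (hTn : T.Nonempty) :
    ∃ c : ℕ → ℂ, (∀ n : ℕ, (ph0 X E W T n : ℂ) = ∑ ξ ∈ range (8 * X), c ξ * GT.e ((ξ : ℝ) / (8 * X) * n)) ∧
      ∑ ξ ∈ range (8 * X), ‖c ξ‖ ≤ (∑ j ∈ Ioc X (3 * X), W j) * Real.sqrt (8 * X / T.card) := by
  have hX1 : (1 : ℝ) ≤ X := by exact_mod_cast hX
  have hN : (0 : ℝ) < 8 * X := by linarith
  have hNc : (8 * (X : ℂ)) ≠ 0 := by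
    have : ((8 * X : ℝ) : ℂ) ≠ 0 := by
      rw [Complex.ofReal_ne_zero]
      exact hN.ne'
    push_cast at this
    exact this
  set M : ℝ := ∑ j ∈ Ioc X (3 * X), W j with hM
  have hM0 : 0 ≤ M := sum_nonneg fun _ _ => hW0 _
  refine ⟨fun ξ => (8 * (X : ℂ))⁻¹ * (FT W X ((ξ : ℝ) / (8 * X)) *
        (starRingEnd ℂ) (∑ s ∈ E, GT.e ((ξ : ℝ) / (8 * X) * s)) * bt T X ξ), fun n => ?_, ?_⟩
  · have h1 := phi0_fourier X hX E hE W hW T n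
    rw [← eq_div_iff hNc] at h1
    rw [h1, div_eq_inv_mul, mul_sum]
    exact sum_congr rfl fun ξ _ => by ring
  · have hFT : ∀ ξ : ℕ, ‖FT W X ((ξ : ℝ) / (8 * X))‖ ≤ M := by
      intro ξ
      unfold FT
      refine (norm_sum_le _ _).trans ?_
      have h1 : ∑ n ∈ range (4 * X), ‖(W n : ℂ) * GT.e ((ξ : ℝ) / (8 * X) * n)‖ =
          ∑ n ∈ range (4 * X), W n := by
        refine sum_congr rfl fun n _ => ?_
        rw [norm_mul, GT.norm_e, mul_one, Complex.norm_real, Real.norm_eq_abs, abs_of_nonneg (hW0 n)]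
      rw [h1, hM, ← phi_mass X W hW]
      refine sum_le_sum_of_subset_of_nonneg ?_ fun _ _ _ => hW0 _
      intro x hx
      rw [mem_range] at hx ⊢
      omega
    have h2 : ∀ ξ ∈ range (8 * X), ‖(8 * (X : ℂ))⁻¹ * (FT W X ((ξ : ℝ) / (8 * X)) *
        (starRingEnd ℂ) (∑ s ∈ E, GT.e ((ξ : ℝ) / (8 * X) * s)) * bt T X ξ)‖ ≤
        (8 * (X : ℝ))⁻¹ * M * (‖∑ s ∈ E, GT.e ((ξ : ℝ) / (8 * X) * s)‖ * ‖bt T X ξ‖) := by
      intro ξ _
      have h3 : ‖(8 * (X : ℂ))⁻¹‖ = (8 * (X : ℝ))⁻¹ := by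
        rw [norm_inv]
        congr 1
        rw [show (8 * (X : ℂ)) = ((8 * X : ℝ) : ℂ) by push_cast; ring, Complex.norm_real,
          Real.norm_eq_abs, abs_of_pos hN]
      rw [norm_mul, norm_mul, norm_mul, RCLike.norm_conj, h3, mul_assoc, mul_assoc]
      refine mul_le_mul_of_nonneg_left ?_ (inv_nonneg.2 hN.le)
      exact mul_le_mul_of_nonneg_right (hFT ξ) (mul_nonneg (norm_nonneg _) (norm_nonneg _))
    refine (sum_le_sum h2).trans ?_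
    rw [← mul_sum]
    have hc : (0 : ℝ) < T.card := by exact_mod_cast hTn.card_pos
    have hEc : (E.card : ℝ) ≤ 8 * X := by
      have := card_le_card hE
      rw [card_range] at this
      exact_mod_cast this
    have h4 : ∑ ξ ∈ range (8 * X), ‖∑ s ∈ E, GT.e ((ξ : ℝ) / (8 * X) * s)‖ * ‖bt T X ξ‖ ≤
        8 * X * Real.sqrt (8 * X / T.card) := by
      have h5 := Finset.sum_mul_sq_le_sq_mul_sq (range (8 * X))
        (fun ξ : ℕ => ‖∑ s ∈ E, GT.e ((ξ : ℝ) / (8 * X) * s)‖) (fun ξ => ‖bt T X ξ‖)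
      rw [cor_norm X hX E hE, phi_bt X hX T hT hTn] at h5
      refine abs_le_of_sq_le_sq' ?_ (by positivity) |>.2
      rw [mul_pow, Real.sq_sqrt (by positivity)]
      refine h5.trans ?_
      have h6 : (8 * (X : ℝ)) ^ 2 * (8 * X / T.card) = 8 * X * (8 * X) * (8 * X / T.card) := by ring
      rw [h6]
      refine mul_le_mul_of_nonneg_right ?_ (by positivity)
      exact mul_le_mul_of_nonneg_left hEc hN.le
    calc (8 * (X : ℝ))⁻¹ * M * ∑ ξ ∈ range (8 * X),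
          ‖∑ s ∈ E, GT.e ((ξ : ℝ) / (8 * X) * s)‖ * ‖bt T X ξ‖
        ≤ (8 * (X : ℝ))⁻¹ * M * (8 * X * Real.sqrt (8 * X / T.card)) :=
          mul_le_mul_of_nonneg_left h4 (mul_nonneg (inv_nonneg.2 hN.le) hM0)
      _ = M * Real.sqrt (8 * X / T.card) := by
          field_simp

private theorem phi_hold (s : Finset ℕ) (a b c : ℕ → ℝ) :
    (∑ i ∈ s, a i * b i * c i) ^ 4 ≤ (∑ i ∈ s, a i ^ 4) * (∑ i ∈ s, b i ^ 4) * (∑ i ∈ s, c i ^ 2) ^ 2 := by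
  have h1 := Finset.sum_mul_sq_le_sq_mul_sq s (fun i => a i * b i) c
  have h2 := Finset.sum_mul_sq_le_sq_mul_sq s (fun i => a i ^ 2) (fun i => b i ^ 2)
  have h3 : (∑ i ∈ s, (a i * b i) ^ 2) = ∑ i ∈ s, a i ^ 2 * b i ^ 2 :=
    Finset.sum_congr rfl (fun i _ => by ring)
  have h4 : (∑ i ∈ s, (a i ^ 2) ^ 2) = ∑ i ∈ s, a i ^ 4 := Finset.sum_congr rfl (fun i _ => by ring)
  have h5 : (∑ i ∈ s, (b i ^ 2) ^ 2) = ∑ i ∈ s, b i ^ 4 := Finset.sum_congr rfl (fun i _ => by ring)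
  rw [h3] at h1
  rw [h4, h5] at h2
  calc (∑ i ∈ s, a i * b i * c i) ^ 4 = ((∑ i ∈ s, a i * b i * c i) ^ 2) ^ 2 := by ring
    _ ≤ ((∑ i ∈ s, a i ^ 2 * b i ^ 2) * ∑ i ∈ s, c i ^ 2) ^ 2 := by
        apply pow_le_pow_left₀ (sq_nonneg _) h1
    _ = (∑ i ∈ s, a i ^ 2 * b i ^ 2) ^ 2 * (∑ i ∈ s, c i ^ 2) ^ 2 := by ring
    _ ≤ _ := by
        apply mul_le_mul_of_nonneg_right h2 (sq_nonneg _)

private theorem phi_fin (X : ℕ) (hX : 1 ≤ X) (E : Finset ℕ) (hE : E ⊆ range (8 * X)) (L : ℝ) (F G W : ℕ → ℂ)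
    (h : ((L : ℝ) : ℂ) * (8 * X) = ∑ ξ ∈ range (8 * X), F ξ * G ξ * W ξ *
      (starRingEnd ℂ) (∑ s ∈ E, GT.e ((ξ : ℝ) / (8 * X) * s))) :
    L ^ 4 ≤ ((E.card : ℝ) / (8 * X)) ^ 2 * (∑ ξ ∈ range (8 * X), ‖F ξ‖ ^ 4) *
        ∑ ξ ∈ range (8 * X), (‖G ξ‖ * ‖W ξ‖) ^ 4 := by
  have hX' : (0 : ℝ) < 8 * X := by
    have : (1 : ℝ) ≤ X := by exact_mod_cast hX
    linarith
  have h1 : |L| * (8 * X) ≤ ∑ ξ ∈ range (8 * X), ‖F ξ‖ * (‖G ξ‖ * ‖W ξ‖) *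
      ‖∑ s ∈ E, GT.e ((ξ : ℝ) / (8 * X) * s)‖ := by
    have h2 : ‖((L : ℝ) : ℂ) * (8 * X)‖ = |L| * (8 * X) := by
      rw [norm_mul, Complex.norm_real, Real.norm_eq_abs]
      congr 1
      rw [show (8 * (X : ℂ)) = ((8 * X : ℝ) : ℂ) by push_cast; ring, Complex.norm_real, Real.norm_eq_abs,
        abs_of_pos hX']
    rw [← h2, h]
    refine (norm_sum_le _ _).trans (le_of_eq ?_)
    refine Finset.sum_congr rfl (fun ξ _ => ?_)
    rw [norm_mul, norm_mul, norm_mul, RCLike.norm_conj]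
    ring
  have h3 := phi_hold (range (8 * X)) (fun ξ => ‖F ξ‖) (fun ξ => ‖G ξ‖ * ‖W ξ‖)
    (fun ξ => ‖∑ s ∈ E, GT.e ((ξ : ℝ) / (8 * X) * s)‖)
  rw [cor_norm X hX E hE] at h3
  have h4 : (|L| * (8 * X)) ^ 4 ≤ (∑ ξ ∈ range (8 * X), ‖F ξ‖ ^ 4) *
      (∑ ξ ∈ range (8 * X), (‖G ξ‖ * ‖W ξ‖) ^ 4) * (8 * X * (E.card : ℝ)) ^ 2 :=
    (pow_le_pow_left₀ (by positivity) h1 4).trans h3
  have h5 : (|L| * (8 * X)) ^ 4 = L ^ 4 * (8 * X) ^ 4 := by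
    rw [mul_pow]
    congr 1
    rw [show |L| ^ 4 = (|L| ^ 2) ^ 2 by ring, sq_abs]
    ring
  rw [h5] at h4
  have h6 : ((E.card : ℝ) / (8 * X)) ^ 2 * (∑ ξ ∈ range (8 * X), ‖F ξ‖ ^ 4) *
        (∑ ξ ∈ range (8 * X), (‖G ξ‖ * ‖W ξ‖) ^ 4) = ((∑ ξ ∈ range (8 * X), ‖F ξ‖ ^ 4) *
      (∑ ξ ∈ range (8 * X), (‖G ξ‖ * ‖W ξ‖) ^ 4) * (8 * X * (E.card : ℝ)) ^ 2) / (8 * X) ^ 4 := by
    field_simp
  rw [h6, le_div_iff₀ (by positivity)]
  exact h4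

theorem ph_close (X t : ℕ) (hX : 1 ≤ X) (E : Finset ℕ) (hE : E ⊆ range (8 * X)) (W f : ℕ → ℝ)
    (hW : ∀ n, n ∉ Ioc X (3 * X) → W n = 0) (hf : ∀ x, x ∉ Ioc X (2 * X) → f x = 0)
    (T : Finset ℕ) (hTn : T.Nonempty) :
    (∑ x ∈ Ioc X (2 * X), f x * (ph X E W (x + t) - ph0 X E W T (x + t))) ^ 4 ≤
      ((E.card : ℝ) / (8 * X)) ^ 2 * (∑ ξ ∈ range (8 * X), ‖FT f X ((ξ : ℝ) / (8 * X))‖ ^ 4) *
        ∑ ξ ∈ range (8 * X), (‖FT W X ((ξ : ℝ) / (8 * X))‖ * ‖1 - bt T X ξ‖) ^ 4 := by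
  have h := phi_fin X hX E hE (∑ x ∈ Ioc X (2 * X), f x * (ph X E W (x + t) - ph0 X E W T (x + t)))
    (fun ξ => FT f X ((ξ : ℝ) / (8 * X))) (fun ξ => FT W X ((ξ : ℝ) / (8 * X)))
    (fun ξ => GT.e ((ξ : ℝ) / (8 * X) * t) * (1 - bt T X ξ)) ?_
  · have h1 : ∀ ξ : ℕ, ‖GT.e ((ξ : ℝ) / (8 * X) * t) * (1 - bt T X ξ)‖ = ‖1 - bt T X ξ‖ := by
      intro ξ
      rw [norm_mul, GT.norm_e, one_mul]
    simp only [h1] at h
    exact h
  · rw [Complex.ofReal_sum, sum_mul]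
    have h1 : ∀ x ∈ Ioc X (2 * X), ((f x * (ph X E W (x + t) - ph0 X E W T (x + t)) : ℝ) : ℂ) *
        (8 * X) = ∑ ξ ∈ range (8 * X), ((f x : ℂ) * GT.e ((ξ : ℝ) / (8 * X) * x)) *
          (FT W X ((ξ : ℝ) / (8 * X)) * (GT.e ((ξ : ℝ) / (8 * X) * t) * (1 - bt T X ξ)) *
            (starRingEnd ℂ) (∑ s ∈ E, GT.e ((ξ : ℝ) / (8 * X) * s))) := by
      intro x _
      rw [Complex.ofReal_mul, Complex.ofReal_sub, mul_assoc, sub_mul, phi_fourier X hX E hE W hW,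
        phi0_fourier X hX E hE W hW, ← sum_sub_distrib, mul_sum]
      refine sum_congr rfl fun ξ _ => ?_
      have h2 : GT.e ((ξ : ℝ) / (8 * X) * ((x + t : ℕ) : ℝ)) =
          GT.e ((ξ : ℝ) / (8 * X) * x) * GT.e ((ξ : ℝ) / (8 * X) * t) := by
        rw [← GT.e_add]
        congr 1
        push_cast
        ring
      rw [h2]
      ring
    rw [sum_congr rfl h1, sum_comm]
    refine sum_congr rfl fun ξ _ => ?_
    rw [← sum_mul, ft_es X f hf]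
    unfold ES
    ring

end Pool.Agent.Lib.SG
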