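import Pool.Agent.Lib.SG.Defs7

/-!
# SG-Wien: products of functions with absolutely convergent Fourier series as test functions

PROOF. Claim for every list/finset S of indices and every α: `‖∑_{x ∈ (X,2X]} D x ∏_{i ∈ S} φ i (x + h i) e(α x)‖ ≤ Q^|S| δ` (induction on S): for S = ∅ the hypothesis (ES D X α). Insert j: replace `φ j (x + h j) = ∑_ξ c j ξ e(ξ/(8X) (x + h j))`: the sum is
`∑_ξ c j ξ e(ξ h_j/(8X)) ∑_x D x ∏_{S} .. e((α + ξ/(8X)) x)`, so at most `(∑ ‖c j ξ‖) Q^|S| δ`. Take S = univ, α = 0. (Q ≥ 0, δ ≥ 0 follow.)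
-/

set_option autoImplicit false

open Finset

namespace Pool.Agent.Lib.SG

private theorem wien_claim (X k : ℕ) (D : ℕ → ℝ) (δ : ℝ) (hD : ∀ α : ℝ, ‖ES D X α‖ ≤ δ)
    (φ : Fin k → ℕ → ℝ) (c : Fin k → ℕ → ℂ) (Q : ℝ) (hφ : ∀ i, ∀ n : ℕ, (φ i n : ℂ) =
      ∑ ξ ∈ range (8 * X), c i ξ * GT.e ((ξ : ℝ) / (8 * X) * n))
    (hc : ∀ i, ∑ ξ ∈ range (8 * X), ‖c i ξ‖ ≤ Q) (h : Fin k → ℕ) (S : Finset (Fin k)) :
    ∀ α : ℝ, ‖∑ x ∈ Ioc X (2 * X), (D x : ℂ) * (∏ i ∈ S, (φ i (x + h i) : ℂ)) * GT.e (α * x)‖ ≤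
      Q ^ S.card * δ := by
  classical
  induction S using Finset.induction_on with
  | empty =>
    intro α
    simpa [ES] using hD α
  | insert j S hj ih =>
    intro α
    have h0 : 0 ≤ Q ^ S.card * δ := le_trans (norm_nonneg _) (ih 0)
    have h1 : ∑ x ∈ Ioc X (2 * X), (D x : ℂ) * (∏ i ∈ insert j S, (φ i (x + h i) : ℂ)) *
        GT.e (α * x) = ∑ ξ ∈ range (8 * X), (c j ξ * GT.e ((ξ : ℝ) / (8 * X) * (h j : ℕ))) *
          ∑ x ∈ Ioc X (2 * X), (D x : ℂ) * (∏ i ∈ S, (φ i (x + h i) : ℂ)) *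
            GT.e ((α + (ξ : ℝ) / (8 * X)) * x) := by
      simp_rw [mul_sum]
      rw [sum_comm]
      refine sum_congr rfl fun x _ => ?_
      rw [prod_insert hj, hφ j (x + h j), sum_mul, mul_sum, sum_mul]
      refine sum_congr rfl fun ξ _ => ?_
      have e1 : GT.e ((ξ : ℝ) / (8 * X) * ((x + h j : ℕ) : ℝ)) =
          GT.e ((ξ : ℝ) / (8 * X) * x) * GT.e ((ξ : ℝ) / (8 * X) * (h j : ℕ)) := by
        rw [← GT.e_add]
        congr 1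
        push_cast
        ring
      have e2 : GT.e ((α + (ξ : ℝ) / (8 * X)) * x) =
          GT.e (α * x) * GT.e ((ξ : ℝ) / (8 * X) * x) := by
        rw [← GT.e_add]
        congr 1
        ring
      rw [e1, e2]
      ring
    rw [h1, card_insert_of_notMem hj]
    calc ‖∑ ξ ∈ range (8 * X), (c j ξ * GT.e ((ξ : ℝ) / (8 * X) * (h j : ℕ))) *
          ∑ x ∈ Ioc X (2 * X), (D x : ℂ) * (∏ i ∈ S, (φ i (x + h i) : ℂ)) *
            GT.e ((α + (ξ : ℝ) / (8 * X)) * x)‖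
        ≤ ∑ ξ ∈ range (8 * X), ‖c j ξ‖ * (Q ^ S.card * δ) := by
          refine (norm_sum_le _ _).trans (sum_le_sum fun ξ _ => ?_)
          rw [norm_mul, norm_mul, GT.norm_e, mul_one]
          exact mul_le_mul_of_nonneg_left (ih _) (norm_nonneg _)
      _ = (∑ ξ ∈ range (8 * X), ‖c j ξ‖) * (Q ^ S.card * δ) := by rw [sum_mul]
      _ ≤ Q * (Q ^ S.card * δ) := mul_le_mul_of_nonneg_right (hc j) h0
      _ = Q ^ (S.card + 1) * δ := by ring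

theorem wien (X k : ℕ) (D : ℕ → ℝ) (δ : ℝ) (hD : ∀ α : ℝ, ‖ES D X α‖ ≤ δ) (φ : Fin k → ℕ → ℝ)
    (c : Fin k → ℕ → ℂ) (Q : ℝ) (hφ : ∀ i, ∀ n : ℕ, (φ i n : ℂ) =
      ∑ ξ ∈ range (8 * X), c i ξ * GT.e ((ξ : ℝ) / (8 * X) * n))
    (hc : ∀ i, ∑ ξ ∈ range (8 * X), ‖c i ξ‖ ≤ Q) (h : Fin k → ℕ) :
    |∑ x ∈ Ioc X (2 * X), D x * ∏ i, φ i (x + h i)| ≤ Q ^ k * δ := by
  have h1 := wien_claim X k D δ hD φ c Q hφ hc h univ 0
  rw [card_univ, Fintype.card_fin] at h1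
  have h2 : ∑ x ∈ Ioc X (2 * X), (D x : ℂ) * (∏ i, (φ i (x + h i) : ℂ)) * GT.e (0 * x) =
      ((∑ x ∈ Ioc X (2 * X), D x * ∏ i, φ i (x + h i) : ℝ) : ℂ) := by
    push_cast
    refine sum_congr rfl fun x _ => ?_
    rw [zero_mul, GT.e_zero, mul_one]
  rw [h2, Complex.norm_real, Real.norm_eq_abs] at h1
  exact h1

end Pool.Agent.Lib.SG
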