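import Pool.Agent.Lib.SG.Stp7
import Pool.Agent.Lib.SG.Wien
import Pool.Agent.Lib.SG.Phi

/-!
# SG-Badp: Maynard-Tao for A against the product of the structured correlations along the tuple

PROOF. `stp7` with `ρ = mu Ω z X`, `ψ x = ∏ i, ph0 X E W T (x + h i) / U` (`0 ≤ ψ ≤ 1` by `ph0_bound`, hWU), `δ = 1 / log X`. hcw: `D = w - M mu`, `‖ES D‖ ≤ X/(log X)^(4c)` (`hW.clw`, ES is linear), `wien` with
`φ i n = ph0 X E W T n / U`, coefficients of `ph0_wien` divided by U, `Q = √(8X/|T|)` (`(∑ W)/U ≤ 1`): `≤ Q^k X/(log X)^(4c) ≤ log X · X/(log X)^4 ≤ X/log X`. hcv the same with `v i`, `M' i`.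
Then `ψ x ≤ ph0 (x + h i)/U` (the other factors are at most 1), `∑ fa_i ψ ≤ (1/U) ∑ fa_i(x) ph0(x + h i) ≤ (1/U) (∑ fa_i(x) ph(x + h i) + ε₂ X²)` (hcl for f = fa A h w i, 0 ≤ fa ≤ w), `ph (x + h i) = cor E W (x + h i)` for
x ≤ 2X (`ph_cor`, x + h i ≤ 3X), and `am_supp` (third clause) with φ = cor E W.
-/

set_option autoImplicit false

open Finset

namespace Pool.Agent.Lib.SG

open Pool.Agent.Lib.MT

theorem badp {m k H z X c : ℕ} (hm : 1 ≤ m) (hk : 1 ≤ k) (hc : 1 ≤ c) (hX : 1 ≤ X) (hHX : H ≤ X)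
    (hlog : 1 ≤ Real.log X) (Ω : ℕ → Finset ℕ) (h : Fin k → ℕ)
    (hinj : Function.Injective h) (hh : ∀ i, 1 ≤ h i ∧ h i ≤ H) (w : ℕ → ℝ) (v : Fin k → ℕ → ℝ)
    (M : ℝ) (M' : Fin k → ℝ) (κ : ℝ) (hκ : 0 ≤ κ) (hmκ : m * κ ≤ 1) (hW : Wg m k H z X c Ω h w v M M' κ)
    (A : Set ℕ) (hA : Hit m H (2 * X) A) (hρ : ∀ x, 0 ≤ mu Ω z X x)
    (E : Finset ℕ) (hE : E ⊆ range (8 * X)) (W : ℕ → ℝ) (hW0 : ∀ n, 0 ≤ W n)
    (hWs : ∀ n, n ∉ Ioc X (3 * X) → W n = 0) (T : Finset ℕ) (hT : T ⊆ range (8 * X)) (hTn : T.Nonempty)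
    (U : ℝ) (hU : 0 < U) (hWU : ∑ j ∈ Ioc X (3 * X), W j ≤ U)
    (hQ : (Real.sqrt (8 * X / T.card)) ^ k ≤ Real.log X) (ε₂ : ℝ)
    (hcl : ∀ t : ℕ, ∀ f : ℕ → ℝ, (∀ x, 0 ≤ f x ∧ f x ≤ w x) →
      |∑ x ∈ Ioc X (2 * X), f x * (ph X E W (x + t) - ph0 X E W T (x + t))| ≤ ε₂ * X ^ 2) :
    ∑ x ∈ Ioc X (2 * X), mu Ω z X x * ∏ i, (ph0 X E W T (x + h i) / U) ≤
      k / U * (∑ n ∈ Ioc X (3 * X), am A h w n * cor E W n + k * ε₂ * X ^ 2) +
        (k + m) * X / Real.log X + k * κ * X := by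
  classical
  have hX1 : (1 : ℝ) ≤ X := by exact_mod_cast hX
  have hX0 : (0 : ℝ) < X := by linarith
  have hL0 : 0 < Real.log X := by linarith
  have hk0 : (0 : ℝ) < k := by exact_mod_cast hk
  have hm0 : (0 : ℝ) < m := by exact_mod_cast hm
  -- the test functions
  have hφ0 : ∀ n, 0 ≤ ph0 X E W T n / U := fun n =>
    div_nonneg (ph0_bound X hX E hE W hW0 hWs T n).1 hU.le
  have hφ1 : ∀ n, ph0 X E W T n / U ≤ 1 := fun n =>
    (div_le_one hU).2 ((ph0_bound X hX E hE W hW0 hWs T n).2.trans hWU)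
  obtain ⟨c0, hc0, hc1⟩ := ph0_wien X hX E hE W hW0 hWs T hT hTn
  set Q : ℝ := Real.sqrt (8 * X / T.card) with hQd
  have hQ0 : 0 ≤ Q := Real.sqrt_nonneg _
  have hfour : ∀ n : ℕ, ((ph0 X E W T n / U : ℝ) : ℂ) =
      ∑ ξ ∈ range (8 * X), (c0 ξ / (U : ℂ)) * GT.e ((ξ : ℝ) / (8 * X) * n) := by
    intro n
    rw [Complex.ofReal_div, hc0 n, sum_div]
    exact sum_congr rfl fun ξ _ => by ring
  have hwn : ∑ ξ ∈ range (8 * X), ‖c0 ξ / (U : ℂ)‖ ≤ Q := by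
    have h1 : ∀ ξ ∈ range (8 * X), ‖c0 ξ / (U : ℂ)‖ = ‖c0 ξ‖ / U := by
      intro ξ _
      rw [norm_div, Complex.norm_real, Real.norm_eq_abs, abs_of_pos hU]
    rw [sum_congr rfl h1, ← sum_div, div_le_iff₀ hU]
    calc ∑ ξ ∈ range (8 * X), ‖c0 ξ‖ ≤ (∑ j ∈ Ioc X (3 * X), W j) * Q := hc1
      _ ≤ U * Q := mul_le_mul_of_nonneg_right hWU hQ0
      _ = Q * U := mul_comm _ _
  have hψ : ∀ x : ℕ, 0 ≤ ∏ i, (ph0 X E W T (x + h i) / U) ∧
      ∏ i, (ph0 X E W T (x + h i) / U) ≤ 1 := fun x =>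
    ⟨prod_nonneg fun _ _ => hφ0 _, prod_le_one (fun _ _ => hφ0 _) fun _ _ => hφ1 _⟩
  have hδ : Q ^ k * (X / (Real.log X) ^ (4 * c)) ≤ 1 / Real.log X * X := by
    have h1 : (Real.log X) ^ 2 ≤ (Real.log X) ^ (4 * c) := pow_le_pow_right₀ hlog (by omega)
    have h2 : X / (Real.log X) ^ (4 * c) ≤ X / (Real.log X) ^ 2 :=
      div_le_div_of_nonneg_left hX0.le (by positivity) h1
    calc Q ^ k * (X / (Real.log X) ^ (4 * c)) ≤ Real.log X * (X / (Real.log X) ^ 2) :=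
          mul_le_mul hQ h2 (by positivity) hL0.le
      _ = 1 / Real.log X * X := by field_simp
  have hlin : ∀ (u : ℕ → ℝ) (M₁ : ℝ),
      (∀ α : ℝ, ‖ES u X α - M₁ * ES (mu Ω z X) X α‖ ≤ X / (Real.log X) ^ (4 * c)) →
      |∑ x ∈ Ioc X (2 * X), (u x - M₁ * mu Ω z X x) * ∏ i, (ph0 X E W T (x + h i) / U)| ≤
        1 / Real.log X * X := by
    intro u M₁ hu
    have hD : ∀ α : ℝ, ‖ES (fun x => u x - M₁ * mu Ω z X x) X α‖ ≤
        X / (Real.log X) ^ (4 * c) := by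
      intro α
      have h1 : ES (fun x => u x - M₁ * mu Ω z X x) X α =
          ES u X α - M₁ * ES (mu Ω z X) X α := by
        unfold ES
        rw [mul_sum, ← sum_sub_distrib]
        refine sum_congr rfl fun x _ => ?_
        push_cast
        ring
      rw [h1]
      exact hu α
    exact (wien X k (fun x => u x - M₁ * mu Ω z X x) _ hD (fun _ n => ph0 X E W T n / U)
      (fun _ ξ => c0 ξ / (U : ℂ)) Q (fun _ => hfour) (fun _ => hwn) h).trans hδ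
  have main := stp7 hm hk Ω h hinj hh w v M M' κ hκ hmκ hW A hA (mu Ω z X)
    (fun x => ∏ i, (ph0 X E W T (x + h i) / U)) hρ hψ (1 / Real.log X) (by positivity)
    (hlin w M hW.clw) (fun i => hlin (v i) (M' i) (hW.clv i))
  -- the part on the primes of `A`
  have hws : ∀ x, x ∉ Ioc X (2 * X) → w x = 0 := by
    intro x hx
    refine hW.ws x fun h1 => hx ?_
    unfold Pre at h1
    exact (mem_filter.1 h1).1
  have hhX : ∀ i, h i ≤ X := fun i => (hh i).2.trans hHX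
  have hfa : ∀ i x, 0 ≤ fa A h w i x ∧ fa A h w i x ≤ w x := by
    intro i x
    unfold fa
    split_ifs
    · exact ⟨hW.w0 x, le_refl _⟩
    · exact ⟨le_refl _, hW.w0 x⟩
  have h1 : ∀ i : Fin k, ∑ x ∈ Ioc X (2 * X), fa A h w i x * ∏ j, (ph0 X E W T (x + h j) / U) ≤
      1 / U * (∑ x ∈ Ioc X (2 * X), fa A h w i x * cor E W (x + h i) + ε₂ * X ^ 2) := by
    intro i
    have h2 : ∀ x ∈ Ioc X (2 * X), fa A h w i x * ∏ j, (ph0 X E W T (x + h j) / U) ≤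
        1 / U * (fa A h w i x * ph0 X E W T (x + h i)) := by
      intro x _
      have h3 : ∏ j, (ph0 X E W T (x + h j) / U) ≤ ph0 X E W T (x + h i) / U := by
        rw [← mul_prod_erase univ _ (mem_univ i)]
        calc ph0 X E W T (x + h i) / U * ∏ j ∈ univ.erase i, (ph0 X E W T (x + h j) / U) ≤
              ph0 X E W T (x + h i) / U * 1 :=
              mul_le_mul_of_nonneg_left (prod_le_one (fun _ _ => hφ0 _) fun _ _ => hφ1 _) (hφ0 _)
          _ = _ := mul_one _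
      calc fa A h w i x * ∏ j, (ph0 X E W T (x + h j) / U) ≤
            fa A h w i x * (ph0 X E W T (x + h i) / U) :=
            mul_le_mul_of_nonneg_left h3 (hfa i x).1
        _ = _ := by ring
    have h4 := (abs_le.1 (hcl (h i) (fa A h w i) (hfa i))).1
    have h5 : ∑ x ∈ Ioc X (2 * X), fa A h w i x *
        (ph X E W (x + h i) - ph0 X E W T (x + h i)) =
        ∑ x ∈ Ioc X (2 * X), fa A h w i x * cor E W (x + h i) -
        ∑ x ∈ Ioc X (2 * X), fa A h w i x * ph0 X E W T (x + h i) := by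
      rw [← sum_sub_distrib]
      refine sum_congr rfl fun x hx => ?_
      have h6 := (mem_Ioc.1 hx).2
      rw [ph_cor X hX E hE W hWs (x + h i) (by have := hhX i; omega)]
      ring
    rw [h5] at h4
    refine (sum_le_sum h2).trans ?_
    rw [← mul_sum]
    exact mul_le_mul_of_nonneg_left (by linarith) (by positivity)
  have h2 : ∑ i, ∑ x ∈ Ioc X (2 * X), fa A h w i x * ∏ j, (ph0 X E W T (x + h j) / U) ≤
      1 / U * (∑ n ∈ Ioc X (3 * X), am A h w n * cor E W n + k * ε₂ * X ^ 2) := by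
    refine (sum_le_sum fun i _ => h1 i).trans (le_of_eq ?_)
    rw [(am_supp A h w X hhX hws hW.w0).2.2.1 (cor E W), ← mul_sum, sum_add_distrib, sum_const,
      card_univ, Fintype.card_fin, nsmul_eq_mul]
    ring
  have h3 := mul_le_mul_of_nonneg_left h2 hk0.le
  calc ∑ x ∈ Ioc X (2 * X), mu Ω z X x * ∏ i, (ph0 X E W T (x + h i) / U) ≤
      k * ∑ i, ∑ x ∈ Ioc X (2 * X), fa A h w i x * ∏ j, (ph0 X E W T (x + h j) / U) +
        (k + m) * (1 / Real.log X) * X + k * κ * X := main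
    _ ≤ k * (1 / U * (∑ n ∈ Ioc X (3 * X), am A h w n * cor E W n + k * ε₂ * X ^ 2)) +
        (k + m) * (1 / Real.log X) * X + k * κ * X := by linarith
    _ = _ := by ring

end Pool.Agent.Lib.SG
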