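import Pool.Agent.Lib.SG.Defs7
import Pool.Agent.Lib.MP_7b7e48_nt.GT.ExpTools

/-!
# SG-Bohr: the size of Bohr sets

PROOF. Map t ∈ range N to the function ξ ↦ ⌊M fract(ξ t/N)⌋ ∈ range M on Ξ: M^|Ξ| boxes; some box contains at least N/M^|Ξ| of the t (pigeonhole, real version
`Finset.exists_le_card_fiber_of_mul_le_card_of_maps_to`). Let t₀ be the smallest element of this box; for t in the box t - t₀ ∈ range N and `ξ(t - t₀)/N` is within 1/M of an integer, so `‖e(ξ(t - t₀)/N) - 1‖ ≤ 2π/M ≤ 7/M ≤ ρ`.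
`bt_close`: average of the single differences. `bt_two`: norm at most 1. `0 ∈ Bh`: e(0) = 1.
-/

set_option autoImplicit false

open Finset

namespace Pool.Agent.Lib.SG

private theorem Bohr_e (x : ℝ) (n : ℤ) : ‖GT.e x - 1‖ ≤ 7 * |x - n| := by
  have h3 : GT.e x = GT.e (x - n) := by
    rw [sub_eq_add_neg, show (-((n : ℤ) : ℝ)) = (((-n : ℤ)) : ℝ) by push_cast; ring, GT.e_add_int]
  rw [h3]
  refine (GT.RE.norm_e_sub_one_le _).trans ?_
  have h1 := Real.pi_lt_d2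
  have h0 := abs_nonneg (x - n)
  nlinarith

theorem bohr_card (N : ℕ) (hN : 1 ≤ N) (Ξ : Finset ℕ) (ρ : ℝ) (M : ℕ) (hρ : 0 < ρ) (hM : 7 ≤ M * ρ) :
    (N : ℝ) ≤ (M : ℝ) ^ Ξ.card * ((Bh N Ξ ρ).card : ℝ) ∧ (Bh N Ξ ρ).Nonempty := by
  classical
  have hM1 : 0 < M := by
    rcases Nat.eq_zero_or_pos M with h | h
    · rw [h] at hM
      norm_num at hM
    · exact h
  have hMr : (0 : ℝ) < M := by exact_mod_cast hM1
  have hNr : (0 : ℝ) < N := by exact_mod_cast hN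
  obtain ⟨bx, hbx⟩ : ∃ bx : ℕ → (∀ ξ ∈ Ξ, ℕ), bx =
    fun (t ξ : ℕ) (_ : ξ ∈ Ξ) => ⌊(M : ℝ) * Int.fract ((ξ : ℝ) / N * t)⌋₊ := ⟨_, rfl⟩
  have hmap : ∀ t ∈ range N, bx t ∈ Ξ.pi (fun _ => range M) := by
    intro t _
    rw [Finset.mem_pi]
    intro ξ _
    rw [mem_range, hbx]
    show ⌊(M : ℝ) * Int.fract ((ξ : ℝ) / N * t)⌋₊ < M
    have h0 := Int.fract_nonneg ((ξ : ℝ) / N * t)
    have h1 := Int.fract_lt_one ((ξ : ℝ) / N * t)
    rw [Nat.floor_lt (by positivity)]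
    nlinarith
  have hcard : (Ξ.pi (fun _ => range M)).card = M ^ Ξ.card := by
    rw [card_pi, prod_const, card_range]
  have hne : (Ξ.pi (fun _ => range M)).Nonempty := by
    rw [← Finset.card_pos, hcard]
    positivity
  have hMc : (0 : ℝ) < (M : ℝ) ^ Ξ.card := by positivity
  obtain ⟨g, _, hfib⟩ := exists_le_card_fiber_of_nsmul_le_card_of_maps_to (s := range N)
    (t := Ξ.pi (fun _ => range M)) (f := bx) (b := (N : ℝ) / (M : ℝ) ^ Ξ.card) hmap hne (by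
      rw [hcard, nsmul_eq_mul, card_range]
      push_cast
      rw [mul_div_cancel₀ _ hMc.ne'])
  obtain ⟨F, hF⟩ : ∃ F : Finset ℕ, F = (range N).filter (fun x => bx x = g) := ⟨_, rfl⟩
  rw [← hF] at hfib
  have hFpos : 0 < F.card := by
    have : (0 : ℝ) < (F.card : ℝ) := lt_of_lt_of_le (by positivity) hfib
    exact_mod_cast this
  have hFne : F.Nonempty := Finset.card_pos.1 hFpos
  obtain ⟨t₀, ht₀⟩ : ∃ t₀, t₀ = F.min' hFne := ⟨_, rfl⟩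
  have ht₀F : t₀ ∈ F := by rw [ht₀]; exact F.min'_mem hFne
  have ht₀le : ∀ t ∈ F, t₀ ≤ t := fun t ht => by rw [ht₀]; exact F.min'_le t ht
  have hmem : ∀ t ∈ F, t - t₀ ∈ Bh N Ξ ρ := by
    intro t ht
    have hle := ht₀le t ht
    have h1 : t < N ∧ bx t = g := by
      rw [hF, mem_filter, mem_range] at ht
      exact ht
    have h2 : t₀ < N ∧ bx t₀ = g := by
      rw [hF, mem_filter, mem_range] at ht₀F
      exact ht₀F
    unfold Bh
    rw [mem_filter, mem_range]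
    refine ⟨by omega, fun ξ hξ => ?_⟩
    have h3 : bx t ξ hξ = bx t₀ ξ hξ := by rw [h1.2, h2.2]
    rw [hbx] at h3
    have h3' : ⌊(M : ℝ) * Int.fract ((ξ : ℝ) / N * t)⌋₊ = ⌊(M : ℝ) * Int.fract ((ξ : ℝ) / N * t₀)⌋₊ := h3
    have f1 := Int.fract_nonneg ((ξ : ℝ) / N * t)
    have f2 := Int.fract_nonneg ((ξ : ℝ) / N * t₀)
    have g1 := Nat.floor_le (mul_nonneg hMr.le f1)
    have g2 := Nat.floor_le (mul_nonneg hMr.le f2)
    have g3 := Nat.lt_floor_add_one ((M : ℝ) * Int.fract ((ξ : ℝ) / N * t))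
    have g4 := Nat.lt_floor_add_one ((M : ℝ) * Int.fract ((ξ : ℝ) / N * t₀))
    rw [h3'] at g1 g3
    have h4 : |Int.fract ((ξ : ℝ) / N * t) - Int.fract ((ξ : ℝ) / N * t₀)| ≤ 1 / M := by
      have h6 : 1 / (M : ℝ) * M = 1 := one_div_mul_cancel hMr.ne'
      rw [abs_le]
      constructor
      · by_contra hcon
        rw [not_le] at hcon
        have h7 := mul_lt_mul_of_pos_right hcon hMr
        rw [neg_mul, h6] at h7
        linarith
      · by_contra hcon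
        rw [not_le] at hcon
        have h7 := mul_lt_mul_of_pos_right hcon hMr
        rw [h6] at h7
        linarith
    refine (Bohr_e _ (⌊(ξ : ℝ) / N * t⌋ - ⌊(ξ : ℝ) / N * t₀⌋)).trans ?_
    have h5 : (ξ : ℝ) / N * ((t - t₀ : ℕ) : ℝ) - ((⌊(ξ : ℝ) / N * t⌋ - ⌊(ξ : ℝ) / N * t₀⌋ : ℤ) : ℝ) =
        Int.fract ((ξ : ℝ) / N * t) - Int.fract ((ξ : ℝ) / N * t₀) := by
      rw [Nat.cast_sub hle]
      unfold Int.fract
      push_cast
      ring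
    rw [h5]
    calc 7 * |Int.fract ((ξ : ℝ) / N * t) - Int.fract ((ξ : ℝ) / N * t₀)| ≤ 7 * (1 / M) := by gcongr
      _ ≤ ρ := by
        rw [mul_one_div, div_le_iff₀ hMr]
        linarith
  refine ⟨?_, ⟨t₀ - t₀, hmem t₀ ht₀F⟩⟩
  have hle : F.card ≤ (Bh N Ξ ρ).card := by
    refine Finset.card_le_card_of_injOn (fun t => t - t₀) (fun t ht => hmem t ht) ?_
    intro a ha b hb hab
    have ha' := ht₀le a ha
    have hb' := ht₀le b hb
    simp only at hab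
    omega
  have h1 : (N : ℝ) / (M : ℝ) ^ Ξ.card ≤ ((Bh N Ξ ρ).card : ℝ) :=
    hfib.trans (by exact_mod_cast hle)
  rw [div_le_iff₀ hMc] at h1
  linarith

private theorem Bohr_avg (T : Finset ℕ) (X ξ : ℕ) (hTn : T.Nonempty) (c : ℝ)
    (h : ∀ t ∈ T, ‖1 - GT.e ((ξ : ℝ) / (8 * X) * t)‖ ≤ c) : ‖1 - bt T X ξ‖ ≤ c := by
  have hc : (0 : ℝ) < (T.card : ℝ) := by exact_mod_cast Finset.card_pos.2 hTn
  have e : 1 - bt T X ξ = ((T.card : ℝ)⁻¹ : ℝ) * ∑ t ∈ T, (1 - GT.e ((ξ : ℝ) / (8 * X) * t)) := by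
    unfold bt
    rw [sum_sub_distrib, mul_sub, sum_const, nsmul_eq_mul, mul_one]
    congr 1
    push_cast
    rw [inv_mul_cancel₀]
    exact_mod_cast hc.ne'
  rw [e, norm_mul, Complex.norm_real, Real.norm_eq_abs, abs_of_pos (inv_pos.2 hc)]
  calc (T.card : ℝ)⁻¹ * ‖∑ t ∈ T, (1 - GT.e ((ξ : ℝ) / (8 * X) * t))‖
      ≤ (T.card : ℝ)⁻¹ * ∑ t ∈ T, ‖1 - GT.e ((ξ : ℝ) / (8 * X) * t)‖ := by
        gcongr
        exact norm_sum_le _ _
    _ ≤ (T.card : ℝ)⁻¹ * ∑ t ∈ T, c := by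
        gcongr with t ht
        exact h t ht
    _ = c := by
        rw [sum_const, nsmul_eq_mul, ← mul_assoc, inv_mul_cancel₀ hc.ne', one_mul]

theorem bt_close (X : ℕ) (hX : 1 ≤ X) (Ξ : Finset ℕ) (ρ : ℝ) (hρ : 0 ≤ ρ) (T : Finset ℕ)
    (hT : T = Bh (8 * X) Ξ ρ) (hTn : T.Nonempty) :
    (∀ ξ ∈ Ξ, ‖1 - bt T X ξ‖ ≤ ρ) ∧ ∀ ξ, ‖1 - bt T X ξ‖ ≤ 2 := by
  refine ⟨fun ξ hξ => Bohr_avg T X ξ hTn ρ fun t ht => ?_, fun ξ => Bohr_avg T X ξ hTn 2 fun t ht => ?_⟩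
  · rw [hT] at ht
    unfold Bh at ht
    have h1 := (mem_filter.1 ht).2 ξ hξ
    rw [norm_sub_rev]
    push_cast at h1
    exact h1
  · refine (norm_sub_le _ _).trans ?_
    rw [norm_one, GT.norm_e]
    norm_num

end Pool.Agent.Lib.SG
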