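import Pool.Agent.Lib.SG.Defs
import Pool.Agent.Lib.MT.Moment

/-!
# SG-Vs: Vinogradov's sum with divisor weights

PROOF. Cauchy-Schwarz: `(∑ τ(m)^j g(m))² ≤ (∑ τ(m)^(2j) g(m)) (∑ g(m))`, `g(m) = gmin (2X/m) (m α) ≤ 2X/m` (`SW.gmin_le`).
`∑_{m ≤ M} τ(m)^(2j)/m ≤ (log X)^D'` (dyadic blocks and `MT.divisor_moment (2j)`, M ≤ X), and `SW.vino_sum` (with 2X in place of X)
gives `∑ g ≤ C (2X/r + M + r) log (2 r M) ≤ 6 C (X/r + M + r) log X` for r ≤ X (X ≥ 3). The square root of the product is at most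
`(log X)^D √(X (X/r + M + r))` for X ≥ X₀. (If M = 0 trivial.)
-/

set_option autoImplicit false

open Finset

namespace Pool.Agent.Lib.SG

private lemma Vs_card_mul (a b : ℕ) : (a * b).divisors.card ≤ a.divisors.card * b.divisors.card := by
  open Pointwise in
  rw [Nat.divisors_mul]
  exact Finset.card_mul_le

private lemma Vs_conv (x : ℕ) (f : ℕ → ℝ) (hf : ∀ n, 0 ≤ f n) :
    ∑ n ∈ Icc 1 x, ((n.divisors.card : ℕ) : ℝ) * f n ≤ ∑ a ∈ Icc 1 x, ∑ b ∈ Icc 1 x, f (a * b) := by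
  rw [← Finset.sum_product']
  have h1 : ∑ t ∈ (Icc 1 x ×ˢ Icc 1 x).filter (fun t => t.1 * t.2 ≤ x), f (t.1 * t.2) ≤
      ∑ t ∈ Icc 1 x ×ˢ Icc 1 x, f (t.1 * t.2) :=
    Finset.sum_le_sum_of_subset_of_nonneg (filter_subset _ _) (fun t _ _ => hf _)
  refine le_trans (le_of_eq ?_) h1
  rw [← Finset.sum_fiberwise_of_maps_to (t := Icc 1 x) (g := fun t : ℕ × ℕ => t.1 * t.2)]
  · refine Finset.sum_congr rfl fun n hn => ?_
    rw [mem_Icc] at hn
    have h2 : ∀ t ∈ ((Icc 1 x ×ˢ Icc 1 x).filter (fun t => t.1 * t.2 ≤ x)).filter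
        (fun t => t.1 * t.2 = n), f (t.1 * t.2) = f n := by
      intro t ht
      rw [(mem_filter.1 ht).2]
    rw [Finset.sum_congr rfl h2, Finset.sum_const, nsmul_eq_mul]
    congr 2
    have h9 : n.divisors.card = n.divisorsAntidiagonal.card := by
      rw [← Nat.map_div_right_divisors, Finset.card_map]
    rw [h9]
    congr 1
    ext t
    rw [Nat.mem_divisorsAntidiagonal, mem_filter, mem_filter, mem_product, mem_Icc, mem_Icc]
    constructor
    · rintro ⟨h3, h4⟩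
      have h5 : 0 < t.1 := by
        rcases Nat.eq_zero_or_pos t.1 with h | h
        · rw [h, zero_mul] at h3; omega
        · exact h
      have h6 : 0 < t.2 := by
        rcases Nat.eq_zero_or_pos t.2 with h | h
        · rw [h, mul_zero] at h3; omega
        · exact h
      have h7 : t.1 ≤ t.1 * t.2 := Nat.le_mul_of_pos_right _ h6
      have h8 : t.2 ≤ t.1 * t.2 := Nat.le_mul_of_pos_left _ h5
      exact ⟨⟨⟨⟨h5, by omega⟩, ⟨h6, by omega⟩⟩, by omega⟩, h3⟩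
    · rintro ⟨_, h4⟩
      exact ⟨h4, by omega⟩
  · intro t ht
    rw [mem_filter, mem_product, mem_Icc, mem_Icc] at ht
    rw [mem_Icc]
    exact ⟨Nat.mul_pos ht.1.1.1 ht.1.2.1, ht.2⟩

private lemma Vs_S (j x : ℕ) :
    ∑ n ∈ Icc 1 x, ((n.divisors.card : ℕ) : ℝ) ^ j / (n : ℝ) ≤ (1 + Real.log x) ^ (2 ^ j) := by
  induction j with
  | zero =>
    simp only [pow_zero, pow_one]
    have h1 := harmonic_le_one_add_log x
    rw [harmonic_eq_sum_Icc] at h1
    push_cast at h1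
    simpa [one_div] using h1
  | succ j ih =>
    have h1 : ∑ n ∈ Icc 1 x, ((n.divisors.card : ℕ) : ℝ) ^ (j + 1) / (n : ℝ) =
        ∑ n ∈ Icc 1 x, ((n.divisors.card : ℕ) : ℝ) * (((n.divisors.card : ℕ) : ℝ) ^ j / (n : ℝ)) := by
      refine Finset.sum_congr rfl fun n _ => ?_
      rw [pow_succ]; ring
    rw [h1]
    refine (Vs_conv x (fun n => ((n.divisors.card : ℕ) : ℝ) ^ j / (n : ℝ)) (fun n => by positivity)).trans ?_
    have h2 : ∑ a ∈ Icc 1 x, ∑ b ∈ Icc 1 x,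
        (((a * b).divisors.card : ℕ) : ℝ) ^ j / ((a * b : ℕ) : ℝ) ≤
        ∑ a ∈ Icc 1 x, ∑ b ∈ Icc 1 x, (((a.divisors.card : ℕ) : ℝ) ^ j / (a : ℝ)) *
          (((b.divisors.card : ℕ) : ℝ) ^ j / (b : ℝ)) := by
      refine Finset.sum_le_sum fun a _ => Finset.sum_le_sum fun b _ => ?_
      rw [div_mul_div_comm, ← mul_pow]
      push_cast
      have h3 : (((a * b).divisors.card : ℕ) : ℝ) ≤ ((a.divisors.card : ℕ) : ℝ) * ((b.divisors.card : ℕ) : ℝ) := by
        exact_mod_cast Vs_card_mul a b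
      gcongr
    refine h2.trans ?_
    rw [← Finset.sum_mul_sum, pow_succ, pow_mul, sq]
    have h4 : 0 ≤ ∑ n ∈ Icc 1 x, ((n.divisors.card : ℕ) : ℝ) ^ j / (n : ℝ) :=
      Finset.sum_nonneg fun n _ => by positivity
    exact mul_le_mul ih ih h4 (h4.trans ih)

theorem vs (j : ℕ) : ∃ D X₀ : ℕ, ∀ X : ℕ, X₀ ≤ X → ∀ (α : ℝ) (b : ℤ) (r M : ℕ), 1 ≤ r → r ≤ X →
    IsCoprime b (r : ℤ) → |α - b / r| ≤ 1 / (r : ℝ) ^ 2 → M ≤ X →
    ∑ m ∈ Icc 1 M, (m.divisors.card : ℝ) ^ j * SW.gmin (2 * X / m) (m * α) ≤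
      (Real.log X) ^ D * Real.sqrt (X * (X / r + M + r)) := by
  obtain ⟨C, hC, hV⟩ := SW.vino_sum
  set E : ℕ := 2 ^ (2 * j) with hE
  refine ⟨E + 1, ⌈Real.exp (max 2 (12 * C))⌉₊, fun X hX α b r M hr hrX hcop hα hMX => ?_⟩
  have hexp : Real.exp (max 2 (12 * C)) ≤ X := (Nat.le_ceil _).trans (by exact_mod_cast hX)
  have hXpos : (0 : ℝ) < X := (Real.exp_pos _).trans_le hexp
  have hL : max 2 (12 * C) ≤ Real.log X := (Real.le_log_iff_exp_le hXpos).2 hexp
  have hL2 : (2 : ℝ) ≤ Real.log X := (le_max_left _ _).trans hL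
  have hLC : 12 * C ≤ Real.log X := (le_max_right _ _).trans hL
  have hX1 : (1 : ℝ) ≤ X := by
    have : 1 ≤ X := by
      rcases Nat.eq_zero_or_pos X with h | h
      · rw [h] at hXpos; simp at hXpos
      · exact h
    exact_mod_cast this
  have hX2 : (2 : ℝ) ≤ X := by
    have h1 := Real.log_le_sub_one_of_pos hXpos
    linarith
  have hr0 : (0 : ℝ) < r := by exact_mod_cast hr
  have hr1 : (1 : ℝ) ≤ r := by exact_mod_cast hr
  have hrX' : (r : ℝ) ≤ X := by exact_mod_cast hrX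
  have hMX' : (M : ℝ) ≤ X := by exact_mod_cast hMX
  set L : ℝ := Real.log X with hLdef
  set Y : ℝ := X / r + M + r with hY
  have hY0 : 0 ≤ Y := by positivity
  rcases Nat.eq_zero_or_pos M with hM | hM
  · rw [hM, Icc_eq_empty_of_lt (by norm_num : (0 : ℕ) < 1), sum_empty]
    positivity
  have hM1 : (1 : ℝ) ≤ M := by exact_mod_cast hM
  have hg0 : ∀ m ∈ Icc 1 M, 0 ≤ SW.gmin (2 * X / m) (m * α) := fun m _ =>
    SW.gmin_nonneg _ _ (by positivity)
  have hCS := Finset.sum_sq_le_sum_mul_sum_of_sq_eq_mul (Icc 1 M)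
    (r := fun m => (m.divisors.card : ℝ) ^ j * SW.gmin (2 * X / m) (m * α))
    (f := fun m => (m.divisors.card : ℝ) ^ (2 * j) * SW.gmin (2 * X / m) (m * α))
    (g := fun m => SW.gmin (2 * X / m) (m * α))
    (fun m hm => mul_nonneg (by positivity) (hg0 m hm)) hg0
    (fun m _ => by
      rw [mul_comm 2 j, pow_mul]
      ring)
  have hA : ∑ m ∈ Icc 1 M, (m.divisors.card : ℝ) ^ (2 * j) * SW.gmin (2 * X / m) (m * α) ≤
      2 * X * (1 + L) ^ E := by
    have h1 : ∑ m ∈ Icc 1 M, (m.divisors.card : ℝ) ^ (2 * j) * SW.gmin (2 * X / m) (m * α) ≤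
        ∑ m ∈ Icc 1 M, 2 * X * ((m.divisors.card : ℝ) ^ (2 * j) / (m : ℝ)) := by
      refine sum_le_sum fun m _ => ?_
      have h2 : SW.gmin (2 * X / m) (m * α) ≤ 2 * X / m := SW.gmin_le _ _ (by positivity)
      calc (m.divisors.card : ℝ) ^ (2 * j) * SW.gmin (2 * X / m) (m * α)
          ≤ (m.divisors.card : ℝ) ^ (2 * j) * (2 * X / m) := by gcongr
        _ = _ := by ring
    refine h1.trans ?_
    rw [← mul_sum]
    apply mul_le_mul_of_nonneg_left _ (by positivity)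
    refine (Vs_S (2 * j) M).trans ?_
    apply pow_le_pow_left₀
    · have := Real.log_nonneg hM1
      linarith
    · have := Real.log_le_log (by linarith : (0 : ℝ) < M) hMX'
      linarith
  have hB : ∑ m ∈ Icc 1 M, SW.gmin (2 * X / m) (m * α) ≤ C * (2 * Y) * (3 * L) := by
    have h1 := hV α (2 * X) b r M hr hcop hα hM (by linarith)
    refine h1.trans ?_
    have h2 : Real.log (2 * r * M) ≤ 3 * L := by
      have h3 : 2 * (r : ℝ) * M ≤ (X : ℝ) ^ 3 := by
        calc 2 * (r : ℝ) * M ≤ X * X * X := by gcongr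
          _ = (X : ℝ) ^ 3 := by ring
      have h4 := Real.log_le_log (by positivity) h3
      rw [Real.log_pow] at h4
      exact_mod_cast h4
    have h5 : 2 * (X : ℝ) / r + M + r ≤ 2 * Y := by
      have : 2 * (X : ℝ) / r = 2 * (X / r) := by ring
      rw [this, hY]
      linarith
    have h6 : 0 ≤ Real.log (2 * r * M) := Real.log_nonneg (by nlinarith)
    gcongr
  have hS0 : 0 ≤ ∑ m ∈ Icc 1 M, SW.gmin (2 * X / m) (m * α) := sum_nonneg hg0
  have hprod := hCS.trans (mul_le_mul hA hB hS0 (by positivity))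
  have hfin : 2 * X * (1 + L) ^ E * (C * (2 * Y) * (3 * L)) ≤ (L ^ (E + 1) * Real.sqrt (X * Y)) ^ 2 := by
    rw [mul_pow, Real.sq_sqrt (by positivity)]
    have h1 : (1 + L) ^ E ≤ (L ^ 2) ^ E := by
      apply pow_le_pow_left₀ (by linarith)
      nlinarith
    calc 2 * X * (1 + L) ^ E * (C * (2 * Y) * (3 * L)) = (12 * C) * (1 + L) ^ E * L * (X * Y) := by ring
      _ ≤ L * (L ^ 2) ^ E * L * (X * Y) := by gcongr
      _ = (L ^ (E + 1)) ^ 2 * (X * Y) := by
          rw [← pow_mul, ← pow_mul]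
          ring
  have hfinal := abs_le_of_sq_le_sq (hprod.trans hfin) (by positivity)
  exact (le_abs_self _).trans hfinal

end Pool.Agent.Lib.SG
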