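import Pool.Agent.Lib.SG.Ti
import Pool.Agent.Lib.SG.Vs
import Pool.Agent.Lib.SW.Vaughan
import Pool.Agent.Lib.BV.Defs

/-!
# SG-MinorLA: from tii to the primes in classes with a twist on the minor arcs

PROOF. Write `f q n = 1[A < n ≤ B, n ≡ c q [MOD q]] e(α n)`, A = X + a, B = 2X + a ≤ 3X. `SW.vaughan U V (3X)` with `U = V = ⌊X^(1/5)⌋` (any such
choice; V < A), applied to f q: `∑ Λ(n) f q n` = (type I with log) - (type I with cUV) + (type II).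
Type I: `ti_log` for d = m ≤ U, `ti` for d = m ≤ U V ≤ X^(2/5) with `|cUV| ≤ log m` (`SW.abs_cUV_le`), d q ≤ X (Q ≤ X^(1/50)); the sum over q ≤ Q is at most
`3 log(3X) ∑_{q ≤ Q} ∑_{m ≤ UV} gmin (2X/(m q)) (m q α) ≤ 3 log(3X) ∑_{s ≤ Q U V} τ(s) gmin (2X/s) (s α)`: `vs 1`, `Q U V ≤ X^(1/2)`.
(The sums over `Icc 1 (3X/m)` with f q(m k) are the sums of `ti`: terms with m k > B vanish.)
Type II: l from V to 3X/U (for l > 3X/U the sum over j is empty) in O(log X) dyadic blocks (L, 2L], L = 2^i V (`SW.dyadic` in MinorQ), u_l = Λ(l) ≤ log l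
cut off at 3X/U, v_j = bU U j for j > U, else 0 (`SW.abs_bU_le`); L ≤ 3X/U: `tii` gives for each block at most
`(log X)^D √(X · 3X/U + X √(X (X/r + 3 Q² X/V + r)))`; note `Q² ≤ X^(1/25) ≤ V ≤ L`. With (log X)^G ≤ r ≤ X/(log X)^G, U, V about X^(1/5), Q² ≤ X^(1/25) this is
`≤ (log X)^D X √( X^(-1/6) + √(2 (log X)^(-G) + ..)) ≤ X (log X)^(D + 1 - G/4)`. Choose G = 4 (A' + D + 6).
From Λ to th: `0 ≤ ∑_{n ≤ 3X} (Λ - th)(n) ≤ 3 √(3X) log(3X)` (prime powers; see how MT or BV compares ψ and θ, `Chebyshev`), for every q; times Q ≤ X^(1/50).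
-/

set_option autoImplicit false

open Finset

namespace Pool.Agent.Lib.SG

open scoped ArithmeticFunction.Moebius ArithmeticFunction.vonMangoldt

private theorem minorL_ev (C : ℝ) (E : ℕ) : ∃ X₀ : ℕ, ∀ X : ℕ, X₀ ≤ X →
    C * (Real.log X) ^ E ≤ (X : ℝ) ^ (1 / 50 : ℝ) := by
  have h := isLittleO_log_rpow_rpow_atTop (E : ℝ) (show (0 : ℝ) < 1 / 50 by norm_num)
  have h1 := h.bound (show (0 : ℝ) < 1 / (|C| + 1) by positivity)
  have h2 := (tendsto_natCast_atTop_atTop (R := ℝ)).eventually h1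
  obtain ⟨X₀, hX₀⟩ := Filter.eventually_atTop.1 h2
  refine ⟨max X₀ 1, fun X hX => ?_⟩
  have h3 := hX₀ X (le_trans (le_max_left _ _) hX)
  have hX1 : (1 : ℝ) ≤ X := by exact_mod_cast (le_trans (le_max_right _ _) hX)
  have h4 : 0 ≤ Real.log X := Real.log_nonneg hX1
  rw [Real.rpow_natCast, Real.norm_of_nonneg (by positivity), Real.norm_of_nonneg (by positivity),
    div_mul_eq_mul_div, one_mul, le_div_iff₀ (by positivity)] at h3
  have h5 : C * Real.log X ^ E ≤ Real.log X ^ E * (|C| + 1) := by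
    have h7 : C ≤ |C| + 1 := by linarith [le_abs_self C]
    have h6 : 0 ≤ Real.log X ^ E := by positivity
    nlinarith
  linarith

/-- the twisted indicator -/
private noncomputable def mlF (A B q c : ℕ) (α : ℝ) (n : ℕ) : ℂ :=
  if A < n ∧ n ≤ B ∧ n ≡ c [MOD q] then GT.e (α * (n : ℝ)) else 0

private theorem mlF_zero {A B q c : ℕ} {α : ℝ} {n : ℕ} (h : B < n) : mlF A B q c α n = 0 := by
  unfold mlF
  rw [if_neg]
  rintro ⟨-, h1, -⟩
  omega

private theorem mlF_norm_le (A B q c : ℕ) (α : ℝ) (n : ℕ) : ‖mlF A B q c α n‖ ≤ 1 := by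
  unfold mlF
  split_ifs
  · exact (SW.norm_e' _).le
  · simp

private theorem ml_main (g : ℕ → ℝ) (V N A B q c : ℕ) (α : ℝ) (hV : V ≤ A) (hN : B ≤ N) :
    ∑ n ∈ (Ioc A B).filter (fun n => n ≡ c [MOD q]), (g n : ℂ) * GT.e (α * n) =
      ∑ n ∈ Ioc V N, (g n : ℂ) * mlF A B q c α n := by
  have h1 : ∀ n ∈ Ioc V N, (g n : ℂ) * mlF A B q c α n =
      if A < n ∧ n ≤ B ∧ n ≡ c [MOD q] then (g n : ℂ) * GT.e (α * n) else 0 := by
    intro n _
    unfold mlF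
    rw [mul_ite, mul_zero]
  rw [sum_congr rfl h1, ← sum_filter]
  refine sum_congr ?_ fun _ _ => rfl
  ext n
  simp only [mem_filter, mem_Ioc]
  constructor
  · rintro ⟨⟨h2, h3⟩, h4⟩
    exact ⟨⟨by omega, by omega⟩, h2, h3, h4⟩
  · rintro ⟨-, h2, h3, h4⟩
    exact ⟨⟨h2, h3⟩, h4⟩

private theorem ml_inner (g : ℕ → ℂ) (N A B q c m : ℕ) (α : ℝ) (hm : 1 ≤ m) (hN : B ≤ N) :
    ∑ k ∈ Icc 1 (N / m), g k * mlF A B q c α (m * k) =
      ∑ k ∈ (Icc 1 N).filter (fun k => A < m * k ∧ m * k ≤ B ∧ m * k ≡ c [MOD q]),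
        g k * GT.e (α * ((m * k : ℕ) : ℝ)) := by
  rw [sum_filter]
  have h1 : ∀ k ∈ Icc 1 N, (if A < m * k ∧ m * k ≤ B ∧ m * k ≡ c [MOD q] then
      g k * GT.e (α * ((m * k : ℕ) : ℝ)) else 0) = g k * mlF A B q c α (m * k) := by
    intro k _
    unfold mlF
    rw [mul_ite, mul_zero]
  rw [sum_congr rfl h1]
  refine sum_subset (Icc_subset_Icc_right (Nat.div_le_self _ _)) ?_
  intro k hk hk'
  rw [mem_Icc] at hk hk'
  have h2 : N / m < k := by omega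
  have h3 : N < m * k := by
    rw [Nat.div_lt_iff_lt_mul (by omega), mul_comm] at h2
    exact h2
  rw [mlF_zero (by omega), mul_zero]

/-- grouping by the product -/
private theorem ml_group (G : ℕ → ℝ) (hG : ∀ s, 0 ≤ G s) (Q M : ℕ) :
    ∑ q ∈ Icc 1 Q, ∑ m ∈ Icc 1 M, G (m * q) ≤
      ∑ s ∈ Icc 1 (Q * M), (s.divisors.card : ℝ) * G s := by
  have h1 : ∀ q ∈ Icc 1 Q, ∑ m ∈ Icc 1 M, G (m * q) ≤
      ∑ s ∈ Icc 1 (Q * M), if q ∣ s then G s else 0 := by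
    intro q hq
    rw [mem_Icc] at hq
    rw [← sum_filter]
    have hinj : Set.InjOn (fun m => m * q) (Icc 1 M : Finset ℕ) := by
      intro a _ b _ hab
      exact Nat.eq_of_mul_eq_mul_right (by omega) hab
    rw [← sum_image (f := G) (g := fun m => m * q) hinj]
    refine sum_le_sum_of_subset_of_nonneg ?_ fun s _ _ => hG s
    intro s hs
    obtain ⟨m, hm, rfl⟩ := mem_image.1 hs
    rw [mem_Icc] at hm
    rw [mem_filter, mem_Icc]
    refine ⟨⟨Nat.mul_pos hm.1 hq.1, ?_⟩, Dvd.intro_left m rfl⟩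
    show m * q ≤ Q * M
    rw [mul_comm Q M]
    exact Nat.mul_le_mul hm.2 hq.2
  refine (sum_le_sum h1).trans ?_
  rw [sum_comm]
  refine sum_le_sum fun s hs => ?_
  rw [mem_Icc] at hs
  rw [← sum_filter, sum_const, nsmul_eq_mul]
  refine mul_le_mul_of_nonneg_right ?_ (hG s)
  refine Nat.cast_le.2 (card_le_card ?_)
  intro q hq
  rw [mem_filter] at hq
  exact Nat.mem_divisors.2 ⟨hq.2, by omega⟩

private theorem ml_abs_mu_le (n : ℕ) : ‖((μ n : ℝ) : ℂ)‖ ≤ 1 := by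
  rw [Complex.norm_real, Real.norm_eq_abs]
  exact SW.abs_mu_le n

/-- the type I part -/
private theorem ml_type1 (X a Q U V : ℕ) (α : ℝ) (c : ℕ → ℕ) (ha : a ≤ X) (hX : 1 ≤ X)
    (hV : 1 ≤ V) (hQ : Q * (U * V) ≤ X) (hc : ∀ q ∈ Icc 1 Q, (c q).Coprime q) :
    ∑ q ∈ Icc 1 Q, (‖∑ m ∈ Icc 1 U, ((μ m : ℝ) : ℂ) * ∑ k ∈ Icc 1 (3 * X / m),
        (Real.log k : ℂ) * mlF (X + a) (2 * X + a) q (c q) α (m * k)‖ +
      ‖∑ m ∈ Icc 1 (U * V), (SW.cUV U V m : ℂ) * ∑ k ∈ Icc 1 (3 * X / m),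
        mlF (X + a) (2 * X + a) q (c q) α (m * k)‖) ≤
      3 * Real.log (3 * X) * ∑ s ∈ Icc 1 (Q * (U * V)), (s.divisors.card : ℝ) *
        SW.gmin (2 * X / (s : ℝ)) ((s : ℝ) * α) := by
  have hX' : (1 : ℝ) ≤ X := by exact_mod_cast hX
  have hl : 0 ≤ Real.log (3 * X) := Real.log_nonneg (by linarith)
  have hG : ∀ s : ℕ, 0 ≤ SW.gmin (2 * X / (s : ℝ)) ((s : ℝ) * α) := fun s =>
    SW.gmin_nonneg _ _ (by positivity)
  have h1 := ml_group (fun s => SW.gmin (2 * X / (s : ℝ)) ((s : ℝ) * α)) hG Q (U * V)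
  refine le_trans ?_ (mul_le_mul_of_nonneg_left h1 (by positivity))
  rw [mul_sum]
  refine sum_le_sum fun q hq => ?_
  have hq' := mem_Icc.1 hq
  have hmq : ∀ m ∈ Icc 1 (U * V), m * q ≤ X := by
    intro m hm
    rw [mem_Icc] at hm
    calc m * q ≤ (U * V) * Q := Nat.mul_le_mul hm.2 hq'.2
      _ = Q * (U * V) := mul_comm _ _
      _ ≤ X := hQ
  have hsub : Icc 1 U ⊆ Icc 1 (U * V) := Icc_subset_Icc_right (Nat.le_mul_of_pos_right _ (by omega))
  have h2 : ‖∑ m ∈ Icc 1 U, ((μ m : ℝ) : ℂ) * ∑ k ∈ Icc 1 (3 * X / m),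
      (Real.log k : ℂ) * mlF (X + a) (2 * X + a) q (c q) α (m * k)‖ ≤
      ∑ m ∈ Icc 1 (U * V), 2 * Real.log (3 * X) *
        SW.gmin (2 * X / ((m * q : ℕ) : ℝ)) (((m * q : ℕ) : ℝ) * α) := by
    refine (norm_sum_le _ _).trans ((sum_le_sum fun m hm => ?_).trans
      (sum_le_sum_of_subset_of_nonneg hsub fun m _ _ => ?_))
    · have hm' := mem_Icc.1 hm
      rw [norm_mul, ml_inner (fun k => (Real.log k : ℂ)) (3 * X) _ _ _ _ m α hm'.1 (by omega)]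
      have h3 := ti_log X (X + a) (2 * X + a) m q (c q) α hm'.1 hq'.1 (hmq m (hsub hm))
        (by omega) (by omega) (by omega) (hc q hq)
      calc _ ≤ 1 * _ := mul_le_mul (ml_abs_mu_le m) h3 (norm_nonneg _) zero_le_one
        _ = _ := one_mul _
    · exact mul_nonneg (by positivity) (hG _)
  have h3 : ‖∑ m ∈ Icc 1 (U * V), (SW.cUV U V m : ℂ) * ∑ k ∈ Icc 1 (3 * X / m),
        mlF (X + a) (2 * X + a) q (c q) α (m * k)‖ ≤
      ∑ m ∈ Icc 1 (U * V), Real.log (3 * X) *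
        SW.gmin (2 * X / ((m * q : ℕ) : ℝ)) (((m * q : ℕ) : ℝ) * α) := by
    refine (norm_sum_le _ _).trans (sum_le_sum fun m hm => ?_)
    have hm' := mem_Icc.1 hm
    have h4 := ti X (X + a) (2 * X + a) m q (c q) α hm'.1 hq'.1 (hmq m hm)
        (by omega) (by omega) (by omega) (hc q hq)
    have h5 := ml_inner (fun _ => (1 : ℂ)) (3 * X) (X + a) (2 * X + a) q (c q) m α hm'.1 (by omega)
    simp only [one_mul] at h5
    rw [norm_mul, h5]
    refine mul_le_mul ?_ h4 (norm_nonneg _) hl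
    rw [Complex.norm_real, Real.norm_eq_abs]
    refine (SW.abs_cUV_le U V m hm'.1).trans (Real.log_le_log (by exact_mod_cast hm'.1) ?_)
    have h6 : m ≤ X := le_trans (Nat.le_mul_of_pos_right m hq'.1) (hmq m hm)
    have h7 : (m : ℝ) ≤ X := by exact_mod_cast h6
    linarith
  refine (add_le_add h2 h3).trans (le_of_eq ?_)
  rw [← sum_add_distrib, mul_sum]
  refine sum_congr rfl fun m _ => ?_
  ring

/-- a block of the type II sum -/
private theorem ml_block (N A B U V L q c : ℕ) (α : ℝ) (hL : 1 ≤ L) (hN : B ≤ N) :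
    ∑ l ∈ Ioc L (2 * L), ((Λ l : ℝ) : ℂ) * ∑ j ∈ Ioc U (N / l), (SW.bU U j : ℂ) *
      mlF A B q c α (l * j) =
    ∑ l ∈ Ioc L (2 * L), ∑ j ∈ (Icc 1 (N / L)).filter
        (fun j => A < l * j ∧ l * j ≤ B ∧ l * j ≡ c [MOD q]),
      (((fun l : ℕ => if l ≤ N then Λ l else 0) l : ℝ) : ℂ) *
        (((fun j : ℕ => if U < j then SW.bU U j else 0) j : ℝ) : ℂ) *
        GT.e (α * ((l * j : ℕ) : ℝ)) := by
  refine sum_congr rfl fun l hl => ?_
  rw [mem_Ioc] at hl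
  rw [sum_filter]
  have h1 : ∀ j ∈ Icc 1 (N / L), (if A < l * j ∧ l * j ≤ B ∧ l * j ≡ c [MOD q] then
      (((if l ≤ N then Λ l else 0 : ℝ)) : ℂ) * ((if U < j then SW.bU U j else 0 : ℝ) : ℂ) *
        GT.e (α * ((l * j : ℕ) : ℝ)) else 0) =
      (((if l ≤ N then Λ l else 0 : ℝ)) : ℂ) * ((if U < j then SW.bU U j else 0 : ℝ) : ℂ) *
        mlF A B q c α (l * j) := by
    intro j _
    unfold mlF
    rw [mul_ite, mul_zero]
  rw [sum_congr rfl h1]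
  by_cases hlN : l ≤ N
  · rw [if_pos hlN, mul_sum]
    have hsub : Ioc U (N / l) ⊆ Icc 1 (N / L) := by
      intro j hj
      rw [mem_Ioc] at hj
      rw [mem_Icc]
      exact ⟨by omega, hj.2.trans (Nat.div_le_div_left (by omega) (by omega))⟩
    rw [← sum_subset hsub]
    · refine sum_congr rfl fun j hj => ?_
      rw [mem_Ioc] at hj
      rw [if_pos hj.1, mul_assoc]
    · intro j hj hj'
      rw [mem_Icc] at hj
      rw [mem_Ioc] at hj'
      by_cases hU : U < j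
      · have h2 : N / l < j := by omega
        have h3 : N < l * j := by
          rw [Nat.div_lt_iff_lt_mul (by omega), mul_comm] at h2
          exact h2
        rw [mlF_zero (by omega), mul_zero]
      · rw [if_neg hU]
        simp
  · rw [if_neg hlN, Nat.div_eq_of_lt (by omega), Ioc_eq_empty_of_le (Nat.zero_le _)]
    simp

private theorem ml_block_zero (N A B U L q c : ℕ) (α : ℝ) (hU : 1 ≤ U) (hL : N / U < L) :
    ∑ l ∈ Ioc L (2 * L), ((Λ l : ℝ) : ℂ) * ∑ j ∈ Ioc U (N / l), (SW.bU U j : ℂ) *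
      mlF A B q c α (l * j) = 0 := by
  refine sum_eq_zero fun l hl => ?_
  rw [mem_Ioc] at hl
  have h1 : N < L * U := (Nat.div_lt_iff_lt_mul (by omega)).1 hL
  have h2 : N / l ≤ U := by
    refine Nat.le_of_lt ((Nat.div_lt_iff_lt_mul (by omega)).2 ?_)
    calc N < L * U := h1
      _ ≤ U * l := by
        rw [mul_comm]
        exact Nat.mul_le_mul_left _ hl.1.le
  rw [Ioc_eq_empty_of_le h2, sum_empty, mul_zero]

private theorem ml_dyadic (N A B U V q c : ℕ) (α : ℝ) (hV : 1 ≤ V) :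
    ∑ l ∈ Ioc V N, ((Λ l : ℝ) : ℂ) * ∑ j ∈ Ioc U (N / l), (SW.bU U j : ℂ) *
      mlF A B q c α (l * j) =
    ∑ i ∈ range (Nat.log 2 N + 1), ∑ l ∈ Ioc (2 ^ i * V) (2 * (2 ^ i * V)), ((Λ l : ℝ) : ℂ) *
      ∑ j ∈ Ioc U (N / l), (SW.bU U j : ℂ) * mlF A B q c α (l * j) := by
  rw [← SW.dyadic (fun l => ((Λ l : ℝ) : ℂ) * ∑ j ∈ Ioc U (N / l), (SW.bU U j : ℂ) *
      mlF A B q c α (l * j)) V]
  have h1 : N < 2 ^ (Nat.log 2 N + 1) := Nat.lt_pow_succ_log_self (by norm_num) N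
  have h2 : N ≤ 2 ^ (Nat.log 2 N + 1) * V :=
    le_trans h1.le (Nat.le_mul_of_pos_right _ (by omega))
  refine sum_subset (Ioc_subset_Ioc_right h2) ?_
  intro l hl hl'
  rw [mem_Ioc] at hl hl'
  have h5 : N / l = 0 := Nat.div_eq_of_lt (by omega)
  rw [h5, Ioc_eq_empty_of_le (Nat.zero_le _), sum_empty, mul_zero]

/-- from `Λ` to `th` -/
private theorem ml_theta (N A B V q c : ℕ) (α : ℝ) :
    ‖∑ n ∈ Ioc V N, (BV.th n : ℂ) * mlF A B q c α n -
      ∑ n ∈ Ioc V N, ((Λ n : ℝ) : ℂ) * mlF A B q c α n‖ ≤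
      ∑ n ∈ Icc 1 N, ((Λ n : ℝ) - BV.th n) := by
  rw [← sum_sub_distrib]
  refine (norm_sum_le _ _).trans ?_
  have h0 : ∀ n : ℕ, 0 ≤ (Λ n : ℝ) - BV.th n := fun n => sub_nonneg.2 (BV.th_le_vonMangoldt n)
  refine (sum_le_sum fun n _ => ?_).trans (sum_le_sum_of_subset_of_nonneg
    (s := Ioc V N) (t := Icc 1 N) ?_ fun n _ _ => h0 n)
  · rw [← sub_mul, norm_mul]
    have h1 : ‖(BV.th n : ℂ) - ((Λ n : ℝ) : ℂ)‖ = (Λ n : ℝ) - BV.th n := by
      rw [← Complex.ofReal_sub, Complex.norm_real, Real.norm_eq_abs, abs_sub_comm,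
        abs_of_nonneg (h0 n)]
    rw [h1]
    calc _ ≤ ((Λ n : ℝ) - BV.th n) * 1 :=
          mul_le_mul_of_nonneg_left (mlF_norm_le _ _ _ _ _ _) (h0 n)
      _ = _ := mul_one _
  · intro n hn
    rw [mem_Ioc] at hn
    rw [mem_Icc]
    omega

private theorem ml_diff (N : ℕ) (hN : 1 ≤ N) :
    ∑ n ∈ Icc 1 N, ((Λ n : ℝ) - BV.th n) ≤ 2 * √N * Real.log N := by
  have hI : Icc 1 N = Ioc 0 N := by
    ext n
    rw [mem_Icc, mem_Ioc]
    omega
  have h1 : ∑ n ∈ Icc 1 N, (Λ n : ℝ) = Chebyshev.psi (N : ℝ) := by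
    rw [Chebyshev.psi, Nat.floor_natCast, hI]
  have h2 : ∑ n ∈ Icc 1 N, BV.th n = Chebyshev.theta (N : ℝ) := by
    rw [Chebyshev.theta, Nat.floor_natCast, hI, sum_filter]
    rfl
  rw [sum_sub_distrib, h1, h2]
  exact Chebyshev.psi_sub_theta_le (by exact_mod_cast hN)

/-- the complete decomposition -/
private theorem ml_split (X a Q U V : ℕ) (α : ℝ) (c : ℕ → ℕ) (ha : a ≤ X) (hX : 1 ≤ X)
    (hU : 1 ≤ U) (hV : 1 ≤ V) (hVX : V ≤ X) (hQ : Q * (U * V) ≤ X)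
    (hc : ∀ q ∈ Icc 1 Q, (c q).Coprime q) (T : ℝ) (hT0 : 0 ≤ T)
    (hT : ∀ L : ℕ, V ≤ L → L * U ≤ 3 * X → ∑ q ∈ Icc 1 Q, ‖∑ l ∈ Ioc L (2 * L),
      ∑ j ∈ (Icc 1 (3 * X / L)).filter
        (fun j => X + a < l * j ∧ l * j ≤ 2 * X + a ∧ l * j ≡ c q [MOD q]),
      (((fun l : ℕ => if l ≤ 3 * X then Λ l else 0) l : ℝ) : ℂ) *
        (((fun j : ℕ => if U < j then SW.bU U j else 0) j : ℝ) : ℂ) *
        GT.e (α * ((l * j : ℕ) : ℝ))‖ ≤ T) :
    ∑ q ∈ Icc 1 Q, ‖∑ n ∈ (Ioc (X + a) (2 * X + a)).filter (fun n => n ≡ c q [MOD q]),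
      (BV.th n : ℂ) * GT.e (α * n)‖ ≤
      Q * (2 * √((3 * X : ℕ) : ℝ) * Real.log ((3 * X : ℕ) : ℝ)) +
      3 * Real.log (3 * X) * (∑ s ∈ Icc 1 (Q * (U * V)), (s.divisors.card : ℝ) *
        SW.gmin (2 * X / (s : ℝ)) ((s : ℝ) * α)) +
      ((Nat.log 2 (3 * X) + 1 : ℕ) : ℝ) * T := by
  have h1 := ml_type1 X a Q U V α c ha hX hV hQ hc
  have h2 : ∑ q ∈ Icc 1 Q, ‖∑ l ∈ Ioc V (3 * X), ((Λ l : ℝ) : ℂ) *
      ∑ j ∈ Ioc U (3 * X / l), (SW.bU U j : ℂ) *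
        mlF (X + a) (2 * X + a) q (c q) α (l * j)‖ ≤ ((Nat.log 2 (3 * X) + 1 : ℕ) : ℝ) * T := by
    have h3 : ∀ q ∈ Icc 1 Q, ‖∑ l ∈ Ioc V (3 * X), ((Λ l : ℝ) : ℂ) *
        ∑ j ∈ Ioc U (3 * X / l), (SW.bU U j : ℂ) *
          mlF (X + a) (2 * X + a) q (c q) α (l * j)‖ ≤
        ∑ i ∈ range (Nat.log 2 (3 * X) + 1), ‖∑ l ∈ Ioc (2 ^ i * V) (2 * (2 ^ i * V)),
          ((Λ l : ℝ) : ℂ) * ∑ j ∈ Ioc U (3 * X / l), (SW.bU U j : ℂ) *
            mlF (X + a) (2 * X + a) q (c q) α (l * j)‖ := by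
      intro q _
      rw [ml_dyadic (3 * X) _ _ _ _ _ _ _ hV]
      exact norm_sum_le _ _
    refine (sum_le_sum h3).trans ?_
    rw [sum_comm]
    have h4 : ∀ i ∈ range (Nat.log 2 (3 * X) + 1), ∑ q ∈ Icc 1 Q,
        ‖∑ l ∈ Ioc (2 ^ i * V) (2 * (2 ^ i * V)),
          ((Λ l : ℝ) : ℂ) * ∑ j ∈ Ioc U (3 * X / l), (SW.bU U j : ℂ) *
            mlF (X + a) (2 * X + a) q (c q) α (l * j)‖ ≤ T := by
      intro i _
      have hL : V ≤ 2 ^ i * V := Nat.le_mul_of_pos_left V (by positivity)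
      by_cases hLU : 2 ^ i * V * U ≤ 3 * X
      · refine le_trans (le_of_eq ?_) (hT (2 ^ i * V) hL hLU)
        refine sum_congr rfl fun q _ => ?_
        rw [ml_block (3 * X) _ _ U V (2 ^ i * V) _ _ α (by omega) (by omega)]
      · refine le_trans (le_of_eq ?_) hT0
        refine sum_eq_zero fun q _ => ?_
        rw [ml_block_zero (3 * X) _ _ U (2 ^ i * V) _ _ α hU, norm_zero]
        exact (Nat.div_lt_iff_lt_mul (by omega)).2 (by omega)
    refine (sum_le_sum h4).trans (le_of_eq ?_)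
    rw [sum_const, card_range, nsmul_eq_mul]
  have h5 : ∀ q ∈ Icc 1 Q, ‖∑ n ∈ (Ioc (X + a) (2 * X + a)).filter
      (fun n => n ≡ c q [MOD q]), (BV.th n : ℂ) * GT.e (α * n)‖ ≤
      2 * √((3 * X : ℕ) : ℝ) * Real.log ((3 * X : ℕ) : ℝ) +
      (‖∑ m ∈ Icc 1 U, ((μ m : ℝ) : ℂ) * ∑ k ∈ Icc 1 (3 * X / m),
        (Real.log k : ℂ) * mlF (X + a) (2 * X + a) q (c q) α (m * k)‖ +
      ‖∑ m ∈ Icc 1 (U * V), (SW.cUV U V m : ℂ) * ∑ k ∈ Icc 1 (3 * X / m),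
        mlF (X + a) (2 * X + a) q (c q) α (m * k)‖) +
      ‖∑ l ∈ Ioc V (3 * X), ((Λ l : ℝ) : ℂ) * ∑ j ∈ Ioc U (3 * X / l), (SW.bU U j : ℂ) *
        mlF (X + a) (2 * X + a) q (c q) α (l * j)‖ := by
    intro q _
    rw [ml_main BV.th V (3 * X) (X + a) (2 * X + a) q (c q) α (by omega) (by omega)]
    have h6 := (ml_theta (3 * X) (X + a) (2 * X + a) V q (c q) α).trans
      (ml_diff (3 * X) (by omega))
    have h7 := SW.vaughan U V (3 * X) (mlF (X + a) (2 * X + a) q (c q) α)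
    rw [h7] at h6
    have h8 := norm_add_le
      (∑ n ∈ Ioc V (3 * X), (BV.th n : ℂ) * mlF (X + a) (2 * X + a) q (c q) α n -
        (∑ m ∈ Icc 1 U, ((μ m : ℝ) : ℂ) * ∑ k ∈ Icc 1 (3 * X / m),
          (Real.log k : ℂ) * mlF (X + a) (2 * X + a) q (c q) α (m * k) -
        ∑ m ∈ Icc 1 (U * V), (SW.cUV U V m : ℂ) * ∑ k ∈ Icc 1 (3 * X / m),
          mlF (X + a) (2 * X + a) q (c q) α (m * k) +
        ∑ l ∈ Ioc V (3 * X), ((Λ l : ℝ) : ℂ) * ∑ j ∈ Ioc U (3 * X / l), (SW.bU U j : ℂ) *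
          mlF (X + a) (2 * X + a) q (c q) α (l * j)))
      (∑ m ∈ Icc 1 U, ((μ m : ℝ) : ℂ) * ∑ k ∈ Icc 1 (3 * X / m),
          (Real.log k : ℂ) * mlF (X + a) (2 * X + a) q (c q) α (m * k) -
        ∑ m ∈ Icc 1 (U * V), (SW.cUV U V m : ℂ) * ∑ k ∈ Icc 1 (3 * X / m),
          mlF (X + a) (2 * X + a) q (c q) α (m * k) +
        ∑ l ∈ Ioc V (3 * X), ((Λ l : ℝ) : ℂ) * ∑ j ∈ Ioc U (3 * X / l), (SW.bU U j : ℂ) *
          mlF (X + a) (2 * X + a) q (c q) α (l * j))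
    rw [sub_add_cancel] at h8
    refine h8.trans ?_
    have h9 := (norm_add_le (∑ m ∈ Icc 1 U, ((μ m : ℝ) : ℂ) * ∑ k ∈ Icc 1 (3 * X / m),
          (Real.log k : ℂ) * mlF (X + a) (2 * X + a) q (c q) α (m * k) -
        ∑ m ∈ Icc 1 (U * V), (SW.cUV U V m : ℂ) * ∑ k ∈ Icc 1 (3 * X / m),
          mlF (X + a) (2 * X + a) q (c q) α (m * k))
        (∑ l ∈ Ioc V (3 * X), ((Λ l : ℝ) : ℂ) * ∑ j ∈ Ioc U (3 * X / l), (SW.bU U j : ℂ) *
          mlF (X + a) (2 * X + a) q (c q) α (l * j))).trans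
      (add_le_add (norm_sub_le _ _) le_rfl)
    linarith
  refine (sum_le_sum h5).trans ?_
  rw [sum_add_distrib, sum_add_distrib, sum_const, Nat.card_Icc, Nat.add_sub_cancel,
    nsmul_eq_mul]
  linarith

theorem minorL_of (A : ℕ)
    (htii : ∃ D X₀ : ℕ, ∀ X : ℕ, X₀ ≤ X → ∀ (L Q A B : ℕ) (α : ℝ) (b : ℤ) (r : ℕ) (u v : ℕ → ℝ)
    (c : ℕ → ℕ), 1 ≤ L → L ≤ 3 * X → Q ^ 2 ≤ L → B ≤ 3 * X → 1 ≤ r → r ≤ X → IsCoprime b (r : ℤ) →
    |α - b / r| ≤ 1 / (r : ℝ) ^ 2 → (∀ l, |u l| ≤ Real.log (3 * X)) →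
    (∀ j, |v j| ≤ (j.divisors.card : ℝ)) → (∀ q ∈ Icc 1 Q, (c q).Coprime q) →
    ∑ q ∈ Icc 1 Q, ‖∑ l ∈ Ioc L (2 * L), ∑ j ∈ (Icc 1 (3 * X / L)).filter
        (fun j => A < l * j ∧ l * j ≤ B ∧ l * j ≡ c q [MOD q]),
        (u l : ℂ) * (v j : ℂ) * GT.e (α * ((l * j : ℕ) : ℝ))‖ ≤
      (Real.log X) ^ D * Real.sqrt (X * L + X * Real.sqrt (X * (X / r + Q ^ 2 * X / L + r)))) :
    ∃ G X₀ : ℕ, ∀ X : ℕ, X₀ ≤ X → ∀ a : ℕ, a ≤ X → ∀ (α : ℝ) (b : ℤ) (r : ℕ),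
    IsCoprime b (r : ℤ) → (Real.log X) ^ G ≤ r → (r : ℝ) ≤ X / (Real.log X) ^ G →
    |α - b / r| ≤ 1 / (r : ℝ) ^ 2 → ∀ Q : ℕ, (Q : ℝ) ≤ (X : ℝ) ^ (1 / 50 : ℝ) →
    ∀ c : ℕ → ℕ, (∀ q ∈ Icc 1 Q, (c q).Coprime q) →
    ∑ q ∈ Icc 1 Q, ‖∑ n ∈ (Ioc (X + a) (2 * X + a)).filter (fun n => n ≡ c q [MOD q]),
      (BV.th n : ℂ) * GT.e (α * n)‖ ≤ X / (Real.log X) ^ A := by
  obtain ⟨D1, X1, hvs⟩ := vs 1
  obtain ⟨D, X2, hII⟩ := htii
  obtain ⟨K, hK⟩ : ∃ K, K = A + D + D1 + 2 := ⟨_, rfl⟩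
  obtain ⟨X3, h3⟩ := minorL_ev 40 (4 * K)
  obtain ⟨X4, h4⟩ : ∃ X4 : ℕ, ∀ X : ℕ, X4 ≤ X → 40 ≤ Real.log X := by
    have h := (Real.tendsto_log_atTop.comp
      (tendsto_natCast_atTop_atTop (R := ℝ))).eventually_ge_atTop 40
    exact Filter.eventually_atTop.1 h
  refine ⟨4 * K, max (max X1 X2) (max X3 (max X4 3)), ?_⟩
  intro X hX a ha α b r hcop hr1 hr2 hα Q hQ c hc
  have hX1 : X1 ≤ X := le_trans (le_trans (le_max_left _ _) (le_max_left _ _)) hX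
  have hX2 : X2 ≤ X := le_trans (le_trans (le_max_right _ _) (le_max_left _ _)) hX
  have hX3 : X3 ≤ X := le_trans (le_trans (le_max_left _ _) (le_max_right _ _)) hX
  have hX4 : X4 ≤ X := le_trans (le_trans (le_trans (le_max_left _ _) (le_max_right _ _))
    (le_max_right _ _)) hX
  have hX5 : 3 ≤ X := le_trans (le_trans (le_trans (le_max_right _ _) (le_max_right _ _))
    (le_max_right _ _)) hX
  have hXR : (3 : ℝ) ≤ X := by exact_mod_cast hX5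
  have hX0 : (0 : ℝ) < X := by linarith
  have hW := h4 X hX4
  have hxP := h3 X hX3
  obtain ⟨x, hx⟩ : ∃ x : ℝ, x = (X : ℝ) ^ (1 / 50 : ℝ) := ⟨_, rfl⟩
  rw [← hx] at hxP hQ
  obtain ⟨W, hWd⟩ : ∃ W : ℝ, W = Real.log X := ⟨_, rfl⟩
  rw [← hWd] at hW hxP hr1 hr2 ⊢
  obtain ⟨P, hP⟩ : ∃ P : ℝ, P = W ^ K := ⟨_, rfl⟩
  have hP4 : W ^ (4 * K) = P ^ 4 := by rw [hP, mul_comm, pow_mul]
  rw [hP4] at hxP hr1 hr2
  have hx50 : x ^ 50 = X := by
    rw [hx, ← Real.rpow_natCast, ← Real.rpow_mul hX0.le]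
    norm_num
  have hW1 : (1 : ℝ) ≤ W := by linarith
  have hW0 : (0 : ℝ) < W := by linarith
  have hP1 : 1 ≤ P := by rw [hP]; exact one_le_pow₀ hW1
  have hP0 : 0 < P := by linarith
  have hWP : W ≤ P := by
    rw [hP]
    exact le_self_pow₀ hW1 (by omega)
  have hPP2 : P ≤ P ^ 2 := le_self_pow₀ hP1 (by norm_num)
  have hPP4 : P ^ 2 ≤ P ^ 4 := pow_le_pow_right₀ hP1 (by norm_num)
  have hP41 : 1 ≤ P ^ 4 := one_le_pow₀ hP1
  have hx1 : 40 ≤ x := by linarith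
  have hx11 : 1 ≤ x := by linarith
  have hx0 : 0 < x := by linarith
  -- the parameter
  obtain ⟨U, hU⟩ : ∃ U : ℕ, U = ⌊x ^ 10⌋₊ := ⟨_, rfl⟩
  have hx10 : x ≤ x ^ 10 := le_self_pow₀ hx11 (by norm_num)
  have hU1 : (U : ℝ) ≤ x ^ 10 := by rw [hU]; exact Nat.floor_le (by positivity)
  have hU3 : 1 ≤ U := by
    rw [hU, Nat.one_le_floor_iff]
    linarith
  have hU3R : (1 : ℝ) ≤ U := by exact_mod_cast hU3
  have hU2 : x ^ 10 ≤ 2 * U := by
    have h := (Nat.lt_floor_add_one (x ^ 10)).le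
    rw [← hU] at h
    linarith
  have hQU : (Q : ℝ) * (U * U) ≤ x ^ 21 := by
    calc (Q : ℝ) * (U * U) ≤ x * (x ^ 10 * x ^ 10) := by gcongr
      _ = x ^ 21 := by ring
  have hx21 : x ^ 21 * x ≤ X := by
    rw [← hx50]
    calc x ^ 21 * x = x ^ 22 := by ring
      _ ≤ x ^ 50 := pow_le_pow_right₀ hx11 (by norm_num)
  have hx21P : x ^ 21 ≤ X / P ^ 4 := by
    rw [le_div_iff₀ (by positivity)]
    refine le_trans ?_ hx21
    exact mul_le_mul_of_nonneg_left (by linarith) (by positivity)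
  have hXP4 : (X : ℝ) / P ^ 4 ≤ X := div_le_self hX0.le hP41
  have hQUX : Q * (U * U) ≤ X := by
    have h : ((Q * (U * U) : ℕ) : ℝ) ≤ (X : ℝ) := by
      push_cast
      linarith
    exact_mod_cast h
  have hUX : U ≤ X := by
    have h : (U : ℝ) ≤ X := by
      refine hU1.trans ?_
      rw [← hx50]
      exact pow_le_pow_right₀ hx11 (by norm_num)
    exact_mod_cast h
  have hr0 : 1 ≤ r := by
    have h : (1 : ℝ) ≤ r := hP41.trans hr1
    exact_mod_cast h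
  have hrX : r ≤ X := by
    have h : (r : ℝ) ≤ X := hr2.trans hXP4
    exact_mod_cast h
  have hr0R : (0 : ℝ) < r := by exact_mod_cast hr0
  have hXr : (X : ℝ) / r ≤ X / P ^ 4 := div_le_div_of_nonneg_left hX0.le (by positivity) hr1
  -- the type II blocks
  have hT : ∀ L : ℕ, U ≤ L → L * U ≤ 3 * X → ∑ q ∈ Icc 1 Q, ‖∑ l ∈ Ioc L (2 * L),
      ∑ j ∈ (Icc 1 (3 * X / L)).filter
        (fun j => X + a < l * j ∧ l * j ≤ 2 * X + a ∧ l * j ≡ c q [MOD q]),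
      (((fun l : ℕ => if l ≤ 3 * X then Λ l else 0) l : ℝ) : ℂ) *
        (((fun j : ℕ => if U < j then SW.bU U j else 0) j : ℝ) : ℂ) *
        GT.e (α * ((l * j : ℕ) : ℝ))‖ ≤ W ^ D * (2 * X / P) := by
    intro L hUL hLU
    have hL1 : 1 ≤ L := hU3.trans hUL
    have hL3 : L ≤ 3 * X := (Nat.le_mul_of_pos_right L (by omega)).trans hLU
    have hULR : (U : ℝ) ≤ L := by exact_mod_cast hUL
    have hL0 : (0 : ℝ) < L := by linarith
    have hQL : Q ^ 2 ≤ L := by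
      have h : ((Q ^ 2 : ℕ) : ℝ) ≤ L := by
        push_cast
        have h5 : (Q : ℝ) ^ 2 ≤ x ^ 2 := pow_le_pow_left₀ (by positivity) hQ 2
        have h6 : x ^ 2 * 2 ≤ x ^ 10 := by
          calc x ^ 2 * 2 ≤ x ^ 2 * x := by gcongr; linarith
            _ = x ^ 3 := by ring
            _ ≤ x ^ 10 := pow_le_pow_right₀ hx11 (by norm_num)
        linarith
      exact_mod_cast h
    have h5 := hII X hX2 L Q (X + a) (2 * X + a) α b r
      (fun l : ℕ => if l ≤ 3 * X then Λ l else 0) (fun j : ℕ => if U < j then SW.bU U j else 0)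
      c hL1 hL3 hQL (by omega) hr0 hrX hcop hα ?_ ?_ hc
    · refine h5.trans ?_
      rw [← hWd]
      refine mul_le_mul_of_nonneg_left ?_ (by positivity)
      have h6 : (Q : ℝ) ^ 2 * X / L ≤ X / P ^ 4 := by
        rw [div_le_div_iff₀ hL0 (by positivity)]
        have h7 : (Q : ℝ) ^ 2 ≤ x ^ 2 := pow_le_pow_left₀ (by positivity) hQ 2
        have h8 : x ^ 2 * P ^ 4 ≤ L := by
          have h9 : 2 * (x ^ 2 * P ^ 4) ≤ x ^ 10 := by
            calc 2 * (x ^ 2 * P ^ 4) ≤ x ^ 2 * (40 * P ^ 4) := by nlinarith [pow_pos hx0 2]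
              _ ≤ x ^ 2 * x := by gcongr
              _ = x ^ 3 := by ring
              _ ≤ x ^ 10 := pow_le_pow_right₀ hx11 (by norm_num)
          linarith
        calc (Q : ℝ) ^ 2 * X * P ^ 4 ≤ x ^ 2 * X * P ^ 4 := by gcongr
          _ = X * (x ^ 2 * P ^ 4) := by ring
          _ ≤ X * L := by gcongr
      have h7 : Real.sqrt (X * (X / r + (Q : ℝ) ^ 2 * X / L + r)) ≤ 2 * X / P ^ 2 := by
        rw [Real.sqrt_le_left (by positivity)]
        calc (X : ℝ) * (X / r + (Q : ℝ) ^ 2 * X / L + r) ≤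
            X * (X / P ^ 4 + X / P ^ 4 + X / P ^ 4) := by gcongr
          _ ≤ X * (4 * (X / P ^ 4)) := by
            have : 0 ≤ (X : ℝ) / P ^ 4 := by positivity
            gcongr
            linarith
          _ = (2 * X / P ^ 2) ^ 2 := by
            field_simp
            ring
      rw [Real.sqrt_le_left (by positivity)]
      have h8 : (X : ℝ) * L ≤ 2 * X ^ 2 / P ^ 2 := by
        rw [le_div_iff₀ (by positivity)]
        have h9 : (L : ℝ) * U ≤ 3 * X := by exact_mod_cast hLU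
        have h10 : 3 * P ^ 2 ≤ U := by
          have : 40 * P ^ 2 ≤ x := by linarith
          nlinarith
        have h11 : (L : ℝ) * (3 * P ^ 2) ≤ 3 * X := by
          calc (L : ℝ) * (3 * P ^ 2) ≤ L * U := by gcongr
            _ ≤ 3 * X := h9
        nlinarith
      calc (X : ℝ) * L + X * Real.sqrt (X * (X / r + (Q : ℝ) ^ 2 * X / L + r)) ≤
          2 * X ^ 2 / P ^ 2 + X * (2 * X / P ^ 2) := by gcongr
        _ = (2 * X / P) ^ 2 := by
          field_simp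
          ring
    · intro l
      have hl3 : 0 ≤ Real.log (3 * X) := Real.log_nonneg (by linarith)
      show |if l ≤ 3 * X then Λ l else 0| ≤ _
      split_ifs with hl
      · rw [abs_of_nonneg ArithmeticFunction.vonMangoldt_nonneg]
        refine ArithmeticFunction.vonMangoldt_le_log.trans ?_
        rcases Nat.eq_zero_or_pos l with h0 | h0
        · rw [h0]
          simpa using hl3
        · refine Real.log_le_log (by exact_mod_cast h0) ?_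
          exact_mod_cast hl
      · simpa using hl3
    · intro j
      show |if U < j then SW.bU U j else 0| ≤ _
      split_ifs
      · exact SW.abs_bU_le U j
      · simp
  have hmain := ml_split X a Q U U α c ha (by omega) hU3 hU3 hUX hQUX hc
    (W ^ D * (2 * X / P)) (by positivity) hT
  refine hmain.trans ?_
  -- the logarithms
  have hl3 : Real.log (3 * X) ≤ 2 * W := by
    rw [Real.log_mul (by norm_num) (by positivity), ← hWd]
    have : Real.log 3 ≤ W := by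
      rw [hWd]
      exact Real.log_le_log (by norm_num) hXR
    linarith
  have hl30 : 0 ≤ Real.log (3 * X) := Real.log_nonneg (by linarith)
  have hcast : ((3 * X : ℕ) : ℝ) = 3 * X := by push_cast; ring
  -- term 1
  have ht1 : (Q : ℝ) * (2 * √((3 * X : ℕ) : ℝ) * Real.log ((3 * X : ℕ) : ℝ)) ≤ X / P := by
    rw [hcast]
    have h5 : √(3 * (X : ℝ)) ≤ 2 * x ^ 25 := by
      rw [Real.sqrt_le_left (by positivity)]
      calc 3 * (X : ℝ) ≤ 4 * X := by linarith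
        _ = (2 * x ^ 25) ^ 2 := by rw [← hx50]; ring
    rw [le_div_iff₀ hP0]
    calc (Q : ℝ) * (2 * √(3 * (X : ℝ)) * Real.log (3 * X)) * P ≤
        x * (2 * (2 * x ^ 25) * (2 * W)) * P := by gcongr
      _ = x ^ 26 * (8 * (W * P)) := by ring
      _ ≤ x ^ 26 * x := by
        gcongr
        have h6 : W * P ≤ P * P := mul_le_mul_of_nonneg_right hWP hP0.le
        have h7 : P * P = P ^ 2 := by ring
        linarith
      _ = x ^ 27 := by ring
      _ ≤ x ^ 50 := pow_le_pow_right₀ hx11 (by norm_num)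
      _ = X := hx50
  -- term 2
  have ht2 : 3 * Real.log (3 * X) * (∑ s ∈ Icc 1 (Q * (U * U)), (s.divisors.card : ℝ) *
      SW.gmin (2 * X / (s : ℝ)) ((s : ℝ) * α)) ≤ 12 * W ^ (D1 + 1) * (X / P) := by
    have h5 := hvs X hX1 α b r (Q * (U * U)) hr0 hrX hcop hα hQUX
    simp only [pow_one] at h5
    rw [← hWd] at h5
    have h6 : Real.sqrt (X * (X / r + ((Q * (U * U) : ℕ) : ℝ) + r)) ≤ 2 * X / P := by
      rw [Real.sqrt_le_left (by positivity)]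
      have h7 : ((Q * (U * U) : ℕ) : ℝ) ≤ X / P ^ 4 := by
        push_cast
        exact hQU.trans hx21P
      calc (X : ℝ) * (X / r + ((Q * (U * U) : ℕ) : ℝ) + r) ≤
            X * (X / P ^ 4 + X / P ^ 4 + X / P ^ 4) := by gcongr
          _ ≤ X * (4 * (X / P ^ 2)) := by
            have h8 : (X : ℝ) / P ^ 4 ≤ X / P ^ 2 :=
              div_le_div_of_nonneg_left hX0.le (by positivity) hPP4
            have : 0 ≤ (X : ℝ) / P ^ 2 := by positivity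
            gcongr
            linarith
          _ = (2 * X / P) ^ 2 := by
            field_simp
            ring
    calc _ ≤ 3 * (2 * W) * (W ^ D1 * (2 * X / P)) := by
          have h8 : 0 ≤ ∑ s ∈ Icc 1 (Q * (U * U)), (s.divisors.card : ℝ) *
              SW.gmin (2 * X / (s : ℝ)) ((s : ℝ) * α) :=
            sum_nonneg fun s _ => mul_nonneg (by positivity)
              (SW.gmin_nonneg _ _ (by positivity))
          have h9 : ∑ s ∈ Icc 1 (Q * (U * U)), (s.divisors.card : ℝ) *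
              SW.gmin (2 * X / (s : ℝ)) ((s : ℝ) * α) ≤ W ^ D1 * (2 * X / P) :=
            h5.trans (mul_le_mul_of_nonneg_left h6 (by positivity))
          gcongr
      _ = _ := by ring
  -- term 3
  have ht3 : ((Nat.log 2 (3 * X) + 1 : ℕ) : ℝ) * (W ^ D * (2 * X / P)) ≤
      8 * W ^ (D + 1) * (X / P) := by
    have h5 : ((Nat.log 2 (3 * X) + 1 : ℕ) : ℝ) ≤ 4 * W := by
      have h6 : (Nat.log 2 (3 * X) : ℝ) * Real.log 2 ≤ Real.log (3 * X) := by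
        have h7 : (2 : ℝ) ^ (Nat.log 2 (3 * X)) ≤ 3 * X := by
          exact_mod_cast Nat.pow_log_le_self 2 (by omega)
        have h8 := Real.log_le_log (by positivity) h7
        rwa [Real.log_pow] at h8
      have h7 := Real.log_two_gt_d9
      have h8 : (0 : ℝ) ≤ (Nat.log 2 (3 * X) : ℝ) := by positivity
      push_cast
      nlinarith
    calc _ ≤ (4 * W) * (W ^ D * (2 * X / P)) :=
          mul_le_mul_of_nonneg_right h5 (by positivity)
      _ = _ := by ring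
  have hXP : 0 ≤ (X : ℝ) / P := by positivity
  have hWA : (X : ℝ) / W ^ A = W ^ (D + D1 + 2) * (X / P) := by
    rw [hP, hK, show A + D + D1 + 2 = A + (D + D1 + 2) by omega, pow_add W A]
    field_simp
  rw [hWA]
  have hw1 : W ^ (D1 + 1) ≤ W ^ (D + D1 + 1) := pow_le_pow_right₀ hW1 (by omega)
  have hw2 : W ^ (D + 1) ≤ W ^ (D + D1 + 1) := pow_le_pow_right₀ hW1 (by omega)
  have hw3 : 1 ≤ W ^ (D + D1 + 1) := one_le_pow₀ hW1
  have hw4 : 40 * W ^ (D + D1 + 1) ≤ W ^ (D + D1 + 2) := by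
    calc 40 * W ^ (D + D1 + 1) ≤ W * W ^ (D + D1 + 1) := by gcongr
      _ = W ^ (D + D1 + 2) := by ring
  calc _ ≤ X / P + 12 * W ^ (D1 + 1) * (X / P) + 8 * W ^ (D + 1) * (X / P) :=
        add_le_add (add_le_add ht1 ht2) ht3
    _ = (1 + 12 * W ^ (D1 + 1) + 8 * W ^ (D + 1)) * (X / P) := by ring
    _ ≤ W ^ (D + D1 + 2) * (X / P) := by
      refine mul_le_mul_of_nonneg_right ?_ hXP
      linarith

end Pool.Agent.Lib.SG
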