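import Pool.Agent.Lib.SG.Vs
import Pool.Agent.Lib.SW.TypeSums
import Pool.Agent.Lib.SW.MinorQ

/-!
# SG-Tii: type II sums, on average over the moduli with one class for each modulus

PROOF. Write S_q for the inner double sum, θ_q for a unimodular number with `θ_q S_q = ‖S_q‖`. J = 3X/L. Then (l outside)
`∑_q ‖S_q‖ = ∑_{L < l ≤ 2L} u_l ∑_q θ_q ∑_j v_j 1[..] e(α l j)`, Cauchy-Schwarz over l: the square is at most `(∑ |u_l|²) ∑_l |∑_q ∑_j ..|²`, first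
factor `≤ L (log 3X)²`. Open the square and put the sum over l inside: for (q₁, j₁), (q₂, j₂) the conditions on l are: l in an
interval, `l j₁ ≡ c q₁ [MOD q₁]`, `l j₂ ≡ c q₂ [MOD q₂]`; since `c q` is coprime to q this is empty or one class modulo
`m = lcm(q₁, q₂)` (`m ≤ Q² ≤ L`), at most `L/m + 1 ≤ 2L/m` values, and the phase is `e(α l (j₁ - j₂))`: `SW.geom_le` gives
`≤ gmin (2L/m) (m (j₁ - j₂) α)` (`nd` is even). `|v_{j₁} v_{j₂}| ≤ (τ(j₁)² + τ(j₂)²)/2`, `∑_{j ≤ J} τ(j)² ≤ J (1 + log J)³` (`SW.sum_divisors_sq_le`).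
Diagonal j₁ = j₂: `∑_{q₁,q₂} (2L/m) J (1 + log J)³`, `∑_{q₁,q₂ ≤ Q} 1/lcm ≤ ∑_{g ≤ Q} g ∑_{g ∣ q₁, q₂} 1/(q₁ q₂) ≤ (1 + log Q)³`: at most `X (log X)^8`.
Off the diagonal, i = |j₁ - j₂| ∈ [1, J]: at most `2 J (1 + log J)³ ∑_{q₁,q₂} ∑_{i ≤ J} gmin (2L/m) (m i α)`; with s = m i ≤ Q² J, `2L/m = 2 L i/s ≤ 2LJ/s ≤ 6X/s`,
every s comes from at most `τ(s)²` pairs (q₁, q₂) (both divide s, and i = s/lcm): `≤ 2 J (1+log J)³ ∑_{s ≤ Q² J} τ(s)² gmin (2(3X)/s) (s α)`, `vs 2`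
with 3X in place of X (r ≤ X ≤ 3X, `Q² J ≤ 3X` because Q² ≤ L). So the square is at most
`L (log 3X)² (X (log X)^8 + 2 (3X/L) (..)³ (log 3X)^D' √(3X (3X/r + 3 Q² X/L + r)))`. J is the natural number 3X/L (l ≤ 2L, but l > L so
`l j ≤ 3X` implies j ≤ 3X/L). Take the square root.
-/

set_option autoImplicit false

open Finset

namespace Pool.Agent.Lib.SG

private theorem Tii_prog (m K1 K2 ρ L : ℕ) (β : ℝ) (hm : 1 ≤ m) (hρ : ρ < m) (hmL : m ≤ L)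
    (hK1 : L ≤ K1) (hK12 : K1 ≤ K2) (hK2 : K2 ≤ 2 * L) :
    ‖∑ l ∈ (Ioc K1 K2).filter (fun l => l % m = ρ), GT.e (l * β)‖ ≤
      SW.gmin (2 * L / m) (m * β) := by
  have hmR : (0 : ℝ) < m := by exact_mod_cast hm
  have hT12 : (K1 - ρ) / m ≤ (K2 - ρ) / m := Nat.div_le_div_right (by omega)
  have h1 : ∑ l ∈ (Ioc K1 K2).filter (fun l => l % m = ρ), GT.e (l * β) =
      ∑ t ∈ Ioc ((K1 - ρ) / m) ((K2 - ρ) / m), GT.e (ρ * β) * GT.e (t * (m * β)) := by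
    refine sum_bij' (fun l _ => l / m) (fun t _ => ρ + m * t) ?_ ?_ ?_ ?_ ?_
    · intro l hl
      rw [mem_filter, mem_Ioc] at hl
      obtain ⟨⟨h1, h2⟩, h3⟩ := hl
      have h4 : l = ρ + m * (l / m) := by
        have := Nat.mod_add_div l m
        omega
      rw [mem_Ioc, Nat.div_lt_iff_lt_mul hm, Nat.le_div_iff_mul_le hm]
      constructor
      · rw [mul_comm]
        omega
      · rw [mul_comm]
        omega
    · intro t ht
      rw [mem_Ioc, Nat.div_lt_iff_lt_mul hm, Nat.le_div_iff_mul_le hm, mul_comm] at ht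
      rw [mem_filter, mem_Ioc]
      refine ⟨⟨by omega, by omega⟩, ?_⟩
      rw [Nat.add_mul_mod_self_left, Nat.mod_eq_of_lt hρ]
    · intro l hl
      rw [mem_filter, mem_Ioc] at hl
      have := Nat.mod_add_div l m
      omega
    · intro t ht
      rw [Nat.add_mul_div_left _ _ hm, Nat.div_eq_of_lt hρ, zero_add]
    · intro l hl
      rw [mem_filter, mem_Ioc] at hl
      have h4 : l = ρ + m * (l / m) := by
        have := Nat.mod_add_div l m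
        omega
      rw [← GT.e_add]
      congr 1
      have h5 : (l : ℝ) = ρ + m * ((l / m : ℕ) : ℝ) := by exact_mod_cast h4
      rw [h5]
      ring
  rw [h1, ← mul_sum, norm_mul, GT.norm_e, one_mul]
  apply SW.geom_le _ _ _ _ hT12
  have h2 : (((K2 - ρ) / m : ℕ) : ℝ) ≤ ((K2 - ρ : ℕ) : ℝ) / m := Nat.cast_div_le
  have h3 : ((K1 - ρ : ℕ) : ℝ) / m < (((K1 - ρ) / m : ℕ) : ℝ) + 1 := by
    rw [div_lt_iff₀ hmR]
    have h4 := Nat.lt_div_mul_add (a := K1 - ρ) hm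
    have h5 : K1 - ρ < ((K1 - ρ) / m + 1) * m := by
      rw [add_mul, one_mul]
      exact h4
    exact_mod_cast h5
  have h4 : ((K2 - ρ : ℕ) : ℝ) = (K2 : ℝ) - ρ := Nat.cast_sub (by omega)
  have h5 : ((K1 - ρ : ℕ) : ℝ) = (K1 : ℝ) - ρ := Nat.cast_sub (by omega)
  rw [h4] at h2
  rw [h5] at h3
  have h6 : ((K2 : ℝ) - ρ) / m - ((K1 : ℝ) - ρ) / m ≤ L / m := by
    rw [← sub_div]
    apply div_le_div_of_nonneg_right _ hmR.le
    have h7 : (K2 : ℝ) ≤ 2 * L := by exact_mod_cast hK2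
    have h8 : (L : ℝ) ≤ K1 := by exact_mod_cast hK1
    linarith
  have h7 : (1 : ℝ) ≤ L / m := by
    rw [le_div_iff₀ hmR, one_mul]
    exact_mod_cast hmL
  have h8 : (2 : ℝ) * L / m = L / m + L / m := by ring
  rw [h8]
  linarith

private theorem Tii_inner_aux (α : ℝ) (L A B q1 q2 c1 c2 j1 j2 : ℕ) (hq1 : 1 ≤ q1) (hq2 : 1 ≤ q2)
    (hL : Nat.lcm q1 q2 ≤ L) (hj1 : 1 ≤ j1) (hj2 : 1 ≤ j2) (hc1 : c1.Coprime q1)
    (hc2 : c2.Coprime q2) (h : j2 ≤ j1) :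
    ‖∑ l ∈ (Ioc L (2 * L)).filter (fun l => (A < l * j1 ∧ l * j1 ≤ B ∧ l * j1 ≡ c1 [MOD q1]) ∧
        (A < l * j2 ∧ l * j2 ≤ B ∧ l * j2 ≡ c2 [MOD q2])),
      GT.e (α * ((l * j1 : ℕ) : ℝ)) * (starRingEnd ℂ) (GT.e (α * ((l * j2 : ℕ) : ℝ)))‖ ≤
      SW.gmin (2 * L / (Nat.lcm q1 q2 : ℕ)) ((Nat.lcm q1 q2 : ℕ) * ((Nat.dist j1 j2 : ℕ) * α)) := by
  set m := Nat.lcm q1 q2 with hm
  have hm1 : 1 ≤ m := Nat.pos_of_ne_zero (Nat.lcm_ne_zero (by omega) (by omega))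
  have hdist : Nat.dist j1 j2 = j1 - j2 := Nat.dist_eq_sub_of_le_right h
  rw [hdist]
  set S := (Ioc L (2 * L)).filter (fun l => (A < l * j1 ∧ l * j1 ≤ B ∧ l * j1 ≡ c1 [MOD q1]) ∧
        (A < l * j2 ∧ l * j2 ≤ B ∧ l * j2 ≡ c2 [MOD q2])) with hS
  rcases S.eq_empty_or_nonempty with hS0 | ⟨l0, hl0⟩
  · rw [hS0, sum_empty, norm_zero]
    exact SW.gmin_nonneg _ _ (by positivity)
  · have hl0' := hl0
    rw [hS, mem_filter, mem_Ioc] at hl0'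
    obtain ⟨⟨hl1, hl2⟩, ⟨ha1, hb1, hcc1⟩, ha2, hb2, hcc2⟩ := hl0'
    set K1 := max L (max (A / j1) (A / j2)) with hK1
    set K2 := min (2 * L) (min (B / j1) (B / j2)) with hK2
    have hcop1 : Nat.Coprime j1 q1 := by
      have h1 : (l0 * j1).Coprime q1 := by
        have := hcc1.gcd_eq
        rw [Nat.Coprime, this]
        exact hc1
      exact h1.coprime_mul_left
    have hcop2 : Nat.Coprime j2 q2 := by
      have h1 : (l0 * j2).Coprime q2 := by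
        have := hcc2.gcd_eq
        rw [Nat.Coprime, this]
        exact hc2
      exact h1.coprime_mul_left
    have hSeq : S = (Ioc K1 K2).filter (fun l => l % m = l0 % m) := by
      ext l
      rw [hS, mem_filter, mem_filter, mem_Ioc, mem_Ioc, hK1, hK2, max_lt_iff, max_lt_iff,
        le_min_iff, le_min_iff, Nat.div_lt_iff_lt_mul (by omega), Nat.div_lt_iff_lt_mul (by omega),
        Nat.le_div_iff_mul_le (by omega), Nat.le_div_iff_mul_le (by omega)]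
      have e1 : l * j1 ≡ c1 [MOD q1] ↔ l ≡ l0 [MOD q1] := by
        constructor
        · intro h1
          exact Nat.ModEq.cancel_right_of_coprime hcop1.symm (h1.trans hcc1.symm)
        · intro h1
          exact (h1.mul_right j1).trans hcc1
      have e2 : l * j2 ≡ c2 [MOD q2] ↔ l ≡ l0 [MOD q2] := by
        constructor
        · intro h1
          exact Nat.ModEq.cancel_right_of_coprime hcop2.symm (h1.trans hcc2.symm)
        · intro h1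
          exact (h1.mul_right j2).trans hcc2
      have e3 : l % m = l0 % m ↔ (l ≡ l0 [MOD q1] ∧ l ≡ l0 [MOD q2]) := by
        change l ≡ l0 [MOD m] ↔ _
        constructor
        · intro h1
          exact ⟨h1.of_dvd (Nat.dvd_lcm_left _ _), h1.of_dvd (Nat.dvd_lcm_right _ _)⟩
        · rintro ⟨h1, h2⟩
          rw [Nat.modEq_iff_dvd] at h1 h2 ⊢
          rw [hm]
          have h3 : (((q1.lcm q2 : ℕ)) : ℤ) = ((Int.lcm (q1 : ℤ) (q2 : ℤ) : ℕ) : ℤ) := by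
            rw [Int.lcm_natCast_natCast]
          rw [h3]
          exact Int.coe_lcm_dvd h1 h2
      rw [e1, e2, e3]
      tauto
    have hl0S := hl0
    rw [hSeq, mem_filter, mem_Ioc] at hl0S
    rw [hSeq]
    have h6 : ∀ l ∈ (Ioc K1 K2).filter (fun l => l % m = l0 % m),
        GT.e (α * ((l * j1 : ℕ) : ℝ)) * (starRingEnd ℂ) (GT.e (α * ((l * j2 : ℕ) : ℝ))) =
        GT.e (l * ((j1 - j2 : ℕ) * α)) := by
      intro l _
      rw [SW.conj_e, ← GT.e_add]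
      congr 1
      rw [Nat.cast_sub h]
      push_cast
      ring
    rw [sum_congr rfl h6]
    exact Tii_prog m K1 K2 (l0 % m) L _ hm1 (Nat.mod_lt _ hm1) hL (le_max_left _ _)
      (by omega) (min_le_left _ _)

private theorem Tii_inner (α : ℝ) (L A B q1 q2 c1 c2 j1 j2 : ℕ) (hq1 : 1 ≤ q1) (hq2 : 1 ≤ q2)
    (hL : Nat.lcm q1 q2 ≤ L) (hj1 : 1 ≤ j1) (hj2 : 1 ≤ j2) (hc1 : c1.Coprime q1)
    (hc2 : c2.Coprime q2) :
    ‖∑ l ∈ (Ioc L (2 * L)).filter (fun l => (A < l * j1 ∧ l * j1 ≤ B ∧ l * j1 ≡ c1 [MOD q1]) ∧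
        (A < l * j2 ∧ l * j2 ≤ B ∧ l * j2 ≡ c2 [MOD q2])),
      GT.e (α * ((l * j1 : ℕ) : ℝ)) * (starRingEnd ℂ) (GT.e (α * ((l * j2 : ℕ) : ℝ)))‖ ≤
      SW.gmin (2 * L / (Nat.lcm q1 q2 : ℕ)) ((Nat.lcm q1 q2 : ℕ) * ((Nat.dist j1 j2 : ℕ) * α)) := by
  rcases le_total j2 j1 with h | h
  · exact Tii_inner_aux α L A B q1 q2 c1 c2 j1 j2 hq1 hq2 hL hj1 hj2 hc1 hc2 h
  · have h3 := Tii_inner_aux α L A B q2 q1 c2 c1 j2 j1 hq2 hq1 (by rwa [Nat.lcm_comm]) hj2 hj1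
      hc2 hc1 h
    rw [Nat.dist_comm, Nat.lcm_comm]
    refine le_trans (le_of_eq ?_) h3
    rw [← Complex.norm_conj, map_sum]
    congr 1
    apply Finset.sum_congr
    · ext l
      simp only [Finset.mem_filter]
      tauto
    · intro l _
      rw [map_mul, Complex.conj_conj]
      ring

/-- opening the square -/
private theorem Tii_dual {P : Type*} (S : Finset ℕ) (T : Finset P) (a : P → ℂ) (f : P → ℕ → ℂ) :
    ∑ l ∈ S, ‖∑ p ∈ T, a p * f p l‖ ^ 2 ≤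
      ∑ p ∈ T, ∑ p' ∈ T, ‖a p‖ * ‖a p'‖ * ‖∑ l ∈ S, f p l * (starRingEnd ℂ) (f p' l)‖ := by
  have hC : ((∑ l ∈ S, ‖∑ p ∈ T, a p * f p l‖ ^ 2 : ℝ) : ℂ) =
      ∑ p ∈ T, ∑ p' ∈ T, (a p * (starRingEnd ℂ) (a p')) *
        ∑ l ∈ S, f p l * (starRingEnd ℂ) (f p' l) := by
    rw [Complex.ofReal_sum]
    have h1 : ∀ l ∈ S, ((‖∑ p ∈ T, a p * f p l‖ ^ 2 : ℝ) : ℂ) =
        ∑ p ∈ T, ∑ p' ∈ T, (a p * (starRingEnd ℂ) (a p')) *
          (f p l * (starRingEnd ℂ) (f p' l)) := by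
      intro l _
      rw [← Complex.normSq_eq_norm_sq, ← Complex.mul_conj, map_sum, Finset.sum_mul_sum]
      refine Finset.sum_congr rfl fun p _ => Finset.sum_congr rfl fun p' _ => ?_
      rw [map_mul]
      ring
    rw [Finset.sum_congr rfl h1, Finset.sum_comm]
    refine Finset.sum_congr rfl fun p _ => ?_
    rw [Finset.sum_comm]
    refine Finset.sum_congr rfl fun p' _ => ?_
    rw [Finset.mul_sum]
  have h0 : 0 ≤ ∑ l ∈ S, ‖∑ p ∈ T, a p * f p l‖ ^ 2 := Finset.sum_nonneg fun _ _ => by positivity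
  have h2 : ∑ l ∈ S, ‖∑ p ∈ T, a p * f p l‖ ^ 2 =
      ‖((∑ l ∈ S, ‖∑ p ∈ T, a p * f p l‖ ^ 2 : ℝ) : ℂ)‖ := by
    rw [Complex.norm_real, Real.norm_of_nonneg h0]
  rw [h2, hC]
  refine (norm_sum_le _ _).trans (Finset.sum_le_sum fun p _ => ?_)
  refine (norm_sum_le _ _).trans (Finset.sum_le_sum fun p' _ => ?_)
  rw [norm_mul, norm_mul, Complex.norm_conj]

/-- pairs with the same lcm -/
private theorem Tii_lcm (Q : ℕ) (f : ℕ → ℝ) (hf : ∀ m, 0 ≤ f m) :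
    ∑ q1 ∈ Icc 1 Q, ∑ q2 ∈ Icc 1 Q, f (Nat.lcm q1 q2) ≤
      ∑ m ∈ Icc 1 (Q ^ 2), (m.divisors.card : ℝ) ^ 2 * f m := by
  rw [← Finset.sum_product' (f := fun q1 q2 => f (Nat.lcm q1 q2))]
  have h1 : ∀ x ∈ Icc 1 Q ×ˢ Icc 1 Q, Nat.lcm x.1 x.2 ∈ Icc 1 (Q ^ 2) := by
    intro x hx
    rw [mem_product, mem_Icc, mem_Icc] at hx
    rw [mem_Icc]
    refine ⟨Nat.pos_of_ne_zero (Nat.lcm_ne_zero (by omega) (by omega)), ?_⟩
    refine (Nat.le_of_dvd (Nat.mul_pos (by omega) (by omega)) (Nat.lcm_dvd_mul x.1 x.2)).trans ?_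
    rw [pow_two]
    exact Nat.mul_le_mul hx.1.2 hx.2.2
  rw [← Finset.sum_fiberwise_of_maps_to h1]
  refine Finset.sum_le_sum fun m hm => ?_
  rw [mem_Icc] at hm
  rw [Finset.sum_congr rfl (fun x hx => by rw [(mem_filter.mp hx).2]), Finset.sum_const,
    nsmul_eq_mul]
  refine mul_le_mul_of_nonneg_right ?_ (hf m)
  have h2 : (Icc 1 Q ×ˢ Icc 1 Q).filter (fun x => Nat.lcm x.1 x.2 = m) ⊆
      m.divisors ×ˢ m.divisors := by
    intro x hx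
    rw [mem_filter] at hx
    rw [mem_product, Nat.mem_divisors, Nat.mem_divisors]
    refine ⟨⟨?_, by omega⟩, ?_, by omega⟩
    · rw [← hx.2]; exact Nat.dvd_lcm_left _ _
    · rw [← hx.2]; exact Nat.dvd_lcm_right _ _
  have h3 := Finset.card_le_card h2
  rw [Finset.card_product] at h3
  rw [pow_two]
  exact_mod_cast h3

/-- products of two numbers -/
private theorem Tii_prod (M J : ℕ) (F : ℕ → ℕ → ℝ) (w : ℕ → ℝ) (hw : ∀ s, 0 ≤ w s)
    (hF : ∀ m ∈ Icc 1 M, ∀ h ∈ Icc 1 J, F m h ≤ w (m * h)) :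
    ∑ m ∈ Icc 1 M, (m.divisors.card : ℝ) ^ 2 * ∑ h ∈ Icc 1 J, F m h ≤
      ∑ s ∈ Icc 1 (M * J), (s.divisors.card : ℝ) ^ 3 * w s := by
  have h0 : ∑ m ∈ Icc 1 M, (m.divisors.card : ℝ) ^ 2 * ∑ h ∈ Icc 1 J, F m h ≤
      ∑ m ∈ Icc 1 M, ∑ h ∈ Icc 1 J, ((m * h).divisors.card : ℝ) ^ 2 * w (m * h) := by
    refine Finset.sum_le_sum fun m hm => ?_
    rw [Finset.mul_sum]
    refine Finset.sum_le_sum fun h hh => ?_
    have h1 := hF m hm h hh
    rw [mem_Icc] at hm hh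
    have h2 : (m.divisors.card : ℝ) ≤ ((m * h).divisors.card : ℝ) := by
      have h3 : m.divisors ⊆ (m * h).divisors :=
        Nat.divisors_subset_of_dvd (Nat.mul_ne_zero (by omega) (by omega)) (Nat.dvd_mul_right _ _)
      exact_mod_cast Finset.card_le_card h3
    calc (m.divisors.card : ℝ) ^ 2 * F m h ≤ (m.divisors.card : ℝ) ^ 2 * w (m * h) :=
          mul_le_mul_of_nonneg_left h1 (by positivity)
      _ ≤ ((m * h).divisors.card : ℝ) ^ 2 * w (m * h) :=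
          mul_le_mul_of_nonneg_right (by gcongr) (hw _)
  refine h0.trans ?_
  rw [← Finset.sum_product' (f := fun m h => ((m * h).divisors.card : ℝ) ^ 2 * w (m * h))]
  have h1 : ∀ x ∈ Icc 1 M ×ˢ Icc 1 J, x.1 * x.2 ∈ Icc 1 (M * J) := by
    intro x hx
    rw [mem_product, mem_Icc, mem_Icc] at hx
    rw [mem_Icc]
    exact ⟨Nat.mul_pos (by omega) (by omega), Nat.mul_le_mul hx.1.2 hx.2.2⟩
  rw [← Finset.sum_fiberwise_of_maps_to h1]
  refine Finset.sum_le_sum fun s hs => ?_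
  rw [mem_Icc] at hs
  rw [Finset.sum_congr rfl (fun x hx => by rw [(mem_filter.mp hx).2]), Finset.sum_const,
    nsmul_eq_mul]
  have h2 : ((Icc 1 M ×ˢ Icc 1 J).filter (fun x => x.1 * x.2 = s)).card ≤ s.divisors.card := by
    refine Finset.card_le_card_of_injOn Prod.fst ?_ ?_
    · intro x hx
      rw [Finset.mem_coe, mem_filter] at hx
      rw [Finset.mem_coe, Nat.mem_divisors]
      exact ⟨⟨x.2, hx.2.symm⟩, by omega⟩
    · intro x hx y hy hxy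
      rw [Finset.mem_coe, mem_filter, mem_product, mem_Icc, mem_Icc] at hx hy
      have h3 : x.1 * x.2 = x.1 * y.2 := by rw [hx.2, hxy, hy.2]
      have h4 : x.2 = y.2 := Nat.eq_of_mul_eq_mul_left (by omega) h3
      exact Prod.ext hxy h4
  have h3 : (((Icc 1 M ×ˢ Icc 1 J).filter (fun x => x.1 * x.2 = s)).card : ℝ) ≤
      s.divisors.card := by exact_mod_cast h2
  calc _ ≤ (s.divisors.card : ℝ) * ((s.divisors.card : ℝ) ^ 2 * w s) :=
        mul_le_mul_of_nonneg_right h3 (mul_nonneg (by positivity) (hw s))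
    _ = _ := by ring

/-- the square, with explicit factors -/
private theorem Tii_square (X L Q A B : ℕ) (α : ℝ) (u v : ℕ → ℝ) (c : ℕ → ℕ) (W : ℝ)
    (hX : 1 ≤ X) (hL : 1 ≤ L) (hLX : L ≤ 3 * X) (hQL : Q ^ 2 ≤ L)
    (hu : ∀ l, |u l| ≤ Real.log (3 * X)) (hv : ∀ j, |v j| ≤ (j.divisors.card : ℝ))
    (hc : ∀ q ∈ Icc 1 Q, (c q).Coprime q)
    (hW : ∑ s ∈ Icc (1 : ℕ) (Q ^ 2 * (3 * X / L)), (s.divisors.card : ℝ) ^ 3 *
      SW.gmin (2 * ((3 * X : ℕ) : ℝ) / (s : ℝ)) ((s : ℝ) * α) ≤ W) :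
    (∑ q ∈ Icc 1 Q, ‖∑ l ∈ Ioc L (2 * L), ∑ j ∈ (Icc 1 (3 * X / L)).filter
        (fun j => A < l * j ∧ l * j ≤ B ∧ l * j ≡ c q [MOD q]),
        (u l : ℂ) * (v j : ℂ) * GT.e (α * ((l * j : ℕ) : ℝ))‖) ^ 2 ≤
      (L * (Real.log (3 * X)) ^ 2) * ((((3 * X / L : ℕ) : ℝ) * (1 + Real.log (3 * X)) ^ 3) *
        (2 * (2 * L * (1 + Real.log (3 * X)) ^ 4 + W))) := by
  set J := 3 * X / L with hJ
  have hJ1 : 1 ≤ J := (Nat.one_le_div_iff hL).mpr hLX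
  have hLJ : L * J ≤ 3 * X := Nat.mul_div_le _ _
  have hJX : J ≤ 3 * X := Nat.div_le_self _ _
  have hlX : 0 ≤ Real.log (3 * X) := by
    apply Real.log_nonneg
    have : (1 : ℝ) ≤ X := by exact_mod_cast hX
    linarith
  -- the pieces
  set f : ℕ × ℕ → ℕ → ℂ := fun p l =>
    if A < l * p.2 ∧ l * p.2 ≤ B ∧ l * p.2 ≡ c p.1 [MOD p.1] then
      GT.e (α * ((l * p.2 : ℕ) : ℝ)) else 0 with hf
  set Sq : ℕ → ℂ := fun q => ∑ l ∈ Ioc L (2 * L), ∑ j ∈ (Icc 1 J).filter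
        (fun j => A < l * j ∧ l * j ≤ B ∧ l * j ≡ c q [MOD q]),
        (u l : ℂ) * (v j : ℂ) * GT.e (α * ((l * j : ℕ) : ℝ)) with hSq
  have hSq' : ∀ q, Sq q = ∑ l ∈ Ioc L (2 * L), (u l : ℂ) * ∑ j ∈ Icc 1 J, (v j : ℂ) * f (q, j) l := by
    intro q
    rw [hSq]
    refine sum_congr rfl fun l _ => ?_
    rw [sum_filter, mul_sum]
    refine sum_congr rfl fun j _ => ?_
    rw [hf]
    simp only
    split_ifs
    · ring
    · simp
  -- the signs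
  set θ : ℕ → ℂ := fun q => (starRingEnd ℂ) (Sq q) / (‖Sq q‖ : ℂ) with hθ
  have hθ1 : ∀ q, ‖θ q‖ ≤ 1 := by
    intro q
    rw [hθ]
    simp only
    rw [norm_div, Complex.norm_conj, Complex.norm_real, norm_norm]
    exact div_self_le_one _
  have hθ2 : ∀ q, θ q * Sq q = (‖Sq q‖ : ℂ) := by
    intro q
    rw [hθ]
    simp only
    by_cases h0 : Sq q = 0
    · simp [h0]
    · have h1 : (‖Sq q‖ : ℂ) ≠ 0 := by
        rw [Complex.ofReal_ne_zero]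
        exact norm_ne_zero_iff.mpr h0
      rw [div_mul_eq_mul_div, div_eq_iff h1, mul_comm, Complex.mul_conj, Complex.normSq_eq_norm_sq]
      push_cast
      ring
  set a : ℕ × ℕ → ℂ := fun p => θ p.1 * (v p.2 : ℂ) with ha
  have ha1 : ∀ p, ‖a p‖ ≤ (p.2.divisors.card : ℝ) := by
    intro p
    rw [ha]
    simp only
    rw [norm_mul, Complex.norm_real, Real.norm_eq_abs]
    calc _ ≤ 1 * |v p.2| := mul_le_mul_of_nonneg_right (hθ1 _) (abs_nonneg _)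
      _ ≤ _ := by rw [one_mul]; exact hv _
  set T := Icc 1 Q ×ˢ Icc 1 J with hT
  have hsum : ((∑ q ∈ Icc 1 Q, ‖Sq q‖ : ℝ) : ℂ) =
      ∑ l ∈ Ioc L (2 * L), (u l : ℂ) * ∑ p ∈ T, a p * f p l := by
    rw [Complex.ofReal_sum]
    rw [sum_congr rfl (fun q _ => (hθ2 q).symm)]
    have h1 : ∀ q ∈ Icc 1 Q, θ q * Sq q = ∑ l ∈ Ioc L (2 * L),
        (u l : ℂ) * ∑ j ∈ Icc 1 J, a (q, j) * f (q, j) l := by
      intro q _
      rw [hSq' q, mul_sum]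
      refine sum_congr rfl fun l _ => ?_
      rw [mul_left_comm, mul_sum]
      congr 1
      refine sum_congr rfl fun j _ => ?_
      rw [ha]
      simp only
      ring
    rw [sum_congr rfl h1, sum_comm]
    refine sum_congr rfl fun l _ => ?_
    rw [← mul_sum, hT, sum_product]
  have hnn : 0 ≤ ∑ q ∈ Icc 1 Q, ‖Sq q‖ := sum_nonneg fun _ _ => norm_nonneg _
  have h1 : ∑ q ∈ Icc 1 Q, ‖Sq q‖ ≤ ∑ l ∈ Ioc L (2 * L), |u l| * ‖∑ p ∈ T, a p * f p l‖ := by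
    have h2 : ∑ q ∈ Icc 1 Q, ‖Sq q‖ = ‖((∑ q ∈ Icc 1 Q, ‖Sq q‖ : ℝ) : ℂ)‖ := by
      rw [Complex.norm_real, Real.norm_of_nonneg hnn]
    rw [h2, hsum]
    refine (norm_sum_le _ _).trans (sum_le_sum fun l _ => ?_)
    rw [norm_mul, Complex.norm_real, Real.norm_eq_abs]
  have h2 : (∑ q ∈ Icc 1 Q, ‖Sq q‖) ^ 2 ≤
      (∑ l ∈ Ioc L (2 * L), |u l| ^ 2) * ∑ l ∈ Ioc L (2 * L), ‖∑ p ∈ T, a p * f p l‖ ^ 2 :=
    (pow_le_pow_left₀ hnn h1 2).trans (Finset.sum_mul_sq_le_sq_mul_sq _ _ _)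
  have h3 : ∑ l ∈ Ioc L (2 * L), |u l| ^ 2 ≤ L * (Real.log (3 * X)) ^ 2 := by
    calc _ ≤ ∑ l ∈ Ioc L (2 * L), (Real.log (3 * X)) ^ 2 :=
          sum_le_sum fun l _ => pow_le_pow_left₀ (abs_nonneg _) (hu l) 2
      _ = _ := by
          rw [sum_const, Nat.card_Ioc, nsmul_eq_mul]
          congr 2
          omega
  refine h2.trans ?_
  refine mul_le_mul h3 ?_ (sum_nonneg fun _ _ => by positivity) (by positivity)
  -- the dual sum
  set g : ℕ → ℕ → ℝ := fun m h => SW.gmin (2 * L / m) (m * (h * α)) with hg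
  have hg0 : ∀ m h, 0 ≤ g m h := fun m h => SW.gmin_nonneg _ _ (by positivity)
  refine (Tii_dual _ T a f).trans ?_
  have h4 : ∀ p ∈ T, ∀ p' ∈ T, ‖a p‖ * ‖a p'‖ *
      ‖∑ l ∈ Ioc L (2 * L), f p l * (starRingEnd ℂ) (f p' l)‖ ≤
      ((p.2.divisors.card : ℝ) ^ 2 + (p'.2.divisors.card : ℝ) ^ 2) / 2 *
        g (Nat.lcm p.1 p'.1) (Nat.dist p.2 p'.2) := by
    intro p hp p' hp'
    rw [hT, mem_product] at hp hp'
    obtain ⟨hp1, hp2⟩ := hp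
    obtain ⟨hp1', hp2'⟩ := hp'
    have hcp := hc p.1 hp1
    have hcp' := hc p'.1 hp1'
    rw [mem_Icc] at hp1 hp2 hp1' hp2'
    have hlcm : Nat.lcm p.1 p'.1 ≤ L := by
      refine (Nat.le_of_dvd (Nat.mul_pos (by omega) (by omega)) (Nat.lcm_dvd_mul _ _)).trans ?_
      refine le_trans ?_ hQL
      rw [pow_two]
      exact Nat.mul_le_mul hp1.2 hp1'.2
    have h5 := Tii_inner α L A B p.1 p'.1 (c p.1) (c p'.1) p.2 p'.2 hp1.1 hp1'.1 hlcm hp2.1 hp2'.1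
      hcp hcp'
    have h6 : ∑ l ∈ Ioc L (2 * L), f p l * (starRingEnd ℂ) (f p' l) =
        ∑ l ∈ (Ioc L (2 * L)).filter (fun l =>
          (A < l * p.2 ∧ l * p.2 ≤ B ∧ l * p.2 ≡ c p.1 [MOD p.1]) ∧
          (A < l * p'.2 ∧ l * p'.2 ≤ B ∧ l * p'.2 ≡ c p'.1 [MOD p'.1])),
        GT.e (α * ((l * p.2 : ℕ) : ℝ)) * (starRingEnd ℂ) (GT.e (α * ((l * p'.2 : ℕ) : ℝ))) := by
      rw [sum_filter]
      refine sum_congr rfl fun l _ => ?_
      rw [hf]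
      simp only
      by_cases e1 : (A < l * p.2 ∧ l * p.2 ≤ B ∧ l * p.2 ≡ c p.1 [MOD p.1])
      · by_cases e2 : (A < l * p'.2 ∧ l * p'.2 ≤ B ∧ l * p'.2 ≡ c p'.1 [MOD p'.1])
        · rw [if_pos e1, if_pos e2, if_pos ⟨e1, e2⟩]
        · rw [if_neg e2, map_zero, mul_zero, if_neg (fun h => e2 h.2)]
      · rw [if_neg e1, zero_mul, if_neg (fun h => e1 h.1)]
    rw [h6]
    have h7 : ‖a p‖ * ‖a p'‖ ≤ ((p.2.divisors.card : ℝ) ^ 2 + (p'.2.divisors.card : ℝ) ^ 2) / 2 := by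
      calc ‖a p‖ * ‖a p'‖ ≤ (p.2.divisors.card : ℝ) * (p'.2.divisors.card : ℝ) :=
            mul_le_mul (ha1 p) (ha1 p') (norm_nonneg _) (by positivity)
        _ ≤ _ := by nlinarith [sq_nonneg ((p.2.divisors.card : ℝ) - (p'.2.divisors.card : ℝ))]
    exact mul_le_mul h7 h5 (norm_nonneg _) (by positivity)
  refine (sum_le_sum fun p hp => sum_le_sum fun p' hp' => h4 p hp p' hp').trans ?_
  -- symmetry
  have h5 : ∑ p ∈ T, ∑ p' ∈ T, ((p.2.divisors.card : ℝ) ^ 2 + (p'.2.divisors.card : ℝ) ^ 2) / 2 *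
        g (Nat.lcm p.1 p'.1) (Nat.dist p.2 p'.2) =
      ∑ p ∈ T, ∑ p' ∈ T, (p.2.divisors.card : ℝ) ^ 2 *
        g (Nat.lcm p.1 p'.1) (Nat.dist p.2 p'.2) := by
    have e1 : ∑ p ∈ T, ∑ p' ∈ T, (p'.2.divisors.card : ℝ) ^ 2 *
        g (Nat.lcm p.1 p'.1) (Nat.dist p.2 p'.2) =
        ∑ p ∈ T, ∑ p' ∈ T, (p.2.divisors.card : ℝ) ^ 2 *
        g (Nat.lcm p.1 p'.1) (Nat.dist p.2 p'.2) := by
      rw [sum_comm]
      refine sum_congr rfl fun p _ => sum_congr rfl fun p' _ => ?_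
      rw [Nat.lcm_comm, Nat.dist_comm]
    have e2 : ∑ p ∈ T, ∑ p' ∈ T, ((p.2.divisors.card : ℝ) ^ 2 + (p'.2.divisors.card : ℝ) ^ 2) / 2 *
        g (Nat.lcm p.1 p'.1) (Nat.dist p.2 p'.2) =
        (∑ p ∈ T, ∑ p' ∈ T, (p.2.divisors.card : ℝ) ^ 2 *
        g (Nat.lcm p.1 p'.1) (Nat.dist p.2 p'.2) + ∑ p ∈ T, ∑ p' ∈ T,
        (p'.2.divisors.card : ℝ) ^ 2 * g (Nat.lcm p.1 p'.1) (Nat.dist p.2 p'.2)) / 2 := by
      rw [← sum_add_distrib, sum_div]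
      refine sum_congr rfl fun p _ => ?_
      rw [← sum_add_distrib, sum_div]
      refine sum_congr rfl fun p' _ => ?_
      ring
    rw [e2, e1]
    ring
  rw [h5, hT]
  -- rearrangement
  have hIcc : Icc 1 J = Ioc 0 J := by
    ext x
    rw [mem_Icc, mem_Ioc]
    omega
  have h6 : ∑ p ∈ Icc 1 Q ×ˢ Icc 1 J, ∑ p' ∈ Icc 1 Q ×ˢ Icc 1 J, (p.2.divisors.card : ℝ) ^ 2 *
        g (Nat.lcm p.1 p'.1) (Nat.dist p.2 p'.2) ≤
      (∑ j ∈ Icc 1 J, (j.divisors.card : ℝ) ^ 2) *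
        (2 * ∑ q1 ∈ Icc 1 Q, ∑ q2 ∈ Icc 1 Q, ∑ h ∈ range (J + 1), g (Nat.lcm q1 q2) h) := by
    rw [sum_product]
    have e1 : ∀ q1 ∈ Icc 1 Q, ∑ j ∈ Icc 1 J, ∑ p' ∈ Icc 1 Q ×ˢ Icc 1 J,
        (j.divisors.card : ℝ) ^ 2 * g (Nat.lcm q1 p'.1) (Nat.dist j p'.2) ≤
        (∑ j ∈ Icc 1 J, (j.divisors.card : ℝ) ^ 2) *
          (2 * ∑ q2 ∈ Icc 1 Q, ∑ h ∈ range (J + 1), g (Nat.lcm q1 q2) h) := by
      intro q1 _
      rw [sum_mul]
      refine sum_le_sum fun j hj => ?_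
      rw [mem_Icc] at hj
      rw [← mul_sum]
      refine mul_le_mul_of_nonneg_left ?_ (by positivity)
      rw [sum_product, mul_sum]
      refine sum_le_sum fun q2 _ => ?_
      simp only
      rw [hIcc]
      exact SW.sum_dist_le (fun h => g (Nat.lcm q1 q2) h) (fun h => hg0 _ _) 0 J j hj.2
    refine (sum_le_sum e1).trans (le_of_eq ?_)
    rw [← mul_sum, ← mul_sum]
  refine h6.trans ?_
  have h7 : ∑ j ∈ Icc 1 J, (j.divisors.card : ℝ) ^ 2 ≤ (J : ℝ) * (1 + Real.log (3 * X)) ^ 3 := by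
    refine (SW.sum_divisors_sq_le J hJ1).trans ?_
    refine mul_le_mul_of_nonneg_left ?_ (by positivity)
    have e1 : 0 ≤ Real.log J := Real.log_natCast_nonneg _
    have e2 : Real.log J ≤ Real.log (3 * X) := by
      apply Real.log_le_log (by exact_mod_cast hJ1)
      exact_mod_cast hJX
    gcongr
  have h8 : ∑ q1 ∈ Icc 1 Q, ∑ q2 ∈ Icc 1 Q, ∑ h ∈ range (J + 1), g (Nat.lcm q1 q2) h ≤
      2 * L * (1 + Real.log (3 * X)) ^ 4 + W := by
    have e1 := Tii_lcm Q (fun m => ∑ h ∈ range (J + 1), g m h)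
      (fun m => sum_nonneg fun h _ => hg0 m h)
    refine e1.trans ?_
    have e2 : ∀ m ∈ Icc 1 (Q ^ 2), (m.divisors.card : ℝ) ^ 2 * ∑ h ∈ range (J + 1), g m h =
        (m.divisors.card : ℝ) ^ 2 * g m 0 + (m.divisors.card : ℝ) ^ 2 * ∑ h ∈ Icc 1 J, g m h := by
      intro m _
      rw [← mul_add]
      congr 1
      have e3 : range (J + 1) = insert 0 (Icc 1 J) := by
        ext x
        rw [mem_range, mem_insert, mem_Icc]
        omega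
      rw [e3, sum_insert (by rw [mem_Icc]; omega)]
    rw [sum_congr rfl e2, sum_add_distrib]
    refine add_le_add ?_ ?_
    · rcases Nat.eq_zero_or_pos (Q ^ 2) with hQ0 | hQ0
      · rw [hQ0]
        simp only [Icc_eq_empty_of_lt (by norm_num : (0 : ℕ) < 1), sum_empty]
        positivity
      · calc ∑ m ∈ Icc 1 (Q ^ 2), (m.divisors.card : ℝ) ^ 2 * g m 0 ≤
            ∑ m ∈ Icc 1 (Q ^ 2), (2 * L) * ((m.divisors.card : ℝ) ^ 2 / m) := by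
              refine sum_le_sum fun m _ => ?_
              have e3 : g m 0 ≤ 2 * L / m := SW.gmin_le _ _ (by positivity)
              calc _ ≤ (m.divisors.card : ℝ) ^ 2 * (2 * L / m) :=
                    mul_le_mul_of_nonneg_left e3 (by positivity)
                _ = _ := by ring
          _ = 2 * L * ∑ m ∈ Icc 1 (Q ^ 2), (m.divisors.card : ℝ) ^ 2 / m := by rw [← mul_sum]
          _ ≤ 2 * L * (1 + Real.log (Q ^ 2 : ℕ)) ^ 4 :=
              mul_le_mul_of_nonneg_left (SW.sum_divisors_sq_div_le _ hQ0) (by positivity)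
          _ ≤ 2 * L * (1 + Real.log (3 * X)) ^ 4 := by
              have e4 : 0 ≤ Real.log ((Q ^ 2 : ℕ) : ℝ) := Real.log_natCast_nonneg _
              have e5 : Real.log ((Q ^ 2 : ℕ) : ℝ) ≤ Real.log (3 * X) := by
                apply Real.log_le_log (by exact_mod_cast hQ0)
                exact_mod_cast hQL.trans hLX
              gcongr
    · refine (Tii_prod (Q ^ 2) J g (fun s => SW.gmin (2 * ((3 * X : ℕ) : ℝ) / (s : ℝ)) ((s : ℝ) * α))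
        (fun s => SW.gmin_nonneg _ _ (by positivity)) ?_).trans hW
      intro m hm h hh
      rw [mem_Icc] at hm hh
      have hm0 : (0 : ℝ) < m := by exact_mod_cast hm.1
      have hh0 : (0 : ℝ) < h := by exact_mod_cast hh.1
      rw [hg]
      simp only
      have e3 : (((m * h : ℕ) : ℝ)) * α = m * (h * α) := by push_cast; ring
      rw [e3]
      apply SW.gmin_mono _ _ _ (by positivity)
      rw [div_le_div_iff₀ hm0 (by push_cast; exact mul_pos hm0 hh0)]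
      have e4 : L * h ≤ 3 * X := (Nat.mul_le_mul_left L hh.2).trans hLJ
      have e5 : (L : ℝ) * h ≤ ((3 * X : ℕ) : ℝ) := by exact_mod_cast e4
      push_cast at e5 ⊢
      nlinarith
  have h9 : 0 ≤ ∑ q1 ∈ Icc 1 Q, ∑ q2 ∈ Icc 1 Q, ∑ h ∈ range (J + 1), g (Nat.lcm q1 q2) h :=
    sum_nonneg fun _ _ => sum_nonneg fun _ _ => sum_nonneg fun _ _ => hg0 _ _
  refine mul_le_mul h7 (mul_le_mul_of_nonneg_left h8 (by norm_num)) (by positivity) (by positivity)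

theorem tii : ∃ D X₀ : ℕ, ∀ X : ℕ, X₀ ≤ X → ∀ (L Q A B : ℕ) (α : ℝ) (b : ℤ) (r : ℕ) (u v : ℕ → ℝ)
    (c : ℕ → ℕ), 1 ≤ L → L ≤ 3 * X → Q ^ 2 ≤ L → B ≤ 3 * X → 1 ≤ r → r ≤ X → IsCoprime b (r : ℤ) →
    |α - b / r| ≤ 1 / (r : ℝ) ^ 2 → (∀ l, |u l| ≤ Real.log (3 * X)) →
    (∀ j, |v j| ≤ (j.divisors.card : ℝ)) → (∀ q ∈ Icc 1 Q, (c q).Coprime q) →
    ∑ q ∈ Icc 1 Q, ‖∑ l ∈ Ioc L (2 * L), ∑ j ∈ (Icc 1 (3 * X / L)).filter
        (fun j => A < l * j ∧ l * j ≤ B ∧ l * j ≡ c q [MOD q]),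
        (u l : ℂ) * (v j : ℂ) * GT.e (α * ((l * j : ℕ) : ℝ))‖ ≤
      (Real.log X) ^ D * Real.sqrt (X * L + X * Real.sqrt (X * (X / r + Q ^ 2 * X / L + r))) := by
  obtain ⟨D₁, X₁, hvs⟩ := vs 3
  refine ⟨D₁ + 20, max X₁ 1000, ?_⟩
  intro X hX L Q A B α b r u v c hL hLX hQL hB hr hrX hcop hα hu hv hc
  have hX1 : X₁ ≤ X := (le_max_left _ _).trans hX
  have hX2 : 1000 ≤ X := (le_max_right _ _).trans hX
  have hXR : (1000 : ℝ) ≤ X := by exact_mod_cast hX2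
  have hLR : (1 : ℝ) ≤ L := by exact_mod_cast hL
  have hrR : (1 : ℝ) ≤ r := by exact_mod_cast hr
  set ℓ := Real.log X with hℓ
  have hℓ1 : 3 ≤ ℓ := by
    rw [hℓ, Real.le_log_iff_exp_le (by linarith)]
    have h1 : Real.exp 3 = Real.exp 1 ^ 3 := by
      rw [← Real.exp_nat_mul]
      norm_num
    have h2 := Real.exp_one_lt_d9
    have h3 : Real.exp 1 ^ 3 ≤ 3 ^ 3 := pow_le_pow_left₀ (Real.exp_pos _).le (by linarith) 3
    rw [h1]
    linarith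
  have hlog3 : Real.log (3 * X) ≤ 2 * ℓ := by
    have h1 : Real.log (3 * X) ≤ Real.log ((X : ℝ) ^ 2) := by
      apply Real.log_le_log (by positivity)
      nlinarith
    rwa [Real.log_pow, Nat.cast_ofNat] at h1
  have hlog3' : 0 ≤ Real.log (3 * X) := Real.log_nonneg (by linarith)
  set J := 3 * X / L with hJ
  have hLJ : L * J ≤ 3 * X := Nat.mul_div_le _ _
  have hLJR : (L : ℝ) * J ≤ 3 * X := by exact_mod_cast hLJ
  have hM : Q ^ 2 * J ≤ 3 * X := (Nat.mul_le_mul_right J hQL).trans hLJ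
  have hW := hvs (3 * X) (by omega) α b r (Q ^ 2 * J) hr (by omega) hcop hα hM
  set E := (X : ℝ) / r + Q ^ 2 * X / L + r with hE
  have hE0 : 0 ≤ E := by positivity
  have hE' : ((3 * X : ℕ) : ℝ) * (((3 * X : ℕ) : ℝ) / r + ((Q ^ 2 * J : ℕ) : ℝ) + r) ≤
      9 * (X * E) := by
    have h1 : (J : ℝ) ≤ 3 * X / L := by
      rw [le_div_iff₀ (by linarith)]
      linarith
    have h2 : ((Q ^ 2 * J : ℕ) : ℝ) ≤ 3 * (Q ^ 2 * X / L) := by
      push_cast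
      calc (Q : ℝ) ^ 2 * J ≤ (Q : ℝ) ^ 2 * (3 * X / L) :=
            mul_le_mul_of_nonneg_left h1 (by positivity)
        _ = _ := by ring
    have h3 : ((3 * X : ℕ) : ℝ) / r + ((Q ^ 2 * J : ℕ) : ℝ) + r ≤ 3 * E := by
      rw [hE]
      have : ((3 * X : ℕ) : ℝ) / r = 3 * (X / r) := by push_cast; ring
      rw [this]
      linarith
    calc _ ≤ ((3 * X : ℕ) : ℝ) * (3 * E) := mul_le_mul_of_nonneg_left h3 (by positivity)
      _ = _ := by push_cast; ring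
  have hsq9 : Real.sqrt (9 * (X * E)) = 3 * Real.sqrt (X * E) := by
    rw [Real.sqrt_mul (by norm_num), show (9 : ℝ) = 3 ^ 2 by norm_num, Real.sqrt_sq (by norm_num)]
  set R := Real.sqrt (X * E) with hR
  have hR0 : 0 ≤ R := Real.sqrt_nonneg _
  have hW2 : ∑ s ∈ Icc 1 (Q ^ 2 * J), (s.divisors.card : ℝ) ^ 3 *
      SW.gmin (2 * (3 * X : ℕ) / s) (s * α) ≤ (2 * ℓ) ^ D₁ * (3 * R) := by
    refine hW.trans ?_
    rw [← hsq9]
    have h1 : Real.log ((3 * X : ℕ) : ℝ) = Real.log (3 * X) := by push_cast; rfl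
    rw [h1]
    refine mul_le_mul (pow_le_pow_left₀ hlog3' hlog3 _) (Real.sqrt_le_sqrt hE')
      (Real.sqrt_nonneg _) (by positivity)
  have hmain := Tii_square X L Q A B α u v c _ (by omega) hL hLX hQL hu hv hc hW2
  set Y := ∑ q ∈ Icc 1 Q, ‖∑ l ∈ Ioc L (2 * L), ∑ j ∈ (Icc 1 (3 * X / L)).filter
        (fun j => A < l * j ∧ l * j ≤ B ∧ l * j ≡ c q [MOD q]),
        (u l : ℂ) * (v j : ℂ) * GT.e (α * ((l * j : ℕ) : ℝ))‖ with hY
  have hfin : Y ^ 2 ≤ (ℓ ^ (D₁ + 20)) ^ 2 * (X * L + X * R) := by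
    refine hmain.trans ?_
    have a1 : 1 + Real.log (3 * X) ≤ 3 * ℓ := by linarith
    have a2 : 0 ≤ 1 + Real.log (3 * X) := by linarith
    have b1 : (Real.log (3 * X)) ^ 2 ≤ (2 * ℓ) ^ 2 := pow_le_pow_left₀ hlog3' hlog3 _
    have b2 : (1 + Real.log (3 * X)) ^ 3 ≤ (3 * ℓ) ^ 3 := pow_le_pow_left₀ a2 a1 _
    have b3 : (1 + Real.log (3 * X)) ^ 4 ≤ (3 * ℓ) ^ 4 := pow_le_pow_left₀ a2 a1 _
    have hℓ0 : 0 < ℓ := by linarith
    calc (L * (Real.log (3 * X)) ^ 2) * (((J : ℝ) * (1 + Real.log (3 * X)) ^ 3) *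
          (2 * (2 * L * (1 + Real.log (3 * X)) ^ 4 + (2 * ℓ) ^ D₁ * (3 * R)))) ≤
        (L * (2 * ℓ) ^ 2) * (((J : ℝ) * (3 * ℓ) ^ 3) *
          (2 * (2 * L * (3 * ℓ) ^ 4 + (2 * ℓ) ^ D₁ * (3 * R)))) := by
          gcongr
      _ = (L * J) * (4 * 27 * 2 * ℓ ^ 5 * (162 * L * ℓ ^ 4 + 3 * (2 * ℓ) ^ D₁ * R)) := by ring
      _ ≤ (3 * X) * (4 * 27 * 2 * ℓ ^ 5 * (162 * L * ℓ ^ 4 + 3 * (2 * ℓ) ^ D₁ * R)) := by
          gcongr
      _ = (104976 * ℓ ^ 9) * (X * L) + (1944 * ℓ ^ 5 * (2 * ℓ) ^ D₁) * (X * R) := by ring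
      _ ≤ (ℓ ^ (D₁ + 20)) ^ 2 * (X * L) + (ℓ ^ (D₁ + 20)) ^ 2 * (X * R) := by
          have hp : (3 : ℝ) ^ 11 ≤ ℓ ^ 11 := pow_le_pow_left₀ (by norm_num) hℓ1 11
          have hone : 1 ≤ ℓ := by linarith
          have c1 : 104976 * ℓ ^ 9 ≤ (ℓ ^ (D₁ + 20)) ^ 2 := by
            calc 104976 * ℓ ^ 9 ≤ ℓ ^ 11 * ℓ ^ 9 := by
                  refine mul_le_mul_of_nonneg_right ?_ (by positivity)
                  refine le_trans ?_ hp
                  norm_num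
              _ = ℓ ^ 20 := by ring
              _ ≤ ℓ ^ ((D₁ + 20) * 2) := pow_le_pow_right₀ hone (by omega)
              _ = _ := by rw [pow_mul]
          have c2 : 1944 * ℓ ^ 5 * (2 * ℓ) ^ D₁ ≤ (ℓ ^ (D₁ + 20)) ^ 2 := by
            have d1 : (2 * ℓ) ^ D₁ ≤ (ℓ ^ 2) ^ D₁ := by
              refine pow_le_pow_left₀ (by positivity) ?_ _
              nlinarith
            calc 1944 * ℓ ^ 5 * (2 * ℓ) ^ D₁ ≤ ℓ ^ 11 * ℓ ^ 5 * (ℓ ^ 2) ^ D₁ := by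
                  gcongr
                  refine le_trans ?_ hp
                  norm_num
              _ = ℓ ^ (16 + 2 * D₁) := by
                  rw [← pow_mul, ← pow_add, ← pow_add]
              _ ≤ ℓ ^ ((D₁ + 20) * 2) := pow_le_pow_right₀ hone (by omega)
              _ = _ := by rw [pow_mul]
          gcongr
      _ = _ := by ring
  have hY0 : 0 ≤ Y := sum_nonneg fun _ _ => norm_nonneg _
  have h1 := Real.sqrt_le_sqrt hfin
  rw [Real.sqrt_sq hY0, Real.sqrt_mul (by positivity), Real.sqrt_sq (by positivity)] at h1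
  exact h1

end Pool.Agent.Lib.SG
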