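import Pool.Agent.Lib.SG.Ti
import Pool.Agent.Lib.SG.Tii
import Pool.Agent.Lib.SG.MinorLA
import Pool.Agent.Lib.SW.Vaughan
import Pool.Agent.Lib.BV.Defs

/-!
# SG-MinorL: the primes in classes with a twist on the minor arcs (the proof is in MinorLA)
-/

set_option autoImplicit false

open Finset

namespace Pool.Agent.Lib.SG

theorem minorL (A : ℕ) : ∃ G X₀ : ℕ, ∀ X : ℕ, X₀ ≤ X → ∀ a : ℕ, a ≤ X → ∀ (α : ℝ) (b : ℤ) (r : ℕ),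
    IsCoprime b (r : ℤ) → (Real.log X) ^ G ≤ r → (r : ℝ) ≤ X / (Real.log X) ^ G →
    |α - b / r| ≤ 1 / (r : ℝ) ^ 2 → ∀ Q : ℕ, (Q : ℝ) ≤ (X : ℝ) ^ (1 / 50 : ℝ) →
    ∀ c : ℕ → ℕ, (∀ q ∈ Icc 1 Q, (c q).Coprime q) →
    ∑ q ∈ Icc 1 Q, ‖∑ n ∈ (Ioc (X + a) (2 * X + a)).filter (fun n => n ≡ c q [MOD q]),
      (BV.th n : ℂ) * GT.e (α * n)‖ ≤ X / (Real.log X) ^ A :=
  minorL_of A tii

end Pool.Agent.Lib.SG
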