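import Pool.Agent.Lib.SG.Defs
import Pool.Agent.Lib.SW.TypeSums

/-!
# SG-Ti: the inner sums of type I in a residue class

PROOF. The k with `A < d k ≤ B`, `d k ≡ c [MOD q]`: since (c, q) = 1 the congruence has a solution only if (d, q) = 1, and then it means
`k ≡ k₀ [MOD q]` for one k₀ < q. So k = k₀ + q l, l in an interval (K₁, K₂] of naturals (or empty) with at most `X/(d q) + 1 ≤ 2X/(d q)` elements
(d q ≤ X), and `e(α d k) = e(α d k₀) e(d q α l)`: `SW.geom_le` with β = (d q) α, T = 2X/(dq) (`gmin` is monotone in T). For the logarithm: Abel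
summation over l with the monotone weights `log(k₀ + q l) ∈ [0, log 3X]`: at most `2 log(3X)` times the largest partial sum, all partial
sums are bounded in the same way (write the statement first for a general sub-interval A ≤ A' ≤ B' ≤ B and use monotonicity; k ≥ 1 so
log k ≥ 0).
-/

set_option autoImplicit false

open Finset

namespace Pool.Agent.Lib.SG

private theorem Ti_range (T β : ℝ) (N : ℕ) (hN : (N : ℝ) + 1 ≤ T) :
    ‖∑ l ∈ range (N + 1), GT.e ((l : ℝ) * β)‖ ≤ SW.gmin T β := by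
  have h1 : ∑ l ∈ range (N + 1), GT.e ((l : ℝ) * β) =
      GT.e (-β) * ∑ l ∈ Ioc 0 (N + 1), GT.e ((l : ℝ) * β) := by
    rw [mul_sum]
    refine sum_bij (fun l _ => l + 1) ?_ ?_ ?_ ?_
    · intro l hl
      rw [mem_range] at hl
      rw [mem_Ioc]
      omega
    · intro l _ l' _ h
      omega
    · intro k hk
      rw [mem_Ioc] at hk
      exact ⟨k - 1, by rw [mem_range]; omega, by omega⟩
    · intro l _
      rw [← GT.e_add]
      congr 1
      push_cast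
      ring
  rw [h1, norm_mul, GT.norm_e, one_mul]
  apply SW.geom_le _ _ _ _ (Nat.zero_le _)
  push_cast
  linarith

private theorem Ti_gen (X A B d q c K : ℕ) (α : ℝ) (hd : 1 ≤ d) (hq : 1 ≤ q) (hdq : d * q ≤ X)
    (hBA : B ≤ A + X) (hc : Nat.Coprime c q) :
    ‖∑ k ∈ (Icc 1 K).filter (fun k => A < d * k ∧ d * k ≤ B ∧ d * k ≡ c [MOD q]),
      GT.e (α * ((d * k : ℕ) : ℝ))‖ ≤ SW.gmin (2 * X / ((d * q : ℕ) : ℝ)) (((d * q : ℕ) : ℝ) * α) := by
  set F := (Icc 1 K).filter (fun k => A < d * k ∧ d * k ≤ B ∧ d * k ≡ c [MOD q]) with hF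
  rcases F.eq_empty_or_nonempty with h0 | hne
  · rw [h0, sum_empty, norm_zero]
    exact SW.gmin_nonneg _ _ (by positivity)
  have hmem : ∀ k, k ∈ F ↔ (1 ≤ k ∧ k ≤ K) ∧ A < d * k ∧ d * k ≤ B ∧ d * k ≡ c [MOD q] := by
    intro k
    rw [hF, mem_filter, mem_Icc]
  obtain ⟨a, haF, hamin⟩ : ∃ a ∈ F, ∀ k ∈ F, a ≤ k := ⟨F.min' hne, F.min'_mem hne, fun k hk => F.min'_le k hk⟩
  obtain ⟨b, hbF, hbmax⟩ : ∃ b ∈ F, ∀ k ∈ F, k ≤ b := ⟨F.max' hne, F.max'_mem hne, fun k hk => F.le_max' k hk⟩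
  obtain ⟨⟨ha1, ha2⟩, ha3, ha4, ha5⟩ := (hmem a).1 haF
  obtain ⟨⟨hb1, hb2⟩, hb3, hb4, hb5⟩ := (hmem b).1 hbF
  have hdcop : Nat.Coprime q d := by
    have h1 : Nat.gcd (d * a) q = Nat.gcd c q := ha5.gcd_eq
    have h2 : Nat.Coprime (d * a) q := by
      unfold Nat.Coprime at hc ⊢
      rw [h1, hc]
    exact (Nat.Coprime.coprime_mul_right h2).symm
  have hmod : ∀ k ∈ F, k ≡ a [MOD q] := by
    intro k hk
    obtain ⟨-, -, -, hk5⟩ := (hmem k).1 hk
    exact Nat.ModEq.cancel_left_of_coprime hdcop (hk5.trans ha5.symm)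
  -- the number of steps
  have hab : a ≤ b := hamin b hbF
  obtain ⟨N, hN⟩ : ∃ N, b = a + q * N := by
    have h1 := (Nat.modEq_iff_dvd' hab).1 (hmod b hbF).symm
    obtain ⟨N, hN⟩ := h1
    exact ⟨N, by omega⟩
  have hsum : ∑ k ∈ F, GT.e (α * ((d * k : ℕ) : ℝ)) =
      GT.e (α * ((d * a : ℕ) : ℝ)) * ∑ l ∈ range (N + 1), GT.e ((l : ℝ) * (((d * q : ℕ) : ℝ) * α)) := by
    rw [mul_sum]
    symm
    refine sum_bij (fun l _ => a + q * l) ?_ ?_ ?_ ?_
    · intro l hl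
      rw [mem_range] at hl
      have hl2 : q * l ≤ q * N := Nat.mul_le_mul_left _ (by omega)
      rw [hmem]
      have e1 : d * a ≤ d * (a + q * l) := Nat.mul_le_mul_left _ (by omega)
      have e2 : d * (a + q * l) ≤ d * b := Nat.mul_le_mul_left _ (by omega)
      refine ⟨⟨by omega, by omega⟩, by omega, by omega, ?_⟩
      refine Nat.ModEq.trans ?_ ha5
      apply Nat.ModEq.mul_left
      unfold Nat.ModEq
      rw [Nat.add_mul_mod_self_left]
    · intro l _ l' _ h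
      have h1 : q * l = q * l' := by
        have : a + q * l = a + q * l' := h
        omega
      exact Nat.eq_of_mul_eq_mul_left hq h1
    · intro k hk
      have h1 := (Nat.modEq_iff_dvd' (hamin k hk)).1 (hmod k hk).symm
      obtain ⟨l, hl⟩ := h1
      have h2 := hamin k hk
      have h3 := hbmax k hk
      refine ⟨l, ?_, by show a + q * l = k; omega⟩
      rw [mem_range]
      have h4 : q * l ≤ q * N := by omega
      have h5 := Nat.le_of_mul_le_mul_left h4 hq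
      omega
    · intro l _
      rw [← GT.e_add]
      congr 1
      push_cast
      ring
  rw [hsum, norm_mul, GT.norm_e, one_mul]
  apply Ti_range
  have hdq0 : 1 ≤ d * q := Nat.mul_pos hd hq
  have h1 : d * q * N ≤ X := by
    have h2 : d * b = d * a + d * q * N := by rw [hN]; ring
    omega
  have h3 : ((d * q : ℕ) : ℝ) * N ≤ X := by exact_mod_cast h1
  have h4 : ((d * q : ℕ) : ℝ) ≤ X := by exact_mod_cast hdq
  have h5 : (0 : ℝ) < ((d * q : ℕ) : ℝ) := by exact_mod_cast hdq0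
  rw [le_div_iff₀ h5]
  linarith

theorem ti (X A B d q c : ℕ) (α : ℝ) (hd : 1 ≤ d) (hq : 1 ≤ q) (hdq : d * q ≤ X) (hAB : A ≤ B)
    (hB : B ≤ 3 * X) (hBA : B ≤ A + X) (hc : Nat.Coprime c q) :
    ‖∑ k ∈ (Icc 1 (3 * X)).filter (fun k => A < d * k ∧ d * k ≤ B ∧ d * k ≡ c [MOD q]),
      GT.e (α * ((d * k : ℕ) : ℝ))‖ ≤ SW.gmin (2 * X / ((d * q : ℕ) : ℝ)) (((d * q : ℕ) : ℝ) * α) :=
  Ti_gen X A B d q c (3 * X) α hd hq hdq hBA hc

theorem ti_log (X A B d q c : ℕ) (α : ℝ) (hd : 1 ≤ d) (hq : 1 ≤ q) (hdq : d * q ≤ X) (hAB : A ≤ B)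
    (hB : B ≤ 3 * X) (hBA : B ≤ A + X) (hc : Nat.Coprime c q) :
    ‖∑ k ∈ (Icc 1 (3 * X)).filter (fun k => A < d * k ∧ d * k ≤ B ∧ d * k ≡ c [MOD q]),
      (Real.log k : ℂ) * GT.e (α * ((d * k : ℕ) : ℝ))‖ ≤
      2 * Real.log (3 * X) * SW.gmin (2 * X / ((d * q : ℕ) : ℝ)) (((d * q : ℕ) : ℝ) * α) := by
  have h := SW.abel_log (fun k => if A < d * k ∧ d * k ≤ B ∧ d * k ≡ c [MOD q] then
      GT.e (α * ((d * k : ℕ) : ℝ)) else 0)
    (SW.gmin (2 * X / ((d * q : ℕ) : ℝ)) (((d * q : ℕ) : ℝ) * α)) (3 * X) (fun k _ => by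
      rw [← sum_filter]
      exact Ti_gen X A B d q c k α hd hq hdq hBA hc)
  have e1 : ∑ k ∈ (Icc 1 (3 * X)).filter (fun k => A < d * k ∧ d * k ≤ B ∧ d * k ≡ c [MOD q]),
      (Real.log k : ℂ) * GT.e (α * ((d * k : ℕ) : ℝ)) =
      ∑ k ∈ Icc 1 (3 * X), (Real.log k : ℂ) *
        (if A < d * k ∧ d * k ≤ B ∧ d * k ≡ c [MOD q] then GT.e (α * ((d * k : ℕ) : ℝ)) else 0) := by
    rw [sum_filter]
    refine sum_congr rfl fun k _ => ?_
    rw [mul_ite, mul_zero]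
  rw [e1]
  have e2 : Real.log (3 * (X : ℝ)) = Real.log ((3 * X : ℕ) : ℝ) := by push_cast; rfl
  rw [e2]
  exact h

end Pool.Agent.Lib.SG
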