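import Pool.Agent.Lib.SG.Rtr
import Pool.Agent.Lib.SG.Ti
import Pool.Agent.Lib.SG.Vs

/-!
# SG-Rminor: the rough numbers in classes with a twist on the minor arcs

PROOF. `rtr B` with `g n = e(α n)`, A = X + a, Y = X, class c q: the error summed over q ≤ Q is at most `X^(1-c) (1 + log X)`. For every d (δ = ∏ d ≤ X^(1/1000))
the inner sum is `∑_k e(α δ k)` over `A < δ k ≤ A + X, δ k ≡ c q [MOD q]`, at most `gmin (2X/(δ q)) (δ q α)` (`ti`; d ↦ δ is injective). So the main part is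
at most `(kap z)⁻¹ ∑_{q ≤ Q} ∑_{δ ≤ X^(1/1000)} gmin (2X/(δ q)) (δ q α) ≤ C log z ∑_{s ≤ X^(1/40)} τ(s) gmin (2X/s) (s α)` (`num_kap`; s = δ q), `vs 1`:
`≤ (log X)^(D+1) √(X (X/r + X^(1/40) + r)) ≤ (log X)^(D+2) X (log X)^(-G/2)`. G = 2 (A + D + 4) does not depend on B.
-/

set_option autoImplicit false

open Finset

namespace Pool.Agent.Lib.SG

open Pool.Agent.Lib.MT

private theorem Rminor_inj (z : ℕ) : ∀ d₁ ⊆ PP 0 z, ∀ d₂ ⊆ PP 0 z,
    (∏ p ∈ d₁, p) = (∏ p ∈ d₂, p) → d₁ = d₂ := by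
  have hP : ∀ p ∈ PP 0 z, p.Prime := by
    intro p hp
    unfold PP at hp
    exact (mem_filter.1 hp).2.1
  have key : ∀ d₁ ⊆ PP 0 z, ∀ d₂ ⊆ PP 0 z, (∏ p ∈ d₁, p) = (∏ p ∈ d₂, p) → d₁ ⊆ d₂ := by
    intro d₁ h₁ d₂ h₂ h p hp
    have hpp := hP p (h₁ hp)
    have h3 : p ∣ ∏ p ∈ d₂, p := by
      rw [← h]
      exact dvd_prod_of_mem _ hp
    obtain ⟨r, hr, hpr⟩ := (Prime.dvd_finsetProd_iff hpp.prime _).1 h3
    rw [(Nat.prime_dvd_prime_iff_eq hpp (hP r (h₂ hr))).1 hpr]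
    exact hr
  intro d₁ h₁ d₂ h₂ h
  exact Subset.antisymm (key d₁ h₁ d₂ h₂ h) (key d₂ h₂ d₁ h₁ h.symm)

private theorem Rminor_pos (z : ℕ) (d : Finset ℕ) (hd : d ⊆ PP 0 z) : 1 ≤ ∏ p ∈ d, p := by
  refine Nat.one_le_iff_ne_zero.2 (prod_ne_zero_iff.2 fun p hp => ?_)
  have := hd hp
  unfold PP at this
  exact (mem_filter.1 this).2.1.ne_zero

private theorem Rminor_inner (X A δ q c : ℕ) (α : ℝ) (hδ : 1 ≤ δ) (hA : A + X ≤ 3 * X) :
    ∑ n ∈ (Ioc A (A + X)).filter (fun n => n ≡ c [MOD q] ∧ δ ∣ n), GT.e (α * n) =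
    ∑ k ∈ (Icc 1 (3 * X)).filter (fun k => A < δ * k ∧ δ * k ≤ A + X ∧ δ * k ≡ c [MOD q]),
      GT.e (α * ((δ * k : ℕ) : ℝ)) := by
  symm
  refine sum_bij (fun k _ => δ * k) ?_ ?_ ?_ ?_
  · intro k hk
    rw [mem_filter, mem_Icc] at hk
    rw [mem_filter, mem_Ioc]
    exact ⟨⟨hk.2.1, hk.2.2.1⟩, hk.2.2.2, dvd_mul_right _ _⟩
  · intro k _ l _ h
    exact Nat.eq_of_mul_eq_mul_left (by omega) h
  · intro n hn
    rw [mem_filter, mem_Ioc] at hn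
    obtain ⟨k, rfl⟩ := hn.2.2
    refine ⟨k, ?_, rfl⟩
    rw [mem_filter, mem_Icc]
    have h1 : k ≤ δ * k := Nat.le_mul_of_pos_left _ (by omega)
    have h2 : k ≠ 0 := by
      rintro rfl
      omega
    exact ⟨⟨by omega, by omega⟩, hn.1.1, hn.1.2, hn.2.1⟩
  · intro k _
    rfl

private theorem Rminor_count (z Q M : ℕ) (D : Finset (Finset ℕ)) (hD : ∀ d ∈ D, d ⊆ PP 0 z)
    (f : ℕ → ℝ) (hf : ∀ s, 0 ≤ f s)
    (hM : ∀ d ∈ D, ∀ q ∈ Icc 1 Q, (∏ p ∈ d, p) * q ≤ M) :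
    ∑ q ∈ Icc 1 Q, ∑ d ∈ D, f ((∏ p ∈ d, p) * q) ≤
      ∑ s ∈ Icc 1 M, (s.divisors.card : ℝ) ^ 1 * f s := by
  classical
  rw [← sum_product' (Icc 1 Q) D (fun q d => f ((∏ p ∈ d, p) * q))]
  have h1 : ∀ x ∈ Icc 1 Q ×ˢ D, (∏ p ∈ x.2, p) * x.1 ∈ Icc 1 M := by
    intro x hx
    rw [mem_product] at hx
    have h2 := hM x.2 hx.2 x.1 hx.1
    have h3 := Rminor_pos z x.2 (hD _ hx.2)
    rw [mem_Icc] at hx ⊢
    exact ⟨Nat.mul_pos h3 hx.1.1, h2⟩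
  rw [← sum_fiberwise_of_maps_to h1]
  refine sum_le_sum fun s hs => ?_
  have h2 : ∑ x ∈ (Icc 1 Q ×ˢ D).filter (fun x => (∏ p ∈ x.2, p) * x.1 = s),
      f ((∏ p ∈ x.2, p) * x.1) =
      ∑ x ∈ (Icc 1 Q ×ˢ D).filter (fun x => (∏ p ∈ x.2, p) * x.1 = s), f s := by
    refine sum_congr rfl fun x hx => ?_
    rw [(mem_filter.1 hx).2]
  rw [h2, sum_const, nsmul_eq_mul, pow_one]
  refine mul_le_mul_of_nonneg_right ?_ (hf s)
  norm_cast
  refine card_le_card_of_injOn (fun x => x.1) ?_ ?_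
  · intro x hx
    rw [mem_coe, mem_filter] at hx
    rw [mem_coe, Nat.mem_divisors]
    rw [mem_Icc] at hs
    exact ⟨⟨∏ p ∈ x.2, p, by rw [← hx.2, mul_comm]⟩, by omega⟩
  · intro x hx y hy hxy
    rw [mem_coe, mem_filter, mem_product, mem_Icc] at hx hy
    have hxy' : x.1 = y.1 := hxy
    have h3 : (∏ p ∈ x.2, p) = ∏ p ∈ y.2, p := by
      have h4 : (∏ p ∈ x.2, p) * x.1 = (∏ p ∈ y.2, p) * x.1 := by
        rw [hx.2]
        rw [hxy']
        exact hy.2.symm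
      exact Nat.eq_of_mul_eq_mul_right (by omega) h4
    exact Prod.ext hxy' (Rminor_inj z x.2 (hD _ hx.1.2) y.2 (hD _ hy.1.2) h3)

private theorem Rminor_harm (Q : ℕ) (L : ℝ) (hL : 0 ≤ L) (h : (Q : ℝ) ≤ Real.exp L) :
    ∑ q ∈ Icc 1 Q, 1 / (q : ℝ) ≤ 1 + L := by
  have h1 : ∑ q ∈ Icc 1 Q, 1 / (q : ℝ) = ((harmonic Q : ℚ) : ℝ) := by
    rw [harmonic_eq_sum_Icc]
    push_cast
    exact sum_congr rfl fun q _ => one_div _
  rw [h1]
  refine (harmonic_le_one_add_log Q).trans ?_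
  rcases Nat.eq_zero_or_pos Q with h0 | h0
  · subst h0
    simp only [Nat.cast_zero, Real.log_zero, add_zero]
    linarith
  · have h2 : (0 : ℝ) < Q := by exact_mod_cast h0
    have := Real.log_le_log h2 h
    rw [Real.log_exp] at this
    linarith

theorem rminor (A : ℕ) : ∃ G : ℕ, ∀ B : ℕ, ∃ X₀ : ℕ, ∀ X z a : ℕ, X₀ ≤ X → 2 ≤ z →
    (z : ℝ) ≤ (Real.log X) ^ B → a ≤ X → ∀ (α : ℝ) (b : ℤ) (r : ℕ),
    IsCoprime b (r : ℤ) → (Real.log X) ^ G ≤ r → (r : ℝ) ≤ X / (Real.log X) ^ G →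
    |α - b / r| ≤ 1 / (r : ℝ) ^ 2 → ∀ Q : ℕ, (Q : ℝ) ≤ (X : ℝ) ^ (1 / 50 : ℝ) →
    ∀ c : ℕ → ℕ, (∀ q ∈ Icc 1 Q, (c q).Coprime q) →
    ∑ q ∈ Icc 1 Q, ‖∑ n ∈ (Ioc (X + a) (2 * X + a)).filter (fun n => n ≡ c q [MOD q]),
      (rz z n : ℂ) * GT.e (α * n)‖ ≤ X / (Real.log X) ^ A := by
  obtain ⟨D, X₁, hvs⟩ := vs 1
  obtain ⟨C, hC1, hkap⟩ := num_kap
  refine ⟨2 * (A + D + 4), fun B => ?_⟩
  obtain ⟨c₀, hc₀, X₂, hrtr⟩ := rtr B
  -- the asymptotic conditions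
  have hlog : Filter.Tendsto (fun x : ℕ => Real.log (x : ℝ)) Filter.atTop Filter.atTop :=
    Real.tendsto_log_atTop.comp tendsto_natCast_atTop_atTop
  have hpow : ∀ (k : ℕ) (ε : ℝ), 0 < ε → ∀ᶠ x : ℕ in Filter.atTop,
      (Real.log (x : ℝ)) ^ k ≤ (x : ℝ) ^ ε := by
    intro k ε hε
    have h1 := (isLittleO_log_rpow_rpow_atTop (k : ℝ) hε).bound (c := 1) one_pos
    have h2 := tendsto_natCast_atTop_atTop (R := ℝ) |>.eventually h1
    filter_upwards [h2, hlog.eventually_ge_atTop 0] with x hx hx0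
    have h3 : ‖Real.log (x : ℝ) ^ (k : ℝ)‖ = (Real.log (x : ℝ)) ^ k := by
      rw [Real.rpow_natCast, Real.norm_of_nonneg (pow_nonneg hx0 k)]
    have h4 : ‖((x : ℝ)) ^ ε‖ = (x : ℝ) ^ ε := Real.norm_of_nonneg (by positivity)
    rw [h3, h4, one_mul] at hx
    exact hx
  have hev := ((hlog.eventually_ge_atTop 4).and ((hlog.eventually_ge_atTop C).and
    ((hpow B 1 one_pos).and ((hpow (A + 2) c₀ hc₀).and
    (hpow (2 * (A + D + 4)) (1 / 2) (by norm_num))))))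
  obtain ⟨X₃, hX₃⟩ := Filter.eventually_atTop.1 hev
  refine ⟨max (max X₁ X₂) (max X₃ 2), ?_⟩
  intro X z a hX hz2 hzB ha α b r hbr hGr hrG hα Q hQ c hc
  have hX1 : X₁ ≤ X := le_trans (le_trans (le_max_left _ _) (le_max_left _ _)) hX
  have hX2 : X₂ ≤ X := le_trans (le_trans (le_max_right _ _) (le_max_left _ _)) hX
  have hX3 : X₃ ≤ X := le_trans (le_trans (le_max_left _ _) (le_max_right _ _)) hX
  have hX4 : 2 ≤ X := le_trans (le_trans (le_max_right _ _) (le_max_right _ _)) hX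
  obtain ⟨hL4, hLC, hLB, hLA, hLG⟩ := hX₃ X hX3
  set L := Real.log (X : ℝ) with hL
  have hXr : (2 : ℝ) ≤ X := by exact_mod_cast hX4
  have hX0 : (0 : ℝ) < X := by linarith
  have hL0 : 0 < L := by linarith
  have hexp : Real.exp L = X := Real.exp_log hX0
  -- r
  have hLG1 : 1 ≤ L ^ (2 * (A + D + 4)) := one_le_pow₀ (by linarith)
  have hLG0 : 0 < L ^ (2 * (A + D + 4)) := by positivity
  have hr1 : 1 ≤ r := by
    have : (1 : ℝ) ≤ r := hLG1.trans hGr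
    exact_mod_cast this
  have hr0 : (0 : ℝ) < r := by exact_mod_cast hr1
  have hrX : r ≤ X := by
    have : (r : ℝ) ≤ X := hrG.trans (div_le_self hX0.le hLG1)
    exact_mod_cast this
  -- M
  set M := ⌊(X : ℝ) ^ (1 / 40 : ℝ)⌋₊ with hM
  have hMr : (M : ℝ) ≤ (X : ℝ) ^ (1 / 40 : ℝ) := Nat.floor_le (by positivity)
  have hM1 : (X : ℝ) ^ (1 / 40 : ℝ) ≤ (X : ℝ) ^ (1 / 2 : ℝ) :=
    Real.rpow_le_rpow_of_exponent_le (by linarith) (by norm_num)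
  have hM2 : (X : ℝ) ^ (1 / 2 : ℝ) ≤ X / L ^ (2 * (A + D + 4)) := by
    rw [le_div_iff₀ hLG0]
    calc (X : ℝ) ^ (1 / 2 : ℝ) * L ^ (2 * (A + D + 4))
        ≤ (X : ℝ) ^ (1 / 2 : ℝ) * (X : ℝ) ^ (1 / 2 : ℝ) :=
          mul_le_mul_of_nonneg_left hLG (by positivity)
      _ = X := by
          rw [← Real.rpow_add hX0]
          norm_num
  have hMX : M ≤ X := by
    have : (M : ℝ) ≤ X := (hMr.trans (hM1.trans hM2)).trans (div_le_self hX0.le hLG1)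
    exact_mod_cast this
  -- kap
  have hzX : (z : ℝ) ≤ X := by
    have := hzB.trans hLB
    rwa [Real.rpow_one] at this
  have hz0 : (0 : ℝ) < z := by
    have : (2 : ℝ) ≤ z := by exact_mod_cast hz2
    linarith
  have hlogz : Real.log z ≤ L := Real.log_le_log hz0 hzX
  obtain ⟨hk1, hk2⟩ := hkap z hz2
  have hk3 : (kap z)⁻¹ ≤ L ^ 2 := by
    calc (kap z)⁻¹ ≤ C * Real.log z := hk2
      _ ≤ L * L := mul_le_mul hLC hlogz (Real.log_nonneg (by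
          have : (2 : ℝ) ≤ z := by exact_mod_cast hz2
          linarith)) hL0.le
      _ = L ^ 2 := by ring
  have hk0 : 0 ≤ (kap z)⁻¹ := by linarith
  -- truncation
  obtain ⟨m, -, hprod, herr⟩ := hrtr X z hX2 hz2 hzB
  set DD := (PP 0 z).powerset.filter (fun d => d.card ≤ m) with hDD
  have hDD1 : ∀ d ∈ DD, d ⊆ PP 0 z := fun d hd => mem_powerset.1 (mem_filter.1 hd).1
  have hDD2 : ∀ d ∈ DD, ((∏ p ∈ d, p : ℕ) : ℝ) ≤ (X : ℝ) ^ (1 / 1000 : ℝ) :=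
    fun d hd => hprod d (hDD1 d hd) (mem_filter.1 hd).2
  have hdq : ∀ d ∈ DD, ∀ q ∈ Icc 1 Q, (∏ p ∈ d, p) * q ≤ M := by
    intro d hd q hq
    rw [hM]
    refine Nat.le_floor ?_
    rw [Nat.cast_mul]
    have hq1 : (q : ℝ) ≤ (X : ℝ) ^ (1 / 50 : ℝ) :=
      le_trans (by exact_mod_cast (mem_Icc.1 hq).2) hQ
    calc ((∏ p ∈ d, p : ℕ) : ℝ) * (q : ℝ) ≤ (X : ℝ) ^ (1 / 1000 : ℝ) * (X : ℝ) ^ (1 / 50 : ℝ) :=
          mul_le_mul (hDD2 d hd) hq1 (by positivity) (by positivity)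
      _ = (X : ℝ) ^ (21 / 1000 : ℝ) := by
          rw [← Real.rpow_add hX0]
          norm_num
      _ ≤ (X : ℝ) ^ (1 / 40 : ℝ) :=
          Real.rpow_le_rpow_of_exponent_le (by linarith) (by norm_num)
  -- the bound for one q
  set f : ℕ → ℝ := fun s => SW.gmin (2 * X / (s : ℝ)) (s * α) with hf
  have hf0 : ∀ s, 0 ≤ f s := fun s => SW.gmin_nonneg _ _ (by positivity)
  have hone : ∀ q ∈ Icc 1 Q,
      ‖∑ n ∈ (Ioc (X + a) (2 * X + a)).filter (fun n => n ≡ c q [MOD q]),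
        (rz z n : ℂ) * GT.e (α * n)‖ ≤
      (kap z)⁻¹ * ∑ d ∈ DD, f ((∏ p ∈ d, p) * q) + (X : ℝ) ^ (1 - c₀) * (1 / q) := by
    intro q hq
    have hq1 := mem_Icc.1 hq
    have hqX : (q : ℝ) ≤ (X : ℝ) ^ (1 / 40 : ℝ) := by
      have h1 : (q : ℝ) ≤ Q := by exact_mod_cast hq1.2
      exact (h1.trans hQ).trans (Real.rpow_le_rpow_of_exponent_le (by linarith) (by norm_num))
    have h1 := herr (X + a) X q (c q) (by omega) hq1.1 hqX (hc q hq)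
      (fun n => GT.e (α * n)) (fun n => (GT.norm_e _).le)
    have h2 : X + a + X = 2 * X + a := by ring
    rw [h2] at h1
    have h3 : ‖(((kap z)⁻¹ : ℝ) : ℂ) * ∑ d ∈ DD, (-1 : ℂ) ^ d.card *
        ∑ n ∈ (Ioc (X + a) (2 * X + a)).filter (fun n => n ≡ c q [MOD q] ∧ (∏ p ∈ d, p) ∣ n),
          GT.e (α * n)‖ ≤ (kap z)⁻¹ * ∑ d ∈ DD, f ((∏ p ∈ d, p) * q) := by
      rw [norm_mul, Complex.norm_real, Real.norm_of_nonneg hk0]
      refine mul_le_mul_of_nonneg_left ((norm_sum_le _ _).trans (sum_le_sum fun d hd => ?_)) hk0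
      rw [norm_mul, norm_pow, norm_neg, norm_one, one_pow, one_mul]
      have h4 := Rminor_pos z d (hDD1 d hd)
      have h5 := Rminor_inner X (X + a) (∏ p ∈ d, p) q (c q) α h4 (by omega)
      rw [h2] at h5
      rw [h5]
      exact ti X (X + a) (2 * X + a) (∏ p ∈ d, p) q (c q) α h4 hq1.1
        ((hdq d hd q hq).trans hMX) (by omega) (by omega) (by omega) (hc q hq)
    have h6 := norm_le_norm_sub_add (∑ n ∈ (Ioc (X + a) (2 * X + a)).filter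
      (fun n => n ≡ c q [MOD q]), (rz z n : ℂ) * GT.e (α * n))
      ((((kap z)⁻¹ : ℝ) : ℂ) * ∑ d ∈ DD, (-1 : ℂ) ^ d.card *
        ∑ n ∈ (Ioc (X + a) (2 * X + a)).filter (fun n => n ≡ c q [MOD q] ∧ (∏ p ∈ d, p) ∣ n),
          GT.e (α * n))
    have h7 : (X : ℝ) ^ (1 - c₀) / q = (X : ℝ) ^ (1 - c₀) * (1 / q) := by ring
    rw [← h7]
    linarith
  refine (sum_le_sum hone).trans ?_
  rw [sum_add_distrib, ← mul_sum, ← mul_sum]
  -- the error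
  have hQX : (Q : ℝ) ≤ Real.exp L := by
    rw [hexp]
    refine hQ.trans ?_
    calc (X : ℝ) ^ (1 / 50 : ℝ) ≤ (X : ℝ) ^ (1 : ℝ) :=
          Real.rpow_le_rpow_of_exponent_le (by linarith) (by norm_num)
      _ = X := Real.rpow_one _
  have hE : (X : ℝ) ^ (1 - c₀) * ∑ q ∈ Icc 1 Q, 1 / (q : ℝ) ≤ X / L ^ A / 2 := by
    have h1 := Rminor_harm Q L hL0.le hQX
    have h2 : (X : ℝ) ^ (1 - c₀) = X / (X : ℝ) ^ c₀ := by
      rw [Real.rpow_sub hX0, Real.rpow_one]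
    have h3 : (0 : ℝ) < (X : ℝ) ^ c₀ := by positivity
    have h4 : (1 + L) * 2 ≤ L ^ 2 := by nlinarith
    have h5 : (0 : ℝ) < L ^ A := by positivity
    calc (X : ℝ) ^ (1 - c₀) * ∑ q ∈ Icc 1 Q, 1 / (q : ℝ)
        ≤ (X : ℝ) ^ (1 - c₀) * (1 + L) := mul_le_mul_of_nonneg_left h1 (by positivity)
      _ = X * (1 + L) / (X : ℝ) ^ c₀ := by rw [h2]; ring
      _ ≤ X * (1 + L) / L ^ (A + 2) := by
          refine div_le_div_of_nonneg_left (by positivity) (by positivity) hLA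
      _ ≤ X / L ^ A / 2 := by
          rw [pow_add, div_div, div_le_div_iff₀ (by positivity) (by positivity)]
          calc X * (1 + L) * (L ^ A * 2) = (X * L ^ A) * ((1 + L) * 2) := by ring
            _ ≤ (X * L ^ A) * L ^ 2 := mul_le_mul_of_nonneg_left h4 (by positivity)
            _ = X * (L ^ A * L ^ 2) := by ring
  -- the main part
  have hMain : (kap z)⁻¹ * ∑ q ∈ Icc 1 Q, ∑ d ∈ DD, f ((∏ p ∈ d, p) * q) ≤ X / L ^ A / 2 := by
    have h1 := Rminor_count z Q M DD hDD1 f hf0 hdq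
    have h2 := hvs X hX1 α b r M hr1 hrX hbr hα hMX
    have h3 : (X : ℝ) * (X / r + M + r) ≤ (2 * X / L ^ (A + D + 4)) ^ 2 := by
      have h4 : (X : ℝ) / r ≤ X / L ^ (2 * (A + D + 4)) :=
        div_le_div_of_nonneg_left hX0.le hLG0 hGr
      have h5 : (M : ℝ) ≤ X / L ^ (2 * (A + D + 4)) := hMr.trans (hM1.trans hM2)
      have h6 : (X : ℝ) / r + M + r ≤ 4 * (X / L ^ (2 * (A + D + 4))) := by
        have : 0 ≤ (X : ℝ) / L ^ (2 * (A + D + 4)) := by positivity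
        linarith
      calc (X : ℝ) * (X / r + M + r) ≤ X * (4 * (X / L ^ (2 * (A + D + 4)))) :=
            mul_le_mul_of_nonneg_left h6 hX0.le
        _ = (2 * X / L ^ (A + D + 4)) ^ 2 := by
            rw [div_pow, mul_comm 2 (A + D + 4), pow_mul]
            ring
    have h7 : Real.sqrt (X * (X / r + M + r)) ≤ 2 * X / L ^ (A + D + 4) := by
      rw [Real.sqrt_le_left (by positivity)]
      exact h3
    have h8 : ∑ s ∈ Icc 1 M, (s.divisors.card : ℝ) ^ 1 * f s ≤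
        L ^ D * (2 * X / L ^ (A + D + 4)) :=
      h2.trans (mul_le_mul_of_nonneg_left h7 (by positivity))
    calc (kap z)⁻¹ * ∑ q ∈ Icc 1 Q, ∑ d ∈ DD, f ((∏ p ∈ d, p) * q)
        ≤ L ^ 2 * (L ^ D * (2 * X / L ^ (A + D + 4))) :=
          mul_le_mul hk3 (h1.trans h8) (sum_nonneg fun q _ => sum_nonneg fun d _ => hf0 _)
            (by positivity)
      _ ≤ X / L ^ A / 2 := by
          rw [div_div]
          have e1 : L ^ 2 * (L ^ D * (2 * X / L ^ (A + D + 4))) =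
              (L ^ (D + 2) * (2 * X)) / (L ^ (D + 2) * (L ^ A * L ^ 2)) := by
            rw [← mul_div_assoc, ← mul_div_assoc]
            have e2 : L ^ (A + D + 4) = L ^ (D + 2) * (L ^ A * L ^ 2) := by ring
            rw [e2]
            congr 1
            ring
          rw [e1, mul_div_mul_left _ _ (by positivity)]
          rw [div_le_div_iff₀ (by positivity) (by positivity)]
          have h9 : (4 : ℝ) ≤ L ^ 2 := by nlinarith
          calc 2 * X * (L ^ A * 2) = (X * L ^ A) * 4 := by ring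
            _ ≤ (X * L ^ A) * L ^ 2 := mul_le_mul_of_nonneg_left h9 (by positivity)
            _ = X * (L ^ A * L ^ 2) := by ring
  linarith

end Pool.Agent.Lib.SG
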