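import Pool.Agent.Lib.SG.Defs

/-!
# SG-Worst: from all systems of classes to the worst class

PROOF. As `layF_worst` / `worst_th` of MT/LayF: for `q ≥ 1` choose among the `c ∈ range q` coprime to q (nonempty: `1 % q`) the one with
the largest `G q c` (`Finset.exists_max_image`), l q; `E q = G q (l q)` for q ≥ 1 (`E 0 = 0`). For c coprime to q, `G q c = G q (c % q) ≤ E q`.
-/

set_option autoImplicit false

open Finset

namespace Pool.Agent.Lib.SG

private theorem Worst_cop {c q : ℕ} (h : Nat.Coprime c q) : Nat.Coprime (c % q) q := by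
  unfold Nat.Coprime at h ⊢
  rw [← Nat.gcd_rec, Nat.gcd_comm]
  exact h

theorem worst (G : ℕ → ℕ → ℝ) (hG : ∀ q c, 0 ≤ G q c) (hper : ∀ q c, G q c = G q (c % q)) :
    ∃ E : ℕ → ℝ, (∀ q, 0 ≤ E q) ∧ (∀ q c, 1 ≤ q → Nat.Coprime c q → G q c ≤ E q) ∧
      ∃ l : ℕ → ℕ, ∀ q, 1 ≤ q → (l q).Coprime q ∧ E q = G q (l q) := by
  have h : ∀ q : ℕ, ∃ l, 1 ≤ q → (l.Coprime q ∧ ∀ c, Nat.Coprime c q → G q c ≤ G q l) := by
    intro q
    rcases Nat.eq_zero_or_pos q with h0 | hq
    · exact ⟨0, fun h => absurd h (by omega)⟩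
    have hne : ((range q).filter (fun c => Nat.Coprime c q)).Nonempty := by
      refine ⟨1 % q, ?_⟩
      rw [mem_filter, mem_range]
      exact ⟨Nat.mod_lt _ hq, Worst_cop (Nat.coprime_one_left q)⟩
    obtain ⟨l, hl, hmax⟩ := exists_max_image _ (G q) hne
    rw [mem_filter] at hl
    refine ⟨l, fun _ => ⟨hl.2, fun c hc => ?_⟩⟩
    rw [hper q c]
    apply hmax
    rw [mem_filter, mem_range]
    exact ⟨Nat.mod_lt _ hq, Worst_cop hc⟩
  choose l hl using h
  refine ⟨fun q => if 1 ≤ q then G q (l q) else 0, ?_, ?_, l, ?_⟩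
  · intro q
    simp only
    split_ifs
    · exact hG _ _
    · exact le_rfl
  · intro q c hq hc
    simp only
    rw [if_pos hq]
    exact (hl q hq).2 c hc
  · intro q hq
    refine ⟨(hl q hq).1, ?_⟩
    simp only
    rw [if_pos hq]

end Pool.Agent.Lib.SG
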