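import Pool.Agent.Lib.SG.Major
import Pool.Agent.Lib.SG.MinorL
import Pool.Agent.Lib.SG.Rminor
import Pool.Agent.Lib.SG.Worst
import Pool.Agent.Lib.SG.Num
import Pool.Agent.Lib.BV.Om

/-!
# SG-Bve: primes minus rough numbers, with a twist, on average over the moduli

PROOF. A' = 2A + 2 + K² + 2. G = max of the G of `minorL A'` and `rminor A'` (both statements remain true for a larger G), B₀ from `major A' G`.
Let α be real, `Y = X/(log X)^G`; Dirichlet (`Real.exists_int_int_abs_mul_sub_le` or the version used in SW/GT): b, r coprime, 1 ≤ r ≤ Y, `|α - b/r| ≤ 1/(r Y) ≤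
min(1/r², (log X)^G/X)`. If r ≤ (log X)^G: `major`. Otherwise `minorL` and `rminor` (triangle inequality). So for all class systems c:
`∑_{q ≤ Q} G(q, c q) ≤ 2X/(log X)^A'`, G(q, c) = the norm of the sum. `worst` gives E with E q = G(q, l q) and G(q, c) ≤ E q.
Trivially `E q ≤ ∑_{n ≡ l q} (th + rz) ≤ (X/q + 1)(log 3X + C log z) ≤ X (log X)²/q` for q ≤ X^(1/50). Cauchy-Schwarz:
`∑ K^ω(q) E q ≤ (∑ K^(2ω(q)) X (log X)²/q)^(1/2) (∑ E q)^(1/2)`, `∑_{q ≤ Q} (K²)^ω(q)/q ≤ ∏_{p ≤ Q} (1 + K²/(p-1)) ≤ (C log X)^(K²)` or by `MT.divisor_moment`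
(`(K²)^ω ≤ τ^j` with 2^j ≥ K²) — choose A' accordingly (A' = 2A + 4 + the exponent that comes out of this sum).
-/

set_option autoImplicit false

open Finset

namespace Pool.Agent.Lib.SG

open Pool.Agent.Lib.MT

private theorem Bve_card (X t q c : ℕ) (hq : 1 ≤ q) :
    ((Ioc t (t + X)).filter (fun n => n ≡ c [MOD q])).card ≤ X / q + 1 := by
  have h : ((Ioc t (t + X)).filter (fun n => n ≡ c [MOD q])).card ≤ (range (X / q + 1)).card := by
    refine card_le_card_of_injOn (fun n => (n - t) / q) ?_ ?_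
    · intro n hn
      rw [mem_coe, mem_filter, mem_Ioc] at hn
      rw [mem_coe, mem_range]
      exact Nat.lt_succ_of_le (Nat.div_le_div_right (by omega))
    · intro m hm n hn hmn
      rw [mem_coe, mem_filter, mem_Ioc] at hm hn
      simp only at hmn
      have h0 : m - t + t ≡ n - t + t [MOD q] := by
        rw [show m - t + t = m by omega, show n - t + t = n by omega]
        exact hm.2.trans hn.2.symm
      have h1 : (m - t) % q = (n - t) % q := Nat.ModEq.add_right_cancel' t h0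
      have h2 : m - t = n - t := by
        rw [← Nat.div_add_mod (m - t) q, ← Nat.div_add_mod (n - t) q, hmn, h1]
      omega
  rwa [card_range] at h

/-- the sum in the theorem -/
private noncomputable def BveG (X z a : ℕ) (α : ℝ) (q c : ℕ) : ℝ :=
  ‖∑ n ∈ (Ioc (X + a) (2 * X + a)).filter (fun n => n ≡ c [MOD q]),
    ((BV.th n - rz z n : ℝ) : ℂ) * GT.e (α * n)‖

private theorem BveG_mod (X z a : ℕ) (α : ℝ) (q c : ℕ) : BveG X z a α q c = BveG X z a α q (c % q) := by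
  unfold BveG
  have h1 : (Ioc (X + a) (2 * X + a)).filter (fun n => n ≡ c [MOD q]) =
      (Ioc (X + a) (2 * X + a)).filter (fun n => n ≡ c % q [MOD q]) := by
    refine filter_congr (fun n _ => ?_)
    have h2 : c % q ≡ c [MOD q] := Nat.mod_modEq c q
    exact ⟨fun h => h.trans h2.symm, fun h => h.trans h2⟩
  rw [h1]

/-- the trivial bound -/
private theorem Bve_triv (X z a : ℕ) (hX : 1 ≤ X) (ha : a ≤ X) (α : ℝ) (q c : ℕ) (hq : 1 ≤ q) (hqX : q ≤ X) :
    BveG X z a α q c ≤ (2 * X / q) * (Real.log (3 * X) + (kap z)⁻¹) := by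
  have hkap : 0 < (kap z)⁻¹ := inv_pos.mpr (kap_pos z)
  have hX0 : (0 : ℝ) < (X : ℝ) := by exact_mod_cast hX
  have hq0 : (0 : ℝ) < (q : ℝ) := by exact_mod_cast hq
  have hX1 : (1 : ℝ) ≤ (X : ℝ) := by exact_mod_cast hX
  have hlog : 0 ≤ Real.log (3 * X) := Real.log_nonneg (by linarith)
  have hterm : ∀ n ∈ (Ioc (X + a) (2 * X + a)).filter (fun n => n ≡ c [MOD q]),
      ‖((BV.th n - rz z n : ℝ) : ℂ) * GT.e (α * n)‖ ≤ Real.log (3 * X) + (kap z)⁻¹ := by
    intro n hn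
    rw [mem_filter, mem_Ioc] at hn
    rw [norm_mul, GT.norm_e, mul_one, Complex.norm_real, Real.norm_eq_abs]
    have h1 : 0 ≤ BV.th n ∧ BV.th n ≤ Real.log (3 * X) := by
      unfold BV.th
      split_ifs with hp
      · refine ⟨Real.log_natCast_nonneg n, Real.log_le_log (by exact_mod_cast hp.pos) ?_⟩
        have : n ≤ 3 * X := by omega
        exact_mod_cast this
      · exact ⟨le_refl _, hlog⟩
    have h2 : 0 ≤ rz z n ∧ rz z n ≤ (kap z)⁻¹ := by
      unfold rz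
      split_ifs
      · exact ⟨hkap.le, le_refl _⟩
      · exact ⟨le_refl _, hkap.le⟩
    rw [abs_le]
    constructor <;> linarith [h1.1, h1.2, h2.1, h2.2]
  have hcard : (((Ioc (X + a) (2 * X + a)).filter (fun n => n ≡ c [MOD q])).card : ℝ) ≤ 2 * X / q := by
    have h1 := Bve_card X (X + a) q c hq
    rw [show X + a + X = 2 * X + a by ring] at h1
    have h2 : ((X / q + 1 : ℕ) : ℝ) ≤ X / q + 1 := by
      push_cast
      have := @Nat.cast_div_le ℝ _ _ _ X q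
      linarith
    have h3 : (1 : ℝ) ≤ X / q := by
      rw [le_div_iff₀ hq0]
      rw [one_mul]
      exact_mod_cast hqX
    calc (((Ioc (X + a) (2 * X + a)).filter (fun n => n ≡ c [MOD q])).card : ℝ) ≤ ((X / q + 1 : ℕ) : ℝ) := by
          exact_mod_cast h1
      _ ≤ X / q + 1 := h2
      _ ≤ X / q + X / q := by linarith
      _ = 2 * X / q := by ring
  unfold BveG
  calc ‖∑ n ∈ (Ioc (X + a) (2 * X + a)).filter (fun n => n ≡ c [MOD q]),
        ((BV.th n - rz z n : ℝ) : ℂ) * GT.e (α * n)‖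
      ≤ ∑ n ∈ (Ioc (X + a) (2 * X + a)).filter (fun n => n ≡ c [MOD q]),
        ‖((BV.th n - rz z n : ℝ) : ℂ) * GT.e (α * n)‖ := norm_sum_le _ _
    _ ≤ ∑ n ∈ (Ioc (X + a) (2 * X + a)).filter (fun n => n ≡ c [MOD q]), (Real.log (3 * X) + (kap z)⁻¹) :=
        sum_le_sum hterm
    _ = (((Ioc (X + a) (2 * X + a)).filter (fun n => n ≡ c [MOD q])).card : ℝ) * (Real.log (3 * X) + (kap z)⁻¹) := by
        rw [sum_const, nsmul_eq_mul]
    _ ≤ (2 * X / q) * (Real.log (3 * X) + (kap z)⁻¹) := mul_le_mul_of_nonneg_right hcard (by positivity)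

/-- Cauchy-Schwarz -/
private theorem Bve_cs (K Q : ℕ) (E : ℕ → ℝ) (hE : ∀ q, 0 ≤ E q) (T W : ℝ) (hT : 0 ≤ T)
    (hET : ∀ q ∈ Icc 1 Q, E q ≤ T / q) (hW : ∑ q ∈ Icc 1 Q, E q ≤ W) :
    ∑ q ∈ Icc 1 Q, (K : ℝ) ^ q.primeFactors.card * E q ≤ √(T * (1 + Real.log Q) ^ (2 * K ^ 2) * W) := by
  have hlog := Real.log_natCast_nonneg Q
  have hW0 : 0 ≤ ∑ q ∈ Icc 1 Q, E q := sum_nonneg fun q _ => hE q
  apply Real.le_sqrt_of_sq_le
  have h1 : (∑ q ∈ Icc 1 Q, (K : ℝ) ^ q.primeFactors.card * E q) ^ 2 ≤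
      (∑ q ∈ Icc 1 Q, (((K : ℝ) ^ q.primeFactors.card) ^ 2 * E q)) * ∑ q ∈ Icc 1 Q, E q := by
    have h2 := sum_mul_sq_le_sq_mul_sq (Icc 1 Q)
      (fun q => (K : ℝ) ^ q.primeFactors.card * √(E q)) (fun q => √(E q))
    have e1 : ∀ q, (K : ℝ) ^ q.primeFactors.card * √(E q) * √(E q) = (K : ℝ) ^ q.primeFactors.card * E q := by
      intro q
      rw [mul_assoc, Real.mul_self_sqrt (hE q)]
    have e2 : ∀ q, ((K : ℝ) ^ q.primeFactors.card * √(E q)) ^ 2 = ((K : ℝ) ^ q.primeFactors.card) ^ 2 * E q := by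
      intro q
      rw [mul_pow, Real.sq_sqrt (hE q)]
    have e3 : ∀ q, √(E q) ^ 2 = E q := fun q => Real.sq_sqrt (hE q)
    simp only [e1, e2, e3] at h2
    exact h2
  refine h1.trans ?_
  refine mul_le_mul ?_ hW hW0 (by positivity)
  have h3 : ∀ q ∈ Icc 1 Q, ((K : ℝ) ^ q.primeFactors.card) ^ 2 * E q ≤
      T * (((K ^ 2 : ℕ) : ℝ) ^ q.primeFactors.card / q.totient) := by
    intro q hq
    have hq' := mem_Icc.mp hq
    have h4 := hET q hq
    have e4 : ((K : ℝ) ^ q.primeFactors.card) ^ 2 = ((K ^ 2 : ℕ) : ℝ) ^ q.primeFactors.card := by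
      push_cast
      rw [← pow_mul, ← pow_mul, mul_comm]
    have hφ : (0 : ℝ) < q.totient := by
      exact_mod_cast Nat.totient_pos.mpr hq'.1
    have hφq : (q.totient : ℝ) ≤ q := by exact_mod_cast Nat.totient_le q
    have h5 : T / q ≤ T / q.totient := div_le_div_of_nonneg_left hT hφ hφq
    rw [e4]
    calc ((K ^ 2 : ℕ) : ℝ) ^ q.primeFactors.card * E q ≤
        ((K ^ 2 : ℕ) : ℝ) ^ q.primeFactors.card * (T / q.totient) :=
          mul_le_mul_of_nonneg_left (h4.trans h5) (by positivity)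
      _ = _ := by ring
  refine (sum_le_sum h3).trans ?_
  rw [← mul_sum]
  exact mul_le_mul_of_nonneg_left (BV.sum_pow_omega (K ^ 2) Q) hT

/-- the sum over the moduli for a system of classes -/
private theorem Bve_sum (A' : ℕ) : ∃ B₀ : ℕ, ∀ B : ℕ, B₀ ≤ B → ∃ X₀ : ℕ, ∀ X z a : ℕ, X₀ ≤ X →
    (Real.log X) ^ B₀ ≤ z → (z : ℝ) ≤ (Real.log X) ^ B → a ≤ X → ∀ α : ℝ,
    ∀ Q : ℕ, (Q : ℝ) ≤ (X : ℝ) ^ (1 / 50 : ℝ) → ∀ c : ℕ → ℕ, (∀ q ∈ Icc 1 Q, (c q).Coprime q) →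
    ∑ q ∈ Icc 1 Q, BveG X z a α q (c q) ≤ 2 * (X / (Real.log X) ^ A') := by
  obtain ⟨G1, X1, hmin⟩ := minorL A'
  obtain ⟨G2, hrm⟩ := rminor A'
  set G := max G1 G2 with hG
  obtain ⟨B0, hmaj⟩ := major A' G
  refine ⟨B0 + 1, fun B hB => ?_⟩
  obtain ⟨X2, hmaj2⟩ := hmaj B (by omega)
  obtain ⟨X3, hrm2⟩ := hrm B
  obtain ⟨X4, h4⟩ : ∃ X4 : ℕ, ∀ X : ℕ, X4 ≤ X → 2 ≤ Real.log X := by
    have h3 : Filter.Tendsto (fun X : ℕ => Real.log (X : ℝ)) Filter.atTop Filter.atTop :=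
      Real.tendsto_log_atTop.comp tendsto_natCast_atTop_atTop
    exact Filter.eventually_atTop.mp (h3.eventually_ge_atTop 2)
  obtain ⟨X5, h5⟩ : ∃ X5 : ℕ, ∀ X : ℕ, X5 ≤ X → (Real.log X) ^ G ≤ X := by
    have h6 := (isLittleO_log_rpow_atTop (show (0 : ℝ) < 1 / ((G : ℝ) + 1) by positivity))
    have h7 : ∀ᶠ x : ℝ in Filter.atTop, ‖Real.log x‖ ≤ 1 * ‖x ^ (1 / ((G : ℝ) + 1))‖ := h6.bound one_pos
    have h8 : ∀ᶠ x : ℝ in Filter.atTop, (Real.log x) ^ G ≤ x := by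
      filter_upwards [h7, Filter.eventually_ge_atTop (1 : ℝ)] with x hx hx1
      have hl : 0 ≤ Real.log x := Real.log_nonneg hx1
      have hxx : 0 ≤ x ^ (1 / ((G : ℝ) + 1)) := Real.rpow_nonneg (by linarith) _
      rw [one_mul, Real.norm_of_nonneg hl, Real.norm_of_nonneg hxx] at hx
      calc (Real.log x) ^ G ≤ (x ^ (1 / ((G : ℝ) + 1))) ^ G := pow_le_pow_left₀ hl hx G
        _ = x ^ ((1 / ((G : ℝ) + 1)) * G) := by
            rw [← Real.rpow_natCast, ← Real.rpow_mul (by linarith)]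
        _ ≤ x ^ (1 : ℝ) := by
            refine Real.rpow_le_rpow_of_exponent_le hx1 ?_
            rw [div_mul_eq_mul_div, one_mul, div_le_one (by positivity)]
            linarith
        _ = x := Real.rpow_one x
    obtain ⟨x0, hx0⟩ := Filter.eventually_atTop.mp h8
    refine ⟨⌈x0⌉₊, fun X hX => hx0 X ?_⟩
    exact le_trans (Nat.le_ceil x0) (by exact_mod_cast hX)
  refine ⟨X1 + X2 + X3 + X4 + X5 + 1, fun X z a hX hz1 hz2 ha α Q hQ c hc => ?_⟩
  have hl2 : 2 ≤ Real.log X := h4 X (by omega)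
  have hl1 : 1 ≤ Real.log X := by linarith
  have hlG : (Real.log X) ^ G ≤ X := h5 X (by omega)
  have hX0 : (0 : ℝ) < (X : ℝ) := by
    have : 0 < X := by omega
    exact_mod_cast this
  have hLpos : 0 < (Real.log X) ^ G := by positivity
  have hz0 : (Real.log X) ^ B0 ≤ z := le_trans (pow_le_pow_right₀ hl1 (Nat.le_succ B0)) hz1
  have hz3 : 2 ≤ z := by
    have h6 : (Real.log X) ^ 1 ≤ (Real.log X) ^ (B0 + 1) := pow_le_pow_right₀ hl1 (by omega)
    have h7 : (2 : ℝ) ≤ z := by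
      rw [pow_one] at h6
      linarith
    exact_mod_cast h7
  have hY : (1 : ℝ) ≤ X / (Real.log X) ^ G := by
    rw [le_div_iff₀ hLpos, one_mul]
    exact hlG
  set n := ⌊(X : ℝ) / (Real.log X) ^ G⌋₊ with hn
  have hn0 : 0 < n := Nat.floor_pos.mpr hY
  have hn1 : (n : ℝ) ≤ X / (Real.log X) ^ G := Nat.floor_le (by positivity)
  have hn2 : X / (Real.log X) ^ G < n + 1 := Nat.lt_floor_add_one _
  obtain ⟨ρ, hρ, hρn⟩ := Real.exists_rat_abs_sub_le_and_den_le α hn0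
  set r := ρ.den with hr
  set b := ρ.num with hb
  have hr1 : 1 ≤ r := ρ.den_pos
  have hr0 : (0 : ℝ) < r := by exact_mod_cast hr1
  have hrn : (r : ℝ) ≤ n := by exact_mod_cast hρn
  have hρe : (ρ : ℝ) = (b : ℝ) / (r : ℝ) := by
    rw [hb, hr]
    exact_mod_cast (Rat.num_div_den ρ).symm
  rw [hρe] at hρ
  have hcop : IsCoprime b (r : ℤ) := by
    rw [Int.isCoprime_iff_gcd_eq_one]
    exact ρ.reduced
  have hrX : (r : ℝ) ≤ X / (Real.log X) ^ G := hrn.trans hn1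
  have hXX : 0 ≤ X / (Real.log X) ^ A' := by positivity
  have happ1 : |α - b / r| ≤ (Real.log X) ^ G / X := by
    refine hρ.trans ?_
    have h6 : 1 / (((n : ℝ) + 1) * r) ≤ 1 / ((n : ℝ) + 1) := by
      apply one_div_le_one_div_of_le (by positivity)
      have : (1 : ℝ) ≤ r := by exact_mod_cast hr1
      nlinarith
    have h7 : 1 / ((n : ℝ) + 1) ≤ 1 / (X / (Real.log X) ^ G) :=
      one_div_le_one_div_of_le (by positivity) hn2.le
    rw [one_div_div] at h7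
    exact h6.trans h7
  have happ2 : |α - b / r| ≤ 1 / (r : ℝ) ^ 2 := by
    refine hρ.trans ?_
    apply one_div_le_one_div_of_le (by positivity)
    nlinarith
  by_cases hcase : (r : ℝ) ≤ (Real.log X) ^ G
  · have h6 := hmaj2 X z a (by omega) hz0 hz2 ha α b r hr1 hcase happ1 Q hQ c hc
    have h7 : ∑ q ∈ Icc 1 Q, BveG X z a α q (c q) ≤ X / (Real.log X) ^ A' := h6
    linarith
  · have hcase' := (not_le.mp hcase).le
    have hG1 : (Real.log X) ^ G1 ≤ (Real.log X) ^ G := pow_le_pow_right₀ hl1 (le_max_left _ _)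
    have hG2 : (Real.log X) ^ G2 ≤ (Real.log X) ^ G := pow_le_pow_right₀ hl1 (le_max_right _ _)
    have hP1 : 0 < (Real.log X) ^ G1 := by positivity
    have hP2 : 0 < (Real.log X) ^ G2 := by positivity
    have h6 := hmin X (by omega) a ha α b r hcop (hG1.trans hcase')
      (hrX.trans (div_le_div_of_nonneg_left hX0.le hP1 hG1)) happ2 Q hQ c hc
    have h7 := hrm2 X z a (by omega) hz3 hz2 ha α b r hcop (hG2.trans hcase')
      (hrX.trans (div_le_div_of_nonneg_left hX0.le hP2 hG2)) happ2 Q hQ c hc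
    have h8 : ∑ q ∈ Icc 1 Q, BveG X z a α q (c q) ≤
        ∑ q ∈ Icc 1 Q, ‖∑ n ∈ (Ioc (X + a) (2 * X + a)).filter (fun n => n ≡ c q [MOD q]),
          (BV.th n : ℂ) * GT.e (α * n)‖ +
        ∑ q ∈ Icc 1 Q, ‖∑ n ∈ (Ioc (X + a) (2 * X + a)).filter (fun n => n ≡ c q [MOD q]),
          (rz z n : ℂ) * GT.e (α * n)‖ := by
      rw [← sum_add_distrib]
      refine sum_le_sum fun q _ => ?_
      unfold BveG
      have h9 : ∑ n ∈ (Ioc (X + a) (2 * X + a)).filter (fun n => n ≡ c q [MOD q]),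
            ((BV.th n - rz z n : ℝ) : ℂ) * GT.e (α * n) =
          ∑ n ∈ (Ioc (X + a) (2 * X + a)).filter (fun n => n ≡ c q [MOD q]), (BV.th n : ℂ) * GT.e (α * n) -
          ∑ n ∈ (Ioc (X + a) (2 * X + a)).filter (fun n => n ≡ c q [MOD q]), (rz z n : ℂ) * GT.e (α * n) := by
        rw [← sum_sub_distrib]
        refine sum_congr rfl fun n _ => ?_
        push_cast
        ring
      rw [h9]
      exact norm_sub_le _ _
    linarith

theorem bve (A K : ℕ) : ∃ B₀ : ℕ, ∀ B : ℕ, B₀ ≤ B → ∃ X₀ : ℕ, ∀ X z a : ℕ, X₀ ≤ X →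
    (Real.log X) ^ B₀ ≤ z → (z : ℝ) ≤ (Real.log X) ^ B → a ≤ X → ∀ α : ℝ,
    ∃ E : ℕ → ℝ, (∀ q, 0 ≤ E q) ∧ (∀ q c, 1 ≤ q → Nat.Coprime c q →
      ‖∑ n ∈ (Ioc (X + a) (2 * X + a)).filter (fun n => n ≡ c [MOD q]),
        ((BV.th n - rz z n : ℝ) : ℂ) * GT.e (α * n)‖ ≤ E q) ∧
      ∀ Q : ℕ, (Q : ℝ) ≤ (X : ℝ) ^ (1 / 50 : ℝ) →
        ∑ q ∈ Icc 1 Q, (K : ℝ) ^ q.primeFactors.card * E q ≤ X / (Real.log X) ^ A := by
  obtain ⟨C, hC1, hCk⟩ := num_kap
  obtain ⟨B0, hB0⟩ := Bve_sum (2 * A + 4 * K ^ 2 + 6)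
  refine ⟨B0 + 1, fun B hB => ?_⟩
  obtain ⟨X1, hX1⟩ := hB0 B (by omega)
  obtain ⟨X2, h2⟩ : ∃ X2 : ℕ, ∀ X : ℕ, X2 ≤ X → 2 * (2 + C * B) + 5 ≤ Real.log X := by
    have h3 : Filter.Tendsto (fun X : ℕ => Real.log (X : ℝ)) Filter.atTop Filter.atTop :=
      Real.tendsto_log_atTop.comp tendsto_natCast_atTop_atTop
    exact Filter.eventually_atTop.mp (h3.eventually_ge_atTop _)
  refine ⟨X1 + X2 + 1, fun X z a hX hz1 hz2 ha α => ?_⟩
  have hlog := h2 X (by omega)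
  have hCB : 0 ≤ C * B := by positivity
  have hl5 : 5 ≤ Real.log X := by linarith
  have hX1' : 1 ≤ X := by omega
  have hX0 : (0 : ℝ) < (X : ℝ) := by exact_mod_cast hX1'
  have hXone : (1 : ℝ) ≤ (X : ℝ) := by exact_mod_cast hX1'
  obtain ⟨E, hE0, hE1, l, hl⟩ := worst (BveG X z a α) (fun q c => norm_nonneg _) (BveG_mod X z a α)
  refine ⟨E, hE0, hE1, fun Q hQ => ?_⟩
  -- bounds for z
  have hz3 : 2 ≤ z := by
    have h6 : (Real.log X) ^ 1 ≤ (Real.log X) ^ (B0 + 1) := pow_le_pow_right₀ (by linarith) (by omega)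
    have h7 : (2 : ℝ) ≤ z := by
      rw [pow_one] at h6
      linarith
    exact_mod_cast h7
  have hzpos : (0 : ℝ) < z := by
    have : 0 < z := by omega
    exact_mod_cast this
  have hlogz : Real.log z ≤ B * Real.log X := by
    have h6 : Real.log z ≤ Real.log ((Real.log X) ^ B) := Real.log_le_log hzpos hz2
    rw [Real.log_pow] at h6
    have h7 : Real.log (Real.log X) ≤ Real.log X := by
      have := Real.log_le_sub_one_of_pos (show (0 : ℝ) < Real.log X by linarith)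
      linarith
    exact h6.trans (mul_le_mul_of_nonneg_left h7 (Nat.cast_nonneg B))
  have hkap : (kap z)⁻¹ ≤ C * B * Real.log X := by
    have h6 := (hCk z hz3).2
    calc (kap z)⁻¹ ≤ C * Real.log z := h6
      _ ≤ C * (B * Real.log X) := mul_le_mul_of_nonneg_left hlogz (by linarith)
      _ = C * B * Real.log X := by ring
  have hlog3 : Real.log (3 * X) ≤ 2 * Real.log X := by
    rw [Real.log_mul (by norm_num) (by linarith)]
    have h6 : Real.log 3 ≤ 2 := by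
      have := Real.log_le_sub_one_of_pos (show (0 : ℝ) < 3 by norm_num)
      linarith
    linarith
  have hQX : (Q : ℝ) ≤ X := by
    refine hQ.trans ?_
    calc (X : ℝ) ^ (1 / 50 : ℝ) ≤ (X : ℝ) ^ (1 : ℝ) := Real.rpow_le_rpow_of_exponent_le hXone (by norm_num)
      _ = X := Real.rpow_one _
  have hQX' : Q ≤ X := by exact_mod_cast hQX
  -- the trivial bound
  have htriv : ∀ q ∈ Icc 1 Q, E q ≤ (X * (Real.log X) ^ 2) / q := by
    intro q hq
    have hq' := mem_Icc.mp hq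
    rw [(hl q hq'.1).2]
    have h6 := Bve_triv X z a hX1' ha α q (l q) hq'.1 (hq'.2.trans hQX')
    have hq0 : (0 : ℝ) < q := by exact_mod_cast hq'.1
    refine h6.trans ?_
    have h7 : Real.log (3 * X) + (kap z)⁻¹ ≤ (Real.log X) ^ 2 / 2 := by
      have h8 : Real.log (3 * X) + (kap z)⁻¹ ≤ (2 + C * B) * Real.log X := by
        nlinarith
      have h9 : (2 + C * B) * Real.log X ≤ (Real.log X) ^ 2 / 2 := by
        nlinarith
      linarith
    calc 2 * X / q * (Real.log (3 * X) + (kap z)⁻¹) ≤ 2 * X / q * ((Real.log X) ^ 2 / 2) :=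
          mul_le_mul_of_nonneg_left h7 (by positivity)
      _ = (X * (Real.log X) ^ 2) / q := by ring
  -- the sum
  have hsum : ∑ q ∈ Icc 1 Q, E q ≤ 2 * (X / (Real.log X) ^ (2 * A + 4 * K ^ 2 + 6)) := by
    have h6 := hX1 X z a (by omega) (le_trans (pow_le_pow_right₀ (by linarith) (Nat.le_succ B0)) hz1) hz2 ha α Q hQ l
      (fun q hq => (hl q (mem_Icc.mp hq).1).1)
    have h7 : ∑ q ∈ Icc 1 Q, E q = ∑ q ∈ Icc 1 Q, BveG X z a α q (l q) :=
      sum_congr rfl fun q hq => (hl q (mem_Icc.mp hq).1).2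
    rw [h7]
    exact h6
  have hcs := Bve_cs K Q E hE0 (X * (Real.log X) ^ 2) _ (by positivity) htriv hsum
  refine hcs.trans ?_
  rw [Real.sqrt_le_left (by positivity)]
  have hlogQ : 1 + Real.log Q ≤ (Real.log X) ^ 2 := by
    have h6 : Real.log Q ≤ Real.log X := by
      rcases Nat.eq_zero_or_pos Q with h0 | h0
      · rw [h0, Nat.cast_zero, Real.log_zero]
        linarith
      · exact Real.log_le_log (by exact_mod_cast h0) hQX
    nlinarith
  have hlogQ0 : 0 ≤ 1 + Real.log Q := by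
    have := Real.log_natCast_nonneg Q
    linarith
  have h10 : (1 + Real.log Q) ^ (2 * K ^ 2) ≤ (Real.log X) ^ (4 * K ^ 2) := by
    calc (1 + Real.log Q) ^ (2 * K ^ 2) ≤ ((Real.log X) ^ 2) ^ (2 * K ^ 2) := pow_le_pow_left₀ hlogQ0 hlogQ _
      _ = (Real.log X) ^ (4 * K ^ 2) := by
          rw [← pow_mul]
          congr 1
          ring
  have hL0 : 0 < Real.log X := by linarith
  have h11 : X * (Real.log X) ^ 2 * (1 + Real.log Q) ^ (2 * K ^ 2) * (2 * (X / (Real.log X) ^ (2 * A + 4 * K ^ 2 + 6))) ≤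
      X * (Real.log X) ^ 2 * (Real.log X) ^ (4 * K ^ 2) * (2 * (X / (Real.log X) ^ (2 * A + 4 * K ^ 2 + 6))) := by
    refine mul_le_mul_of_nonneg_right (mul_le_mul_of_nonneg_left h10 (by positivity)) (by positivity)
  refine h11.trans ?_
  have h12 : X * (Real.log X) ^ 2 * (Real.log X) ^ (4 * K ^ 2) * (2 * (X / (Real.log X) ^ (2 * A + 4 * K ^ 2 + 6))) =
      (2 / (Real.log X) ^ 4) * (X / (Real.log X) ^ A) ^ 2 := by
    rw [show 2 * A + 4 * K ^ 2 + 6 = A + A + 4 * K ^ 2 + 2 + 4 by ring, pow_add, pow_add, pow_add, pow_add]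
    field_simp
  rw [h12]
  have h13 : 2 / (Real.log X) ^ 4 ≤ 1 := by
    rw [div_le_one (by positivity)]
    have : (1 : ℝ) ≤ (Real.log X) ^ 3 := one_le_pow₀ (by linarith)
    nlinarith
  calc 2 / (Real.log X) ^ 4 * (X / (Real.log X) ^ A) ^ 2 ≤ 1 * (X / (Real.log X) ^ A) ^ 2 :=
        mul_le_mul_of_nonneg_right h13 (by positivity)
    _ = (X / (Real.log X) ^ A) ^ 2 := one_mul _

end Pool.Agent.Lib.SG
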