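import Pool.Agent.Lib.SG.Amft
import Pool.Agent.Lib.SG.Phi
import Pool.Agent.Lib.SG.Bohr

/-!
# SG-Clo7: the correlation with the adversary's weights is close to its structured part, explicit version

PROOF. As `shf` (Shf.lean) with explicit constants: K = 212 C⁶ + 1, `a ∈ (0, 1]` small depending on k, C: `η = a ε⁴`, `ρ = a ε` with `16 k⁴ 201 C² a K ≤ 1/2`, `a⁴ k⁴ K² ≤ 1/2`, and `11 k C²/(a ε⁴)³ ≤ (1/b) ε^(-12)` for the final constant: take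
`b = a³/(11 k C² + 1)` and return the minimum of a, b as the constant a of the statement only for the cardinality (state η, ρ with the same a: choose a first, then b). δ₀ = (log X)^(-c) ≤ 1/log X ≤ η and `8 δ₀² X³ ∑ w'² ≤ 8 X⁴/log X ≤ C² η X⁴` by the
hypothesis hX. Ξ from `am_tail` for w', h', B with this η. With T = Bh (8X) Ξ' ρ for ANY Ξ' ⊇ Ξ (`bt_close`): `‖1 - bt‖ ≤ a ε` on Ξ, ≤ 2 elsewhere; `ph_close`, `l4` for f, `am_l4`, `am_tail`.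
-/

set_option autoImplicit false

open Finset

namespace Pool.Agent.Lib.SG

private theorem clo7_sum (X : ℕ) (w : ℕ → ℝ) (hw : ∀ x, x ∉ Ioc X (2 * X) → w x = 0) :
    ∑ n ∈ range (4 * X), (w n) ^ 2 = ∑ n ∈ Ioc X (2 * X), (w n) ^ 2 := by
  refine (sum_subset ?_ ?_).symm
  · intro x hx
    rw [mem_Ioc] at hx
    rw [mem_range]
    omega
  · intro x _ hx
    rw [hw x hx]
    ring

private theorem clo7_small (L S X : ℝ) (hL : 1 ≤ L) (hX : 0 ≤ X) (c : ℕ) (hc : 1 ≤ c)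
    (hS : S ≤ X * L ^ c) : 8 * ((L ^ c)⁻¹) ^ 2 * X ^ 3 * S ≤ 8 * L⁻¹ * X ^ 4 := by
  have hLc : 0 < L ^ c := by positivity
  have h1 : (L ^ c)⁻¹ ≤ L⁻¹ := by
    apply inv_anti₀ (by linarith)
    calc L = L ^ 1 := (pow_one L).symm
      _ ≤ L ^ c := pow_le_pow_right₀ hL hc
  calc 8 * ((L ^ c)⁻¹) ^ 2 * X ^ 3 * S ≤ 8 * ((L ^ c)⁻¹) ^ 2 * X ^ 3 * (X * L ^ c) :=
        mul_le_mul_of_nonneg_left hS (by positivity)
    _ = 8 * (L ^ c)⁻¹ * X ^ 4 := by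
        field_simp
    _ ≤ _ := by gcongr

theorem clo7 (k : ℕ) (C : ℝ) (hC : 1 ≤ C) : ∃ a b : ℝ, 0 < a ∧ a ≤ 1 ∧ 0 < b ∧
    ∀ c : ℕ, 1 ≤ c → ∀ X : ℕ, 1 ≤ X → ∀ ε : ℝ, 0 < ε → ε ≤ 1 → 8 ≤ a * ε ^ 4 * Real.log X →
    ∀ (w' : ℕ → ℝ) (h' : Fin k → ℕ) (B : Set ℕ),
    (∀ i, h' i ≤ X) → (∀ x, x ∉ Ioc X (2 * X) → w' x = 0) →
    Rst C (((Real.log X) ^ c)⁻¹) X w' → ∑ x ∈ Ioc X (2 * X), (w' x) ^ 2 ≤ X * (Real.log X) ^ c →
    ∃ Ξ ⊆ range (8 * X), (Ξ.card : ℝ) ≤ 1 / (b * ε ^ 12) ∧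
      ∀ Ξ' : Finset ℕ, Ξ ⊆ Ξ' → ∀ T : Finset ℕ, T = Bh (8 * X) Ξ' (a * ε) → T.Nonempty →
      ∀ w : ℕ → ℝ, (∀ x, x ∉ Ioc X (2 * X) → w x = 0) → Rst C (((Real.log X) ^ c)⁻¹) X w →
      ∑ x ∈ Ioc X (2 * X), (w x) ^ 2 ≤ X * (Real.log X) ^ c →
      ∀ t : ℕ, ∀ E ⊆ range (8 * X), ∀ f : ℕ → ℝ, (∀ x, 0 ≤ f x ∧ f x ≤ w x) →
      |∑ x ∈ Ioc X (2 * X), f x * (ph X E (am B h' w') (x + t) - ph0 X E (am B h' w') T (x + t))| ≤
        ε * X ^ 2 := by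
  classical
  set K : ℝ := 212 * C ^ 6 + 1 with hK
  have hC0 : 0 < C := by linarith
  have hK0 : 0 < K := by positivity
  set D1 : ℝ := 2 * (16 * k ^ 4 * 201 * C ^ 2 * K + 1) with hD1
  have hD10 : 0 < D1 := by positivity
  have hD12 : 2 ≤ D1 := by
    have : 0 ≤ 16 * (k : ℝ) ^ 4 * 201 * C ^ 2 * K := by positivity
    rw [hD1]
    linarith
  set D2 : ℝ := 2 * (k ^ 4 * K ^ 2 + 1) with hD2
  have hD20 : 0 < D2 := by positivity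
  set a : ℝ := (D1 + D2)⁻¹ with ha
  have ha0 : 0 < a := by positivity
  have ha1 : a ≤ 1 := by
    rw [ha]
    exact inv_le_one_of_one_le₀ (by linarith)
  have haD : a * (D1 + D2) = 1 := by
    rw [ha]
    exact inv_mul_cancel₀ (by positivity)
  have haD1 : a * D1 ≤ 1 := by nlinarith [mul_pos ha0 hD20]
  have haD2 : a * D2 ≤ 1 := by nlinarith [mul_pos ha0 hD10]
  have hB0 : (0 : ℝ) < 11 * k * C ^ 2 + 1 := by positivity
  refine ⟨a, a ^ 3 / (11 * k * C ^ 2 + 1), ha0, ha1, by positivity,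
    fun c hc X hX1 ε hε hε1 hlog w' h' B hh hw' hR' h2' => ?_⟩
  set η : ℝ := a * ε ^ 4 with hη
  set ρ : ℝ := a * ε with hρ
  have hε4 : 0 < ε ^ 4 := by positivity
  have hε41 : ε ^ 4 ≤ 1 := pow_le_one₀ hε.le hε1
  have hη0 : 0 < η := by positivity
  have hη1 : η ≤ 1 := by
    calc η = a * ε ^ 4 := hη
      _ ≤ 1 * 1 := mul_le_mul ha1 hε41 hε4.le zero_le_one
      _ = 1 := one_mul 1
  have hρ0 : 0 < ρ := by positivity
  set L := Real.log X with hL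
  have hXr : (1 : ℝ) ≤ (X : ℝ) := by exact_mod_cast hX1
  have hL0 : 0 ≤ L := Real.log_nonneg hXr
  have hL8 : 8 ≤ L := by
    have : η * L ≤ 1 * L := mul_le_mul_of_nonneg_right hη1 hL0
    linarith
  have hL1 : 1 ≤ L := by linarith
  have hLc0 : 0 < L ^ c := by positivity
  set δ₀ := (L ^ c)⁻¹ with hδ₀
  have hδ0 : 0 < δ₀ := inv_pos.mpr hLc0
  have hδL : δ₀ ≤ L⁻¹ := by
    apply inv_anti₀ (by linarith)
    calc L = L ^ 1 := (pow_one L).symm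
      _ ≤ L ^ c := pow_le_pow_right₀ hL1 hc
  have h8η : 8 * L⁻¹ ≤ η := by
    rw [← div_eq_mul_inv, div_le_iff₀ (by linarith)]
    exact hlog
  have hLi0 : 0 < L⁻¹ := by positivity
  have hδη : δ₀ ≤ η := by linarith
  have hδ1 : δ₀ ≤ 1 := hδη.trans hη1
  have h8 : 8 * L⁻¹ ≤ 1 := h8η.trans hη1
  have hC2 : 1 ≤ C ^ 2 := one_le_pow₀ hC
  have h8' : 8 * L⁻¹ ≤ C ^ 2 * η := by
    have : 1 * η ≤ C ^ 2 * η := mul_le_mul_of_nonneg_right hC2 hη0.le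
    linarith
  have hX4 : (0 : ℝ) ≤ (X : ℝ) ^ 4 := by positivity
  -- error terms
  have hsw'1 : 8 * δ₀ ^ 2 * X ^ 3 * ∑ n ∈ range (4 * X), (w' n) ^ 2 ≤ 8 * L⁻¹ * (X : ℝ) ^ 4 := by
    rw [clo7_sum X w' hw']
    exact clo7_small L _ X hL1 (by linarith) c hc h2'
  have hsw' : 8 * δ₀ ^ 2 * X ^ 3 * ∑ n ∈ range (4 * X), (w' n) ^ 2 ≤ X ^ 4 := by
    calc _ ≤ 8 * L⁻¹ * (X : ℝ) ^ 4 := hsw'1
      _ ≤ 1 * (X : ℝ) ^ 4 := mul_le_mul_of_nonneg_right h8 hX4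
      _ = _ := one_mul _
  have hsw'' : 8 * δ₀ ^ 2 * X ^ 3 * ∑ n ∈ range (4 * X), (w' n) ^ 2 ≤ C ^ 2 * η * X ^ 4 :=
    hsw'1.trans (mul_le_mul_of_nonneg_right h8' hX4)
  -- the adversary's weights
  set u := am B h' w' with hu
  have hw'0 : ∀ x, 0 ≤ w' x := hR'.nonneg
  obtain ⟨hu1, hu2, -, -, -⟩ := am_supp B h' w' X hh hw' hw'0
  obtain ⟨Ξ, hΞ, hΞc, hΞs⟩ := am_tail B h' w' X hX1 hh hw' C δ₀ hC hδ0 hR' η hδη hη1
  refine ⟨Ξ, hΞ, ?_, fun Ξ' hΞ' T hT hTn w hw hR h2 t E hE f hf => ?_⟩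
  · refine hΞc.trans ?_
    have e1 : (k : ℝ) * (11 * C ^ 2 / η ^ 3) = 11 * k * C ^ 2 / (a ^ 3 * ε ^ 12) := by
      rw [hη]
      ring
    have e2 : 1 / (a ^ 3 / (11 * k * C ^ 2 + 1) * ε ^ 12) = (11 * k * C ^ 2 + 1) / (a ^ 3 * ε ^ 12) := by
      field_simp
    rw [e1, e2]
    exact div_le_div_of_nonneg_right (by linarith) (by positivity)
  obtain ⟨hb1, hb2⟩ := bt_close X hX1 Ξ' ρ hρ0.le T hT hTn
  have hsw : 8 * δ₀ ^ 2 * X ^ 3 * ∑ n ∈ range (4 * X), (w n) ^ 2 ≤ X ^ 4 := by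
    rw [clo7_sum X w hw]
    calc _ ≤ 8 * L⁻¹ * (X : ℝ) ^ 4 := clo7_small L _ X hL1 (by linarith) c hc h2
      _ ≤ 1 * (X : ℝ) ^ 4 := mul_le_mul_of_nonneg_right h8 hX4
      _ = _ := one_mul _
  have hfz : ∀ x, x ∉ Ioc X (2 * X) → f x = 0 := by
    intro x hx
    have h1 := (hf x).1
    have h3 := (hf x).2
    rw [hw x hx] at h3
    linarith
  have hF := l4 C δ₀ hC hδ0 hδ1 X hX1 w f hR hf
  have hU := am_l4 B h' w' X hX1 hh hw' C δ₀ hC hδ0 hδ1 hR'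
  have hP := ph_close X t hX1 E hE u f hu1 hfz T hTn
  have hF' : ∑ ξ ∈ range (8 * X), ‖FT f X ((ξ : ℝ) / (8 * X))‖ ^ 4 ≤ K * X ^ 4 := by
    refine hF.trans ?_
    have : (0 : ℝ) ≤ C ^ 6 * X ^ 4 := by positivity
    rw [hK]
    nlinarith
  have hU' : ∑ ξ ∈ range (8 * X), ‖FT u X ((ξ : ℝ) / (8 * X))‖ ^ 4 ≤ k ^ 4 * (K * X ^ 4) := by
    refine hU.trans ?_
    have h1 : (0 : ℝ) ≤ C ^ 6 * X ^ 4 := by positivity
    have h3 : 211 * C ^ 6 * X ^ 4 + 8 * δ₀ ^ 2 * X ^ 3 * ∑ n ∈ range (4 * X), (w' n) ^ 2 ≤ K * X ^ 4 := by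
      rw [hK]
      nlinarith
    exact mul_le_mul_of_nonneg_left h3 (by positivity)
  have hV' : ∑ ξ ∈ range (8 * X) \ Ξ, ‖FT u X ((ξ : ℝ) / (8 * X))‖ ^ 4 ≤
      k ^ 4 * (201 * C ^ 2 * η * X ^ 4) := by
    refine hΞs.trans ?_
    refine mul_le_mul_of_nonneg_left ?_ (by positivity)
    calc _ ≤ 200 * C ^ 2 * η * (X : ℝ) ^ 4 + C ^ 2 * η * X ^ 4 := by
          exact add_le_add_right hsw'' _
      _ = _ := by ring
  have hW : ∑ ξ ∈ range (8 * X),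
      (‖FT u X ((ξ : ℝ) / (8 * X))‖ * ‖1 - bt T X ξ‖) ^ 4 ≤
      ρ ^ 4 * (k ^ 4 * (K * X ^ 4)) + 16 * (k ^ 4 * (201 * C ^ 2 * η * X ^ 4)) := by
    rw [← sum_sdiff hΞ, add_comm]
    refine add_le_add ?_ ?_
    · calc _ ≤ ∑ ξ ∈ Ξ, ρ ^ 4 * ‖FT u X ((ξ : ℝ) / (8 * X))‖ ^ 4 := by
            refine sum_le_sum fun ξ hξ => ?_
            rw [mul_pow, mul_comm]
            refine mul_le_mul_of_nonneg_right ?_ (by positivity)
            exact pow_le_pow_left₀ (norm_nonneg _) (hb1 ξ (hΞ' hξ)) 4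
        _ = ρ ^ 4 * ∑ ξ ∈ Ξ, ‖FT u X ((ξ : ℝ) / (8 * X))‖ ^ 4 := by rw [mul_sum]
        _ ≤ ρ ^ 4 * ∑ ξ ∈ range (8 * X), ‖FT u X ((ξ : ℝ) / (8 * X))‖ ^ 4 := by
            refine mul_le_mul_of_nonneg_left ?_ (by positivity)
            exact sum_le_sum_of_subset_of_nonneg hΞ fun _ _ _ => by positivity
        _ ≤ _ := mul_le_mul_of_nonneg_left hU' (by positivity)
    · calc _ ≤ ∑ ξ ∈ range (8 * X) \ Ξ, 16 * ‖FT u X ((ξ : ℝ) / (8 * X))‖ ^ 4 := by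
            refine sum_le_sum fun ξ _ => ?_
            rw [mul_pow, mul_comm]
            refine mul_le_mul_of_nonneg_right ?_ (by positivity)
            calc _ ≤ (2 : ℝ) ^ 4 := pow_le_pow_left₀ (norm_nonneg _) (hb2 ξ) 4
              _ = 16 := by norm_num
        _ = 16 * ∑ ξ ∈ range (8 * X) \ Ξ, ‖FT u X ((ξ : ℝ) / (8 * X))‖ ^ 4 := by rw [mul_sum]
        _ ≤ _ := mul_le_mul_of_nonneg_left hV' (by norm_num)
  have hE1 : ((E.card : ℝ) / (8 * X)) ^ 2 ≤ 1 := by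
    have h3 := card_le_card hE
    rw [card_range] at h3
    have h4 : (E.card : ℝ) ≤ 8 * X := by exact_mod_cast h3
    have h5 : (E.card : ℝ) / (8 * X) ≤ 1 := by
      rw [div_le_one (by linarith)]
      exact h4
    exact pow_le_one₀ (by positivity) h5
  have hfin1 : K * (ρ ^ 4 * (k ^ 4 * K)) ≤ ε ^ 4 / 2 := by
    have h3 : a ^ 4 ≤ a := by
      calc a ^ 4 ≤ a ^ 1 := pow_le_pow_of_le_one ha0.le ha1 (by norm_num)
        _ = a := pow_one a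
    have h4 : a ^ 4 * (k ^ 4 * K ^ 2) ≤ 1 / 2 := by
      have h5 : a ^ 4 * (k ^ 4 * K ^ 2) ≤ a * (k ^ 4 * K ^ 2) :=
        mul_le_mul_of_nonneg_right h3 (by positivity)
      rw [hD2] at haD2
      nlinarith
    calc K * (ρ ^ 4 * (k ^ 4 * K)) = (a ^ 4 * (k ^ 4 * K ^ 2)) * ε ^ 4 := by
          rw [hρ]
          ring
      _ ≤ (1 / 2) * ε ^ 4 := mul_le_mul_of_nonneg_right h4 hε4.le
      _ = ε ^ 4 / 2 := by ring
  have hfin2 : K * (16 * (k ^ 4 * (201 * C ^ 2 * η))) ≤ ε ^ 4 / 2 := by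
    have h4 : a * (16 * k ^ 4 * 201 * C ^ 2 * K) ≤ 1 / 2 := by
      rw [hD1] at haD1
      nlinarith
    calc K * (16 * (k ^ 4 * (201 * C ^ 2 * η))) = (a * (16 * k ^ 4 * 201 * C ^ 2 * K)) * ε ^ 4 := by
          rw [hη]
          ring
      _ ≤ (1 / 2) * ε ^ 4 := mul_le_mul_of_nonneg_right h4 hε4.le
      _ = ε ^ 4 / 2 := by ring
  have hfin : (∑ x ∈ Ioc X (2 * X), f x * (ph X E u (x + t) - ph0 X E u T (x + t))) ^ 4 ≤
      (ε * X ^ 2) ^ 4 := by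
    refine hP.trans ?_
    have hA0 : 0 ≤ ∑ ξ ∈ range (8 * X), ‖FT f X ((ξ : ℝ) / (8 * X))‖ ^ 4 :=
      sum_nonneg fun _ _ => by positivity
    calc _ ≤ 1 * (K * X ^ 4) *
          (ρ ^ 4 * (k ^ 4 * (K * X ^ 4)) + 16 * (k ^ 4 * (201 * C ^ 2 * η * X ^ 4))) := by
          refine mul_le_mul ?_ hW (sum_nonneg fun _ _ => by positivity) (by positivity)
          exact mul_le_mul hE1 hF' hA0 zero_le_one
      _ = (K * (ρ ^ 4 * (k ^ 4 * K)) + K * (16 * (k ^ 4 * (201 * C ^ 2 * η)))) * X ^ 8 := by ring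
      _ ≤ (ε ^ 4 / 2 + ε ^ 4 / 2) * X ^ 8 :=
          mul_le_mul_of_nonneg_right (add_le_add hfin1 hfin2) (by positivity)
      _ = _ := by ring
  have h9 : |∑ x ∈ Ioc X (2 * X), f x * (ph X E u (x + t) - ph0 X E u T (x + t))| ^ 4 ≤
      (ε * X ^ 2) ^ 4 := by
    rw [← abs_pow, abs_of_nonneg (by positivity)]
    exact hfin
  exact (pow_le_pow_iff_left₀ (abs_nonneg _) (by positivity) (by norm_num)).mp h9

end Pool.Agent.Lib.SG
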