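import Pool.Agent.Lib.SG.Sqstep

/-!
# SG-Muclose: the presieve up to `y₁` against the presieve up to `y₂`

PROOF. `(log y)^D ≤ C₁ y^(1/4)` for all y ≥ 2 (C₁ depends on D: `Real.log_le_rpow_div` or `isLittleO`), so one step costs
`≤ C C₁ X y₁^(-3/4)`. Claim: `f(y₁, y₂) ≤ C₂ X / √y₁` with `C₂ = 4 C C₁`. Strong induction on y₂ - y₁ (or on y₂/y₁ ...): if `y₂ ≤ y₁²`, the
step. Otherwise `f(y₁, y₂) ≤ f(y₁, y₁²) + f(y₁², y₂) ≤ C C₁ X y₁^(-3/4) + C₂ X / y₁ ≤ C₂ X y₁^(-1/2) (1/4 + y₁^(-1/2))`, and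
`1/4 + 1/√2 ≤ 1` (y₁ ≥ 2, y₁^(-3/4) ≤ y₁^(-1/2)).
-/

set_option autoImplicit false

open Finset

namespace Pool.Agent.Lib.SG

open Pool.Agent.Lib.MT

private theorem Muclose_log (D : ℕ) : ∃ C₁ : ℝ, 1 ≤ C₁ ∧ ∀ y : ℕ, 2 ≤ y →
    (Real.log y) ^ D ≤ C₁ * Real.sqrt y := by
  refine ⟨(2 * ((D : ℝ) + 1)) ^ D, ?_, fun y hy => ?_⟩
  · apply one_le_pow₀
    have : (0 : ℝ) ≤ D := Nat.cast_nonneg D
    linarith
  · have hy1 : (1 : ℝ) ≤ y := by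
      have : (2 : ℝ) ≤ y := by exact_mod_cast hy
      linarith
    have hy0 : (0 : ℝ) ≤ y := by linarith
    have hD : (0 : ℝ) < (D : ℝ) + 1 := by positivity
    set ε : ℝ := 1 / (2 * ((D : ℝ) + 1)) with hε
    have hε0 : 0 < ε := by positivity
    have h1 := Real.log_le_rpow_div hy0 hε0
    have h2 : (y : ℝ) ^ ε / ε = (2 * ((D : ℝ) + 1)) * (y : ℝ) ^ ε := by
      rw [hε]
      field_simp
    rw [h2] at h1
    have hl0 : 0 ≤ Real.log y := Real.log_nonneg hy1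
    calc (Real.log y) ^ D ≤ ((2 * ((D : ℝ) + 1)) * (y : ℝ) ^ ε) ^ D := pow_le_pow_left₀ hl0 h1 D
      _ = (2 * ((D : ℝ) + 1)) ^ D * ((y : ℝ) ^ ε) ^ D := mul_pow _ _ _
      _ ≤ (2 * ((D : ℝ) + 1)) ^ D * Real.sqrt y := by
          apply mul_le_mul_of_nonneg_left _ (by positivity)
          rw [Real.sqrt_eq_rpow, ← Real.rpow_natCast, ← Real.rpow_mul hy0]
          apply Real.rpow_le_rpow_of_exponent_le hy1
          rw [hε, div_mul_eq_mul_div, one_mul, div_le_div_iff₀ (by positivity) (by norm_num)]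
          linarith

theorem muclose (k : ℕ) : ∃ C : ℝ, 1 ≤ C ∧ ∀ B : ℕ, ∃ X₀ : ℕ, ∀ X : ℕ, X₀ ≤ X →
    ∀ Ω : ℕ → Finset ℕ, Nice k Ω → ∀ y₁ y₂ : ℕ, 2 ≤ y₁ → y₁ ≤ y₂ →
    (y₂ : ℝ) ≤ (Real.log X) ^ B → ∀ α : ℝ,
    ‖ES (mu Ω y₂ X) X α - ES (mu Ω y₁ X) X α‖ ≤ C * X / Real.sqrt y₁ := by
  obtain ⟨C, hC, D, hs⟩ := sqstep k
  obtain ⟨C₁, hC₁, hlog⟩ := Muclose_log D
  refine ⟨4 * (C * C₁), by nlinarith, fun B => ?_⟩
  obtain ⟨X₀, hX₀⟩ := hs B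
  refine ⟨X₀, fun X hX Ω hΩ => ?_⟩
  have hX0 : (0 : ℝ) ≤ X := Nat.cast_nonneg X
  -- one step
  have hone : ∀ y₁ y₂ : ℕ, 2 ≤ y₁ → y₁ ≤ y₂ → y₂ ≤ y₁ ^ 2 → (y₂ : ℝ) ≤ (Real.log X) ^ B →
      ∀ α : ℝ, ‖ES (mu Ω y₂ X) X α - ES (mu Ω y₁ X) X α‖ ≤ C * C₁ * X / Real.sqrt y₁ := by
    intro y₁ y₂ h1 h2 h3 h4 α
    refine (hX₀ X hX Ω hΩ y₁ y₂ h1 h2 h3 h4 α).trans ?_
    have hy : (0 : ℝ) < y₁ := by
      have : (2 : ℝ) ≤ y₁ := by exact_mod_cast h1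
      linarith
    have hsq : 0 < Real.sqrt y₁ := Real.sqrt_pos.2 hy
    have hss : Real.sqrt y₁ * Real.sqrt y₁ = y₁ := Real.mul_self_sqrt hy.le
    rw [div_le_div_iff₀ hy hsq]
    calc C * X * (Real.log y₁) ^ D * Real.sqrt y₁
        ≤ C * X * (C₁ * Real.sqrt y₁) * Real.sqrt y₁ := by
          have := hlog y₁ h1
          gcongr
      _ = C * C₁ * X * (Real.sqrt y₁ * Real.sqrt y₁) := by ring
      _ = C * C₁ * X * y₁ := by rw [hss]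
  have hmain : ∀ n : ℕ, ∀ y₁ y₂ : ℕ, y₂ - y₁ ≤ n → 2 ≤ y₁ → y₁ ≤ y₂ →
      (y₂ : ℝ) ≤ (Real.log X) ^ B → ∀ α : ℝ,
      ‖ES (mu Ω y₂ X) X α - ES (mu Ω y₁ X) X α‖ ≤ 4 * (C * C₁) * X / Real.sqrt y₁ := by
    intro n
    induction n with
    | zero =>
      intro y₁ y₂ h0 h1 h2 h4 α
      have : y₂ = y₁ := by omega
      subst this
      rw [sub_self, norm_zero]
      positivity
    | succ n ih =>
      intro y₁ y₂ h0 h1 h2 h4 α
      rcases le_or_gt y₂ (y₁ ^ 2) with h5 | h5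
      · refine (hone y₁ y₂ h1 h2 h5 h4 α).trans ?_
        have : 0 ≤ C * C₁ * X := by positivity
        have h6 : C * C₁ * X ≤ 4 * (C * C₁) * X := by nlinarith
        gcongr
      · have hlt : y₁ < y₁ ^ 2 := by nlinarith
        have h6 : ((y₁ ^ 2 : ℕ) : ℝ) ≤ (Real.log X) ^ B := by
          refine le_trans ?_ h4
          exact_mod_cast h5.le
        have i1 := hone y₁ (y₁ ^ 2) h1 hlt.le le_rfl h6 α
        have i2 := ih (y₁ ^ 2) y₂ (by omega) (by omega) h5.le h4 α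
        refine (norm_sub_le_norm_sub_add_norm_sub _ (ES (mu Ω (y₁ ^ 2) X) X α) _).trans ?_
        have hy : (2 : ℝ) ≤ y₁ := by exact_mod_cast h1
        have hs2 : Real.sqrt ((y₁ ^ 2 : ℕ) : ℝ) = y₁ := by
          push_cast
          exact Real.sqrt_sq (by linarith)
        rw [hs2] at i2
        have hsq : 0 < Real.sqrt y₁ := Real.sqrt_pos.2 (by linarith)
        have hss : Real.sqrt y₁ * Real.sqrt y₁ = y₁ := Real.mul_self_sqrt (by linarith)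
        have hs4 : (4 / 3 : ℝ) ≤ Real.sqrt y₁ := by
          apply Real.le_sqrt_of_sq_le
          norm_num
          linarith
        have hA : 0 ≤ C * C₁ * X := by positivity
        have i3 : 4 * (C * C₁) * X / y₁ ≤ 3 * (C * C₁ * X) / Real.sqrt y₁ := by
          rw [div_le_div_iff₀ (by linarith) hsq]
          have e1 : 3 * (C * C₁ * X) * (y₁ : ℝ) =
              3 * (C * C₁ * X) * (Real.sqrt y₁ * Real.sqrt y₁) := by rw [hss]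
          rw [e1]
          nlinarith [mul_nonneg hA hsq.le, mul_nonneg (mul_nonneg hA hsq.le) (sub_nonneg.2 hs4)]
        calc ‖ES (mu Ω y₂ X) X α - ES (mu Ω (y₁ ^ 2) X) X α‖ +
              ‖ES (mu Ω (y₁ ^ 2) X) X α - ES (mu Ω y₁ X) X α‖
            ≤ 3 * (C * C₁ * X) / Real.sqrt y₁ + C * C₁ * X / Real.sqrt y₁ :=
              add_le_add (i2.trans i3) i1
          _ = 4 * (C * C₁) * X / Real.sqrt y₁ := by ring
  intro y₁ y₂ h1 h2 h4 α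
  exact hmain (y₂ - y₁) y₁ y₂ le_rfl h1 h2 h4 α

end Pool.Agent.Lib.SG
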