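import Pool.Agent.Lib.SG.Pars
import Pool.Agent.Lib.SG.Muclose
import Pool.Agent.Lib.SG.Mumass

/-!
# SG-Rstw: the weights and the presieved integers are pseudorandom in the sense of `Rst`

PROOF. C₀ from `muclose k`, C₃ from `num_V1 k`. Choose C ≥ 6 with `2 (C₃ log (300 C² C₀² /δ⁴ + 2))^(2k) ≤ C/δ` for all δ ∈ (0, 1] (possible: the left side is
`≤ C' (C/δ)^(1/2)` for a constant C' depending on k, C₀, C₃). For δ ∈ [(log X)^(-c), 1] put `y' = ⌈256 C² C₀²/δ⁴⌉ ≤ (log X)^(5c) ≤ z` for X ≥ X₀(c).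
`rst_w`: ν' = M mu Ω y' X (`≤ 2 (V1 Ω y')⁻¹ ≤ C/δ` by `num_V1`): `‖FT w - FT ν'‖ ≤ ‖ES w - M ES mu_z‖ + M ‖ES mu_z - ES mu_y'‖ ≤ X/(log X)^(4c) + 2 C₀ X/√y' ≤ δ² X/(4C)`
(`ft_es`; `√y' ≥ 16 C C₀/δ²`; `(log X)^(4c) ≥ 8 C (log X)^(2c)`). Mass: `∑ w = ES w 0 ≤ M ∑ mu_z + X ≤ 5X` (`mumass` κ = 1/2...). For `Rst.supp`: X ≥ 1.
`rst_mu`: the same for mu Ω y with 2 ≤ y ≤ z: if y ≤ y' take ν' = mu Ω y itself (bounded by `(V1 Ω y)⁻¹ ≤ (V1 Ω y')⁻¹`), otherwise ν' = mu Ω y' and `muclose`.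
-/

set_option autoImplicit false

open Finset

namespace Pool.Agent.Lib.SG

open Pool.Agent.Lib.MT

private theorem rstw_T (k : ℕ) (C₃ A₀ : ℝ) (h3 : 1 ≤ C₃) (hA : 0 ≤ A₀) :
    ∃ T₀ : ℝ, ∀ T : ℝ, T₀ ≤ T → 2 * (C₃ * (A₀ + 4 * Real.log T)) ^ (2 * k) ≤ T := by
  have h1 := isLittleO_log_rpow_rpow_atTop ((2 * k : ℕ) : ℝ) (show (0 : ℝ) < 1 by norm_num)
  have hD : 0 < 2 * (C₃ * (A₀ + 4)) ^ (2 * k) := by
    have : 0 < C₃ := by linarith
    positivity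
  have h2 := h1.bound (inv_pos.mpr hD)
  obtain ⟨T₀, hT₀⟩ := Filter.eventually_atTop.mp h2
  refine ⟨max T₀ 3, fun T hT => ?_⟩
  have h4 := hT₀ T (le_trans (le_max_left _ _) hT)
  have hT3 : 3 ≤ T := le_trans (le_max_right _ _) hT
  have hlog : 1 ≤ Real.log T := by
    rw [Real.le_log_iff_exp_le (by linarith)]
    linarith [Real.exp_one_lt_d9]
  rw [Real.rpow_natCast, Real.rpow_one, Real.norm_of_nonneg (by positivity),
    Real.norm_of_nonneg (by linarith)] at h4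
  have h5 : 2 * (C₃ * (A₀ + 4)) ^ (2 * k) * (Real.log T) ^ (2 * k) ≤ T := by
    have h6 := mul_le_mul_of_nonneg_left h4 hD.le
    rwa [← mul_assoc, mul_inv_cancel₀ hD.ne', one_mul] at h6
  refine le_trans ?_ h5
  rw [mul_assoc, ← mul_pow]
  refine mul_le_mul_of_nonneg_left (pow_le_pow_left₀ (by positivity) ?_ _) (by norm_num)
  have h7 : A₀ + 4 * Real.log T ≤ (A₀ + 4) * Real.log T := by nlinarith
  rw [mul_assoc]
  exact mul_le_mul_of_nonneg_left h7 (by linarith)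

private theorem rstw_y (k : ℕ) (C C₀ C₃ δ : ℝ) (hC : 6 ≤ C) (hC₀ : 1 ≤ C₀) (h3 : 1 ≤ C₃)
    (hT : ∀ T : ℝ, C ≤ T → 2 * (C₃ * (Real.log (257 * C₀ ^ 2) + 4 * Real.log T)) ^ (2 * k) ≤ T)
    (hδ : 0 < δ) (hδ1 : δ ≤ 1) :
    ∃ y : ℕ, 2 ≤ y ∧ (y : ℝ) ≤ 257 * C ^ 2 * C₀ ^ 2 / δ ^ 4 ∧
      2 * (C₃ * Real.log y) ^ (2 * k) ≤ C / δ ∧
      ∀ X : ℝ, 0 ≤ X → C₀ * X / Real.sqrt y ≤ δ ^ 2 / (16 * C) * X := by
  have hC0 : 0 < C := by linarith
  have hC00 : 0 < C₀ := by linarith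
  have hδ4 : δ ^ 4 ≤ 1 := pow_le_one₀ hδ.le hδ1
  have hδ40 : 0 < δ ^ 4 := by positivity
  have hCC : 1 ≤ C ^ 2 * C₀ ^ 2 := by
    have h1 : 1 ≤ C ^ 2 := one_le_pow₀ (by linarith)
    have h2 : 1 ≤ C₀ ^ 2 := one_le_pow₀ hC₀
    nlinarith
  have hq : 1 ≤ C ^ 2 * C₀ ^ 2 / δ ^ 4 := by
    rw [le_div_iff₀ hδ40]
    linarith
  have e256 : 256 * C ^ 2 * C₀ ^ 2 / δ ^ 4 = 256 * (C ^ 2 * C₀ ^ 2 / δ ^ 4) := by ring
  have e257 : 257 * C ^ 2 * C₀ ^ 2 / δ ^ 4 = 257 * (C ^ 2 * C₀ ^ 2 / δ ^ 4) := by ring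
  have hlo : 256 * C ^ 2 * C₀ ^ 2 / δ ^ 4 ≤ (⌈256 * C ^ 2 * C₀ ^ 2 / δ ^ 4⌉₊ : ℝ) := Nat.le_ceil _
  have hhi : (⌈256 * C ^ 2 * C₀ ^ 2 / δ ^ 4⌉₊ : ℝ) < 256 * C ^ 2 * C₀ ^ 2 / δ ^ 4 + 1 :=
    Nat.ceil_lt_add_one (by positivity)
  have hy1 : (256 : ℝ) ≤ (⌈256 * C ^ 2 * C₀ ^ 2 / δ ^ 4⌉₊ : ℝ) := by linarith
  have hhi2 : (⌈256 * C ^ 2 * C₀ ^ 2 / δ ^ 4⌉₊ : ℝ) ≤ 257 * C ^ 2 * C₀ ^ 2 / δ ^ 4 := by linarith
  refine ⟨⌈256 * C ^ 2 * C₀ ^ 2 / δ ^ 4⌉₊, ?_, hhi2, ?_, ?_⟩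
  · have : (2 : ℝ) ≤ (⌈256 * C ^ 2 * C₀ ^ 2 / δ ^ 4⌉₊ : ℝ) := by linarith
    exact_mod_cast this
  · have hCd : C ≤ C / δ := by
      rw [le_div_iff₀ hδ]
      nlinarith
    refine le_trans ?_ (hT (C / δ) hCd)
    have h1 : Real.log (⌈256 * C ^ 2 * C₀ ^ 2 / δ ^ 4⌉₊ : ℝ) ≤
        Real.log (257 * C₀ ^ 2) + 4 * Real.log (C / δ) := by
      have h2 : 257 * C ^ 2 * C₀ ^ 2 / δ ^ 4 ≤ (257 * C₀ ^ 2) * (C / δ) ^ 4 := by
        have h3 : C ^ 2 ≤ C ^ 4 := pow_le_pow_right₀ (by linarith) (by norm_num)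
        rw [div_pow, mul_div_assoc', div_le_div_iff_of_pos_right hδ40]
        nlinarith [sq_nonneg C₀]
      have h4 := Real.log_le_log (by linarith) (le_trans hhi2 h2)
      rw [Real.log_mul (by positivity) (by positivity), Real.log_pow] at h4
      exact_mod_cast h4
    have h5 : 0 ≤ Real.log (⌈256 * C ^ 2 * C₀ ^ 2 / δ ^ 4⌉₊ : ℝ) := Real.log_nonneg (by linarith)
    refine mul_le_mul_of_nonneg_left (pow_le_pow_left₀ (by positivity) ?_ _) (by norm_num)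
    exact mul_le_mul_of_nonneg_left h1 (by linarith)
  · intro X hX
    have h1 : 16 * C * C₀ / δ ^ 2 ≤ Real.sqrt (⌈256 * C ^ 2 * C₀ ^ 2 / δ ^ 4⌉₊ : ℝ) := by
      refine Real.le_sqrt_of_sq_le ?_
      refine le_trans (le_of_eq ?_) hlo
      field_simp
      norm_num
    have h2 : 0 < 16 * C * C₀ / δ ^ 2 := by positivity
    rw [div_le_iff₀ (by linarith)]
    calc C₀ * X = δ ^ 2 / (16 * C) * X * (16 * C * C₀ / δ ^ 2) := by field_simp
      _ ≤ δ ^ 2 / (16 * C) * X * Real.sqrt (⌈256 * C ^ 2 * C₀ ^ 2 / δ ^ 4⌉₊ : ℝ) :=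
        mul_le_mul_of_nonneg_left h1 (by positivity)

private theorem rstw_FT0 (f : ℕ → ℝ) (X : ℕ) :
    FT f X 0 = ((∑ n ∈ range (4 * X), f n : ℝ) : ℂ) := by
  unfold FT
  rw [Complex.ofReal_sum]
  refine sum_congr rfl (fun n _ => ?_)
  rw [zero_mul]
  unfold GT.e
  simp

private theorem rstw_ES0 (f : ℕ → ℝ) (X : ℕ) :
    ES f X 0 = ((∑ n ∈ Ioc X (2 * X), f n : ℝ) : ℂ) := by
  unfold ES
  rw [Complex.ofReal_sum]
  refine sum_congr rfl (fun n _ => ?_)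
  rw [zero_mul]
  unfold GT.e
  simp

private theorem rstw_muz (Ω : ℕ → Finset ℕ) (y X x : ℕ) (hx : x ∉ Ioc X (2 * X)) :
    mu Ω y X x = 0 := by
  unfold mu
  refine if_neg (fun h => hx ?_)
  unfold Pre at h
  exact (mem_filter.mp h).1

private theorem rstw_mub {Ω : ℕ → Finset ℕ} {y : ℕ} (hV : 0 < V1 Ω y) (X x : ℕ) :
    0 ≤ mu Ω y X x ∧ mu Ω y X x ≤ (V1 Ω y)⁻¹ := by
  have h := inv_pos.mpr hV
  unfold mu
  split_ifs
  · exact ⟨h.le, le_refl _⟩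
  · exact ⟨le_refl _, h.le⟩

private theorem rstw_ESmul (f : ℕ → ℝ) (M : ℝ) (X : ℕ) (α : ℝ) :
    ES (fun n => M * f n) X α = M * ES f X α := by
  unfold ES
  rw [mul_sum]
  refine sum_congr rfl (fun n _ => ?_)
  push_cast
  ring

theorem rst_w (k : ℕ) : ∃ C : ℝ, 1 ≤ C ∧ ∀ c B : ℕ, 1 ≤ c → ∃ X₀ : ℕ, ∀ X z : ℕ, X₀ ≤ X →
    (Real.log X) ^ (5 * c) ≤ z → (z : ℝ) ≤ (Real.log X) ^ B → ∀ Ω : ℕ → Finset ℕ, Nice k Ω →
    (∀ (w : ℕ → ℝ) (M : ℝ), 0 ≤ M → M ≤ 2 → (∀ x, 0 ≤ w x) → (∀ x, x ∉ Ioc X (2 * X) → w x = 0) →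
      (∀ α : ℝ, ‖ES w X α - M * ES (mu Ω z X) X α‖ ≤ X / (Real.log X) ^ (4 * c)) →
      Rst C (((Real.log X) ^ c)⁻¹) X w) ∧
    ∀ y : ℕ, 2 ≤ y → y ≤ z → Rst C (((Real.log X) ^ c)⁻¹) X (mu Ω y X) := by
  obtain ⟨C₀, hC₀, hmc⟩ := muclose k
  obtain ⟨C₃, hC₃, hV⟩ := num_V1 k
  have hA : 0 ≤ Real.log (257 * C₀ ^ 2) := Real.log_nonneg (by
    have : 1 ≤ C₀ ^ 2 := one_le_pow₀ hC₀
    linarith)
  obtain ⟨T₀, hT₀⟩ := rstw_T k C₃ (Real.log (257 * C₀ ^ 2)) hC₃ hA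
  obtain ⟨C, hCT, hC6⟩ : ∃ C : ℝ, T₀ ≤ C ∧ 6 ≤ C := ⟨max T₀ 6, le_max_left _ _, le_max_right _ _⟩
  have hC0 : 0 < C := by linarith
  refine ⟨C, by linarith, fun c B hc => ?_⟩
  obtain ⟨X₁, hX₁⟩ := hmc B
  obtain ⟨X₂, hX₂⟩ := mumass k B 1 one_pos
  obtain ⟨X₃, hX₃⟩ : ∃ X₃ : ℕ, ∀ X : ℕ, X₃ ≤ X → 257 * C ^ 2 * C₀ ^ 2 ≤ Real.log X := by
    have h := (Real.tendsto_log_atTop.comp (tendsto_natCast_atTop_atTop (R := ℝ))).eventually_ge_atTop
      (257 * C ^ 2 * C₀ ^ 2)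
    obtain ⟨X₃, h3⟩ := Filter.eventually_atTop.mp h
    exact ⟨X₃, fun X hX => h3 X hX⟩
  refine ⟨max (max X₁ X₂) (max X₃ 1), fun X z hX hz1 hz2 Ω hN => ?_⟩
  have hXX₁ : X₁ ≤ X := le_trans (le_trans (le_max_left _ _) (le_max_left _ _)) hX
  have hXX₂ : X₂ ≤ X := le_trans (le_trans (le_max_right _ _) (le_max_left _ _)) hX
  have hXX₃ : X₃ ≤ X := le_trans (le_trans (le_max_left _ _) (le_max_right _ _)) hX
  have hX1 : 1 ≤ X := le_trans (le_trans (le_max_right _ _) (le_max_right _ _)) hX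
  have hXr : (1 : ℝ) ≤ X := by exact_mod_cast hX1
  have hlog := hX₃ X hXX₃
  have hCC : C * 1 ≤ C ^ 2 * C₀ ^ 2 := by
    have h1 : C ≤ C ^ 2 := by nlinarith
    have h2 : 1 ≤ C₀ ^ 2 := one_le_pow₀ hC₀
    exact mul_le_mul h1 h2 (by norm_num) (by positivity)
  have hL6 : 1542 ≤ Real.log X := by nlinarith
  have hL8 : 8 * C ≤ Real.log X := by nlinarith
  have hL1 : 1 ≤ Real.log X := by linarith
  have hLpos : 0 < Real.log X := by linarith
  have hz : 2 ≤ z := by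
    have h1 : Real.log X ≤ (Real.log X) ^ (5 * c) := by
      calc Real.log X = (Real.log X) ^ 1 := (pow_one _).symm
        _ ≤ (Real.log X) ^ (5 * c) := pow_le_pow_right₀ hL1 (by omega)
    have h2 : (2 : ℝ) ≤ z := by linarith
    exact_mod_cast h2
  -- the choice of `y'` for `δ`
  have hy : ∀ δ : ℝ, ((Real.log X) ^ c)⁻¹ ≤ δ → δ ≤ 1 → ∃ y : ℕ, 2 ≤ y ∧ y ≤ z ∧
      2 * (C₃ * Real.log y) ^ (2 * k) ≤ C / δ ∧
      C₀ * X / Real.sqrt y ≤ δ ^ 2 / (16 * C) * X := by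
    intro δ hδ hδ1
    have hδ0 : 0 < δ := lt_of_lt_of_le (inv_pos.mpr (pow_pos hLpos c)) hδ
    obtain ⟨y, h1, h2, h3, h4⟩ := rstw_y k C C₀ C₃ δ hC6 hC₀ hC₃
      (fun T hT => hT₀ T (le_trans hCT hT)) hδ0 hδ1
    refine ⟨y, h1, ?_, h3, h4 X (by linarith)⟩
    have h5 : (y : ℝ) ≤ z := by
      refine le_trans h2 (le_trans ?_ hz1)
      have h6 : 1 / δ ^ 4 ≤ (Real.log X) ^ (4 * c) := by
        rw [div_le_iff₀ (by positivity)]
        have h7 : 1 ≤ (Real.log X) ^ c * δ := by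
          rw [inv_le_iff_one_le_mul₀ (pow_pos hLpos c)] at hδ
          linarith [mul_comm δ ((Real.log X) ^ c)]
        have h8 : (1 : ℝ) ≤ ((Real.log X) ^ c * δ) ^ 4 := one_le_pow₀ h7
        rw [mul_pow, ← pow_mul, mul_comm c 4] at h8
        exact h8
      have h7 : 257 * C ^ 2 * C₀ ^ 2 ≤ (Real.log X) ^ c := by
        refine le_trans hlog ?_
        calc Real.log X = (Real.log X) ^ 1 := (pow_one _).symm
          _ ≤ (Real.log X) ^ c := pow_le_pow_right₀ hL1 hc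
      calc 257 * C ^ 2 * C₀ ^ 2 / δ ^ 4 = (257 * C ^ 2 * C₀ ^ 2) * (1 / δ ^ 4) := by ring
        _ ≤ (Real.log X) ^ c * (Real.log X) ^ (4 * c) :=
          mul_le_mul h7 h6 (by positivity) (by positivity)
        _ = (Real.log X) ^ (5 * c) := by rw [← pow_add]; congr 1; ring
    exact_mod_cast h5
  have hmass := hX₂ X z hXX₂ hz hz2 Ω hN
  have hXd : (X : ℝ) / (Real.log X) ^ (4 * c) ≤ X :=
    div_le_self (by linarith) (one_le_pow₀ hL1)
  constructor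
  · intro w M hM0 hM2 hw0 hws hcl
    refine ⟨hw0, fun n hn => hws n ?_, ?_, fun δ hδ hδ1 => ?_⟩
    · rw [mem_Ioc]
      omega
    · have h1 := hcl 0
      rw [← ft_es X w hws 0, rstw_FT0, rstw_ES0, ← Complex.ofReal_mul, ← Complex.ofReal_sub,
        Complex.norm_real, Real.norm_eq_abs] at h1
      have h2 := (abs_le.mp h1).2
      have h3 := (abs_le.mp hmass).2
      have h4 : M * ∑ x ∈ Ioc X (2 * X), mu Ω z X x ≤ 2 * (2 * X) := by
        refine mul_le_mul hM2 (by linarith) (sum_nonneg (fun x _ => ?_)) (by norm_num)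
        exact (rstw_mub (hV Ω hN z hz).1 X x).1
      nlinarith
    · have hδ0 : 0 < δ := lt_of_lt_of_le (inv_pos.mpr (pow_pos hLpos c)) hδ
      obtain ⟨y, h1, h2, h3, h4⟩ := hy δ hδ hδ1
      obtain ⟨hVy, _, hVy2⟩ := hV Ω hN y h1
      refine ⟨fun n => M * mu Ω y X n, fun n => ?_, fun α => ?_⟩
      · have h5 := rstw_mub hVy X n
        refine ⟨mul_nonneg hM0 h5.1, ?_⟩
        refine le_trans ?_ h3
        exact mul_le_mul hM2 (le_trans h5.2 hVy2) h5.1 (by norm_num)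
      · rw [ft_es X w hws α, ft_es X (fun n => M * mu Ω y X n) (fun x hx => by
          simp only [rstw_muz Ω y X x hx, mul_zero]) α, rstw_ESmul]
        have h5 := hcl α
        have h6 := hX₁ X hXX₁ Ω hN y z h1 h2 hz2 α
        have h7 : ES w X α - M * ES (mu Ω y X) X α = (ES w X α - M * ES (mu Ω z X) X α) +
            M * (ES (mu Ω z X) X α - ES (mu Ω y X) X α) := by ring
        rw [h7]
        refine le_trans (norm_add_le _ _) ?_
        rw [norm_mul, Complex.norm_real, Real.norm_of_nonneg hM0]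
        have h8 : M * ‖ES (mu Ω z X) X α - ES (mu Ω y X) X α‖ ≤ 2 * (δ ^ 2 / (16 * C) * X) :=
          mul_le_mul hM2 (le_trans h6 h4) (norm_nonneg _) (by norm_num)
        have h9 : (X : ℝ) / (Real.log X) ^ (4 * c) ≤ δ ^ 2 / (8 * C) * X := by
          rw [div_le_iff₀ (pow_pos hLpos _)]
          have h10 : 1 ≤ (Real.log X) ^ c * δ := by
            rw [inv_le_iff_one_le_mul₀ (pow_pos hLpos c)] at hδ
            linarith [mul_comm δ ((Real.log X) ^ c)]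
          have h11 : (1 : ℝ) ≤ ((Real.log X) ^ c * δ) ^ 2 := one_le_pow₀ h10
          have h12 : 8 * C ≤ (Real.log X) ^ (2 * c) := by
            refine le_trans hL8 ?_
            calc Real.log X = (Real.log X) ^ 1 := (pow_one _).symm
              _ ≤ (Real.log X) ^ (2 * c) := pow_le_pow_right₀ hL1 (by omega)
          have h13 : 8 * C ≤ ((Real.log X) ^ c * δ) ^ 2 * (Real.log X) ^ (2 * c) := by
            nlinarith [pow_pos hLpos (2 * c)]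
          have h14 : δ ^ 2 / (8 * C) * X * (Real.log X) ^ (4 * c) =
              X * ((((Real.log X) ^ c * δ) ^ 2 * (Real.log X) ^ (2 * c)) / (8 * C)) := by
            rw [show 4 * c = c * 2 + 2 * c by ring, pow_add, pow_mul]
            ring
          rw [h14]
          refine le_mul_of_one_le_right (by linarith) ?_
          rw [le_div_iff₀ (by linarith)]
          linarith
        have h10 : δ ^ 2 / (8 * C) * X + 2 * (δ ^ 2 / (16 * C) * X) = δ ^ 2 / (4 * C) * X := by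
          field_simp
          ring
        linarith
  · intro y hy2 hyz
    have hyB : (y : ℝ) ≤ (Real.log X) ^ B := le_trans (by exact_mod_cast hyz) hz2
    obtain ⟨hVy, _, hVy2⟩ := hV Ω hN y hy2
    have hmz : ∀ x, x ∉ Ioc X (2 * X) → mu Ω y X x = 0 := rstw_muz Ω y X
    refine ⟨fun n => (rstw_mub hVy X n).1, fun n hn => hmz n ?_, ?_, fun δ hδ hδ1 => ?_⟩
    · rw [mem_Ioc]
      omega
    · have h1 := hX₂ X y hXX₂ hy2 hyB Ω hN
      have h2 := ft_es X (mu Ω y X) hmz 0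
      rw [rstw_FT0, rstw_ES0] at h2
      have h3 := Complex.ofReal_injective h2
      rw [h3]
      have h4 := (abs_le.mp h1).2
      nlinarith
    · have hδ0 : 0 < δ := lt_of_lt_of_le (inv_pos.mpr (pow_pos hLpos c)) hδ
      obtain ⟨y', h1, h2, h3, h4⟩ := hy δ hδ hδ1
      obtain ⟨hVy', _, hVy2'⟩ := hV Ω hN y' h1
      rcases le_total y y' with h | h
      · refine ⟨mu Ω y X, fun n => ?_, fun α => ?_⟩
        · have h5 := rstw_mub hVy X n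
          refine ⟨h5.1, le_trans h5.2 (le_trans hVy2 (le_trans ?_ h3))⟩
          have h6 : Real.log y ≤ Real.log y' := by
            have hy0 : (0 : ℝ) < y := by
              have : 0 < y := by omega
              exact_mod_cast this
            exact Real.log_le_log hy0 (by exact_mod_cast h)
          have h7 : (C₃ * Real.log y) ^ (2 * k) ≤ (C₃ * Real.log y') ^ (2 * k) := by
            refine pow_le_pow_left₀ (mul_nonneg (by linarith) (Real.log_natCast_nonneg y)) ?_ _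
            exact mul_le_mul_of_nonneg_left h6 (by linarith)
          have h8 : 0 ≤ (C₃ * Real.log y') ^ (2 * k) := by
            refine pow_nonneg (mul_nonneg (by linarith) (Real.log_natCast_nonneg y')) _
          linarith
        · rw [sub_self, norm_zero]
          positivity
      · refine ⟨mu Ω y' X, fun n => ?_, fun α => ?_⟩
        · have h5 := rstw_mub hVy' X n
          refine ⟨h5.1, le_trans h5.2 (le_trans hVy2' (le_trans ?_ h3))⟩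
          have h8 : 0 ≤ (C₃ * Real.log y') ^ (2 * k) := by
            refine pow_nonneg (mul_nonneg (by linarith) (Real.log_natCast_nonneg y')) _
          linarith
        · rw [ft_es X (mu Ω y X) hmz α, ft_es X (mu Ω y' X) (rstw_muz Ω y' X) α]
          refine le_trans (hX₁ X hXX₁ Ω hN y' y h1 h hyB α) (le_trans h4 ?_)
          refine mul_le_mul_of_nonneg_right ?_ (by linarith)
          refine div_le_div_of_nonneg_left (by positivity) (by positivity) (by linarith)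

end Pool.Agent.Lib.SG
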