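import Pool.Agent.Lib.SG.Pars

/-!
# SG-Tri: the trilinear estimates

PROOF. By `cor_fourier` (for t and for 0) `8X · ∑ f (cor E u (x+t) - cor E u x) = ∑_ξ FT f · FT u (e(ξ t/8X) - 1) conj(Ê ξ)`. Hölder with exponents 4, 4, 2:
`|..|⁴ ≤ (8X)⁻⁴ ∑ ‖FT f‖⁴ ∑ (‖FT u‖ ‖e - 1‖)⁴ (∑ ‖Ê‖²)²`, and `∑ ‖Ê‖² = 8X |E|` (`cor_norm`): `(8X)⁻⁴ (8X |E|)² = (|E|/8X)²`. (Hölder: Cauchy-Schwarz twice: `(∑ a b c)⁴ ≤
(∑ a²b²)² (∑ c²)² ≤ ∑ a⁴ ∑ b⁴ (∑ c²)²`.)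
-/

set_option autoImplicit false

open Finset

namespace Pool.Agent.Lib.SG

private theorem hold (s : Finset ℕ) (a b c : ℕ → ℝ) :
    (∑ i ∈ s, a i * b i * c i) ^ 4 ≤ (∑ i ∈ s, a i ^ 4) * (∑ i ∈ s, b i ^ 4) * (∑ i ∈ s, c i ^ 2) ^ 2 := by
  have h1 := Finset.sum_mul_sq_le_sq_mul_sq s (fun i => a i * b i) c
  have h2 := Finset.sum_mul_sq_le_sq_mul_sq s (fun i => a i ^ 2) (fun i => b i ^ 2)
  have h3 : (∑ i ∈ s, (a i * b i) ^ 2) = ∑ i ∈ s, a i ^ 2 * b i ^ 2 :=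
    Finset.sum_congr rfl (fun i _ => by ring)
  have h4 : (∑ i ∈ s, (a i ^ 2) ^ 2) = ∑ i ∈ s, a i ^ 4 := Finset.sum_congr rfl (fun i _ => by ring)
  have h5 : (∑ i ∈ s, (b i ^ 2) ^ 2) = ∑ i ∈ s, b i ^ 4 := Finset.sum_congr rfl (fun i _ => by ring)
  rw [h3] at h1
  rw [h4, h5] at h2
  calc (∑ i ∈ s, a i * b i * c i) ^ 4 = ((∑ i ∈ s, a i * b i * c i) ^ 2) ^ 2 := by ring
    _ ≤ ((∑ i ∈ s, a i ^ 2 * b i ^ 2) * ∑ i ∈ s, c i ^ 2) ^ 2 := by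
        apply pow_le_pow_left₀ (sq_nonneg _) h1
    _ = (∑ i ∈ s, a i ^ 2 * b i ^ 2) ^ 2 * (∑ i ∈ s, c i ^ 2) ^ 2 := by ring
    _ ≤ _ := by
        apply mul_le_mul_of_nonneg_right h2 (sq_nonneg _)

private theorem fin (X : ℕ) (hX : 1 ≤ X) (E : Finset ℕ) (hE : E ⊆ range (8 * X)) (L : ℝ) (F G W : ℕ → ℂ)
    (h : ((L : ℝ) : ℂ) * (8 * X) = ∑ ξ ∈ range (8 * X), F ξ * G ξ * W ξ *
      (starRingEnd ℂ) (∑ s ∈ E, GT.e ((ξ : ℝ) / (8 * X) * s))) :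
    L ^ 4 ≤ ((E.card : ℝ) / (8 * X)) ^ 2 * (∑ ξ ∈ range (8 * X), ‖F ξ‖ ^ 4) *
        ∑ ξ ∈ range (8 * X), (‖G ξ‖ * ‖W ξ‖) ^ 4 := by
  have hX' : (0 : ℝ) < 8 * X := by
    have : (1 : ℝ) ≤ X := by exact_mod_cast hX
    linarith
  have h1 : |L| * (8 * X) ≤ ∑ ξ ∈ range (8 * X), ‖F ξ‖ * (‖G ξ‖ * ‖W ξ‖) *
      ‖∑ s ∈ E, GT.e ((ξ : ℝ) / (8 * X) * s)‖ := by
    have h2 : ‖((L : ℝ) : ℂ) * (8 * X)‖ = |L| * (8 * X) := by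
      rw [norm_mul, Complex.norm_real, Real.norm_eq_abs]
      congr 1
      rw [show (8 * (X : ℂ)) = ((8 * X : ℝ) : ℂ) by push_cast; ring, Complex.norm_real, Real.norm_eq_abs,
        abs_of_pos hX']
    rw [← h2, h]
    refine (norm_sum_le _ _).trans (le_of_eq ?_)
    refine Finset.sum_congr rfl (fun ξ _ => ?_)
    rw [norm_mul, norm_mul, norm_mul, RCLike.norm_conj]
    ring
  have h3 := hold (range (8 * X)) (fun ξ => ‖F ξ‖) (fun ξ => ‖G ξ‖ * ‖W ξ‖)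
    (fun ξ => ‖∑ s ∈ E, GT.e ((ξ : ℝ) / (8 * X) * s)‖)
  rw [cor_norm X hX E hE] at h3
  have h4 : (|L| * (8 * X)) ^ 4 ≤ (∑ ξ ∈ range (8 * X), ‖F ξ‖ ^ 4) *
      (∑ ξ ∈ range (8 * X), (‖G ξ‖ * ‖W ξ‖) ^ 4) * (8 * X * (E.card : ℝ)) ^ 2 :=
    (pow_le_pow_left₀ (by positivity) h1 4).trans h3
  have h5 : (|L| * (8 * X)) ^ 4 = L ^ 4 * (8 * X) ^ 4 := by
    rw [mul_pow]
    congr 1
    rw [show |L| ^ 4 = (|L| ^ 2) ^ 2 by ring, sq_abs]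
    ring
  rw [h5] at h4
  have h6 : ((E.card : ℝ) / (8 * X)) ^ 2 * (∑ ξ ∈ range (8 * X), ‖F ξ‖ ^ 4) *
        (∑ ξ ∈ range (8 * X), (‖G ξ‖ * ‖W ξ‖) ^ 4) = ((∑ ξ ∈ range (8 * X), ‖F ξ‖ ^ 4) *
      (∑ ξ ∈ range (8 * X), (‖G ξ‖ * ‖W ξ‖) ^ 4) * (8 * X * (E.card : ℝ)) ^ 2) / (8 * X) ^ 4 := by
    field_simp
  rw [h6, le_div_iff₀ (by positivity)]
  exact h4

theorem tri_shift (X t : ℕ) (hX : 1 ≤ X) (ht : t ≤ X) (E : Finset ℕ) (hE : E ⊆ range (8 * X)) (f u : ℕ → ℝ)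
    (hf : ∀ x, x ∉ Ioc X (2 * X) → f x = 0) (hu : ∀ n, n ∉ Ioc X (3 * X) → u n = 0) :
    (∑ x ∈ Ioc X (2 * X), f x * (cor E u (x + t) - cor E u x)) ^ 4 ≤
      ((E.card : ℝ) / (8 * X)) ^ 2 * (∑ ξ ∈ range (8 * X), ‖FT f X ((ξ : ℝ) / (8 * X))‖ ^ 4) *
        ∑ ξ ∈ range (8 * X), (‖FT u X ((ξ : ℝ) / (8 * X))‖ * ‖GT.e ((ξ : ℝ) / (8 * X) * t) - 1‖) ^ 4 := by
  refine fin X hX E hE _ (fun ξ => FT f X ((ξ : ℝ) / (8 * X))) (fun ξ => FT u X ((ξ : ℝ) / (8 * X)))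
    (fun ξ => GT.e ((ξ : ℝ) / (8 * X) * t) - 1) ?_
  have h1 := cor_fourier X t hX ht E hE f u hf hu
  have h0 := cor_fourier X 0 hX (Nat.zero_le _) E hE f u hf hu
  have h2 : ((∑ x ∈ Ioc X (2 * X), f x * (cor E u (x + t) - cor E u x) : ℝ) : ℂ) * (8 * X) =
      ((∑ x ∈ Ioc X (2 * X), f x * cor E u (x + t) : ℝ) : ℂ) * (8 * X) -
      ((∑ x ∈ Ioc X (2 * X), f x * cor E u (x + 0) : ℝ) : ℂ) * (8 * X) := by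
    rw [← sub_mul, ← Complex.ofReal_sub, ← Finset.sum_sub_distrib]
    have h3 : (∑ x ∈ Ioc X (2 * X), f x * (cor E u (x + t) - cor E u x)) =
        ∑ x ∈ Ioc X (2 * X), (f x * cor E u (x + t) - f x * cor E u (x + 0)) := by
      refine Finset.sum_congr rfl (fun x _ => ?_)
      rw [add_zero]
      ring
    rw [h3]
  rw [h2, h1, h0, ← Finset.sum_sub_distrib]
  refine Finset.sum_congr rfl (fun ξ _ => ?_)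
  rw [show (ξ : ℝ) / (8 * X) * ((0 : ℕ) : ℝ) = 0 by simp, GT.e_zero]
  ring

theorem tri (X : ℕ) (hX : 1 ≤ X) (E : Finset ℕ) (hE : E ⊆ range (8 * X)) (f u : ℕ → ℝ)
    (hf : ∀ x, x ∉ Ioc X (2 * X) → f x = 0) (hu : ∀ n, n ∉ Ioc X (3 * X) → u n = 0) :
    (∑ x ∈ Ioc X (2 * X), f x * cor E u x) ^ 4 ≤
      ((E.card : ℝ) / (8 * X)) ^ 2 * (∑ ξ ∈ range (8 * X), ‖FT f X ((ξ : ℝ) / (8 * X))‖ ^ 4) *
        ∑ ξ ∈ range (8 * X), ‖FT u X ((ξ : ℝ) / (8 * X))‖ ^ 4 := by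
  have h0 := cor_fourier X 0 hX (Nat.zero_le _) E hE f u hf hu
  have h := fin X hX E hE (∑ x ∈ Ioc X (2 * X), f x * cor E u x) (fun ξ => FT f X ((ξ : ℝ) / (8 * X)))
    (fun ξ => FT u X ((ξ : ℝ) / (8 * X))) (fun _ => 1) (by
      have h2 : (∑ x ∈ Ioc X (2 * X), f x * cor E u x) = ∑ x ∈ Ioc X (2 * X), f x * cor E u (x + 0) := by
        simp
      rw [h2, h0]
      refine Finset.sum_congr rfl (fun ξ _ => ?_)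
      rw [show (ξ : ℝ) / (8 * X) * ((0 : ℕ) : ℝ) = 0 by simp, GT.e_zero])
  simp only [norm_one, mul_one] at h
  exact h

end Pool.Agent.Lib.SG
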