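import Pool.Agent.Lib.SG.Diff4
import Pool.Agent.Lib.SG.Tri
import Pool.Agent.Lib.SG.Rstw

/-!
# SG-Cls: the weights may be replaced by the presieved integers up to a constant `y`

PROOF. C from `rst_w k`, C₀ from `muclose k`, δ₀ = (log X)^(-c). Choose η ∈ (0, 1] with `136 · 201 C² η · K₄ ≤ ε⁴/2`, then ζ > 0 with `22 C²/η³ ζ⁴ K₄ ≤ ε⁴/2`, then
y₀ with `2 C₀/√y₀ ≤ ζ/2` (y₀ ≥ 2). For y ≥ y₀ and X ≥ X₀: y ≤ z, δ₀ ≤ η, `‖FT (w - M mu_y)‖ ≤ ‖ES w - M ES mu_z‖ + 2 ‖ES mu_z - ES mu_y‖ ≤ X/(log X)^(4c) + 2 C₀ X/√y ≤ ζ X`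
(`ft_es`), `8 δ₀² X³ S ≤ C² η X⁴` with S = X (log X)^c (`mu2`: ∑ mu² ≤ X log X ≤ S; sums over range (4X) = sums over Ioc X (2X)). `diff4` (both Rst from `rst_w`) and `tri`
((|E|/8X)² ≤ 1): `|..|⁴ ≤ (22 C²/η³ ζ⁴ + 136 · 201 C² η) X⁴ K₄ X⁴ ≤ ε⁴ X⁸`.
-/

set_option autoImplicit false

open Finset

namespace Pool.Agent.Lib.SG

open Pool.Agent.Lib.MT

private theorem cls_small (a e : ℝ) (ha : 0 ≤ a) (he : 0 < e) : ∃ η : ℝ, 0 < η ∧ η ≤ 1 ∧ a * η ≤ e := by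
  refine ⟨min 1 (e / (a + 1)), lt_min one_pos (by positivity), min_le_left _ _, ?_⟩
  have h1 : min 1 (e / (a + 1)) ≤ e / (a + 1) := min_le_right _ _
  calc a * min 1 (e / (a + 1)) ≤ (a + 1) * (e / (a + 1)) := by
        refine mul_le_mul (by linarith) h1 (le_min zero_le_one (by positivity)) (by linarith)
    _ = e := by field_simp

private theorem cls_mu_supp (Ω : ℕ → Finset ℕ) (y X x : ℕ) (hx : x ∉ Ioc X (2 * X)) : mu Ω y X x = 0 := by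
  unfold mu
  rw [if_neg]
  intro h
  unfold Pre at h
  exact hx (mem_filter.1 h).1

private theorem cls_sum (X : ℕ) (hX : 1 ≤ X) (g : ℕ → ℝ) (hg : ∀ x, x ∉ Ioc X (2 * X) → g x = 0) :
    ∑ n ∈ range (4 * X), (g n) ^ 2 = ∑ n ∈ Ioc X (2 * X), (g n) ^ 2 := by
  symm
  refine sum_subset ?_ ?_
  · intro n hn
    rw [mem_Ioc] at hn
    rw [mem_range]
    omega
  · intro n _ hn
    rw [hg n hn]
    ring

theorem cls (k c B : ℕ) (hc : 1 ≤ c) (ε K₄ : ℝ) (hε : 0 < ε) (hK : 0 ≤ K₄) : ∃ y₀ : ℕ, 2 ≤ y₀ ∧ ∀ y : ℕ, y₀ ≤ y →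
    ∃ X₀ : ℕ, ∀ X z : ℕ, X₀ ≤ X → (Real.log X) ^ (5 * c) ≤ z → (z : ℝ) ≤ (Real.log X) ^ B →
    ∀ Ω : ℕ → Finset ℕ, Nice k Ω → ∀ (w : ℕ → ℝ) (M : ℝ), 0 ≤ M → M ≤ 2 → (∀ x, 0 ≤ w x) →
    (∀ x, x ∉ Ioc X (2 * X) → w x = 0) →
    (∀ α : ℝ, ‖ES w X α - M * ES (mu Ω z X) X α‖ ≤ X / (Real.log X) ^ (4 * c)) →
    ∑ x ∈ Ioc X (2 * X), (w x) ^ 2 ≤ X * (Real.log X) ^ c →
    ∀ E ⊆ range (8 * X), ∀ u : ℕ → ℝ, (∀ n, n ∉ Ioc X (3 * X) → u n = 0) →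
    ∑ ξ ∈ range (8 * X), ‖FT u X ((ξ : ℝ) / (8 * X))‖ ^ 4 ≤ K₄ * X ^ 4 →
    |∑ x ∈ Ioc X (2 * X), (w x - M * mu Ω y X x) * cor E u x| ≤ ε * X ^ 2 := by
  obtain ⟨C, hC, hrst⟩ := rst_w k
  obtain ⟨C₀, hC₀, hmuc⟩ := muclose k
  have hC0 : 0 < C := by linarith
  obtain ⟨η, hη0, hη1, hη⟩ := cls_small (136 * 201 * C ^ 2 * K₄) (ε ^ 4 / 2) (by positivity) (by positivity)
  obtain ⟨ζ, hζ0, hζ1, hζ⟩ := cls_small (22 * C ^ 2 / η ^ 3 * K₄) (ε ^ 4 / 2) (by positivity) (by positivity)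
  refine ⟨⌈(4 * C₀ / ζ) ^ 2⌉₊ + 2, by omega, fun y hy => ?_⟩
  have hy2 : 2 ≤ y := by omega
  have hyC : 2 * (C₀ / Real.sqrt y) ≤ ζ / 2 := by
    have h1 : (4 * C₀ / ζ) ^ 2 ≤ y := by
      have h2 : ((⌈(4 * C₀ / ζ) ^ 2⌉₊ : ℕ) : ℝ) ≤ y := by exact_mod_cast (by omega : ⌈(4 * C₀ / ζ) ^ 2⌉₊ ≤ y)
      exact (Nat.le_ceil _).trans h2
    have h3 : 4 * C₀ / ζ ≤ Real.sqrt y := Real.le_sqrt_of_sq_le h1
    have h4 : 0 < 4 * C₀ / ζ := by positivity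
    have h5 : 0 < Real.sqrt y := h4.trans_le h3
    rw [div_le_iff₀ hζ0] at h3
    rw [← mul_div_assoc, div_le_iff₀ h5]
    nlinarith
  obtain ⟨X₁, hX₁⟩ := hrst c B hc
  obtain ⟨X₂, hX₂⟩ := hmuc B
  obtain ⟨X₃, hX₃⟩ := mu2 k 1
  obtain ⟨X₄, hX₄⟩ : ∃ X₄ : ℕ, ∀ X : ℕ, X₄ ≤ X → (y : ℝ) + 1 / η + 2 / ζ + 8 / η + 1 ≤ Real.log X := by
    refine ⟨⌈Real.exp ((y : ℝ) + 1 / η + 2 / ζ + 8 / η + 1)⌉₊, fun X hX => ?_⟩
    have h1 : Real.exp ((y : ℝ) + 1 / η + 2 / ζ + 8 / η + 1) ≤ X :=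
      (Nat.le_ceil _).trans (by exact_mod_cast hX)
    exact (Real.le_log_iff_exp_le ((Real.exp_pos _).trans_le h1)).2 h1
  refine ⟨max (max X₁ X₂) (max (max X₃ X₄) 1), ?_⟩
  intro X z hX hz5 hzB Ω hΩ w M hM hM2 hw0 hws hES hw2 E hE u hu hu4
  have hXX₁ : X₁ ≤ X := by omega
  have hXX₂ : X₂ ≤ X := by omega
  have hXX₃ : X₃ ≤ X := by omega
  have hX1 : 1 ≤ X := by omega
  have hL := hX₄ X (by omega)
  obtain ⟨L, hLd⟩ : ∃ L, L = Real.log X := ⟨_, rfl⟩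
  have hyp : (0 : ℝ) ≤ y := Nat.cast_nonneg y
  have p1 : 0 < 1 / η := by positivity
  have p2 : 0 < 2 / ζ := by positivity
  have p3 : 0 < 8 / η := by positivity
  have hX0 : (0 : ℝ) < X := by exact_mod_cast hX1
  rw [← hLd] at hL hz5 hzB hw2
  have hL1 : 1 ≤ L := by linarith
  have hL0 : 0 < L := by linarith
  have hLc : ∀ n : ℕ, 1 ≤ n → L ≤ L ^ n := fun n hn => le_self_pow₀ hL1 (by omega)
  have hyz : y ≤ z := by
    have h1 : (y : ℝ) ≤ z := by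
      have h2 := hLc (5 * c) (by omega)
      linarith
    exact_mod_cast h1
  obtain ⟨δ₀, hδd⟩ : ∃ δ₀, δ₀ = (L ^ c)⁻¹ := ⟨_, rfl⟩
  have hLcc := hLc c hc
  have hLc0 : 0 < L ^ c := by positivity
  have hδ₀ : 0 < δ₀ := by
    rw [hδd]
    positivity
  have hδη : δ₀ ≤ η := by
    rw [hδd, inv_le_comm₀ hLc0 hη0]
    rw [one_div] at p1 hL
    linarith
  have hR := hX₁ X z hXX₁ (by rw [← hLd]; exact hz5) (by rw [← hLd]; exact hzB) Ω hΩ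
  have hν := hR.1 w M hM hM2 hw0 hws hES
  have hρ := hR.2 y hy2 hyz
  rw [← hLd, ← hδd] at hν hρ
  have hmu := hX₃ X y hXX₃ hy2 (by rw [pow_one, ← hLd]; linarith) Ω hΩ
  have hmus := cls_mu_supp Ω y X
  -- the Fourier transform of the difference is small
  have hd : ∀ α : ℝ, ‖FT (fun n => w n - M * mu Ω y X n) X α‖ ≤ ζ * X := by
    intro α
    have hsup : ∀ x, x ∉ Ioc X (2 * X) → (fun n => w n - M * mu Ω y X n) x = 0 := by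
      intro x hx
      show w x - M * mu Ω y X x = 0
      rw [hws x hx, hmus x hx]
      ring
    rw [ft_es X _ hsup α]
    have h1 : ES (fun n => w n - M * mu Ω y X n) X α =
        (ES w X α - M * ES (mu Ω z X) X α) + M * (ES (mu Ω z X) X α - ES (mu Ω y X) X α) := by
      have h2 : ES (fun n => w n - M * mu Ω y X n) X α = ES w X α - M * ES (mu Ω y X) X α := by
        unfold ES
        rw [mul_sum, ← sum_sub_distrib]
        refine sum_congr rfl fun x _ => ?_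
        push_cast
        ring
      rw [h2]
      ring
    rw [h1]
    refine (norm_add_le _ _).trans ?_
    have h3 := hES α
    have h4 := hX₂ X hXX₂ Ω hΩ y z hy2 hyz (by rw [← hLd]; exact hzB) α
    have h5 : (X : ℝ) / (Real.log X) ^ (4 * c) ≤ ζ / 2 * X := by
      rw [← hLd, div_le_iff₀ (by positivity)]
      have h6 := hLc (4 * c) (by omega)
      have h7 : 1 ≤ ζ / 2 * L := by
        have h8 : 2 / ζ ≤ L := by linarith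
        rw [div_le_iff₀ hζ0] at h8
        linarith
      have h9 : ζ / 2 * L ≤ ζ / 2 * L ^ (4 * c) := mul_le_mul_of_nonneg_left h6 (by positivity)
      nlinarith
    have h6 : ‖(M : ℂ) * (ES (mu Ω z X) X α - ES (mu Ω y X) X α)‖ ≤ ζ / 2 * X := by
      rw [norm_mul, Complex.norm_real, Real.norm_of_nonneg hM]
      have h7 : C₀ * X / Real.sqrt y = X * (C₀ / Real.sqrt y) := by ring
      rw [h7] at h4
      have h8 : (0 : ℝ) ≤ X * (C₀ / Real.sqrt y) := by positivity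
      calc M * ‖ES (mu Ω z X) X α - ES (mu Ω y X) X α‖ ≤ 2 * (X * (C₀ / Real.sqrt y)) :=
            mul_le_mul hM2 h4 (norm_nonneg _) (by norm_num)
        _ = X * (2 * (C₀ / Real.sqrt y)) := by ring
        _ ≤ X * (ζ / 2) := mul_le_mul_of_nonneg_left hyC hX0.le
        _ = ζ / 2 * X := by ring
    linarith
  have hS1 : ∑ n ∈ range (4 * X), (w n) ^ 2 ≤ X * L ^ c := by
    rw [cls_sum X hX1 w hws]
    exact hw2
  have hS2 : ∑ n ∈ range (4 * X), (mu Ω y X n) ^ 2 ≤ X * L ^ c := by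
    rw [cls_sum X hX1 (mu Ω y X) hmus]
    refine hmu.2.trans ?_
    rw [← hLd]
    exact mul_le_mul_of_nonneg_left hLcc hX0.le
  have h4 := diff4 C δ₀ hC hδ₀ X hX1 w (mu Ω y X) hν hρ M hM hM2 ζ (X * L ^ c) hζ0.le hd hS1 hS2 η hδη hη1
  have h5 : 8 * δ₀ ^ 2 * X ^ 3 * (X * L ^ c) ≤ C ^ 2 * η * X ^ 4 := by
    have e1 : 8 * δ₀ ^ 2 * X ^ 3 * (X * L ^ c) = 8 * δ₀ * X ^ 4 * (δ₀ * L ^ c) := by ring
    have e2 : δ₀ * L ^ c = 1 := by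
      rw [hδd]
      exact inv_mul_cancel₀ hLc0.ne'
    rw [e1, e2, mul_one]
    have h6 : 8 * δ₀ ≤ C ^ 2 * η := by
      have h7 : 8 / η ≤ L ^ c := by linarith
      have h8 : 8 * δ₀ ≤ η := by
        rw [hδd, ← div_eq_mul_inv, div_le_iff₀ hLc0]
        rw [div_le_iff₀ hη0] at h7
        linarith
      have h9 : 1 ≤ C ^ 2 := one_le_pow₀ hC
      nlinarith
    exact mul_le_mul_of_nonneg_right h6 (by positivity)
  have h6 := tri X hX1 E hE (fun n => w n - M * mu Ω y X n) u (fun x hx => by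
    show w x - M * mu Ω y X x = 0
    rw [hws x hx, hmus x hx]
    ring) hu
  obtain ⟨F4, hF4⟩ : ∃ F4, F4 = ∑ ξ ∈ range (8 * X),
    ‖FT (fun n => w n - M * mu Ω y X n) X ((ξ : ℝ) / (8 * X))‖ ^ 4 := ⟨_, rfl⟩
  obtain ⟨U4, hU4⟩ : ∃ U4, U4 = ∑ ξ ∈ range (8 * X), ‖FT u X ((ξ : ℝ) / (8 * X))‖ ^ 4 := ⟨_, rfl⟩
  rw [← hF4] at h4
  rw [← hF4, ← hU4] at h6
  rw [← hU4] at hu4
  have hF0 : 0 ≤ F4 := by
    rw [hF4]
    exact sum_nonneg fun _ _ => by positivity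
  have hU0 : 0 ≤ U4 := by
    rw [hU4]
    exact sum_nonneg fun _ _ => by positivity
  have h7 : ((E.card : ℝ) / (8 * X)) ^ 2 ≤ 1 := by
    refine pow_le_one₀ (by positivity) ?_
    rw [div_le_one (by positivity)]
    have h8 : E.card ≤ 8 * X := by
      have := card_le_card hE
      rwa [card_range] at this
    exact_mod_cast h8
  have h8 : F4 ≤ (22 * C ^ 2 / η ^ 3 * ζ + 136 * 201 * C ^ 2 * η) * X ^ 4 := by
    have h9 : 22 * C ^ 2 / η ^ 3 * ζ ^ 4 * X ^ 4 ≤ 22 * C ^ 2 / η ^ 3 * ζ * X ^ 4 := by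
      have h10 : ζ ^ 4 ≤ ζ := by
        have := pow_le_of_le_one hζ0.le hζ1 (n := 4) (by norm_num)
        exact this
      exact mul_le_mul_of_nonneg_right (mul_le_mul_of_nonneg_left h10 (by positivity)) (by positivity)
    linarith
  have h9 : (∑ x ∈ Ioc X (2 * X), (w x - M * mu Ω y X x) * cor E u x) ^ 4 ≤ (ε * X ^ 2) ^ 4 := by
    refine h6.trans ?_
    calc ((E.card : ℝ) / (8 * X)) ^ 2 * F4 * U4 ≤ 1 * F4 * U4 :=
          mul_le_mul_of_nonneg_right (mul_le_mul_of_nonneg_right h7 hF0) hU0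
      _ = F4 * U4 := by ring
      _ ≤ ((22 * C ^ 2 / η ^ 3 * ζ + 136 * 201 * C ^ 2 * η) * X ^ 4) * (K₄ * X ^ 4) :=
          mul_le_mul h8 hu4 hU0 (hF0.trans h8)
      _ = (22 * C ^ 2 / η ^ 3 * K₄ * ζ + 136 * 201 * C ^ 2 * K₄ * η) * X ^ 8 := by ring
      _ ≤ ε ^ 4 * X ^ 8 := mul_le_mul_of_nonneg_right (by linarith) (by positivity)
      _ = (ε * X ^ 2) ^ 4 := by ring
  have h10 : |∑ x ∈ Ioc X (2 * X), (w x - M * mu Ω y X x) * cor E u x| ^ 4 ≤ (ε * X ^ 2) ^ 4 := by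
    have h11 : ∀ a : ℝ, |a| ^ 4 = a ^ 4 := fun a => by
      have : |a| ^ 4 = (|a| ^ 2) ^ 2 := by ring
      rw [this, sq_abs]
      ring
    rw [h11]
    exact h9
  exact (pow_le_pow_iff_left₀ (abs_nonneg _) (by positivity) (by norm_num)).1 h10

end Pool.Agent.Lib.SG
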