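import Pool.Agent.Lib.SG.Defs

/-!
# SG-Clus: clusters contain primes of `A`

PROOF. If at least m of the x + h i are prime (they are distinct and in (x, x+H]), then `Hit` gives p ∈ A prime in (x, x + H], p = x + t, 1 ≤ t ≤ H. Either t = h i for
some i: then the third count is ≥ 1, or t is one of the t of the second count. So `k ≤ k (..)` in both cases, and the number of prime x + h i is
at most k. If fewer than m are prime, the left side is at most 0 (`≤ m - 1`) minus a nonnegative number.
-/

set_option autoImplicit false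

open Finset

namespace Pool.Agent.Lib.SG

open Classical in
theorem clus {m k H X : ℕ} (hm : 1 ≤ m) (h : Fin k → ℕ) (hinj : Function.Injective h)
    (hh : ∀ i, 1 ≤ h i ∧ h i ≤ H) (A : Set ℕ) (hA : Hit m H (2 * X) A) (x : ℕ) (hx : x ∈ Ioc X (2 * X)) :
    ((univ.filter (fun i : Fin k => (x + h i).Prime)).card : ℝ) - (m - 1) -
        k * (((Icc 1 H).filter (fun t => (∀ i, t ≠ h i) ∧ (x + t).Prime)).card : ℝ) ≤
      k * ((univ.filter (fun i : Fin k => x + h i ∈ A ∧ (x + h i).Prime)).card : ℝ) := by
  rw [Finset.mem_Ioc] at hx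
  obtain ⟨a, ha⟩ : ∃ a, a = (univ.filter (fun i : Fin k => (x + h i).Prime)).card := ⟨_, rfl⟩
  obtain ⟨b, hb⟩ : ∃ b, b = ((Icc 1 H).filter (fun t => (∀ i, t ≠ h i) ∧ (x + t).Prime)).card := ⟨_, rfl⟩
  obtain ⟨c, hc⟩ : ∃ c, c = (univ.filter (fun i : Fin k => x + h i ∈ A ∧ (x + h i).Prime)).card := ⟨_, rfl⟩
  rw [← ha, ← hb, ← hc]
  have hak : a ≤ k := by
    rw [ha]
    refine (Finset.card_filter_le _ _).trans (le_of_eq ?_)
    simp
  have hak' : (a : ℝ) ≤ k := by exact_mod_cast hak
  have hm' : (1 : ℝ) ≤ m := by exact_mod_cast hm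
  by_cases hma : m ≤ a
  · have h1 : m ≤ ((Ioc x (x + H)).filter Nat.Prime).card := by
      refine hma.trans ?_
      rw [ha]
      refine Finset.card_le_card_of_injOn (fun i => x + h i) ?_ ?_
      · intro i hi
        rw [Finset.mem_coe, Finset.mem_filter] at hi
        rw [Finset.mem_coe, Finset.mem_filter, Finset.mem_Ioc]
        have := hh i
        show (x < x + h i ∧ x + h i ≤ x + H) ∧ (x + h i).Prime
        exact ⟨⟨by omega, by omega⟩, hi.2⟩
      · intro i _ j _ hij
        apply hinj
        simp only at hij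
        omega
    obtain ⟨p, hpA, hp, hxp, hpH⟩ := hA x hx.2 h1
    have h2 : 1 ≤ b + c := by
      by_cases h3 : ∃ i, p = x + h i
      · obtain ⟨i, hi⟩ := h3
        have : 1 ≤ c := by
          rw [hc, Nat.one_le_iff_ne_zero, Finset.card_ne_zero]
          refine ⟨i, ?_⟩
          rw [Finset.mem_filter]
          exact ⟨Finset.mem_univ _, by rw [← hi]; exact hpA, by rw [← hi]; exact hp⟩
        omega
      · have : 1 ≤ b := by
          rw [hb, Nat.one_le_iff_ne_zero, Finset.card_ne_zero]
          refine ⟨p - x, ?_⟩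
          rw [Finset.mem_filter, Finset.mem_Icc]
          refine ⟨⟨by omega, by omega⟩, ?_, ?_⟩
          · intro i hi
            exact h3 ⟨i, by omega⟩
          · rw [show x + (p - x) = p by omega]
            exact hp
        omega
    have h2' : (1 : ℝ) ≤ b + c := by exact_mod_cast h2
    have hk0 : (0 : ℝ) ≤ k := by positivity
    have h4 : (k : ℝ) * 1 ≤ k * (b + c) := mul_le_mul_of_nonneg_left h2' hk0
    nlinarith
  · have h1 : (a : ℝ) ≤ m - 1 := by
      have : a + 1 ≤ m := by omega
      have : ((a + 1 : ℕ) : ℝ) ≤ m := by exact_mod_cast this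
      push_cast at this
      linarith
    have h3 : (0 : ℝ) ≤ k * b := by positivity
    have h4 : (0 : ℝ) ≤ k * c := by positivity
    linarith

end Pool.Agent.Lib.SG
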