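import Pool.Agent.Lib.SG.Defs7

/-!
# SG-Dich: among 2k points, k have a property or k do not have it

PROOF. One of the two filters of univ has at least k elements (their cardinalities add up to 2k); an embedding of `Fin k` (`Finset.orderEmbOfCardLe`, or `Finset.exists_subset_card_eq` and `Finset.equivFin`).
-/

set_option autoImplicit false

open Finset

namespace Pool.Agent.Lib.SG

private theorem dich_emb (k : ℕ) (S : Finset (Fin (2 * k))) (hS : k ≤ S.card) :
    ∃ e : Fin k → Fin (2 * k), Function.Injective e ∧ ∀ i, e i ∈ S := by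
  obtain ⟨T, hTS, hT⟩ := Finset.exists_subset_card_eq hS
  exact ⟨fun i => T.orderEmbOfFin hT i, (T.orderEmbOfFin hT).injective,
    fun i => hTS (T.orderEmbOfFin_mem hT i)⟩

theorem dich (k : ℕ) (P : Fin (2 * k) → Prop) :
    (∃ e : Fin k → Fin (2 * k), Function.Injective e ∧ ∀ i, P (e i)) ∨
      ∃ e : Fin k → Fin (2 * k), Function.Injective e ∧ ∀ i, ¬ P (e i) := by
  classical
  have h1 : (univ.filter P).card + (univ.filter (fun i => ¬ P i)).card = 2 * k := by
    rw [← Finset.card_union_of_disjoint (Finset.disjoint_filter_filter_not _ _ _),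
      Finset.filter_union_filter_not_eq, Finset.card_univ, Fintype.card_fin]
  by_cases h : k ≤ (univ.filter P).card
  · obtain ⟨e, he, h2⟩ := dich_emb k _ h
    exact Or.inl ⟨e, he, fun i => (Finset.mem_filter.1 (h2 i)).2⟩
  · obtain ⟨e, he, h2⟩ := dich_emb k (univ.filter (fun i => ¬ P i)) (by omega)
    exact Or.inr ⟨e, he, fun i => (Finset.mem_filter.1 (h2 i)).2⟩

end Pool.Agent.Lib.SG
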