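import Pool.Agent.Lib.SG.Swp7
import Pool.Agent.Lib.SG.Dich

/-!
# SG-Comb7: the two parts together (helper10)

`r` = the presieved integers, `φ` = the structured correlation, `g` = the fixed tuple of 2k shifts. Either `φ` is at most `τ X` at k of the points `x + g j`,
or it is larger than `τ X` at k of these points.
-/

set_option autoImplicit false

open Finset

namespace Pool.Agent.Lib.SG

private theorem comb7_cor_add (E : Finset ℕ) {ι : Type*} (S : Finset ι) (r rb : ℕ → ℝ) (f : ι → ℕ → ℝ)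
    (h : ∀ x, r x = rb x + ∑ e ∈ S, f e x) (n : ℕ) :
    cor E r n = cor E rb n + ∑ e ∈ S, cor E (f e) n := by
  unfold cor
  rw [sum_comm, ← sum_add_distrib]
  refine sum_congr rfl fun s _ => ?_
  split_ifs
  · exact h _
  · rw [sum_const_zero, add_zero]

private theorem comb7_prod {k : ℕ} (a : Fin k → ℝ) (t U : ℝ) (ht : 0 < t) (hU : 0 < U)
    (ha : ∀ i, t < a i) : 1 ≤ (U / t) ^ k * ∏ i, (a i / U) := by
  have h1 : (U / t) ^ k * ∏ i, (a i / U) = ∏ i, (U / t * (a i / U)) := by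
    rw [prod_mul_distrib, prod_const, card_univ, Fintype.card_fin]
  rw [h1]
  have h2 : ∀ i ∈ (univ : Finset (Fin k)), (1 : ℝ) ≤ U / t * (a i / U) := by
    intro i _
    have h3 : U / t * (a i / U) = a i / t := by
      field_simp
    rw [h3, one_le_div ht]
    exact (ha i).le
  calc (1 : ℝ) = ∏ _i : Fin k, (1 : ℝ) := by rw [prod_const_one]
    _ ≤ _ := prod_le_prod (fun _ _ => zero_le_one) h2

theorem comb7 (k X H₀ : ℕ) (hX : 1 ≤ X) (E : Finset ℕ) (r : ℕ → ℝ) (hr0 : ∀ x, 0 ≤ r x)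
    (hrs : ∀ x, x ∉ Ioc X (2 * X) → r x = 0) (hr1 : ∑ x ∈ Ioc X (2 * X), r x ≤ 2 * X)
    (φ : ℕ → ℝ) (hφ : ∀ n, 0 ≤ φ n) (g : Fin (2 * k) → ℕ) (τ U B₁ B₂ : ℝ) (hτ : 0 < τ) (hU : 0 < U)
    (Inj : Finset (Fin k → Fin (2 * k))) (hInj : ∀ e, Function.Injective e → e ∈ Inj)
    (h1 : ∀ e ∈ Inj, ∑ x ∈ Ioc X (2 * X), r x * ∏ i, (φ (x + g (e i)) / U) ≤ B₁)
    (h2 : ∀ e ∈ Inj, ∀ f : ℕ → ℝ, (∀ x, 0 ≤ f x ∧ f x ≤ r x) →
      (∀ x, f x ≠ 0 → ∀ i, φ (x + g (e i)) ≤ τ * X) →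
      ∑ x ∈ Ioc X (2 * X), r x * cor E f (x + H₀) ≤ k ^ 2 * τ * X * ∑ x ∈ Ioc X (2 * X), f x + B₂) :
    ∑ x ∈ Ioc X (2 * X), r x * cor E r (x + H₀) ≤
      2 * X * (Inj.card * (U / (τ * X)) ^ k * B₁) + 2 * k ^ 2 * τ * X ^ 2 + Inj.card * B₂ := by
  classical
  have hX0 : (0 : ℝ) < X := by exact_mod_cast hX
  have hτX : 0 < τ * X := mul_pos hτ hX0
  obtain ⟨bad, hbad⟩ : ∃ bad : ℕ → Prop, bad = fun x => ∃ e ∈ Inj, ∀ i, τ * X < φ (x + g (e i)) := ⟨_, rfl⟩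
  have hbadx : ∀ x, bad x ↔ ∃ e ∈ Inj, ∀ i, τ * X < φ (x + g (e i)) := fun x => by rw [hbad]
  have hex : ∀ x, ∃ e, e ∈ Inj ∧ (¬ bad x → ∀ i, φ (x + g (e i)) ≤ τ * X) := by
    intro x
    rcases dich k (fun j => φ (x + g j) ≤ τ * X) with ⟨e, he, hP⟩ | ⟨e, he, hP⟩
    · exact ⟨e, hInj e he, fun _ => hP⟩
    · refine ⟨e, hInj e he, fun hb => ?_⟩
      exact absurd ((hbadx x).2 ⟨e, hInj e he, fun i => not_le.1 (hP i)⟩) hb
  choose ch hch1 hch2 using hex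
  obtain ⟨f, hf⟩ : ∃ f : (Fin k → Fin (2 * k)) → ℕ → ℝ,
      f = fun e x => if ¬ bad x ∧ ch x = e then r x else 0 := ⟨_, rfl⟩
  obtain ⟨rb, hrb⟩ : ∃ rb : ℕ → ℝ, rb = fun x => if bad x then r x else 0 := ⟨_, rfl⟩
  have hfx : ∀ e x, f e x = if ¬ bad x ∧ ch x = e then r x else 0 := fun e x => by rw [hf]
  have hrbx : ∀ x, rb x = if bad x then r x else 0 := fun x => by rw [hrb]
  have hsum : ∀ x, r x = rb x + ∑ e ∈ Inj, f e x := by
    intro x
    rw [hrbx]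
    by_cases hb : bad x
    · rw [if_pos hb, sum_eq_zero, add_zero]
      intro e _
      rw [hfx, if_neg (fun h => h.1 hb)]
    · rw [if_neg hb, zero_add, sum_eq_single (ch x)]
      · rw [hfx, if_pos ⟨hb, rfl⟩]
      · intro e _ he
        rw [hfx, if_neg (fun h => he h.2.symm)]
      · intro h
        exact absurd (hch1 x) h
  have hf0 : ∀ e x, 0 ≤ f e x ∧ f e x ≤ r x := by
    intro e x
    rw [hfx]
    split_ifs
    · exact ⟨hr0 x, le_rfl⟩
    · exact ⟨le_rfl, hr0 x⟩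
  have hrb0 : ∀ x, 0 ≤ rb x := by
    intro x
    rw [hrbx]
    split_ifs
    · exact hr0 x
    · exact le_rfl
  have hrbs : ∀ x, x ∉ Ioc X (2 * X) → rb x = 0 := by
    intro x hx
    rw [hrbx]
    split_ifs
    · exact hrs x hx
    · rfl
  have hrs3 : ∀ x, x ∉ Ioc X (3 * X) → r x = 0 := by
    intro x hx
    apply hrs
    rw [mem_Ioc] at hx ⊢
    omega
  have hr3 : ∑ x ∈ Ioc X (3 * X), r x ≤ 2 * X := by
    have a1 : ∑ x ∈ Ioc X (3 * X), r x = ∑ x ∈ Ioc X (2 * X), r x := by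
      symm
      apply sum_subset
      · intro x hx
        rw [mem_Ioc] at hx ⊢
        omega
      · intro x _ hx
        exact hrs x hx
    rw [a1]
    exact hr1
  -- the split
  have hsplit : ∑ x ∈ Ioc X (2 * X), r x * cor E r (x + H₀) =
      ∑ x ∈ Ioc X (2 * X), r x * cor E rb (x + H₀) +
      ∑ e ∈ Inj, ∑ x ∈ Ioc X (2 * X), r x * cor E (f e) (x + H₀) := by
    rw [sum_comm, ← sum_add_distrib]
    refine sum_congr rfl fun x _ => ?_
    rw [comb7_cor_add E Inj r rb f hsum (x + H₀), mul_add, mul_sum]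
  rw [hsplit]
  -- the good part
  have hgood : ∑ e ∈ Inj, ∑ x ∈ Ioc X (2 * X), r x * cor E (f e) (x + H₀) ≤
      2 * k ^ 2 * τ * X ^ 2 + Inj.card * B₂ := by
    have a1 : ∑ e ∈ Inj, ∑ x ∈ Ioc X (2 * X), r x * cor E (f e) (x + H₀) ≤
        ∑ e ∈ Inj, (k ^ 2 * τ * X * ∑ x ∈ Ioc X (2 * X), f e x + B₂) := by
      refine sum_le_sum fun e he => h2 e he (f e) (hf0 e) (fun x hx i => ?_)
      rw [hfx] at hx
      have hx' : ¬ bad x ∧ ch x = e := by
        by_contra hc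
        rw [if_neg hc] at hx
        exact hx rfl
      rw [← hx'.2]
      exact hch2 x hx'.1 i
    refine a1.trans ?_
    rw [sum_add_distrib, sum_const, nsmul_eq_mul, ← mul_sum, sum_comm]
    have a2 : ∑ x ∈ Ioc X (2 * X), ∑ e ∈ Inj, f e x ≤ 2 * X := by
      refine le_trans (sum_le_sum fun x _ => ?_) hr1
      have := hsum x
      have := hrb0 x
      linarith
    have a3 : (k : ℝ) ^ 2 * τ * X * ∑ x ∈ Ioc X (2 * X), ∑ e ∈ Inj, f e x ≤ k ^ 2 * τ * X * (2 * X) := by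
      apply mul_le_mul_of_nonneg_left a2
      positivity
    have a4 : (k : ℝ) ^ 2 * τ * X * (2 * X) = 2 * k ^ 2 * τ * X ^ 2 := by ring
    linarith
  -- the bad part
  have hbadp : ∑ x ∈ Ioc X (2 * X), r x * cor E rb (x + H₀) ≤
      2 * X * (Inj.card * (U / (τ * X)) ^ k * B₁) := by
    rw [swp_symm X H₀ E r rb hrs hrbs]
    have a1 : ∑ x ∈ Ioc X (2 * X), rb x * cor E r (x + H₀) ≤ ∑ x ∈ Ioc X (2 * X), rb x * (2 * X) := by
      refine sum_le_sum fun x _ => ?_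
      apply mul_le_mul_of_nonneg_left _ (hrb0 x)
      exact ((cor_le X E r hr0 hrs3 (x + H₀)).2).trans hr3
    refine a1.trans ?_
    rw [← sum_mul, mul_comm _ (2 * (X : ℝ))]
    apply mul_le_mul_of_nonneg_left _ (by positivity)
    have a2 : ∀ x ∈ Ioc X (2 * X), rb x ≤ ∑ e ∈ Inj, (U / (τ * X)) ^ k * (r x * ∏ i, (φ (x + g (e i)) / U)) := by
      intro x _
      have a3 : ∀ e ∈ Inj, 0 ≤ (U / (τ * X)) ^ k * (r x * ∏ i, (φ (x + g (e i)) / U)) := by
        intro e _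
        have : 0 ≤ ∏ i, (φ (x + g (e i)) / U) := prod_nonneg fun i _ => div_nonneg (hφ _) hU.le
        have := hr0 x
        positivity
      rw [hrbx]
      by_cases hb : bad x
      · rw [if_pos hb]
        obtain ⟨e, he, hei⟩ := (hbadx x).1 hb
        refine le_trans ?_ (single_le_sum a3 he)
        have a4 := comb7_prod (fun i => φ (x + g (e i))) (τ * X) U hτX hU hei
        calc r x = r x * 1 := (mul_one _).symm
          _ ≤ r x * ((U / (τ * X)) ^ k * ∏ i, (φ (x + g (e i)) / U)) :=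
              mul_le_mul_of_nonneg_left a4 (hr0 x)
          _ = (U / (τ * X)) ^ k * (r x * ∏ i, (φ (x + g (e i)) / U)) := by ring
      · rw [if_neg hb]
        exact sum_nonneg a3
    refine (sum_le_sum a2).trans ?_
    rw [sum_comm]
    have a5 : ∀ e ∈ Inj, ∑ x ∈ Ioc X (2 * X), (U / (τ * X)) ^ k * (r x * ∏ i, (φ (x + g (e i)) / U)) ≤
        (U / (τ * X)) ^ k * B₁ := by
      intro e he
      rw [← mul_sum]
      exact mul_le_mul_of_nonneg_left (h1 e he) (by positivity)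
    refine (sum_le_sum a5).trans ?_
    rw [sum_const, nsmul_eq_mul, mul_assoc]
  linarith

end Pool.Agent.Lib.SG
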