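import Pool.Agent.Lib.SG.Defs

/-!
# SG-Defs7: definitions for the version with clusters of bounded length

`Wg`: as `Wt`, but the presieve `Ω` is not only that of the tuple `h`. `Cov Ω h`: `Ω` contains the classes of the `-h i`.
`gt K j = (j + 1) (2K)!`: the fixed tuple. `Bh N Ξ ρ`: the Bohr set. `ph`: the correlation `∑_{s ∈ E} W(s - n)` modulo `8X`;
`ph0`: its average over `n + t`, `t ∈ T`.
-/

set_option autoImplicit false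

open Finset

namespace Pool.Agent.Lib.SG

open Pool.Agent.Lib.MT

structure Wg (m k H z X c : ℕ) (Ω : ℕ → Finset ℕ) (h : Fin k → ℕ) (w : ℕ → ℝ) (v : Fin k → ℕ → ℝ)
    (M : ℝ) (M' : Fin k → ℝ) (κ : ℝ) : Prop where
  w0 : ∀ x, 0 ≤ w x
  ws : ∀ x, x ∉ Pre Ω z X → w x = 0
  v0 : ∀ i x, 0 ≤ v i x
  vw : ∀ i x, v i x ≤ w x
  vp : ∀ i x, v i x ≠ 0 → (x + h i).Prime
  l2 : ∑ x ∈ Ioc X (2 * X), (w x) ^ 2 ≤ X * (Real.log X) ^ c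
  M0 : 0 ≤ M
  M1 : M ≤ 1 + κ
  M'0 : ∀ i, 0 ≤ M' i
  M'1 : ∀ i, M' i ≤ 1 + κ
  M'2 : (m : ℝ) + 1 - κ ≤ ∑ i, M' i
  clw : ∀ α : ℝ, ‖ES w X α - M * ES (mu Ω z X) X α‖ ≤ X / (Real.log X) ^ (4 * c)
  clv : ∀ i, ∀ α : ℝ, ‖ES (v i) X α - M' i * ES (mu Ω z X) X α‖ ≤ X / (Real.log X) ^ (4 * c)
  bad : ∑ x ∈ Ioc X (2 * X), w x *
    (((Icc 1 H).filter (fun t => (∀ i, t ≠ h i) ∧ (x + t).Prime)).card : ℝ) ≤ κ * X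

def Cov {k : ℕ} (Ω : ℕ → Finset ℕ) (h : Fin k → ℕ) : Prop :=
  ∀ p : ℕ, p.Prime → ∀ i, ∀ x : ℕ, p ∣ x + h i → x % p ∈ Ω p

def gt (K : ℕ) (j : Fin K) : ℕ := ((j : ℕ) + 1) * (2 * K).factorial

open Classical in
noncomputable def Bh (N : ℕ) (Ξ : Finset ℕ) (ρ : ℝ) : Finset ℕ :=
  (range N).filter (fun t => ∀ ξ ∈ Ξ, ‖GT.e ((ξ : ℝ) / N * t) - 1‖ ≤ ρ)

noncomputable def ph (X : ℕ) (E : Finset ℕ) (W : ℕ → ℝ) (n : ℕ) : ℝ :=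
  ∑ s ∈ E, W ((s + 8 * X - n % (8 * X)) % (8 * X))

noncomputable def ph0 (X : ℕ) (E : Finset ℕ) (W : ℕ → ℝ) (T : Finset ℕ) (n : ℕ) : ℝ :=
  (T.card : ℝ)⁻¹ * ∑ t ∈ T, ph X E W (n + t)

/-- the average of the phases over `T` -/
noncomputable def bt (T : Finset ℕ) (X ξ : ℕ) : ℂ :=
  ((T.card : ℝ)⁻¹ : ℝ) * ∑ t ∈ T, GT.e ((ξ : ℝ) / (8 * X) * t)

end Pool.Agent.Lib.SG
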