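import Pool.Agent.Lib.SG.Exc
import Pool.Agent.Lib.SG.Ap

/-!
# SG-Dfd: the difference between a class mod `D` and its density on the `x` with `x % r ∈ Ω r` (`r ∈ d`)

PROOF. Let ω = ∏_{r ∈ d} |Ω r|, Δ = ∏_{r ∈ d} r. The x with x % r ∈ Ω r for all r ∈ d are the union of at most ω classes s mod Δ (Chinese
remainder theorem; the same step is in the proof of `MT.layC_one`; for example partition by s = x % Δ: the number of s < Δ with s % r ∈ Ω r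
for all r ∈ d is ω, `GT.card_crt`), so `dfd` is the sum over these s of the differences of `ap_two`. Take p from `exc` for γ = Δ α and Q.
If p ∤ D, use `ap_two` with η = 1/(2Q²) (bound Q² for each s), otherwise `ap_two_triv` (bound 2X/(Δ D) + 2 for each s).
-/

set_option autoImplicit false

open Finset

namespace Pool.Agent.Lib.SG

open Pool.Agent.Lib.MT

/-- the sum over the class minus the density times the whole sum -/
noncomputable def dfd (Ω : ℕ → Finset ℕ) (d : Finset ℕ) (X : ℕ) (α : ℝ) (D a : ℕ) : ℂ :=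
  ∑ x ∈ ((Ioc X (2 * X)).filter (fun x => ∀ r ∈ d, x % r ∈ Ω r)).filter (fun x => x ≡ a [MOD D]),
      GT.e (α * x) -
    (1 / (D : ℂ)) * ∑ x ∈ (Ioc X (2 * X)).filter (fun x => ∀ r ∈ d, x % r ∈ Ω r), GT.e (α * x)

private theorem dfd_part (Ω : ℕ → Finset ℕ) (d : Finset ℕ) (hd : ∀ r ∈ d, r.Prime) (I : Finset ℕ)
    (P : ℕ → Prop) [DecidablePred P] (f : ℕ → ℂ) :
    ∑ x ∈ I.filter (fun x => (∀ r ∈ d, x % r ∈ Ω r) ∧ P x), f x =
      ∑ s ∈ (range (∏ r ∈ d, r)).filter (fun n => ∀ r ∈ d, n % r ∈ Ω r),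
        ∑ x ∈ I.filter (fun x => x ≡ s [MOD (∏ r ∈ d, r)] ∧ P x), f x := by
  have hΔ : 0 < ∏ r ∈ d, r := Finset.prod_pos (fun r hr => (hd r hr).pos)
  have hmod : ∀ x : ℕ, ∀ r ∈ d, (x % (∏ r ∈ d, r)) % r = x % r := by
    intro x r hr
    exact Nat.mod_mod_of_dvd x (Finset.dvd_prod_of_mem _ hr)
  rw [← Finset.sum_fiberwise_of_maps_to (s := I.filter (fun x => (∀ r ∈ d, x % r ∈ Ω r) ∧ P x))
    (t := (range (∏ r ∈ d, r)).filter (fun n => ∀ r ∈ d, n % r ∈ Ω r))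
    (g := fun x => x % (∏ r ∈ d, r))]
  · apply Finset.sum_congr rfl
    intro s hs
    rw [Finset.mem_filter, Finset.mem_range] at hs
    apply Finset.sum_congr _ (fun _ _ => rfl)
    ext x
    simp only [Finset.mem_filter]
    constructor
    · rintro ⟨⟨h1, h2, h3⟩, h4⟩
      refine ⟨h1, ?_, h3⟩
      show x % _ = s % _
      rw [h4, Nat.mod_eq_of_lt hs.1]
    · rintro ⟨h1, h2, h3⟩
      have h4 : x % (∏ r ∈ d, r) = s := by
        have : x % (∏ r ∈ d, r) = s % (∏ r ∈ d, r) := h2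
        rwa [Nat.mod_eq_of_lt hs.1] at this
      refine ⟨⟨h1, ?_, h3⟩, h4⟩
      intro r hr
      rw [← hmod x r hr, h4]
      exact hs.2 r hr
  · intro x hx
    rw [Finset.mem_filter] at hx
    rw [Finset.mem_filter, Finset.mem_range]
    refine ⟨Nat.mod_lt _ hΔ, ?_⟩
    intro r hr
    rw [hmod x r hr]
    exact hx.2.1 r hr

theorem dfd_bound (Ω : ℕ → Finset ℕ) (d : Finset ℕ) (hd : ∀ r ∈ d, r.Prime)
    (hΩ : ∀ r ∈ d, ∀ c ∈ Ω r, c < r) (X Q : ℕ) (hQ : 1 ≤ Q) (α : ℝ) :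
    ∃ p : ℕ, (p = 0 ∨ p.Prime) ∧ ∀ D a : ℕ, 1 ≤ D → D ≤ Q → (∀ r ∈ d, ¬ r ∣ D) →
      ‖dfd Ω d X α D a‖ ≤ (∏ r ∈ d, ((Ω r).card : ℝ)) * (Q : ℝ) ^ 2 +
        (if p ∣ D then (∏ r ∈ d, ((Ω r).card : ℝ)) * (2 * X / ((∏ r ∈ d, (r : ℝ)) * D) + 2)
          else 0) := by
  have hΔ : 1 ≤ ∏ r ∈ d, r := Finset.prod_pos (fun r hr => (hd r hr).pos)
  obtain ⟨p, hp, hexc⟩ := exc (((∏ r ∈ d, r : ℕ) : ℝ) * α) Q hQ
  refine ⟨p, hp, fun D a hD hDQ hrD => ?_⟩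
  have hQr : (0 : ℝ) < Q := by exact_mod_cast hQ
  have hcard := GT.card_crt d hd Ω hΩ
  set Δ : ℕ := ∏ r ∈ d, r with hΔdef
  set S := (range Δ).filter (fun n => ∀ r ∈ d, n % r ∈ Ω r) with hS
  have hScard : (S.card : ℝ) = ∏ r ∈ d, ((Ω r).card : ℝ) := by
    rw [hcard]; push_cast; rfl
  have hcop : Nat.Coprime Δ D := by
    rw [hΔdef]
    apply Nat.Coprime.prod_left
    intro r hr
    exact (Nat.Prime.coprime_iff_not_dvd (hd r hr)).mpr (hrD r hr)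
  have hdfd : dfd Ω d X α D a = ∑ s ∈ S,
      (∑ x ∈ (Ioc X (2 * X)).filter (fun x => x ≡ s [MOD Δ] ∧ x ≡ a [MOD D]), GT.e (α * x) -
      (1 / (D : ℂ)) * ∑ x ∈ (Ioc X (2 * X)).filter (fun x => x ≡ s [MOD Δ]), GT.e (α * x)) := by
    unfold dfd
    rw [Finset.sum_sub_distrib, ← Finset.mul_sum]
    congr 1
    · rw [Finset.filter_filter]
      exact dfd_part Ω d hd (Ioc X (2 * X)) (fun x => x ≡ a [MOD D]) _
    · congr 1
      have h1 := dfd_part Ω d hd (Ioc X (2 * X)) (fun _ => True) (fun x => GT.e (α * x))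
      simp only [and_true] at h1
      exact h1
  rw [hdfd]
  have hω : (0 : ℝ) ≤ ∏ r ∈ d, ((Ω r).card : ℝ) := Finset.prod_nonneg (fun r _ => Nat.cast_nonneg _)
  by_cases hpD : p ∣ D
  · rw [if_pos hpD]
    have h1 : ∀ s ∈ S, ‖∑ x ∈ (Ioc X (2 * X)).filter (fun x => x ≡ s [MOD Δ] ∧ x ≡ a [MOD D]),
        GT.e (α * x) - (1 / (D : ℂ)) *
        ∑ x ∈ (Ioc X (2 * X)).filter (fun x => x ≡ s [MOD Δ]), GT.e (α * x)‖ ≤
        2 * X / ((Δ : ℝ) * D) + 2 := fun s _ => ap_two_triv α Δ D s a X hΔ hD hcop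
    refine (norm_sum_le _ _).trans ?_
    refine (Finset.sum_le_sum h1).trans ?_
    rw [Finset.sum_const, nsmul_eq_mul, hScard]
    have h2 : (Δ : ℝ) = ∏ r ∈ d, (r : ℝ) := by rw [hΔdef]; push_cast; rfl
    rw [h2]
    have h3 : 0 ≤ (∏ r ∈ d, ((Ω r).card : ℝ)) * (Q : ℝ) ^ 2 := mul_nonneg hω (by positivity)
    linarith
  · rw [if_neg hpD, add_zero]
    have h1 : ∀ s ∈ S, ‖∑ x ∈ (Ioc X (2 * X)).filter (fun x => x ≡ s [MOD Δ] ∧ x ≡ a [MOD D]),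
        GT.e (α * x) - (1 / (D : ℂ)) *
        ∑ x ∈ (Ioc X (2 * X)).filter (fun x => x ≡ s [MOD Δ]), GT.e (α * x)‖ ≤
        (Q : ℝ) ^ 2 := by
      intro s _
      have h2 := ap_two α (1 / (2 * (Q : ℝ) ^ 2)) (by positivity) Δ D s a X hΔ hD hcop
        (hexc D hD hDQ hpD)
      have h3 : 1 / (2 * (1 / (2 * (Q : ℝ) ^ 2))) = (Q : ℝ) ^ 2 := by field_simp
      rw [h3] at h2
      exact h2
    refine (norm_sum_le _ _).trans ?_
    refine (Finset.sum_le_sum h1).trans ?_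
    rw [Finset.sum_const, nsmul_eq_mul, hScard]

end Pool.Agent.Lib.SG
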