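import Pool.Agent.Lib.SG.Large

/-!
# SG-Tail: fourth moments of the Fourier coefficients

PROOF of `tail`. Dyadic: the ξ with `2^(-j-1) η X ≤ ‖FT f‖ < 2^(-j) η X` and `‖FT f‖ ≥ δ₀ X`: by `large` with `δ = max(δ₀, 2^(-j-1) η)` there are at most `11 C²/δ³`, each
contributes at most `(2^(-j) η X)⁴ ≤ (2δ)⁴ X⁴`... in total for this j: `≤ 11 C² (2^(-j) η)⁴ X⁴ (2^(j+1)/η)³ = 88 C² 2^(-j) η X⁴`; sum over j < J (2^(-J) η < δ₀): `≤ 176 C² η X⁴`.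
The ξ with `‖FT f‖ < δ₀ X`: `∑ ‖FT f‖⁴ ≤ (δ₀ X)² ∑ ‖FT f‖² = (δ₀ X)² 8X ∑ f² ≤ 8 δ₀² X³ ∑ ν²` (`pars`).
`l4`: η = 1 in `tail` plus the ξ with `‖FT f‖ ≥ X`: at most 11 C² of them, `‖FT f‖ ≤ ∑ ν ≤ C X`.
-/

set_option autoImplicit false

open Finset

namespace Pool.Agent.Lib.SG

/-- the part of the fourth moment with coefficients of size less than `η X` -/
private noncomputable def T (f : ℕ → ℝ) (X : ℕ) (η : ℝ) : ℝ :=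
  ∑ ξ ∈ (range (8 * X)).filter (fun ξ : ℕ => ‖FT f X ((ξ : ℝ) / (8 * X))‖ < η * X),
      ‖FT f X ((ξ : ℝ) / (8 * X))‖ ^ 4

private theorem T_base (X : ℕ) (hX : 1 ≤ X) (ν f : ℕ → ℝ) (hf : ∀ n, 0 ≤ f n ∧ f n ≤ ν n)
    (δ : ℝ) (hδ : 0 < δ) : T f X δ ≤ 8 * δ ^ 2 * X ^ 3 * ∑ n ∈ range (4 * X), (ν n) ^ 2 := by
  have hX' : (0 : ℝ) < X := by exact_mod_cast hX
  unfold T
  calc ∑ ξ ∈ (range (8 * X)).filter (fun ξ : ℕ => ‖FT f X ((ξ : ℝ) / (8 * X))‖ < δ * X),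
      ‖FT f X ((ξ : ℝ) / (8 * X))‖ ^ 4
      ≤ ∑ ξ ∈ (range (8 * X)).filter (fun ξ : ℕ => ‖FT f X ((ξ : ℝ) / (8 * X))‖ < δ * X),
        (δ * X) ^ 2 * ‖FT f X ((ξ : ℝ) / (8 * X))‖ ^ 2 := by
        refine Finset.sum_le_sum (fun ξ hξ => ?_)
        rw [Finset.mem_filter] at hξ
        have h1 : ‖FT f X ((ξ : ℝ) / (8 * X))‖ ^ 2 ≤ (δ * X) ^ 2 :=
          pow_le_pow_left₀ (norm_nonneg _) hξ.2.le 2
        calc ‖FT f X ((ξ : ℝ) / (8 * X))‖ ^ 4 =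
            ‖FT f X ((ξ : ℝ) / (8 * X))‖ ^ 2 * ‖FT f X ((ξ : ℝ) / (8 * X))‖ ^ 2 := by ring
          _ ≤ _ := mul_le_mul_of_nonneg_right h1 (sq_nonneg _)
    _ ≤ ∑ ξ ∈ range (8 * X), (δ * X) ^ 2 * ‖FT f X ((ξ : ℝ) / (8 * X))‖ ^ 2 := by
        refine Finset.sum_le_sum_of_subset_of_nonneg (Finset.filter_subset _ _) (fun ξ _ _ => by positivity)
    _ = (δ * X) ^ 2 * (8 * X * ∑ n ∈ range (4 * X), (f n) ^ 2) := by
        rw [← Finset.mul_sum, pars X hX f]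
    _ ≤ (δ * X) ^ 2 * (8 * X * ∑ n ∈ range (4 * X), (ν n) ^ 2) := by
        apply mul_le_mul_of_nonneg_left _ (sq_nonneg _)
        apply mul_le_mul_of_nonneg_left _ (by positivity)
        refine Finset.sum_le_sum (fun n _ => ?_)
        exact pow_le_pow_left₀ (hf n).1 (hf n).2 2
    _ = _ := by ring

private theorem T_step (C δ₀ : ℝ) (hC : 1 ≤ C) (hδ₀ : 0 < δ₀) (X : ℕ) (hX : 1 ≤ X) (ν f : ℕ → ℝ)
    (hν : Rst C δ₀ X ν) (hf : ∀ n, 0 ≤ f n ∧ f n ≤ ν n) (η δ : ℝ) (hδ : δ₀ ≤ δ) (hδη : δ ≤ η) (h2 : η ≤ 2 * δ)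
    (hη1 : η ≤ 1) : T f X η ≤ T f X δ + 88 * C ^ 2 * η * X ^ 4 := by
  have hX' : (0 : ℝ) < X := by exact_mod_cast hX
  have hδ0 : 0 < δ := lt_of_lt_of_le hδ₀ hδ
  have hL := large C δ₀ hC hδ₀ X hX ν f hν hf δ hδ (hδη.trans hη1)
  have h1 : T f X η ≤ T f X δ + ∑ ξ ∈ (range (8 * X)).filter (fun ξ : ℕ => δ * X ≤ ‖FT f X ((ξ : ℝ) / (8 * X))‖),
      (η * X) ^ 4 := by
    unfold T
    have h3 : (range (8 * X)).filter (fun ξ : ℕ => ‖FT f X ((ξ : ℝ) / (8 * X))‖ < η * X) =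
        (range (8 * X)).filter (fun ξ : ℕ => ‖FT f X ((ξ : ℝ) / (8 * X))‖ < δ * X) ∪
        (range (8 * X)).filter (fun ξ : ℕ => δ * X ≤ ‖FT f X ((ξ : ℝ) / (8 * X))‖ ∧
          ‖FT f X ((ξ : ℝ) / (8 * X))‖ < η * X) := by
      ext ξ
      simp only [Finset.mem_filter, Finset.mem_union]
      constructor
      · rintro ⟨h4, h5⟩
        rcases lt_or_ge (‖FT f X ((ξ : ℝ) / (8 * X))‖) (δ * X) with h6 | h6
        · exact Or.inl ⟨h4, h6⟩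
        · exact Or.inr ⟨h4, h6, h5⟩
      · rintro (⟨h4, h5⟩ | ⟨h4, _, h5⟩)
        · exact ⟨h4, lt_of_lt_of_le h5 (mul_le_mul_of_nonneg_right hδη hX'.le)⟩
        · exact ⟨h4, h5⟩
    rw [h3, Finset.sum_union]
    · apply add_le_add le_rfl
      calc ∑ ξ ∈ (range (8 * X)).filter (fun ξ : ℕ => δ * X ≤ ‖FT f X ((ξ : ℝ) / (8 * X))‖ ∧
          ‖FT f X ((ξ : ℝ) / (8 * X))‖ < η * X), ‖FT f X ((ξ : ℝ) / (8 * X))‖ ^ 4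
          ≤ ∑ ξ ∈ (range (8 * X)).filter (fun ξ : ℕ => δ * X ≤ ‖FT f X ((ξ : ℝ) / (8 * X))‖ ∧
          ‖FT f X ((ξ : ℝ) / (8 * X))‖ < η * X), (η * X) ^ 4 := by
            refine Finset.sum_le_sum (fun ξ hξ => ?_)
            rw [Finset.mem_filter] at hξ
            exact pow_le_pow_left₀ (norm_nonneg _) hξ.2.2.le 4
        _ ≤ _ := by
            refine Finset.sum_le_sum_of_subset_of_nonneg ?_ (fun ξ _ _ => by positivity)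
            intro ξ hξ
            rw [Finset.mem_filter] at hξ ⊢
            exact ⟨hξ.1, hξ.2.1⟩
    · rw [Finset.disjoint_left]
      intro ξ h4 h5
      rw [Finset.mem_filter] at h4 h5
      exact absurd h4.2 (not_lt.mpr h5.2.1)
  refine h1.trans ?_
  apply add_le_add le_rfl
  rw [Finset.sum_const, nsmul_eq_mul]
  have hη0 : 0 < η := lt_of_lt_of_le hδ0 hδη
  calc (((range (8 * X)).filter (fun ξ : ℕ => δ * X ≤ ‖FT f X ((ξ : ℝ) / (8 * X))‖)).card : ℝ) * (η * X) ^ 4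
      ≤ 11 * C ^ 2 / δ ^ 3 * (η * X) ^ 4 := mul_le_mul_of_nonneg_right hL (by positivity)
    _ = (11 * C ^ 2 * X ^ 4 * η) * (η ^ 3 / δ ^ 3) := by
        field_simp
    _ ≤ (11 * C ^ 2 * X ^ 4 * η) * 8 := by
        apply mul_le_mul_of_nonneg_left _ (by positivity)
        rw [div_le_iff₀ (by positivity)]
        calc η ^ 3 ≤ (2 * δ) ^ 3 := pow_le_pow_left₀ hη0.le h2 3
          _ = 8 * δ ^ 3 := by ring
    _ = _ := by ring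

private theorem T_all (C δ₀ : ℝ) (hC : 1 ≤ C) (hδ₀ : 0 < δ₀) (X : ℕ) (hX : 1 ≤ X) (ν f : ℕ → ℝ)
    (hν : Rst C δ₀ X ν) (hf : ∀ n, 0 ≤ f n ∧ f n ≤ ν n) (j : ℕ) :
    ∀ η : ℝ, δ₀ ≤ η → η ≤ 1 → η ≤ 2 ^ j * δ₀ → T f X η ≤ 176 * C ^ 2 * η * X ^ 4 + T f X δ₀ := by
  induction j with
  | zero =>
    intro η h1 _ h3
    have : η = δ₀ := by
      apply le_antisymm _ h1
      simpa using h3
    subst this
    have : 0 ≤ 176 * C ^ 2 * η * X ^ 4 := by positivity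
    linarith
  | succ j ih =>
    intro η h1 h2 h3
    have hη0 : 0 < η := lt_of_lt_of_le hδ₀ h1
    rcases le_total δ₀ (η / 2) with h4 | h4
    · have h5 := T_step C δ₀ hC hδ₀ X hX ν f hν hf η (η / 2) h4 (by linarith) (by linarith) h2
      have h6 := ih (η / 2) h4 (by linarith) (by rw [pow_succ] at h3; linarith)
      have h7 : 176 * C ^ 2 * (η / 2) * X ^ 4 = 88 * C ^ 2 * η * X ^ 4 := by ring
      rw [h7] at h6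
      have h8 : 176 * C ^ 2 * η * X ^ 4 = 88 * C ^ 2 * η * X ^ 4 + 88 * C ^ 2 * η * X ^ 4 := by ring
      rw [h8]
      linarith
    · have h5 := T_step C δ₀ hC hδ₀ X hX ν f hν hf η δ₀ le_rfl h1 (by linarith) h2
      have h8 : 176 * C ^ 2 * η * X ^ 4 = 88 * C ^ 2 * η * X ^ 4 + 88 * C ^ 2 * η * X ^ 4 := by ring
      have h9 : 0 ≤ 88 * C ^ 2 * η * X ^ 4 := by positivity
      rw [h8]
      linarith

theorem tail (C δ₀ : ℝ) (hC : 1 ≤ C) (hδ₀ : 0 < δ₀) (X : ℕ) (hX : 1 ≤ X) (ν f : ℕ → ℝ)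
    (hν : Rst C δ₀ X ν) (hf : ∀ n, 0 ≤ f n ∧ f n ≤ ν n) (η : ℝ) (hη : δ₀ ≤ η) (hη1 : η ≤ 1) :
    ∑ ξ ∈ (range (8 * X)).filter (fun ξ : ℕ => ‖FT f X ((ξ : ℝ) / (8 * X))‖ < η * X),
      ‖FT f X ((ξ : ℝ) / (8 * X))‖ ^ 4 ≤
      200 * C ^ 2 * η * X ^ 4 + 8 * δ₀ ^ 2 * X ^ 3 * ∑ n ∈ range (4 * X), (ν n) ^ 2 := by
  obtain ⟨j, hj⟩ := pow_unbounded_of_one_lt (η / δ₀) (by norm_num : (1 : ℝ) < 2)
  have h1 := T_all C δ₀ hC hδ₀ X hX ν f hν hf j η hη hη1 (by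
    rw [div_lt_iff₀ hδ₀] at hj
    exact hj.le)
  have h2 := T_base X hX ν f hf δ₀ hδ₀
  have h3 : T f X η = ∑ ξ ∈ (range (8 * X)).filter (fun ξ : ℕ => ‖FT f X ((ξ : ℝ) / (8 * X))‖ < η * X),
      ‖FT f X ((ξ : ℝ) / (8 * X))‖ ^ 4 := rfl
  rw [← h3]
  have hη0 : 0 < η := lt_of_lt_of_le hδ₀ hη
  have h4 : 176 * C ^ 2 * η * X ^ 4 ≤ 200 * C ^ 2 * η * X ^ 4 := by
    have : 0 ≤ C ^ 2 * η * (X : ℝ) ^ 4 := by positivity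
    nlinarith
  linarith

private theorem ft_le (C δ₀ : ℝ) (X : ℕ) (ν f : ℕ → ℝ)
    (hν : Rst C δ₀ X ν) (hf : ∀ n, 0 ≤ f n ∧ f n ≤ ν n) (α : ℝ) : ‖FT f X α‖ ≤ C * X := by
  unfold FT
  refine (norm_sum_le _ _).trans ?_
  refine le_trans ?_ hν.mass
  refine Finset.sum_le_sum (fun n _ => ?_)
  rw [norm_mul, GT.norm_e, mul_one, Complex.norm_real, Real.norm_eq_abs, abs_of_nonneg (hf n).1]
  exact (hf n).2

theorem l4 (C δ₀ : ℝ) (hC : 1 ≤ C) (hδ₀ : 0 < δ₀) (hδ₁ : δ₀ ≤ 1) (X : ℕ) (hX : 1 ≤ X) (ν f : ℕ → ℝ)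
    (hν : Rst C δ₀ X ν) (hf : ∀ n, 0 ≤ f n ∧ f n ≤ ν n) :
    ∑ ξ ∈ range (8 * X), ‖FT f X ((ξ : ℝ) / (8 * X))‖ ^ 4 ≤
      211 * C ^ 6 * X ^ 4 + 8 * δ₀ ^ 2 * X ^ 3 * ∑ n ∈ range (4 * X), (ν n) ^ 2 := by
  have h1 := tail C δ₀ hC hδ₀ X hX ν f hν hf 1 hδ₁ le_rfl
  have h2 := large C δ₀ hC hδ₀ X hX ν f hν hf 1 hδ₁ le_rfl
  have h3 := Finset.sum_filter_add_sum_filter_not (range (8 * X))
    (fun ξ : ℕ => ‖FT f X ((ξ : ℝ) / (8 * X))‖ < 1 * X) (fun ξ => ‖FT f X ((ξ : ℝ) / (8 * X))‖ ^ 4)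
  rw [← h3]
  have h4 : ∑ ξ ∈ (range (8 * X)).filter (fun ξ : ℕ => ¬ ‖FT f X ((ξ : ℝ) / (8 * X))‖ < 1 * X),
      ‖FT f X ((ξ : ℝ) / (8 * X))‖ ^ 4 ≤ 11 * C ^ 6 * X ^ 4 := by
    calc ∑ ξ ∈ (range (8 * X)).filter (fun ξ : ℕ => ¬ ‖FT f X ((ξ : ℝ) / (8 * X))‖ < 1 * X),
      ‖FT f X ((ξ : ℝ) / (8 * X))‖ ^ 4
        ≤ ∑ ξ ∈ (range (8 * X)).filter (fun ξ : ℕ => ¬ ‖FT f X ((ξ : ℝ) / (8 * X))‖ < 1 * X),
          (C * X) ^ 4 := by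
          refine Finset.sum_le_sum (fun ξ _ => ?_)
          exact pow_le_pow_left₀ (norm_nonneg _) (ft_le C δ₀ X ν f hν hf _) 4
      _ = (((range (8 * X)).filter (fun ξ : ℕ => ¬ ‖FT f X ((ξ : ℝ) / (8 * X))‖ < 1 * X)).card : ℝ) *
          (C * X) ^ 4 := by
          rw [Finset.sum_const, nsmul_eq_mul]
      _ ≤ (11 * C ^ 2 / 1 ^ 3) * (C * X) ^ 4 := by
          apply mul_le_mul_of_nonneg_right _ (by positivity)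
          refine le_trans ?_ h2
          have : (range (8 * X)).filter (fun ξ : ℕ => ¬ ‖FT f X ((ξ : ℝ) / (8 * X))‖ < 1 * X) =
              (range (8 * X)).filter (fun ξ : ℕ => 1 * X ≤ ‖FT f X ((ξ : ℝ) / (8 * X))‖) := by
            refine Finset.filter_congr (fun ξ _ => ?_)
            rw [not_lt]
          rw [this]
      _ = _ := by ring
  have h5 : C ^ 2 ≤ C ^ 6 := pow_le_pow_right₀ hC (by norm_num)
  have h6 : C ^ 2 * (X : ℝ) ^ 4 ≤ C ^ 6 * X ^ 4 := mul_le_mul_of_nonneg_right h5 (by positivity)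
  nlinarith

end Pool.Agent.Lib.SG
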