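import Pool.Agent.Lib.SG.Tri
import Pool.Agent.Lib.SG.Tail
import Pool.Agent.Lib.SG.Mumass

/-!
# SG-Dif7: a function with very small Fourier transform against a correlation

`dif7`: D = w - M ρ with `‖ES D‖ ≤ δ X`; f with L⁴ bound. PROOF. u n = f(n - t) for n ≥ t, else 0: supported on (X, 3X] (t ≤ X), `cor E u x = cor E f (x + t)`, `‖FT u‖ = ‖FT f‖`. `tri` for (D, u): `|..|⁴ ≤ (|E|/8X)² ∑ ‖FT D‖⁴ ∑ ‖FT f‖⁴`, `∑ ‖FT D‖⁴ ≤ (δ X)² ∑ ‖FT D‖² = (δX)² 8X ∑ D²`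
(`pars`, `ft_es`), `∑ D² ≤ S`.
-/

set_option autoImplicit false

open Finset

namespace Pool.Agent.Lib.SG

private theorem Dif7_ft (X t : ℕ) (ht : t ≤ X) (f : ℕ → ℝ)
    (hf : ∀ x, x ∉ Ioc X (2 * X) → f x = 0) (α : ℝ) :
    ‖FT (fun n => if t ≤ n then f (n - t) else 0) X α‖ = ‖FT f X α‖ := by
  have h1 : FT (fun n => if t ≤ n then f (n - t) else 0) X α =
      ∑ n ∈ Ioc (X + t) (2 * X + t), (((if t ≤ n then f (n - t) else 0 : ℝ)) : ℂ) * GT.e (α * n) := by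
    unfold FT
    symm
    apply Finset.sum_subset
    · intro n hn
      rw [mem_Ioc] at hn
      rw [mem_range]
      omega
    · intro n _ hn
      by_cases h : t ≤ n
      · rw [if_pos h, hf (n - t) (by
          intro h2
          rw [mem_Ioc] at h2
          apply hn
          rw [mem_Ioc]
          omega)]
        simp
      · rw [if_neg h]
        simp
  have h2 : ∑ n ∈ Ioc (X + t) (2 * X + t), (((if t ≤ n then f (n - t) else 0 : ℝ)) : ℂ) * GT.e (α * n) =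
      ∑ n ∈ Ioc X (2 * X), GT.e (α * t) * ((f n : ℂ) * GT.e (α * n)) := by
    refine Finset.sum_nbij' (fun n => n - t) (fun n => n + t) ?_ ?_ ?_ ?_ ?_
    · intro n hn
      rw [mem_Ioc] at hn ⊢
      omega
    · intro n hn
      rw [mem_Ioc] at hn ⊢
      omega
    · intro n hn
      rw [mem_Ioc] at hn
      show n - t + t = n
      omega
    · intro n hn
      show n + t - t = n
      omega
    · intro n hn
      rw [mem_Ioc] at hn
      have h : t ≤ n := by omega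
      rw [if_pos h, mul_left_comm, ← GT.e_add]
      congr 2
      rw [Nat.cast_sub h]
      ring
  rw [h1, h2, ← mul_sum, norm_mul, GT.norm_e, one_mul, ft_es X f hf]
  rfl

theorem dif7 (X t : ℕ) (hX : 1 ≤ X) (ht : t ≤ X) (E : Finset ℕ) (hE : E ⊆ range (8 * X)) (D f : ℕ → ℝ)
    (hD : ∀ x, x ∉ Ioc X (2 * X) → D x = 0) (hf : ∀ x, x ∉ Ioc X (2 * X) → f x = 0) (δ S K₄ : ℝ)
    (hδ : 0 ≤ δ) (hES : ∀ α : ℝ, ‖ES D X α‖ ≤ δ * X) (hS : ∑ x ∈ Ioc X (2 * X), (D x) ^ 2 ≤ S)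
    (hK : ∑ ξ ∈ range (8 * X), ‖FT f X ((ξ : ℝ) / (8 * X))‖ ^ 4 ≤ K₄ * X ^ 4) :
    (∑ x ∈ Ioc X (2 * X), D x * cor E f (x + t)) ^ 4 ≤ 8 * δ ^ 2 * X ^ 3 * S * (K₄ * X ^ 4) := by
  obtain ⟨u, hu⟩ : ∃ u : ℕ → ℝ, u = fun n => if t ≤ n then f (n - t) else 0 := ⟨_, rfl⟩
  have hXr : (0 : ℝ) < X := by exact_mod_cast hX
  have hus : ∀ n, n ∉ Ioc X (3 * X) → u n = 0 := by
    intro n hn
    rw [hu]
    show (if t ≤ n then f (n - t) else 0) = 0
    by_cases h : t ≤ n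
    · rw [if_pos h]
      refine hf _ fun h2 => hn ?_
      rw [mem_Ioc] at h2 ⊢
      omega
    · rw [if_neg h]
  have hcor : ∀ x, cor E u x = cor E f (x + t) := by
    intro x
    unfold cor
    refine sum_congr rfl fun s _ => ?_
    rw [hu]
    show (if x ≤ s then (if t ≤ s - x then f (s - x - t) else 0) else 0) =
      if x + t ≤ s then f (s - (x + t)) else 0
    by_cases h1 : x + t ≤ s
    · rw [if_pos h1, if_pos (by omega), if_pos (by omega), Nat.sub_sub]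
    · rw [if_neg h1]
      by_cases h2 : x ≤ s
      · rw [if_pos h2, if_neg (by omega)]
      · rw [if_neg h2]
  have h0 := tri X hX E hE D u hD hus
  simp only [hcor] at h0
  refine h0.trans ?_
  have hEc : ((E.card : ℝ) / (8 * X)) ^ 2 ≤ 1 := by
    have h1 : (E.card : ℝ) ≤ 8 * X := by
      have := card_le_card hE
      rw [card_range] at this
      exact_mod_cast this
    have h2 : (E.card : ℝ) / (8 * X) ≤ 1 := by
      rw [div_le_one (by positivity)]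
      exact h1
    have h3 : 0 ≤ (E.card : ℝ) / (8 * X) := by positivity
    exact pow_le_one₀ h3 h2
  have hU : ∑ ξ ∈ range (8 * X), ‖FT u X ((ξ : ℝ) / (8 * X))‖ ^ 4 ≤ K₄ * X ^ 4 := by
    refine le_trans (le_of_eq ?_) hK
    refine sum_congr rfl fun ξ _ => ?_
    rw [hu, Dif7_ft X t ht f hf]
  have hU0 : 0 ≤ ∑ ξ ∈ range (8 * X), ‖FT u X ((ξ : ℝ) / (8 * X))‖ ^ 4 :=
    sum_nonneg fun ξ _ => by positivity
  have hDD : ∑ ξ ∈ range (8 * X), ‖FT D X ((ξ : ℝ) / (8 * X))‖ ^ 4 ≤ 8 * δ ^ 2 * X ^ 3 * S := by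
    have h1 : ∀ ξ ∈ range (8 * X), ‖FT D X ((ξ : ℝ) / (8 * X))‖ ^ 4 ≤
        (δ * X) ^ 2 * ‖FT D X ((ξ : ℝ) / (8 * X))‖ ^ 2 := by
      intro ξ _
      have h2 : ‖FT D X ((ξ : ℝ) / (8 * X))‖ ≤ δ * X := by
        rw [ft_es X D hD]
        exact hES _
      have h3 : ‖FT D X ((ξ : ℝ) / (8 * X))‖ ^ 2 ≤ (δ * X) ^ 2 :=
        pow_le_pow_left₀ (norm_nonneg _) h2 2
      calc ‖FT D X ((ξ : ℝ) / (8 * X))‖ ^ 4
          = ‖FT D X ((ξ : ℝ) / (8 * X))‖ ^ 2 * ‖FT D X ((ξ : ℝ) / (8 * X))‖ ^ 2 := by ring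
        _ ≤ (δ * X) ^ 2 * ‖FT D X ((ξ : ℝ) / (8 * X))‖ ^ 2 := by gcongr
    refine (sum_le_sum h1).trans ?_
    rw [← mul_sum, pars X hX D]
    have h4 : ∑ n ∈ range (4 * X), (D n) ^ 2 ≤ S := by
      refine le_trans (le_of_eq ?_) hS
      symm
      apply Finset.sum_subset
      · intro n hn
        rw [mem_Ioc] at hn
        rw [mem_range]
        omega
      · intro n _ hn
        rw [hD n hn]
        norm_num
    calc (δ * X) ^ 2 * (8 * X * ∑ n ∈ range (4 * X), (D n) ^ 2)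
        ≤ (δ * X) ^ 2 * (8 * X * S) := by gcongr
      _ = 8 * δ ^ 2 * X ^ 3 * S := by ring
  have hDD0 : 0 ≤ ∑ ξ ∈ range (8 * X), ‖FT D X ((ξ : ℝ) / (8 * X))‖ ^ 4 :=
    sum_nonneg fun ξ _ => by positivity
  calc ((E.card : ℝ) / (8 * X)) ^ 2 * (∑ ξ ∈ range (8 * X), ‖FT D X ((ξ : ℝ) / (8 * X))‖ ^ 4) *
        ∑ ξ ∈ range (8 * X), ‖FT u X ((ξ : ℝ) / (8 * X))‖ ^ 4
      ≤ 1 * (8 * δ ^ 2 * X ^ 3 * S) * (K₄ * X ^ 4) := by
        refine mul_le_mul (mul_le_mul hEc hDD hDD0 zero_le_one) hU hU0 ?_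
        exact mul_nonneg zero_le_one (hDD0.trans hDD)
    _ = 8 * δ ^ 2 * X ^ 3 * S * (K₄ * X ^ 4) := by rw [one_mul]

end Pool.Agent.Lib.SG
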