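import Pool.Agent.Lib.SG.Tail

/-!
# SG-Diff4: the fourth moment of a difference with small Fourier transform

PROOF. Ξ = the ξ with `‖FT ν‖ ≥ η X` or `‖FT ρ‖ ≥ η X`: at most `2 · 11 C²/η³` (`large` with f = ν), there `‖FT (ν - M ρ)‖⁴ ≤ (ζ X)⁴`. Outside Ξ:
`‖FT (ν - Mρ)‖⁴ ≤ 8 (‖FT ν‖⁴ + 16 ‖FT ρ‖⁴)` (|M| ≤ 2), `tail` for both: `≤ 8·17·(200 C² η X⁴ + 8 δ₀² X³ S)`, S ≥ ∑ ν², ∑ ρ².
-/

set_option autoImplicit false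

open Finset

namespace Pool.Agent.Lib.SG

private theorem ft_sub (X : ℕ) (ν ρ : ℕ → ℝ) (M α : ℝ) :
    FT (fun n => ν n - M * ρ n) X α = FT ν X α - M * FT ρ X α := by
  unfold FT
  rw [Finset.mul_sum, ← Finset.sum_sub_distrib]
  refine Finset.sum_congr rfl (fun n _ => ?_)
  push_cast
  ring

private theorem four (a b : ℝ) : (a + 2 * b) ^ 4 ≤ 8 * (a ^ 4 + 16 * b ^ 4) := by
  have h1 : (a + 2 * b) ^ 2 ≤ 2 * (a ^ 2 + 4 * b ^ 2) := by nlinarith [sq_nonneg (a - 2 * b)]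
  have h2 : (a ^ 2 + 4 * b ^ 2) ^ 2 ≤ 2 * (a ^ 4 + 16 * b ^ 4) := by nlinarith [sq_nonneg (a ^ 2 - 4 * b ^ 2)]
  have h3 : ((a + 2 * b) ^ 2) ^ 2 ≤ (2 * (a ^ 2 + 4 * b ^ 2)) ^ 2 := pow_le_pow_left₀ (sq_nonneg _) h1 2
  calc (a + 2 * b) ^ 4 = ((a + 2 * b) ^ 2) ^ 2 := by ring
    _ ≤ (2 * (a ^ 2 + 4 * b ^ 2)) ^ 2 := h3
    _ = 4 * (a ^ 2 + 4 * b ^ 2) ^ 2 := by ring
    _ ≤ _ := by linarith

theorem diff4 (C δ₀ : ℝ) (hC : 1 ≤ C) (hδ₀ : 0 < δ₀) (X : ℕ) (hX : 1 ≤ X) (ν ρ : ℕ → ℝ)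
    (hν : Rst C δ₀ X ν) (hρ : Rst C δ₀ X ρ) (M : ℝ) (hM : 0 ≤ M) (hM2 : M ≤ 2) (ζ S : ℝ) (hζ : 0 ≤ ζ)
    (hd : ∀ α : ℝ, ‖FT (fun n => ν n - M * ρ n) X α‖ ≤ ζ * X)
    (hS1 : ∑ n ∈ range (4 * X), (ν n) ^ 2 ≤ S) (hS2 : ∑ n ∈ range (4 * X), (ρ n) ^ 2 ≤ S)
    (η : ℝ) (hη : δ₀ ≤ η) (hη1 : η ≤ 1) :
    ∑ ξ ∈ range (8 * X), ‖FT (fun n => ν n - M * ρ n) X ((ξ : ℝ) / (8 * X))‖ ^ 4 ≤
      22 * C ^ 2 / η ^ 3 * ζ ^ 4 * X ^ 4 + 136 * (200 * C ^ 2 * η * X ^ 4 + 8 * δ₀ ^ 2 * X ^ 3 * S) := by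
  have hX' : (0 : ℝ) < X := by exact_mod_cast hX
  have hη0 : 0 < η := lt_of_lt_of_le hδ₀ hη
  have hL1 := large C δ₀ hC hδ₀ X hX ν ν hν (fun n => ⟨hν.nonneg n, le_rfl⟩) η hη hη1
  have hL2 := large C δ₀ hC hδ₀ X hX ρ ρ hρ (fun n => ⟨hρ.nonneg n, le_rfl⟩) η hη hη1
  have hT1 := tail C δ₀ hC hδ₀ X hX ν ν hν (fun n => ⟨hν.nonneg n, le_rfl⟩) η hη hη1
  have hT2 := tail C δ₀ hC hδ₀ X hX ρ ρ hρ (fun n => ⟨hρ.nonneg n, le_rfl⟩) η hη hη1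
  -- pointwise
  have key : ∀ ξ ∈ range (8 * X), ‖FT (fun n => ν n - M * ρ n) X ((ξ : ℝ) / (8 * X))‖ ^ 4 ≤
      ((if η * X ≤ ‖FT ν X ((ξ : ℝ) / (8 * X))‖ then (ζ * X) ^ 4 else 0) +
      (if η * X ≤ ‖FT ρ X ((ξ : ℝ) / (8 * X))‖ then (ζ * X) ^ 4 else 0)) +
      (8 * (if ‖FT ν X ((ξ : ℝ) / (8 * X))‖ < η * X then ‖FT ν X ((ξ : ℝ) / (8 * X))‖ ^ 4 else 0) +
      128 * (if ‖FT ρ X ((ξ : ℝ) / (8 * X))‖ < η * X then ‖FT ρ X ((ξ : ℝ) / (8 * X))‖ ^ 4 else 0)) := by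
    intro ξ _
    have hz : (0 : ℝ) ≤ (ζ * X) ^ 4 := by positivity
    have h0 : ‖FT (fun n => ν n - M * ρ n) X ((ξ : ℝ) / (8 * X))‖ ^ 4 ≤ (ζ * X) ^ 4 :=
      pow_le_pow_left₀ (norm_nonneg _) (hd _) 4
    have ha : 0 ≤ ‖FT ν X ((ξ : ℝ) / (8 * X))‖ ^ 4 := by positivity
    have hb : 0 ≤ ‖FT ρ X ((ξ : ℝ) / (8 * X))‖ ^ 4 := by positivity
    by_cases h1 : η * X ≤ ‖FT ν X ((ξ : ℝ) / (8 * X))‖
    · rw [if_pos h1, if_neg (not_lt.mpr h1)]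
      by_cases h2 : η * X ≤ ‖FT ρ X ((ξ : ℝ) / (8 * X))‖
      · rw [if_pos h2, if_neg (not_lt.mpr h2)]
        linarith
      · rw [if_neg h2, if_pos (not_le.mp h2)]
        linarith
    · rw [if_neg h1, if_pos (not_le.mp h1)]
      by_cases h2 : η * X ≤ ‖FT ρ X ((ξ : ℝ) / (8 * X))‖
      · rw [if_pos h2, if_neg (not_lt.mpr h2)]
        linarith
      · rw [if_neg h2, if_pos (not_le.mp h2), ft_sub]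
        have h3 : ‖FT ν X ((ξ : ℝ) / (8 * X)) - M * FT ρ X ((ξ : ℝ) / (8 * X))‖ ≤
            ‖FT ν X ((ξ : ℝ) / (8 * X))‖ + 2 * ‖FT ρ X ((ξ : ℝ) / (8 * X))‖ := by
          refine (norm_sub_le _ _).trans ?_
          apply add_le_add le_rfl
          rw [norm_mul, Complex.norm_real, Real.norm_eq_abs, abs_of_nonneg hM]
          exact mul_le_mul_of_nonneg_right hM2 (norm_nonneg _)
        have h4 := pow_le_pow_left₀ (norm_nonneg _) h3 4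
        have h5 := four ‖FT ν X ((ξ : ℝ) / (8 * X))‖ ‖FT ρ X ((ξ : ℝ) / (8 * X))‖
        linarith
  refine (Finset.sum_le_sum key).trans ?_
  rw [Finset.sum_add_distrib, Finset.sum_add_distrib, Finset.sum_add_distrib, ← Finset.mul_sum, ← Finset.mul_sum,
    ← Finset.sum_filter, ← Finset.sum_filter, ← Finset.sum_filter, ← Finset.sum_filter,
    Finset.sum_const, Finset.sum_const, nsmul_eq_mul, nsmul_eq_mul]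
  have hz : (0 : ℝ) ≤ (ζ * X) ^ 4 := by positivity
  have g1 := mul_le_mul_of_nonneg_right hL1 hz
  have g2 := mul_le_mul_of_nonneg_right hL2 hz
  have g3 : 11 * C ^ 2 / η ^ 3 * (ζ * X) ^ 4 + 11 * C ^ 2 / η ^ 3 * (ζ * X) ^ 4 =
      22 * C ^ 2 / η ^ 3 * ζ ^ 4 * X ^ 4 := by ring
  have hq : (0 : ℝ) ≤ 8 * δ₀ ^ 2 * X ^ 3 := by positivity
  have g4 := mul_le_mul_of_nonneg_left hS1 hq
  have g5 := mul_le_mul_of_nonneg_left hS2 hq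
  linarith

end Pool.Agent.Lib.SG
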