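import Pool.Agent.Lib.SG.Defs

/-!
# SG-Exc: at most one exceptional denominator

PROOF. Call `D` (1 ≤ D ≤ Q) bad if there is `j`, `D ∤ j`, with `nd (γ + j/D) < 1/(2Q²)`. If there is no bad `D` take p = 0
(`0 ∣ D` is false for D ≥ 1). Otherwise let D₀, j₀ be bad, `D₁ = D₀ / gcd(D₀, j₀) > 1` the reduced denominator of `j₀/D₀`, and take
`p = D₁.minFac`, a prime. Let D be any bad number with j: `|γ + j/D - n| < 1/(2Q²)`, `|γ + j₀/D₀ - n₀| < 1/(2Q²)` (n, n₀ = round), so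
`|j/D - j₀/D₀ - (n - n₀)| < 1/Q² ≤ 1/(D D₀)`; multiplied by D D₀ the left side is an integer of absolute value < 1, so it is 0 and
`j D₀ - j₀ D = (n - n₀) D D₀`. Hence `D₀ ∣ j₀ D`, so `D₁ ∣ D` (D₁ coprime to j₀/gcd), so `p ∣ D`. Contrapositive = the claim.
-/

set_option autoImplicit false

open Finset

namespace Pool.Agent.Lib.SG

theorem exc (γ : ℝ) (Q : ℕ) (hQ : 1 ≤ Q) : ∃ p : ℕ, (p = 0 ∨ p.Prime) ∧ ∀ D : ℕ, 1 ≤ D → D ≤ Q →
    ¬ p ∣ D → ∀ j : ℤ, ¬ (D : ℤ) ∣ j → 1 / (2 * (Q : ℝ) ^ 2) ≤ SW.nd (γ + j / D) := by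
  by_cases hbad : ∃ D₀ : ℕ, 1 ≤ D₀ ∧ D₀ ≤ Q ∧ ∃ j₀ : ℤ, ¬ (D₀ : ℤ) ∣ j₀ ∧
      SW.nd (γ + j₀ / D₀) < 1 / (2 * (Q : ℝ) ^ 2)
  · obtain ⟨D₀, hD₀, hD₀Q, j₀, hj₀, hn₀⟩ := hbad
    set g : ℕ := Int.gcd (D₀ : ℤ) j₀ with hg
    have hgpos : 0 < g := Int.gcd_pos_of_ne_zero_left _ (by positivity)
    obtain ⟨D₁, hD₁⟩ : g ∣ D₀ := by
      have : (g : ℤ) ∣ (D₀ : ℤ) := Int.gcd_dvd_left _ _
      exact_mod_cast this
    obtain ⟨j₁, hj₁⟩ : (g : ℤ) ∣ j₀ := Int.gcd_dvd_right _ _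
    have hD₁pos : 0 < D₁ := by
      rcases Nat.eq_zero_or_pos D₁ with h | h
      · rw [h, mul_zero] at hD₁; omega
      · exact h
    have hcop : IsCoprime (D₁ : ℤ) j₁ := by
      rw [Int.isCoprime_iff_gcd_eq_one]
      have h1 : g = g * Int.gcd (D₁ : ℤ) j₁ := by
        conv_lhs => rw [hg, hD₁, hj₁]
        push_cast
        rw [Int.gcd_mul_left, Int.natAbs_natCast]
      have h2 : g * 1 = g * Int.gcd (D₁ : ℤ) j₁ := by rw [mul_one]; exact h1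
      exact (Nat.eq_of_mul_eq_mul_left hgpos h2).symm
    have hD₁ne : D₁ ≠ 1 := by
      intro h
      apply hj₀
      rw [h, mul_one] at hD₁
      rw [hj₁, ← hD₁]
      exact dvd_mul_right _ _
    refine ⟨D₁.minFac, Or.inr (Nat.minFac_prime hD₁ne), fun D hD hDQ hp j hj => ?_⟩
    by_contra hlt
    push Not at hlt
    apply hp
    refine (Nat.minFac_dvd D₁).trans ?_
    set n : ℤ := round (γ + j / D) with hn
    set n₀ : ℤ := round (γ + j₀ / D₀) with hn₀'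
    have hb1 : |γ + (j : ℝ) / D - n| < 1 / (2 * (Q : ℝ) ^ 2) := hlt
    have hb2 : |γ + (j₀ : ℝ) / D₀ - n₀| < 1 / (2 * (Q : ℝ) ^ 2) := hn₀
    have hDr : (0 : ℝ) < D := by exact_mod_cast hD
    have hD₀r : (0 : ℝ) < D₀ := by exact_mod_cast hD₀
    have hQr : (0 : ℝ) < Q := by exact_mod_cast hQ
    have hDQr : (D : ℝ) ≤ Q := by exact_mod_cast hDQ
    have hD₀Qr : (D₀ : ℝ) ≤ Q := by exact_mod_cast hD₀Q
    have habs : |(j : ℝ) / D - j₀ / D₀ - (n - n₀)| < 1 / (Q : ℝ) ^ 2 := by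
      have h1 : (j : ℝ) / D - j₀ / D₀ - (n - n₀) =
          (γ + (j : ℝ) / D - n) - (γ + (j₀ : ℝ) / D₀ - n₀) := by ring
      rw [h1]
      have h2 : 1 / (Q : ℝ) ^ 2 = 1 / (2 * (Q : ℝ) ^ 2) + 1 / (2 * (Q : ℝ) ^ 2) := by
        field_simp; norm_num
      rw [h2]
      exact lt_of_le_of_lt (abs_sub _ _) (add_lt_add hb1 hb2)
    have hN : |((j * D₀ - j₀ * D - (n - n₀) * (D * D₀) : ℤ) : ℝ)| < 1 := by
      have h1 : ((j * D₀ - j₀ * D - (n - n₀) * (D * D₀) : ℤ) : ℝ) =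
          ((j : ℝ) / D - j₀ / D₀ - (n - n₀)) * (D * D₀) := by
        push_cast
        field_simp
      rw [h1, abs_mul, abs_of_pos (mul_pos hDr hD₀r)]
      calc |(j : ℝ) / D - j₀ / D₀ - (n - n₀)| * (D * D₀)
          < 1 / (Q : ℝ) ^ 2 * (D * D₀) := mul_lt_mul_of_pos_right habs (mul_pos hDr hD₀r)
        _ ≤ 1 / (Q : ℝ) ^ 2 * (Q * Q) := by
          apply mul_le_mul_of_nonneg_left _ (by positivity)
          exact mul_le_mul hDQr hD₀Qr hD₀r.le hQr.le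
        _ = 1 := by field_simp
    have hN0 : j * D₀ - j₀ * D - (n - n₀) * (D * D₀) = 0 := by
      rw [← Int.cast_abs] at hN
      have : |j * (D₀ : ℤ) - j₀ * D - (n - n₀) * (D * D₀)| < 1 := by exact_mod_cast hN
      exact Int.abs_lt_one_iff.mp this
    have hdvd : (D₀ : ℤ) ∣ j₀ * D := by
      refine ⟨j - (n - n₀) * D, ?_⟩
      linarith [hN0]
    rw [hD₁, hj₁] at hdvd
    push_cast at hdvd
    have h3 : (D₁ : ℤ) ∣ j₁ * D := by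
      rw [mul_assoc] at hdvd
      exact (mul_dvd_mul_iff_left (by exact_mod_cast hgpos.ne')).mp hdvd
    have h4 : (D₁ : ℤ) ∣ (D : ℤ) := hcop.dvd_of_dvd_mul_left h3
    exact_mod_cast h4
  · refine ⟨0, Or.inl rfl, fun D hD hDQ _ j hj => ?_⟩
    by_contra hlt
    push Not at hlt
    exact hbad ⟨D, hD, hDQ, j, hj, hlt⟩

end Pool.Agent.Lib.SG
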