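import Pool.Agent.Lib.SG.Sg
import Pool.Agent.Lib.SG.Dfd
import Pool.Agent.Lib.MT.LayC
import Pool.Agent.Lib.MT.LayE

/-!
# SG-Fixd: the sum of `F² e(α x)` for fixed `d`

PROOF. Put `S_d = {x ∈ (X, 2X] : x % p ∈ Ω p for p ∈ d}`. Open the square (`layC_exp` for real and imaginary part, or directly
as in its proof with complex weights):
  `∑_{S_d} F² e(α x) = ∑_{σ,τ} L σ L τ ∑_{x ∈ S_d, Fit σ, Fit τ} e(α x)`.
Pairs with `L σ L τ = 0` drop. If `σ p = some i`, `τ p = some j`, `i ≠ j` for some p, then no x fits both (`p ∣ x + h i`, `p ∣ x + h j`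
contradicts `hL`), and `∏ Kmat = 0` (`kmat_conf`, see MT/LayC). Otherwise `Fit σ ∧ Fit τ ↔ x ≡ b [MOD D]`, `D = mod2 σ τ`
(`crt_pair` of MT/Crt), `1/D = ∏_r Kmat (q1 r) (σ r) (τ r)` (`kmat_q1`), `D ≤ tot σ * tot τ ≤ Q²` (`mod2_le`), D coprime to the primes of d
(`layC_cop`), and the inner sum is `dfd Ω d X α D b + (1/D) ∑_{S_d} e(α x)`. The second terms add up to `Qf q1 L * ∑_{S_d} e(α x)`.
Take `p*` from `dfd_bound` with `Q := Q²` (so `(Q²)²= Q⁴`): `‖dfd‖ ≤ ω Q⁴ + [p* ∣ D] ω (2X/(Δ D) + 2)`, ω = ∏ |Ω r|, Δ = ∏_{r ∈ d} r. The sum over σ, τ of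
`|L σ L τ|` times the first part and the constant 2 is at most `ω (Q⁴ + 2) (∑ |L|)²`; `p* ∣ mod2 σ τ` means (p* prime, not 0 because D ≥ 1)
that p* ∈ P and σ p* ≠ none or τ p* ≠ none, so the sum of `[p* ∣ D] |L σ L τ| ω 2X/(Δ D)` is at most `ω (2X/Δ) Sg L p* ≤ ω (2X/Δ) S`.
-/

set_option autoImplicit false

open Finset

namespace Pool.Agent.Lib.SG

open Pool.Agent.Lib.MT

variable {P : Finset ℕ} {ι : Type} [Fintype ι] [DecidableEq ι]

omit [Fintype ι] in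
private theorem fixd_K_nonneg (q : ι → ℝ) (hq : ∀ i, 0 ≤ q i) (a b : Option ι) :
    0 ≤ Kmat q a b := by
  cases a with
  | none =>
    cases b with
    | none => exact zero_le_one
    | some j => exact hq j
  | some i =>
    cases b with
    | none => exact hq i
    | some j =>
      show (0 : ℝ) ≤ if i = j then q i else 0
      split_ifs
      · exact hq i
      · exact le_rfl

omit [Fintype ι] in
private theorem fixd_KK (σ τ : Col P ι) :
    0 ≤ ∏ p : {p : ℕ // p ∈ P}, Kmat (q1 p) (σ p) (τ p) := by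
  refine prod_nonneg fun p _ => fixd_K_nonneg _ (fun i => ?_) _ _
  unfold q1
  positivity

omit [Fintype ι] [DecidableEq ι] in
private theorem fixd_dvd (hP : ∀ p ∈ P, p.Prime) {p₀ : ℕ} (hp₀ : p₀.Prime) (σ τ : Col P ι)
    (hdv : p₀ ∣ mod2 σ τ) :
    ∃ p : {p : ℕ // p ∈ P}, (p : ℕ) = p₀ ∧ ¬ (σ p = none ∧ τ p = none) := by
  unfold mod2 at hdv
  obtain ⟨p, _, hp⟩ := (Prime.dvd_finsetProd_iff hp₀.prime _).1 hdv
  split_ifs at hp with h
  · exact absurd hp hp₀.not_dvd_one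
  · exact ⟨p, ((Nat.prime_dvd_prime_iff_eq hp₀ (hP _ p.2)).1 hp).symm, h⟩

open Classical in
/-- opening the square with complex weights -/
private theorem fixd_exp (s : Finset ℕ) (u : ℕ → ℂ) (h : ι → ℕ) (L : Col P ι → ℝ) :
    ∑ x ∈ s, (((FF h L x) ^ 2 : ℝ) : ℂ) * u x =
      ∑ σ : Col P ι, ∑ τ : Col P ι, ((L σ * L τ : ℝ) : ℂ) *
        ∑ x ∈ s.filter (fun x => Fit h x σ ∧ Fit h x τ), u x := by
  have h1 : ∀ x, (((FF h L x) ^ 2 : ℝ) : ℂ) * u x = ∑ σ : Col P ι, ∑ τ : Col P ι,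
      (if Fit h x σ ∧ Fit h x τ then ((L σ * L τ : ℝ) : ℂ) * u x else 0) := by
    intro x
    unfold FF
    rw [sq, sum_filter, sum_mul_sum, Complex.ofReal_sum, sum_mul]
    refine sum_congr rfl fun σ _ => ?_
    rw [Complex.ofReal_sum, sum_mul]
    refine sum_congr rfl fun τ _ => ?_
    by_cases h1 : Fit h x σ
    · by_cases h2 : Fit h x τ
      · rw [if_pos h1, if_pos h2, if_pos ⟨h1, h2⟩]
      · rw [if_neg h2, if_neg (fun h' : Fit h x σ ∧ Fit h x τ => h2 h'.2), mul_zero,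
          Complex.ofReal_zero, zero_mul]
    · rw [if_neg h1, if_neg (fun h' : Fit h x σ ∧ Fit h x τ => h1 h'.1), zero_mul,
        Complex.ofReal_zero, zero_mul]
  rw [sum_congr rfl fun x _ => h1 x, sum_comm]
  refine sum_congr rfl fun σ _ => ?_
  rw [sum_comm]
  refine sum_congr rfl fun τ _ => ?_
  rw [mul_sum, sum_filter]

theorem fixd (hP : ∀ p ∈ P, p.Prime) (z X Q : ℕ) (hQ : 1 ≤ Q) (hz : ∀ p ∈ P, z < p) (h : ι → ℕ)
    (L : Col P ι → ℝ)
    (hL : ∀ σ τ, L σ ≠ 0 → L τ ≠ 0 → ∀ p i j, σ p = some i → τ p = some j → i ≠ j →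
      ¬ h i ≡ h j [MOD (p : ℕ)])
    (hLQ : ∀ σ, L σ ≠ 0 → tot σ ≤ Q)
    (Ω : ℕ → Finset ℕ) (hΩ : ∀ p ∈ PP 0 z, ∀ c ∈ Ω p, c < p) (d : Finset ℕ) (hd : d ⊆ PP 0 z)
    (S : ℝ) (hS : 0 ≤ S) (hSg : ∀ p, Sg L p ≤ S) (α : ℝ) :
    ‖∑ x ∈ (Ioc X (2 * X)).filter (fun x => ∀ p ∈ d, x % p ∈ Ω p), (((FF h L x) ^ 2 : ℝ) : ℂ) * GT.e (α * x) -
        ((Qf (q1 (ι := ι)) L : ℝ) : ℂ) *
          ∑ x ∈ (Ioc X (2 * X)).filter (fun x => ∀ p ∈ d, x % p ∈ Ω p), GT.e (α * x)‖ ≤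
      (∏ p ∈ d, ((Ω p).card : ℝ)) *
        (((Q : ℝ) ^ 4 + 2) * (∑ σ, |L σ|) ^ 2 + 2 * X / (∏ p ∈ d, (p : ℝ)) * S) := by
  classical
  set ω : ℝ := ∏ p ∈ d, ((Ω p).card : ℝ) with hω
  set Δ : ℝ := ∏ p ∈ d, (p : ℝ) with hΔ
  have hω0 : 0 ≤ ω := prod_nonneg fun p _ => Nat.cast_nonneg _
  have hdp : ∀ r ∈ d, r.Prime := fun r hr => (mem_filter.1 (hd hr)).2.1
  have hΔ0 : 0 ≤ Δ := prod_nonneg fun p _ => Nat.cast_nonneg _
  have hc1 : 0 ≤ (Q : ℝ) ^ 4 + 2 :=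
    add_nonneg (pow_nonneg (Nat.cast_nonneg _) _) zero_le_two
  have hc2 : 0 ≤ 2 * (X : ℝ) / Δ := div_nonneg (mul_nonneg zero_le_two (Nat.cast_nonneg _)) hΔ0
  obtain ⟨p₀, hp₀, hD⟩ := dfd_bound Ω d hdp (fun r hr => hΩ r (hd hr)) X (Q ^ 2)
    (Nat.one_le_pow _ _ hQ) α
  set K : Col P ι → Col P ι → ℝ := fun σ τ =>
    ∏ p : {p : ℕ // p ∈ P}, Kmat (q1 p) (σ p) (τ p) with hK
  have hK0 : ∀ σ τ, 0 ≤ K σ τ := fun σ τ => fixd_KK σ τ
  set T : Col P ι → Col P ι → ℝ := fun σ τ =>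
    if p₀ ∣ mod2 σ τ then K σ τ * |L σ * L τ| else 0 with hT
  have hT0 : ∀ σ τ, 0 ≤ T σ τ := by
    intro σ τ
    simp only [hT]
    split_ifs
    · exact mul_nonneg (hK0 σ τ) (abs_nonneg _)
    · exact le_rfl
  -- the sum of `T`
  have hTS : ∑ σ : Col P ι, ∑ τ : Col P ι, T σ τ ≤ S := by
    by_cases hex : ∃ p : {p : ℕ // p ∈ P}, (p : ℕ) = p₀
    · obtain ⟨p, hp⟩ := hex
      refine le_trans ?_ (hSg p)
      unfold Sg
      refine sum_le_sum fun σ _ => sum_le_sum fun τ _ => ?_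
      simp only [hT]
      by_cases h1 : p₀ ∣ mod2 σ τ
      · rw [if_pos h1]
        obtain ⟨r, hr, hnn⟩ := fixd_dvd hP (hp ▸ hP _ p.2 : p₀.Prime) σ τ h1
        have hrp : r = p := Subtype.ext (by rw [hr, hp])
        rw [hrp] at hnn
        rw [if_neg hnn]
      · rw [if_neg h1]
        split_ifs
        · exact le_rfl
        · exact mul_nonneg (hK0 σ τ) (abs_nonneg _)
    · have hz0 : ∀ σ τ, T σ τ = 0 := by
        intro σ τ
        simp only [hT]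
        rw [if_neg]
        intro h1
        rcases hp₀ with h0 | hpr
        · rw [h0, Nat.zero_dvd] at h1
          have := mod2_pos hP σ τ
          omega
        · obtain ⟨r, hr, _⟩ := fixd_dvd hP hpr σ τ h1
          exact hex ⟨r, hr⟩
      simp only [hz0, sum_const_zero]
      exact hS
  -- opening the square
  set Sd := (Ioc X (2 * X)).filter (fun x => ∀ p ∈ d, x % p ∈ Ω p) with hSd
  set W : ℂ := ∑ x ∈ Sd, GT.e (α * x) with hW
  have e2 : ((Qf (q1 (ι := ι)) L : ℝ) : ℂ) * W = ∑ σ : Col P ι, ∑ τ : Col P ι,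
      ((L σ * L τ : ℝ) : ℂ) * ((K σ τ : ℂ) * W) := by
    unfold Qf
    rw [Complex.ofReal_sum, sum_mul]
    refine sum_congr rfl fun σ _ => ?_
    rw [Complex.ofReal_sum, sum_mul]
    refine sum_congr rfl fun τ _ => ?_
    simp only [hK]
    push_cast
    ring
  rw [fixd_exp Sd (fun x => GT.e (α * x)) h L, e2, ← sum_sub_distrib]
  -- one pair
  have hpair : ∀ σ τ : Col P ι,
      ‖((L σ * L τ : ℝ) : ℂ) * ∑ x ∈ Sd.filter (fun x => Fit h x σ ∧ Fit h x τ), GT.e (α * x) -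
        ((L σ * L τ : ℝ) : ℂ) * ((K σ τ : ℂ) * W)‖ ≤
      ω * (((Q : ℝ) ^ 4 + 2) * (|L σ| * |L τ|) + 2 * X / Δ * T σ τ) := by
    intro σ τ
    have hr0 : 0 ≤ ω * (((Q : ℝ) ^ 4 + 2) * (|L σ| * |L τ|) + 2 * X / Δ * T σ τ) :=
      mul_nonneg hω0 (add_nonneg (mul_nonneg hc1 (mul_nonneg (abs_nonneg _) (abs_nonneg _)))
        (mul_nonneg hc2 (hT0 σ τ)))
    by_cases hσ : L σ = 0
    · have h0 : ((L σ * L τ : ℝ) : ℂ) = 0 := by rw [hσ, zero_mul, Complex.ofReal_zero]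
      rw [h0, zero_mul, zero_mul, sub_zero, norm_zero]
      exact hr0
    by_cases hτ : L τ = 0
    · have h0 : ((L σ * L τ : ℝ) : ℂ) = 0 := by rw [hτ, mul_zero, Complex.ofReal_zero]
      rw [h0, zero_mul, zero_mul, sub_zero, norm_zero]
      exact hr0
    rw [← mul_sub, norm_mul, Complex.norm_real, Real.norm_eq_abs]
    by_cases hc : ∀ p i j, σ p = some i → τ p = some j → i = j
    · obtain ⟨b, hb⟩ := crt_pair hP h σ τ hc
      have hKD : K σ τ = 1 / (mod2 σ τ : ℝ) := kmat_q1 σ τ hc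
      have hDpos := mod2_pos hP σ τ
      have hDQ : mod2 σ τ ≤ Q ^ 2 := by
        refine (mod2_le hP σ τ).trans ?_
        rw [sq]
        exact Nat.mul_le_mul (hLQ σ hσ) (hLQ τ hτ)
      have hcop : ∀ r ∈ d, ¬ r ∣ mod2 σ τ := by
        intro r hr
        exact ((hdp r hr).coprime_iff_not_dvd).1 (layC_cop hP hz σ τ (hd hr))
      have h1 : ∑ x ∈ Sd.filter (fun x => Fit h x σ ∧ Fit h x τ), GT.e (α * x) -
          (K σ τ : ℂ) * W = dfd Ω d X α (mod2 σ τ) b := by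
        unfold dfd
        rw [hKD]
        have h2 : Sd.filter (fun x => Fit h x σ ∧ Fit h x τ) =
            Sd.filter (fun x => x ≡ b [MOD mod2 σ τ]) :=
          filter_congr fun x _ => hb x
        rw [h2]
        push_cast
        rfl
      rw [h1]
      have h3 := hD (mod2 σ τ) b hDpos hDQ hcop
      have habs : |L σ * L τ| = |L σ| * |L τ| := abs_mul _ _
      have h4 : |L σ * L τ| * ‖dfd Ω d X α (mod2 σ τ) b‖ ≤ |L σ * L τ| *
          (ω * ((Q ^ 2 : ℕ) : ℝ) ^ 2 + (if p₀ ∣ mod2 σ τ then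
            ω * (2 * X / (Δ * (mod2 σ τ : ℝ)) + 2) else 0)) :=
        mul_le_mul_of_nonneg_left h3 (abs_nonneg _)
      refine h4.trans ?_
      simp only [hT]
      rw [hKD]
      have hQ4 : (((Q ^ 2 : ℕ) : ℝ)) ^ 2 = (Q : ℝ) ^ 4 := by
        push_cast
        ring
      rw [hQ4]
      have hDR : (0 : ℝ) < (mod2 σ τ : ℝ) := by exact_mod_cast hDpos
      have hdiv : 2 * (X : ℝ) / (Δ * (mod2 σ τ : ℝ)) = 2 * X / Δ * (1 / (mod2 σ τ : ℝ)) := by
        rw [div_mul_div_comm, mul_one]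
      split_ifs with hdv
      · rw [hdiv, ← habs]
        have : |L σ * L τ| * (ω * (Q : ℝ) ^ 4 + ω * (2 * X / Δ * (1 / (mod2 σ τ : ℝ)) + 2)) =
            ω * (((Q : ℝ) ^ 4 + 2) * |L σ * L τ| + 2 * X / Δ * (1 / (mod2 σ τ : ℝ) *
              |L σ * L τ|)) := by ring
        rw [this]
      · rw [← habs]
        have h5 : 0 ≤ ω * |L σ * L τ| := mul_nonneg hω0 (abs_nonneg _)
        have h6 : |L σ * L τ| * (ω * (Q : ℝ) ^ 4 + 0) =
            ω * (((Q : ℝ) ^ 4 + 2) * |L σ * L τ| + 2 * X / Δ * 0) - 2 * (ω * |L σ * L τ|) := by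
          ring
        rw [h6]
        linarith
    · push Not at hc
      obtain ⟨p, i, j, h1, h2, h3⟩ := hc
      have h4 := hL σ τ hσ hτ p i j h1 h2 h3
      have h5 : Sd.filter (fun x => Fit h x σ ∧ Fit h x τ) = ∅ :=
        filter_eq_empty_iff.2 fun x _ => not_fit h x σ τ p i j h1 h2 h4
      have h6 : K σ τ = 0 := kmat_conf _ σ τ p i j h1 h2 h3
      rw [h5, h6, sum_empty]
      simp only [Complex.ofReal_zero, zero_mul, sub_zero, norm_zero, mul_zero]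
      exact hr0
  have e3 : ω * (((Q : ℝ) ^ 4 + 2) * (∑ σ, |L σ|) ^ 2 + 2 * X / Δ *
      ∑ σ : Col P ι, ∑ τ : Col P ι, T σ τ) =
      ∑ σ : Col P ι, ∑ τ : Col P ι,
        ω * (((Q : ℝ) ^ 4 + 2) * (|L σ| * |L τ|) + 2 * X / Δ * T σ τ) := by
    rw [sq, sum_mul_sum, mul_sum, mul_sum, ← sum_add_distrib, mul_sum]
    refine sum_congr rfl fun σ _ => ?_
    rw [mul_sum, mul_sum, ← sum_add_distrib, mul_sum]
  refine le_trans ?_ (mul_le_mul_of_nonneg_left (add_le_add_right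
    (mul_le_mul_of_nonneg_left hTS hc2) _) hω0)
  rw [e3]
  refine (norm_sum_le _ _).trans (sum_le_sum fun σ _ => ?_)
  rw [← sum_sub_distrib]
  exact (norm_sum_le _ _).trans (sum_le_sum fun τ _ => hpair σ τ)

end Pool.Agent.Lib.SG
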