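import Pool.Agent.Lib.SG.Defs

/-!
# SG-Per: the presieved integers are invariant under multiples of the primorial; symmetry; the upper bound

PROOF of `per`: for fixed x, `cor E u (x + t) - cor E u x = ∑_{s ∈ E} D(s - x)` (over the s ≥ x; for s < x both terms are 0), `D(n) = 1[t ≤ n] u(n - t) - u n`, u = mu Ω y X. Since Ω p = {0} and
p ∣ t for all p ∈ PP 0 y, `(n - t) % p ∈ Ω p ↔ n % p ∈ Ω p`; so D(n) ≠ 0 only if exactly one of n - t, n lies in (X, 2X]: n ∈ (X, X+t] or n ∈ (2X, 2X+t]: at most 2t values of n, so of s;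
|D| ≤ (V1 Ω y)⁻¹ (assume 0 ≤ (V1)⁻¹: hypothesis hV).
`cor_symm`: both sides are `∑_{s ∈ E} ∑_{x + n = s} ρ x u n`.
`ups`: `∑_n a n cor E b n = ∑_{s ∈ E} ∑_{n ∈ R(s)} a n b(s - n)`, R(s) the set of `rep`; Cauchy-Schwarz over the pairs (s, n), s ∈ E, n ∈ R(s):
the square is at most `(∑_{s ∈ E} |R(s)|) ∑_{s,n} a(n)² b(s-n)²`, last sum `≤ (∑ a²)(∑ b²)` (for fixed n the map s ↦ s - n is injective).
-/

set_option autoImplicit false

open Finset

namespace Pool.Agent.Lib.SG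

open Pool.Agent.Lib.MT

open Classical in
/-- the number of pairs of primes a ∈ A, b ∈ B with a + b = s -/
noncomputable def rep (A B : Set ℕ) (s : ℕ) : ℕ :=
  ((range (s + 1)).filter (fun a => a ∈ A ∧ a.Prime ∧ s - a ∈ B ∧ (s - a).Prime)).card

private theorem Per_mu_nonneg {Ω : ℕ → Finset ℕ} {y X : ℕ} (hV : 0 < V1 Ω y) (n : ℕ) :
    0 ≤ mu Ω y X n ∧ mu Ω y X n ≤ (V1 Ω y)⁻¹ := by
  have h : 0 < (V1 Ω y)⁻¹ := inv_pos.2 hV
  unfold mu
  split_ifs
  · exact ⟨h.le, le_refl _⟩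
  · exact ⟨le_refl _, h.le⟩

private theorem Per_D {Ω : ℕ → Finset ℕ} {y X t : ℕ} (hV : 0 < V1 Ω y)
    (ht : ∀ p ∈ PP 0 y, p ∣ t) (x s : ℕ) :
    |(if x + t ≤ s then mu Ω y X (s - (x + t)) else 0) - (if x ≤ s then mu Ω y X (s - x) else 0)| ≤
      if s ∈ (Ioc X (X + t) ∪ Ioc (2 * X) (2 * X + t)).image (fun n => n + x)
      then (V1 Ω y)⁻¹ else 0 := by
  split_ifs with h1 h2 h3 h4 h5 h6 h7 h8
  · have e1 := Per_mu_nonneg (X := X) hV (s - (x + t))
    have e2 := Per_mu_nonneg (X := X) hV (s - x)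
    rw [abs_le]
    constructor <;> linarith [e1.1, e1.2, e2.1, e2.2]
  · -- both terms are equal
    have hn : s - x ∉ Ioc X (X + t) ∪ Ioc (2 * X) (2 * X + t) := by
      intro h
      apply h3
      rw [mem_image]
      exact ⟨s - x, h, by omega⟩
    rw [mem_union, mem_Ioc, mem_Ioc] at hn
    have hiff : s - (x + t) ∈ Pre Ω y X ↔ s - x ∈ Pre Ω y X := by
      unfold Pre
      rw [mem_filter, mem_filter, mem_Ioc, mem_Ioc]
      have hmod : ∀ p ∈ PP 0 y, (s - (x + t)) % p = (s - x) % p := by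
        intro p hp
        obtain ⟨q, hq⟩ := ht p hp
        have : s - x = (s - (x + t)) + p * q := by omega
        rw [this, Nat.add_mul_mod_self_left]
      constructor
      · rintro ⟨hr, hc⟩
        refine ⟨by omega, fun p hp => ?_⟩
        rw [← hmod p hp]
        exact hc p hp
      · rintro ⟨hr, hc⟩
        refine ⟨by omega, fun p hp => ?_⟩
        rw [hmod p hp]
        exact hc p hp
    have heq : mu Ω y X (s - (x + t)) = mu Ω y X (s - x) := by
      unfold mu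
      simp only [hiff]
    rw [heq, sub_self, abs_zero]
  · exfalso
    omega
  · exfalso
    omega
  · have e2 := Per_mu_nonneg (X := X) hV (s - x)
    rw [abs_le]
    constructor <;> linarith [e2.1, e2.2]
  · have hn : s - x ∉ Ioc X (X + t) ∪ Ioc (2 * X) (2 * X + t) := by
      intro h
      apply h6
      rw [mem_image]
      exact ⟨s - x, h, by omega⟩
    rw [mem_union, mem_Ioc, mem_Ioc] at hn
    have hz : mu Ω y X (s - x) = 0 := by
      unfold mu
      rw [if_neg]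
      unfold Pre
      rw [mem_filter, mem_Ioc]
      rintro ⟨hr, -⟩
      omega
    rw [hz, sub_self, abs_zero]
  · rw [sub_self, abs_zero]
    exact (inv_pos.2 hV).le
  · rw [sub_self, abs_zero]

theorem per (X y t : ℕ) (Ω : ℕ → Finset ℕ) (hΩ : ∀ p ∈ PP 0 y, Ω p = {0}) (hV : 0 < V1 Ω y)
    (ht : ∀ p ∈ PP 0 y, p ∣ t) (E : Finset ℕ) (f : ℕ → ℝ) (hf : ∀ x, 0 ≤ f x) :
    |∑ x ∈ Ioc X (2 * X), f x * (cor E (mu Ω y X) (x + t) - cor E (mu Ω y X) x)| ≤
      (∑ x ∈ Ioc X (2 * X), f x) * (2 * t * (V1 Ω y)⁻¹) := by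
  have _h := hΩ
  have hVi : 0 ≤ (V1 Ω y)⁻¹ := (inv_pos.2 hV).le
  refine (abs_sum_le_sum_abs _ _).trans ?_
  rw [sum_mul]
  refine sum_le_sum fun x _ => ?_
  rw [abs_mul, abs_of_nonneg (hf x)]
  refine mul_le_mul_of_nonneg_left ?_ (hf x)
  unfold cor
  rw [← sum_sub_distrib]
  refine (abs_sum_le_sum_abs _ _).trans ?_
  refine (sum_le_sum fun s _ => Per_D (X := X) hV ht x s).trans ?_
  rw [← sum_filter, sum_const, nsmul_eq_mul]
  refine mul_le_mul_of_nonneg_right ?_ hVi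
  have h1 : (E.filter (fun s => s ∈ (Ioc X (X + t) ∪ Ioc (2 * X) (2 * X + t)).image
      (fun n => n + x))).card ≤ 2 * t := by
    calc (E.filter (fun s => s ∈ (Ioc X (X + t) ∪ Ioc (2 * X) (2 * X + t)).image
          (fun n => n + x))).card
        ≤ ((Ioc X (X + t) ∪ Ioc (2 * X) (2 * X + t)).image (fun n => n + x)).card := by
          apply card_le_card
          intro s hs
          exact (mem_filter.1 hs).2
      _ ≤ (Ioc X (X + t) ∪ Ioc (2 * X) (2 * X + t)).card := card_image_le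
      _ ≤ (Ioc X (X + t)).card + (Ioc (2 * X) (2 * X + t)).card := card_union_le _ _
      _ ≤ 2 * t := by
          rw [Nat.card_Ioc, Nat.card_Ioc]
          omega
  exact_mod_cast h1

private theorem Per_range (s : ℕ) (S : Finset ℕ) (g : ℕ → ℝ) (h : ℕ → ℝ)
    (hg : ∀ x, x ∉ S → g x = 0) :
    ∑ x ∈ S, g x * (if x ≤ s then h (s - x) else 0) = ∑ x ∈ range (s + 1), g x * h (s - x) := by
  have h1 : ∑ x ∈ S, g x * (if x ≤ s then h (s - x) else 0) =
      ∑ x ∈ S.filter (fun x => x ≤ s), g x * h (s - x) := by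
    rw [sum_filter]
    refine sum_congr rfl fun x _ => ?_
    split_ifs
    · rfl
    · rw [mul_zero]
  rw [h1]
  apply sum_subset_zero_on_sdiff
  · intro x hx
    rw [mem_filter] at hx
    rw [mem_range]
    omega
  · intro x hx
    rw [mem_sdiff, mem_range, mem_filter] at hx
    have : x ∉ S := fun hS => hx.2 ⟨hS, by omega⟩
    rw [hg x this, zero_mul]
  · intro x _
    rfl

theorem cor_symm (X : ℕ) (E : Finset ℕ) (ρ u : ℕ → ℝ) (hρ : ∀ x, x ∉ Ioc X (2 * X) → ρ x = 0)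
    (hu : ∀ n, n ∉ Ioc X (3 * X) → u n = 0) :
    ∑ x ∈ Ioc X (2 * X), ρ x * cor E u x = ∑ n ∈ Ioc X (3 * X), u n * cor E ρ n := by
  unfold cor
  simp only [mul_sum]
  rw [sum_comm, sum_comm (s := Ioc X (3 * X))]
  refine sum_congr rfl fun s _ => ?_
  rw [Per_range s _ ρ u hρ, Per_range s _ u ρ hu]
  rw [← sum_range_reflect]
  refine sum_congr rfl fun x hx => ?_
  rw [mem_range] at hx
  have e1 : s + 1 - 1 - x = s - x := by omega
  have e2 : s - (s - x) = x := by omega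
  rw [e1, e2, mul_comm]

theorem ups (X : ℕ) (E : Finset ℕ) (A B : Set ℕ) (a b : ℕ → ℝ) (ha0 : ∀ n, 0 ≤ a n) (hb0 : ∀ n, 0 ≤ b n)
    (ha : ∀ n, a n ≠ 0 → n ∈ A ∧ n.Prime) (hb : ∀ n, b n ≠ 0 → n ∈ B ∧ n.Prime)
    (hbs : ∀ n, n ∉ Ioc X (3 * X) → b n = 0) :
    (∑ n ∈ Ioc X (3 * X), a n * cor E b n) ^ 2 ≤ (∑ s ∈ E, (rep A B s : ℝ)) *
      ((∑ n ∈ Ioc X (3 * X), (a n) ^ 2) * ∑ n ∈ Ioc X (3 * X), (b n) ^ 2) := by
  classical
  have _h := ha0
  have _h' := hb0
  let R : ℕ → Finset ℕ := fun s =>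
    (range (s + 1)).filter (fun a => a ∈ A ∧ a.Prime ∧ s - a ∈ B ∧ (s - a).Prime)
  have hR : ∀ s, rep A B s = (R s).card := by
    intro s
    unfold rep
    congr 1
  let I : ℕ × ℕ → ℝ := fun q => if q.1 ∈ R q.2 then 1 else 0
  let T : ℕ × ℕ → ℝ := fun q => a q.1 * (if q.1 ≤ q.2 then b (q.2 - q.1) else 0)
  have hIT : ∀ q, T q = I q * T q := by
    intro q
    by_cases hq : q.1 ∈ R q.2
    · simp only [I, if_pos hq, one_mul]
    · have hz : T q = 0 := by
        by_contra hne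
        simp only [T] at hne
        have ha1 : a q.1 ≠ 0 := left_ne_zero_of_mul hne
        have hb1 := right_ne_zero_of_mul hne
        by_cases hle : q.1 ≤ q.2
        · rw [if_pos hle] at hb1
          apply hq
          simp only [R, mem_filter, mem_range]
          exact ⟨by omega, (ha _ ha1).1, (ha _ ha1).2, (hb _ hb1).1, (hb _ hb1).2⟩
        · rw [if_neg hle] at hb1
          exact hb1 rfl
      rw [hz, mul_zero]
  have hsum : ∑ n ∈ Ioc X (3 * X), a n * cor E b n =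
      ∑ q ∈ Ioc X (3 * X) ×ˢ E, I q * T q := by
    rw [sum_product]
    refine sum_congr rfl fun n _ => ?_
    unfold cor
    rw [mul_sum]
    refine sum_congr rfl fun s _ => ?_
    rw [← hIT]
  rw [hsum]
  refine (sum_mul_sq_le_sq_mul_sq _ _ _).trans ?_
  have hI : ∑ q ∈ Ioc X (3 * X) ×ˢ E, I q ^ 2 ≤ ∑ s ∈ E, (rep A B s : ℝ) := by
    rw [sum_product_right]
    refine sum_le_sum fun s _ => ?_
    rw [hR]
    have h1 : ∑ x ∈ Ioc X (3 * X), I (x, s) ^ 2 =
        ∑ x ∈ (Ioc X (3 * X)).filter (fun x => x ∈ R s), (1:ℝ) := by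
      rw [sum_filter]
      refine sum_congr rfl fun x _ => ?_
      simp only [I]
      split_ifs <;> norm_num
    rw [h1, sum_const, nsmul_eq_mul, mul_one]
    exact_mod_cast card_le_card (fun x hx => (mem_filter.1 hx).2)
  have hT : ∑ q ∈ Ioc X (3 * X) ×ˢ E, T q ^ 2 ≤
      (∑ n ∈ Ioc X (3 * X), (a n) ^ 2) * ∑ n ∈ Ioc X (3 * X), (b n) ^ 2 := by
    rw [sum_product, sum_mul]
    refine sum_le_sum fun n _ => ?_
    simp only [T, mul_pow]
    rw [← mul_sum]
    refine mul_le_mul_of_nonneg_left ?_ (sq_nonneg _)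
    have h1 : ∑ s ∈ E, (if n ≤ s then b (s - n) else 0) ^ 2 =
        ∑ s ∈ E.filter (fun s => n ≤ s), (b (s - n)) ^ 2 := by
      rw [sum_filter]
      refine sum_congr rfl fun s _ => ?_
      split_ifs
      · rfl
      · norm_num
    rw [h1]
    have h2 : ∑ s ∈ E.filter (fun s => n ≤ s), (b (s - n)) ^ 2 =
        ∑ m ∈ (E.filter (fun s => n ≤ s)).image (fun s => s - n), (b m) ^ 2 := by
      rw [sum_image]
      intro s hs s' hs' hss
      simp only [coe_filter, Set.mem_setOf_eq] at hs hs'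
      simp only at hss
      omega
    rw [h2]
    rw [← sum_filter_of_ne (p := fun m => m ∈ Ioc X (3 * X)) (fun m _ hm => by
      by_contra hmem
      apply hm
      rw [hbs m hmem]
      norm_num)]
    exact sum_le_sum_of_subset_of_nonneg (fun m hm => (mem_filter.1 hm).2)
      (fun m _ _ => sq_nonneg _)
  exact mul_le_mul hI hT (sum_nonneg fun q _ => sq_nonneg _)
    (sum_nonneg fun s _ => Nat.cast_nonneg _)

end Pool.Agent.Lib.SG
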