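import Pool.Agent.Lib.SG.Amft
import Pool.Agent.Lib.SG.Per

/-!
# SG-Swp7: reflection of the tuple

`swp7`: h* i + h i = H₀ for all i. PROOF. `∑_x fa B h* w i x · cor E f (x + H₀) = ∑_{s ∈ E} ∑_{x + x' + H₀ = s} fa_i(x) f(x')` (x, x' ∈ (X, 2X]); for such x, x', s: `s - (x' + h i) = x + h* i`, and `fa B h* w i x = w(n - h* i) 1[n ∈ B prime]` with n = s - (x' + h i), one of the terms of
`am B h* w n` (all terms are ≥ 0). So it is at most `∑_{x'} f(x') ∑_{s ∈ E, s ≥ x' + h i} am B h* w (s - (x' + h i)) = ∑_{x'} f(x') cor E (am B h* w) (x' + h i)`.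
`swp_symm`: `∑_x ρ x cor E f (x + t) = ∑_{x'} f x' cor E ρ (x' + t)` (both are `∑_{s ∈ E} ∑_{x + x' + t = s} ρ x f x'`).
`cor_le`: cor E f n ≤ ∑ f.
-/

set_option autoImplicit false

open Finset

namespace Pool.Agent.Lib.SG

private theorem swp7_ind (X : ℕ) (f : ℕ → ℝ) (hf : ∀ x, x ∉ Ioc X (2 * X) → f x = 0) (n s : ℕ) :
    (if n ≤ s then f (s - n) else 0) = ∑ x' ∈ Ioc X (2 * X), if x' + n = s then f x' else 0 := by
  by_cases hn : n ≤ s
  · rw [if_pos hn]
    by_cases hI : s - n ∈ Ioc X (2 * X)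
    · rw [Finset.sum_eq_single (s - n)]
      · rw [if_pos (Nat.sub_add_cancel hn)]
      · intro x' _ hne
        rw [if_neg]
        intro h
        exact hne (by omega)
      · intro h
        exact absurd hI h
    · rw [hf _ hI]
      symm
      apply Finset.sum_eq_zero
      intro x' hx'
      rw [if_neg]
      intro h
      apply hI
      have : s - n = x' := by omega
      rw [this]
      exact hx'
  · rw [if_neg hn]
    symm
    apply Finset.sum_eq_zero
    intro x' _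
    rw [if_neg]
    omega

private theorem swp7_open (X t : ℕ) (E : Finset ℕ) (ρ f : ℕ → ℝ)
    (hf : ∀ x, x ∉ Ioc X (2 * X) → f x = 0) :
    ∑ x ∈ Ioc X (2 * X), ρ x * cor E f (x + t) = ∑ s ∈ E, ∑ x ∈ Ioc X (2 * X),
      ∑ x' ∈ Ioc X (2 * X), if x' + (x + t) = s then ρ x * f x' else 0 := by
  unfold cor
  rw [Finset.sum_comm]
  apply Finset.sum_congr rfl
  intro x _
  rw [Finset.mul_sum]
  apply Finset.sum_congr rfl
  intro s _
  rw [swp7_ind X f hf, Finset.mul_sum]
  apply Finset.sum_congr rfl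
  intro x' _
  split_ifs
  · rfl
  · rw [mul_zero]

theorem swp_symm (X t : ℕ) (E : Finset ℕ) (ρ f : ℕ → ℝ) (hρ : ∀ x, x ∉ Ioc X (2 * X) → ρ x = 0)
    (hf : ∀ x, x ∉ Ioc X (2 * X) → f x = 0) :
    ∑ x ∈ Ioc X (2 * X), ρ x * cor E f (x + t) = ∑ x ∈ Ioc X (2 * X), f x * cor E ρ (x + t) := by
  rw [swp7_open X t E ρ f hf, swp7_open X t E f ρ hρ]
  apply Finset.sum_congr rfl
  intro s _
  rw [Finset.sum_comm]
  apply Finset.sum_congr rfl
  intro x' _
  apply Finset.sum_congr rfl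
  intro x _
  have h : x' + (x + t) = x + (x' + t) := by omega
  rw [h, mul_comm (ρ x)]

theorem swp7 {k : ℕ} (X H₀ : ℕ) (E : Finset ℕ) (B : Set ℕ) (h h' : Fin k → ℕ) (hh : ∀ i, h' i + h i = H₀)
    (w f : ℕ → ℝ) (hw0 : ∀ x, 0 ≤ w x) (hf0 : ∀ x, 0 ≤ f x)
    (hw : ∀ x, x ∉ Ioc X (2 * X) → w x = 0) (hf : ∀ x, x ∉ Ioc X (2 * X) → f x = 0) (i : Fin k) :
    ∑ x ∈ Ioc X (2 * X), fa B h' w i x * cor E f (x + H₀) ≤
      ∑ x ∈ Ioc X (2 * X), f x * cor E (am B h' w) (x + h i) := by
  classical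
  have hfa : ∀ x, x ∉ Ioc X (2 * X) → fa B h' w i x = 0 := by
    intro x hx
    unfold fa
    rw [hw x hx, ite_self]
  rw [swp_symm X H₀ E _ f hfa hf]
  apply Finset.sum_le_sum
  intro x _
  apply mul_le_mul_of_nonneg_left _ (hf0 x)
  unfold cor
  apply Finset.sum_le_sum
  intro s _
  have ham : ∀ n, 0 ≤ am B h' w n := by
    intro n
    unfold am
    apply Finset.sum_nonneg
    intro j _
    split_ifs
    · exact hw0 _
    · exact le_rfl
  have hi := hh i
  by_cases h1 : x + H₀ ≤ s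
  · have h2 : x + h i ≤ s := by omega
    rw [if_pos h1, if_pos h2]
    by_cases h3 : s - (x + H₀) + h' i ∈ B ∧ (s - (x + H₀) + h' i).Prime
    · unfold fa am
      rw [if_pos h3]
      have h4 : s - (x + h i) = s - (x + H₀) + h' i := by omega
      rw [h4]
      have h5 : (if h' i ≤ s - (x + H₀) + h' i ∧ s - (x + H₀) + h' i ∈ B ∧
          (s - (x + H₀) + h' i).Prime then w (s - (x + H₀) + h' i - h' i) else 0) =
          w (s - (x + H₀)) := by
        rw [if_pos ⟨Nat.le_add_left _ _, h3.1, h3.2⟩, Nat.add_sub_cancel]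
      rw [← h5]
      refine Finset.single_le_sum (f := fun j => if h' j ≤ s - (x + H₀) + h' i ∧
        s - (x + H₀) + h' i ∈ B ∧ (s - (x + H₀) + h' i).Prime then
          w (s - (x + H₀) + h' i - h' j) else 0) ?_ (Finset.mem_univ i)
      intro j _
      show 0 ≤ ite _ _ _
      split_ifs
      · exact hw0 _
      · exact le_rfl
    · unfold fa
      rw [if_neg h3]
      exact ham _
  · rw [if_neg h1]
    split_ifs
    · exact ham _
    · exact le_rfl

theorem cor_le (X : ℕ) (E : Finset ℕ) (f : ℕ → ℝ) (hf0 : ∀ x, 0 ≤ f x)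
    (hf : ∀ x, x ∉ Ioc X (3 * X) → f x = 0) (n : ℕ) :
    0 ≤ cor E f n ∧ cor E f n ≤ ∑ x ∈ Ioc X (3 * X), f x := by
  constructor
  · unfold cor
    apply Finset.sum_nonneg
    intro s _
    split_ifs
    · exact hf0 _
    · exact le_rfl
  · unfold cor
    rw [← Finset.sum_filter]
    have hinj : Set.InjOn (fun s => s - n) (E.filter (fun s => n ≤ s) : Finset ℕ) := by
      intro a ha b hb hab
      rw [Finset.mem_coe, Finset.mem_filter] at ha hb
      have hab' : a - n = b - n := hab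
      omega
    rw [← Finset.sum_image (f := f) hinj]
    rw [← Finset.sum_filter_add_sum_filter_not _ (fun y => y ∈ Ioc X (3 * X))]
    have h1 : ∑ y ∈ ((E.filter (fun s => n ≤ s)).image (fun s => s - n)).filter
        (fun y => y ∉ Ioc X (3 * X)), f y = 0 := by
      apply Finset.sum_eq_zero
      intro y hy
      rw [Finset.mem_filter] at hy
      exact hf y hy.2
    rw [h1, add_zero]
    apply Finset.sum_le_sum_of_subset_of_nonneg
    · intro y hy
      rw [Finset.mem_filter] at hy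
      exact hy.2
    · intro y _ _
      exact hf0 y

end Pool.Agent.Lib.SG
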