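import Pool.Agent.Lib.SG.Stp7
import Pool.Agent.Lib.SG.Dif7
import Pool.Agent.Lib.SG.Swp7
import Pool.Agent.Lib.SG.Phi

/-!
# SG-Goodp: Maynard-Tao for B on the part where the structured correlation is small along the tuple

PROOF. `stp7` for `h'`, B, `ρ = mu Ω z X`, `ψ x = cor E f (x + H₀) / (2X)` (`cor_le`: `≤ ∑ f ≤ ∑ mu ≤ 2X`), `δ = 1/log X`. hcw by `dif7` (t = H₀, D = w - M mu, δ = 1/(log X)^(4c), `S = 10 X (log X)^c` as
`(w - M mu)² ≤ 2 w² + 8 mu²`, M ≤ 1 + κ ≤ 2): `(∑ D cor)⁴ ≤ 80 K₄ X⁸/(log X)^(7c) ≤ (2 X²/log X)⁴` since `5 K₄ ≤ 5 log X ≤ (log X)³` (log X ≥ 3, c ≥ 1). hcv the same (v i ≤ w). Multiply by 2X: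
`∑ mu cor E f (x + H₀) ≤ k ∑_i ∑ fa B h' w i x cor E f (x + H₀) + 2 (k + m) X²/log X + 2 k κ X²`; `swp7`: each inner sum is `≤ ∑ f x cor E (am B h' w) (x + h i) ≤ ∑ f x cor E W (x + h i)` (hWW, cor is monotone),
`cor E W (x + h i) = ph X E W (x + h i)` (`ph_cor`, x + h i ≤ 3X), `≤ ∑ f ph0 + ε₂ X² ≤ τ X ∑ f + ε₂ X²`.
-/

set_option autoImplicit false

open Finset

namespace Pool.Agent.Lib.SG

open Pool.Agent.Lib.MT

private theorem goodp_num (A X L K c : ℝ) (n : ℕ) (hn : 1 ≤ n) (hX : 0 < X) (hL : 3 ≤ L) (hK : K ≤ L)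
    (hA : A ^ 4 ≤ 8 * (1 / L ^ (4 * n)) ^ 2 * X ^ 3 * (10 * X * L ^ n) * (K * X ^ 4)) :
    |A| ≤ 2 * X ^ 2 / L := by
  have hL0 : 0 < L := by linarith
  have h1 : 8 * (1 / L ^ (4 * n)) ^ 2 * X ^ 3 * (10 * X * L ^ n) * (K * X ^ 4) ≤ (2 * X ^ 2 / L) ^ 4 := by
    have h2 : 8 * (1 / L ^ (4 * n)) ^ 2 * X ^ 3 * (10 * X * L ^ n) * (K * X ^ 4) =
        80 * K * X ^ 8 / L ^ (7 * n) := by
      rw [show L ^ (4 * n) = L ^ (3 * n) * L ^ n by rw [← pow_add]; congr 1; ring,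
        show L ^ (7 * n) = L ^ (3 * n) * L ^ (3 * n) * L ^ n by
          rw [← pow_add, ← pow_add]; congr 1; ring]
      field_simp
      ring
    have h3 : (2 * X ^ 2 / L) ^ 4 = 16 * X ^ 8 / L ^ 4 := by
      rw [div_pow]
      ring
    rw [h2, h3, div_le_div_iff₀ (by positivity) (by positivity)]
    have h4 : L ^ 7 ≤ L ^ (7 * n) := pow_le_pow_right₀ (by linarith) (by omega)
    have h5 : 5 * K * L ^ 4 ≤ L ^ 7 := by
      have h6 : 5 ≤ L ^ 2 := by nlinarith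
      have h7 : K * L ^ 4 ≤ L * L ^ 4 := mul_le_mul_of_nonneg_right hK (by positivity)
      have h8 : 5 * L ^ 5 ≤ L ^ 2 * L ^ 5 := mul_le_mul_of_nonneg_right h6 (by positivity)
      calc 5 * K * L ^ 4 = 5 * (K * L ^ 4) := by ring
        _ ≤ 5 * (L * L ^ 4) := by linarith
        _ = 5 * L ^ 5 := by ring
        _ ≤ L ^ 2 * L ^ 5 := h8
        _ = L ^ 7 := by ring
    calc 80 * K * X ^ 8 * L ^ 4 = 16 * X ^ 8 * (5 * K * L ^ 4) := by ring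
      _ ≤ 16 * X ^ 8 * L ^ (7 * n) := by
          refine mul_le_mul_of_nonneg_left (h5.trans h4) (by positivity)
  have h2 : |A| ^ 4 ≤ (2 * X ^ 2 / L) ^ 4 := by
    rw [← abs_pow, abs_of_nonneg (by positivity)]
    exact hA.trans h1
  exact (pow_le_pow_iff_left₀ (abs_nonneg _) (by positivity) (by norm_num)).mp h2

private theorem goodp_cor (E : Finset ℕ) (u W : ℕ → ℝ) (h : ∀ n, u n ≤ W n) (x : ℕ) :
    cor E u x ≤ cor E W x := by
  unfold cor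
  refine sum_le_sum fun s _ => ?_
  split_ifs
  · exact h _
  · exact le_rfl

theorem goodp {m k H z X c : ℕ} (hm : 1 ≤ m) (hk : 1 ≤ k) (hc : 1 ≤ c) (hX : 1 ≤ X) (hHX : H ≤ X)
    (hlog : 3 ≤ Real.log X) (Ω : ℕ → Finset ℕ) (h h' : Fin k → ℕ) (H₀ : ℕ) (hhh : ∀ i, h' i + h i = H₀)
    (hH₀ : H₀ ≤ X) (hinj : Function.Injective h') (hh' : ∀ i, 1 ≤ h' i ∧ h' i ≤ H) (w : ℕ → ℝ)
    (v : Fin k → ℕ → ℝ) (M : ℝ) (M' : Fin k → ℝ) (κ : ℝ) (hκ : 0 ≤ κ) (hmκ : m * κ ≤ 1)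
    (hW : Wg m k H z X c Ω h' w v M M' κ) (B : Set ℕ) (hB : Hit m H (2 * X) B)
    (hρ : ∀ x, 0 ≤ mu Ω z X x) (hρ1 : ∑ x ∈ Ioc X (2 * X), mu Ω z X x ≤ 2 * X)
    (hρ2 : ∑ x ∈ Ioc X (2 * X), (mu Ω z X x) ^ 2 ≤ X * Real.log X)
    (f : ℕ → ℝ) (hf : ∀ x, 0 ≤ f x ∧ f x ≤ mu Ω z X x) (K₄ : ℝ)
    (hf4 : ∑ ξ ∈ range (8 * X), ‖FT f X ((ξ : ℝ) / (8 * X))‖ ^ 4 ≤ K₄ * X ^ 4) (hK₄ : K₄ ≤ Real.log X)
    (E : Finset ℕ) (hE : E ⊆ range (8 * X)) (W : ℕ → ℝ) (hWW : ∀ n, am B h' w n ≤ W n)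
    (hWs : ∀ n, n ∉ Ioc X (3 * X) → W n = 0) (T : Finset ℕ) (τ ε₂ : ℝ)
    (hcl : ∀ t : ℕ, |∑ x ∈ Ioc X (2 * X), f x * (ph X E W (x + t) - ph0 X E W T (x + t))| ≤ ε₂ * X ^ 2)
    (hτ : ∀ x, f x ≠ 0 → ∀ i, ph0 X E W T (x + h i) ≤ τ * X) :
    ∑ x ∈ Ioc X (2 * X), mu Ω z X x * cor E f (x + H₀) ≤
      k ^ 2 * τ * X * ∑ x ∈ Ioc X (2 * X), f x + k ^ 2 * ε₂ * X ^ 2 +
        2 * (k + m) * X ^ 2 / Real.log X + 2 * k * κ * X ^ 2 := by
  classical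
  have hXR : (1 : ℝ) ≤ X := by exact_mod_cast hX
  have hX0 : (0 : ℝ) < X := by linarith
  have hmR : (1 : ℝ) ≤ m := by exact_mod_cast hm
  have hk0 : (0 : ℝ) ≤ k := Nat.cast_nonneg k
  set L := Real.log X with hL
  have hL0 : 0 < L := by linarith
  have hL1 : 1 ≤ L := by linarith
  have hκ1 : κ ≤ 1 := by nlinarith
  set ρ : ℕ → ℝ := mu Ω z X with hρd
  have hρs : ∀ x, x ∉ Ioc X (2 * X) → ρ x = 0 := by
    intro x hx
    rw [hρd]
    unfold mu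
    rw [if_neg]
    exact fun hx' => hx (mem_filter.1 hx').1
  have hws : ∀ x, x ∉ Ioc X (2 * X) → w x = 0 := by
    intro x hx
    exact hW.ws x fun hx' => hx (mem_filter.1 hx').1
  have hfs : ∀ x, x ∉ Ioc X (2 * X) → f x = 0 := by
    intro x hx
    have h1 := (hf x).2
    rw [hρs x hx] at h1
    exact le_antisymm h1 (hf x).1
  have hfs3 : ∀ x, x ∉ Ioc X (3 * X) → f x = 0 := by
    intro x hx
    apply hfs
    rw [mem_Ioc] at hx ⊢
    omega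
  -- the test function
  have hcor : ∀ n, 0 ≤ cor E f n ∧ cor E f n ≤ 2 * X := by
    intro n
    obtain ⟨h1, h2⟩ := cor_le X E f (fun x => (hf x).1) hfs3 n
    refine ⟨h1, h2.trans ?_⟩
    have h3 : ∑ x ∈ Ioc X (3 * X), f x = ∑ x ∈ Ioc X (2 * X), f x := by
      symm
      refine sum_subset ?_ fun x _ hx => hfs x hx
      intro x hx
      rw [mem_Ioc] at hx ⊢
      omega
    rw [h3]
    exact (sum_le_sum fun x _ => (hf x).2).trans hρ1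
  -- differences
  have hdif : ∀ (g : ℕ → ℝ) (N : ℝ), 0 ≤ N → N ≤ 2 → (∀ x, 0 ≤ g x) →
      (∀ x, x ∉ Ioc X (2 * X) → g x = 0) →
      (∀ α : ℝ, ‖ES g X α - N * ES ρ X α‖ ≤ X / L ^ (4 * c)) →
      ∑ x ∈ Ioc X (2 * X), (g x) ^ 2 ≤ X * L ^ c →
      |∑ x ∈ Ioc X (2 * X), (g x - N * ρ x) * cor E f (x + H₀)| ≤ 2 * X ^ 2 / L := by
    intro g N hN hN2 hg hgs hES hg2
    have hS : ∑ x ∈ Ioc X (2 * X), (g x - N * ρ x) ^ 2 ≤ 10 * X * L ^ c := by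
      have h1 : ∀ x ∈ Ioc X (2 * X), (g x - N * ρ x) ^ 2 ≤ 2 * (g x) ^ 2 + 8 * (ρ x) ^ 2 := by
        intro x _
        have h2 : N ^ 2 ≤ 4 := by nlinarith
        have h3 : N ^ 2 * (ρ x) ^ 2 ≤ 4 * (ρ x) ^ 2 := mul_le_mul_of_nonneg_right h2 (sq_nonneg _)
        nlinarith [sq_nonneg (g x + N * ρ x)]
      have h4 : L ≤ L ^ c := by
        calc L = L ^ 1 := (pow_one L).symm
          _ ≤ L ^ c := pow_le_pow_right₀ hL1 hc
      have h5 : (X : ℝ) * L ≤ X * L ^ c := mul_le_mul_of_nonneg_left h4 hX0.le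
      calc _ ≤ ∑ x ∈ Ioc X (2 * X), (2 * (g x) ^ 2 + 8 * (ρ x) ^ 2) := sum_le_sum h1
        _ = 2 * ∑ x ∈ Ioc X (2 * X), (g x) ^ 2 + 8 * ∑ x ∈ Ioc X (2 * X), (ρ x) ^ 2 := by
            rw [sum_add_distrib, ← mul_sum, ← mul_sum]
        _ ≤ _ := by linarith
    have hE2 : ∀ α : ℝ, ‖ES (fun x => g x - N * ρ x) X α‖ ≤ (1 / L ^ (4 * c)) * X := by
      intro α
      have h1 : ES (fun x => g x - N * ρ x) X α = ES g X α - N * ES ρ X α := by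
        unfold ES
        rw [mul_sum, ← sum_sub_distrib]
        refine sum_congr rfl fun x _ => ?_
        push_cast
        ring
      rw [h1]
      refine (hES α).trans (le_of_eq ?_)
      ring
    have h1 := dif7 X H₀ hX hH₀ E hE (fun x => g x - N * ρ x) f
      (fun x hx => by
        show g x - N * ρ x = 0
        rw [hgs x hx, hρs x hx]
        ring) hfs (1 / L ^ (4 * c)) (10 * X * L ^ c) K₄ (by positivity) hE2 hS hf4
    exact goodp_num _ X L K₄ 0 c hc hX0 hlog hK₄ h1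
  have hcw := hdif w M hW.M0 (by linarith [hW.M1]) hW.w0 hws hW.clw hW.l2
  have hcv : ∀ i, |∑ x ∈ Ioc X (2 * X), (v i x - M' i * ρ x) * cor E f (x + H₀)| ≤ 2 * X ^ 2 / L := by
    intro i
    refine hdif (v i) (M' i) (hW.M'0 i) (by linarith [hW.M'1 i]) (hW.v0 i) (fun x hx => ?_) (hW.clv i) ?_
    · have h1 := hW.vw i x
      rw [hws x hx] at h1
      exact le_antisymm h1 (hW.v0 i x)
    · refine le_trans (sum_le_sum fun x _ => ?_) hW.l2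
      exact pow_le_pow_left₀ (hW.v0 i x) (hW.vw i x) 2
  have hresc : ∀ g : ℕ → ℝ, ∑ x ∈ Ioc X (2 * X), g x * (cor E f (x + H₀) / (2 * X)) =
      (∑ x ∈ Ioc X (2 * X), g x * cor E f (x + H₀)) / (2 * X) := by
    intro g
    rw [sum_div]
    exact sum_congr rfl fun x _ => by rw [mul_div_assoc]
  have h2X : (0 : ℝ) < 2 * X := by linarith
  have hbd : ∀ y : ℝ, |y| ≤ 2 * X ^ 2 / L → |y / (2 * X)| ≤ (1 / L) * X := by
    intro y hy
    rw [abs_div, abs_of_pos h2X, div_le_iff₀ h2X]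
    refine hy.trans (le_of_eq ?_)
    field_simp
  have hst := stp7 hm hk Ω h' hinj hh' w v M M' κ hκ hmκ hW B hB ρ
    (fun x => cor E f (x + H₀) / (2 * X)) hρ
    (fun x => ⟨div_nonneg (hcor _).1 h2X.le, by
      show cor E f (x + H₀) / (2 * X) ≤ 1
      rw [div_le_one h2X]
      exact (hcor _).2⟩) (1 / L) (by positivity)
    (by
      rw [hresc]
      exact hbd _ hcw)
    (fun i => by
      rw [hresc]
      exact hbd _ (hcv i))
  rw [hresc] at hst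
  have hsum : ∑ i, ∑ x ∈ Ioc X (2 * X), fa B h' w i x * (cor E f (x + H₀) / (2 * X)) =
      (∑ i, ∑ x ∈ Ioc X (2 * X), fa B h' w i x * cor E f (x + H₀)) / (2 * X) := by
    rw [sum_div]
    exact sum_congr rfl fun i _ => hresc _
  rw [hsum, div_le_iff₀ h2X] at hst
  -- the good part
  have hin : ∀ i, ∑ x ∈ Ioc X (2 * X), fa B h' w i x * cor E f (x + H₀) ≤
      τ * X * ∑ x ∈ Ioc X (2 * X), f x + ε₂ * X ^ 2 := by
    intro i
    refine (swp7 X H₀ E B h h' hhh w f hW.w0 (fun x => (hf x).1) hws hfs i).trans ?_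
    have hhi : h i ≤ X := by
      have := hhh i
      omega
    have h1 : ∑ x ∈ Ioc X (2 * X), f x * cor E (am B h' w) (x + h i) ≤
        ∑ x ∈ Ioc X (2 * X), f x * ph X E W (x + h i) := by
      refine sum_le_sum fun x hx => ?_
      rw [mem_Ioc] at hx
      rw [ph_cor X hX E hE W hWs (x + h i) (by omega)]
      exact mul_le_mul_of_nonneg_left (goodp_cor E _ _ hWW _) (hf x).1
    have h2 := (abs_le.1 (hcl (h i))).2
    have h3 : ∑ x ∈ Ioc X (2 * X), f x * (ph X E W (x + h i) - ph0 X E W T (x + h i)) =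
        ∑ x ∈ Ioc X (2 * X), f x * ph X E W (x + h i) -
          ∑ x ∈ Ioc X (2 * X), f x * ph0 X E W T (x + h i) := by
      rw [← sum_sub_distrib]
      exact sum_congr rfl fun x _ => by ring
    rw [h3] at h2
    have h4 : ∑ x ∈ Ioc X (2 * X), f x * ph0 X E W T (x + h i) ≤
        τ * X * ∑ x ∈ Ioc X (2 * X), f x := by
      rw [mul_sum]
      refine sum_le_sum fun x _ => ?_
      by_cases hx : f x = 0
      · rw [hx]
        simp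
      · rw [mul_comm (τ * X)]
        exact mul_le_mul_of_nonneg_left (hτ x hx i) (hf x).1
    linarith
  have hin2 : ∑ i, ∑ x ∈ Ioc X (2 * X), fa B h' w i x * cor E f (x + H₀) ≤
      k * (τ * X * ∑ x ∈ Ioc X (2 * X), f x + ε₂ * X ^ 2) := by
    refine (sum_le_sum fun i _ => hin i).trans (le_of_eq ?_)
    rw [sum_const, card_univ, Fintype.card_fin, nsmul_eq_mul]
  have e1 : ((k : ℝ) * ((∑ i, ∑ x ∈ Ioc X (2 * X), fa B h' w i x * cor E f (x + H₀)) / (2 * X)) +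
      (k + m) * (1 / L) * X + k * κ * X) * (2 * X) =
      k * (∑ i, ∑ x ∈ Ioc X (2 * X), fa B h' w i x * cor E f (x + H₀)) +
        2 * (k + m) * X ^ 2 / L + 2 * k * κ * X ^ 2 := by
    field_simp
  rw [e1] at hst
  have e2 : (k : ℝ) * (∑ i, ∑ x ∈ Ioc X (2 * X), fa B h' w i x * cor E f (x + H₀)) ≤
      k * (k * (τ * X * ∑ x ∈ Ioc X (2 * X), f x + ε₂ * X ^ 2)) :=
    mul_le_mul_of_nonneg_left hin2 hk0
  have e3 : (k : ℝ) * (k * (τ * X * ∑ x ∈ Ioc X (2 * X), f x + ε₂ * X ^ 2)) =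
      k ^ 2 * τ * X * ∑ x ∈ Ioc X (2 * X), f x + k ^ 2 * ε₂ * X ^ 2 := by ring
  linarith

end Pool.Agent.Lib.SG
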