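import Pool.Agent.Lib.SG.Pars

/-!
# SG-Large: the number of large Fourier coefficients of a function with a pseudorandom majorant

PROOF. Let S be the set, θ_ξ unimodular with `θ_ξ FT f X (ξ/8X) = ‖..‖`. `δ X |S| ≤ ∑_{ξ ∈ S} ‖FT f‖ = ∑_{n < 4X} f n G(n)`, `G(n) = ∑_{ξ ∈ S} θ_ξ e(ξ n/8X)`,
`≤ ∑ ν n ‖G n‖`. Cauchy-Schwarz: `(δ X |S|)² ≤ (∑ ν) ∑ ν ‖G‖² ≤ C X ∑_{n<4X} ν n ‖G n‖²`. Opening `‖G n‖²`: `∑ ν ‖G‖² = ∑_{ξ, ξ' ∈ S} θ_ξ conj θ_ξ' FT ν X ((ξ - ξ')/8X)`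
(real number); replace ν by ν' (`Rst.model` for δ): the error is at most `|S|² δ² X/(4C)`, and `∑ ν' ‖G‖² ≤ (C/δ) ∑_{n < 8X} ‖G n‖² = (C/δ) 8X |S|` (Parseval in the
other variable: `pars_gen`-like, or `orth` with N = 8X, ξ - ξ'). So `δ² X² |S|² ≤ 8 C² X² |S|/δ + δ² X² |S|²/4`, `|S| ≤ (32/3) C²/δ³`.
Note `orth`/`pars_gen` are stated for sums over ξ; by the symmetry ξ n = n ξ the same statement serves for sums over n.
-/

set_option autoImplicit false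

open Finset

namespace Pool.Agent.Lib.SG

private theorem large_conj (x : ℝ) : (starRingEnd ℂ) (GT.e x) = GT.e (-x) := by
  unfold GT.e
  rw [← Complex.exp_conj]
  congr 1
  have h : (2 * Real.pi * x * Complex.I : ℂ) = ((2 * Real.pi * x : ℝ) : ℂ) * Complex.I := by
    push_cast
    ring
  rw [h, map_mul, Complex.conj_ofReal, Complex.conj_I]
  push_cast
  ring

/-- the polynomial with coefficients `θ` on `S` -/
noncomputable def largeG (S : Finset ℕ) (θ : ℕ → ℂ) (X n : ℕ) : ℂ :=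
  ∑ ξ ∈ S, θ ξ * GT.e ((ξ : ℝ) / (8 * X) * n)

private theorem large_open (S : Finset ℕ) (θ : ℕ → ℂ) (X : ℕ) (μ : ℕ → ℝ) :
    ((∑ n ∈ range (4 * X), μ n * ‖largeG S θ X n‖ ^ 2 : ℝ) : ℂ) =
      ∑ ξ ∈ S, ∑ ξ' ∈ S, θ ξ * (starRingEnd ℂ) (θ ξ') * FT μ X (((ξ : ℝ) - ξ') / (8 * X)) := by
  have h1 : ∀ n ∈ range (4 * X), ((μ n * ‖largeG S θ X n‖ ^ 2 : ℝ) : ℂ) =
      ∑ ξ ∈ S, ∑ ξ' ∈ S, θ ξ * (starRingEnd ℂ) (θ ξ') *
        ((μ n : ℂ) * GT.e (((ξ : ℝ) - ξ') / (8 * X) * n)) := by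
    intro n _
    have h2 : ((‖largeG S θ X n‖ ^ 2 : ℝ) : ℂ) = largeG S θ X n * (starRingEnd ℂ) (largeG S θ X n) := by
      rw [Complex.mul_conj']
      push_cast
      rfl
    rw [Complex.ofReal_mul, h2]
    unfold largeG
    rw [map_sum, sum_mul_sum, mul_sum]
    refine sum_congr rfl fun ξ _ => ?_
    rw [mul_sum]
    refine sum_congr rfl fun ξ' _ => ?_
    rw [map_mul, large_conj]
    have h3 : GT.e (((ξ : ℝ) - ξ') / (8 * X) * n) =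
        GT.e ((ξ : ℝ) / (8 * X) * n) * GT.e (-((ξ' : ℝ) / (8 * X) * n)) := by
      rw [← GT.e_add]
      congr 1
      ring
    rw [h3]
    ring
  rw [Complex.ofReal_sum, sum_congr rfl h1, sum_comm]
  refine sum_congr rfl fun ξ _ => ?_
  rw [sum_comm]
  refine sum_congr rfl fun ξ' _ => ?_
  unfold FT
  rw [mul_sum]

theorem large (C δ₀ : ℝ) (hC : 1 ≤ C) (hδ₀ : 0 < δ₀) (X : ℕ) (hX : 1 ≤ X) (ν f : ℕ → ℝ)
    (hν : Rst C δ₀ X ν) (hf : ∀ n, 0 ≤ f n ∧ f n ≤ ν n) (δ : ℝ) (hδ : δ₀ ≤ δ) (hδ1 : δ ≤ 1) :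
    (((range (8 * X)).filter (fun ξ : ℕ => δ * X ≤ ‖FT f X ((ξ : ℝ) / (8 * X))‖)).card : ℝ) ≤
      11 * C ^ 2 / δ ^ 3 := by
  classical
  have hδ0 : 0 < δ := hδ₀.trans_le hδ
  have hX0 : (0 : ℝ) < X := by exact_mod_cast hX
  have hC0 : (0 : ℝ) < C := by linarith
  obtain ⟨ν', h'1, h'2⟩ := hν.model δ hδ hδ1
  obtain ⟨S, hS⟩ : ∃ S, S = (range (8 * X)).filter (fun ξ : ℕ => δ * X ≤ ‖FT f X ((ξ : ℝ) / (8 * X))‖) :=
    ⟨_, rfl⟩
  rw [← hS]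
  obtain ⟨z, hz⟩ : ∃ z : ℕ → ℂ, z = fun ξ : ℕ => FT f X ((ξ : ℝ) / (8 * X)) := ⟨_, rfl⟩
  obtain ⟨θ, hθ⟩ : ∃ θ : ℕ → ℂ, θ = fun ξ : ℕ => (starRingEnd ℂ) (z ξ) / ‖z ξ‖ := ⟨_, rfl⟩
  have hθ1 : ∀ ξ, ‖θ ξ‖ ≤ 1 := by
    intro ξ
    rw [hθ]
    show ‖(starRingEnd ℂ) (z ξ) / (‖z ξ‖ : ℂ)‖ ≤ 1
    rw [norm_div, RCLike.norm_conj, Complex.norm_real, norm_norm]
    exact div_self_le_one _
  have hθz : ∀ ξ, θ ξ * z ξ = ((‖z ξ‖ : ℝ) : ℂ) := by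
    intro ξ
    rw [hθ]
    show (starRingEnd ℂ) (z ξ) / (‖z ξ‖ : ℂ) * z ξ = _
    by_cases h0 : z ξ = 0
    · rw [h0]
      simp
    · have h1 : ((‖z ξ‖ : ℝ) : ℂ) ≠ 0 := by
        rw [Complex.ofReal_ne_zero]
        exact norm_ne_zero_iff.2 h0
      rw [div_mul_eq_mul_div, div_eq_iff h1, mul_comm, Complex.mul_conj']
      ring
  -- step A
  have hA : δ * X * S.card ≤ ∑ n ∈ range (4 * X), ν n * ‖largeG S θ X n‖ := by
    have h1 : δ * X * S.card ≤ ∑ ξ ∈ S, ‖z ξ‖ := by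
      have h2 : ∑ ξ ∈ S, δ * X ≤ ∑ ξ ∈ S, ‖z ξ‖ := by
        refine sum_le_sum fun ξ hξ => ?_
        rw [hS, mem_filter] at hξ
        rw [hz]
        exact hξ.2
      rw [sum_const, nsmul_eq_mul] at h2
      linarith
    refine h1.trans ?_
    have h2 : ((∑ ξ ∈ S, ‖z ξ‖ : ℝ) : ℂ) = ∑ n ∈ range (4 * X), (f n : ℂ) * largeG S θ X n := by
      rw [Complex.ofReal_sum]
      have h3 : ∀ ξ ∈ S, ((‖z ξ‖ : ℝ) : ℂ) =
          ∑ n ∈ range (4 * X), (f n : ℂ) * (θ ξ * GT.e ((ξ : ℝ) / (8 * X) * n)) := by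
        intro ξ _
        rw [← hθz, hz]
        show θ ξ * FT f X ((ξ : ℝ) / (8 * X)) = _
        unfold FT
        rw [mul_sum]
        exact sum_congr rfl fun n _ => by ring
      rw [sum_congr rfl h3, sum_comm]
      refine sum_congr rfl fun n _ => ?_
      unfold largeG
      rw [mul_sum]
    have h4 : (∑ ξ ∈ S, ‖z ξ‖ : ℝ) = ‖∑ n ∈ range (4 * X), (f n : ℂ) * largeG S θ X n‖ := by
      rw [← h2, Complex.norm_real, Real.norm_of_nonneg (sum_nonneg fun ξ _ => norm_nonneg _)]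
    rw [h4]
    refine (norm_sum_le _ _).trans (sum_le_sum fun n _ => ?_)
    rw [norm_mul, Complex.norm_real, Real.norm_of_nonneg (hf n).1]
    exact mul_le_mul_of_nonneg_right (hf n).2 (norm_nonneg _)
  -- step B
  have hB : (∑ n ∈ range (4 * X), ν n * ‖largeG S θ X n‖) ^ 2 ≤
      C * X * ∑ n ∈ range (4 * X), ν n * ‖largeG S θ X n‖ ^ 2 := by
    have h1 := Finset.sum_sq_le_sum_mul_sum_of_sq_le_mul (range (4 * X))
      (r := fun n => ν n * ‖largeG S θ X n‖) (f := fun n => ν n)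
      (g := fun n => ν n * ‖largeG S θ X n‖ ^ 2) (fun n _ => hν.nonneg n)
      (fun n _ => mul_nonneg (hν.nonneg n) (sq_nonneg _)) (fun n _ => le_of_eq (by ring))
    exact h1.trans (mul_le_mul_of_nonneg_right hν.mass
      (sum_nonneg fun n _ => mul_nonneg (hν.nonneg n) (sq_nonneg _)))
  -- step D
  have hD : ∑ n ∈ range (4 * X), ν n * ‖largeG S θ X n‖ ^ 2 ≤
      ∑ n ∈ range (4 * X), ν' n * ‖largeG S θ X n‖ ^ 2 + (S.card : ℝ) ^ 2 * (δ ^ 2 / (4 * C) * X) := by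
    have h1 : ((∑ n ∈ range (4 * X), ν n * ‖largeG S θ X n‖ ^ 2 -
        ∑ n ∈ range (4 * X), ν' n * ‖largeG S θ X n‖ ^ 2 : ℝ) : ℂ) =
        ∑ ξ ∈ S, ∑ ξ' ∈ S, θ ξ * (starRingEnd ℂ) (θ ξ') *
          (FT ν X (((ξ : ℝ) - ξ') / (8 * X)) - FT ν' X (((ξ : ℝ) - ξ') / (8 * X))) := by
      rw [Complex.ofReal_sub, large_open, large_open, ← sum_sub_distrib]
      refine sum_congr rfl fun ξ _ => ?_
      rw [← sum_sub_distrib]
      exact sum_congr rfl fun ξ' _ => by ring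
    have h2 : ‖((∑ n ∈ range (4 * X), ν n * ‖largeG S θ X n‖ ^ 2 -
        ∑ n ∈ range (4 * X), ν' n * ‖largeG S θ X n‖ ^ 2 : ℝ) : ℂ)‖ ≤
        (S.card : ℝ) ^ 2 * (δ ^ 2 / (4 * C) * X) := by
      rw [h1]
      refine (norm_sum_le _ _).trans ?_
      have h3 : ∀ ξ ∈ S, ‖∑ ξ' ∈ S, θ ξ * (starRingEnd ℂ) (θ ξ') *
          (FT ν X (((ξ : ℝ) - ξ') / (8 * X)) - FT ν' X (((ξ : ℝ) - ξ') / (8 * X)))‖ ≤
          (S.card : ℝ) * (δ ^ 2 / (4 * C) * X) := by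
        intro ξ _
        refine (norm_sum_le _ _).trans ?_
        have h4 : ∀ ξ' ∈ S, ‖θ ξ * (starRingEnd ℂ) (θ ξ') *
            (FT ν X (((ξ : ℝ) - ξ') / (8 * X)) - FT ν' X (((ξ : ℝ) - ξ') / (8 * X)))‖ ≤
            δ ^ 2 / (4 * C) * X := by
          intro ξ' _
          rw [norm_mul, norm_mul, RCLike.norm_conj]
          have h5 : ‖θ ξ‖ * ‖θ ξ'‖ ≤ 1 := mul_le_one₀ (hθ1 ξ) (norm_nonneg _) (hθ1 ξ')
          calc ‖θ ξ‖ * ‖θ ξ'‖ * ‖FT ν X (((ξ : ℝ) - ξ') / (8 * X)) - FT ν' X (((ξ : ℝ) - ξ') / (8 * X))‖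
              ≤ 1 * ‖FT ν X (((ξ : ℝ) - ξ') / (8 * X)) - FT ν' X (((ξ : ℝ) - ξ') / (8 * X))‖ :=
                mul_le_mul_of_nonneg_right h5 (norm_nonneg _)
            _ ≤ _ := by
                rw [one_mul]
                exact h'2 _
        refine (sum_le_sum h4).trans (le_of_eq ?_)
        rw [sum_const, nsmul_eq_mul]
      refine (sum_le_sum h3).trans (le_of_eq ?_)
      rw [sum_const, nsmul_eq_mul]
      ring
    rw [Complex.norm_real] at h2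
    have h3 := (abs_le.1 h2).2
    linarith
  -- step E
  have hE : ∑ n ∈ range (4 * X), ν' n * ‖largeG S θ X n‖ ^ 2 ≤ C / δ * (8 * X * S.card) := by
    have h1 : ∑ n ∈ range (4 * X), ν' n * ‖largeG S θ X n‖ ^ 2 ≤
        ∑ n ∈ range (4 * X), C / δ * ‖largeG S θ X n‖ ^ 2 :=
      sum_le_sum fun n _ => mul_le_mul_of_nonneg_right (h'1 n).2 (sq_nonneg _)
    have h2 : ∑ n ∈ range (4 * X), C / δ * ‖largeG S θ X n‖ ^ 2 ≤
        ∑ n ∈ range (8 * X), C / δ * ‖largeG S θ X n‖ ^ 2 := by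
      refine sum_le_sum_of_subset_of_nonneg (range_subset_range.2 (by omega)) fun n _ _ => ?_
      have : 0 < C / δ := div_pos hC0 hδ0
      positivity
    refine h1.trans (h2.trans ?_)
    rw [← mul_sum]
    refine mul_le_mul_of_nonneg_left ?_ (div_pos hC0 hδ0).le
    have h3 := pars_gen (8 * X) (by omega) (fun ξ => if ξ ∈ S then θ ξ else 0)
    have hSs : S ⊆ range (8 * X) := by
      rw [hS]
      exact filter_subset _ _
    have h4 : ∀ n ∈ range (8 * X), ‖∑ ξ ∈ range (8 * X), (if ξ ∈ S then θ ξ else 0) *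
        GT.e (((n : ℕ) : ℝ) / ((8 * X : ℕ) : ℝ) * ξ)‖ ^ 2 = ‖largeG S θ X n‖ ^ 2 := by
      intro n _
      congr 2
      unfold largeG
      rw [← sum_subset hSs (f := fun ξ => (if ξ ∈ S then θ ξ else 0) *
        GT.e (((n : ℕ) : ℝ) / ((8 * X : ℕ) : ℝ) * ξ)) (fun ξ _ hξ => by
          rw [if_neg hξ, zero_mul])]
      refine sum_congr rfl fun ξ hξ => ?_
      rw [if_pos hξ]
      congr 2
      push_cast
      ring
    rw [sum_congr rfl h4] at h3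
    rw [h3]
    have h5 : ∑ ξ ∈ range (8 * X), ‖(if ξ ∈ S then θ ξ else 0 : ℂ)‖ ^ 2 ≤ S.card := by
      rw [← sum_subset hSs (f := fun ξ => ‖(if ξ ∈ S then θ ξ else 0 : ℂ)‖ ^ 2) (fun ξ _ hξ => by
          rw [if_neg hξ]; simp)]
      have h6 : ∀ ξ ∈ S, ‖(if ξ ∈ S then θ ξ else 0 : ℂ)‖ ^ 2 ≤ 1 := by
        intro ξ hξ
        rw [if_pos hξ]
        exact pow_le_one₀ (norm_nonneg _) (hθ1 ξ)
      refine (sum_le_sum h6).trans (le_of_eq ?_)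
      rw [sum_const, nsmul_eq_mul, mul_one]
    have h7 : ((8 * X : ℕ) : ℝ) = 8 * X := by push_cast; ring
    rw [h7]
    exact mul_le_mul_of_nonneg_left h5 (by positivity)
  -- step F
  obtain ⟨s, hs⟩ : ∃ s : ℝ, s = S.card := ⟨_, rfl⟩
  rw [← hs] at hA hD hE ⊢
  have hs0 : 0 ≤ s := by
    rw [hs]
    exact Nat.cast_nonneg _
  have hF : (δ * X * s) ^ 2 ≤ C * X * (C / δ * (8 * X * s) + s ^ 2 * (δ ^ 2 / (4 * C) * X)) := by
    have h1 : (δ * X * s) ^ 2 ≤ (∑ n ∈ range (4 * X), ν n * ‖largeG S θ X n‖) ^ 2 :=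
      pow_le_pow_left₀ (by positivity) hA 2
    refine h1.trans (hB.trans (mul_le_mul_of_nonneg_left (hD.trans ?_) (by positivity)))
    linarith
  have e1 : C * X * (C / δ * (8 * X * s) + s ^ 2 * (δ ^ 2 / (4 * C) * X)) =
      X ^ 2 * s * (8 * C ^ 2 / δ + s * δ ^ 2 / 4) := by
    field_simp
  rw [e1] at hF
  rcases hs0.eq_or_lt with h0 | h0
  · rw [← h0]
    positivity
  · have h1 : δ ^ 2 * s ≤ 8 * C ^ 2 / δ + s * δ ^ 2 / 4 := by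
      have h2 : X ^ 2 * s * (δ ^ 2 * s) ≤ X ^ 2 * s * (8 * C ^ 2 / δ + s * δ ^ 2 / 4) := by
        refine le_trans (le_of_eq ?_) hF
        ring
      exact le_of_mul_le_mul_left h2 (by positivity)
    rw [le_div_iff₀ (by positivity)]
    have h3 : δ * (δ ^ 2 * s) ≤ δ * (8 * C ^ 2 / δ + s * δ ^ 2 / 4) :=
      mul_le_mul_of_nonneg_left h1 hδ0.le
    have h4 : δ * (8 * C ^ 2 / δ + s * δ ^ 2 / 4) = 8 * C ^ 2 + s * δ ^ 3 / 4 := by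
      field_simp
    rw [h4] at h3
    nlinarith [sq_nonneg C]

end Pool.Agent.Lib.SG
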