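import Pool.Agent.Lib.SG.Mj1
import Pool.Agent.Lib.SG.Num

/-!
# SG-Major: the difference on the major arcs

PROOF. J = ⌈(log X)^(G + A + 5)⌉, `y_j = X + a + j X / J` (natural division), j = 0..J, β = α - b/r. On the block (y_j, y_(j+1)], for n in it
`e(α n) = e(b n/r) e(β n)`, `|e(β n) - e(β y_j)| ≤ 2π |β| (X/J + 1) ≤ 14 (log X)^(-A-5)`. Replacing costs, for every q, at most
`14 (log X)^(-A-5) ∑_{n ≡ c q} (th n + rz z n) ≤ 14 (log X)^(-A-5) (X/q + 1)(log (3X) + C log z)`, summed over q ≤ Q at most `(1/2) X (log X)^(-A)`.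
What remains: `∑_q ∑_j ‖∑_{n ∈ block, n ≡ c q} (th - rz) e(b n/r)‖ ≤ ∑_j ∑_{s < r} ∑_q |∑_{n ∈ block, n ≡ c q [MOD q], n ≡ s [MOD r]} (th - rz)|`
(`e(b n/r)` depends only on n mod r), each of the J r inner sums over q is at most `X/(log X)^(A')` by `mj1 A' G`, A' = 2G + 2A + 8, and
J r ≤ 2 (log X)^(2G + A + 5).
-/

set_option autoImplicit false

open Finset

namespace Pool.Agent.Lib.SG

open Pool.Agent.Lib.MT

private theorem major_e (x y : ℝ) : ‖GT.e x - GT.e y‖ ≤ 2 * Real.pi * |x - y| := by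
  have h1 : GT.e x - GT.e y = GT.e y * (GT.e (x - y) - 1) := by
    rw [mul_sub, mul_one, ← GT.e_add]
    congr 2
    ring
  rw [h1, norm_mul, GT.norm_e, one_mul]
  unfold GT.e
  rw [show (2 * Real.pi * ((x - y : ℝ) : ℂ) * Complex.I : ℂ) =
    Complex.I * ((2 * Real.pi * (x - y) : ℝ) : ℂ) by push_cast; ring]
  refine (Real.norm_exp_I_mul_ofReal_sub_one_le).trans ?_
  rw [Real.norm_eq_abs, abs_mul, abs_of_pos (by positivity : 0 < 2 * Real.pi)]

private theorem major_blocks {M : Type} [AddCommMonoid M] (y : ℕ → ℕ) (hy : Monotone y) (g : ℕ → M)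
    (J : ℕ) : ∑ n ∈ Ioc (y 0) (y J), g n = ∑ j ∈ range J, ∑ n ∈ Ioc (y j) (y (j + 1)), g n := by
  induction J with
  | zero => simp
  | succ J ih =>
    rw [sum_range_succ, ← ih, Finset.sum_Ioc_consecutive _ (hy (Nat.zero_le _)) (hy (Nat.le_succ _))]

private theorem major_cls (T : Finset ℕ) (f : ℕ → ℝ) (b : ℤ) (r : ℕ) (hr : 1 ≤ r) :
    ‖∑ n ∈ T, (f n : ℂ) * GT.e ((b : ℝ) / r * n)‖ ≤
      ∑ s ∈ range r, |∑ n ∈ T.filter (fun n => n ≡ s [MOD r]), f n| := by
  have hr0 : (r : ℝ) ≠ 0 := by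
    have : 0 < r := hr
    positivity
  have h1 : ∑ n ∈ T, (f n : ℂ) * GT.e ((b : ℝ) / r * n) =
      ∑ s ∈ range r, GT.e ((b : ℝ) / r * s) * ((∑ n ∈ T.filter (fun n => n ≡ s [MOD r]), f n : ℝ) : ℂ) := by
    rw [← sum_fiberwise_of_maps_to (t := range r) (g := fun n => n % r)
      (fun n _ => mem_range.2 (Nat.mod_lt n hr))]
    refine sum_congr rfl fun s hs => ?_
    rw [mem_range] at hs
    rw [Complex.ofReal_sum, mul_sum]
    refine sum_congr ?_ fun n hn => ?_
    · refine filter_congr fun n _ => ?_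
      unfold Nat.ModEq
      rw [Nat.mod_eq_of_lt hs]
    · rw [mem_filter] at hn
      obtain ⟨t, h2⟩ : ∃ t, n = s + r * t := ⟨n / r, by
        have h3 := Nat.mod_add_div n r
        have h4 : n % r = s := by
          have h5 := hn.2
          unfold Nat.ModEq at h5
          rwa [Nat.mod_eq_of_lt hs] at h5
        omega⟩
      have h3 : (b : ℝ) / r * n = (b : ℝ) / r * s + ((b * (t : ℤ) : ℤ) : ℝ) := by
        have h4 : (n : ℝ) = s + r * (t : ℝ) := by exact_mod_cast h2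
        rw [h4]
        push_cast
        field_simp
      rw [h3, GT.e_add_int, mul_comm]
  rw [h1]
  refine (norm_sum_le _ _).trans (sum_le_sum fun s _ => ?_)
  rw [norm_mul, GT.norm_e, one_mul, Complex.norm_real, Real.norm_eq_abs]

private theorem major_block (T : Finset ℕ) (f : ℕ → ℝ) (b : ℤ) (r : ℕ) (hr : 1 ≤ r) (α y₀ M w : ℝ)
    (hM : 0 ≤ M) (hf : ∀ n ∈ T, |f n| ≤ M) (hw : ∀ n ∈ T, |(n : ℝ) - y₀| ≤ w) :
    ‖∑ n ∈ T, (f n : ℂ) * GT.e (α * n)‖ ≤
      ∑ s ∈ range r, |∑ n ∈ T.filter (fun n => n ≡ s [MOD r]), f n| +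
        T.card * (M * (2 * Real.pi * (|α - b / r| * w))) := by
  have h1 : ∑ n ∈ T, (f n : ℂ) * GT.e (α * n) =
      GT.e ((α - b / r) * y₀) * ∑ n ∈ T, (f n : ℂ) * GT.e ((b : ℝ) / r * n) +
      ∑ n ∈ T, (f n : ℂ) * (GT.e ((b : ℝ) / r * n) *
        (GT.e ((α - b / r) * n) - GT.e ((α - b / r) * y₀))) := by
    rw [mul_sum, ← sum_add_distrib]
    refine sum_congr rfl fun n _ => ?_
    have h2 : α * n = (b : ℝ) / r * n + (α - b / r) * n := by ring
    rw [h2, GT.e_add]
    ring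
  rw [h1]
  refine (norm_add_le _ _).trans (add_le_add ?_ ?_)
  · rw [norm_mul, GT.norm_e, one_mul]
    exact major_cls T f b r hr
  · refine (norm_sum_le _ _).trans ?_
    rw [← nsmul_eq_mul]
    refine sum_le_card_nsmul _ _ _ fun n hn => ?_
    rw [norm_mul, norm_mul, GT.norm_e, one_mul, Complex.norm_real, Real.norm_eq_abs]
    refine mul_le_mul (hf n hn) ?_ (norm_nonneg _) hM
    refine (major_e _ _).trans ?_
    rw [← mul_sub, abs_mul]
    refine mul_le_mul_of_nonneg_left ?_ (by positivity)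
    exact mul_le_mul_of_nonneg_left (hw n hn) (abs_nonneg _)

private theorem major_card (u v q c : ℕ) (huv : u ≤ v) (hq : 1 ≤ q) :
    (((Ioc u v).filter (fun n => n ≡ c [MOD q])).card : ℝ) ≤ ((v : ℝ) - u) / q + 1 := by
  have h1 := Nat.Ioc_filter_modEq_card u v (r := q) hq c
  have hq0 : (0 : ℚ) < q := by exact_mod_cast hq
  have h2 : (((Ioc u v).filter (fun n => n ≡ c [MOD q])).card : ℚ) ≤ ((v : ℚ) - u) / q + 1 := by
    have h3 : (((Ioc u v).filter (fun n => n ≡ c [MOD q])).card : ℚ) =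
        ((max (⌊((v : ℚ) - c) / q⌋ - ⌊((u : ℚ) - c) / q⌋) 0 : ℤ) : ℚ) := by
      rw [← h1]
      push_cast
      rfl
    rw [h3]
    push_cast
    refine max_le ?_ ?_
    · have h4 := Int.floor_le (((v : ℚ) - c) / q)
      have h5 := Int.lt_floor_add_one (((u : ℚ) - c) / q)
      have h6 : ((v : ℚ) - c) / q - ((u : ℚ) - c) / q = ((v : ℚ) - u) / q := by ring
      linarith
    · have h4 : (u : ℚ) ≤ v := by exact_mod_cast huv
      have h5 : 0 ≤ ((v : ℚ) - u) / q := div_nonneg (by linarith) hq0.le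
      linarith
  have h4 : ((((Ioc u v).filter (fun n => n ≡ c [MOD q])).card : ℚ) : ℝ) ≤
      ((((v : ℚ) - u) / q + 1 : ℚ) : ℝ) := by exact_mod_cast h2
  push_cast at h4
  exact h4

private theorem major_harm (Q : ℕ) : ∑ q ∈ Icc 1 Q, 1 / (q : ℝ) ≤ 1 + Real.log Q := by
  have h1 := harmonic_le_one_add_log Q
  rw [harmonic_eq_sum_Icc] at h1
  push_cast at h1
  simpa only [one_div] using h1

theorem major (A G : ℕ) : ∃ B₀ : ℕ, ∀ B : ℕ, B₀ ≤ B → ∃ X₀ : ℕ, ∀ X z a : ℕ, X₀ ≤ X →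
    (Real.log X) ^ B₀ ≤ z → (z : ℝ) ≤ (Real.log X) ^ B → a ≤ X → ∀ (α : ℝ) (b : ℤ) (r : ℕ),
    1 ≤ r → (r : ℝ) ≤ (Real.log X) ^ G → |α - b / r| ≤ (Real.log X) ^ G / X →
    ∀ Q : ℕ, (Q : ℝ) ≤ (X : ℝ) ^ (1 / 50 : ℝ) → ∀ c : ℕ → ℕ, (∀ q ∈ Icc 1 Q, (c q).Coprime q) →
    ∑ q ∈ Icc 1 Q, ‖∑ n ∈ (Ioc (X + a) (2 * X + a)).filter (fun n => n ≡ c q [MOD q]),
      ((BV.th n - rz z n : ℝ) : ℂ) * GT.e (α * n)‖ ≤ X / (Real.log X) ^ A := by
  obtain ⟨C3, hC3, hkap⟩ := num_kap
  obtain ⟨B1, hB1⟩ := mj1 (2 * G + 2 * A + 8) G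
  refine ⟨B1 + 1, fun B hB => ?_⟩
  obtain ⟨X1, h1⟩ := hB1 B (by omega)
  obtain ⟨X2, h2⟩ := Pool.Agent.Lib.MP_092512_nt.P3.B.ev_pow 1 1 one_pos (B + (G + A + 5))
  obtain ⟨X3, h3⟩ : ∃ X3 : ℕ, ∀ X : ℕ, X3 ≤ X → max 4 (100 * (4 + C3)) ≤ Real.log X :=
    Filter.eventually_atTop.1
      ((Real.tendsto_log_atTop.comp tendsto_natCast_atTop_atTop).eventually_ge_atTop _)
  refine ⟨X1 + X2 + X3 + 3, fun X z a hX hzl hz ha α b r hr1 hr hα Q hQ c hc => ?_⟩
  have hX1 : (1 : ℝ) ≤ X := by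
    have : 1 ≤ X := by omega
    exact_mod_cast this
  have hX0 : (0 : ℝ) < X := by linarith
  obtain ⟨l, hl⟩ : ∃ l : ℝ, l = Real.log X := ⟨_, rfl⟩
  have hl4 : 4 ≤ l := by rw [hl]; exact le_trans (le_max_left _ _) (h3 X (by omega))
  have hlC3 : 100 * (4 + C3) ≤ l := by rw [hl]; exact le_trans (le_max_right _ _) (h3 X (by omega))
  have hl0 : 0 < l := by linarith
  have hl1 : 1 ≤ l := by linarith
  have hlX : ∀ n ≤ B + (G + A + 5), l ^ n ≤ X := by
    intro n hn
    have h4 := h2 X (by omega)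
    rw [← hl, Real.rpow_one, one_mul] at h4
    calc l ^ n ≤ (1 + l) ^ n := pow_le_pow_left₀ hl0.le (by linarith) n
      _ ≤ (1 + l) ^ (B + (G + A + 5)) := pow_le_pow_right₀ (by linarith) hn
      _ ≤ X := h4
  have hzX : (z : ℝ) ≤ X := by
    refine hz.trans ?_
    rw [← hl]
    exact hlX B (by omega)
  have hz2r : (2 : ℝ) ≤ z := by
    rw [← hl] at hzl
    calc (2 : ℝ) ≤ l ^ 1 := by rw [pow_one]; linarith
      _ ≤ l ^ (B1 + 1) := pow_le_pow_right₀ hl1 (by omega)
      _ ≤ z := hzl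
  have hz2 : 2 ≤ z := by exact_mod_cast hz2r
  have hzlB : (Real.log X) ^ B1 ≤ z := by
    refine le_trans ?_ hzl
    rw [← hl]
    exact pow_le_pow_right₀ hl1 (by omega)
  have hκ0 := (hkap z hz2).1
  have hκ1 : (kap z)⁻¹ ≤ C3 * l := by
    refine (hkap z hz2).2.trans (mul_le_mul_of_nonneg_left ?_ (by linarith))
    rw [hl]
    exact Real.log_le_log (by linarith) hzX
  obtain ⟨f, hf⟩ : ∃ f : ℕ → ℝ, f = fun n => BV.th n - rz z n := ⟨_, rfl⟩
  -- bound for f
  have hfb : ∀ n ∈ Ioc (X + a) (2 * X + a), |f n| ≤ (4 + C3) * l := by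
    intro n hn
    rw [mem_Ioc] at hn
    have h5 : |BV.th n| ≤ 4 * l := by
      unfold BV.th
      split_ifs
      · rw [abs_of_nonneg (Real.log_natCast_nonneg _)]
        have hn0 : (0 : ℝ) < n := by
          have : 0 < n := by omega
          exact_mod_cast this
        have h6 : (n : ℝ) ≤ 3 * X := by
          have : n ≤ 3 * X := by omega
          exact_mod_cast this
        have h7 : Real.log n ≤ Real.log 3 + l := by
          rw [hl, ← Real.log_mul (by norm_num) hX0.ne']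
          exact Real.log_le_log hn0 h6
        have h9 : Real.log 3 ≤ 2 := by
          have := Real.log_le_sub_one_of_pos (show (0 : ℝ) < 3 by norm_num)
          linarith
        linarith
      · rw [abs_zero]
        linarith
    have h6 : |rz z n| ≤ C3 * l := by
      unfold rz
      split_ifs
      · rw [abs_of_nonneg (by linarith)]
        exact hκ1
      · rw [abs_zero]
        positivity
    rw [hf]
    refine (abs_sub _ _).trans ?_
    rw [add_mul]
    exact add_le_add h5 h6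
  -- the blocks
  obtain ⟨J, hJ⟩ : ∃ J : ℕ, J = ⌈l ^ (G + A + 5)⌉₊ := ⟨_, rfl⟩
  have hlp : 1 ≤ l ^ (G + A + 5) := one_le_pow₀ hl1
  have hJ1 : l ^ (G + A + 5) ≤ J := by rw [hJ]; exact Nat.le_ceil _
  have hJ2 : (J : ℝ) ≤ 2 * l ^ (G + A + 5) := by
    rw [hJ]
    have := Nat.ceil_lt_add_one (show 0 ≤ l ^ (G + A + 5) by positivity)
    linarith
  have hJ0r : (0 : ℝ) < J := by linarith
  have hJ0 : 0 < J := by exact_mod_cast hJ0r
  obtain ⟨y, hy⟩ : ∃ y : ℕ → ℕ, y = fun j => X + a + j * X / J := ⟨_, rfl⟩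
  have hym : Monotone y := by
    rw [hy]
    intro i j hij
    exact Nat.add_le_add_left (Nat.div_le_div_right (Nat.mul_le_mul_right X hij)) _
  have hy0 : y 0 = X + a := by
    rw [hy]
    simp
  have hyJ : y J = 2 * X + a := by
    rw [hy]
    simp only []
    rw [Nat.mul_div_cancel_left _ hJ0]
    omega
  have hyl : ∀ j, ∀ n ∈ Ioc (y j) (y (j + 1)), |(n : ℝ) - (y j : ℝ)| ≤ X / J + 1 := by
    intro j n hn
    rw [mem_Ioc] at hn
    have h5 : (n : ℝ) ≤ y (j + 1) := by exact_mod_cast hn.2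
    have h6 : (y j : ℝ) ≤ n := by exact_mod_cast hn.1.le
    have h7 : (y (j + 1) : ℝ) ≤ X + a + ((j + 1 : ℕ) : ℝ) * X / J := by
      rw [hy]
      push_cast
      have h8 := Nat.cast_div_le (α := ℝ) (m := (j + 1) * X) (n := J)
      push_cast at h8
      linarith
    have h8 : (X : ℝ) + a + (j : ℝ) * X / J - 1 ≤ y j := by
      rw [hy]
      push_cast
      have h9 : j * X < J * (j * X / J + 1) := Nat.lt_mul_div_succ _ hJ0
      have h10 : (j : ℝ) * X < J * (((j * X / J : ℕ) : ℝ) + 1) := by exact_mod_cast h9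
      have h11 : (j : ℝ) * X / J < ((j * X / J : ℕ) : ℝ) + 1 := by
        rw [div_lt_iff₀ hJ0r]
        linarith
      linarith
    have h9 : ((j + 1 : ℕ) : ℝ) * X / J = (j : ℝ) * X / J + X / J := by
      push_cast
      ring
    rw [abs_of_nonneg (by linarith)]
    linarith
  -- one q
  have hq1 : ∀ q, ‖∑ n ∈ (Ioc (X + a) (2 * X + a)).filter (fun n => n ≡ c q [MOD q]),
      (f n : ℂ) * GT.e (α * n)‖ ≤
      ∑ j ∈ range J, ∑ s ∈ range r,
        |∑ n ∈ (Ioc (y j) (y (j + 1))).filter (fun n => n ≡ c q [MOD q] ∧ n ≡ s [MOD r]), f n| +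
      (((Ioc (X + a) (2 * X + a)).filter (fun n => n ≡ c q [MOD q])).card : ℝ) *
        ((4 + C3) * l * (2 * Real.pi * (|α - b / r| * (X / J + 1)))) := by
    intro q
    have e1 : ∑ n ∈ (Ioc (X + a) (2 * X + a)).filter (fun n => n ≡ c q [MOD q]),
        (f n : ℂ) * GT.e (α * n) = ∑ j ∈ range J,
        ∑ n ∈ (Ioc (y j) (y (j + 1))).filter (fun n => n ≡ c q [MOD q]), (f n : ℂ) * GT.e (α * n) := by
      rw [sum_filter, ← hy0, ← hyJ, major_blocks y hym]
      exact sum_congr rfl fun j _ => (sum_filter _ _).symm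
    have e2 : (((Ioc (X + a) (2 * X + a)).filter (fun n => n ≡ c q [MOD q])).card : ℝ) =
        ∑ j ∈ range J, (((Ioc (y j) (y (j + 1))).filter (fun n => n ≡ c q [MOD q])).card : ℝ) := by
      simp only [card_filter, Nat.cast_sum]
      rw [← hy0, ← hyJ, major_blocks y hym]
    rw [e1, e2, sum_mul, ← sum_add_distrib]
    refine (norm_sum_le _ _).trans (sum_le_sum fun j hj => ?_)
    rw [mem_range] at hj
    have h5 := major_block ((Ioc (y j) (y (j + 1))).filter (fun n => n ≡ c q [MOD q])) f b r hr1 α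
      (y j) ((4 + C3) * l) (X / J + 1) (by positivity)
      (fun n hn => hfb n (by
        have h6 := mem_Ioc.1 (mem_filter.1 hn).1
        have h7 : y 0 ≤ y j := hym (Nat.zero_le _)
        have h8 : y (j + 1) ≤ y J := hym hj
        rw [mem_Ioc]
        omega))
      (fun n hn => hyl j n (mem_filter.1 hn).1)
    simp only [filter_filter] at h5
    exact h5
  -- sum over q
  have hgoal : ∑ q ∈ Icc 1 Q, ‖∑ n ∈ (Ioc (X + a) (2 * X + a)).filter (fun n => n ≡ c q [MOD q]),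
      ((BV.th n - rz z n : ℝ) : ℂ) * GT.e (α * n)‖ =
      ∑ q ∈ Icc 1 Q, ‖∑ n ∈ (Ioc (X + a) (2 * X + a)).filter (fun n => n ≡ c q [MOD q]),
      (f n : ℂ) * GT.e (α * n)‖ := by
    rw [hf]
  rw [hgoal]
  refine (sum_le_sum fun q _ => hq1 q).trans ?_
  rw [sum_add_distrib, ← sum_mul]
  -- first part
  have hQX : (Q : ℝ) ≤ X := by
    refine hQ.trans ?_
    calc (X : ℝ) ^ (1 / 50 : ℝ) ≤ (X : ℝ) ^ (1 : ℝ) :=
          Real.rpow_le_rpow_of_exponent_le hX1 (by norm_num)
      _ = X := Real.rpow_one _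
  have p1 : ∑ q ∈ Icc 1 Q, ∑ j ∈ range J, ∑ s ∈ range r,
        |∑ n ∈ (Ioc (y j) (y (j + 1))).filter (fun n => n ≡ c q [MOD q] ∧ n ≡ s [MOD r]), f n| ≤
      X / (2 * l ^ A) := by
    rw [sum_comm]
    have h5 : ∀ j ∈ range J, ∑ q ∈ Icc 1 Q, ∑ s ∈ range r,
        |∑ n ∈ (Ioc (y j) (y (j + 1))).filter (fun n => n ≡ c q [MOD q] ∧ n ≡ s [MOD r]), f n| ≤
        r * (X / l ^ (2 * G + 2 * A + 8)) := by
      intro j hj
      rw [mem_range] at hj
      rw [sum_comm]
      have h6 : ∀ s ∈ range r, ∑ q ∈ Icc 1 Q,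
          |∑ n ∈ (Ioc (y j) (y (j + 1))).filter (fun n => n ≡ c q [MOD q] ∧ n ≡ s [MOD r]), f n| ≤
          X / l ^ (2 * G + 2 * A + 8) := by
        intro s _
        have h7 : y 0 ≤ y j := hym (Nat.zero_le _)
        have h8 : y (j + 1) ≤ y J := hym hj
        have h9 := h1 X z (by omega) hzlB hz (y j) (y (j + 1)) (by omega) (hym (Nat.le_succ j))
          (by omega) r hr1 hr Q hQ c (fun _ => s) hc
        rw [← hl] at h9
        rw [hf]
        exact h9
      refine (sum_le_sum h6).trans (le_of_eq ?_)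
      rw [sum_const, card_range, nsmul_eq_mul]
    refine (sum_le_sum h5).trans ?_
    rw [sum_const, card_range, nsmul_eq_mul, le_div_iff₀ (by positivity)]
    rw [← hl] at hr
    have hr0 : (0 : ℝ) ≤ r := Nat.cast_nonneg r
    calc (J : ℝ) * (r * (X / l ^ (2 * G + 2 * A + 8))) * (2 * l ^ A)
        ≤ (2 * l ^ (G + A + 5)) * (l ^ G * (X / l ^ (2 * G + 2 * A + 8))) * (2 * l ^ A) := by
          gcongr
      _ = X * (4 * (l ^ (2 * G + 2 * A + 5) / l ^ (2 * G + 2 * A + 8))) := by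
          have e : l ^ (2 * G + 2 * A + 5) = l ^ (G + A + 5) * l ^ G * l ^ A := by
            rw [← pow_add, ← pow_add]
            congr 1
            ring
          rw [e]
          ring
      _ ≤ X * (l * (l ^ (2 * G + 2 * A + 5) / l ^ (2 * G + 2 * A + 8))) := by
          gcongr
      _ ≤ X * 1 := by
          refine mul_le_mul_of_nonneg_left ?_ hX0.le
          rw [mul_div_assoc', div_le_one (by positivity), ← pow_succ']
          exact pow_le_pow_right₀ hl1 (by omega)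
      _ = X := mul_one _
  -- second part
  have p2 : (∑ q ∈ Icc 1 Q, (((Ioc (X + a) (2 * X + a)).filter (fun n => n ≡ c q [MOD q])).card : ℝ)) *
        ((4 + C3) * l * (2 * Real.pi * (|α - b / r| * (X / J + 1)))) ≤ X / (2 * l ^ A) := by
    have h5 : ∑ q ∈ Icc 1 Q, (((Ioc (X + a) (2 * X + a)).filter (fun n => n ≡ c q [MOD q])).card : ℝ) ≤
        3 * X * l := by
      have h6 : ∀ q ∈ Icc 1 Q,
          (((Ioc (X + a) (2 * X + a)).filter (fun n => n ≡ c q [MOD q])).card : ℝ) ≤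
          X * (1 / (q : ℝ)) + 1 := by
        intro q hq
        rw [mem_Icc] at hq
        have h7 := major_card (X + a) (2 * X + a) q (c q) (by omega) hq.1
        push_cast at h7
        have h8 : (2 * (X : ℝ) + a - (X + a)) / q + 1 = X * (1 / (q : ℝ)) + 1 := by ring
        rw [h8] at h7
        exact h7
      refine (sum_le_sum h6).trans ?_
      rw [sum_add_distrib, ← mul_sum, sum_const, Nat.card_Icc, nsmul_eq_mul, mul_one]
      have h7 : ((Q + 1 - 1 : ℕ) : ℝ) ≤ X := by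
        rw [Nat.add_sub_cancel]
        exact hQX
      have h8 : ∑ q ∈ Icc 1 Q, 1 / (q : ℝ) ≤ 1 + l := by
        refine (major_harm Q).trans ?_
        rcases Nat.eq_zero_or_pos Q with h0 | h0
        · rw [h0, Nat.cast_zero, Real.log_zero]
          linarith
        · rw [hl]
          have : Real.log Q ≤ Real.log X := Real.log_le_log (by exact_mod_cast h0) hQX
          linarith
      have h9 : (X : ℝ) * ∑ q ∈ Icc 1 Q, 1 / (q : ℝ) ≤ X * (1 + l) :=
        mul_le_mul_of_nonneg_left h8 hX0.le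
      nlinarith
    have h6 : |α - b / r| * (X / J + 1) ≤ 2 / l ^ (A + 5) := by
      rw [← hl] at hα
      have h7 : (X : ℝ) / J ≤ X / l ^ (G + A + 5) := div_le_div_of_nonneg_left hX0.le (by positivity) hJ1
      have h8 : (1 : ℝ) ≤ X / l ^ (G + A + 5) := by
        rw [one_le_div (by positivity)]
        exact hlX _ (by omega)
      calc |α - b / r| * (X / J + 1) ≤ (l ^ G / X) * (X / l ^ (G + A + 5) + X / l ^ (G + A + 5)) := by
            refine mul_le_mul hα (add_le_add h7 h8) (by positivity) (by positivity)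
        _ = 2 / l ^ (A + 5) := by
            have e : l ^ (G + A + 5) = l ^ G * l ^ (A + 5) := by
              rw [← pow_add]
              congr 1
            rw [e]
            field_simp
            ring
    have hpi : Real.pi ≤ 4 := Real.pi_le_four
    have hpi0 : 0 ≤ Real.pi := Real.pi_pos.le
    have hc0 : 0 ≤ |α - b / r| * (X / J + 1) := by positivity
    rw [le_div_iff₀ (by positivity)]
    calc (∑ q ∈ Icc 1 Q, (((Ioc (X + a) (2 * X + a)).filter (fun n => n ≡ c q [MOD q])).card : ℝ)) *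
        ((4 + C3) * l * (2 * Real.pi * (|α - b / r| * (X / J + 1)))) * (2 * l ^ A)
        ≤ (3 * X * l) * ((4 + C3) * l * (2 * 4 * (2 / l ^ (A + 5)))) * (2 * l ^ A) := by
          gcongr
      _ = X * ((96 * (4 + C3)) * (l ^ (A + 2) / l ^ (A + 5))) := by
          rw [pow_add l A 2]
          ring
      _ ≤ X * (l * (l ^ (A + 2) / l ^ (A + 5))) := by
          have : 96 * (4 + C3) ≤ l := by linarith
          gcongr
      _ ≤ X * 1 := by
          refine mul_le_mul_of_nonneg_left ?_ hX0.le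
          rw [mul_div_assoc', div_le_one (by positivity), ← pow_succ']
          exact pow_le_pow_right₀ hl1 (by omega)
      _ = X := mul_one _
  have p3 : X / (2 * l ^ A) + X / (2 * l ^ A) = X / l ^ A := by
    field_simp
    ring
  rw [← hl, ← p3]
  exact add_le_add p1 p2

end Pool.Agent.Lib.SG
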