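import Pool.Agent.Lib.SG.Rzap
import Pool.Agent.Lib.MT.LayD
import Pool.Agent.Lib.MT.LayF
import Pool.Agent.Lib.SW.SWFinal

/-!
# SG-Mj1: primes minus rough numbers in a short-ish interval and a class modulo `lcm(q, r)`

PROOF. Fix q, m = lcm(q, r) ≤ Q (log X)^G ≤ X^(1/40). The conditions `n ≡ c q [MOD q]`, `n ≡ s q [MOD r]` are contradictory (then the sum is 0) or equivalent to
`n ≡ t [MOD m]`. If (t, m) ≠ 1: a common prime p does not divide q (t ≡ c q), so p ∣ r, p ≤ (log X)^G ≤ z (B₀ ≥ G): every such n is divisible by p,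
so th n = 0 (n > X ≥ p) and rz z n = 0. If (t, m) = 1:
`∑ th = (θ(y₂) - θ(y₁))/φ(m) + EE th y₂ m t - EE th y₁ m t` (the primes > X are coprime to m; the primes dividing m cancel between y₁ and y₂, cf. `layD_class`),
`|θ(y₂) - θ(y₁) - (y₂ - y₁)| ≤ C X/(log X)^(A+10)` (`SW.theta_ap` with q = 1, or `SW.pnt`), and by `rzap` (X^(1-c)/m)
`∑ rz = ((y₂ - y₁)/m) ∏_{p ∣ m, p ≤ z} (1 - 1/p)⁻¹ + O(X^(1-c)/m)`, while `1/φ(m) = (1/m) ∏_{p ∣ m} (1 - 1/p)⁻¹`: the difference of the main terms is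
`((y₂ - y₁)/φ(m)) (1 - ∏_{p ∣ m, p > z} (1 - 1/p)) ≤ (2X/φ(m)) ω(m)/z ≤ (2X/φ(m)) 2 log X/z`. (`1 - ∏ (1 - x_p) ≤ ∑ x_p`, ω(m) ≤ log m/log 2.)
Sum over q: `1/φ(m) ≤ 1/φ(q)`, `∑_{q ≤ Q} 1/φ(q) ≤ C (log X)²` (or crude: `q/φ(q) ≤ 1 + log q`...). BV: `|EE th y m t| ≤ E m` with E from `layF_bv` (a = y - X for y ≤ 2X, and
a = y - 2X for y > 2X; `Q ↦ Q r ≤ X^(9/20)`), and every m comes from at most r of the q (`lcm(q,r) = m` → q ∣ m and m/q ∣ r): the sum is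
`≤ (log X)^G · 2 X/(log X)^(A + G + 3)`. All together `≤ X/(log X)^A` if `B₀ ≥ G + A + 6` and X ≥ X₀.
-/

set_option autoImplicit false

open Finset

namespace Pool.Agent.Lib.SG

open Pool.Agent.Lib.MT

private theorem mj1_theta (k : ℕ) : ∃ C : ℝ, 0 < C ∧ ∀ n : ℕ, 2 ≤ n →
    |∑ i ∈ Icc 1 n, BV.th i - n| ≤ C * n / (Real.log n) ^ k := by
  obtain ⟨C, hC, h⟩ := SW.theta_ap k 1 one_pos
  refine ⟨C, hC, fun n hn => ?_⟩
  have h1 := h 1 1 le_rfl (Nat.coprime_one_right 1) n (by exact_mod_cast hn)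
  rw [Nat.floor_natCast] at h1
  have h2 : ∑ i ∈ Icc 1 n, BV.th i =
      ∑ i ∈ (Icc 1 n).filter (fun i => i.Prime ∧ i ≡ 1 [MOD 1]), Real.log i := by
    rw [sum_filter]
    refine sum_congr rfl fun i _ => ?_
    unfold BV.th
    by_cases hp : i.Prime
    · rw [if_pos hp, if_pos ⟨hp, Nat.modEq_one⟩]
    · rw [if_neg hp, if_neg (fun hh => hp hh.1)]
  rw [h2]
  simpa using h1

private theorem mj1_class (y₁ y₂ q c : ℕ) (hy : y₁ ≤ y₂) (hq1 : 1 ≤ q) (hq : q ≤ y₁) :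
    |∑ n ∈ (Ioc y₁ y₂).filter (fun n => n ≡ c [MOD q]), BV.th n -
        (1 / (q.totient : ℝ)) * ∑ n ∈ Ioc y₁ y₂, BV.th n| ≤
      |BV.EE BV.th y₂ q c| + |BV.EE BV.th y₁ q c| := by
  have h1 : ∑ n ∈ (Ioc y₁ y₂).filter (fun n => n ≡ c [MOD q]), BV.th n =
      ∑ n ∈ (Icc 1 y₂).filter (fun n => n ≡ c [MOD q]), BV.th n -
        ∑ n ∈ (Icc 1 y₁).filter (fun n => n ≡ c [MOD q]), BV.th n := by
    rw [sum_filter, sum_filter, sum_filter]
    exact layD_diff _ y₁ y₂ hy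
  have h2 : ∑ n ∈ Ioc y₁ y₂, BV.th n =
      ∑ n ∈ (Icc 1 y₂).filter (fun n => n.Coprime q), BV.th n -
        ∑ n ∈ (Icc 1 y₁).filter (fun n => n.Coprime q), BV.th n := by
    rw [sum_filter, sum_filter, ← layD_diff _ y₁ y₂ hy]
    refine sum_congr rfl fun n hn => ?_
    rw [mem_Ioc] at hn
    by_cases hp : n.Prime
    · rw [if_pos]
      refine (hp.coprime_iff_not_dvd).2 fun hd => ?_
      have := Nat.le_of_dvd hq1 hd
      omega
    · have h3 : BV.th n = 0 := by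
        unfold BV.th
        rw [if_neg hp]
      rw [h3, ite_self]
  have h3 : ∑ n ∈ (Ioc y₁ y₂).filter (fun n => n ≡ c [MOD q]), BV.th n -
        (1 / (q.totient : ℝ)) * ∑ n ∈ Ioc y₁ y₂, BV.th n =
      BV.EE BV.th y₂ q c - BV.EE BV.th y₁ q c := by
    rw [h1, h2]
    unfold BV.EE
    ring
  rw [h3]
  exact abs_sub _ _

private theorem mj1_bv (A : ℕ) : ∃ X₀ : ℕ, ∀ X : ℕ, X₀ ≤ X → ∀ y : ℕ, X ≤ y → y ≤ 3 * X →
    ∃ E : ℕ → ℝ, (∀ q, 0 ≤ E q) ∧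
      (∀ q c, 1 ≤ q → Nat.Coprime c q → |BV.EE BV.th y q c| ≤ E q) ∧
      ∀ Q : ℕ, (Q : ℝ) ≤ (X : ℝ) ^ (9 / 20 : ℝ) → ∑ q ∈ Icc 1 Q, E q ≤ X / (Real.log X) ^ A := by
  obtain ⟨X₀, h⟩ := layF_bv A 1
  refine ⟨X₀, fun X hX y hy1 hy2 => ?_⟩
  by_cases hy : y ≤ 2 * X
  · obtain ⟨E, h1, h2, h3⟩ := h X hX (y - X) (by omega)
    refine ⟨E, h1, fun q c hq hc => ?_, fun Q hQ => ?_⟩
    · have h4 := h2 q c hq hc
      rw [show X + (y - X) = y by omega] at h4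
      have h5 := abs_nonneg (BV.EE BV.th (2 * X + (y - X)) q c)
      linarith
    · have h4 := h3 Q hQ
      simpa using h4
  · obtain ⟨E, h1, h2, h3⟩ := h X hX (y - 2 * X) (by omega)
    refine ⟨E, h1, fun q c hq hc => ?_, fun Q hQ => ?_⟩
    · have h4 := h2 q c hq hc
      rw [show 2 * X + (y - 2 * X) = y by omega] at h4
      have h5 := abs_nonneg (BV.EE BV.th (X + (y - 2 * X)) q c)
      linarith
    · have h4 := h3 Q hQ
      simpa using h4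

private theorem mj1_lcm (F : ℕ → ℝ) (hF : ∀ m, 0 ≤ F m) (Q r : ℕ) (hr : 1 ≤ r) :
    ∑ q ∈ Icc 1 Q, F (q.lcm r) ≤ r * ∑ m ∈ Icc 1 (Q * r), F m := by
  classical
  have h1 : ∀ q ∈ Icc 1 Q, q.lcm r ∈ Icc 1 (Q * r) := by
    intro q hq
    rw [mem_Icc] at hq ⊢
    refine ⟨Nat.lcm_pos hq.1 hr, ?_⟩
    have h2 : q.lcm r ≤ q * r := Nat.le_of_dvd (Nat.mul_pos hq.1 hr) (Nat.lcm_dvd_mul q r)
    exact h2.trans (Nat.mul_le_mul_right _ hq.2)
  rw [← sum_fiberwise_of_maps_to h1, mul_sum]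
  refine sum_le_sum fun m hm => ?_
  have h2 : ∑ q ∈ (Icc 1 Q).filter (fun q => q.lcm r = m), F (q.lcm r) =
      ((Icc 1 Q).filter (fun q => q.lcm r = m)).card * F m := by
    rw [← nsmul_eq_mul, ← sum_const]
    refine sum_congr rfl fun q hq => ?_
    rw [(mem_filter.1 hq).2]
  rw [h2]
  refine mul_le_mul_of_nonneg_right ?_ (hF m)
  have hm1 : 1 ≤ m := (mem_Icc.1 hm).1
  have h3 : ((Icc 1 Q).filter (fun q => q.lcm r = m)).card ≤ (Icc 1 r).card := by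
    refine card_le_card_of_injOn (fun q => m / q) ?_ ?_
    · intro q hq
      rw [mem_coe, mem_filter, mem_Icc] at hq
      rw [mem_coe, mem_Icc]
      have hqm : q ∣ m := by
        rw [← hq.2]
        exact Nat.dvd_lcm_left q r
      have h4 : m ≤ q * r := by
        rw [← hq.2]
        exact Nat.le_of_dvd (Nat.mul_pos hq.1.1 hr) (Nat.lcm_dvd_mul q r)
      refine ⟨Nat.div_pos (Nat.le_of_dvd hm1 hqm) hq.1.1, ?_⟩
      exact Nat.div_le_of_le_mul h4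
    · intro q hq q' hq' hqq
      rw [mem_coe, mem_filter, mem_Icc] at hq hq'
      have hqm : q ∣ m := by
        rw [← hq.2]
        exact Nat.dvd_lcm_left q r
      have hqm' : q' ∣ m := by
        rw [← hq'.2]
        exact Nat.dvd_lcm_left q' r
      have h5 : m / q = m / q' := hqq
      have h6 : m / (m / q) = q := Nat.div_div_self hqm (by omega)
      have h7 : m / (m / q') = q' := Nat.div_div_self hqm' (by omega)
      rw [← h6, ← h7, h5]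
  rw [Nat.card_Icc, Nat.add_sub_cancel] at h3
  exact_mod_cast h3

private theorem mj1_one_sub (S : Finset ℕ) (f : ℕ → ℝ) (h0 : ∀ p ∈ S, 0 ≤ f p) (h1 : ∀ p ∈ S, f p ≤ 1) :
    0 ≤ ∏ p ∈ S, (1 - f p) ∧ ∏ p ∈ S, (1 - f p) ≤ 1 ∧ 1 - ∑ p ∈ S, f p ≤ ∏ p ∈ S, (1 - f p) := by
  classical
  induction S using Finset.induction_on with
  | empty => simp
  | insert a S ha ih =>
    obtain ⟨i1, i2, i3⟩ := ih (fun p hp => h0 p (mem_insert_of_mem hp)) (fun p hp => h1 p (mem_insert_of_mem hp))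
    have j0 := h0 a (mem_insert_self a S)
    have j1 := h1 a (mem_insert_self a S)
    rw [prod_insert ha, sum_insert ha]
    refine ⟨mul_nonneg (by linarith) i1, ?_, ?_⟩
    · nlinarith
    · nlinarith

/-- the difference of the densities -/
private theorem mj1_dens (z m : ℕ) (hz : 1 ≤ z) (hm : 1 ≤ m) :
    |1 / (m.totient : ℝ) - 1 / m * ∏ p ∈ (PP 0 z).filter (fun p => p ∣ m), (1 - 1 / (p : ℝ))⁻¹| ≤
      1 / (m.totient : ℝ) * ((m.primeFactors.card : ℝ) / z) := by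
  classical
  have hm0 : (0 : ℝ) < m := by exact_mod_cast hm
  have hz0 : (0 : ℝ) < z := by exact_mod_cast hz
  have hφ : (0 : ℝ) < m.totient := BV.tot_pos hm
  have h1 : (m.totient : ℝ) = m * ∏ p ∈ m.primeFactors, (1 - 1 / (p : ℝ)) := by
    have h := congrArg (fun x : ℚ => (x : ℝ)) (Nat.totient_eq_mul_prod_factors m)
    simpa using h
  have h2 : (PP 0 z).filter (fun p => p ∣ m) = m.primeFactors.filter (fun p => p ≤ z) := by
    ext p
    unfold PP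
    simp only [mem_filter, mem_range, Nat.mem_primeFactors]
    constructor
    · rintro ⟨⟨h3, h4, _⟩, h6⟩
      exact ⟨⟨h4, h6, by omega⟩, by omega⟩
    · rintro ⟨⟨h3, h4, _⟩, h6⟩
      exact ⟨⟨by omega, h3, h3.pos⟩, h4⟩
  set P1 := ∏ p ∈ m.primeFactors.filter (fun p => p ≤ z), (1 - 1 / (p : ℝ)) with hP1
  set P2 := ∏ p ∈ m.primeFactors.filter (fun p => ¬ p ≤ z), (1 - 1 / (p : ℝ)) with hP2
  have h3 : P1 * P2 = ∏ p ∈ m.primeFactors, (1 - 1 / (p : ℝ)) := prod_filter_mul_prod_filter_not _ _ _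
  have hpos : ∀ p ∈ m.primeFactors, (0 : ℝ) < 1 - 1 / (p : ℝ) := by
    intro p hp
    have h4 : (1 : ℝ) < p := by exact_mod_cast (Nat.prime_of_mem_primeFactors hp).one_lt
    rw [sub_pos, div_lt_one (by linarith)]
    exact h4
  have hP1pos : 0 < P1 := prod_pos fun p hp => hpos p (mem_filter.1 hp).1
  obtain ⟨i1, i2, i3⟩ := mj1_one_sub (m.primeFactors.filter (fun p => ¬ p ≤ z)) (fun p => 1 / (p : ℝ))
    (fun p _ => by positivity) (fun p hp => by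
      have := hpos p (mem_filter.1 hp).1
      linarith)
  have h5 : ∑ p ∈ m.primeFactors.filter (fun p => ¬ p ≤ z), 1 / (p : ℝ) ≤ (m.primeFactors.card : ℝ) / z := by
    calc ∑ p ∈ m.primeFactors.filter (fun p => ¬ p ≤ z), 1 / (p : ℝ)
        ≤ ∑ p ∈ m.primeFactors.filter (fun p => ¬ p ≤ z), 1 / (z : ℝ) := by
          refine sum_le_sum fun p hp => ?_
          have h6 := (mem_filter.1 hp).2
          apply one_div_le_one_div_of_le hz0
          exact_mod_cast (not_le.1 h6).le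
      _ = ((m.primeFactors.filter (fun p => ¬ p ≤ z)).card : ℝ) * (1 / z) := by
          rw [sum_const, nsmul_eq_mul]
      _ ≤ (m.primeFactors.card : ℝ) * (1 / z) := by
          refine mul_le_mul_of_nonneg_right ?_ (by positivity)
          exact_mod_cast card_filter_le _ _
      _ = _ := by ring
  have h6 : ∏ p ∈ (PP 0 z).filter (fun p => p ∣ m), (1 - 1 / (p : ℝ))⁻¹ = P1⁻¹ := by
    rw [h2, prod_inv_distrib]
  have h7 : 1 / (m.totient : ℝ) - 1 / m * P1⁻¹ = 1 / (m.totient : ℝ) * (1 - P2) := by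
    have hP2' : P2 = m.totient / (m * P1) := by
      rw [h1, ← h3]
      field_simp
    rw [hP2']
    field_simp
  rw [h6, h7, abs_mul, abs_of_pos (by positivity : (0 : ℝ) < 1 / (m.totient : ℝ))]
  apply mul_le_mul_of_nonneg_left _ (by positivity)
  rw [abs_of_nonneg (by linarith)]
  linarith

/-- both congruences with one common solution -/
private theorem mj1_crt (q r a b n₀ : ℕ) (h1 : n₀ ≡ a [MOD q]) (h2 : n₀ ≡ b [MOD r]) (n : ℕ) :
    (n ≡ a [MOD q] ∧ n ≡ b [MOD r]) ↔ n ≡ n₀ [MOD q.lcm r] := by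
  constructor
  · rintro ⟨h3, h4⟩
    have h5 : n ≡ n₀ [MOD q] := h3.trans h1.symm
    have h6 : n ≡ n₀ [MOD r] := h4.trans h2.symm
    rw [Nat.modEq_iff_dvd] at h5 h6 ⊢
    rw [Int.natCast_dvd] at h5 h6 ⊢
    exact Nat.lcm_dvd h5 h6
  · intro h3
    exact ⟨(h3.of_dvd (Nat.dvd_lcm_left q r)).trans h1, (h3.of_dvd (Nat.dvd_lcm_right q r)).trans h2⟩

private theorem mj1_q (X z q r a b y₁ y₂ : ℕ) (hr : 1 ≤ r) (hrz : r ≤ z) (hzX : z ≤ X)
    (hy1 : X ≤ y₁) (hc : a.Coprime q) (W : ℝ) (hW : 0 ≤ W)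
    (h : ∀ t, Nat.Coprime t (q.lcm r) →
      |∑ n ∈ (Ioc y₁ y₂).filter (fun n => n ≡ t [MOD q.lcm r]), (BV.th n - rz z n)| ≤ W) :
    |∑ n ∈ (Ioc y₁ y₂).filter (fun n => n ≡ a [MOD q] ∧ n ≡ b [MOD r]), (BV.th n - rz z n)| ≤ W := by
  classical
  by_cases hex : ∃ n₀ : ℕ, n₀ ≡ a [MOD q] ∧ n₀ ≡ b [MOD r]
  · obtain ⟨n₀, e1, e2⟩ := hex
    have e3 : (Ioc y₁ y₂).filter (fun n => n ≡ a [MOD q] ∧ n ≡ b [MOD r]) =
        (Ioc y₁ y₂).filter (fun n => n ≡ n₀ [MOD q.lcm r]) :=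
      filter_congr fun n _ => mj1_crt q r a b n₀ e1 e2 n
    rw [e3]
    by_cases hcop : Nat.Coprime n₀ (q.lcm r)
    · exact h n₀ hcop
    · rw [Nat.Prime.not_coprime_iff_dvd] at hcop
      obtain ⟨p, hp, hp1, hp2⟩ := hcop
      have hpq : ¬ p ∣ q := by
        intro hpq
        have h3 : n₀ ≡ a [MOD p] := e1.of_dvd hpq
        have h4 : p ∣ a := by
          rw [← Nat.modEq_zero_iff_dvd] at hp1 ⊢
          exact h3.symm.trans hp1
        exact Nat.Prime.not_coprime_iff_dvd.2 ⟨p, hp, h4, hpq⟩ hc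
      have hpr : p ∣ r := by
        have h3 : p ∣ q * r := hp2.trans (Nat.lcm_dvd_mul q r)
        exact (hp.dvd_mul.1 h3).resolve_left hpq
      have hpz : p ≤ z := (Nat.le_of_dvd hr hpr).trans hrz
      rw [sum_eq_zero]
      · rw [abs_zero]
        exact hW
      · intro n hn
        rw [mem_filter, mem_Ioc] at hn
        have hpn : p ∣ n := by
          have h3 : n ≡ n₀ [MOD p] := hn.2.of_dvd hp2
          rw [← Nat.modEq_zero_iff_dvd] at hp1 ⊢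
          exact h3.trans hp1
        have h4 : BV.th n = 0 := by
          unfold BV.th
          rw [if_neg]
          intro hnp
          have h5 := (Nat.prime_dvd_prime_iff_eq hp hnp).1 hpn
          omega
        have h5 : rz z n = 0 := by
          unfold rz
          rw [if_neg]
          intro h6
          refine h6 p ?_ hpn
          unfold PP
          rw [mem_filter, mem_range]
          exact ⟨by omega, hp, hp.pos⟩
        rw [h4, h5, sub_zero]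
  · have e3 : (Ioc y₁ y₂).filter (fun n => n ≡ a [MOD q] ∧ n ≡ b [MOD r]) = ∅ :=
      filter_eq_empty_iff.2 fun n _ hn => hex ⟨n, hn⟩
    rw [e3, sum_empty, abs_zero]
    exact hW

private theorem mj1_comb {Sth Srz Θ Y iφ D e1 e2 e3 e4 : ℝ} (h0 : 0 ≤ iφ) (hY : 0 ≤ Y)
    (h1 : |Sth - iφ * Θ| ≤ e1) (h2 : |Θ - Y| ≤ e2) (h3 : |iφ - D| ≤ iφ * e3) (h4 : |Srz - Y * D| ≤ e4) :
    |Sth - Srz| ≤ e1 + iφ * e2 + Y * (iφ * e3) + e4 := by
  have h5 : Sth - Srz = (Sth - iφ * Θ) + iφ * (Θ - Y) + Y * (iφ - D) - (Srz - Y * D) := by ring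
  rw [h5]
  have h6 : |iφ * (Θ - Y)| ≤ iφ * e2 := by
    rw [abs_mul, abs_of_nonneg h0]
    exact mul_le_mul_of_nonneg_left h2 h0
  have h7 : |Y * (iφ - D)| ≤ Y * (iφ * e3) := by
    rw [abs_mul, abs_of_nonneg hY]
    exact mul_le_mul_of_nonneg_left h3 hY
  have h8 := abs_sub ((Sth - iφ * Θ) + iφ * (Θ - Y) + Y * (iφ - D)) (Srz - Y * D)
  have h9 := abs_add_le ((Sth - iφ * Θ) + iφ * (Θ - Y)) (Y * (iφ - D))
  have h10 := abs_add_le (Sth - iφ * Θ) (iφ * (Θ - Y))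
  linarith

theorem mj1 (A G : ℕ) : ∃ B₀ : ℕ, ∀ B : ℕ, B₀ ≤ B → ∃ X₀ : ℕ, ∀ X z : ℕ, X₀ ≤ X →
    (Real.log X) ^ B₀ ≤ z → (z : ℝ) ≤ (Real.log X) ^ B → ∀ y₁ y₂ : ℕ, X ≤ y₁ → y₁ ≤ y₂ → y₂ ≤ 3 * X →
    ∀ r : ℕ, 1 ≤ r → (r : ℝ) ≤ (Real.log X) ^ G → ∀ Q : ℕ, (Q : ℝ) ≤ (X : ℝ) ^ (1 / 50 : ℝ) →
    ∀ c s : ℕ → ℕ, (∀ q ∈ Icc 1 Q, (c q).Coprime q) →
    ∑ q ∈ Icc 1 Q, |∑ n ∈ (Ioc y₁ y₂).filter (fun n => n ≡ c q [MOD q] ∧ n ≡ s q [MOD r]),
      (BV.th n - rz z n)| ≤ X / (Real.log X) ^ A := by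
  classical
  obtain ⟨C, hC, hth⟩ := mj1_theta (A + 3)
  obtain ⟨X2, h2⟩ := mj1_bv (A + G + 1)
  refine ⟨G + A + 6, fun B hB => ?_⟩
  obtain ⟨c, hc0, X1, h1⟩ := rzap B
  obtain ⟨X3, h3⟩ := Pool.Agent.Lib.MP_092512_nt.P3.B.ev_pow 1 1 one_pos B
  obtain ⟨X4, h4⟩ := Pool.Agent.Lib.MP_092512_nt.P3.B.ev_pow 1 (1 / 200) (by norm_num) G
  obtain ⟨X5, h5⟩ := Pool.Agent.Lib.MP_092512_nt.P3.B.ev_pow 16 c hc0 (A + 2)
  obtain ⟨X6, h6⟩ : ∃ X6 : ℕ, ∀ X : ℕ, X6 ≤ X → max 8 (96 * C) ≤ Real.log X :=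
    Filter.eventually_atTop.1 ((Real.tendsto_log_atTop.comp tendsto_natCast_atTop_atTop).eventually_ge_atTop _)
  refine ⟨X1 + X2 + X3 + X4 + X5 + X6 + 3, fun X z hX hz1 hz2 y₁ y₂ hy1 hy12 hy2 r hr hrG Q hQ a b hab => ?_⟩
  have hX3 : 3 ≤ X := by omega
  have hX1 : (1 : ℝ) ≤ X := by
    have : 1 ≤ X := by omega
    exact_mod_cast this
  have hX0 : (0 : ℝ) < X := by linarith
  set L := Real.log X with hL
  have hL8 : 8 ≤ L := le_trans (le_max_left _ _) (h6 X (by omega))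
  have hLC : 96 * C ≤ L := le_trans (le_max_right _ _) (h6 X (by omega))
  have hL0 : 0 < L := by linarith
  have hL1 : 1 ≤ L := by linarith
  have hpw : ∀ t : ℝ, t ≤ 1 → (X : ℝ) ^ t ≤ X := fun t ht => by
    calc (X : ℝ) ^ t ≤ (X : ℝ) ^ (1 : ℝ) := Real.rpow_le_rpow_of_exponent_le hX1 ht
      _ = X := Real.rpow_one _
  -- z
  have hzX : z ≤ X := by
    have e1 := h3 X (by omega)
    rw [Real.rpow_one, one_mul, ← hL] at e1
    have e2 : L ^ B ≤ (1 + L) ^ B := pow_le_pow_left₀ hL0.le (by linarith) B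
    exact_mod_cast (hz2.trans e2).trans e1
  have hrz : r ≤ z := by
    have e1 : L ^ G ≤ L ^ (G + A + 6) := pow_le_pow_right₀ hL1 (by omega)
    exact_mod_cast (hrG.trans e1).trans hz1
  have hz0 : (0 : ℝ) < z := lt_of_lt_of_le (by positivity) hz1
  have hz2' : 2 ≤ z := by
    have e1 : L ≤ L ^ (G + A + 6) := le_self_pow₀ hL1 (by omega)
    have e2 : (2 : ℝ) ≤ z := by linarith
    exact_mod_cast e2
  -- the moduli
  have hm40 : ∀ q ∈ Icc 1 Q, ((q.lcm r : ℕ) : ℝ) ≤ (X : ℝ) ^ (1 / 40 : ℝ) := by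
    intro q hq
    rw [mem_Icc] at hq
    have e1 : q.lcm r ≤ q * r := Nat.le_of_dvd (Nat.mul_pos hq.1 hr) (Nat.lcm_dvd_mul q r)
    have e2 : q * r ≤ Q * r := Nat.mul_le_mul_right _ hq.2
    have e3 : ((q.lcm r : ℕ) : ℝ) ≤ Q * r := by exact_mod_cast e1.trans e2
    have e4 := h4 X (by omega)
    rw [one_mul, ← hL] at e4
    have e5 : (r : ℝ) ≤ (X : ℝ) ^ (1 / 200 : ℝ) :=
      (hrG.trans (pow_le_pow_left₀ hL0.le (by linarith) G)).trans e4
    calc ((q.lcm r : ℕ) : ℝ) ≤ Q * r := e3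
      _ ≤ (X : ℝ) ^ (1 / 50 : ℝ) * (X : ℝ) ^ (1 / 200 : ℝ) :=
          mul_le_mul hQ e5 (Nat.cast_nonneg _) (by positivity)
      _ = (X : ℝ) ^ (1 / 40 : ℝ) := by
          rw [← Real.rpow_add hX0]
          norm_num
  have hQr : ((Q * r : ℕ) : ℝ) ≤ (X : ℝ) ^ (9 / 20 : ℝ) := by
    have e4 := h4 X (by omega)
    rw [one_mul, ← hL] at e4
    have e5 : (r : ℝ) ≤ (X : ℝ) ^ (1 / 200 : ℝ) :=
      (hrG.trans (pow_le_pow_left₀ hL0.le (by linarith) G)).trans e4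
    push_cast
    calc (Q : ℝ) * r ≤ (X : ℝ) ^ (1 / 50 : ℝ) * (X : ℝ) ^ (1 / 200 : ℝ) :=
          mul_le_mul hQ e5 (Nat.cast_nonneg _) (by positivity)
      _ = (X : ℝ) ^ (1 / 40 : ℝ) := by
          rw [← Real.rpow_add hX0]
          norm_num
      _ ≤ _ := Real.rpow_le_rpow_of_exponent_le hX1 (by norm_num)
  -- the errors
  obtain ⟨E1, E1n, E1e, E1s⟩ := h2 X (by omega) y₁ hy1 (by omega)
  obtain ⟨E2, E2n, E2e, E2s⟩ := h2 X (by omega) y₂ (by omega) hy2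
  have hΘ1 : ∀ y : ℕ, X ≤ y → y ≤ 3 * X → |∑ i ∈ Icc 1 y, BV.th i - y| ≤ 3 * C * X / L ^ (A + 3) := by
    intro y e1 e2
    refine (hth y (by omega)).trans ?_
    have e3 : (y : ℝ) ≤ 3 * X := by exact_mod_cast e2
    have e4 : L ≤ Real.log y := Real.log_le_log hX0 (by exact_mod_cast e1)
    refine div_le_div₀ (by positivity) ?_ (by positivity) (pow_le_pow_left₀ hL0.le e4 _)
    nlinarith
  have hΘ : |∑ n ∈ Ioc y₁ y₂, BV.th n - ((y₂ - y₁ : ℕ) : ℝ)| ≤ 6 * C * X / L ^ (A + 3) := by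
    rw [layD_diff _ y₁ y₂ hy12, Nat.cast_sub hy12]
    have e1 := hΘ1 y₂ (by omega) hy2
    have e2 := hΘ1 y₁ hy1 (by omega)
    have e3 : ∑ i ∈ Icc 1 y₂, BV.th i - ∑ i ∈ Icc 1 y₁, BV.th i - ((y₂ : ℝ) - y₁) =
        (∑ i ∈ Icc 1 y₂, BV.th i - y₂) - (∑ i ∈ Icc 1 y₁, BV.th i - y₁) := by ring
    rw [e3]
    refine (abs_sub _ _).trans ?_
    have e4 : 6 * C * X / L ^ (A + 3) = 3 * C * X / L ^ (A + 3) + 3 * C * X / L ^ (A + 3) := by ring
    rw [e4]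
    exact add_le_add e1 e2
  have hY3 : (((y₂ - y₁ : ℕ)) : ℝ) ≤ 3 * X := by
    have : y₂ - y₁ ≤ 3 * X := by omega
    exact_mod_cast this
  -- one modulus
  have hone : ∀ q ∈ Icc 1 Q, |∑ n ∈ (Ioc y₁ y₂).filter (fun n => n ≡ a q [MOD q] ∧ n ≡ b q [MOD r]),
      (BV.th n - rz z n)| ≤ E2 (q.lcm r) + E1 (q.lcm r) +
        (6 * C * X / L ^ (A + 3) + 6 * X * L / z + (X : ℝ) ^ (1 - c)) * (1 / (q.totient : ℝ)) := by
    intro q hq
    have hq1 : 1 ≤ q := (mem_Icc.1 hq).1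
    have hm1 : 1 ≤ q.lcm r := Nat.lcm_pos hq1 hr
    set m := q.lcm r with hm
    have hφq : (0 : ℝ) < q.totient := BV.tot_pos hq1
    have hφm : (0 : ℝ) < m.totient := BV.tot_pos hm1
    have hqm : q ∣ m := Nat.dvd_lcm_left q r
    have hqm' : q ≤ m := Nat.le_of_dvd hm1 hqm
    have hφqm : (1 : ℝ) / m.totient ≤ 1 / q.totient := by
      apply one_div_le_one_div_of_le hφq
      exact_mod_cast Nat.le_of_dvd (Nat.totient_pos.2 hm1) (Nat.totient_dvd_of_dvd hqm)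
    have hm0 : (0 : ℝ) < m := by exact_mod_cast hm1
    have hmm : (1 : ℝ) / m ≤ 1 / q.totient := by
      refine le_trans ?_ hφqm
      apply one_div_le_one_div_of_le hφm
      exact_mod_cast Nat.totient_le m
    have hmX : (m : ℝ) ≤ X := (hm40 q hq).trans (hpw _ (by norm_num))
    have hW : 0 ≤ E2 m + E1 m +
        (6 * C * X / L ^ (A + 3) + 6 * X * L / z + (X : ℝ) ^ (1 - c)) * (1 / (q.totient : ℝ)) := by
      have e1 := E2n m
      have e2 := E1n m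
      positivity
    refine mj1_q X z q r (a q) (b q) y₁ y₂ hr hrz hzX hy1 (hab q hq) _ hW fun t ht => ?_
    rw [← hm] at ht ⊢
    rw [sum_sub_distrib]
    have g1 := mj1_class y₁ y₂ m t hy12 hm1 (by
      have : m ≤ X := by exact_mod_cast hmX
      omega)
    have g1' : |∑ n ∈ (Ioc y₁ y₂).filter (fun n => n ≡ t [MOD m]), BV.th n -
        (1 / (m.totient : ℝ)) * ∑ n ∈ Ioc y₁ y₂, BV.th n| ≤ E2 m + E1 m :=
      g1.trans (add_le_add (E2e m t hm1 ht) (E1e m t hm1 ht))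
    have g3 := mj1_dens z m (by omega) hm1
    have g4 := h1 X z (by omega) hz2' hz2 y₁ (y₂ - y₁) m t (by omega) hm1 (hm40 q hq) ht
    rw [show y₁ + (y₂ - y₁) = y₂ by omega] at g4
    rw [show (((y₂ - y₁ : ℕ)) : ℝ) / m * ∏ p ∈ (PP 0 z).filter (fun p => p ∣ m), (1 - 1 / (p : ℝ))⁻¹ =
      (((y₂ - y₁ : ℕ)) : ℝ) * (1 / m * ∏ p ∈ (PP 0 z).filter (fun p => p ∣ m), (1 - 1 / (p : ℝ))⁻¹) by ring] at g4
    have g5 := mj1_comb (by positivity) (Nat.cast_nonneg _) g1' hΘ g3 g4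
    refine g5.trans ?_
    have g6 : (m.primeFactors.card : ℝ) ≤ 2 * L := by
      refine (Pool.Agent.Lib.MP_092512_nt.P3.B.om_log m hm1).trans ?_
      have : Real.log m ≤ L := Real.log_le_log hm0 hmX
      linarith
    have g7 : (1 / (m.totient : ℝ)) * (6 * C * X / L ^ (A + 3)) ≤
        (6 * C * X / L ^ (A + 3)) * (1 / (q.totient : ℝ)) := by
      rw [mul_comm]
      exact mul_le_mul_of_nonneg_left hφqm (by positivity)
    have g8 : (((y₂ - y₁ : ℕ)) : ℝ) * (1 / (m.totient : ℝ) * ((m.primeFactors.card : ℝ) / z)) ≤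
        (6 * X * L / z) * (1 / (q.totient : ℝ)) := by
      calc (((y₂ - y₁ : ℕ)) : ℝ) * (1 / (m.totient : ℝ) * ((m.primeFactors.card : ℝ) / z))
          ≤ (3 * X) * (1 / (q.totient : ℝ) * ((2 * L) / z)) := by
            refine mul_le_mul hY3 ?_ (by positivity) (by positivity)
            exact mul_le_mul hφqm (div_le_div_of_nonneg_right g6 hz0.le) (by positivity) (by positivity)
        _ = _ := by ring
    have g9 : (X : ℝ) ^ (1 - c) / m ≤ (X : ℝ) ^ (1 - c) * (1 / (q.totient : ℝ)) := by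
      calc (X : ℝ) ^ (1 - c) / m = (X : ℝ) ^ (1 - c) * (1 / m) := by ring
        _ ≤ _ := mul_le_mul_of_nonneg_left hmm (by positivity)
    have g10 : (6 * C * X / L ^ (A + 3) + 6 * X * L / z + (X : ℝ) ^ (1 - c)) * (1 / (q.totient : ℝ)) =
      (6 * C * X / L ^ (A + 3)) * (1 / (q.totient : ℝ)) + (6 * X * L / z) * (1 / (q.totient : ℝ)) +
        (X : ℝ) ^ (1 - c) * (1 / (q.totient : ℝ)) := by ring
    rw [g10]
    linarith
  -- the sum
  refine (sum_le_sum hone).trans ?_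
  rw [sum_add_distrib, sum_add_distrib, ← mul_sum]
  have hφ : ∑ q ∈ Icc 1 Q, 1 / (q.totient : ℝ) ≤ 4 * L ^ 2 := by
    have e1 := BV.sum_pow_omega 1 Q
    simp only [Nat.cast_one, one_pow, mul_one] at e1
    refine e1.trans ?_
    have e2 : Real.log Q ≤ L := by
      rcases Nat.eq_zero_or_pos Q with hQ0 | hQ0
      · rw [hQ0, Nat.cast_zero, Real.log_zero]
        exact hL0.le
      · exact Real.log_le_log (by exact_mod_cast hQ0) (hQ.trans (hpw _ (by norm_num)))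
    have e3 : 0 ≤ Real.log Q := Real.log_natCast_nonneg Q
    nlinarith
  have hE : ∀ E : ℕ → ℝ, (∀ q, 0 ≤ E q) → (∑ q ∈ Icc 1 (Q * r), E q ≤ X / L ^ (A + G + 1)) →
      ∑ q ∈ Icc 1 Q, E (q.lcm r) ≤ X / L ^ A * (1 / 8) := by
    intro E e1 e2
    refine (mj1_lcm E e1 Q r hr).trans ?_
    calc (r : ℝ) * ∑ m ∈ Icc 1 (Q * r), E m ≤ L ^ G * (X / L ^ (A + G + 1)) :=
          mul_le_mul hrG e2 (sum_nonneg fun m _ => e1 m) (by positivity)
      _ = X / L ^ A * (1 / L) := by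
          rw [show A + G + 1 = A + G + 1 from rfl, pow_succ, pow_add]
          field_simp
      _ ≤ X / L ^ A * (1 / 8) :=
          mul_le_mul_of_nonneg_left (one_div_le_one_div_of_le (by norm_num) hL8) (by positivity)
  have hs1 := hE E1 E1n (E1s (Q * r) hQr)
  have hs2 := hE E2 E2n (E2s (Q * r) hQr)
  have hs3 : (6 * C * X / L ^ (A + 3)) * (4 * L ^ 2) ≤ X / L ^ A * (1 / 4) := by
    calc (6 * C * X / L ^ (A + 3)) * (4 * L ^ 2) = X / L ^ A * (24 * C / L) := by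
          rw [pow_add]
          field_simp
          ring
      _ ≤ X / L ^ A * (1 / 4) := by
          refine mul_le_mul_of_nonneg_left ?_ (by positivity)
          rw [div_le_div_iff₀ hL0 (by norm_num)]
          linarith
  have hs4 : (6 * X * L / z) * (4 * L ^ 2) ≤ X / L ^ A * (1 / 4) := by
    have e1 : L ^ (A + 6) ≤ z := by
      refine le_trans ?_ hz1
      exact pow_le_pow_right₀ hL1 (by omega)
    calc (6 * X * L / z) * (4 * L ^ 2) ≤ (6 * X * L / L ^ (A + 6)) * (4 * L ^ 2) := by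
          refine mul_le_mul_of_nonneg_right ?_ (by positivity)
          exact div_le_div_of_nonneg_left (by positivity) (by positivity) e1
      _ = X / L ^ A * (24 / L ^ 3) := by
          rw [pow_add]
          field_simp
          ring
      _ ≤ X / L ^ A * (1 / 4) := by
          refine mul_le_mul_of_nonneg_left ?_ (by positivity)
          rw [div_le_div_iff₀ (by positivity) (by norm_num)]
          have e2 : (8 : ℝ) ^ 3 ≤ L ^ 3 := pow_le_pow_left₀ (by norm_num) hL8 3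
          norm_num at e2
          linarith
  have hs5 : (X : ℝ) ^ (1 - c) * (4 * L ^ 2) ≤ X / L ^ A * (1 / 4) := by
    have e1 := h5 X (by omega)
    rw [← hL] at e1
    have e2 : 16 * L ^ (A + 2) ≤ (X : ℝ) ^ c :=
      le_trans (mul_le_mul_of_nonneg_left (pow_le_pow_left₀ hL0.le (by linarith) _) (by norm_num)) e1
    have e3 : (X : ℝ) ^ (1 - c) * (X : ℝ) ^ c = X := by
      rw [← Real.rpow_add hX0]
      norm_num
    rw [div_mul_eq_mul_div, le_div_iff₀ (by positivity)]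
    calc (X : ℝ) ^ (1 - c) * (4 * L ^ 2) * L ^ A = (X : ℝ) ^ (1 - c) * (16 * L ^ (A + 2)) * (1 / 4) := by
          rw [pow_add]
          ring
      _ ≤ (X : ℝ) ^ (1 - c) * (X : ℝ) ^ c * (1 / 4) := by
          refine mul_le_mul_of_nonneg_right ?_ (by norm_num)
          exact mul_le_mul_of_nonneg_left e2 (by positivity)
      _ = _ := by rw [e3]
  have hs6 : (6 * C * X / L ^ (A + 3) + 6 * X * L / z + (X : ℝ) ^ (1 - c)) *
      ∑ q ∈ Icc 1 Q, 1 / (q.totient : ℝ) ≤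
      (6 * C * X / L ^ (A + 3) + 6 * X * L / z + (X : ℝ) ^ (1 - c)) * (4 * L ^ 2) :=
    mul_le_mul_of_nonneg_left hφ (by positivity)
  have hs7 : (6 * C * X / L ^ (A + 3) + 6 * X * L / z + (X : ℝ) ^ (1 - c)) * (4 * L ^ 2) =
    (6 * C * X / L ^ (A + 3)) * (4 * L ^ 2) + (6 * X * L / z) * (4 * L ^ 2) +
      (X : ℝ) ^ (1 - c) * (4 * L ^ 2) := by ring
  have hs8 : X / L ^ A = X / L ^ A * (1 / 8) + X / L ^ A * (1 / 8) + X / L ^ A * (1 / 4) +
    X / L ^ A * (1 / 4) + X / L ^ A * (1 / 4) := by ring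
  rw [hs8]
  linarith

end Pool.Agent.Lib.SG
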