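import Pool.Agent.Lib.SG.Mumass

/-!
# SG-Mumass7: the mass of the presieved integers with an explicit error

PROOF. As `mumass` (Mumass.lean): all error terms there are powers `X^(1-c)` times powers of log X.
-/

set_option autoImplicit false

open Finset

namespace Pool.Agent.Lib.SG

open Pool.Agent.Lib.MT

private theorem Mumass7_ev (C : ℝ) (n : ℕ) : ∀ᶠ t : ℝ in Filter.atTop, (C * Real.log t) ^ n ≤ t / 2 := by
  have h1 := (Real.isLittleO_pow_log_id_atTop (n := n)).bound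
    (show (0 : ℝ) < 1 / (2 * (|C| ^ n + 1)) by positivity)
  filter_upwards [h1, Filter.eventually_ge_atTop (0 : ℝ)] with t ht ht0
  rw [id, Real.norm_eq_abs, Real.norm_eq_abs, abs_of_nonneg ht0] at ht
  have h2 : (C * Real.log t) ^ n ≤ |C| ^ n * |Real.log t ^ n| := by
    rw [mul_pow]
    refine (le_abs_self _).trans ?_
    rw [abs_mul, abs_pow]
  have h3 : |C| ^ n * |Real.log t ^ n| ≤ |C| ^ n * (1 / (2 * (|C| ^ n + 1)) * t) := by
    apply mul_le_mul_of_nonneg_left ht (by positivity)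
  refine h2.trans (h3.trans ?_)
  have h4 : |C| ^ n * (1 / (2 * (|C| ^ n + 1)) * t) = (|C| ^ n / (|C| ^ n + 1)) * (t / 2) := by
    field_simp
  rw [h4]
  have h5 : |C| ^ n / (|C| ^ n + 1) ≤ 1 := by
    rw [div_le_one (by positivity)]
    linarith
  have h6 : 0 ≤ t / 2 := by positivity
  nlinarith

private theorem Mumass7_V (k B : ℕ) : ∃ X₀ : ℕ, ∀ X z : ℕ, X₀ ≤ X → 2 ≤ z →
    (z : ℝ) ≤ (Real.log X) ^ B → ∀ Ω : ℕ → Finset ℕ, Nice k Ω →
    0 < V1 Ω z ∧ (V1 Ω z)⁻¹ ≤ Real.log X / 2 ∧ 1 < Real.log X := by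
  obtain ⟨C, hC, hV⟩ := num_V1 k
  have htend : Filter.Tendsto (fun X : ℕ => Real.log (X : ℝ)) Filter.atTop Filter.atTop :=
    Real.tendsto_log_atTop.comp tendsto_natCast_atTop_atTop
  have h1 := htend.eventually (Mumass7_ev (C * B) (2 * k))
  have h2 := htend.eventually (Filter.eventually_gt_atTop (1 : ℝ))
  obtain ⟨X₀, hX₀⟩ := Filter.eventually_atTop.1 (h1.and h2)
  refine ⟨X₀, fun X z hX hz hzX Ω hΩ => ?_⟩
  obtain ⟨g1, g2⟩ := hX₀ X hX
  obtain ⟨v1, v2, v3⟩ := hV Ω hΩ z hz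
  refine ⟨v1, v3.trans ?_, g2⟩
  refine le_trans ?_ g1
  have hz2 : (2 : ℝ) ≤ z := by exact_mod_cast hz
  have hlz : 0 ≤ Real.log z := Real.log_nonneg (by linarith)
  have h3 : Real.log z ≤ B * Real.log (Real.log X) := by
    rw [← Real.log_pow]
    exact Real.log_le_log (by linarith) hzX
  have hC0 : 0 ≤ C := by linarith
  apply pow_le_pow_left₀ (by positivity)
  rw [mul_assoc]
  exact mul_le_mul_of_nonneg_left h3 hC0

private theorem Mumass7_cnt (d : Finset ℕ) (hd : ∀ p ∈ d, p.Prime) (Ω : ℕ → Finset ℕ)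
    (hΩ : ∀ p ∈ d, ∀ c ∈ Ω p, c < p) (x : ℕ) :
    |((((Ioc x (2 * x)).filter (fun n => ∀ p ∈ d, n % p ∈ Ω p)).card : ℝ)) -
        x * (∏ p ∈ d, ((Ω p).card : ℝ) / p)| ≤ ∏ p ∈ d, ((Ω p).card : ℝ) := by
  have h := Pool.Agent.Lib.MP_092512_nt.P3.B.count_int (k := 0) (fun _ => 0) (fun _ => 1)
    (fun i => i.elim0) (fun i => i.elim0) d hd Ω hΩ (fun p _ i => i.elim0) x
  have e : (Ioc x (2 * x)).filter (fun n => (∀ p ∈ d, n % p ∈ Ω p) ∧ ∀ i : Fin 0, 1 ∣ n + 0) =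
      (Ioc x (2 * x)).filter (fun n => ∀ p ∈ d, n % p ∈ Ω p) := by
    apply filter_congr
    intro n _
    exact ⟨fun h => h.1, fun h => ⟨h, fun i => i.elim0⟩⟩
  rw [e, Fin.prod_univ_zero, mul_one] at h
  exact h

private theorem Mumass7_sum (Ω : ℕ → Finset ℕ) (z X : ℕ) :
    ∑ x ∈ Ioc X (2 * X), mu Ω z X x = (V1 Ω z)⁻¹ * ((Pre Ω z X).card : ℝ) := by
  classical
  unfold mu
  rw [← sum_filter]
  have e : (Ioc X (2 * X)).filter (fun x => x ∈ Pre Ω z X) = Pre Ω z X := by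
    ext x
    rw [mem_filter]
    refine ⟨fun h => h.2, fun h => ⟨?_, h⟩⟩
    unfold Pre at h
    exact (mem_filter.1 h).1
  rw [e, sum_const, nsmul_eq_mul, mul_comm]

theorem mumass7 (k B : ℕ) : ∃ X₀ : ℕ, ∀ X z : ℕ, X₀ ≤ X → 2 ≤ z →
    (z : ℝ) ≤ (Real.log X) ^ B → ∀ Ω : ℕ → Finset ℕ, Nice k Ω →
    |∑ x ∈ Ioc X (2 * X), mu Ω z X x - X| ≤ X / Real.log X := by
  obtain ⟨X₁, hV⟩ := Mumass7_V k B
  obtain ⟨c, hc, X₂, hpar⟩ := layB_param k B (1 / 1000) (by norm_num)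
  set c' : ℝ := min c (999 / 1000) with hc'
  have hc'0 : 0 < c' := lt_min hc (by norm_num)
  have hb := (isLittleO_log_rpow_rpow_atTop (s := c') (2 : ℝ) hc'0).bound
    (show (0 : ℝ) < 1 / 2 by norm_num)
  obtain ⟨X₃, hX₃⟩ := Filter.eventually_atTop.1 (tendsto_natCast_atTop_atTop (R := ℝ) |>.eventually hb)
  refine ⟨max (max X₁ X₂) (max X₃ 1), fun X z hX hz hzX Ω hΩ => ?_⟩
  have hXa : X₁ ≤ X := le_trans (le_trans (le_max_left _ _) (le_max_left _ _)) hX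
  have hXb : X₂ ≤ X := le_trans (le_trans (le_max_right _ _) (le_max_left _ _)) hX
  have hXc : X₃ ≤ X := le_trans (le_trans (le_max_left _ _) (le_max_right _ _)) hX
  have hXd : 1 ≤ X := le_trans (le_trans (le_max_right _ _) (le_max_right _ _)) hX
  obtain ⟨v1, v2, v3⟩ := hV X z hXa hz hzX Ω hΩ
  obtain ⟨m, hm⟩ := hpar X z hXb hzX
  have hX1 : (1 : ℝ) ≤ X := by exact_mod_cast hXd
  have hX0 : (0 : ℝ) < X := by linarith
  have hprime : ∀ p ∈ PP 0 z, p.Prime := by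
    intro p hp
    unfold PP at hp
    exact (mem_filter.mp hp).2.1
  -- truncation
  have t1 := layB_trunc hXd (by norm_num) hm Ω hΩ.card (fun p _ => hΩ.lt p) (fun _ => (1 : ℝ)) 1
    (by norm_num) (fun n _ => by simp)
  have t2 := (layB_V hm Ω hΩ.card).1
  have t3 := layB_low hXd hm Ω hΩ.card
  simp only [sum_const, nsmul_eq_mul, mul_one] at t1
  set S1 : ℝ := ∑ d ∈ (PP 0 z).powerset with d.card ≤ m, ((-1 : ℝ) ^ d.card *
    (((Ioc X (2 * X)).filter (fun x => ∀ p ∈ d, x % p ∈ Ω p)).card : ℝ)) with hS1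
  set S2 : ℝ := ∑ d ∈ (PP 0 z).powerset with d.card ≤ m,
    ((-1 : ℝ) ^ d.card * ∏ p ∈ d, ((Ω p).card : ℝ) / p) with hS2
  have t4 : |S1 - X * S2| ≤ (X : ℝ) ^ ((1 : ℝ) / 1000) := by
    refine le_trans ?_ t3
    rw [hS1, hS2, mul_sum, ← sum_sub_distrib]
    refine (abs_sum_le_sum_abs _ _).trans (sum_le_sum fun d hd => ?_)
    rw [mem_filter, mem_powerset] at hd
    have h1 := Mumass7_cnt d (fun p hp => hprime p (hd.1 hp)) Ω (fun p _ => hΩ.lt p) X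
    have h2 : (-1 : ℝ) ^ d.card * (((Ioc X (2 * X)).filter (fun x => ∀ p ∈ d, x % p ∈ Ω p)).card : ℝ) -
        X * ((-1 : ℝ) ^ d.card * ∏ p ∈ d, ((Ω p).card : ℝ) / p) =
        (-1 : ℝ) ^ d.card * ((((Ioc X (2 * X)).filter (fun x => ∀ p ∈ d, x % p ∈ Ω p)).card : ℝ) -
          X * (∏ p ∈ d, ((Ω p).card : ℝ) / p)) := by ring
    rw [h2, abs_mul, abs_pow, abs_neg, abs_one, one_pow, one_mul]
    exact h1
  have p1 : (X : ℝ) ^ (-c) ≤ (X : ℝ) ^ (-c') :=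
    Real.rpow_le_rpow_of_exponent_le hX1 (by linarith [min_le_left c (999 / 1000)])
  have p2 : (X : ℝ) ^ ((1 : ℝ) / 1000) ≤ X * (X : ℝ) ^ (-c') := by
    have : (X : ℝ) * (X : ℝ) ^ (-c') = (X : ℝ) ^ (1 + -c') := by
      rw [Real.rpow_add hX0, Real.rpow_one]
    rw [this]
    exact Real.rpow_le_rpow_of_exponent_le hX1 (by linarith [min_le_right c (999 / 1000)])
  have hmain : |((Pre Ω z X).card : ℝ) - X * V1 Ω z| ≤ 4 * X * (X : ℝ) ^ (-c') := by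
    have e : ((Pre Ω z X).card : ℝ) - X * V1 Ω z = (((Pre Ω z X).card : ℝ) - S1) + (S1 - X * S2) +
        X * (S2 - V1 Ω z) := by ring
    rw [e]
    refine (abs_add_three _ _ _).trans ?_
    rw [abs_mul, abs_of_pos hX0]
    have q1 : X * |S2 - V1 Ω z| ≤ X * (X : ℝ) ^ (-c') :=
      mul_le_mul_of_nonneg_left (t2.trans p1) hX0.le
    have q2 : 2 * (X : ℝ) * (X : ℝ) ^ (-c) ≤ 2 * X * (X : ℝ) ^ (-c') :=
      mul_le_mul_of_nonneg_left p1 (by positivity)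
    linarith
  rw [Mumass7_sum]
  have e : (V1 Ω z)⁻¹ * ((Pre Ω z X).card : ℝ) - X =
      (V1 Ω z)⁻¹ * (((Pre Ω z X).card : ℝ) - X * V1 Ω z) := by
    field_simp
  rw [e, abs_mul, abs_of_pos (inv_pos.2 v1)]
  have hlog := hX₃ X hXc
  have hlX : 0 < Real.log X := by
    have : 0 < (V1 Ω z)⁻¹ := inv_pos.2 v1
    linarith
  rw [Real.rpow_two, Real.norm_eq_abs, Real.norm_eq_abs,
    abs_of_nonneg (by positivity : (0 : ℝ) ≤ Real.log X ^ 2),
    abs_of_nonneg (by positivity : (0 : ℝ) ≤ (X : ℝ) ^ c')] at hlog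
  have hone : (X : ℝ) ^ c' * (X : ℝ) ^ (-c') = 1 := by
    rw [← Real.rpow_add hX0]
    simp
  have hneg : 0 < (X : ℝ) ^ (-c') := by positivity
  calc (V1 Ω z)⁻¹ * |((Pre Ω z X).card : ℝ) - X * V1 Ω z|
      ≤ (Real.log X / 2) * (4 * X * (X : ℝ) ^ (-c')) :=
        mul_le_mul v2 hmain (abs_nonneg _) (by linarith)
    _ = (2 * Real.log X ^ 2) * (X : ℝ) ^ (-c') * X / Real.log X := by
        field_simp
        ring
    _ ≤ ((X : ℝ) ^ c') * (X : ℝ) ^ (-c') * X / Real.log X := by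
        have h2 : 2 * Real.log X ^ 2 ≤ (X : ℝ) ^ c' := by linarith
        gcongr
    _ = X / Real.log X := by rw [hone, one_mul]

end Pool.Agent.Lib.SG
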