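import Pool.Agent.Lib.SG.Defs7

/-!
# SG-Nfin: the final choice of the parameters

PROOF. Put `S = (8 N k³ C/c₀)^k`, so `(N k C/τ)^k = S ε^(-k)`; `ε^(-k)/L ≤ ε/G` and `1/L ≤ ε/G`. The left side is at most
`ε (c₀/4 + (2 N S (3k² + k + m) + 2 N (k + m))/G + a' (4 k N S + k² N² + 2 N k))`. Choose `G ≥ 8 (2 N S (3k² + k + m) + 2 N (k + m))/c₀`, `G ≥ 1` and
`a' = min (1/m) (c₀/(8 (4 k N S + k² N² + 2 N k)))`: total at most `c₀ ε/2 < c₀ ε`.
-/

set_option autoImplicit false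

namespace Pool.Agent.Lib.SG

theorem nfin (c₀ C : ℝ) (N k m : ℕ) (hc₀ : 0 < c₀) (hC : 1 ≤ C) (hN : 1 ≤ N) (hk : 1 ≤ k) (hm : 1 ≤ m) :
    ∃ a' G : ℝ, 0 < a' ∧ a' ≤ 1 ∧ m * a' ≤ 1 ∧ 1 ≤ G ∧ ∀ ε L τ κ : ℝ, 0 < ε → ε ≤ 1 →
    G * (1 / ε) ^ (k + 1) ≤ L → τ = c₀ * ε / (8 * k ^ 2) → κ = a' * ε ^ (k + 1) →
    2 * (N * (N * (k * C) / τ) ^ k * ((3 * k ^ 2 + k + m) / L + k * (κ + κ))) + 2 * k ^ 2 * τ +
      k ^ 2 * N ^ 2 * κ + N * (2 * (k + m) / L + 2 * k * κ) < c₀ * ε := by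
  have hN1 : (1 : ℝ) ≤ N := by exact_mod_cast hN
  have hk1 : (1 : ℝ) ≤ k := by exact_mod_cast hk
  have hm1 : (1 : ℝ) ≤ m := by exact_mod_cast hm
  set S : ℝ := (8 * N * k ^ 3 * C / c₀) ^ k with hS
  have hS0 : 0 < S := by rw [hS]; positivity
  set P : ℝ := 2 * N * S * (3 * k ^ 2 + k + m) + 2 * N * (k + m) with hP
  have hP0 : 0 < P := by rw [hP]; positivity
  set R : ℝ := 4 * k * N * S + k ^ 2 * N ^ 2 + 2 * N * k with hR
  have hR0 : 0 < R := by rw [hR]; positivity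
  have ha0 : 0 < min (1 / (m : ℝ)) (c₀ / (8 * R)) := lt_min (by positivity) (by positivity)
  have ham : min (1 / (m : ℝ)) (c₀ / (8 * R)) ≤ 1 / m := min_le_left _ _
  have haR : min (1 / (m : ℝ)) (c₀ / (8 * R)) ≤ c₀ / (8 * R) := min_le_right _ _
  refine ⟨min (1 / (m : ℝ)) (c₀ / (8 * R)), 8 * P / c₀ + 1, ha0, ?_, ?_, ?_, ?_⟩
  · refine ham.trans ?_
    rw [div_le_one (by linarith)]
    exact hm1
  · calc (m : ℝ) * min (1 / (m : ℝ)) (c₀ / (8 * R)) ≤ m * (1 / m) :=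
          mul_le_mul_of_nonneg_left ham (by linarith)
      _ = 1 := by field_simp
  · have : 0 < 8 * P / c₀ := by positivity
    linarith
  generalize min (1 / (m : ℝ)) (c₀ / (8 * R)) = a at ha0 ham haR
  intro ε L τ κ hε hε1 hL hτ hκ
  set G : ℝ := 8 * P / c₀ + 1 with hG
  have hG1 : 1 ≤ G := by
    have : 0 < 8 * P / c₀ := by positivity
    linarith
  have hG0 : 0 < G := by linarith
  have hi0 : 0 < 1 / ε := by positivity
  have hi1 : 1 ≤ 1 / ε := by rw [le_div_iff₀ hε]; linarith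
  have hL0 : 0 < L := lt_of_lt_of_le (by positivity) hL
  set q : ℝ := (1 / ε) ^ k with hq
  have hq1 : 1 ≤ q := one_le_pow₀ hi1
  have hqε : q * ε ^ k = 1 := by
    rw [hq, one_div, inv_pow, inv_mul_cancel₀ (by positivity)]
  -- `q / L ≤ ε / G`
  have h1 : G * q ≤ L * ε := by
    have h2 : G * (1 / ε) ^ (k + 1) * ε ≤ L * ε := mul_le_mul_of_nonneg_right hL hε.le
    have h3 : G * (1 / ε) ^ (k + 1) * ε = G * q := by
      rw [hq, pow_succ]
      field_simp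
    rw [h3] at h2
    exact h2
  have h2 : q / L ≤ ε / G := by
    rw [div_le_div_iff₀ hL0 hG0]
    linarith
  have h3 : 1 / L ≤ ε / G := by
    refine le_trans ?_ h2
    exact div_le_div_of_nonneg_right hq1 hL0.le
  have h4 : (N * (k * C) / τ) ^ k = S * q := by
    rw [hS, hq, ← mul_pow, hτ]
    congr 1
    field_simp
  have h5 : q * κ = a * ε := by
    rw [hκ, pow_succ]
    calc q * (a * (ε ^ k * ε)) = (q * ε ^ k) * (a * ε) := by ring
      _ = a * ε := by rw [hqε, one_mul]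
  have h6 : κ ≤ a * ε := by
    rw [hκ]
    refine mul_le_mul_of_nonneg_left ?_ ha0.le
    calc ε ^ (k + 1) ≤ ε ^ 1 := pow_le_pow_of_le_one hε.le hε1 (by omega)
      _ = ε := pow_one ε
  have h7 : 2 * (k : ℝ) ^ 2 * τ = c₀ * ε / 4 := by
    rw [hτ]
    field_simp
    ring
  rw [h4, h7]
  have h8 : 2 * (N * (S * q) * ((3 * k ^ 2 + k + m) / L + k * (κ + κ))) + c₀ * ε / 4 +
      k ^ 2 * N ^ 2 * κ + N * (2 * (k + m) / L + 2 * k * κ) =
      2 * N * S * (3 * k ^ 2 + k + m) * (q / L) + 4 * k * N * S * (q * κ) + c₀ * ε / 4 +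
        (k ^ 2 * N ^ 2 + 2 * N * k) * κ + 2 * N * (k + m) * (1 / L) := by
    ring
  rw [h8, h5]
  have h9 : 2 * N * S * (3 * (k : ℝ) ^ 2 + k + m) * (q / L) ≤
      2 * N * S * (3 * k ^ 2 + k + m) * (ε / G) :=
    mul_le_mul_of_nonneg_left h2 (by positivity)
  have h10 : 2 * (N : ℝ) * (k + m) * (1 / L) ≤ 2 * N * (k + m) * (ε / G) :=
    mul_le_mul_of_nonneg_left h3 (by positivity)
  have h11 : ((k : ℝ) ^ 2 * N ^ 2 + 2 * N * k) * κ ≤ (k ^ 2 * N ^ 2 + 2 * N * k) * (a * ε) :=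
    mul_le_mul_of_nonneg_left h6 (by positivity)
  have h12 : P * (ε / G) ≤ c₀ * ε / 8 := by
    rw [mul_div_assoc', div_le_iff₀ hG0]
    have h13 : c₀ * G = 8 * P + c₀ := by
      rw [hG]
      field_simp
    have h14 : c₀ * ε / 8 * G = (c₀ * G) * ε / 8 := by ring
    rw [h14, h13]
    nlinarith [mul_pos hc₀ hε]
  have h13 : R * (a * ε) ≤ c₀ * ε / 8 := by
    have h14 : R * a ≤ c₀ / 8 := by
      calc R * a ≤ R * (c₀ / (8 * R)) := mul_le_mul_of_nonneg_left haR hR0.le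
        _ = c₀ / 8 := by field_simp
    calc R * (a * ε) = (R * a) * ε := by ring
      _ ≤ c₀ / 8 * ε := mul_le_mul_of_nonneg_right h14 hε.le
      _ = c₀ * ε / 8 := by ring
  have h14 : P * (ε / G) = 2 * N * S * (3 * k ^ 2 + k + m) * (ε / G) +
      2 * N * (k + m) * (ε / G) := by rw [hP]; ring
  have h15 : R * (a * ε) = 4 * k * N * S * (a * ε) + (k ^ 2 * N ^ 2 + 2 * N * k) * (a * ε) := by
    rw [hR]; ring
  have h16 : 0 < c₀ * ε := mul_pos hc₀ hε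
  linarith

end Pool.Agent.Lib.SG
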