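import Pool.Agent.Lib.SG.Amft
import Pool.Agent.Lib.SG.Tri

/-!
# SG-Shf: the correlation with the adversary's weights is almost invariant under good shifts

PROOF. K = 212 C⁶ + 1. Choose η ∈ (0, 1] with `16 k⁴ 201 C² η K ≤ ε⁴/2` and ρ > 0 with `ρ⁴ k⁴ K² ≤ ε⁴/2`. δ₀ = (log X)^(-c); for X ≥ X₀: δ₀ ≤ η, `8 δ₀² X³ ∑ w'² ≤ 8 X⁴ (log X)^(-c) ≤ C² η X⁴`
(sum over range (4X) = sum over Ioc X (2X)). Ξ from `am_tail` for w', h', B. With u = am B h' w': `∑_ξ (‖FT u‖ ‖e - 1‖)⁴ ≤ ρ⁴ ∑ ‖FT u‖⁴ + 16 ∑_{ξ ∉ Ξ} ‖FT u‖⁴ ≤ (ρ⁴ k⁴ K + 16 k⁴ 201 C² η) X⁴` (`am_l4`),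
`∑ ‖FT f‖⁴ ≤ K X⁴` (`l4` for f ≤ w), `(|E|/8X)² ≤ 1`: `tri_shift` gives `|..|⁴ ≤ ε⁴ X⁸`.
-/

set_option autoImplicit false

open Finset

namespace Pool.Agent.Lib.SG

private theorem shf_log (L : ℝ) : ∃ X₀ : ℕ, ∀ X : ℕ, X₀ ≤ X → L ≤ Real.log X := by
  have h := (Real.tendsto_log_atTop.comp tendsto_natCast_atTop_atTop).eventually
    (Filter.eventually_ge_atTop L)
  exact Filter.eventually_atTop.mp h

private theorem shf_sum (X : ℕ) (hX : 1 ≤ X) (w : ℕ → ℝ) (hw : ∀ x, x ∉ Ioc X (2 * X) → w x = 0) :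
    ∑ n ∈ range (4 * X), (w n) ^ 2 = ∑ n ∈ Ioc X (2 * X), (w n) ^ 2 := by
  refine (sum_subset ?_ ?_).symm
  · intro x hx
    rw [mem_Ioc] at hx
    rw [mem_range]
    omega
  · intro x _ hx
    rw [hw x hx]
    ring

private theorem shf_small (L S X : ℝ) (hL : 1 ≤ L) (hX : 0 ≤ X) (c : ℕ) (hc : 1 ≤ c)
    (hS : S ≤ X * L ^ c) : 8 * ((L ^ c)⁻¹) ^ 2 * X ^ 3 * S ≤ 8 * L⁻¹ * X ^ 4 := by
  have hLc : 0 < L ^ c := by positivity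
  have h1 : (L ^ c)⁻¹ ≤ L⁻¹ := by
    apply inv_anti₀ (by linarith)
    calc L = L ^ 1 := (pow_one L).symm
      _ ≤ L ^ c := pow_le_pow_right₀ hL hc
  calc 8 * ((L ^ c)⁻¹) ^ 2 * X ^ 3 * S ≤ 8 * ((L ^ c)⁻¹) ^ 2 * X ^ 3 * (X * L ^ c) :=
        mul_le_mul_of_nonneg_left hS (by positivity)
    _ = 8 * (L ^ c)⁻¹ * X ^ 4 := by
        field_simp
    _ ≤ _ := by gcongr

theorem shf (k : ℕ) (C ε : ℝ) (hC : 1 ≤ C) (hε : 0 < ε) : ∃ η ρ : ℝ, 0 < η ∧ η ≤ 1 ∧ 0 < ρ ∧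
    ∀ c : ℕ, 1 ≤ c → ∃ X₀ : ℕ, ∀ X : ℕ, X₀ ≤ X → ∀ (w' : ℕ → ℝ) (h' : Fin k → ℕ) (B : Set ℕ),
    (∀ i, h' i ≤ X) → (∀ x, x ∉ Ioc X (2 * X) → w' x = 0) →
    Rst C (((Real.log X) ^ c)⁻¹) X w' → ∑ x ∈ Ioc X (2 * X), (w' x) ^ 2 ≤ X * (Real.log X) ^ c →
    ∃ Ξ ⊆ range (8 * X), (Ξ.card : ℝ) ≤ k * (11 * C ^ 2 / η ^ 3) ∧
      ∀ w : ℕ → ℝ, (∀ x, x ∉ Ioc X (2 * X) → w x = 0) → Rst C (((Real.log X) ^ c)⁻¹) X w →
      ∑ x ∈ Ioc X (2 * X), (w x) ^ 2 ≤ X * (Real.log X) ^ c →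
      ∀ t : ℕ, t ≤ X → (∀ ξ ∈ Ξ, ‖GT.e ((ξ : ℝ) / (8 * X) * t) - 1‖ ≤ ρ) →
      ∀ E ⊆ range (8 * X), ∀ f : ℕ → ℝ, (∀ x, 0 ≤ f x ∧ f x ≤ w x) →
      |∑ x ∈ Ioc X (2 * X), f x * (cor E (am B h' w') (x + t) - cor E (am B h' w') x)| ≤ ε * X ^ 2 := by
  classical
  set K : ℝ := 212 * C ^ 6 + 1 with hK
  have hC0 : 0 < C := by linarith
  have hK0 : 0 < K := by positivity
  set D1 : ℝ := 2 * (16 * k ^ 4 * 201 * C ^ 2 * K + 1) with hD1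
  have hD10 : 0 < D1 := by positivity
  set D2 : ℝ := 2 * (k ^ 4 * K ^ 2 + 1) with hD2
  have hD20 : 0 < D2 := by positivity
  have hε4 : 0 < ε ^ 4 := by positivity
  obtain ⟨η, hη0, hη1, hη2⟩ : ∃ η : ℝ, 0 < η ∧ η ≤ 1 ∧ η ≤ ε ^ 4 / D1 :=
    ⟨min 1 (ε ^ 4 / D1), lt_min one_pos (div_pos hε4 hD10), min_le_left _ _, min_le_right _ _⟩
  obtain ⟨ρ, hρ0, hρ1, hρ2⟩ : ∃ ρ : ℝ, 0 < ρ ∧ ρ ≤ 1 ∧ ρ ≤ ε ^ 4 / D2 :=
    ⟨min 1 (ε ^ 4 / D2), lt_min one_pos (div_pos hε4 hD20), min_le_left _ _, min_le_right _ _⟩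
  refine ⟨η, ρ, hη0, hη1, hρ0, fun c hc => ?_⟩
  obtain ⟨X₁, hX₁⟩ := shf_log (8 / (C ^ 2 * η) + 8 + 1 / η)
  refine ⟨max X₁ 1, fun X hX w' h' B hh hw' hR' h2' => ?_⟩
  have hX1 : 1 ≤ X := (le_max_right _ _).trans hX
  have hlog := hX₁ X ((le_max_left _ _).trans hX)
  set L := Real.log X with hL
  have ha : 0 < 8 / (C ^ 2 * η) := by positivity
  have hb : 0 < 1 / η := by positivity
  have hL8 : 8 ≤ L := by linarith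
  have hL1 : 1 ≤ L := by linarith
  have hXr : (1 : ℝ) ≤ (X : ℝ) := by exact_mod_cast hX1
  have hLc0 : 0 < L ^ c := by positivity
  set δ₀ := (L ^ c)⁻¹ with hδ₀
  have hδ0 : 0 < δ₀ := inv_pos.mpr hLc0
  have hδL : δ₀ ≤ L⁻¹ := by
    apply inv_anti₀ (by linarith)
    calc L = L ^ 1 := (pow_one L).symm
      _ ≤ L ^ c := pow_le_pow_right₀ hL1 hc
  have hδη : δ₀ ≤ η := by
    refine hδL.trans ?_
    rw [inv_le_comm₀ (by linarith) hη0, inv_eq_one_div]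
    linarith
  have hδ1 : δ₀ ≤ 1 := hδη.trans hη1
  have h8 : 8 * L⁻¹ ≤ 1 := by
    rw [← div_eq_mul_inv, div_le_one (by linarith)]
    exact hL8
  have h8' : 8 * L⁻¹ ≤ C ^ 2 * η := by
    rw [← div_eq_mul_inv, div_le_iff₀ (by linarith)]
    have : 8 / (C ^ 2 * η) ≤ L := by linarith
    rw [div_le_iff₀ (by positivity)] at this
    linarith
  have hX4 : (0 : ℝ) ≤ (X : ℝ) ^ 4 := by positivity
  -- error terms
  have hsw'1 : 8 * δ₀ ^ 2 * X ^ 3 * ∑ n ∈ range (4 * X), (w' n) ^ 2 ≤ 8 * L⁻¹ * (X : ℝ) ^ 4 := by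
    rw [shf_sum X hX1 w' hw']
    exact shf_small L _ X hL1 (by linarith) c hc h2'
  have hsw' : 8 * δ₀ ^ 2 * X ^ 3 * ∑ n ∈ range (4 * X), (w' n) ^ 2 ≤ X ^ 4 := by
    calc _ ≤ 8 * L⁻¹ * (X : ℝ) ^ 4 := hsw'1
      _ ≤ 1 * (X : ℝ) ^ 4 := mul_le_mul_of_nonneg_right h8 hX4
      _ = _ := one_mul _
  have hsw'' : 8 * δ₀ ^ 2 * X ^ 3 * ∑ n ∈ range (4 * X), (w' n) ^ 2 ≤ C ^ 2 * η * X ^ 4 :=
    hsw'1.trans (mul_le_mul_of_nonneg_right h8' hX4)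
  -- the adversary's weights
  set u := am B h' w' with hu
  have hw'0 : ∀ x, 0 ≤ w' x := hR'.nonneg
  obtain ⟨hu1, hu2, -, -, -⟩ := am_supp B h' w' X hh hw' hw'0
  obtain ⟨Ξ, hΞ, hΞc, hΞs⟩ := am_tail B h' w' X hX1 hh hw' C δ₀ hC hδ0 hR' η hδη hη1
  refine ⟨Ξ, hΞ, hΞc, fun w hw hR h2 t ht hte E hE f hf => ?_⟩
  have hsw : 8 * δ₀ ^ 2 * X ^ 3 * ∑ n ∈ range (4 * X), (w n) ^ 2 ≤ X ^ 4 := by
    rw [shf_sum X hX1 w hw]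
    calc _ ≤ 8 * L⁻¹ * (X : ℝ) ^ 4 := shf_small L _ X hL1 (by linarith) c hc h2
      _ ≤ 1 * (X : ℝ) ^ 4 := mul_le_mul_of_nonneg_right h8 hX4
      _ = _ := one_mul _
  have hfz : ∀ x, x ∉ Ioc X (2 * X) → f x = 0 := by
    intro x hx
    have h1 := (hf x).1
    have h3 := (hf x).2
    rw [hw x hx] at h3
    linarith
  have hF := l4 C δ₀ hC hδ0 hδ1 X hX1 w f hR hf
  have hU := am_l4 B h' w' X hX1 hh hw' C δ₀ hC hδ0 hδ1 hR'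
  have hT := tri_shift X t hX1 ht E hE f u hfz hu1
  have hF' : ∑ ξ ∈ range (8 * X), ‖FT f X ((ξ : ℝ) / (8 * X))‖ ^ 4 ≤ K * X ^ 4 := by
    refine hF.trans ?_
    have : (0 : ℝ) ≤ C ^ 6 * X ^ 4 := by positivity
    rw [hK]
    nlinarith
  have hU' : ∑ ξ ∈ range (8 * X), ‖FT u X ((ξ : ℝ) / (8 * X))‖ ^ 4 ≤ k ^ 4 * (K * X ^ 4) := by
    refine hU.trans ?_
    have h1 : (0 : ℝ) ≤ C ^ 6 * X ^ 4 := by positivity
    have h3 : 211 * C ^ 6 * X ^ 4 + 8 * δ₀ ^ 2 * X ^ 3 * ∑ n ∈ range (4 * X), (w' n) ^ 2 ≤ K * X ^ 4 := by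
      rw [hK]
      nlinarith
    exact mul_le_mul_of_nonneg_left h3 (by positivity)
  have hV' : ∑ ξ ∈ range (8 * X) \ Ξ, ‖FT u X ((ξ : ℝ) / (8 * X))‖ ^ 4 ≤
      k ^ 4 * (201 * C ^ 2 * η * X ^ 4) := by
    refine hΞs.trans ?_
    refine mul_le_mul_of_nonneg_left ?_ (by positivity)
    calc _ ≤ 200 * C ^ 2 * η * (X : ℝ) ^ 4 + C ^ 2 * η * X ^ 4 := by
          exact add_le_add_right hsw'' _
      _ = _ := by ring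
  have hW : ∑ ξ ∈ range (8 * X),
      (‖FT u X ((ξ : ℝ) / (8 * X))‖ * ‖GT.e ((ξ : ℝ) / (8 * X) * t) - 1‖) ^ 4 ≤
      ρ ^ 4 * (k ^ 4 * (K * X ^ 4)) + 16 * (k ^ 4 * (201 * C ^ 2 * η * X ^ 4)) := by
    rw [← sum_sdiff hΞ, add_comm]
    refine add_le_add ?_ ?_
    · calc _ ≤ ∑ ξ ∈ Ξ, ρ ^ 4 * ‖FT u X ((ξ : ℝ) / (8 * X))‖ ^ 4 := by
            refine sum_le_sum fun ξ hξ => ?_
            rw [mul_pow, mul_comm]
            refine mul_le_mul_of_nonneg_right ?_ (by positivity)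
            exact pow_le_pow_left₀ (norm_nonneg _) (hte ξ hξ) 4
        _ = ρ ^ 4 * ∑ ξ ∈ Ξ, ‖FT u X ((ξ : ℝ) / (8 * X))‖ ^ 4 := by rw [mul_sum]
        _ ≤ ρ ^ 4 * ∑ ξ ∈ range (8 * X), ‖FT u X ((ξ : ℝ) / (8 * X))‖ ^ 4 := by
            refine mul_le_mul_of_nonneg_left ?_ (by positivity)
            exact sum_le_sum_of_subset_of_nonneg hΞ fun _ _ _ => by positivity
        _ ≤ _ := mul_le_mul_of_nonneg_left hU' (by positivity)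
    · calc _ ≤ ∑ ξ ∈ range (8 * X) \ Ξ, 16 * ‖FT u X ((ξ : ℝ) / (8 * X))‖ ^ 4 := by
            refine sum_le_sum fun ξ _ => ?_
            rw [mul_pow, mul_comm]
            refine mul_le_mul_of_nonneg_right ?_ (by positivity)
            have h3 : ‖GT.e ((ξ : ℝ) / (8 * X) * t) - 1‖ ≤ 2 := by
              calc _ ≤ ‖GT.e ((ξ : ℝ) / (8 * X) * t)‖ + ‖(1 : ℂ)‖ := norm_sub_le _ _
                _ = 2 := by
                  rw [GT.norm_e, norm_one]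
                  norm_num
            calc _ ≤ (2 : ℝ) ^ 4 := pow_le_pow_left₀ (norm_nonneg _) h3 4
              _ = 16 := by norm_num
        _ = 16 * ∑ ξ ∈ range (8 * X) \ Ξ, ‖FT u X ((ξ : ℝ) / (8 * X))‖ ^ 4 := by rw [mul_sum]
        _ ≤ _ := mul_le_mul_of_nonneg_left hV' (by norm_num)
  have hE1 : ((E.card : ℝ) / (8 * X)) ^ 2 ≤ 1 := by
    have h3 := card_le_card hE
    rw [card_range] at h3
    have h4 : (E.card : ℝ) ≤ 8 * X := by exact_mod_cast h3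
    have h5 : (E.card : ℝ) / (8 * X) ≤ 1 := by
      rw [div_le_one (by linarith)]
      exact h4
    exact pow_le_one₀ (by positivity) h5
  have hρ4 : ρ ^ 4 ≤ ρ := by
    calc ρ ^ 4 ≤ ρ ^ 1 := pow_le_pow_of_le_one hρ0.le hρ1 (by norm_num)
      _ = ρ := pow_one ρ
  have hfin1 : K * (ρ ^ 4 * (k ^ 4 * K)) ≤ ε ^ 4 / 2 := by
    have h3 : ρ * D2 ≤ ε ^ 4 := by
      rw [le_div_iff₀ hD20] at hρ2
      exact hρ2
    have h4 : ρ ^ 4 * (k ^ 4 * K ^ 2) ≤ ρ * (k ^ 4 * K ^ 2) :=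
      mul_le_mul_of_nonneg_right hρ4 (by positivity)
    rw [hD2] at h3
    nlinarith
  have hfin2 : K * (16 * (k ^ 4 * (201 * C ^ 2 * η))) ≤ ε ^ 4 / 2 := by
    have h3 : η * D1 ≤ ε ^ 4 := by
      rw [le_div_iff₀ hD10] at hη2
      exact hη2
    rw [hD1] at h3
    nlinarith
  have hfin : (∑ x ∈ Ioc X (2 * X), f x * (cor E u (x + t) - cor E u x)) ^ 4 ≤ (ε * X ^ 2) ^ 4 := by
    refine hT.trans ?_
    have hA0 : 0 ≤ ∑ ξ ∈ range (8 * X), ‖FT f X ((ξ : ℝ) / (8 * X))‖ ^ 4 :=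
      sum_nonneg fun _ _ => by positivity
    calc _ ≤ 1 * (K * X ^ 4) *
          (ρ ^ 4 * (k ^ 4 * (K * X ^ 4)) + 16 * (k ^ 4 * (201 * C ^ 2 * η * X ^ 4))) := by
          refine mul_le_mul ?_ hW (sum_nonneg fun _ _ => by positivity) (by positivity)
          exact mul_le_mul hE1 hF' hA0 zero_le_one
      _ = (K * (ρ ^ 4 * (k ^ 4 * K)) + K * (16 * (k ^ 4 * (201 * C ^ 2 * η)))) * X ^ 8 := by ring
      _ ≤ (ε ^ 4 / 2 + ε ^ 4 / 2) * X ^ 8 :=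
          mul_le_mul_of_nonneg_right (add_le_add hfin1 hfin2) (by positivity)
      _ = _ := by ring
  have h9 : |∑ x ∈ Ioc X (2 * X), f x * (cor E u (x + t) - cor E u x)| ^ 4 ≤ (ε * X ^ 2) ^ 4 := by
    rw [← abs_pow, abs_of_nonneg (by positivity)]
    exact hfin
  exact (pow_le_pow_iff_left₀ (abs_nonneg _) (by positivity) (by norm_num)).mp h9

end Pool.Agent.Lib.SG
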