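import Pool.Agent.Lib.SG.Per
import Pool.Agent.Lib.MP_7b7e48_nt.GT.ClassUniform
import Pool.Agent.Lib.MP_7b7e48_nt.GT.FL1

/-!
# SG-Sing: the rough numbers have many representations

PROOF. Ω p = {0} for p ∈ PP 0 y. The sum is `V⁻² #{x ∈ (X, 2X] : s - x ∈ (X, 2X], x and s - x not divisible by any p ≤ y}`, V = V1 Ω y = ∏_{p ≤ y} (1 - 1/p). The x lie in an interval I of length
≥ X/8 - 1 (s - 2X ≤ x < s - X; 2X + X/8 ≤ s ≤ 4X - X/8), with two excluded classes 0, s mod p (one if p ∣ s, in particular for p = 2). Inclusion-exclusion over the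
d ⊆ PP 0 y (finite, y fixed) or counting full periods of P = ∏ p: the number is `≥ (|I|/P - 1) ∏ (p - ρ_p) ≥ (|I| - P) ∏_{p ≤ y} (1 - ρ_p/p)` (`GT.card_crt`), ρ_2 = 1, ρ_p ≤ 2.
`V⁻² ∏ (1 - ρ_p/p) ≥ 2 ∏_{3 ≤ p ≤ y} (1 - 2/p)/(1 - 1/p)² = 2 ∏ (1 - 1/(p-1)²) ≥ 2 ∏_{n=2}^{y} (1 - 1/n²) ≥ 1` (if y ≥ 2). So the sum is ≥ X/8 - 1 - P ≥ X/16 for X ≥ 16 (P + 1).
-/

set_option autoImplicit false

open Finset

namespace Pool.Agent.Lib.SG

open Pool.Agent.Lib.MT

private def singS (s p : ℕ) : Finset ℕ := (range p).filter (fun c => c ≠ 0 ∧ c ≠ s % p)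

private theorem sing_PPsucc (y : ℕ) (hy : 2 ≤ y) :
    PP 2 (y + 1) = if (y + 1).Prime then insert (y + 1) (PP 2 y) else PP 2 y := by
  ext p
  unfold PP
  split_ifs with h
  · simp only [mem_filter, mem_range, mem_insert]
    constructor
    · rintro ⟨h1, h2, h3⟩
      rcases Nat.lt_or_ge p (y + 1) with h4 | h4
      · exact Or.inr ⟨h4, h2, h3⟩
      · exact Or.inl (by omega)
    · rintro (h1 | ⟨h1, h2, h3⟩)
      · subst h1
        exact ⟨by omega, h, by omega⟩
      · exact ⟨by omega, h2, h3⟩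
  · simp only [mem_filter, mem_range]
    constructor
    · rintro ⟨h1, h2, h3⟩
      rcases Nat.lt_or_ge p (y + 1) with h4 | h4
      · exact ⟨h4, h2, h3⟩
      · have : p = y + 1 := by omega
        subst this
        exact absurd h2 h
    · rintro ⟨h1, h2, h3⟩
      exact ⟨by omega, h2, h3⟩

private theorem sing_half (y : ℕ) (hy : 2 ≤ y) :
    (y : ℝ) / (2 * (y - 1)) ≤ ∏ p ∈ PP 2 y, (1 - 1 / ((p : ℝ) - 1) ^ 2) := by
  induction y, hy using Nat.le_induction with
  | base =>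
    have h : PP 2 2 = ∅ := by
      ext p
      unfold PP
      simp only [mem_filter, mem_range, notMem_empty, iff_false, not_and]
      intro h1 _ h3
      omega
    rw [h, prod_empty]
    norm_num
  | succ y hy ih =>
    have hyr : (2 : ℝ) ≤ y := by exact_mod_cast hy
    rw [sing_PPsucc y hy]
    split_ifs with h
    · have hn : y + 1 ∉ PP 2 y := by
        unfold PP
        simp
      rw [prod_insert hn]
      have h2 : (0 : ℝ) ≤ 1 - 1 / (((y + 1 : ℕ) : ℝ) - 1) ^ 2 := by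
        push_cast
        rw [add_sub_cancel_right, sub_nonneg, div_le_one (by positivity)]
        nlinarith
      have h3 : (((y + 1 : ℕ) : ℝ)) / (2 * (((y + 1 : ℕ) : ℝ) - 1)) =
          (1 - 1 / (((y + 1 : ℕ) : ℝ) - 1) ^ 2) * ((y : ℝ) / (2 * (y - 1))) := by
        push_cast
        have h4 : (y : ℝ) - 1 ≠ 0 := by intro h5; linarith
        have h6 : (y : ℝ) ≠ 0 := by intro h5; linarith
        rw [add_sub_cancel_right]
        field_simp
        ring
      rw [h3]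
      exact mul_le_mul_of_nonneg_left ih h2
    · refine le_trans ?_ ih
      push_cast
      rw [add_sub_cancel_right, div_le_div_iff₀ (by linarith) (by linarith)]
      nlinarith

private theorem sing_card (s p : ℕ) (hp : p.Prime) : (p : ℝ) - 2 ≤ ((singS s p).card : ℝ) := by
  have h1 : (range p) ⊆ (singS s p) ∪ {0, s % p} := by
    intro c hc
    rw [mem_union]
    by_cases h : c = 0 ∨ c = s % p
    · right
      rw [mem_insert, mem_singleton]
      exact h
    · left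
      unfold singS
      rw [mem_filter]
      push Not at h
      exact ⟨hc, h⟩
  have h2 := card_le_card h1
  have h3 := card_union_le (singS s p) {0, s % p}
  have h4 : ({0, s % p} : Finset ℕ).card ≤ 2 := card_le_two
  rw [card_range] at h2
  have h5 : p ≤ (singS s p).card + 2 := by omega
  have h6 : (p : ℝ) ≤ (singS s p).card + 2 := by exact_mod_cast h5
  linarith

private theorem sing_PP0 (y : ℕ) (hy : 2 ≤ y) : PP 0 y = insert 2 (PP 2 y) := by
  ext p
  unfold PP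
  simp only [mem_filter, mem_range, mem_insert]
  constructor
  · rintro ⟨h1, h2, h3⟩
    rcases Nat.lt_or_ge 2 p with h4 | h4
    · exact Or.inr ⟨h1, h2, h4⟩
    · left
      have := h2.two_le
      omega
  · rintro (h1 | ⟨h1, h2, h3⟩)
    · subst h1
      exact ⟨by omega, Nat.prime_two, by omega⟩
    · exact ⟨h1, h2, by omega⟩

private theorem sing_prod (y : ℕ) (hy : 2 ≤ y) (s : ℕ) (hs : Even s) :
    (∏ p ∈ PP 0 y, (p : ℝ)) * (∏ p ∈ PP 0 y, (1 - 1 / (p : ℝ))) ^ 2 ≤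
      ∏ p ∈ PP 0 y, ((singS s p).card : ℝ) := by
  have hn : 2 ∉ PP 2 y := by
    unfold PP
    simp
  rw [sing_PP0 y hy, prod_insert hn, prod_insert hn, prod_insert hn]
  have h2 : (singS s 2).card = 1 := by
    have : singS s 2 = {1} := by
      unfold singS
      have hs2 : s % 2 = 0 := Nat.even_iff.mp hs
      rw [hs2]
      decide
    rw [this]
    rfl
  rw [h2]
  have hP : ∀ p ∈ PP 2 y, p.Prime ∧ 2 < p := by
    intro p hp
    unfold PP at hp
    rw [mem_filter] at hp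
    exact hp.2
  have h3 : ∏ p ∈ PP 2 y, ((p : ℝ) - 2) ≤ ∏ p ∈ PP 2 y, ((singS s p).card : ℝ) := by
    refine prod_le_prod (fun p hp => ?_) (fun p hp => sing_card s p (hP p hp).1)
    have : (2 : ℝ) < p := by exact_mod_cast (hP p hp).2
    linarith
  have h4 : ∏ p ∈ PP 2 y, ((p : ℝ) - 2) =
      (∏ p ∈ PP 2 y, (p : ℝ)) * (∏ p ∈ PP 2 y, (1 - 1 / (p : ℝ))) ^ 2 *
        ∏ p ∈ PP 2 y, (1 - 1 / ((p : ℝ) - 1) ^ 2) := by
    rw [← prod_pow, ← prod_mul_distrib, ← prod_mul_distrib]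
    refine prod_congr rfl fun p hp => ?_
    have : (2 : ℝ) < p := by exact_mod_cast (hP p hp).2
    have h5 : (p : ℝ) ≠ 0 := by intro h6; linarith
    have h6 : (p : ℝ) - 1 ≠ 0 := by intro h7; linarith
    field_simp
    ring
  have h5 : (1 : ℝ) / 2 ≤ ∏ p ∈ PP 2 y, (1 - 1 / ((p : ℝ) - 1) ^ 2) := by
    refine le_trans ?_ (sing_half y hy)
    have hyr : (2 : ℝ) ≤ y := by exact_mod_cast hy
    rw [div_le_div_iff₀ (by norm_num) (by linarith)]
    linarith
  set U := (∏ p ∈ PP 2 y, (p : ℝ)) * (∏ p ∈ PP 2 y, (1 - 1 / (p : ℝ))) ^ 2 with hU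
  have hU0 : 0 ≤ U := by
    rw [hU]
    exact mul_nonneg (prod_nonneg fun p _ => Nat.cast_nonneg p) (sq_nonneg _)
  have h6 : U * (1 / 2) ≤ U * ∏ p ∈ PP 2 y, (1 - 1 / ((p : ℝ) - 1) ^ 2) :=
    mul_le_mul_of_nonneg_left h5 hU0
  rw [← h4] at h6
  calc ((2 : ℕ) : ℝ) * (∏ p ∈ PP 2 y, (p : ℝ)) * ((1 - 1 / ((2 : ℕ) : ℝ)) * ∏ p ∈ PP 2 y, (1 - 1 / (p : ℝ))) ^ 2
      = U * (1 / 2) := by
        rw [hU]
        push_cast
        ring
    _ ≤ _ := h6
    _ ≤ _ := h3
    _ = _ := by push_cast; ring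

private theorem sing_block (P : ℕ) (Q : ℕ → Prop) [DecidablePred Q]
    (hQ : Function.Periodic Q P) (n K : ℕ) :
    ((Ico n (n + K * P)).filter Q).card = K * P.count Q := by
  induction K with
  | zero => simp
  | succ K ih =>
    have h1 : Ico n (n + (K + 1) * P) = Ico n (n + K * P) ∪ Ico (n + K * P) (n + K * P + P) := by
      rw [Ico_union_Ico_eq_Ico (by omega) (by omega)]
      congr 1
      ring
    rw [h1, filter_union, card_union_of_disjoint, ih, Nat.filter_Ico_card_eq_of_periodic _ _ _ hQ]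
    · ring
    · refine disjoint_filter_filter ?_
      exact Ico_disjoint_Ico_consecutive _ _ _

theorem sing (y : ℕ) (hy : 2 ≤ y) : ∃ X₀ : ℕ, ∀ X : ℕ, X₀ ≤ X → ∀ Ω : ℕ → Finset ℕ,
    (∀ p ∈ PP 0 y, Ω p = {0}) → ∀ s : ℕ, Even s → 2 * X + X / 8 ≤ s → s + X / 8 ≤ 4 * X →
    (X : ℝ) / 16 ≤ ∑ x ∈ Ioc X (2 * X), mu Ω y X x * (if x ≤ s then mu Ω y X (s - x) else 0) := by
  classical
  set P := ∏ p ∈ PP 0 y, p with hP
  refine ⟨16 * (P + 3), fun X hX Ω hΩ s hs hs1 hs2 => ?_⟩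
  have hpr : ∀ p ∈ PP 0 y, p.Prime := by
    intro p hp
    unfold PP at hp
    rw [mem_filter] at hp
    exact hp.2.1
  have hP0 : 0 < P := by
    rw [hP]
    exact prod_pos fun p hp => (hpr p hp).pos
  -- the condition
  set Q : ℕ → Prop := fun x => ∀ p ∈ PP 0 y, x % p ∈ singS s p with hQ
  have hQper : Function.Periodic Q P := by
    intro x
    simp only [hQ, eq_iff_iff]
    refine forall₂_congr fun p hp => ?_
    have hd : p ∣ P := dvd_prod_of_mem (fun p : ℕ => p) hp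
    rw [Nat.add_mod, Nat.mod_eq_zero_of_dvd hd, add_zero, Nat.mod_mod]
  have hcount : P.count Q = ∏ p ∈ PP 0 y, (singS s p).card := by
    rw [Nat.count_eq_card_filter_range]
    exact GT.card_crt (PP 0 y) hpr (singS s) (fun r hr x hx => by
      unfold singS at hx
      rw [mem_filter, mem_range] at hx
      exact hx.1)
  -- the interval
  obtain ⟨n, hn1, hn2, hn3, hn4⟩ : ∃ n : ℕ, X < n ∧ s ≤ n + 2 * X ∧ n + (X / 8 - 1) ≤ 2 * X + 1 ∧
      n + (X / 8 - 1) + X ≤ s := by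
    rcases Nat.lt_or_ge (3 * X) s with h | h
    · exact ⟨s - 2 * X, by omega, by omega, by omega, by omega⟩
    · exact ⟨X + 1, by omega, by omega, by omega, by omega⟩
  set K := (X / 8 - 1) / P with hK
  have hKP : K * P ≤ X / 8 - 1 := Nat.div_mul_le_self _ _
  have hKP2 : X / 8 - 1 < K * P + P := by
    have := Nat.lt_div_mul_add (a := X / 8 - 1) hP0
    rw [hK]
    exact this
  have hcard := sing_block P Q hQper n K
  rw [hcount] at hcard
  set T := (Ico n (n + K * P)).filter Q with hT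
  have hV : V1 Ω y = ∏ p ∈ PP 0 y, (1 - 1 / (p : ℝ)) := by
    unfold V1
    refine prod_congr rfl fun p hp => ?_
    rw [hΩ p hp, card_singleton]
    push_cast
    rfl
  have hVpos : 0 < V1 Ω y := by
    rw [hV]
    refine prod_pos fun p hp => ?_
    have h2 : (2 : ℝ) ≤ p := by exact_mod_cast (hpr p hp).two_le
    rw [sub_pos, div_lt_one (by linarith)]
    linarith
  have hmu0 : ∀ x, 0 ≤ mu Ω y X x := by
    intro x
    unfold mu
    split_ifs
    · exact (inv_pos.mpr hVpos).le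
    · exact le_rfl
  have hsub : T ⊆ Ioc X (2 * X) := by
    intro x hx
    rw [hT, mem_filter, mem_Ico] at hx
    rw [mem_Ioc]
    omega
  have hterm : ∀ x ∈ T, (V1 Ω y)⁻¹ ^ 2 ≤ mu Ω y X x * (if x ≤ s then mu Ω y X (s - x) else 0) := by
    intro x hx
    have hxI := hsub hx
    rw [hT, mem_filter, mem_Ico] at hx
    obtain ⟨⟨hx1, hx2⟩, hx3⟩ := hx
    have hxs : x ≤ s := by omega
    rw [if_pos hxs]
    have e1 : mu Ω y X x = (V1 Ω y)⁻¹ := by
      unfold mu
      rw [if_pos]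
      unfold Pre
      rw [mem_filter]
      refine ⟨hxI, fun p hp => ?_⟩
      rw [hΩ p hp, mem_singleton]
      have := hx3 p hp
      unfold singS at this
      rw [mem_filter] at this
      exact this.2.1
    have e2 : mu Ω y X (s - x) = (V1 Ω y)⁻¹ := by
      unfold mu
      rw [if_pos]
      unfold Pre
      rw [mem_filter, mem_Ioc]
      refine ⟨⟨by omega, by omega⟩, fun p hp => ?_⟩
      rw [hΩ p hp, mem_singleton]
      have h4 := hx3 p hp
      unfold singS at h4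
      rw [mem_filter] at h4
      intro h5
      apply h4.2.2
      exact (Nat.modEq_iff_dvd' hxs).mpr (Nat.dvd_of_mod_eq_zero h5)
    rw [e1, e2, pow_two]
  have h1 : ((T.card : ℕ) : ℝ) * (V1 Ω y)⁻¹ ^ 2 ≤
      ∑ x ∈ Ioc X (2 * X), mu Ω y X x * (if x ≤ s then mu Ω y X (s - x) else 0) := by
    calc ((T.card : ℕ) : ℝ) * (V1 Ω y)⁻¹ ^ 2 = ∑ x ∈ T, (V1 Ω y)⁻¹ ^ 2 := by
          rw [sum_const, nsmul_eq_mul]
      _ ≤ ∑ x ∈ T, mu Ω y X x * (if x ≤ s then mu Ω y X (s - x) else 0) := sum_le_sum hterm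
      _ ≤ _ := by
          refine sum_le_sum_of_subset_of_nonneg hsub fun x _ _ => ?_
          refine mul_nonneg (hmu0 x) ?_
          split_ifs
          · exact hmu0 _
          · exact le_rfl
  refine le_trans ?_ h1
  have h2 := sing_prod y hy s hs
  rw [← hV] at h2
  have h3 : (P : ℝ) * (V1 Ω y) ^ 2 ≤ ((∏ p ∈ PP 0 y, (singS s p).card : ℕ) : ℝ) := by
    rw [hP]
    push_cast
    exact h2
  have h4 : (K : ℝ) * P ≤ ((T.card : ℕ) : ℝ) * (V1 Ω y)⁻¹ ^ 2 := by
    rw [hcard]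
    rw [inv_pow, ← div_eq_mul_inv, le_div_iff₀ (by positivity)]
    push_cast
    push_cast at h3
    have := mul_le_mul_of_nonneg_left h3 (Nat.cast_nonneg K : (0 : ℝ) ≤ (K : ℝ))
    calc (K : ℝ) * P * (V1 Ω y) ^ 2 = K * (P * (V1 Ω y) ^ 2) := by ring
      _ ≤ _ := this
  refine le_trans ?_ h4
  have h5 : X ≤ 16 * (K * P) := by
    omega
  have h6 : (X : ℝ) ≤ 16 * (K * P) := by exact_mod_cast h5
  linarith

end Pool.Agent.Lib.SG
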