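import Pool.Agent.Lib.SG.Clus
import Pool.Agent.Lib.SG.Amft

/-!
# SG-Step: from the adversary's weights to the presieved integers

PROOF. φ = cor E u, 0 ≤ φ ≤ Cu X (∑_{s ∈ E} u(s - x) ≤ ∑ u). `∑ am φ = ∑_i ∑_x fa_i(x) φ(x + h i)` (`am_supp`) `≥ ∑_i ∑_x fa_i φ(x) - k ε₁ X²` (hypothesis hsh for `f = fa i ≤ w`).
`∑_i fa_i(x) = w x a(x)`, a(x) = the number of i with x + h i ∈ A prime; `clus`: `k a ≥ g - (m-1) - k bad`, g = the number of prime x + h i, `w g ≥ ∑_i v_i` (vw, vp, w0). So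
`∑_i ∑ fa_i φ ≥ (1/k) (∑_i ∑ v_i φ - (m-1) ∑ w φ) - ∑ w bad φ`, last sum `≤ Cu X κ X` (`bad`). Replace `∑ v_i φ` by `M'_i ∑ mu φ` and `∑ w φ` by `M ∑ mu φ` (errors ε₂ X² each, hcw, hcv):
`∑ M'_i - (m-1) M ≥ m + 1 - κ - (m-1)(1+κ) = 2 - m κ ≥ 1`, `∑ mu φ ≥ 0`. Errors: `(k + m - 1)/k ε₂ ≤ m ε₂`.
-/

set_option autoImplicit false

open Finset

namespace Pool.Agent.Lib.SG

open Pool.Agent.Lib.MT

private theorem step_cor_nonneg (E : Finset ℕ) (u : ℕ → ℝ) (hu0 : ∀ n, 0 ≤ u n) (x : ℕ) :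
    0 ≤ cor E u x := by
  unfold cor
  refine Finset.sum_nonneg fun s _ => ?_
  split_ifs
  · exact hu0 _
  · exact le_refl _

private theorem step_cor_le (E : Finset ℕ) (u : ℕ → ℝ) (X : ℕ) (hu0 : ∀ n, 0 ≤ u n)
    (hu : ∀ n, n ∉ Ioc X (3 * X) → u n = 0) (x : ℕ) :
    cor E u x ≤ ∑ n ∈ Ioc X (3 * X), u n := by
  classical
  unfold cor
  rw [← Finset.sum_filter]
  have h1 : ∑ s ∈ E.filter (fun s => x ≤ s), u (s - x) =
      ∑ n ∈ (E.filter (fun s => x ≤ s)).image (fun s => s - x), u n := by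
    rw [Finset.sum_image]
    intro a ha b hb hab
    have ha' := (Finset.mem_filter.1 ha).2
    have hb' := (Finset.mem_filter.1 hb).2
    simp only at hab
    omega
  rw [h1]
  rw [← Finset.sum_filter_add_sum_filter_not _ (fun n => n ∈ Ioc X (3 * X))]
  have h2 : ∑ n ∈ ((E.filter (fun s => x ≤ s)).image (fun s => s - x)).filter
      (fun n => ¬ n ∈ Ioc X (3 * X)), u n = 0 :=
    Finset.sum_eq_zero fun n hn => hu n (Finset.mem_filter.1 hn).2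
  rw [h2, add_zero]
  refine Finset.sum_le_sum_of_subset_of_nonneg ?_ (fun n _ _ => hu0 n)
  intro n hn
  exact (Finset.mem_filter.1 hn).2

theorem step {m k H z X c : ℕ} (hm : 1 ≤ m) (hk : 1 ≤ k) (hX : 1 ≤ X) (hHX : H ≤ X) (h : Fin k → ℕ)
    (hinj : Function.Injective h) (hh : ∀ i, 1 ≤ h i ∧ h i ≤ H) (w : ℕ → ℝ) (v : Fin k → ℕ → ℝ)
    (M : ℝ) (M' : Fin k → ℝ) (κ : ℝ) (hκ : 0 ≤ κ) (hmκ : m * κ ≤ 1) (hW : Wt m k H z X c h w v M M' κ)
    (A : Set ℕ) (hA : Hit m H (2 * X) A) (E : Finset ℕ) (u : ℕ → ℝ) (hu0 : ∀ n, 0 ≤ u n)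
    (hu : ∀ n, n ∉ Ioc X (3 * X) → u n = 0) (Cu : ℝ) (hCu : ∑ n ∈ Ioc X (3 * X), u n ≤ Cu * X)
    (ρ : ℕ → ℝ) (hρ : ∀ x, 0 ≤ ρ x) (ε₁ ε₂ : ℝ) (hε₁ : 0 ≤ ε₁) (hε₂ : 0 ≤ ε₂)
    (hsh : ∀ i, ∀ f : ℕ → ℝ, (∀ x, 0 ≤ f x ∧ f x ≤ w x) →
      |∑ x ∈ Ioc X (2 * X), f x * (cor E u (x + h i) - cor E u x)| ≤ ε₁ * X ^ 2)
    (hcw : |∑ x ∈ Ioc X (2 * X), (w x - M * ρ x) * cor E u x| ≤ ε₂ * X ^ 2)
    (hcv : ∀ i, |∑ x ∈ Ioc X (2 * X), (v i x - M' i * ρ x) * cor E u x| ≤ ε₂ * X ^ 2) :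
    (1 / k) * ∑ x ∈ Ioc X (2 * X), ρ x * cor E u x - (k * ε₁ + m * ε₂ + κ * Cu) * X ^ 2 ≤
      ∑ n ∈ Ioc X (3 * X), am A h w n * cor E u n := by
  classical
  have hk0 : (0 : ℝ) < k := by exact_mod_cast hk
  have hk1 : (1 : ℝ) ≤ k := by exact_mod_cast hk
  have hm1 : (1 : ℝ) ≤ m := by exact_mod_cast hm
  have hX0 : (0 : ℝ) < X := by exact_mod_cast hX
  have hws : ∀ x, x ∉ Ioc X (2 * X) → w x = 0 := by
    intro x hx
    refine hW.ws x fun hx' => hx ?_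
    exact (Finset.mem_filter.1 hx').1
  have hhX : ∀ i, h i ≤ X := fun i => (hh i).2.trans hHX
  set φ : ℕ → ℝ := cor E u with hφdef
  have hφ0 : ∀ x, 0 ≤ φ x := step_cor_nonneg E u hu0
  have hφ1 : ∀ x, φ x ≤ Cu * X := fun x => (step_cor_le E u X hu0 hu x).trans hCu
  have ham := (am_supp A h w X hhX hws hW.w0).2.2.1 φ
  rw [ham]
  -- the shifts
  have hfa : ∀ i x, 0 ≤ fa A h w i x ∧ fa A h w i x ≤ w x := by
    intro i x
    unfold fa
    split_ifs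
    · exact ⟨hW.w0 x, le_refl _⟩
    · exact ⟨le_refl _, hW.w0 x⟩
  have h1 : ∀ i, ∑ x ∈ Ioc X (2 * X), fa A h w i x * φ x - ε₁ * X ^ 2 ≤
      ∑ x ∈ Ioc X (2 * X), fa A h w i x * φ (x + h i) := by
    intro i
    have h2 := (abs_le.1 (hsh i (fa A h w i) (hfa i))).1
    have h3 : ∑ x ∈ Ioc X (2 * X), fa A h w i x * (φ (x + h i) - φ x) =
        ∑ x ∈ Ioc X (2 * X), fa A h w i x * φ (x + h i) -
          ∑ x ∈ Ioc X (2 * X), fa A h w i x * φ x := by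
      rw [← Finset.sum_sub_distrib]
      exact Finset.sum_congr rfl fun x _ => by ring
    rw [h3] at h2
    linarith
  have h4 : ∑ i, ∑ x ∈ Ioc X (2 * X), fa A h w i x * φ x - k * (ε₁ * X ^ 2) ≤
      ∑ i, ∑ x ∈ Ioc X (2 * X), fa A h w i x * φ (x + h i) := by
    have h5 := Finset.sum_le_sum fun i (_ : i ∈ (univ : Finset (Fin k))) => h1 i
    rw [Finset.sum_sub_distrib] at h5
    simpa using h5
  -- the clusters, pointwise
  have h6 : ∀ x ∈ Ioc X (2 * X),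
      (1 / (k : ℝ)) * ((∑ i, v i x) * φ x - (m - 1) * (w x * φ x)) -
        (Cu * X) * (w x * (((Icc 1 H).filter (fun t => (∀ i, t ≠ h i) ∧ (x + t).Prime)).card : ℝ)) ≤
      ∑ i, fa A h w i x * φ x := by
    intro x hx
    have hc := clus hm h hinj hh A hA x hx
    set g : ℝ := ((univ.filter (fun i : Fin k => (x + h i).Prime)).card : ℝ) with hg
    set b : ℝ := (((Icc 1 H).filter (fun t => (∀ i, t ≠ h i) ∧ (x + t).Prime)).card : ℝ) with hb
    set a : ℝ := ((univ.filter (fun i : Fin k => x + h i ∈ A ∧ (x + h i).Prime)).card : ℝ) with ha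
    have hb0 : 0 ≤ b := Nat.cast_nonneg _
    have e1 : ∑ i, fa A h w i x * φ x = a * (w x * φ x) := by
      rw [← Finset.sum_mul]
      have : ∑ i, fa A h w i x = a * w x := by
        unfold fa
        rw [← Finset.sum_filter, Finset.sum_const, nsmul_eq_mul]
      rw [this]
      ring
    have e2 : ∑ i, v i x ≤ g * w x := by
      have : ∀ i, v i x ≤ if (x + h i).Prime then w x else 0 := by
        intro i
        split_ifs with hp
        · exact hW.vw i x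
        · by_contra hcon
          exact hp (hW.vp i x (fun h0 => hcon (h0 ▸ le_refl _)))
      calc ∑ i, v i x ≤ ∑ i, (if (x + h i).Prime then w x else 0) :=
            Finset.sum_le_sum fun i _ => this i
        _ = g * w x := by rw [← Finset.sum_filter, Finset.sum_const, nsmul_eq_mul]
    rw [e1]
    have hwφ : 0 ≤ w x * φ x := mul_nonneg (hW.w0 x) (hφ0 x)
    have e3 : (g - (m - 1) - k * b) * (w x * φ x) ≤ (k * a) * (w x * φ x) :=
      mul_le_mul_of_nonneg_right hc hwφ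
    have e4 : (∑ i, v i x) * φ x ≤ g * (w x * φ x) := by
      calc (∑ i, v i x) * φ x ≤ (g * w x) * φ x := mul_le_mul_of_nonneg_right e2 (hφ0 x)
        _ = g * (w x * φ x) := by ring
    have e5 : b * (w x * φ x) ≤ (Cu * X) * (w x * b) := by
      calc b * (w x * φ x) = (w x * b) * φ x := by ring
        _ ≤ (w x * b) * (Cu * X) := mul_le_mul_of_nonneg_left (hφ1 x) (mul_nonneg (hW.w0 x) hb0)
        _ = (Cu * X) * (w x * b) := by ring
    have e6 : (1 / (k : ℝ)) * ((∑ i, v i x) * φ x - (m - 1) * (w x * φ x)) ≤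
        (1 / (k : ℝ)) * ((k * a) * (w x * φ x) + k * (b * (w x * φ x))) := by
      refine mul_le_mul_of_nonneg_left ?_ (by positivity)
      linarith
    have e7 : (1 / (k : ℝ)) * ((k * a) * (w x * φ x) + k * (b * (w x * φ x))) =
        a * (w x * φ x) + b * (w x * φ x) := by
      field_simp
    rw [e7] at e6
    linarith
  have h7 := Finset.sum_le_sum h6
  rw [Finset.sum_sub_distrib, ← Finset.mul_sum, ← Finset.mul_sum, Finset.sum_sub_distrib,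
    ← Finset.mul_sum] at h7
  have h8 : ∑ x ∈ Ioc X (2 * X), ∑ i, fa A h w i x * φ x =
      ∑ i, ∑ x ∈ Ioc X (2 * X), fa A h w i x * φ x := Finset.sum_comm
  rw [h8] at h7
  have hCu0 : 0 ≤ Cu * X := (hφ0 0).trans (hφ1 0)
  have h9 : (Cu * X) * ∑ x ∈ Ioc X (2 * X), w x *
      (((Icc 1 H).filter (fun t => (∀ i, t ≠ h i) ∧ (x + t).Prime)).card : ℝ) ≤
      (Cu * X) * (κ * X) := mul_le_mul_of_nonneg_left hW.bad hCu0
  set R : ℝ := ∑ x ∈ Ioc X (2 * X), ρ x * φ x with hR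
  have hR0 : 0 ≤ R := Finset.sum_nonneg fun x _ => mul_nonneg (hρ x) (hφ0 x)
  have h10 : ∑ x ∈ Ioc X (2 * X), w x * φ x ≤ M * R + ε₂ * X ^ 2 := by
    have h11 := (abs_le.1 hcw).2
    have h12 : ∑ x ∈ Ioc X (2 * X), (w x - M * ρ x) * φ x =
        ∑ x ∈ Ioc X (2 * X), w x * φ x - M * R := by
      rw [hR, Finset.mul_sum, ← Finset.sum_sub_distrib]
      exact Finset.sum_congr rfl fun x _ => by ring
    rw [h12] at h11
    linarith
  have h13 : ∀ i, M' i * R - ε₂ * X ^ 2 ≤ ∑ x ∈ Ioc X (2 * X), v i x * φ x := by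
    intro i
    have h11 := (abs_le.1 (hcv i)).1
    have h12 : ∑ x ∈ Ioc X (2 * X), (v i x - M' i * ρ x) * φ x =
        ∑ x ∈ Ioc X (2 * X), v i x * φ x - M' i * R := by
      rw [hR, Finset.mul_sum, ← Finset.sum_sub_distrib]
      exact Finset.sum_congr rfl fun x _ => by ring
    rw [h12] at h11
    linarith
  have h14 : (∑ i, M' i) * R - k * (ε₂ * X ^ 2) ≤
      ∑ x ∈ Ioc X (2 * X), (∑ i, v i x) * φ x := by
    have h15 := Finset.sum_le_sum fun i (_ : i ∈ (univ : Finset (Fin k))) => h13 i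
    rw [Finset.sum_sub_distrib, ← Finset.sum_mul] at h15
    have h16 : ∑ x ∈ Ioc X (2 * X), (∑ i, v i x) * φ x =
        ∑ i, ∑ x ∈ Ioc X (2 * X), v i x * φ x := by
      rw [Finset.sum_comm]
      exact Finset.sum_congr rfl fun x _ => by rw [Finset.sum_mul]
    rw [h16]
    simpa using h15
  have h17 : (1 : ℝ) ≤ (∑ i, M' i) - (m - 1) * M := by
    have h18 := hW.M'2
    have h19 : ((m : ℝ) - 1) * M ≤ (m - 1) * (1 + κ) :=
      mul_le_mul_of_nonneg_left hW.M1 (by linarith)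
    nlinarith
  have h20 : R - (k + (m - 1)) * (ε₂ * X ^ 2) ≤
      ∑ x ∈ Ioc X (2 * X), (∑ i, v i x) * φ x - (m - 1) * ∑ x ∈ Ioc X (2 * X), w x * φ x := by
    have h21 : ((m : ℝ) - 1) * ∑ x ∈ Ioc X (2 * X), w x * φ x ≤ (m - 1) * (M * R + ε₂ * X ^ 2) :=
      mul_le_mul_of_nonneg_left h10 (by linarith)
    have h22 : R ≤ ((∑ i, M' i) - (m - 1) * M) * R := by
      calc R = 1 * R := (one_mul R).symm
        _ ≤ _ := mul_le_mul_of_nonneg_right h17 hR0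
    nlinarith
  have h23 : (1 / (k : ℝ)) * (R - (k + (m - 1)) * (ε₂ * X ^ 2)) ≤
      (1 / (k : ℝ)) * (∑ x ∈ Ioc X (2 * X), (∑ i, v i x) * φ x -
        (m - 1) * ∑ x ∈ Ioc X (2 * X), w x * φ x) :=
    mul_le_mul_of_nonneg_left h20 (by positivity)
  have h24 : (1 / (k : ℝ)) * ((k + (m - 1)) * (ε₂ * X ^ 2)) ≤ m * (ε₂ * X ^ 2) := by
    rw [one_div, ← mul_assoc]
    refine mul_le_mul_of_nonneg_right ?_ (by positivity)
    rw [inv_mul_le_iff₀ hk0]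
    nlinarith [mul_nonneg (sub_nonneg.2 hm1) (sub_nonneg.2 hk1)]
  rw [mul_sub] at h23
  have h25 : (k * ε₁ + m * ε₂ + κ * Cu) * (X : ℝ) ^ 2 =
      k * (ε₁ * X ^ 2) + m * (ε₂ * X ^ 2) + (Cu * X) * (κ * X) := by ring
  rw [h25]
  linarith

end Pool.Agent.Lib.SG
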