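import Pool.Agent.Lib.SG.Defs
import Pool.Agent.Lib.MP_7b7e48_nt.GT.ExpTools

/-!
# SG-Tup: a tuple of multiples of `P` close to the integers at few given frequencies

PROOF. J with `2π k/J ≤ ρ`, J ≥ 1; `H = k P J^(n₀)`. Simultaneous Dirichlet by pigeonhole: the J^(n₀) + 1 vectors `(fract(ξ P q/N))_{ξ ∈ Ξ}`, q = 0..J^(n₀), two of them in the same box of side 1/J: q ∈ [1, J^(n₀)]
with `|ξ P q/N - integer| ≤ 1/J` for all ξ ∈ Ξ (|Ξ| ≤ n₀; if |Ξ| < n₀ even fewer boxes). h i = (i + 1) P q: injective (P ≥ 1), 1 ≤ h i ≤ k P q ≤ H, P ∣ h i, and `‖e(ξ h_i/N) - 1‖ ≤ 2π (i+1)/J ≤ ρ`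
(`e(integer) = 1`, `‖e(x) - 1‖ ≤ 2π |x|`).
-/

set_option autoImplicit false

open Finset

namespace Pool.Agent.Lib.SG

private theorem dir (n₀ J : ℕ) (hJ : 1 ≤ J) (α : ℕ → ℝ) (Ξ : Finset ℕ) (hΞ : Ξ.card ≤ n₀) :
    ∃ q : ℕ, 1 ≤ q ∧ q ≤ J ^ n₀ ∧ ∀ ξ ∈ Ξ, ∃ n : ℤ, |α ξ * q - n| ≤ 1 / J := by
  classical
  have hJ' : (0 : ℝ) < J := by exact_mod_cast hJ
  have h1 : (Fintype.piFinset (fun (_ : Ξ) => range J)).card < (range (J ^ n₀ + 1)).card := by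
    rw [Fintype.card_piFinset, Finset.card_range]
    simp only [Finset.card_range, Finset.prod_const, Finset.card_univ, Fintype.card_coe]
    have := Nat.pow_le_pow_right hJ hΞ
    omega
  obtain ⟨a, ha, b, hb, hab, hfab⟩ := Finset.exists_ne_map_eq_of_card_lt_of_maps_to h1
    (f := fun q => fun (ξ : Ξ) => ⌊(J : ℝ) * Int.fract (α ξ * q)⌋₊) (by
      intro q _
      rw [Finset.mem_coe, Fintype.mem_piFinset]
      intro ξ
      rw [Finset.mem_range]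
      show ⌊(J : ℝ) * Int.fract (α ξ * q)⌋₊ < J
      rw [Nat.floor_lt (by have := Int.fract_nonneg (α ξ * (q : ℝ)); positivity)]
      have := Int.fract_lt_one (α ξ * (q : ℝ))
      nlinarith)
  -- the difference
  have key : ∀ a b : ℕ, a < b → b ≤ J ^ n₀ →
      (∀ ξ : Ξ, ⌊(J : ℝ) * Int.fract (α ξ * a)⌋₊ = ⌊(J : ℝ) * Int.fract (α ξ * b)⌋₊) →
      ∃ q : ℕ, 1 ≤ q ∧ q ≤ J ^ n₀ ∧ ∀ ξ ∈ Ξ, ∃ n : ℤ, |α ξ * q - n| ≤ 1 / J := by
    intro a b hab hb hfl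
    refine ⟨b - a, by omega, by omega, ?_⟩
    intro ξ hξ
    refine ⟨⌊α ξ * b⌋ - ⌊α ξ * a⌋, ?_⟩
    have h2 := hfl ⟨ξ, hξ⟩
    simp only at h2
    have e1 : (0 : ℝ) ≤ (J : ℝ) * Int.fract (α ξ * a) := by
      have := Int.fract_nonneg (α ξ * (a : ℝ)); positivity
    have e2 : (0 : ℝ) ≤ (J : ℝ) * Int.fract (α ξ * b) := by
      have := Int.fract_nonneg (α ξ * (b : ℝ)); positivity
    have f1 := Nat.floor_le e1
    have f2 := Nat.floor_le e2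
    have f3 := Nat.lt_floor_add_one ((J : ℝ) * Int.fract (α ξ * a))
    have f4 := Nat.lt_floor_add_one ((J : ℝ) * Int.fract (α ξ * b))
    rw [h2] at f1 f3
    have g1 : α ξ * ((b - a : ℕ) : ℝ) - ((⌊α ξ * b⌋ - ⌊α ξ * a⌋ : ℤ) : ℝ) =
        Int.fract (α ξ * b) - Int.fract (α ξ * a) := by
      rw [Nat.cast_sub hab.le]
      unfold Int.fract
      push_cast
      ring
    rw [g1, abs_le, le_div_iff₀ hJ', neg_le, neg_sub, le_div_iff₀ hJ']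
    constructor <;> nlinarith
  rw [Finset.mem_range] at ha hb
  rcases lt_or_gt_of_ne hab with h | h
  · exact key a b h (by omega) (fun ξ => congrFun hfab ξ)
  · exact key b a h (by omega) (fun ξ => (congrFun hfab ξ).symm)

theorem tup (n₀ k P : ℕ) (hP : 1 ≤ P) (ρ : ℝ) (hρ : 0 < ρ) : ∃ H : ℕ, ∀ (N : ℝ) (Ξ : Finset ℕ), Ξ.card ≤ n₀ →
    ∃ h : Fin k → ℕ, Function.Injective h ∧ (∀ i, 1 ≤ h i ∧ h i ≤ H) ∧ (∀ i, P ∣ h i) ∧
      ∀ ξ ∈ Ξ, ∀ i, ‖GT.e ((ξ : ℝ) / N * h i) - 1‖ ≤ ρ := by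
  obtain ⟨J, hJ⟩ : ∃ J : ℕ, 2 * Real.pi * k / ρ + 1 ≤ J := exists_nat_ge _
  have hk0 : (0 : ℝ) ≤ 2 * Real.pi * k / ρ := by positivity
  have hJ' : (1 : ℝ) ≤ J := by linarith
  have hJ1 : 1 ≤ J := by exact_mod_cast hJ'
  have hJ2 : 2 * Real.pi * k / J ≤ ρ := by
    rw [div_le_iff₀ (by linarith)]
    have : 2 * Real.pi * k / ρ ≤ J := by linarith
    rw [div_le_iff₀ hρ] at this
    linarith
  refine ⟨k * P * J ^ n₀, ?_⟩
  intro N Ξ hΞ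
  obtain ⟨q, hq1, hq2, hq⟩ := dir n₀ J hJ1 (fun ξ => (ξ : ℝ) / N * P) Ξ hΞ
  refine ⟨fun i => (i.val + 1) * P * q, ?_, ?_, ?_, ?_⟩
  · intro i j hij
    simp only at hij
    have h1 : 0 < P * q := Nat.mul_pos hP hq1
    rw [mul_assoc, mul_assoc] at hij
    have := Nat.eq_of_mul_eq_mul_right h1 hij
    apply Fin.ext
    omega
  · intro i
    have h1 : 0 < P * q := Nat.mul_pos hP hq1
    constructor
    · show 0 < (i.val + 1) * P * q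
      rw [mul_assoc]
      exact Nat.mul_pos (Nat.succ_pos _) h1
    · exact Nat.mul_le_mul (Nat.mul_le_mul_right _ i.isLt) hq2
  · intro i
    exact Dvd.intro_left ((i.val + 1)) (by rfl) |>.mul_right q
  · intro ξ hξ i
    obtain ⟨n, hn⟩ := hq ξ hξ
    obtain ⟨d, hd⟩ : ∃ d : ℝ, d = (ξ : ℝ) / N * P * q - n := ⟨_, rfl⟩
    rw [← hd] at hn
    have h1 : (ξ : ℝ) / N * (((i.val + 1) * P * q : ℕ) : ℝ) = ((i.val + 1 : ℕ) : ℝ) * d + (((i.val + 1 : ℕ) * n : ℤ) : ℝ) := by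
      rw [hd]
      push_cast
      ring
    show ‖GT.e ((ξ : ℝ) / N * (((i.val + 1) * P * q : ℕ) : ℝ)) - 1‖ ≤ ρ
    rw [h1, GT.e_add_int]
    refine (GT.RE.norm_e_sub_one_le _).trans ?_
    refine le_trans ?_ hJ2
    rw [abs_mul, abs_of_nonneg (by positivity : (0 : ℝ) ≤ ((i.val + 1 : ℕ) : ℝ))]
    have h2 : ((i.val + 1 : ℕ) : ℝ) ≤ k := by exact_mod_cast i.isLt
    have h3 : ((i.val + 1 : ℕ) : ℝ) * |d| ≤ k * (1 / J) := mul_le_mul h2 hn (abs_nonneg _) (by positivity)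
    calc 2 * Real.pi * (((i.val + 1 : ℕ) : ℝ) * |d|) ≤ 2 * Real.pi * (k * (1 / J)) :=
          mul_le_mul_of_nonneg_left h3 (by positivity)
      _ = 2 * Real.pi * k / J := by ring

end Pool.Agent.Lib.SG
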