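import Pool.Agent.Lib.SG.Weights
import Pool.Agent.Lib.SG.Cls
import Pool.Agent.Lib.SG.Shf
import Pool.Agent.Lib.SG.Step
import Pool.Agent.Lib.SG.Sing
import Pool.Agent.Lib.SG.Tup

/-!
# SG-One: one scale (helper10)

PROOF. ε₁ = ε/(192 k³), ε₂ = ε/(192 m k²), κ small. y from `cls`, P = (max y (2k))!, η, ρ₀ from `shf`, H from `tup`. h' i = (i + 1) P, weights w' (depending on X); Ξ from `shf` for
w', h', B; h from `tup`; weights w. `step` for h, w, A, u = am B h' w', then `cor_symm`, then `step` for h', w', B, u = mu y (shifts: `per`), then `sing`. Upper bound: `ups`.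
-/

set_option autoImplicit false

open Finset

namespace Pool.Agent.Lib.SG

open Pool.Agent.Lib.MT

/-- one application of `step` -/
private theorem One_app {m k H z X c : ℕ} (hm : 1 ≤ m) (hk : 1 ≤ k) (hX : 1 ≤ X) (hHX : H ≤ X)
    (hlog : 1 ≤ Real.log X) (h : Fin k → ℕ)
    (hinj : Function.Injective h) (hh : ∀ i, 1 ≤ h i ∧ h i ≤ H) (w : ℕ → ℝ) (v : Fin k → ℕ → ℝ)
    (M : ℝ) (M' : Fin k → ℝ) (κ : ℝ) (hκ : 0 ≤ κ) (hκ1 : κ ≤ 1) (hmκ : m * κ ≤ 1)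
    (hW : Wt m k H z X c h w v M M' κ)
    (A : Set ℕ) (hA : Hit m H (2 * X) A) (E : Finset ℕ) (u : ℕ → ℝ) (hu0 : ∀ n, 0 ≤ u n)
    (hu : ∀ n, n ∉ Ioc X (3 * X) → u n = 0) (Cu : ℝ) (hCu : ∑ n ∈ Ioc X (3 * X), u n ≤ Cu * X)
    (ρ : ℕ → ℝ) (hρ : ∀ x, 0 ≤ ρ x) (ε₁ ε₂ : ℝ) (hε₁ : 0 ≤ ε₁) (hε₂ : 0 ≤ ε₂)
    (hsh : ∀ i, ∀ f : ℕ → ℝ, (∀ x, 0 ≤ f x ∧ f x ≤ w x) →
      |∑ x ∈ Ioc X (2 * X), f x * (cor E u (x + h i) - cor E u x)| ≤ ε₁ * X ^ 2)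
    (hcl : ∀ (w : ℕ → ℝ) (M : ℝ), 0 ≤ M → M ≤ 2 → (∀ x, 0 ≤ w x) →
      (∀ x, x ∉ Ioc X (2 * X) → w x = 0) →
      (∀ α : ℝ, ‖ES w X α - M * ES (mu (Om h) z X) X α‖ ≤ X / (Real.log X) ^ (4 * c)) →
      ∑ x ∈ Ioc X (2 * X), (w x) ^ 2 ≤ X * (Real.log X) ^ c →
      |∑ x ∈ Ioc X (2 * X), (w x - M * ρ x) * cor E u x| ≤ ε₂ * X ^ 2) :
    (1 / k) * ∑ x ∈ Ioc X (2 * X), ρ x * cor E u x - (k * ε₁ + m * ε₂ + κ * Cu) * X ^ 2 ≤
      ∑ n ∈ Ioc X (3 * X), am A h w n * cor E u n := by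
  have hws : ∀ x, x ∉ Ioc X (2 * X) → w x = 0 := fun x hx =>
    hW.ws x (fun hx' => hx ((filter_subset _ _) hx'))
  refine step hm hk hX hHX h hinj hh w v M M' κ hκ hmκ hW A hA E u hu0 hu Cu hCu ρ hρ ε₁ ε₂
    hε₁ hε₂ hsh (hcl w M hW.M0 (by linarith [hW.M1]) hW.w0 hws hW.clw hW.l2) (fun i => ?_)
  refine hcl (v i) (M' i) (hW.M'0 i) (by linarith [hW.M'1 i]) (hW.v0 i) (fun x hx => ?_) (hW.clv i) ?_
  · have h1 := hW.vw i x
    rw [hws x hx] at h1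
    exact le_antisymm h1 (hW.v0 i x)
  · refine le_trans (sum_le_sum fun x _ => ?_) hW.l2
    exact pow_le_pow_left₀ (hW.v0 i x) (hW.vw i x) 2

private theorem One_mu (Ω Ω' : ℕ → Finset ℕ) (y X : ℕ) (h : ∀ p ∈ PP 0 y, Ω p = Ω' p) :
    mu Ω y X = mu Ω' y X := by
  have h1 : Pre Ω y X = Pre Ω' y X := by
    unfold Pre
    refine filter_congr fun x _ => ?_
    exact ⟨fun h' p hp => by rw [← h p hp]; exact h' p hp, fun h' p hp => by rw [h p hp]; exact h' p hp⟩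
  have h2 : V1 Ω y = V1 Ω' y := by
    unfold V1
    exact prod_congr rfl fun p hp => by rw [h p hp]
  funext x
  unfold mu
  rw [h1, h2]

private theorem One_Q (X y : ℕ) (Ω : ℕ → Finset ℕ) (E : Finset ℕ)
    (hs : ∀ s ∈ E, (X : ℝ) / 16 ≤ ∑ x ∈ Ioc X (2 * X), mu Ω y X x * (if x ≤ s then mu Ω y X (s - x) else 0)) :
    (X : ℝ) / 16 * E.card ≤ ∑ x ∈ Ioc X (2 * X), mu Ω y X x * cor E (mu Ω y X) x := by
  have h1 : ∑ x ∈ Ioc X (2 * X), mu Ω y X x * cor E (mu Ω y X) x =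
      ∑ s ∈ E, ∑ x ∈ Ioc X (2 * X), mu Ω y X x * (if x ≤ s then mu Ω y X (s - x) else 0) := by
    rw [sum_comm]
    refine sum_congr rfl fun x _ => ?_
    unfold cor
    rw [mul_sum]
  rw [h1]
  calc (X : ℝ) / 16 * E.card = ∑ s ∈ E, (X : ℝ) / 16 := by rw [sum_const, nsmul_eq_mul]; ring
    _ ≤ _ := sum_le_sum hs

private theorem One_supp {k : ℕ} (A : Set ℕ) (h : Fin k → ℕ) (w : ℕ → ℝ) (n : ℕ)
    (hn : am A h w n ≠ 0) : n ∈ A ∧ n.Prime := by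
  by_contra hc
  apply hn
  unfold am
  refine sum_eq_zero fun i _ => ?_
  rw [if_neg]
  rintro ⟨_, h2, h3⟩
  exact hc ⟨h2, h3⟩

private theorem One_num (k W e X S R l c : ℝ) (hk : 1 ≤ k) (he : 0 < e) (hX : 0 < X)
    (hl : 96 * k ^ 4 / e < l) (hl0 : 0 < l)
    (hW : e / (32 * k ^ 2) * X ^ 2 ≤ W) (hup : W ^ 2 ≤ R * S) (hc : 0 < c)
    (hR : R ≤ 8 * X * (X / (c * l ^ 2))) (hR0 : 0 ≤ R) (hS : S ≤ k ^ 4 * X ^ 2 * c) : False := by
  have h1 : (e / (32 * k ^ 2) * X ^ 2) ^ 2 ≤ W ^ 2 := pow_le_pow_left₀ (by positivity) hW 2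
  have h2 : R * S ≤ 8 * X * (X / (c * l ^ 2)) * (k ^ 4 * X ^ 2 * c) := by
    apply mul_le_mul hR hS _ (by positivity)
    by_contra hneg
    push Not at hneg
    have : R * S ≤ 0 := mul_nonpos_of_nonneg_of_nonpos hR0 hneg.le
    have h3 : 0 < (e / (32 * k ^ 2) * X ^ 2) ^ 2 := by positivity
    linarith
  have h3 : 8 * X * (X / (c * l ^ 2)) * (k ^ 4 * X ^ 2 * c) = 8 * k ^ 4 * X ^ 4 / l ^ 2 := by
    field_simp
  have h4 : (e / (32 * k ^ 2) * X ^ 2) ^ 2 = e ^ 2 / (1024 * k ^ 4) * X ^ 4 := by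
    field_simp
    ring
  have h5 : e ^ 2 / (1024 * k ^ 4) * X ^ 4 ≤ 8 * k ^ 4 * X ^ 4 / l ^ 2 := by
    rw [← h4, ← h3]
    exact h1.trans (hup.trans h2)
  have h6 : e ^ 2 * l ^ 2 ≤ 8192 * k ^ 8 := by
    have hX4 : 0 < X ^ 4 := by positivity
    rw [le_div_iff₀ (by positivity)] at h5
    have h7 : e ^ 2 * l ^ 2 * (X ^ 4 / (1024 * k ^ 4)) ≤ 8192 * k ^ 8 * (X ^ 4 / (1024 * k ^ 4)) := by
      calc e ^ 2 * l ^ 2 * (X ^ 4 / (1024 * k ^ 4)) = e ^ 2 / (1024 * k ^ 4) * X ^ 4 * l ^ 2 := by ring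
        _ ≤ 8 * k ^ 4 * X ^ 4 := h5
        _ = 8192 * k ^ 8 * (X ^ 4 / (1024 * k ^ 4)) := by
          field_simp
          ring
    exact le_of_mul_le_mul_right h7 (by positivity)
  have h8 : 96 * k ^ 4 < e * l := by
    rw [div_lt_iff₀ he] at hl
    linarith
  have h9 : (96 * k ^ 4) ^ 2 < (e * l) ^ 2 := pow_lt_pow_left₀ h8 (by positivity) (by norm_num)
  have h10 : (96 * k ^ 4) ^ 2 = 9216 * k ^ 8 := by ring
  have h11 : (e * l) ^ 2 = e ^ 2 * l ^ 2 := by ring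
  have h12 : 0 ≤ k ^ 8 := by positivity
  rw [h10, h11] at h9
  linarith


open Classical in
theorem one (m : ℕ) (hm : 1 ≤ m) : ∃ C : ℕ, ∀ ε : ℝ, 0 < ε → ∃ H X₀ : ℕ, ∀ X : ℕ, X₀ ≤ X →
    ∀ A B : Set ℕ, Hit m H (2 * X) A → Hit m H (2 * X) B →
    (((range (8 * X)).filter (fun s => Even s ∧ 2 * X + X / 8 ≤ s ∧ s + X / 8 ≤ 4 * X ∧
      (rep A B s : ℝ) < X / (Real.log X) ^ C)).card : ℝ) ≤ ε * X := by
  obtain ⟨k, c, B₁, hk, hc, hB, hW⟩ := weights m hm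
  obtain ⟨C, hC, hRst⟩ := rst_w k
  refine ⟨2 * c + 2, fun ε hε => ?_⟩
  have hkR : (1 : ℝ) ≤ k := by exact_mod_cast hk
  have hmR : (1 : ℝ) ≤ m := by exact_mod_cast hm
  -- constants
  obtain ⟨ε₁, hε₁, hε₁b⟩ : ∃ ε₁ : ℝ, 0 < ε₁ ∧ k * ε₁ ≤ ε / (192 * k ^ 2) := by
    refine ⟨ε / (192 * k ^ 3), by positivity, le_of_eq ?_⟩
    field_simp
  obtain ⟨ε₂, hε₂, hε₂b⟩ : ∃ ε₂ : ℝ, 0 < ε₂ ∧ m * ε₂ ≤ ε / (192 * k ^ 2) := by
    refine ⟨ε / (192 * m * k ^ 2), by positivity, le_of_eq ?_⟩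
    field_simp
  obtain ⟨κ, hκ, hκ1, hκm, hκb⟩ : ∃ κ : ℝ, 0 < κ ∧ κ ≤ 1 ∧ m * κ ≤ 1 ∧ κ * (k * C) ≤ ε / (192 * k ^ 2) := by
    have hkC : 0 < k * C := by positivity
    refine ⟨min (1 / m) (ε / (192 * k ^ 2) / (k * C)), by positivity, ?_, ?_, ?_⟩
    · refine (min_le_left _ _).trans ?_
      rw [div_le_one (by linarith)]
      exact hmR
    · calc (m : ℝ) * min (1 / (m : ℝ)) (ε / (192 * k ^ 2) / (k * C)) ≤ m * (1 / m) := by
            apply mul_le_mul_of_nonneg_left (min_le_left _ _) (by linarith)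
        _ = 1 := by field_simp
    · calc min (1 / (m : ℝ)) (ε / (192 * k ^ 2) / (k * C)) * (k * C) ≤
            ε / (192 * k ^ 2) / (k * C) * (k * C) := by
            apply mul_le_mul_of_nonneg_right (min_le_right _ _) hkC.le
        _ = ε / (192 * k ^ 2) := by rw [div_mul_cancel₀ _ hkC.ne']
  obtain ⟨K₄, hK₄⟩ : ∃ K₄ : ℝ, K₄ = (k : ℝ) ^ 4 * (212 * C ^ 6) := ⟨_, rfl⟩
  have hK₄0 : 0 ≤ K₄ := by
    rw [hK₄]
    positivity
  have hK₄1 : 212 * C ^ 6 ≤ K₄ := by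
    rw [hK₄]
    apply le_mul_of_one_le_left (by positivity)
    exact one_le_pow₀ hkR
  obtain ⟨y, hy, hcls0⟩ := cls k c B₁ hc ε₂ K₄ hε₂ hK₄0
  obtain ⟨X₁, hcls⟩ := hcls0 y le_rfl
  obtain ⟨η, ρ₀, hη, hη1, hρ₀, hshf0⟩ := shf k C ε₁ hC hε₁
  obtain ⟨X₂, hshf⟩ := hshf0 c hc
  obtain ⟨P, hP⟩ : ∃ P : ℕ, P = (max y (2 * k)).factorial := ⟨_, rfl⟩
  have hP1 : 1 ≤ P := by
    rw [hP]
    exact Nat.factorial_pos _
  have hPdvd : ∀ p, 1 ≤ p → p ≤ max y (2 * k) → p ∣ P := fun p h1 h2 => by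
    rw [hP]
    exact Nat.dvd_factorial h1 h2
  have hPy : ∀ p ∈ PP 0 y, p ∣ P := by
    intro p hp
    unfold PP at hp
    rw [mem_filter, mem_range] at hp
    exact hPdvd p hp.2.1.pos (le_trans (by omega) (le_max_left _ _))
  obtain ⟨H₁, htup⟩ := tup ⌊(k : ℝ) * (11 * C ^ 2 / η ^ 3)⌋₊ k P hP1 ρ₀ hρ₀
  obtain ⟨H, hH, hH2⟩ : ∃ H : ℕ, H₁ ≤ H ∧ k * P ≤ H := ⟨max H₁ (k * P), le_max_left _ _, le_max_right _ _⟩
  obtain ⟨X₃, hwt⟩ := hW H κ hκ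
  obtain ⟨X₄, hrst⟩ := hRst c B₁ hc
  obtain ⟨X₅, hsing⟩ := sing y hy
  obtain ⟨X₆, hmu2⟩ := mu2 k B₁
  obtain ⟨C₃, hC₃, hV1⟩ := num_V1 k
  obtain ⟨Vb, hVb⟩ : ∃ Vb : ℝ, Vb = (C₃ * Real.log y) ^ (2 * k) := ⟨_, rfl⟩
  have hVb0 : 0 ≤ Vb := by
    rw [hVb]
    have : 0 ≤ Real.log y := Real.log_nonneg (by exact_mod_cast (by omega : 1 ≤ y))
    positivity
  obtain ⟨X₇, hlogX⟩ := Filter.eventually_atTop.1 (RNum6_log.eventually_ge_atTop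
    (96 * (k : ℝ) ^ 4 / ε + y + 9))
  obtain ⟨X₈, hX₈⟩ : ∃ X₈ : ℕ, C * (2 * H * Vb) / ε₁ ≤ X₈ := exists_nat_ge _
  refine ⟨H, max (max (max X₁ X₂) (max X₃ X₄)) (max (max X₅ X₆) (max (max X₇ X₈) (H + 1))),
    fun X hX A B hA hB' => ?_⟩
  simp only [max_le_iff] at hX
  obtain ⟨⟨⟨hX1, hX2⟩, hX3, hX4⟩, ⟨hX5, hX6⟩, ⟨hX7, hX8⟩, hXH⟩ := hX
  have hlog := hlogX X hX7
  have hke : 0 < 96 * (k : ℝ) ^ 4 / ε := by positivity
  have hy0 : (0 : ℝ) ≤ y := Nat.cast_nonneg y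
  have hlog9 : 9 ≤ Real.log X := by linarith
  have hlog0 : 0 < Real.log X := by linarith
  have hlog1 : 1 ≤ Real.log X := by linarith
  have hX1' : 1 ≤ X := by omega
  have hXR : (1 : ℝ) ≤ X := by exact_mod_cast hX1'
  have hX0 : (0 : ℝ) < X := by linarith
  have hHX : H ≤ X := by omega
  obtain ⟨z, hz⟩ : ∃ z : ℕ, z = ⌊(Real.log X) ^ B₁⌋₊ := ⟨_, rfl⟩
  have hzB : (z : ℝ) ≤ (Real.log X) ^ B₁ := by
    rw [hz]
    exact Nat.floor_le (by positivity)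
  have hz5 : (Real.log X) ^ (5 * c) ≤ z := by
    have a1 : (Real.log X) ^ B₁ < z + 1 := by
      rw [hz]
      exact Nat.lt_floor_add_one _
    have a2 : (Real.log X) ^ (5 * c + 1) ≤ (Real.log X) ^ B₁ := pow_le_pow_right₀ hlog1 hB
    have a3 : 1 ≤ (Real.log X) ^ (5 * c) := one_le_pow₀ hlog1
    rw [pow_succ] at a2
    nlinarith
  have hyz : y ≤ z := by
    have a1 : Real.log X ≤ (Real.log X) ^ (5 * c) := by
      calc Real.log X = (Real.log X) ^ 1 := (pow_one _).symm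
        _ ≤ _ := pow_le_pow_right₀ hlog1 (by omega)
    have : (y : ℝ) ≤ z := by linarith
    exact_mod_cast this
  have hz2 : 2 ≤ z := hy.trans hyz
  have hyB : (y : ℝ) ≤ (Real.log X) ^ B₁ := le_trans (by exact_mod_cast hyz) hzB
  -- the exceptional set
  obtain ⟨E, hE⟩ : ∃ E : Finset ℕ, E = (range (8 * X)).filter (fun s => Even s ∧ 2 * X + X / 8 ≤ s ∧
    s + X / 8 ≤ 4 * X ∧ (rep A B s : ℝ) < X / (Real.log X) ^ (2 * c + 2)) := ⟨_, rfl⟩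
  rw [← hE]
  have hEsub : E ⊆ range (8 * X) := by
    rw [hE]
    exact filter_subset _ _
  by_contra hcon
  push Not at hcon
  -- first tuple
  obtain ⟨h', hh'⟩ : ∃ h' : Fin k → ℕ, h' = fun i : Fin k => ((i : ℕ) + 1) * P := ⟨_, rfl⟩
  have hh'x : ∀ i, h' i = ((i : ℕ) + 1) * P := fun i => by rw [hh']
  have hinj' : Function.Injective h' := by
    intro i j hij
    rw [hh'x, hh'x] at hij
    have := Nat.eq_of_mul_eq_mul_right hP1 hij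
    exact Fin.ext (by omega)
  have hdv' : ∀ i, P ∣ h' i := fun i => by
    rw [hh'x]
    exact dvd_mul_left _ _
  have hhH' : ∀ i, 1 ≤ h' i ∧ h' i ≤ H := by
    intro i
    rw [hh'x]
    refine ⟨Nat.mul_pos (by omega) hP1, le_trans (Nat.mul_le_mul_right P ?_) hH2⟩
    exact i.2
  have hN' : Nice k (Om h') := om_nice h' P (fun p h1 h2 => hPdvd p h1 (h2.trans (le_max_right _ _))) hdv'
  obtain ⟨w', v', M₁, M₁', hWt'⟩ := hwt X hX3 h' hinj' hhH' hN'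
  rw [← hz] at hWt'
  have hws' : ∀ x, x ∉ Ioc X (2 * X) → w' x = 0 := fun x hx =>
    hWt'.ws x (fun hx' => hx ((filter_subset _ _) hx'))
  have hRw' := (hrst X z hX4 hz5 hzB (Om h') hN').1 w' M₁ hWt'.M0 (by linarith [hWt'.M1]) hWt'.w0 hws' hWt'.clw
  have hhX' : ∀ i, h' i ≤ X := fun i => ((hhH' i).2).trans hHX
  obtain ⟨Ξ, hΞ1, hΞ2, hΞ3⟩ := hshf X hX2 w' h' B hhX' hws' hRw' hWt'.l2
  -- second tuple
  obtain ⟨h, hinj, hhH1, hdv, hhξ⟩ := htup (8 * X) Ξ (Nat.le_floor hΞ2)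
  have hhH : ∀ i, 1 ≤ h i ∧ h i ≤ H := fun i => ⟨(hhH1 i).1, ((hhH1 i).2).trans hH⟩
  have hN : Nice k (Om h) := om_nice h P (fun p h1 h2 => hPdvd p h1 (h2.trans (le_max_right _ _))) hdv
  obtain ⟨w, v, M, M', hWt⟩ := hwt X hX3 h hinj hhH hN
  rw [← hz] at hWt
  have hws : ∀ x, x ∉ Ioc X (2 * X) → w x = 0 := fun x hx =>
    hWt.ws x (fun hx' => hx ((filter_subset _ _) hx'))
  have hRw := (hrst X z hX4 hz5 hzB (Om h) hN).1 w M hWt.M0 (by linarith [hWt.M1]) hWt.w0 hws hWt.clw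
  have hhX : ∀ i, h i ≤ X := fun i => ((hhH i).2).trans hHX
  -- presieved integers
  have hΩ' : ∀ p ∈ PP 0 y, Om h' p = {0} := fun p hp => by
    have hp' := hp
    unfold PP at hp'
    rw [mem_filter] at hp'
    exact om_zero hk h' p hp'.2.1.pos (fun i => (hPy p hp).trans (hdv' i))
  have hΩ : ∀ p ∈ PP 0 y, Om h p = {0} := fun p hp => by
    have hp' := hp
    unfold PP at hp'
    rw [mem_filter] at hp'
    exact om_zero hk h p hp'.2.1.pos (fun i => (hPy p hp).trans (hdv i))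
  obtain ⟨μ, hμ⟩ : ∃ μ : ℕ → ℝ, μ = mu (Om h') y X := ⟨_, rfl⟩
  have hμ2 : mu (Om h) y X = μ := by
    rw [hμ]
    exact One_mu _ _ _ _ fun p hp => by rw [hΩ p hp, hΩ' p hp]
  have hμ0 : ∀ x, 0 ≤ μ x := by
    rw [hμ]
    exact (hmu2 X y hX6 hy hyB (Om h') hN').1
  have hμs : ∀ x, x ∉ Ioc X (2 * X) → μ x = 0 := by
    intro x hx
    rw [hμ]
    unfold mu
    rw [if_neg]
    exact fun hx' => hx ((filter_subset _ _) hx')
  have hμl2 : ∑ x ∈ Ioc X (2 * X), (μ x) ^ 2 ≤ X * (Real.log X) ^ c := by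
    rw [hμ]
    refine ((hmu2 X y hX6 hy hyB (Om h') hN').2).trans ?_
    apply mul_le_mul_of_nonneg_left _ hX0.le
    calc Real.log X = (Real.log X) ^ 1 := (pow_one _).symm
      _ ≤ _ := pow_le_pow_right₀ hlog1 hc
  have hRμ : Rst C (((Real.log X) ^ c)⁻¹) X μ := by
    rw [hμ]
    exact (hrst X z hX4 hz5 hzB (Om h') hN').2 y hy hyz
  have hδ0 : 0 < ((Real.log X) ^ c)⁻¹ := by positivity
  have hδ1 : ((Real.log X) ^ c)⁻¹ ≤ 1 := by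
    apply inv_le_one_of_one_le₀
    exact one_le_pow₀ hlog1
  have hsumrange : ∀ f : ℕ → ℝ, (∀ x, x ∉ Ioc X (2 * X) → f x = 0) →
      ∑ n ∈ range (4 * X), (f n) ^ 2 = ∑ x ∈ Ioc X (2 * X), (f x) ^ 2 := by
    intro f hf
    symm
    apply sum_subset
    · intro x hx
      rw [mem_Ioc] at hx
      rw [mem_range]
      omega
    · intro x _ hx
      rw [hf x hx]
      norm_num
  have hsmall : ∀ f : ℕ → ℝ, (∀ x, x ∉ Ioc X (2 * X) → f x = 0) →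
      ∑ x ∈ Ioc X (2 * X), (f x) ^ 2 ≤ X * (Real.log X) ^ c →
      8 * (((Real.log X) ^ c)⁻¹) ^ 2 * (X : ℝ) ^ 3 * ∑ n ∈ range (4 * X), (f n) ^ 2 ≤ (X : ℝ) ^ 4 := by
    intro f hf hf2
    rw [hsumrange f hf]
    have a1 : 8 ≤ (Real.log X) ^ c := by
      calc (8 : ℝ) ≤ (Real.log X) ^ 1 := by rw [pow_one]; linarith
        _ ≤ _ := pow_le_pow_right₀ hlog1 hc
    have a2 : 0 < (Real.log X) ^ c := by positivity
    calc 8 * (((Real.log X) ^ c)⁻¹) ^ 2 * (X : ℝ) ^ 3 * ∑ x ∈ Ioc X (2 * X), (f x) ^ 2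
        ≤ 8 * (((Real.log X) ^ c)⁻¹) ^ 2 * (X : ℝ) ^ 3 * (X * (Real.log X) ^ c) := by gcongr
      _ = 8 * ((Real.log X) ^ c)⁻¹ * (X : ℝ) ^ 4 * (((Real.log X) ^ c)⁻¹ * (Real.log X) ^ c) := by ring
      _ = (8 * ((Real.log X) ^ c)⁻¹) * (X : ℝ) ^ 4 := by rw [inv_mul_cancel₀ a2.ne', mul_one]
      _ ≤ 1 * (X : ℝ) ^ 4 := by
          apply mul_le_mul_of_nonneg_right _ (by positivity)
          rw [← div_eq_mul_inv, div_le_one a2]
          exact a1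
      _ = (X : ℝ) ^ 4 := one_mul _
  have hX4' : (0 : ℝ) ≤ (X : ℝ) ^ 4 := by positivity
  have hC6 : 1 ≤ C ^ 6 := one_le_pow₀ hC
  -- the function u
  obtain ⟨u, hu⟩ : ∃ u : ℕ → ℝ, u = am B h' w' := ⟨_, rfl⟩
  obtain ⟨us1, us2, _, us4, us5⟩ := am_supp B h' w' X hhX' hws' hWt'.w0
  obtain ⟨as1, as2, _, _, as5⟩ := am_supp A h w X hhX hws hWt.w0
  rw [← hu] at us1 us2 us4 us5
  have hmass : ∀ f : ℕ → ℝ, Rst C (((Real.log X) ^ c)⁻¹) X f → (∀ x, x ∉ Ioc X (2 * X) → f x = 0) →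
      ∑ x ∈ Ioc X (2 * X), f x ≤ C * X := by
    intro f hf hfs
    have a1 : ∑ n ∈ range (4 * X), f n = ∑ x ∈ Ioc X (2 * X), f x := by
      symm
      apply sum_subset
      · intro x hx
        rw [mem_Ioc] at hx
        rw [mem_range]
        omega
      · intro x _ hx
        exact hfs x hx
    rw [← a1]
    exact hf.mass
  have huC : ∑ n ∈ Ioc X (3 * X), u n ≤ (k * C) * X := by
    refine us4.trans ?_
    rw [mul_assoc]
    apply mul_le_mul_of_nonneg_left (hmass w' hRw' hws') (by linarith)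
  have huK : ∑ ξ ∈ range (8 * X), ‖FT u X ((ξ : ℝ) / (8 * X))‖ ^ 4 ≤ K₄ * X ^ 4 := by
    rw [hu]
    refine (am_l4 B h' w' X hX1' hhX' hws' C _ hC hδ0 hδ1 hRw').trans ?_
    have a1 := hsmall w' hws' hWt'.l2
    have a2 : 211 * C ^ 6 * (X : ℝ) ^ 4 + 8 * (((Real.log X) ^ c)⁻¹) ^ 2 * (X : ℝ) ^ 3 *
        ∑ n ∈ range (4 * X), (w' n) ^ 2 ≤ 212 * C ^ 6 * (X : ℝ) ^ 4 := by
      nlinarith
    calc (k : ℝ) ^ 4 * _ ≤ (k : ℝ) ^ 4 * (212 * C ^ 6 * (X : ℝ) ^ 4) := by gcongr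
      _ = K₄ * (X : ℝ) ^ 4 := by
          rw [hK₄]
          ring
  have hμK : ∑ ξ ∈ range (8 * X), ‖FT μ X ((ξ : ℝ) / (8 * X))‖ ^ 4 ≤ K₄ * X ^ 4 := by
    refine (l4 C _ hC hδ0 hδ1 X hX1' μ μ hRμ (fun n => ⟨hμ0 n, le_rfl⟩)).trans ?_
    have a1 := hsmall μ hμs hμl2
    have a2 : 212 * C ^ 6 * (X : ℝ) ^ 4 ≤ K₄ * X ^ 4 := mul_le_mul_of_nonneg_right hK₄1 hX4'
    nlinarith
  have hμs3 : ∀ n, n ∉ Ioc X (3 * X) → μ n = 0 := by
    intro n hn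
    apply hμs
    rw [mem_Ioc] at hn ⊢
    omega
  have hμC : ∑ n ∈ Ioc X (3 * X), μ n ≤ (k * C) * X := by
    have a1 : ∑ n ∈ Ioc X (3 * X), μ n = ∑ x ∈ Ioc X (2 * X), μ x := by
      symm
      apply sum_subset
      · intro x hx
        rw [mem_Ioc] at hx ⊢
        omega
      · intro x _ hx
        exact hμs x hx
    rw [a1]
    refine (hmass μ hRμ hμs).trans ?_
    apply mul_le_mul_of_nonneg_right _ hX0.le
    exact le_mul_of_one_le_left (by linarith) hkR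
  -- first application
  have hfirst := One_app hm hk hX1' hHX hlog1 h hinj hhH w v M M' κ hκ.le hκ1 hκm hWt A hA E u us2 us1
    (k * C) huC μ hμ0 ε₁ ε₂ hε₁.le hε₂.le
    (fun i f hf => by
      rw [hu]
      exact hΞ3 w hws hRw hWt.l2 (h i) (hhX i) (fun ξ hξ => hhξ ξ hξ i) E hEsub f hf)
    (fun w M h1 h2 h3 h4 h5 h6 => by
      rw [← hμ2]
      exact hcls X z hX1 hz5 hzB (Om h) hN w M h1 h2 h3 h4 h5 h6 E hEsub u us1 huK)
  -- second application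
  have hV := hV1 (Om h') hN' y hy
  have hsecond := One_app hm hk hX1' hHX hlog1 h' hinj' hhH' w' v' M₁ M₁' κ hκ.le hκ1 hκm hWt' B hB' E μ
    hμ0 hμs3 (k * C) hμC μ hμ0 ε₁ ε₂ hε₁.le hε₂.le
    (fun i f hf => by
      have a1 := per X y (h' i) (Om h') hΩ' hV.1 (fun p hp => (hPy p hp).trans (hdv' i)) E f
        (fun x => (hf x).1)
      rw [← hμ] at a1
      refine a1.trans ?_
      have a2 : ∑ x ∈ Ioc X (2 * X), f x ≤ C * X :=
        (sum_le_sum fun x _ => (hf x).2).trans (hmass w' hRw' hws')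
      have a3 : 2 * (h' i : ℝ) * (V1 (Om h') y)⁻¹ ≤ 2 * H * Vb := by
        have a4 : ((h' i : ℕ) : ℝ) ≤ H := by exact_mod_cast (hhH' i).2
        have a5 : (V1 (Om h') y)⁻¹ ≤ Vb := by
          rw [hVb]
          exact hV.2.2
        have a6 : 0 ≤ (V1 (Om h') y)⁻¹ := by linarith [hV.2.1]
        gcongr
      have a7 : C * (2 * H * Vb) ≤ ε₁ * X := by
        have a8 : C * (2 * H * Vb) / ε₁ ≤ X := hX₈.trans (by exact_mod_cast hX8)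
        rw [div_le_iff₀ hε₁] at a8
        linarith
      have a9 : 0 ≤ 2 * (H : ℝ) * Vb := by positivity
      calc (∑ x ∈ Ioc X (2 * X), f x) * (2 * (h' i : ℝ) * (V1 (Om h') y)⁻¹)
          ≤ (C * X) * (2 * H * Vb) := by
            apply mul_le_mul a2 a3
            · have a6 : 0 ≤ (V1 (Om h') y)⁻¹ := by linarith [hV.2.1]
              positivity
            · positivity
        _ = (C * (2 * H * Vb)) * X := by ring
        _ ≤ (ε₁ * X) * X := by gcongr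
        _ = ε₁ * X ^ 2 := by ring)
    (fun w M h1 h2 h3 h4 h5 h6 => by
      have := hcls X z hX1 hz5 hzB (Om h') hN' w M h1 h2 h3 h4 h5 h6 E hEsub μ hμs3 hμK
      rwa [← hμ] at this)
  rw [← hu] at hsecond
  have hsym := cor_symm X E μ u hμs us1
  rw [hsym] at hfirst
  -- the main term
  have hQ : (X : ℝ) / 16 * E.card ≤ ∑ x ∈ Ioc X (2 * X), μ x * cor E μ x := by
    rw [hμ]
    refine One_Q X y (Om h') E fun s hs => ?_
    rw [hE, mem_filter] at hs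
    exact hsing X hX5 (Om h') hΩ' s hs.2.1 hs.2.2.1 hs.2.2.2.1
  obtain ⟨W, hWd⟩ : ∃ W : ℝ, W = ∑ n ∈ Ioc X (3 * X), am A h w n * cor E u n := ⟨_, rfl⟩
  have hWlow : ε / (32 * k ^ 2) * X ^ 2 ≤ W := by
    rw [hWd]
    obtain ⟨e, he⟩ : ∃ e : ℝ, e = k * ε₁ + m * ε₂ + κ * (k * C) := ⟨_, rfl⟩
    rw [← he] at hfirst hsecond
    have he2 : e ≤ ε / (64 * k ^ 2) := by
      have a1 : ε / (64 * (k : ℝ) ^ 2) = 3 * (ε / (192 * k ^ 2)) := by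
        field_simp
        norm_num
      rw [he, a1]
      linarith
    have he0 : 0 ≤ e := by
      rw [he]
      positivity
    obtain ⟨Q1, hQ1⟩ : ∃ Q1 : ℝ, Q1 = ∑ n ∈ Ioc X (3 * X), u n * cor E μ n := ⟨_, rfl⟩
    rw [← hQ1] at hfirst hsecond
    refine le_trans ?_ hfirst
    have a2 : (X : ℝ) / 16 * (ε * X) ≤ ∑ x ∈ Ioc X (2 * X), μ x * cor E μ x := by
      refine le_trans ?_ hQ
      gcongr
    have a3 : 1 / (k : ℝ) * (X / 16 * (ε * X)) - e * X ^ 2 ≤ Q1 := by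
      refine le_trans ?_ hsecond
      have : 1 / (k : ℝ) * (X / 16 * (ε * X)) ≤ 1 / (k : ℝ) * ∑ x ∈ Ioc X (2 * X), μ x * cor E μ x := by
        gcongr
      linarith
    have a4 : 1 / (k : ℝ) * (1 / (k : ℝ) * (X / 16 * (ε * X)) - e * X ^ 2) ≤ 1 / (k : ℝ) * Q1 := by
      gcongr
    have a5 : 1 / (k : ℝ) * (1 / (k : ℝ) * (X / 16 * (ε * X)) - e * X ^ 2) =
        4 * (ε / (64 * k ^ 2)) * X ^ 2 - (1 / k) * (e * X ^ 2) := by
      field_simp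
      ring
    have a6 : (1 / (k : ℝ)) * (e * X ^ 2) ≤ e * X ^ 2 := by
      apply mul_le_of_le_one_left (by positivity)
      rw [div_le_one (by linarith)]
      exact hkR
    have a7 : e * (X : ℝ) ^ 2 ≤ ε / (64 * k ^ 2) * X ^ 2 := by gcongr
    have a8 : ε / (32 * (k : ℝ) ^ 2) * X ^ 2 = 2 * (ε / (64 * k ^ 2)) * X ^ 2 := by
      field_simp
      norm_num
    rw [a8]
    linarith
  -- the upper bound
  have hup := ups X E A B (am A h w) u as2 us2 (fun n hn => One_supp A h w n hn)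
    (fun n hn => by
      rw [hu] at hn
      exact One_supp B h' w' n hn) us1
  rw [← hWd] at hup
  have hrep : ∑ s ∈ E, (rep A B s : ℝ) ≤ 8 * X * (X / ((Real.log X) ^ (2 * c) * (Real.log X) ^ 2)) := by
    have a1 : ∀ s ∈ E, (rep A B s : ℝ) ≤ X / ((Real.log X) ^ (2 * c) * (Real.log X) ^ 2) := by
      intro s hs
      rw [hE, mem_filter] at hs
      rw [← pow_add]
      exact hs.2.2.2.2.le
    refine (sum_le_sum a1).trans ?_
    rw [sum_const, nsmul_eq_mul]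
    apply mul_le_mul_of_nonneg_right _ (by positivity)
    have a2 := card_le_card hEsub
    rw [card_range] at a2
    have a3 : (E.card : ℝ) ≤ ((8 * X : ℕ) : ℝ) := by exact_mod_cast a2
    push_cast at a3
    exact a3
  have hsq : (∑ n ∈ Ioc X (3 * X), (am A h w n) ^ 2) * ∑ n ∈ Ioc X (3 * X), (u n) ^ 2 ≤
      (k : ℝ) ^ 4 * X ^ 2 * (Real.log X) ^ (2 * c) := by
    have a1 : ∑ n ∈ Ioc X (3 * X), (am A h w n) ^ 2 ≤ (k : ℝ) ^ 2 * (X * (Real.log X) ^ c) := by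
      refine as5.trans ?_
      gcongr
      exact hWt.l2
    have a2 : ∑ n ∈ Ioc X (3 * X), (u n) ^ 2 ≤ (k : ℝ) ^ 2 * (X * (Real.log X) ^ c) := by
      refine us5.trans ?_
      gcongr
      exact hWt'.l2
    calc (∑ n ∈ Ioc X (3 * X), (am A h w n) ^ 2) * ∑ n ∈ Ioc X (3 * X), (u n) ^ 2
        ≤ ((k : ℝ) ^ 2 * (X * (Real.log X) ^ c)) * ((k : ℝ) ^ 2 * (X * (Real.log X) ^ c)) := by
          apply mul_le_mul a1 a2 (sum_nonneg fun n _ => sq_nonneg _) (by positivity)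
      _ = (k : ℝ) ^ 4 * X ^ 2 * (Real.log X) ^ (2 * c) := by
          rw [two_mul c, pow_add]
          ring
  exact One_num k W ε X _ _ (Real.log X) ((Real.log X) ^ (2 * c)) hkR hε hX0 (by linarith) hlog0 hWlow hup
    (by positivity) hrep (sum_nonneg fun s _ => Nat.cast_nonneg _) hsq

end Pool.Agent.Lib.SG
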