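import Pool.Agent.Lib.SG.Bohr

/-!
# SG-Qk7: the Bohr set is so large that the Wiener norm to the power k is at most log X

PROOF. `M = ⌈7/(a ε₁)⌉₊ ≤ 8/(a ε₁)`, `bohr_card (8X)`: `8X/|T| ≤ M^|Ξ|` and T nonempty; `√(M^|Ξ|)^k ≤ M^(k |Ξ|) = exp(k |Ξ| log M) ≤ exp(k |Ξ| M) ≤ exp(8 k N/(a b ε₁^13)) ≤ exp(loglog X) = log X`, `G = 8 k N/(a b) + 1`
(`loglog X ≥ G > 0` gives `log X > 1`, so `exp (log (log X)) = log X`). If Ξ is empty M^0 = 1 ≤ log X.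
-/

set_option autoImplicit false

open Finset

namespace Pool.Agent.Lib.SG

theorem qk7 (k N : ℕ) (a b : ℝ) (ha : 0 < a) (ha1 : a ≤ 1) (hb : 0 < b) : ∃ G : ℝ, 1 ≤ G ∧
    ∀ X : ℕ, 1 ≤ X → ∀ ε₁ : ℝ, 0 < ε₁ → ε₁ ≤ 1 → G * (1 / ε₁) ^ 13 ≤ Real.log (Real.log X) →
    ∀ Ξ : Finset ℕ, (Ξ.card : ℝ) ≤ N * (1 / (b * ε₁ ^ 12)) → ∀ T : Finset ℕ, T = Bh (8 * X) Ξ (a * ε₁) →
    T.Nonempty ∧ (Real.sqrt (8 * X / T.card)) ^ k ≤ Real.log X := by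
  refine ⟨8 * k * N / (a * b) + 1, by
    have : (0 : ℝ) ≤ 8 * k * N / (a * b) := by positivity
    linarith, fun X hX ε₁ hε hε1 hG Ξ hΞ T hT => ?_⟩
  have hρ : 0 < a * ε₁ := mul_pos ha hε
  have hρ1 : a * ε₁ ≤ 1 := by
    calc a * ε₁ ≤ 1 * 1 := mul_le_mul ha1 hε1 hε.le zero_le_one
      _ = 1 := one_mul 1
  obtain ⟨M, hM⟩ : ∃ M : ℕ, M = ⌈7 / (a * ε₁)⌉₊ := ⟨_, rfl⟩
  have hM1 : 7 / (a * ε₁) ≤ M := by
    rw [hM]
    exact Nat.le_ceil _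
  have hM2 : (M : ℝ) ≤ 8 / (a * ε₁) := by
    have h1 : (M : ℝ) < 7 / (a * ε₁) + 1 := by
      rw [hM]
      exact Nat.ceil_lt_add_one (by positivity)
    have h2 : 1 ≤ 1 / (a * ε₁) := by
      rw [le_div_iff₀ hρ]
      linarith
    have h3 : 8 / (a * ε₁) = 7 / (a * ε₁) + 1 / (a * ε₁) := by ring
    linarith
  have hM3 : 7 ≤ M * (a * ε₁) := by
    rwa [div_le_iff₀ hρ] at hM1
  have hM4 : (1 : ℝ) ≤ M := by
    have h1 : (7 : ℝ) ≤ M * (a * ε₁) := hM3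
    have h2 : M * (a * ε₁) ≤ M * 1 := mul_le_mul_of_nonneg_left hρ1 (Nat.cast_nonneg _)
    linarith
  obtain ⟨h1, h2⟩ := bohr_card (8 * X) (by omega) Ξ (a * ε₁) M hρ hM3
  rw [← hT] at h1 h2
  refine ⟨h2, ?_⟩
  have hTc : (0 : ℝ) < T.card := by exact_mod_cast h2.card_pos
  have h3 : 8 * (X : ℝ) / T.card ≤ (M : ℝ) ^ Ξ.card := by
    rw [div_le_iff₀ hTc]
    push_cast at h1
    exact h1
  have hMp : 1 ≤ (M : ℝ) ^ Ξ.card := one_le_pow₀ hM4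
  have h4 : Real.sqrt (8 * X / T.card) ≤ (M : ℝ) ^ Ξ.card := by
    refine (Real.sqrt_le_sqrt h3).trans ?_
    rw [Real.sqrt_le_left (by linarith)]
    nlinarith
  have h5 : (Real.sqrt (8 * X / T.card)) ^ k ≤ ((M : ℝ) ^ Ξ.card) ^ k :=
    pow_le_pow_left₀ (Real.sqrt_nonneg _) h4 k
  have h6 : ((M : ℝ) ^ Ξ.card) ^ k ≤ Real.exp (k * Ξ.card * M) := by
    have h7 : (M : ℝ) ≤ Real.exp M := by
      have := Real.add_one_le_exp (M : ℝ)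
      linarith
    calc ((M : ℝ) ^ Ξ.card) ^ k ≤ ((Real.exp M) ^ Ξ.card) ^ k := by gcongr
      _ = Real.exp (k * Ξ.card * M) := by
          rw [← pow_mul, ← Real.exp_nat_mul]
          congr 1
          push_cast
          ring
  have h8 : (k : ℝ) * Ξ.card * M ≤ Real.log (Real.log X) := by
    refine le_trans ?_ hG
    calc (k : ℝ) * Ξ.card * M ≤ k * (N * (1 / (b * ε₁ ^ 12))) * (8 / (a * ε₁)) := by gcongr
      _ = 8 * k * N / (a * b) * (1 / ε₁) ^ 13 := by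
          field_simp
      _ ≤ _ := by
          refine mul_le_mul_of_nonneg_right (by linarith) (by positivity)
  have hXR : (1 : ℝ) ≤ X := by exact_mod_cast hX
  have h9 : 0 ≤ Real.log X := Real.log_nonneg hXR
  have h10 : 0 < Real.log X := by
    rcases h9.lt_or_eq with h | h
    · exact h
    · exfalso
      rw [← h, Real.log_zero] at hG
      have : 0 < (8 * (k : ℝ) * N / (a * b) + 1) * (1 / ε₁) ^ 13 := by positivity
      linarith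
  calc _ ≤ Real.exp (k * Ξ.card * M) := h5.trans h6
    _ ≤ Real.exp (Real.log (Real.log X)) := Real.exp_le_exp.2 h8
    _ = Real.log X := Real.exp_log h10

end Pool.Agent.Lib.SG
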