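import Pool.Agent.Lib.SG.Defs7
import Pool.Agent.Lib.SG.Num
import Pool.Agent.Lib.MT.LayB
import Pool.Agent.Lib.MT.Vlow
import Pool.Agent.Lib.SG.Mumass

/-!
# SG-Sing7: presieved integers have many representations, z growing

Ω = Om (gt K), H₀ = (K+1) (2K)!, for p ≤ 2K: Ω p = {0} (all gt K j are ≡ 0), in general at most K classes.
PROOF. The sum is `V⁻² #{x ∈ (X, 2X] : x' = s - x - H₀ ∈ (X, 2X], x % p ∉ Ω p, x' % p ∉ Ω p for p ≤ z}`, V = V1 Ω z. Put `Ω' p = Ω p ∪ {c < p : (s + p*... - c - H₀) % p ∈ Ω p}`, that is the classes c with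
`c ∈ Ω p` or `(the class of s - H₀ - c) ∈ Ω p`: at most 2|Ω p| ≤ 2K classes. The x with x + H₀ ≤ s, x' ∈ (X, 2X] form an interval I ⊆ (X, 2X] of length ≥ X/8 - H₀ - 2.
`layB_param (2K) B (1/1000)`, `layB_trunc` with K := 2K, w = indicator of I: `#{x ∈ I ∩ Pre Ω' z X} ≥ ∑_{|d| ≤ m} (-1)^|d| #(I ∩ S_d) - 2 X^(1-c)`, `#(I ∩ S_d) = |I| ∏ |Ω' p|/p + O(∏ |Ω' p|)` (GT.card_crt / the count in
Mumass), `layB_low`, `layB_V`: `≥ |I| V1 Ω' z - X^(1-c')`. Local factors: for p ≤ 2K prime `Ω' p = {0, s mod p}` (H₀ ≡ 0 mod p): one class for p = 2 (s even), at most two for p ≥ 3, factor ≥ 1/p; for 2K < p ≤ 4K: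
|Ω' p| ≤ 2K ≤ p - 1, factor ≥ 1/p; for p > 4K: `(1 - 2a/p)/(1 - a/p)² ≥ 1 - a²/(p-a)² ≥ 1 - 4K²/p²` (a = |Ω p|, |Ω' p| ≤ 2a). So `V1 Ω' z ≥ c₁ V²` with `c₁ = ∏_{p ≤ 4K} (1/(4K)) · ∏_{n > 4K} (1 - 4K²/n²)` (`≥ exp(-8K² ∑ 1/n²) > 0`; V ≤ 1 handles the
missing denominators at the small primes). c₀ = c₁/16; `V⁻² X^(1-c') ≤ c₀ X` for large X (`num_V1`). If K = 0: Ω empty, mu = 1.
-/

set_option autoImplicit false

open Finset

namespace Pool.Agent.Lib.SG

open Pool.Agent.Lib.MT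

private theorem s7_memOm {k : ℕ} (h : Fin k → ℕ) (p c : ℕ) :
    c ∈ Om h p ↔ c < p ∧ ∃ i, p ∣ c + h i := by
  unfold Om
  rw [mem_filter, mem_range]

private theorem s7_memOm2 {k : ℕ} (h : Fin k → ℕ) (N p c : ℕ) :
    c ∈ Om2 h N p ↔ c < p ∧ ∃ i, p ∣ c + h i ∨ c + h i ≡ N [MOD p] := by
  constructor
  · intro hc
    have := (@Finset.mem_filter _ _ (_) _ _).mp hc
    exact ⟨mem_range.mp this.1, this.2⟩
  · intro hc
    exact (@Finset.mem_filter _ _ (_) _ _).mpr ⟨mem_range.mpr hc.1, hc.2⟩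

private theorem s7_PP (z p : ℕ) (h : p ∈ PP 0 z) : p.Prime ∧ p ≤ z := by
  unfold PP at h
  rw [mem_filter, mem_range] at h
  exact ⟨h.2.1, by omega⟩

private theorem s7_dvd (K p : ℕ) (j : Fin K) (h1 : 1 ≤ p) (h2 : p ≤ 2 * K) : p ∣ gt K j := by
  unfold gt
  exact Dvd.dvd.mul_left (Nat.dvd_factorial h1 h2) _

private theorem s7_rev (K : ℕ) (j : Fin K) : gt K (Fin.rev j) + gt K j = (K + 1) * (2 * K).factorial := by
  unfold gt
  rw [← add_mul]
  congr 1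
  rw [Fin.val_rev]
  have := j.2
  omega

private theorem s7_nice (K : ℕ) : Nice K (Om (gt K)) := by
  apply om_nice (gt K) (2 * K).factorial
  · intro p h1 h2
    exact Nat.dvd_factorial h1 h2
  · intro i
    unfold gt
    exact Dvd.intro_left _ rfl

/-- facts on the fixed tuple -/
theorem gt_facts (K k : ℕ) (hK : 1 ≤ K) (e : Fin k → Fin K) (he : Function.Injective e) :
    Nice K (Om (gt K)) ∧ Cov (Om (gt K)) (fun i => gt K (e i)) ∧
    Function.Injective (fun i => gt K (e i)) ∧ (∀ i, 1 ≤ gt K (e i) ∧ gt K (e i) ≤ K * (2 * K).factorial) ∧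
    ∀ j : Fin K, gt K (Fin.rev j) + gt K j = (K + 1) * (2 * K).factorial := by
  have _ := hK
  have hf : 0 < (2 * K).factorial := Nat.factorial_pos _
  refine ⟨s7_nice K, ?_, ?_, ?_, s7_rev K⟩
  · intro p hp i x hx
    rw [s7_memOm]
    refine ⟨Nat.mod_lt _ hp.pos, e i, ?_⟩
    have h1 : x % p + gt K (e i) ≡ x + gt K (e i) [MOD p] :=
      Nat.ModEq.add_right _ (Nat.mod_modEq x p)
    exact Nat.modEq_zero_iff_dvd.mp (h1.trans (Nat.modEq_zero_iff_dvd.mpr hx))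
  · intro a b hab
    simp only [gt] at hab
    have h1 := Nat.eq_of_mul_eq_mul_right hf hab
    apply he
    apply Fin.ext
    omega
  · intro i
    unfold gt
    constructor
    · have : 0 < (((e i : Fin K) : ℕ) + 1) * (2 * K).factorial := by positivity
      omega
    · apply Nat.mul_le_mul_right
      have := (e i).2
      omega

private theorem s7_card2 (K s p : ℕ) (hp : p.Prime) :
    (Om2 (gt K) s p).card ≤ 2 * (Om (gt K) p).card := by
  classical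
  set B := (range p).filter (fun c => ∃ i, c + gt K i ≡ s [MOD p]) with hB
  have h1 : Om2 (gt K) s p ⊆ Om (gt K) p ∪ B := by
    intro c hc
    obtain ⟨hcp, i, hi⟩ := (s7_memOm2 _ _ _ _).mp hc
    rw [mem_union]
    rcases hi with hi | hi
    · left
      exact (s7_memOm _ _ _).mpr ⟨hcp, i, hi⟩
    · right
      rw [hB, mem_filter, mem_range]
      exact ⟨hcp, i, hi⟩
  set H := (K + 1) * (2 * K).factorial with hH
  set φ : ℕ → ℕ := fun c => (s + p * (H + 1) - (c + H)) % p with hφ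
  have h2 : ∀ c, c < p → φ c + (c + H) ≡ s [MOD p] := by
    intro c hc
    have hle : c + H ≤ s + p * (H + 1) := by
      have h3 : 1 ≤ p := hp.one_le
      nlinarith
    have h3 : φ c + (c + H) ≡ (s + p * (H + 1) - (c + H)) + (c + H) [MOD p] :=
      Nat.ModEq.add_right _ (Nat.mod_modEq _ _)
    rw [Nat.sub_add_cancel hle] at h3
    refine h3.trans ?_
    have h4 : s + p * (H + 1) ≡ s + 0 [MOD p] :=
      Nat.ModEq.add_left _ (Nat.modEq_zero_iff_dvd.mpr (Dvd.intro _ rfl))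
    exact h4
  have h3 : B.card ≤ (Om (gt K) p).card := by
    apply card_le_card_of_injOn φ
    · intro c hc
      rw [hB, mem_coe, mem_filter, mem_range] at hc
      obtain ⟨hcp, i, hi⟩ := hc
      rw [mem_coe, s7_memOm]
      refine ⟨Nat.mod_lt _ hp.pos, Fin.rev i, ?_⟩
      have h4 := h2 c hcp
      have h5 := s7_rev K i
      rw [← hH] at h5
      have h6 : (φ c + gt K (Fin.rev i)) + (c + gt K i) ≡ 0 + (c + gt K i) [MOD p] := by
        have h7 : (φ c + gt K (Fin.rev i)) + (c + gt K i) = φ c + (c + H) := by omega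
        rw [h7, zero_add]
        exact h4.trans hi.symm
      exact Nat.modEq_zero_iff_dvd.mp (Nat.ModEq.add_right_cancel' _ h6)
    · intro a ha b hb hab
      rw [hB, mem_coe, mem_filter, mem_range] at ha hb
      have h4 := h2 a ha.1
      have h5 := h2 b hb.1
      rw [hab] at h4
      have h6 : φ b + (a + H) ≡ φ b + (b + H) [MOD p] := h4.trans h5.symm
      have h7 := Nat.ModEq.add_left_cancel' _ h6
      have h8 := Nat.ModEq.add_right_cancel' _ h7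
      exact Nat.ModEq.eq_of_lt_of_lt h8 ha.1 hb.1
  have h4 := card_le_card h1
  have h5 := card_union_le (Om (gt K) p) B
  omega

private theorem s7_card_lt (K s p : ℕ) (hs : Even s) (hp : p.Prime) :
    (Om2 (gt K) s p).card < p := by
  classical
  rcases lt_or_ge (2 * K) p with h | h
  · have := Om2_card (gt K) s p
    rw [Fintype.card_fin] at this
    omega
  · have hdvd : ∀ i : Fin K, p ∣ gt K i := fun i => s7_dvd K p i hp.one_le h
    have hsub : Om2 (gt K) s p ⊆ {0, s % p} := by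
      intro c hc
      obtain ⟨hcp, i, hi⟩ := (s7_memOm2 _ _ _ _).mp hc
      rw [mem_insert, mem_singleton]
      rcases hi with hi | hi
      · left
        have := (Nat.dvd_add_left (hdvd i)).mp hi
        exact Nat.eq_zero_of_dvd_of_lt this hcp
      · right
        have h1 : c + gt K i ≡ c + 0 [MOD p] :=
          Nat.ModEq.add_left _ (Nat.modEq_zero_iff_dvd.mpr (hdvd i))
        have h2 : c ≡ s [MOD p] := h1.symm.trans hi
        have h3 : c % p = s % p := h2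
        rw [Nat.mod_eq_of_lt hcp] at h3
        exact h3
    rcases eq_or_ne p 2 with rfl | hp2
    · have h4 : s % 2 = 0 := Nat.even_iff.mp hs
      rw [h4] at hsub
      have := card_le_card hsub
      simp at this
      omega
    · have h5 : 2 < p := lt_of_le_of_ne hp.two_le (Ne.symm hp2)
      exact lt_of_le_of_lt ((card_le_card hsub).trans card_le_two) h5

private theorem s7_pow (M : ℕ) (x : ℝ) (hx0 : 0 ≤ x) (hx1 : x ≤ 1) (hM : (M : ℝ) * x ≤ 1) :
    (1 - x) ^ M ≤ 1 - (M : ℝ) * x / 2 := by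
  have hKx0 : 0 ≤ (M : ℝ) * x := by positivity
  have h1 : (1 - x) ^ M * (1 + x) ^ M ≤ 1 := by
    rw [← mul_pow]
    apply pow_le_one₀
    · nlinarith
    · nlinarith
  have h2 : 1 + (M : ℝ) * x ≤ (1 + x) ^ M := one_add_mul_le_pow (by linarith) M
  have h3 : 0 ≤ (1 - x) ^ M := pow_nonneg (by linarith) M
  have h4 : (1 - x) ^ M * (1 + (M : ℝ) * x) ≤ 1 :=
    le_trans (mul_le_mul_of_nonneg_left h2 h3) h1
  by_contra hcon
  push Not at hcon
  nlinarith

private theorem s7_alg (a K p : ℝ) (ha0 : 0 ≤ a) (haK : a ≤ K) (hp : 4 * K < p) (hK : 0 < K) :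
    (1 - 4 * K ^ 2 / p ^ 2) * (1 - a / p) ^ 2 ≤ 1 - 2 * a / p := by
  have hp0 : 0 < p := by linarith
  have e : 1 - 2 * a / p - (1 - 4 * K ^ 2 / p ^ 2) * (1 - a / p) ^ 2 =
      (4 * K ^ 2 * (p - a) ^ 2 - a ^ 2 * p ^ 2) / p ^ 4 := by
    field_simp
    ring
  have h1 : 0 ≤ (4 * K ^ 2 * (p - a) ^ 2 - a ^ 2 * p ^ 2) / p ^ 4 := by
    apply div_nonneg _ (by positivity)
    have h2 : a * p ≤ 2 * K * (p - a) := by
      nlinarith
    have h3 : 0 ≤ a * p := by positivity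
    nlinarith
  linarith

private theorem s7_fac (K s p : ℕ) (hK : 1 ≤ K) (hs : Even s) (hp : p.Prime) :
    (if p < 4 * K + 1 then 1 / ((4 * K : ℕ) : ℝ) else 1) * (1 - 1 / (p : ℝ) ^ 2) ^ (8 * K ^ 2) *
      (1 - ((Om (gt K) p).card : ℝ) / p) ^ 2 ≤ 1 - ((Om2 (gt K) s p).card : ℝ) / p := by
  have hp0 : (0 : ℝ) < p := by exact_mod_cast hp.pos
  have hp1 : (1 : ℝ) ≤ p := by exact_mod_cast hp.one_le
  have hKr : (1 : ℝ) ≤ K := by exact_mod_cast hK
  have hlt := s7_card_lt K s p hs hp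
  have hx0 : 0 ≤ 1 / (p : ℝ) ^ 2 := by positivity
  have hx1 : 1 / (p : ℝ) ^ 2 ≤ 1 := by
    rw [div_le_one (by positivity)]
    nlinarith
  have hpw0 : 0 ≤ (1 - 1 / (p : ℝ) ^ 2) ^ (8 * K ^ 2) := pow_nonneg (by linarith) _
  have hpw1 : (1 - 1 / (p : ℝ) ^ 2) ^ (8 * K ^ 2) ≤ 1 := pow_le_one₀ (by linarith) (by linarith)
  have hcK : ((Om (gt K) p).card : ℝ) ≤ K := by exact_mod_cast (s7_nice K).card p
  have hclt : (Om (gt K) p).card ≤ p := by
    have : Om (gt K) p ⊆ range p := by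
      intro c hc
      rw [mem_range]
      exact ((s7_memOm _ _ _).mp hc).1
    have := card_le_card this
    rwa [card_range] at this
  have hclt' : ((Om (gt K) p).card : ℝ) / p ≤ 1 := by
    rw [div_le_one hp0]
    exact_mod_cast hclt
  have hc0 : 0 ≤ ((Om (gt K) p).card : ℝ) / p := by positivity
  have hsq0 : 0 ≤ (1 - ((Om (gt K) p).card : ℝ) / p) ^ 2 := sq_nonneg _
  have hsq1 : (1 - ((Om (gt K) p).card : ℝ) / p) ^ 2 ≤ 1 := by
    apply pow_le_one₀ <;> linarith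
  split_ifs with hc
  · have h2 : 1 / ((4 * K : ℕ) : ℝ) ≤ 1 / (p : ℝ) :=
      one_div_le_one_div_of_le hp0 (by exact_mod_cast (by omega : p ≤ 4 * K))
    have h3 : 1 / (p : ℝ) ≤ 1 - ((Om2 (gt K) s p).card : ℝ) / p := by
      rw [le_sub_iff_add_le, ← add_div, div_le_one hp0]
      have : (1 : ℝ) + ((Om2 (gt K) s p).card : ℝ) ≤ (p : ℝ) := by exact_mod_cast (by omega)
      exact this
    have h4 : 0 ≤ 1 / ((4 * K : ℕ) : ℝ) := by positivity
    calc _ ≤ 1 / ((4 * K : ℕ) : ℝ) * 1 * 1 := by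
          apply mul_le_mul _ hsq1 hsq0 (by positivity)
          exact mul_le_mul_of_nonneg_left hpw1 h4
      _ ≤ _ := by linarith
  · push Not at hc
    rw [one_mul]
    have hpK : 4 * (K : ℝ) < p := by
      have : 4 * K < p := by omega
      exact_mod_cast this
    have h1 : ((8 * K ^ 2 : ℕ) : ℝ) * (1 / (p : ℝ) ^ 2) ≤ 1 := by
      rw [mul_one_div, div_le_one (by positivity)]
      push_cast
      nlinarith
    have h2 := s7_pow (8 * K ^ 2) (1 / (p : ℝ) ^ 2) hx0 hx1 h1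
    have h3 : 1 - ((8 * K ^ 2 : ℕ) : ℝ) * (1 / (p : ℝ) ^ 2) / 2 = 1 - 4 * (K : ℝ) ^ 2 / (p : ℝ) ^ 2 := by
      push_cast
      ring
    rw [h3] at h2
    have h4 := s7_alg ((Om (gt K) p).card : ℝ) K p (by positivity) hcK hpK (by linarith)
    have h5 : ((Om2 (gt K) s p).card : ℝ) / p ≤ 2 * ((Om (gt K) p).card : ℝ) / p := by
      apply div_le_div_of_nonneg_right _ hp0.le
      exact_mod_cast s7_card2 K s p hp
    calc _ ≤ (1 - 4 * (K : ℝ) ^ 2 / (p : ℝ) ^ 2) * (1 - ((Om (gt K) p).card : ℝ) / p) ^ 2 :=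
          mul_le_mul_of_nonneg_right h2 hsq0
      _ ≤ 1 - 2 * ((Om (gt K) p).card : ℝ) / p := h4
      _ ≤ _ := by linarith

private theorem s7_tel (N : ℕ) (hN : 1 ≤ N) :
    ∏ n ∈ Icc 2 N, (1 - 1 / (n : ℝ) ^ 2) = ((N : ℝ) + 1) / (2 * N) := by
  induction N, hN using Nat.le_induction with
  | base => simp
  | succ N hN ih =>
    rw [← Finset.insert_Icc_right_eq_Icc_add_one (by omega), prod_insert (by simp), ih]
    have : (1 : ℝ) ≤ N := by exact_mod_cast hN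
    push_cast
    field_simp
    ring

private theorem s7_half (z : ℕ) : (1 : ℝ) / 2 ≤ ∏ p ∈ PP 0 z, (1 - 1 / (p : ℝ) ^ 2) := by
  rcases Nat.eq_zero_or_pos z with h0 | h0
  · have h1 : PP 0 z = ∅ := by
      rw [eq_empty_iff_forall_notMem]
      intro p hp
      obtain ⟨hpp, hpz⟩ := s7_PP z p hp
      have := hpp.two_le
      omega
    rw [h1, prod_empty]
    norm_num
  · have h1 : PP 0 z ⊆ Icc 2 z := by
      intro p hp
      obtain ⟨hpp, hpz⟩ := s7_PP z p hp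
      rw [mem_Icc]
      exact ⟨hpp.two_le, hpz⟩
    have h2 : ∀ n ∈ Icc 2 z, 0 ≤ 1 - 1 / (n : ℝ) ^ 2 ∧ 1 - 1 / (n : ℝ) ^ 2 ≤ 1 := by
      intro n hn
      rw [mem_Icc] at hn
      have h3 : (2 : ℝ) ≤ n := by exact_mod_cast hn.1
      have h4 : 1 / (n : ℝ) ^ 2 ≤ 1 := by
        rw [div_le_one (by positivity)]
        nlinarith
      have h5 : 0 ≤ 1 / (n : ℝ) ^ 2 := by positivity
      constructor <;> linarith
    have h3 : ∏ n ∈ Icc 2 z, (1 - 1 / (n : ℝ) ^ 2) ≤ ∏ p ∈ PP 0 z, (1 - 1 / (p : ℝ) ^ 2) :=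
      prod_le_prod_of_subset_of_le_one h1 (fun n hn => (h2 n hn).1) (fun n hn _ => (h2 n hn).2)
    refine le_trans ?_ h3
    rw [s7_tel z h0]
    have : (1 : ℝ) ≤ z := by exact_mod_cast h0
    rw [div_le_div_iff₀ (by norm_num) (by linarith)]
    linarith

private theorem s7_V (K s z : ℕ) (hK : 1 ≤ K) (hs : Even s) :
    (1 / ((4 * K : ℕ) : ℝ)) ^ (4 * K + 1) * (1 / 2) ^ (8 * K ^ 2) * (V1 (Om (gt K)) z) ^ 2 ≤
      V1 (Om2 (gt K) s) z := by
  classical
  have hKr : (1 : ℝ) ≤ ((4 * K : ℕ) : ℝ) := by exact_mod_cast (by omega : 1 ≤ 4 * K)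
  have hq : ∀ p ∈ PP 0 z, 0 ≤ (1 - 1 / (p : ℝ) ^ 2) := by
    intro p hp
    have h3 : (2 : ℝ) ≤ p := by exact_mod_cast (s7_PP z p hp).1.two_le
    rw [sub_nonneg, div_le_one (by positivity)]
    nlinarith
  have h1 : ∏ p ∈ PP 0 z, ((if p < 4 * K + 1 then 1 / ((4 * K : ℕ) : ℝ) else 1) *
      (1 - 1 / (p : ℝ) ^ 2) ^ (8 * K ^ 2) * (1 - ((Om (gt K) p).card : ℝ) / p) ^ 2) ≤
      V1 (Om2 (gt K) s) z := by
    unfold V1
    apply prod_le_prod
    · intro p hp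
      apply mul_nonneg (mul_nonneg _ (pow_nonneg (hq p hp) _)) (sq_nonneg _)
      split_ifs <;> positivity
    · intro p hp
      exact s7_fac K s p hK hs (s7_PP z p hp).1
  refine le_trans ?_ h1
  rw [prod_mul_distrib, prod_mul_distrib, prod_pow, prod_pow]
  unfold V1
  apply mul_le_mul_of_nonneg_right _ (sq_nonneg _)
  apply mul_le_mul
  · rw [prod_ite, prod_const_one, mul_one, prod_const]
    apply pow_le_pow_of_le_one (by positivity)
    · rw [div_le_one (by positivity)]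
      exact hKr
    · calc ((PP 0 z).filter (fun p => p < 4 * K + 1)).card ≤ (range (4 * K + 1)).card := by
            apply card_le_card
            intro p hp
            rw [mem_filter] at hp
            rw [mem_range]
            exact hp.2
        _ = 4 * K + 1 := card_range _
  · exact pow_le_pow_left₀ (by norm_num) (s7_half z) _
  · positivity
  · apply prod_nonneg
    intro p _
    split_ifs <;> positivity

private theorem s7_ev (C : ℝ) (n : ℕ) : ∀ᶠ t : ℝ in Filter.atTop, (C * Real.log t) ^ n ≤ t / 2 := by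
  have h1 := (Real.isLittleO_pow_log_id_atTop (n := n)).bound
    (show (0 : ℝ) < 1 / (2 * (|C| ^ n + 1)) by positivity)
  filter_upwards [h1, Filter.eventually_ge_atTop (0 : ℝ)] with t ht ht0
  rw [id, Real.norm_eq_abs, Real.norm_eq_abs, abs_of_nonneg ht0] at ht
  have h2 : (C * Real.log t) ^ n ≤ |C| ^ n * |Real.log t ^ n| := by
    rw [mul_pow]
    refine (le_abs_self _).trans ?_
    rw [abs_mul, abs_pow]
  have h3 : |C| ^ n * |Real.log t ^ n| ≤ |C| ^ n * (1 / (2 * (|C| ^ n + 1)) * t) := by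
    apply mul_le_mul_of_nonneg_left ht (by positivity)
  refine h2.trans (h3.trans ?_)
  have h4 : |C| ^ n * (1 / (2 * (|C| ^ n + 1)) * t) = (|C| ^ n / (|C| ^ n + 1)) * (t / 2) := by
    field_simp
  rw [h4]
  have h5 : |C| ^ n / (|C| ^ n + 1) ≤ 1 := by
    rw [div_le_one (by positivity)]
    linarith
  have h6 : 0 ≤ t / 2 := by positivity
  nlinarith

private theorem s7_Vinv (k B : ℕ) : ∃ X₀ : ℕ, ∀ X z : ℕ, X₀ ≤ X → 2 ≤ z →
    (z : ℝ) ≤ (Real.log X) ^ B → ∀ Ω : ℕ → Finset ℕ, Nice k Ω →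
    0 < V1 Ω z ∧ (V1 Ω z)⁻¹ ≤ Real.log X / 2 ∧ 1 < Real.log X := by
  obtain ⟨C, hC, hV⟩ := num_V1 k
  have htend : Filter.Tendsto (fun X : ℕ => Real.log (X : ℝ)) Filter.atTop Filter.atTop :=
    Real.tendsto_log_atTop.comp tendsto_natCast_atTop_atTop
  have h1 := htend.eventually (s7_ev (C * B) (2 * k))
  have h2 := htend.eventually (Filter.eventually_gt_atTop (1 : ℝ))
  obtain ⟨X₀, hX₀⟩ := Filter.eventually_atTop.1 (h1.and h2)
  refine ⟨X₀, fun X z hX hz hzX Ω hΩ => ?_⟩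
  obtain ⟨g1, g2⟩ := hX₀ X hX
  obtain ⟨v1, v2, v3⟩ := hV Ω hΩ z hz
  refine ⟨v1, v3.trans ?_, g2⟩
  refine le_trans ?_ g1
  have hz2 : (2 : ℝ) ≤ z := by exact_mod_cast hz
  have hlz : 0 ≤ Real.log z := Real.log_nonneg (by linarith)
  have h3 : Real.log z ≤ B * Real.log (Real.log X) := by
    rw [← Real.log_pow]
    exact Real.log_le_log (by linarith) hzX
  have hC0 : 0 ≤ C := by linarith
  apply pow_le_pow_left₀ (by positivity)
  rw [mul_assoc]
  exact mul_le_mul_of_nonneg_left h3 hC0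

/-- the count in an interval -/
private theorem s7_count (K B : ℕ) : ∃ c' : ℝ, 0 < c' ∧ ∃ X₀ : ℕ, ∀ X z : ℕ, X₀ ≤ X →
    (z : ℝ) ≤ (Real.log X) ^ B → ∀ Ω : ℕ → Finset ℕ, (∀ p, (Ω p).card ≤ K) →
    (∀ p, ∀ c ∈ Ω p, c < p) → ∀ n L : ℕ, X < n → n + L ≤ 2 * X + 1 →
    L * V1 Ω z - 4 * X * (X : ℝ) ^ (-c') ≤ (((Ico n (n + L)).filter (fun x => x ∈ Pre Ω z X)).card : ℝ) := by
  classical
  obtain ⟨c, hc, X₂, hpar⟩ := layB_param K B (1 / 1000) (by norm_num)
  set c' : ℝ := min c (999 / 1000) with hc'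
  have hc'0 : 0 < c' := lt_min hc (by norm_num)
  refine ⟨c', hc'0, max X₂ 1, fun X z hX hzX Ω hΩK hΩlt n L hn hnL => ?_⟩
  have hXb : X₂ ≤ X := le_trans (le_max_left _ _) hX
  have hXd : 1 ≤ X := le_trans (le_max_right _ _) hX
  obtain ⟨m, hm⟩ := hpar X z hXb hzX
  have hX1 : (1 : ℝ) ≤ X := by exact_mod_cast hXd
  have hX0 : (0 : ℝ) < X := by linarith
  have hprime : ∀ p ∈ PP 0 z, p.Prime := fun p hp => (s7_PP z p hp).1
  set I := Ico n (n + L) with hI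
  have hIsub : I ⊆ Ioc X (2 * X) := by
    intro x hx
    rw [hI, mem_Ico] at hx
    rw [mem_Ioc]
    omega
  set w : ℕ → ℝ := fun x => if x ∈ I then 1 else 0 with hw
  have t1 := layB_trunc hXd (by norm_num) hm Ω hΩK (fun p _ => hΩlt p) w 1
    (by norm_num) (fun n _ => by
      rw [hw]
      dsimp only
      split_ifs <;> simp)
  have t2 := (layB_V hm Ω hΩK).1
  have t3 := layB_low hXd hm Ω hΩK
  have e1 : ∑ x ∈ Pre Ω z X, w x = ((I.filter (fun x => x ∈ Pre Ω z X)).card : ℝ) := by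
    rw [hw, ← sum_filter, sum_const, nsmul_eq_mul, mul_one]
    congr 2
    ext x
    rw [mem_filter, mem_filter]
    exact and_comm
  have e2 : ∀ d : Finset ℕ, ∑ x ∈ (Ioc X (2 * X)).filter (fun x => ∀ p ∈ d, x % p ∈ Ω p), w x =
      ((I.filter (fun x => ∀ p ∈ d, x % p ∈ Ω p)).card : ℝ) := by
    intro d
    rw [hw, ← sum_filter, sum_const, nsmul_eq_mul, mul_one]
    congr 2
    ext x
    rw [mem_filter, mem_filter, mem_filter]
    constructor
    · rintro ⟨⟨_, b⟩, c⟩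
      exact ⟨c, b⟩
    · rintro ⟨a, b⟩
      exact ⟨⟨hIsub a, b⟩, a⟩
  rw [e1] at t1
  simp only [e2] at t1
  set S1 : ℝ := ∑ d ∈ (PP 0 z).powerset with d.card ≤ m, ((-1 : ℝ) ^ d.card *
    ((I.filter (fun x => ∀ p ∈ d, x % p ∈ Ω p)).card : ℝ)) with hS1
  set S2 : ℝ := ∑ d ∈ (PP 0 z).powerset with d.card ≤ m,
    ((-1 : ℝ) ^ d.card * ∏ p ∈ d, ((Ω p).card : ℝ) / p) with hS2
  have t4 : |S1 - L * S2| ≤ (X : ℝ) ^ ((1 : ℝ) / 1000) := by
    refine le_trans ?_ t3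
    rw [hS1, hS2, mul_sum, ← sum_sub_distrib]
    refine (abs_sum_le_sum_abs _ _).trans (sum_le_sum fun d hd => ?_)
    rw [mem_filter, mem_powerset] at hd
    have h1 := GT.abs_card_sub_le d (fun p hp => hprime p (hd.1 hp)) Ω (fun p _ => hΩlt p) n L
    have h2 : (-1 : ℝ) ^ d.card * ((I.filter (fun x => ∀ p ∈ d, x % p ∈ Ω p)).card : ℝ) -
        L * ((-1 : ℝ) ^ d.card * ∏ p ∈ d, ((Ω p).card : ℝ) / p) =
        (-1 : ℝ) ^ d.card * (((I.filter (fun x => ∀ p ∈ d, x % p ∈ Ω p)).card : ℝ) -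
          L * (∏ p ∈ d, ((Ω p).card : ℝ) / p)) := by ring
    rw [h2, abs_mul, abs_pow, abs_neg, abs_one, one_pow, one_mul]
    exact h1
  have p1 : (X : ℝ) ^ (-c) ≤ (X : ℝ) ^ (-c') :=
    Real.rpow_le_rpow_of_exponent_le hX1 (by linarith [min_le_left c (999 / 1000)])
  have p2 : (X : ℝ) ^ ((1 : ℝ) / 1000) ≤ X * (X : ℝ) ^ (-c') := by
    have : (X : ℝ) * (X : ℝ) ^ (-c') = (X : ℝ) ^ (1 + -c') := by
      rw [Real.rpow_add hX0, Real.rpow_one]
    rw [this]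
    exact Real.rpow_le_rpow_of_exponent_le hX1 (by linarith [min_le_right c (999 / 1000)])
  have hLX : (L : ℝ) ≤ X := by
    have : L ≤ X := by omega
    exact_mod_cast this
  have hneg : 0 ≤ (X : ℝ) ^ (-c') := by positivity
  have q1 : L * |S2 - V1 Ω z| ≤ X * (X : ℝ) ^ (-c') :=
    mul_le_mul hLX (t2.trans p1) (abs_nonneg _) hX0.le
  have q2 : 2 * 1 * (X : ℝ) * (X : ℝ) ^ (-c) ≤ 2 * X * (X : ℝ) ^ (-c') := by
    rw [mul_one]
    exact mul_le_mul_of_nonneg_left p1 (by positivity)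
  have q3 : |L * S2 - L * V1 Ω z| ≤ X * (X : ℝ) ^ (-c') := by
    rw [← mul_sub, abs_mul, abs_of_nonneg (Nat.cast_nonneg L)]
    exact q1
  have a1 := (abs_le.1 t1).1
  have a2 := (abs_le.1 t4).1
  have a3 := (abs_le.1 q3).1
  linarith

theorem sing7 (K : ℕ) (hK : 1 ≤ K) : ∃ c₀ : ℝ, 0 < c₀ ∧ ∀ B : ℕ, ∃ X₀ : ℕ, ∀ X z : ℕ, X₀ ≤ X → 2 ≤ z →
    (z : ℝ) ≤ (Real.log X) ^ B → ∀ s : ℕ, Even s → 2 * X + X / 8 ≤ s → s + X / 8 ≤ 4 * X →
    c₀ * X ≤ ∑ x ∈ Ioc X (2 * X), mu (Om (gt K)) z X x *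
      (if x + (K + 1) * (2 * K).factorial ≤ s then
        mu (Om (gt K)) z X (s - (x + (K + 1) * (2 * K).factorial)) else 0) := by
  classical
  set H := (K + 1) * (2 * K).factorial with hH
  set c₁ : ℝ := (1 / ((4 * K : ℕ) : ℝ)) ^ (4 * K + 1) * (1 / 2) ^ (8 * K ^ 2) with hc₁
  have hc₁0 : 0 < c₁ := by
    have : (0 : ℝ) < ((4 * K : ℕ) : ℝ) := by exact_mod_cast (by omega : 0 < 4 * K)
    positivity
  refine ⟨c₁ / 32, by positivity, fun B => ?_⟩
  obtain ⟨X₁, hV⟩ := s7_Vinv K B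
  obtain ⟨c', hc'0, X₂, hcnt⟩ := s7_count (2 * K) B
  have hb := (isLittleO_log_rpow_atTop (show (0 : ℝ) < c' / 2 by positivity)).bound
    (show (0 : ℝ) < min 1 (c₁ / 32) by positivity)
  obtain ⟨X₃, hX₃⟩ := Filter.eventually_atTop.1 (tendsto_natCast_atTop_atTop (R := ℝ) |>.eventually hb)
  refine ⟨max (max X₁ X₂) (max X₃ (16 * (H + 4))), fun X z hX hz hzX s hs hs1 hs2 => ?_⟩
  have hXa : X₁ ≤ X := le_trans (le_trans (le_max_left _ _) (le_max_left _ _)) hX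
  have hXb : X₂ ≤ X := le_trans (le_trans (le_max_right _ _) (le_max_left _ _)) hX
  have hXc : X₃ ≤ X := le_trans (le_trans (le_max_left _ _) (le_max_right _ _)) hX
  have hXd : 16 * (H + 4) ≤ X := le_trans (le_trans (le_max_right _ _) (le_max_right _ _)) hX
  obtain ⟨v1, v2, v3⟩ := hV X z hXa hz hzX (Om (gt K)) (s7_nice K)
  -- the interval
  obtain ⟨n, hn1, hn2, hn3, hn4⟩ : ∃ n : ℕ, X < n ∧ s ≤ n + H + 2 * X ∧ n + (X / 8 - H - 2) ≤ 2 * X + 1 ∧
      n + (X / 8 - H - 2) + H + X ≤ s := by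
    rcases Nat.lt_or_ge (3 * X + H) s with h | h
    · exact ⟨s - 2 * X - H, by omega, by omega, by omega, by omega⟩
    · exact ⟨X + 1, by omega, by omega, by omega, by omega⟩
  set L := X / 8 - H - 2 with hL
  have hcount := hcnt X z hXb hzX (Om2 (gt K) s) (fun p => by
      have := Om2_card (gt K) s p
      rwa [Fintype.card_fin] at this) (fun p => Om2_lt (gt K) s p) n L hn1 hn3
  set T := (Ico n (n + L)).filter (fun x => x ∈ Pre (Om2 (gt K) s) z X) with hT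
  have hmu0 : ∀ x, 0 ≤ mu (Om (gt K)) z X x := by
    intro x
    unfold mu
    split_ifs
    · exact (inv_pos.mpr v1).le
    · exact le_rfl
  have hsub : T ⊆ Ioc X (2 * X) := by
    intro x hx
    rw [hT, mem_filter, mem_Ico] at hx
    rw [mem_Ioc]
    omega
  have hterm : ∀ x ∈ T, (V1 (Om (gt K)) z)⁻¹ ^ 2 ≤ mu (Om (gt K)) z X x *
      (if x + H ≤ s then mu (Om (gt K)) z X (s - (x + H)) else 0) := by
    intro x hx
    have hxI := hsub hx
    rw [hT, mem_filter, mem_Ico] at hx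
    obtain ⟨⟨hx1, hx2⟩, hx3⟩ := hx
    have hxs : x + H ≤ s := by omega
    rw [if_pos hxs]
    unfold Pre at hx3
    rw [mem_filter] at hx3
    have e1 : mu (Om (gt K)) z X x = (V1 (Om (gt K)) z)⁻¹ := by
      unfold mu
      rw [if_pos]
      unfold Pre
      rw [mem_filter]
      refine ⟨hxI, fun p hp hmem => ?_⟩
      apply hx3.2 p hp
      obtain ⟨h1, i, hi⟩ := (s7_memOm _ _ _).mp hmem
      exact (s7_memOm2 _ _ _ _).mpr ⟨h1, i, Or.inl hi⟩
    have e2 : mu (Om (gt K)) z X (s - (x + H)) = (V1 (Om (gt K)) z)⁻¹ := by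
      unfold mu
      rw [if_pos]
      unfold Pre
      rw [mem_filter, mem_Ioc]
      refine ⟨⟨by omega, by omega⟩, fun p hp hmem => ?_⟩
      apply hx3.2 p hp
      obtain ⟨h1, i, hi⟩ := (s7_memOm _ _ _).mp hmem
      have hpp := (s7_PP z p hp).1
      refine (s7_memOm2 _ _ _ _).mpr ⟨Nat.mod_lt _ hpp.pos, Fin.rev i, Or.inr ?_⟩
      have h5 := s7_rev K i
      rw [← hH] at h5
      -- (s - (x+H)) + gt i ≡ 0
      have h6 : (s - (x + H)) + gt K i ≡ 0 [MOD p] := by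
        have h7 : (s - (x + H)) % p + gt K i ≡ (s - (x + H)) + gt K i [MOD p] :=
          Nat.ModEq.add_right _ (Nat.mod_modEq _ _)
        exact h7.symm.trans (Nat.modEq_zero_iff_dvd.mpr hi)
      have h8 : x % p + gt K (Fin.rev i) ≡ x + gt K (Fin.rev i) [MOD p] :=
        Nat.ModEq.add_right _ (Nat.mod_modEq _ _)
      refine h8.trans ?_
      have h9 : (x + gt K (Fin.rev i)) + ((s - (x + H)) + gt K i) = s := by omega
      have h10 : (x + gt K (Fin.rev i)) + ((s - (x + H)) + gt K i) ≡ (x + gt K (Fin.rev i)) + 0 [MOD p] :=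
        Nat.ModEq.add_left _ h6
      rw [h9, add_zero] at h10
      exact h10.symm
    rw [e1, e2, pow_two]
  have h1 : ((T.card : ℕ) : ℝ) * (V1 (Om (gt K)) z)⁻¹ ^ 2 ≤
      ∑ x ∈ Ioc X (2 * X), mu (Om (gt K)) z X x *
        (if x + H ≤ s then mu (Om (gt K)) z X (s - (x + H)) else 0) := by
    calc ((T.card : ℕ) : ℝ) * (V1 (Om (gt K)) z)⁻¹ ^ 2 = ∑ x ∈ T, (V1 (Om (gt K)) z)⁻¹ ^ 2 := by
          rw [sum_const, nsmul_eq_mul]
      _ ≤ ∑ x ∈ T, mu (Om (gt K)) z X x *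
          (if x + H ≤ s then mu (Om (gt K)) z X (s - (x + H)) else 0) := sum_le_sum hterm
      _ ≤ _ := by
          refine sum_le_sum_of_subset_of_nonneg hsub fun x _ _ => ?_
          refine mul_nonneg (hmu0 x) ?_
          split_ifs
          · exact hmu0 _
          · exact le_rfl
  refine le_trans ?_ h1
  have hVV := s7_V K s z hK hs
  rw [← hc₁] at hVV
  set V := V1 (Om (gt K)) z with hVdef
  have hXr : (0 : ℝ) < X := by
    have : 0 < X := by omega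
    exact_mod_cast this
  have hLr : (X : ℝ) / 16 ≤ L := by
    have h5 : X ≤ 16 * L := by omega
    have h6 : (X : ℝ) ≤ 16 * L := by exact_mod_cast h5
    linarith
  have hlog := hX₃ X hXc
  rw [Real.norm_eq_abs, Real.norm_eq_abs, abs_of_nonneg (by linarith : (0 : ℝ) ≤ Real.log X),
    abs_of_nonneg (by positivity : (0 : ℝ) ≤ (X : ℝ) ^ (c' / 2))] at hlog
  have hlog2 : (Real.log X) ^ 2 ≤ c₁ / 32 * (X : ℝ) ^ c' := by
    have m1 : min 1 (c₁ / 32) ^ 2 ≤ c₁ / 32 := by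
      have m2 : 0 ≤ min 1 (c₁ / 32) := by positivity
      have m3 : min 1 (c₁ / 32) ≤ 1 := min_le_left _ _
      have m4 : min 1 (c₁ / 32) ≤ c₁ / 32 := min_le_right _ _
      nlinarith
    have m5 : ((X : ℝ) ^ (c' / 2)) ^ 2 = (X : ℝ) ^ c' := by
      rw [← Real.rpow_natCast, ← Real.rpow_mul hXr.le]
      congr 1
      push_cast
      ring
    calc (Real.log X) ^ 2 ≤ (min 1 (c₁ / 32) * (X : ℝ) ^ (c' / 2)) ^ 2 :=
          pow_le_pow_left₀ (by linarith) hlog 2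
      _ = min 1 (c₁ / 32) ^ 2 * (X : ℝ) ^ c' := by rw [mul_pow, m5]
      _ ≤ c₁ / 32 * (X : ℝ) ^ c' := mul_le_mul_of_nonneg_right m1 (by positivity)
  have hone : (X : ℝ) ^ c' * (X : ℝ) ^ (-c') = 1 := by
    rw [← Real.rpow_add hXr]
    simp
  have hneg : 0 < (X : ℝ) ^ (-c') := by positivity
  have hVi : 0 < V⁻¹ := inv_pos.2 v1
  have hVi2 : V⁻¹ ^ 2 ≤ (Real.log X) ^ 2 / 4 := by
    calc V⁻¹ ^ 2 ≤ (Real.log X / 2) ^ 2 := pow_le_pow_left₀ hVi.le v2 2
      _ = (Real.log X) ^ 2 / 4 := by ring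
  have herr : 4 * X * (X : ℝ) ^ (-c') * V⁻¹ ^ 2 ≤ c₁ / 32 * X := by
    calc 4 * X * (X : ℝ) ^ (-c') * V⁻¹ ^ 2 ≤ 4 * X * (X : ℝ) ^ (-c') * ((Real.log X) ^ 2 / 4) :=
          mul_le_mul_of_nonneg_left hVi2 (by positivity)
      _ = X * (X : ℝ) ^ (-c') * (Real.log X) ^ 2 := by ring
      _ ≤ X * (X : ℝ) ^ (-c') * (c₁ / 32 * (X : ℝ) ^ c') :=
          mul_le_mul_of_nonneg_left hlog2 (by positivity)
      _ = c₁ / 32 * X * ((X : ℝ) ^ c' * (X : ℝ) ^ (-c')) := by ring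
      _ = c₁ / 32 * X := by rw [hone, mul_one]
  have hmain : (L : ℝ) * V1 (Om2 (gt K) s) z * V⁻¹ ^ 2 - 4 * X * (X : ℝ) ^ (-c') * V⁻¹ ^ 2 ≤
      ((T.card : ℕ) : ℝ) * V⁻¹ ^ 2 := by
    rw [← sub_mul]
    exact mul_le_mul_of_nonneg_right hcount (by positivity)
  have hbig : (X : ℝ) / 16 * c₁ ≤ (L : ℝ) * V1 (Om2 (gt K) s) z * V⁻¹ ^ 2 := by
    calc (X : ℝ) / 16 * c₁ ≤ L * c₁ := mul_le_mul_of_nonneg_right hLr hc₁0.le
      _ = L * (c₁ * V ^ 2) * V⁻¹ ^ 2 := by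
          have : V ≠ 0 := v1.ne'
          field_simp
      _ ≤ _ := by
          apply mul_le_mul_of_nonneg_right _ (by positivity)
          exact mul_le_mul_of_nonneg_left hVV (Nat.cast_nonneg L)
  linarith

end Pool.Agent.Lib.SG
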