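import Pool.Agent.Lib.SG.Per
import Pool.Agent.Lib.SG.Amft

/-!
# SG-Ups7: few representations make the correlation of the two weights small

PROOF. `ups` with a = am A h w, b = am B h' w' (supported on primes of A, B, see the private lemma One_supp in One.lean), `am_supp` (last clause): `(∑)² ≤ 8X · X/(log X)^(2c+2) · (k² X (log X)^c)² = 8 k⁴ X⁴/(log X)² ≤ (3 k² X²/log X)²`
(|E| ≤ 8X), then `abs_le_of_sq_le_sq` or `pow_le_pow_left₀`. The end of One.lean (hrep, hsq) can be copied.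
-/

set_option autoImplicit false

open Finset

namespace Pool.Agent.Lib.SG

private theorem ups7_supp {k : ℕ} (A : Set ℕ) (h : Fin k → ℕ) (w : ℕ → ℝ) (n : ℕ)
    (hn : am A h w n ≠ 0) : n ∈ A ∧ n.Prime := by
  by_contra hc
  apply hn
  unfold am
  refine sum_eq_zero fun i _ => ?_
  rw [if_neg]
  rintro ⟨_, h2, h3⟩
  exact hc ⟨h2, h3⟩

theorem ups7 {k : ℕ} (X c : ℕ) (hX : 1 ≤ X) (hlog : 1 ≤ Real.log X) (E : Finset ℕ)
    (hE : E ⊆ range (8 * X)) (A B : Set ℕ) (hrep : ∀ s ∈ E, (rep A B s : ℝ) ≤ X / (Real.log X) ^ (2 * c + 2))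
    (h h' : Fin k → ℕ) (hh : ∀ i, h i ≤ X) (hh' : ∀ i, h' i ≤ X) (w w' : ℕ → ℝ) (hw0 : ∀ x, 0 ≤ w x)
    (hw0' : ∀ x, 0 ≤ w' x) (hw : ∀ x, x ∉ Ioc X (2 * X) → w x = 0) (hw' : ∀ x, x ∉ Ioc X (2 * X) → w' x = 0)
    (hl : ∑ x ∈ Ioc X (2 * X), (w x) ^ 2 ≤ X * (Real.log X) ^ c)
    (hl' : ∑ x ∈ Ioc X (2 * X), (w' x) ^ 2 ≤ X * (Real.log X) ^ c) :
    ∑ n ∈ Ioc X (3 * X), am A h w n * cor E (am B h' w') n ≤ 3 * k ^ 2 * X ^ 2 / Real.log X := by
  obtain ⟨-, a2, -, -, a5⟩ := am_supp A h w X hh hw hw0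
  obtain ⟨b1, b2, -, -, b5⟩ := am_supp B h' w' X hh' hw' hw0'
  have h0 := ups X E A B (am A h w) (am B h' w') a2 b2 (ups7_supp A h w) (ups7_supp B h' w') b1
  have hXR : (1 : ℝ) ≤ X := by exact_mod_cast hX
  set L := Real.log X with hL
  have hL0 : 0 < L := by linarith
  have hk0 : (0 : ℝ) ≤ k := Nat.cast_nonneg k
  have h1 : ∑ s ∈ E, (rep A B s : ℝ) ≤ 8 * X * (X / L ^ (2 * c + 2)) := by
    calc ∑ s ∈ E, (rep A B s : ℝ) ≤ ∑ _s ∈ E, X / L ^ (2 * c + 2) := sum_le_sum hrep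
      _ = E.card * (X / L ^ (2 * c + 2)) := by rw [sum_const, nsmul_eq_mul]
      _ ≤ 8 * X * (X / L ^ (2 * c + 2)) := by
          refine mul_le_mul_of_nonneg_right ?_ (by positivity)
          have h2 := card_le_card hE
          rw [card_range] at h2
          exact_mod_cast h2
  have h2 : ∑ n ∈ Ioc X (3 * X), (am A h w n) ^ 2 ≤ k ^ 2 * (X * L ^ c) :=
    a5.trans (mul_le_mul_of_nonneg_left hl (by positivity))
  have h3 : ∑ n ∈ Ioc X (3 * X), (am B h' w' n) ^ 2 ≤ k ^ 2 * (X * L ^ c) :=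
    b5.trans (mul_le_mul_of_nonneg_left hl' (by positivity))
  have h4 : (∑ n ∈ Ioc X (3 * X), am A h w n * cor E (am B h' w') n) ^ 2 ≤
      (3 * k ^ 2 * X ^ 2 / L) ^ 2 := by
    refine h0.trans ?_
    calc _ ≤ (8 * X * (X / L ^ (2 * c + 2))) * ((k ^ 2 * (X * L ^ c)) * (k ^ 2 * (X * L ^ c))) := by
          refine mul_le_mul h1 (mul_le_mul h2 h3 (sum_nonneg fun _ _ => sq_nonneg _) (by positivity))
            (mul_nonneg (sum_nonneg fun _ _ => sq_nonneg _) (sum_nonneg fun _ _ => sq_nonneg _))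
            (by positivity)
      _ = 8 * k ^ 4 * X ^ 4 / L ^ 2 := by
          rw [show L ^ (2 * c + 2) = L ^ c * L ^ c * L ^ 2 by ring]
          field_simp
      _ ≤ 9 * k ^ 4 * X ^ 4 / L ^ 2 := by
          refine div_le_div_of_nonneg_right ?_ (by positivity)
          have : (0 : ℝ) ≤ k ^ 4 * X ^ 4 := by positivity
          linarith
      _ = _ := by
          rw [div_pow]
          ring
  exact (abs_le_of_sq_le_sq' h4 (by positivity)).2

end Pool.Agent.Lib.SG
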