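import Pool.Agent.Lib.SG.Weights7
import Pool.Agent.Lib.SG.Rstw
import Pool.Agent.Lib.SG.Badp
import Pool.Agent.Lib.SG.Goodp
import Pool.Agent.Lib.SG.Comb7
import Pool.Agent.Lib.SG.Qk7
import Pool.Agent.Lib.SG.Ups7
import Pool.Agent.Lib.SG.Nfin
import Pool.Agent.Lib.SG.Clo7
import Pool.Agent.Lib.SG.Sing7

/-!
# SG-One7: one scale, clusters of bounded length (helper10)
-/

set_option autoImplicit false

open Finset

namespace Pool.Agent.Lib.SG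

open Pool.Agent.Lib.MT

private theorem one7_range (X : ℕ) (f : ℕ → ℝ) (hf : ∀ x, x ∉ Ioc X (2 * X) → f x = 0) :
    ∑ n ∈ range (4 * X), f n = ∑ x ∈ Ioc X (2 * X), f x := by
  symm
  apply sum_subset
  · intro x hx
    rw [mem_Ioc] at hx
    rw [mem_range]
    omega
  · intro x _ hx
    exact hf x hx

private theorem one7_ph {ι : Type*} (X : ℕ) (E : Finset ℕ) (S : Finset ι) (W : ι → ℕ → ℝ) (n : ℕ) :
    ph X E (fun n => ∑ e ∈ S, W e n) n = ∑ e ∈ S, ph X E (W e) n := by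
  unfold ph
  rw [sum_comm]

private theorem one7_ph0 {ι : Type*} (X : ℕ) (E : Finset ℕ) (S : Finset ι) (W : ι → ℕ → ℝ) (T : Finset ℕ)
    (n : ℕ) : ph0 X E (fun n => ∑ e ∈ S, W e n) T n = ∑ e ∈ S, ph0 X E (W e) T n := by
  unfold ph0
  rw [← mul_sum, sum_comm]
  congr 1
  exact sum_congr rfl fun t _ => one7_ph X E S W (n + t)

private theorem one7_clo {ι : Type*} (X t : ℕ) (E : Finset ℕ) (S : Finset ι) (W : ι → ℕ → ℝ) (T : Finset ℕ)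
    (f : ℕ → ℝ) (b : ℝ)
    (h : ∀ e ∈ S, |∑ x ∈ Ioc X (2 * X), f x * (ph X E (W e) (x + t) - ph0 X E (W e) T (x + t))| ≤ b) :
    |∑ x ∈ Ioc X (2 * X), f x * (ph X E (fun n => ∑ e ∈ S, W e n) (x + t) -
      ph0 X E (fun n => ∑ e ∈ S, W e n) T (x + t))| ≤ S.card * b := by
  have h1 : ∑ x ∈ Ioc X (2 * X), f x * (ph X E (fun n => ∑ e ∈ S, W e n) (x + t) -
      ph0 X E (fun n => ∑ e ∈ S, W e n) T (x + t)) =
      ∑ e ∈ S, ∑ x ∈ Ioc X (2 * X), f x * (ph X E (W e) (x + t) - ph0 X E (W e) T (x + t)) := by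
    rw [sum_comm]
    refine sum_congr rfl fun x _ => ?_
    rw [one7_ph, one7_ph0, ← sum_sub_distrib, mul_sum]
  rw [h1]
  refine (abs_sum_le_sum_abs _ _).trans ((sum_le_sum h).trans (le_of_eq ?_))
  rw [sum_const, nsmul_eq_mul]

private theorem one7_sing (X H₀ : ℕ) (r : ℕ → ℝ) (E : Finset ℕ) (c₀ : ℝ)
    (hs : ∀ s ∈ E, c₀ * X ≤ ∑ x ∈ Ioc X (2 * X), r x * (if x + H₀ ≤ s then r (s - (x + H₀)) else 0)) :
    c₀ * X * E.card ≤ ∑ x ∈ Ioc X (2 * X), r x * cor E r (x + H₀) := by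
  have h1 : ∑ x ∈ Ioc X (2 * X), r x * cor E r (x + H₀) =
      ∑ s ∈ E, ∑ x ∈ Ioc X (2 * X), r x * (if x + H₀ ≤ s then r (s - (x + H₀)) else 0) := by
    rw [sum_comm]
    refine sum_congr rfl fun x _ => ?_
    unfold cor
    rw [mul_sum]
  rw [h1]
  calc c₀ * X * E.card = ∑ s ∈ E, c₀ * X := by rw [sum_const, nsmul_eq_mul]; ring
    _ ≤ _ := sum_le_sum hs

/-- the parameters -/
private theorem one7_key (G a' ε Y : ℝ) (k : ℕ) (hG : 1 ≤ G) (ha' : 0 < a') (hε : 0 < ε)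
    (h : (1 / ε) ^ (26 * (k + 1)) ≤ Y) (hY : (G / a' ^ 13) ^ 2 ≤ Y) :
    G * (1 / (a' * ε ^ (k + 1))) ^ 13 ≤ Y := by
  obtain ⟨P, hP⟩ : ∃ P : ℝ, P = (1 / ε) ^ (13 * (k + 1)) := ⟨_, rfl⟩
  have hP0 : 0 < P := by
    rw [hP]
    positivity
  have h1 : (1 / ε) ^ (26 * (k + 1)) = P ^ 2 := by
    rw [hP, ← pow_mul]
    congr 1
    ring
  have h2 : G * (1 / (a' * ε ^ (k + 1))) ^ 13 = G / a' ^ 13 * P := by
    have e1 : (ε ^ (k + 1)) ^ 13 = ε ^ (13 * (k + 1)) := by rw [← pow_mul, mul_comm]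
    rw [div_pow, mul_pow, e1, one_pow, hP, one_div_pow]
    field_simp
  rw [h1] at h
  rw [h2]
  have h3 : 0 ≤ Y := (sq_nonneg _).trans h
  have h4 : (G / a' ^ 13 * P) ^ 2 ≤ Y ^ 2 := by
    calc (G / a' ^ 13 * P) ^ 2 = (G / a' ^ 13) ^ 2 * P ^ 2 := by ring
      _ ≤ Y * Y := mul_le_mul hY h (sq_nonneg _) h3
      _ = Y ^ 2 := by ring
  exact le_of_sq_le_sq h4 h3

private def one7_e0 (k : ℕ) (i : Fin k) : Fin (2 * k) := ⟨i, by omega⟩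

private theorem one7_e0_inj (k : ℕ) : Function.Injective (one7_e0 k) := by
  intro i j hij
  unfold one7_e0 at hij
  rw [Fin.mk.injEq] at hij
  exact Fin.ext hij

open Classical in
theorem one7 (m : ℕ) (hm : 1 ≤ m) : ∃ H C D X₀ : ℕ, ∀ X : ℕ, X₀ ≤ X → ∀ ε : ℝ, 0 < ε → ε ≤ 1 →
    (1 / ε) ^ D ≤ Real.log (Real.log X) → ∀ A B : Set ℕ, Hit m H (2 * X) A → Hit m H (2 * X) B →
    (((range (8 * X)).filter (fun s => Even s ∧ 2 * X + X / 8 ≤ s ∧ s + X / 8 ≤ 4 * X ∧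
      (rep A B s : ℝ) < X / (Real.log X) ^ C)).card : ℝ) ≤ ε * X := by
  obtain ⟨k, c, B₁, hk, hc, hB, hW⟩ := weights7 m hm
  obtain ⟨C, hC, hRst⟩ := rst_w (2 * k)
  obtain ⟨c₀, hc₀, hsing0⟩ := sing7 (2 * k) (by omega)
  obtain ⟨a, b, ha, ha1, hb, hclo⟩ := clo7 k C hC
  obtain ⟨Inj, hInjd⟩ : ∃ Inj : Finset (Fin k → Fin (2 * k)), Inj = univ.filter Function.Injective :=
    ⟨_, rfl⟩
  have hInj : ∀ e, e ∈ Inj ↔ Function.Injective e := fun e => by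
    rw [hInjd, mem_filter]
    exact ⟨fun h => h.2, fun h => ⟨mem_univ _, h⟩⟩
  obtain ⟨N, hN⟩ : ∃ N : ℕ, N = Inj.card := ⟨_, rfl⟩
  have hN1 : 1 ≤ N := by
    rw [hN]
    exact card_pos.2 ⟨one7_e0 k, (hInj _).2 (one7_e0_inj k)⟩
  obtain ⟨G₁, hG₁, hqk⟩ := qk7 k N a b ha ha1 hb
  obtain ⟨a', G₂, ha'0, ha'1, ha'm, hG₂, hnfin⟩ := nfin c₀ C N k m hc₀ hC hN1 hk hm
  obtain ⟨G, hG⟩ : ∃ G : ℝ, G = G₁ + 8 / a + G₂ := ⟨_, rfl⟩
  have h8a : 0 < 8 / a := by positivity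
  have hGG1 : G₁ ≤ G := by linarith
  have hGa : 8 / a ≤ G := by linarith
  have hGG2 : G₂ ≤ G := by linarith
  have hG1 : 1 ≤ G := by linarith
  obtain ⟨F, hF⟩ : ∃ F : ℕ, F = (2 * (2 * k)).factorial := ⟨_, rfl⟩
  obtain ⟨H, hH⟩ : ∃ H : ℕ, H = (2 * k) * F := ⟨_, rfl⟩
  obtain ⟨H₀, hH₀⟩ : ∃ H₀ : ℕ, H₀ = (2 * k + 1) * F := ⟨_, rfl⟩
  have hHH₀ : H ≤ H₀ := by
    rw [hH, hH₀]
    exact Nat.mul_le_mul_right _ (by omega)
  obtain ⟨X₁, hwt0⟩ := hW H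
  obtain ⟨X₂, hrst⟩ := hRst c B₁ hc
  obtain ⟨X₃, hsing⟩ := hsing0 B₁
  obtain ⟨X₄, hmu2⟩ := mu2 (2 * k) B₁
  obtain ⟨X₅, hmass7⟩ := mumass7 (2 * k) B₁
  obtain ⟨K₄, hK₄⟩ : ∃ K₄ : ℝ, K₄ = 211 * C ^ 6 + 8 := ⟨_, rfl⟩
  obtain ⟨X₆, hlogX⟩ := Filter.eventually_atTop.1 (RNum6_log.eventually_ge_atTop (K₄ + 9))
  obtain ⟨X₇, hloglogX⟩ := Filter.eventually_atTop.1
    ((Real.tendsto_log_atTop.comp RNum6_log).eventually_ge_atTop ((G / a' ^ 13) ^ 2))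
  refine ⟨H, 2 * c + 2, 26 * (k + 1), max (max (max X₁ X₂) (max X₃ X₄)) (max (max X₅ X₆) (max X₇ (H₀ + 1))),
    fun X hX ε hε hε1 hεD A B hA hB' => ?_⟩
  simp only [max_le_iff] at hX
  obtain ⟨⟨⟨hX1, hX2⟩, hX3, hX4⟩, ⟨hX5, hX6⟩, hX7, hXH⟩ := hX
  have hkR : (1 : ℝ) ≤ k := by exact_mod_cast hk
  have hmR : (1 : ℝ) ≤ m := by exact_mod_cast hm
  have hNR : (1 : ℝ) ≤ N := by exact_mod_cast hN1
  have hC6 : 1 ≤ C ^ 6 := one_le_pow₀ hC
  have hlog := hlogX X hX6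
  have hK₄0 : 0 ≤ K₄ := by
    rw [hK₄]
    positivity
  have hlog9 : 9 ≤ Real.log X := by linarith
  have hlog0 : 0 < Real.log X := by linarith
  have hlog1 : 1 ≤ Real.log X := by linarith
  have hX1' : 1 ≤ X := by omega
  have hXR : (1 : ℝ) ≤ X := by exact_mod_cast hX1'
  have hX0 : (0 : ℝ) < X := by linarith
  have hHX : H ≤ X := by omega
  have hH₀X : H₀ ≤ X := by omega
  have hloglog : (G / a' ^ 13) ^ 2 ≤ Real.log (Real.log X) := hloglogX X hX7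
  have hYL : Real.log (Real.log X) ≤ Real.log X := by
    have := Real.log_le_sub_one_of_pos hlog0
    linarith
  -- the parameters
  obtain ⟨κ, hκd⟩ : ∃ κ : ℝ, κ = a' * ε ^ (k + 1) := ⟨_, rfl⟩
  obtain ⟨τ, hτd⟩ : ∃ τ : ℝ, τ = c₀ * ε / (8 * k ^ 2) := ⟨_, rfl⟩
  have hεk : ε ^ (k + 1) ≤ 1 := pow_le_one₀ hε.le hε1
  have hεk0 : 0 < ε ^ (k + 1) := by positivity
  have hκ : 0 < κ := by
    rw [hκd]
    positivity
  have hκa' : κ ≤ a' := by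
    rw [hκd]
    exact mul_le_of_le_one_right ha'0.le hεk
  have hκ1 : κ ≤ 1 := hκa'.trans ha'1
  have hκm : m * κ ≤ 1 := (mul_le_mul_of_nonneg_left hκa' (by linarith)).trans ha'm
  have hτ : 0 < τ := by
    rw [hτd]
    positivity
  have hkey := one7_key G a' ε _ k hG1 ha'0 hε hεD hloglog
  rw [← hκd] at hkey
  have hκinv : 1 ≤ 1 / κ := by
    rw [one_le_div hκ]
    exact hκ1
  have hκ13 : (1 / κ) ^ 4 ≤ (1 / κ) ^ 13 := pow_le_pow_right₀ hκinv (by norm_num)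
  have hκ4 : ∀ x : ℝ, 0 ≤ x → x ≤ G → x ≤ κ ^ 4 * Real.log X := by
    intro x hx hxG
    have e1 : x * (1 / κ) ^ 4 ≤ Real.log X := by
      calc x * (1 / κ) ^ 4 ≤ G * (1 / κ) ^ 13 := mul_le_mul hxG hκ13 (by positivity) (by linarith)
        _ ≤ Real.log X := hkey.trans hYL
    have e2 : x = κ ^ 4 * (x * (1 / κ) ^ 4) := by
      field_simp
    rw [e2]
    exact mul_le_mul_of_nonneg_left e1 (by positivity)
  have hκL : 1 ≤ κ ^ 4 * Real.log X := hκ4 1 zero_le_one hG1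
  have hκL8 : 8 ≤ a * κ ^ 4 * Real.log X := by
    have e1 := hκ4 (8 / a) h8a.le hGa
    rw [div_le_iff₀ ha] at e1
    linarith
  have hqkL : G₁ * (1 / κ) ^ 13 ≤ Real.log (Real.log X) := by
    refine le_trans ?_ hkey
    apply mul_le_mul_of_nonneg_right hGG1 (by positivity)
  have hεL : G₂ * (1 / ε) ^ (k + 1) ≤ Real.log X := by
    have e1 : (1 / ε) ^ (k + 1) ≤ 1 / κ := by
      rw [hκd, one_div_pow]
      apply one_div_le_one_div_of_le (by positivity)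
      exact mul_le_of_le_one_left hεk0.le ha'1
    have e2 : 1 / κ ≤ (1 / κ) ^ 13 := by
      calc 1 / κ = (1 / κ) ^ 1 := (pow_one _).symm
        _ ≤ (1 / κ) ^ 13 := pow_le_pow_right₀ hκinv (by norm_num)
    calc G₂ * (1 / ε) ^ (k + 1) ≤ G * (1 / κ) ^ 13 :=
          mul_le_mul hGG2 (e1.trans e2) (by positivity) (by linarith)
      _ ≤ Real.log X := hkey.trans hYL
  have hfin := hnfin ε (Real.log X) τ κ hε hε1 hεL hτd hκd
  -- z
  obtain ⟨z, hz⟩ : ∃ z : ℕ, z = ⌊(Real.log X) ^ B₁⌋₊ := ⟨_, rfl⟩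
  have hzB : (z : ℝ) ≤ (Real.log X) ^ B₁ := by
    rw [hz]
    exact Nat.floor_le (by positivity)
  have hz5 : (Real.log X) ^ (5 * c) ≤ z := by
    have a1 : (Real.log X) ^ B₁ < z + 1 := by
      rw [hz]
      exact Nat.lt_floor_add_one _
    have a2 : (Real.log X) ^ (5 * c + 1) ≤ (Real.log X) ^ B₁ := pow_le_pow_right₀ hlog1 hB
    have a3 : 1 ≤ (Real.log X) ^ (5 * c) := one_le_pow₀ hlog1
    rw [pow_succ] at a2
    nlinarith
  have hz2 : 2 ≤ z := by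
    have a1 : Real.log X ≤ (Real.log X) ^ (5 * c) := by
      calc Real.log X = (Real.log X) ^ 1 := (pow_one _).symm
        _ ≤ _ := pow_le_pow_right₀ hlog1 (by omega)
    have : (2 : ℝ) ≤ z := by linarith
    exact_mod_cast this
  obtain ⟨Ω, hΩ⟩ : ∃ Ω : ℕ → Finset ℕ, Ω = Om (gt (2 * k)) := ⟨_, rfl⟩
  have hfacts : ∀ e : Fin k → Fin (2 * k), Function.Injective e →
      Nice (2 * k) Ω ∧ Cov Ω (fun i => gt (2 * k) (e i)) ∧
      Function.Injective (fun i => gt (2 * k) (e i)) ∧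
      (∀ i, 1 ≤ gt (2 * k) (e i) ∧ gt (2 * k) (e i) ≤ H) := by
    intro e he
    obtain ⟨f1, f2, f3, f4, -⟩ := gt_facts (2 * k) k (by omega) e he
    rw [hΩ]
    refine ⟨f1, f2, f3, fun i => ⟨(f4 i).1, ?_⟩⟩
    rw [hH, hF]
    exact (f4 i).2
  have hrev : ∀ j : Fin (2 * k), gt (2 * k) (Fin.rev j) + gt (2 * k) j = H₀ := by
    intro j
    have f5 := (gt_facts (2 * k) k (by omega) (one7_e0 k) (one7_e0_inj k)).2.2.2.2 j
    rw [hH₀, hF]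
    exact f5
  have hNice : Nice (2 * k) Ω := (hfacts (one7_e0 k) (one7_e0_inj k)).1
  obtain ⟨h, hhd⟩ : ∃ h : (Fin k → Fin (2 * k)) → Fin k → ℕ, h = fun e i => gt (2 * k) (e i) := ⟨_, rfl⟩
  have hhx : ∀ e i, h e i = gt (2 * k) (e i) := fun e i => by rw [hhd]
  have hhe : ∀ e, h e = fun i => gt (2 * k) (e i) := fun e => by rw [hhd]
  -- the presieved integers
  have hmu0 : ∀ x, 0 ≤ mu Ω z X x := (hmu2 X z hX4 hz2 hzB Ω hNice).1
  have hmul2 := (hmu2 X z hX4 hz2 hzB Ω hNice).2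
  have hmus : ∀ x, x ∉ Ioc X (2 * X) → mu Ω z X x = 0 := by
    intro x hx
    unfold mu
    rw [if_neg]
    exact fun hx' => hx ((filter_subset _ _) hx')
  have hmu1 : ∑ x ∈ Ioc X (2 * X), mu Ω z X x ≤ 2 * X := by
    have a1 := hmass7 X z hX5 hz2 hzB Ω hNice
    rw [abs_le] at a1
    have a2 : (X : ℝ) / Real.log X ≤ X := div_le_self hX0.le hlog1
    linarith [a1.2]
  have hLc : Real.log X ≤ (Real.log X) ^ c := by
    calc Real.log X = (Real.log X) ^ 1 := (pow_one _).symm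
      _ ≤ _ := pow_le_pow_right₀ hlog1 hc
  have hmul2c : ∑ x ∈ Ioc X (2 * X), (mu Ω z X x) ^ 2 ≤ X * (Real.log X) ^ c := by
    refine hmul2.trans ?_
    exact mul_le_mul_of_nonneg_left hLc hX0.le
  have hRmu : Rst C (((Real.log X) ^ c)⁻¹) X (mu Ω z X) :=
    (hrst X z hX2 hz5 hzB Ω hNice).2 z hz2 le_rfl
  -- the weights
  have hwt : ∀ e : Fin k → Fin (2 * k), ∃ (w : ℕ → ℝ) (v : Fin k → ℕ → ℝ) (M : ℝ) (M' : Fin k → ℝ),
      e ∈ Inj → Wg m k H z X c Ω (h e) w v M M' κ := by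
    intro e
    by_cases he : e ∈ Inj
    · obtain ⟨f1, f2, f3, f4⟩ := hfacts e ((hInj e).1 he)
      obtain ⟨w, v, M, M', hw⟩ := hwt0 X hX1 κ hκ hκ1 hκL (fun i => gt (2 * k) (e i)) f3 f4 Ω f1 f2
      refine ⟨w, v, M, M', fun _ => ?_⟩
      rw [hhe, hz]
      exact hw
    · exact ⟨fun _ => 0, fun _ _ => 0, 0, fun _ => 0, fun h => absurd h he⟩
  choose w v M M' hWg using hwt
  have hws : ∀ e ∈ Inj, ∀ x, x ∉ Ioc X (2 * X) → w e x = 0 := fun e he x hx =>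
    (hWg e he).ws x (fun hx' => hx ((filter_subset _ _) hx'))
  have hRw : ∀ e ∈ Inj, Rst C (((Real.log X) ^ c)⁻¹) X (w e) := fun e he =>
    (hrst X z hX2 hz5 hzB Ω hNice).1 (w e) (M e) (hWg e he).M0 (by linarith [(hWg e he).M1])
      (hWg e he).w0 (hws e he) (hWg e he).clw
  have hhH : ∀ e ∈ Inj, ∀ i, 1 ≤ h e i ∧ h e i ≤ H := fun e he i => by
    rw [hhx]
    exact (hfacts e ((hInj e).1 he)).2.2.2 i
  have hhX : ∀ e ∈ Inj, ∀ i, h e i ≤ X := fun e he i => ((hhH e he i).2).trans hHX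
  have hhinj : ∀ e ∈ Inj, Function.Injective (h e) := fun e he => by
    rw [hhe]
    exact (hfacts e ((hInj e).1 he)).2.2.1
  -- the spectrum
  have hΞ : ∀ e : Fin k → Fin (2 * k), ∃ Ξ : Finset ℕ, e ∈ Inj → ((Ξ.card : ℝ) ≤ 1 / (b * κ ^ 12) ∧
      ∀ Ξ' : Finset ℕ, Ξ ⊆ Ξ' → ∀ T : Finset ℕ, T = Bh (8 * X) Ξ' (a * κ) → T.Nonempty →
      ∀ u : ℕ → ℝ, (∀ x, x ∉ Ioc X (2 * X) → u x = 0) → Rst C (((Real.log X) ^ c)⁻¹) X u →
      ∑ x ∈ Ioc X (2 * X), (u x) ^ 2 ≤ X * (Real.log X) ^ c →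
      ∀ t : ℕ, ∀ E ⊆ range (8 * X), ∀ f : ℕ → ℝ, (∀ x, 0 ≤ f x ∧ f x ≤ u x) →
      |∑ x ∈ Ioc X (2 * X), f x * (ph X E (am B (h e) (w e)) (x + t) - ph0 X E (am B (h e) (w e)) T (x + t))| ≤
        κ * X ^ 2) := by
    intro e
    by_cases he : e ∈ Inj
    · obtain ⟨Ξ, _, hΞ2, hΞ3⟩ := hclo c hc X hX1' κ hκ hκ1 hκL8 (w e) (h e) B (hhX e he) (hws e he)
        (hRw e he) (hWg e he).l2
      exact ⟨Ξ, fun _ => ⟨hΞ2, hΞ3⟩⟩
    · exact ⟨∅, fun h => absurd h he⟩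
  choose Ξ hΞ using hΞ
  obtain ⟨Ξ', hΞ'⟩ : ∃ Ξ' : Finset ℕ, Ξ' = Inj.biUnion Ξ := ⟨_, rfl⟩
  have hΞ'card : (Ξ'.card : ℝ) ≤ N * (1 / (b * κ ^ 12)) := by
    have a1 : (Ξ'.card : ℝ) ≤ ∑ e ∈ Inj, ((Ξ e).card : ℝ) := by
      rw [hΞ']
      exact_mod_cast card_biUnion_le
    refine a1.trans ?_
    calc ∑ e ∈ Inj, ((Ξ e).card : ℝ) ≤ ∑ e ∈ Inj, 1 / (b * κ ^ 12) :=
          sum_le_sum fun e he => (hΞ e he).1
      _ = N * (1 / (b * κ ^ 12)) := by rw [sum_const, nsmul_eq_mul, hN]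
  obtain ⟨T, hT⟩ : ∃ T : Finset ℕ, T = Bh (8 * X) Ξ' (a * κ) := ⟨_, rfl⟩
  obtain ⟨hTn, hTQ⟩ := hqk X hX1' κ hκ hκ1 hqkL Ξ' hΞ'card T hT
  have hTsub : T ⊆ range (8 * X) := by
    rw [hT]
    unfold Bh
    exact filter_subset _ _
  -- the weight W
  obtain ⟨W, hWd⟩ : ∃ W : ℕ → ℝ, W = fun n => ∑ e ∈ Inj, am B (h e) (w e) n := ⟨_, rfl⟩
  have hWx : ∀ n, W n = ∑ e ∈ Inj, am B (h e) (w e) n := fun n => by rw [hWd]
  have hams := fun e (he : e ∈ Inj) (A : Set ℕ) => am_supp A (h e) (w e) X (hhX e he) (hws e he) (hWg e he).w0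
  have hW0 : ∀ n, 0 ≤ W n := fun n => by
    rw [hWx]
    exact sum_nonneg fun e he => (hams e he B).2.1 n
  have hWs : ∀ n, n ∉ Ioc X (3 * X) → W n = 0 := fun n hn => by
    rw [hWx]
    exact sum_eq_zero fun e he => (hams e he B).1 n hn
  have hWW : ∀ e ∈ Inj, ∀ n, am B (h e) (w e) n ≤ W n := fun e he n => by
    rw [hWx]
    exact single_le_sum (f := fun e => am B (h e) (w e) n) (fun e he => (hams e he B).2.1 n) he
  obtain ⟨U, hU⟩ : ∃ U : ℝ, U = N * (k * C) * X := ⟨_, rfl⟩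
  have hU0 : 0 < U := by
    rw [hU]
    positivity
  have hWU : ∑ j ∈ Ioc X (3 * X), W j ≤ U := by
    have a1 : ∀ e ∈ Inj, ∑ j ∈ Ioc X (3 * X), am B (h e) (w e) j ≤ (k * C) * X := by
      intro e he
      refine ((hams e he B).2.2.2.1).trans ?_
      rw [mul_assoc]
      apply mul_le_mul_of_nonneg_left _ (by linarith)
      rw [← one7_range X (w e) (hws e he)]
      exact (hRw e he).mass
    calc ∑ j ∈ Ioc X (3 * X), W j = ∑ e ∈ Inj, ∑ j ∈ Ioc X (3 * X), am B (h e) (w e) j := by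
          rw [sum_comm]
          exact sum_congr rfl fun j _ => hWx j
      _ ≤ ∑ e ∈ Inj, (k * C) * X := sum_le_sum a1
      _ = U := by
          rw [sum_const, nsmul_eq_mul, hU, hN]
          ring
  have hcloW : ∀ u : ℕ → ℝ, (∀ x, x ∉ Ioc X (2 * X) → u x = 0) → Rst C (((Real.log X) ^ c)⁻¹) X u →
      ∑ x ∈ Ioc X (2 * X), (u x) ^ 2 ≤ X * (Real.log X) ^ c →
      ∀ t : ℕ, ∀ E ⊆ range (8 * X), ∀ f : ℕ → ℝ, (∀ x, 0 ≤ f x ∧ f x ≤ u x) →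
      |∑ x ∈ Ioc X (2 * X), f x * (ph X E W (x + t) - ph0 X E W T (x + t))| ≤ (N * κ) * X ^ 2 := by
    intro u hu1 hu2 hu3 t E hE f hf
    have a1 := one7_clo X t E Inj (fun e => am B (h e) (w e)) T f (κ * X ^ 2) (fun e he =>
      (hΞ e he).2 Ξ' (by rw [hΞ']; exact subset_biUnion_of_mem Ξ he) T hT hTn u hu1 hu2 hu3 t E hE f hf)
    rw [← hWd, ← hN] at a1
    refine a1.trans (le_of_eq ?_)
    ring
  -- the exceptional set
  obtain ⟨E, hE⟩ : ∃ E : Finset ℕ, E = (range (8 * X)).filter (fun s => Even s ∧ 2 * X + X / 8 ≤ s ∧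
    s + X / 8 ≤ 4 * X ∧ (rep A B s : ℝ) < X / (Real.log X) ^ (2 * c + 2)) := ⟨_, rfl⟩
  rw [← hE]
  have hEsub : E ⊆ range (8 * X) := by
    rw [hE]
    exact filter_subset _ _
  have hErep : ∀ s ∈ E, (rep A B s : ℝ) ≤ X / (Real.log X) ^ (2 * c + 2) := by
    intro s hs
    rw [hE, mem_filter] at hs
    exact hs.2.2.2.2.le
  by_contra hcon
  push Not at hcon
  -- the bad part
  have hbadE : ∀ e ∈ Inj, ∑ x ∈ Ioc X (2 * X), mu Ω z X x * ∏ i, (ph0 X E W T (x + gt (2 * k) (e i)) / U) ≤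
      ((3 * k ^ 2 + k + m) / Real.log X + k * (κ + κ)) * X := by
    intro e he
    have a1 := badp hm hk hc hX1' hHX hlog1 Ω (h e) (hhinj e he) (hhH e he) (w e) (v e) (M e) (M' e) κ
      hκ.le hκm (hWg e he) A hA hmu0 E hEsub W hW0 hWs T hTsub hTn U hU0 hWU hTQ (N * κ)
      (fun t f hf => hcloW (w e) (hws e he) (hRw e he) (hWg e he).l2 t E hEsub f hf)
    simp only [hhx] at a1
    refine a1.trans ?_
    have a2 : ∑ n ∈ Ioc X (3 * X), am A (h e) (w e) n * cor E W n ≤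
        N * (3 * k ^ 2 * X ^ 2 / Real.log X) := by
      have b1 : ∀ n, cor E W n = ∑ e' ∈ Inj, cor E (am B (h e') (w e')) n := by
        intro n
        unfold cor
        rw [sum_comm]
        refine sum_congr rfl fun s _ => ?_
        split_ifs
        · exact hWx _
        · rw [sum_const_zero]
      have b2 : ∑ n ∈ Ioc X (3 * X), am A (h e) (w e) n * cor E W n =
          ∑ e' ∈ Inj, ∑ n ∈ Ioc X (3 * X), am A (h e) (w e) n * cor E (am B (h e') (w e')) n := by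
        rw [sum_comm]
        refine sum_congr rfl fun n _ => ?_
        rw [b1, mul_sum]
      rw [b2]
      calc ∑ e' ∈ Inj, ∑ n ∈ Ioc X (3 * X), am A (h e) (w e) n * cor E (am B (h e') (w e')) n
          ≤ ∑ e' ∈ Inj, 3 * (k : ℝ) ^ 2 * X ^ 2 / Real.log X :=
            sum_le_sum fun e' he' => ups7 X c hX1' hlog1 E hEsub A B hErep (h e) (h e') (hhX e he)
              (hhX e' he') (w e) (w e') (hWg e he).w0 (hWg e' he').w0 (hws e he) (hws e' he')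
              (hWg e he).l2 (hWg e' he').l2
        _ = N * (3 * k ^ 2 * X ^ 2 / Real.log X) := by rw [sum_const, nsmul_eq_mul, hN]
    have a3 : (k : ℝ) / U * (∑ n ∈ Ioc X (3 * X), am A (h e) (w e) n * cor E W n +
        k * (N * κ) * X ^ 2) ≤ 3 * k ^ 2 * X / Real.log X + k * κ * X := by
      calc (k : ℝ) / U * (∑ n ∈ Ioc X (3 * X), am A (h e) (w e) n * cor E W n +
          k * (N * κ) * X ^ 2) ≤ k / U * (N * (3 * k ^ 2 * X ^ 2 / Real.log X) + k * (N * κ) * X ^ 2) := by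
            gcongr
        _ = (3 * k ^ 2 * X / Real.log X + k * κ * X) / C := by
            rw [hU]
            field_simp
        _ ≤ 3 * k ^ 2 * X / Real.log X + k * κ * X := div_le_self (by positivity) hC
    have a4 : ((3 * (k : ℝ) ^ 2 + k + m) / Real.log X + k * (κ + κ)) * X =
        3 * k ^ 2 * X / Real.log X + k * κ * X + (k + m) * X / Real.log X + k * κ * X := by ring
    rw [a4]
    linarith
  -- the good part
  have hgoodE : ∀ e ∈ Inj, ∀ f : ℕ → ℝ, (∀ x, 0 ≤ f x ∧ f x ≤ mu Ω z X x) →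
      (∀ x, f x ≠ 0 → ∀ i, ph0 X E W T (x + gt (2 * k) (e i)) ≤ τ * X) →
      ∑ x ∈ Ioc X (2 * X), mu Ω z X x * cor E f (x + H₀) ≤ k ^ 2 * τ * X * ∑ x ∈ Ioc X (2 * X), f x +
        (k ^ 2 * (N * κ) * X ^ 2 + 2 * (k + m) * X ^ 2 / Real.log X + 2 * k * κ * X ^ 2) := by
    intro e he f hf hfτ
    obtain ⟨e', he'⟩ : ∃ e' : Fin k → Fin (2 * k), e' = fun i => Fin.rev (e i) := ⟨_, rfl⟩
    have he'I : e' ∈ Inj := by
      rw [hInj, he']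
      exact Fin.rev_injective.comp ((hInj e).1 he)
    have hf4 : ∑ ξ ∈ range (8 * X), ‖FT f X ((ξ : ℝ) / (8 * X))‖ ^ 4 ≤ K₄ * X ^ 4 := by
      have hδ0 : 0 < ((Real.log X) ^ c)⁻¹ := by positivity
      have hδ1 : ((Real.log X) ^ c)⁻¹ ≤ 1 := by
        apply inv_le_one_of_one_le₀
        exact one_le_pow₀ hlog1
      refine (l4 C _ hC hδ0 hδ1 X hX1' (mu Ω z X) f hRmu hf).trans ?_
      rw [one7_range X (fun n => (mu Ω z X n) ^ 2) (fun x hx => by rw [hmus x hx]; norm_num), hK₄]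
      have b1 : (((Real.log X) ^ c)⁻¹) ^ 2 * ∑ x ∈ Ioc X (2 * X), (mu Ω z X x) ^ 2 ≤ X := by
        calc (((Real.log X) ^ c)⁻¹) ^ 2 * ∑ x ∈ Ioc X (2 * X), (mu Ω z X x) ^ 2
            ≤ (((Real.log X) ^ c)⁻¹) ^ 2 * (X * (Real.log X) ^ c) := by gcongr
          _ = ((Real.log X) ^ c)⁻¹ * X * (((Real.log X) ^ c)⁻¹ * (Real.log X) ^ c) := by ring
          _ = ((Real.log X) ^ c)⁻¹ * X := by
              rw [inv_mul_cancel₀ (by positivity), mul_one]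
          _ ≤ 1 * X := by gcongr
          _ = X := one_mul _
      calc 211 * C ^ 6 * (X : ℝ) ^ 4 + 8 * (((Real.log X) ^ c)⁻¹) ^ 2 * (X : ℝ) ^ 3 *
          ∑ x ∈ Ioc X (2 * X), (mu Ω z X x) ^ 2 =
          211 * C ^ 6 * (X : ℝ) ^ 4 + 8 * (X : ℝ) ^ 3 * ((((Real.log X) ^ c)⁻¹) ^ 2 *
            ∑ x ∈ Ioc X (2 * X), (mu Ω z X x) ^ 2) := by ring
        _ ≤ 211 * C ^ 6 * (X : ℝ) ^ 4 + 8 * (X : ℝ) ^ 3 * X := by gcongr
        _ = (211 * C ^ 6 + 8) * (X : ℝ) ^ 4 := by ring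
    have a1 := goodp hm hk hc hX1' hHX (by linarith) Ω (h e) (h e') H₀ (fun i => by
        rw [hhx, hhx, he']
        exact hrev (e i)) hH₀X (hhinj e' he'I) (hhH e' he'I) (w e') (v e') (M e') (M' e') κ hκ.le hκm
      (hWg e' he'I) B hB' hmu0 hmu1 hmul2 f hf K₄ hf4 (by linarith) E hEsub W (hWW e' he'I) hWs T τ (N * κ)
      (fun t => hcloW (mu Ω z X) hmus hRmu hmul2c t E hEsub f hf) (fun x hx i => by
        rw [hhx]
        exact hfτ x hx i)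
    linarith
  have hcomb := comb7 k X H₀ hX1' E (mu Ω z X) hmu0 hmus hmu1 (ph0 X E W T)
    (fun n => (ph0_bound X hX1' E hEsub W hW0 hWs T n).1) (gt (2 * k)) τ U _ _ hτ hU0 Inj
    (fun e he => (hInj e).2 he) hbadE hgoodE
  have hs := one7_sing X H₀ (mu Ω z X) E c₀ (fun s hs => by
    rw [hE, mem_filter] at hs
    have a1 := hsing X z hX3 hz2 hzB s hs.2.1 hs.2.2.1 hs.2.2.2.1
    rw [← hF, ← hH₀, ← hΩ] at a1
    exact a1)
  have hUτ : U / (τ * X) = N * (k * C) / τ := by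
    rw [hU]
    field_simp
  rw [hUτ, ← hN] at hcomb
  have hle := hs.trans hcomb
  have hlt : c₀ * X * (ε * X) < c₀ * X * E.card := by
    apply mul_lt_mul_of_pos_left hcon
    positivity
  have hX2 : (0 : ℝ) < (X : ℝ) ^ 2 := by positivity
  have hfin2 := mul_lt_mul_of_pos_right hfin hX2
  have hid : (2 * (N * (N * (k * C) / τ) ^ k * ((3 * k ^ 2 + k + m) / Real.log X + k * (κ + κ))) + 2 * k ^ 2 * τ +
      k ^ 2 * N ^ 2 * κ + N * (2 * (k + m) / Real.log X + 2 * k * κ)) * (X : ℝ) ^ 2 =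
      2 * X * (N * (N * (k * C) / τ) ^ k * (((3 * k ^ 2 + k + m) / Real.log X + k * (κ + κ)) * X)) +
      2 * k ^ 2 * τ * X ^ 2 + N * (k ^ 2 * (N * κ) * X ^ 2 + 2 * (k + m) * X ^ 2 / Real.log X +
        2 * k * κ * X ^ 2) := by ring
  rw [hid] at hfin2
  have hc1 : c₀ * ε * (X : ℝ) ^ 2 = c₀ * X * (ε * X) := by ring
  rw [hc1] at hfin2
  linarith

end Pool.Agent.Lib.SG
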