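import Pool.Agent.Lib.SG.Defs
import Pool.Agent.Lib.MT.LayD
import Pool.Agent.Lib.MT.LayE

/-!
# SG-Pfix: the sum over the primes `x + h m` for fixed `d`: primes against rough numbers
-/

set_option autoImplicit false

open Finset

namespace Pool.Agent.Lib.SG

open Pool.Agent.Lib.MT

variable {P : Finset ℕ} {ι : Type} [Fintype ι] [DecidableEq ι]

open Classical in
private theorem pfix_exp (s : Finset ℕ) (g : ℕ → ℝ) (w : ℕ → ℂ) (h : ι → ℕ) (L : Col P ι → ℝ) :
    ∑ x ∈ s, (((FF h L x) ^ 2 * g x : ℝ) : ℂ) * w x =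
      ∑ σ : Col P ι, ∑ τ : Col P ι, ((L σ * L τ : ℝ) : ℂ) *
        ∑ x ∈ s.filter (fun x => Fit h x σ ∧ Fit h x τ), (g x : ℂ) * w x := by
  have h1 : ∀ x, (((FF h L x) ^ 2 * g x : ℝ) : ℂ) * w x = ∑ σ : Col P ι, ∑ τ : Col P ι,
      (if Fit h x σ ∧ Fit h x τ then ((g x : ℂ) * w x) * ((L σ * L τ : ℝ) : ℂ) else 0) := by
    intro x
    have h2 : (FF h L x) ^ 2 = ∑ σ : Col P ι, ∑ τ : Col P ι,
        (if Fit h x σ ∧ Fit h x τ then L σ * L τ else 0) := by
      unfold FF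
      rw [sq, sum_filter, sum_mul_sum]
      refine sum_congr rfl fun σ _ => ?_
      refine sum_congr rfl fun τ _ => ?_
      by_cases h1 : Fit h x σ
      · by_cases h2 : Fit h x τ
        · rw [if_pos h1, if_pos h2, if_pos ⟨h1, h2⟩]
        · rw [if_neg h2, if_neg (fun h' : Fit h x σ ∧ Fit h x τ => h2 h'.2), mul_zero]
      · rw [if_neg h1, if_neg (fun h' : Fit h x σ ∧ Fit h x τ => h1 h'.1), zero_mul]
    have h3 : (((FF h L x) ^ 2 * g x : ℝ) : ℂ) * w x = (((FF h L x) ^ 2 : ℝ) : ℂ) * ((g x : ℂ) * w x) := by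
      rw [Complex.ofReal_mul]
      ring
    rw [h3, h2, Complex.ofReal_sum, sum_mul]
    refine sum_congr rfl fun σ _ => ?_
    rw [Complex.ofReal_sum, sum_mul]
    refine sum_congr rfl fun τ _ => ?_
    split_ifs
    · ring
    · simp
  rw [sum_congr rfl fun x _ => h1 x, sum_comm]
  refine sum_congr rfl fun σ _ => ?_
  rw [sum_comm]
  refine sum_congr rfl fun τ _ => ?_
  rw [mul_sum, sum_filter]
  refine sum_congr rfl fun x _ => ?_
  split_ifs <;> ring

private theorem pfix_shift (X a q c : ℕ) (hc : c < q) (f : ℕ → ℂ) :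
    ∑ x ∈ (Ioc X (2 * X)).filter (fun x => x % q = c), f (x + a) =
      ∑ n ∈ (Ioc (X + a) (2 * X + a)).filter (fun n => n ≡ c + a [MOD q]), f n := by
  refine sum_bij (fun x _ => x + a) ?_ ?_ ?_ ?_
  · intro x hx
    rw [mem_filter, mem_Ioc] at hx
    rw [mem_filter, mem_Ioc]
    refine ⟨⟨by omega, by omega⟩, ?_⟩
    refine Nat.ModEq.add_right a ?_
    unfold Nat.ModEq
    rw [hx.2, Nat.mod_eq_of_lt hc]
  · intro x _ y _ hxy
    exact Nat.add_right_cancel hxy
  · intro n hn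
    rw [mem_filter, mem_Ioc] at hn
    refine ⟨n - a, ?_, Nat.sub_add_cancel (by omega)⟩
    rw [mem_filter, mem_Ioc]
    refine ⟨⟨by omega, by omega⟩, ?_⟩
    have h1 : (n - a) + a ≡ c + a [MOD q] := by
      rw [Nat.sub_add_cancel (by omega)]
      exact hn.2
    have h2 := Nat.ModEq.add_right_cancel' a h1
    unfold Nat.ModEq at h2
    rw [h2, Nat.mod_eq_of_lt hc]
  · intro x _
    rfl

/-- the sum over one class, twisted -/
private theorem pfix_class (X a q c : ℕ) (hc : c < q) (f : ℕ → ℝ) (α : ℝ) :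
    ‖∑ x ∈ (Ioc X (2 * X)).filter (fun x => x % q = c), (f (x + a) : ℂ) * GT.e (α * x)‖ =
      ‖∑ n ∈ (Ioc (X + a) (2 * X + a)).filter (fun n => n ≡ c + a [MOD q]),
        (f n : ℂ) * GT.e (α * n)‖ := by
  have h1 : ∑ x ∈ (Ioc X (2 * X)).filter (fun x => x % q = c), (f (x + a) : ℂ) * GT.e (α * x) =
      GT.e (-(α * a)) * ∑ x ∈ (Ioc X (2 * X)).filter (fun x => x % q = c),
        (fun n : ℕ => (f n : ℂ) * GT.e (α * n)) (x + a) := by
    rw [mul_sum]
    refine sum_congr rfl fun x _ => ?_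
    have h2 : GT.e (α * x) = GT.e (-(α * a)) * GT.e (α * ((x + a : ℕ) : ℝ)) := by
      rw [← GT.e_add]
      congr 1
      push_cast
      ring
    rw [h2]
    ring
  rw [h1, pfix_shift X a q c hc (fun n : ℕ => (f n : ℂ) * GT.e (α * n)), norm_mul, GT.norm_e, one_mul]

open Classical in
private theorem pfix_one (hP : ∀ p ∈ P, p.Prime) (z X : ℕ) (hz : ∀ p ∈ P, z < p) (hzX : z ≤ X) (h : ι → ℕ) (m : ι)
    (hij : ∀ p ∈ P, ∀ i j, i ≠ j → ¬ h i ≡ h j [MOD p])
    (Ω : ℕ → Finset ℕ) (hΩ : ∀ p ∈ PP 0 z, ∀ c ∈ Ω p, c < p) (d : Finset ℕ)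
    (hd : d ⊆ PP 0 z) (σ τ : Col P ι)
    (hc : ∀ p i j, σ p = some i → τ p = some j → i = j) (hσ : ∀ p, σ p ≠ some m)
    (hτ : ∀ p, τ p ≠ some m) (α : ℝ) (E : ℕ → ℝ) (hE0 : ∀ q, 0 ≤ E q)
    (hE : ∀ q c, 1 ≤ q → Nat.Coprime c q →
      ‖∑ n ∈ (Ioc (X + h m) (2 * X + h m)).filter (fun n => n ≡ c [MOD q]),
        ((BV.th n - rz z n : ℝ) : ℂ) * GT.e (α * n)‖ ≤ E q) :
    ‖∑ x ∈ ((Ioc X (2 * X)).filter (fun x => ∀ p ∈ d, x % p ∈ Ω p)).filter
          (fun x => Fit h x σ ∧ Fit h x τ), ((BV.th (x + h m) - rz z (x + h m) : ℝ) : ℂ) * GT.e (α * x)‖ ≤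
      (∏ p ∈ d, ((Ω p).card : ℝ)) * E ((∏ p ∈ d, p) * mod2 σ τ) := by
  obtain ⟨b, hb⟩ := crt_pair hP h σ τ hc
  have hM := layC_mod2_pos hP σ τ
  have hdp : ∀ p ∈ d, p.Prime := fun p hp => (mem_filter.1 (hd hp)).2.1
  have hcop : ∀ p ∈ d, Nat.Coprime p (mod2 σ τ) := fun p hp => layC_cop hP hz σ τ (hd hp)
  obtain ⟨C, hC1, hC2, hC3⟩ := Pool.Agent.Lib.MP_092512_nt.P3.B.crt_classes d hdp Ω (fun p hp c hc => hΩ p (hd hp) c hc)
    (mod2 σ τ) (b % mod2 σ τ) hM (Nat.mod_lt b hM) hcop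
  obtain ⟨q, hqdef⟩ : ∃ q, q = (∏ p ∈ d, p) * mod2 σ τ := ⟨_, rfl⟩
  rw [← hqdef] at hC1 hC3 ⊢
  have hq1 : 1 ≤ q := by
    rw [hqdef]
    exact Nat.mul_pos (prod_pos fun p hp => (hdp p hp).pos) hM
  have hset : ((Ioc X (2 * X)).filter (fun x => ∀ p ∈ d, x % p ∈ Ω p)).filter
      (fun x => Fit h x σ ∧ Fit h x τ) = (Ioc X (2 * X)).filter (fun x => x % q ∈ C) := by
    rw [filter_filter]
    refine filter_congr fun x _ => ?_
    rw [hb x]
    exact hC3 x
  have hsum : ∑ x ∈ (Ioc X (2 * X)).filter (fun x => x % q ∈ C),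
      ((BV.th (x + h m) - rz z (x + h m) : ℝ) : ℂ) * GT.e (α * x) =
      ∑ c ∈ C, ∑ x ∈ (Ioc X (2 * X)).filter (fun x => x % q = c),
        ((BV.th (x + h m) - rz z (x + h m) : ℝ) : ℂ) * GT.e (α * x) := by
    rw [← sum_fiberwise_of_maps_to (t := C) (g := fun x => x % q) (fun x hx => (mem_filter.1 hx).2)]
    refine sum_congr rfl fun c hcC => ?_
    rw [filter_filter]
    refine sum_congr (filter_congr fun x _ => ?_) fun _ _ => rfl
    exact ⟨fun h' => h'.2, fun h' => ⟨by rw [h']; exact hcC, h'⟩⟩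
  rw [hset, hsum]
  refine (norm_sum_le _ _).trans ?_
  calc ∑ c ∈ C, ‖∑ x ∈ (Ioc X (2 * X)).filter (fun x => x % q = c),
        ((BV.th (x + h m) - rz z (x + h m) : ℝ) : ℂ) * GT.e (α * x)‖ ≤ ∑ _c ∈ C, E q := by
        refine sum_le_sum fun c hcC => ?_
        have hlt : c < q := mem_range.1 (hC1 hcC)
        by_cases hco : Nat.Coprime (c + h m) q
        · have h1 := pfix_class X (h m) q c hlt (fun n => BV.th n - rz z n) α
          rw [h1]
          exact hE q (c + h m) hq1 hco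
        · rw [Nat.Prime.not_coprime_iff_dvd] at hco
          obtain ⟨p, hp, hpc, hpq⟩ := hco
          have h1 := (hC3 c).2 (by rw [Nat.mod_eq_of_lt hlt]; exact hcC)
          have h2 := (hb c).2 h1.2
          have hpd : p ∈ d := by
            rw [hqdef, hp.dvd_mul] at hpq
            rcases hpq with hpq | hpq
            · rw [hp.prime.dvd_finsetProd_iff] at hpq
              obtain ⟨r, hr, hpr⟩ := hpq
              rwa [(Nat.prime_dvd_prime_iff_eq hp (hdp r hr)).1 hpr]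
            · exfalso
              unfold mod2 at hpq
              rw [hp.prime.dvd_finsetProd_iff] at hpq
              obtain ⟨r, -, hpr⟩ := hpq
              split_ifs at hpr with hn
              · exact hp.one_lt.ne' (Nat.dvd_one.1 hpr)
              · have hpr' := (Nat.prime_dvd_prime_iff_eq hp (hP r r.2)).1 hpr
                rw [hpr'] at hpc
                have key : ∀ i, i ≠ m → (r : ℕ) ∣ c + h i → False := by
                  intro i him hi
                  refine hij r r.2 i m him ?_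
                  refine Nat.ModEq.add_left_cancel' c ?_
                  exact ((Nat.modEq_zero_iff_dvd).2 hi).trans ((Nat.modEq_zero_iff_dvd).2 hpc).symm
                rcases hs : σ r with _ | i
                · rcases ht : τ r with _ | j
                  · exact hn ⟨hs, ht⟩
                  · exact key j (fun hj => hτ r (by rw [ht, hj])) (h2.2 r j ht)
                · exact key i (fun hi => hσ r (by rw [hs, hi])) (h2.1 r i hs)
          have hpz := mem_filter.1 (hd hpd)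
          rw [mem_range] at hpz
          have hz0 : ∑ x ∈ (Ioc X (2 * X)).filter (fun x => x % q = c),
              ((BV.th (x + h m) - rz z (x + h m) : ℝ) : ℂ) * GT.e (α * x) = 0 := by
            refine sum_eq_zero fun x hx => ?_
            rw [mem_filter, mem_Ioc] at hx
            have hpx : p ∣ x + h m := by
              have h3 : x ≡ c [MOD q] := by
                unfold Nat.ModEq
                rw [hx.2, Nat.mod_eq_of_lt hlt]
              have h4 : x + h m ≡ c + h m [MOD p] := (h3.of_dvd hpq).add_right _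
              exact (h4.dvd_iff dvd_rfl).2 hpc
            have h5 : ¬ (x + h m).Prime := by
              intro hpr
              have := (Nat.prime_dvd_prime_iff_eq hp hpr).1 hpx
              omega
            have h6 : BV.th (x + h m) = 0 := by
              unfold BV.th
              rw [if_neg h5]
            have h7 : rz z (x + h m) = 0 := by
              unfold rz
              rw [if_neg]
              intro h8
              exact h8 p (hd hpd) hpx
            rw [h6, h7]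
            simp
          rw [hz0, norm_zero]
          exact hE0 q
    _ = (∏ p ∈ d, ((Ω p).card : ℝ)) * E q := by
        rw [sum_const, nsmul_eq_mul, hC2]
        push_cast
        rfl

theorem pfix (hP : ∀ p ∈ P, p.Prime) (z X : ℕ) (hz : ∀ p ∈ P, z < p) (hzX : z ≤ X) (h : ι → ℕ) (m : ι)
    (hij : ∀ p ∈ P, ∀ i j, i ≠ j → ¬ h i ≡ h j [MOD p])
    (Ω : ℕ → Finset ℕ) (hΩ : ∀ p ∈ PP 0 z, ∀ c ∈ Ω p, c < p) (d : Finset ℕ) (hd : d ⊆ PP 0 z)
    (L : Col P ι → ℝ) (hLm : ∀ σ, L σ ≠ 0 → ∀ p, σ p ≠ some m) (α : ℝ) (E : ℕ → ℝ)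
    (hE0 : ∀ q, 0 ≤ E q) (hE : ∀ q c, 1 ≤ q → Nat.Coprime c q →
      ‖∑ n ∈ (Ioc (X + h m) (2 * X + h m)).filter (fun n => n ≡ c [MOD q]),
        ((BV.th n - rz z n : ℝ) : ℂ) * GT.e (α * n)‖ ≤ E q) :
    ‖∑ x ∈ (Ioc X (2 * X)).filter (fun x => ∀ p ∈ d, x % p ∈ Ω p),
        (((FF h L x) ^ 2 * (BV.th (x + h m) - rz z (x + h m)) : ℝ) : ℂ) * GT.e (α * x)‖ ≤
      ∑ σ : Col P ι, ∑ τ : Col P ι, |L σ * L τ| * ((∏ p ∈ d, ((Ω p).card : ℝ)) *
        E ((∏ p ∈ d, p) * mod2 σ τ)) := by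
  classical
  rw [pfix_exp _ (fun x => BV.th (x + h m) - rz z (x + h m)) (fun x => GT.e (α * x)) h L]
  refine (norm_sum_le _ _).trans (sum_le_sum fun σ _ => ?_)
  refine (norm_sum_le _ _).trans (sum_le_sum fun τ _ => ?_)
  rw [norm_mul, Complex.norm_real, Real.norm_eq_abs]
  by_cases hσ : L σ = 0
  · rw [hσ, zero_mul, abs_zero, zero_mul, zero_mul]
  by_cases hτ : L τ = 0
  · rw [hτ, mul_zero, abs_zero, zero_mul, zero_mul]
  refine mul_le_mul_of_nonneg_left ?_ (abs_nonneg _)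
  by_cases hc : ∀ p i j, σ p = some i → τ p = some j → i = j
  · exact pfix_one hP z X hz hzX h m hij Ω hΩ d hd σ τ hc (hLm σ hσ) (hLm τ hτ) α E hE0 hE
  · push Not at hc
    obtain ⟨p, i, j, h1, h2, h3⟩ := hc
    have h4 := hij p p.2 i j h3
    have h5 : ((Ioc X (2 * X)).filter (fun x => ∀ p ∈ d, x % p ∈ Ω p)).filter
        (fun x => Fit h x σ ∧ Fit h x τ) = ∅ :=
      filter_eq_empty_iff.2 fun x _ => not_fit h x σ τ p i j h1 h2 h4
    rw [h5, sum_empty, norm_zero]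
    exact mul_nonneg (prod_nonneg fun p _ => Nat.cast_nonneg _) (hE0 _)

theorem rz_pre {k : ℕ} (h : Fin k → ℕ) (z X x : ℕ) (hx : x ∈ Pre (Om h) z X) (i : Fin k) :
    rz z (x + h i) = (kap z)⁻¹ := by
  unfold rz
  rw [if_pos]
  intro p hp hd
  unfold Pre at hx
  rw [mem_filter] at hx
  apply hx.2 p hp
  have hpp : p.Prime := (mem_filter.1 hp).2.1
  unfold Om
  rw [mem_filter, mem_range]
  refine ⟨Nat.mod_lt _ hpp.pos, i, ?_⟩
  rw [← Nat.modEq_zero_iff_dvd] at hd ⊢
  exact (Nat.ModEq.add_right _ (Nat.mod_modEq x p)).trans hd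

open Classical in
theorem ff_col (h : ι → ℕ) (m : ι) (L : Col P ι → ℝ) (x : ℕ) (hx : ∀ p ∈ P, ¬ p ∣ x + h m) :
    FF h L x = FF h (fun σ => if ∀ p, σ p ≠ some m then L σ else 0) x := by
  unfold FF
  refine sum_congr rfl fun σ hσ => ?_
  rw [mem_filter] at hσ
  have h1 : ∀ p, σ p ≠ some m := fun p hp => hx p p.2 (hσ.2 p m hp)
  exact (if_pos h1).symm

end Pool.Agent.Lib.SG
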