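import Pool.Agent.Lib.SG.Fixd
import Pool.Agent.Lib.SG.Num
import Pool.Agent.Lib.MT.LayB
import Pool.Agent.Lib.MT.LayG

/-!
# SG-Wclose: `F²` on the presieved integers is close to `Qf` times the presieved integers

PROOF. `layB_param k B (1/1000)` gives c > 0 and for each X, z a parameter m with `Tr k (1/1000) c X z m`. For a real function
W with `|W| ≤ M₁` on (X, 2X] `layB_trunc` gives `|∑_{Pre Ω z X} W - ∑_{|d| ≤ m} (-1)^|d| ∑_{x ∈ S_d} W| ≤ 2 M₁ X^(1-c)`. Use it for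
`W = F² cos(2π α x)`, `F² sin(2π α x)` (real and imaginary parts of `F² e(α x)`; `|F| ≤ X^(c/8)` by `layA_FF` with δ = c/8) and for
`cos`, `sin`. So both sums over Pre may be replaced by the signed sums over d, with error `4 X^(1-3c/4)` for the first and
`|Qf| 4 X^(1-c)` for the second; `|Qf q1 L| ≤ M² ∏ (1 + 3k/p)` (`layA_Qf`), `≤ (C log X)^(5k)` (`layA_prod`).
For each d apply `fixd` (Q := R; `hL`: the primes of `PP z R` are `> z ≥ h i`, so `h i ≡ h j mod p` forces `h i = h j`), S := the bound of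
`sg_le` with `1/p ≤ 1/z`: `S = M² (3k/z) ∏ (1 + 3k/p)`. Sum over d: `∑_{|d| ≤ m} ω_d ≤ X^(1/1000)` (`layB_low`), `∑_d ω_d/Δ_d ≤ (C log z)^k`
(`num_sum`, the product over d of |Ω p|/p). `∑ |L| ≤ R M²` (`layA_sum`), M = ∏ (1 + k/p) ≤ (C log X)^k. Total error:
`X^(1/1000) (R⁴ + 2) R² M⁴ + 2X (C log z)^k M² (3k/z) (C log X)^(3k) + (X^(1-3c/4) terms)`, `R ≤ X^(1/1000)`. All terms are at most
`X (log X)^D / (4z)` for large X with D depending only on k (`z ≤ (log X)^B`, so the power savings are absorbed).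
(3k/r ≤ (1+1/r)^(3k)-1: `∏ (1 + 3k/r) ≤ (C log X)^(3k)` is `layA_prod` with 3k in place of k.) If R = 0 there is nothing to do
(`tot σ ≥ 1`, so L = 0); otherwise 1 ≤ Q.
-/

set_option autoImplicit false

open Finset

namespace Pool.Agent.Lib.SG

open Pool.Agent.Lib.MT

private theorem wclose_ev (a : ℕ) (s : ℝ) (hs : 0 < s) (K : ℝ) : ∃ X₀ : ℕ, ∀ X : ℕ, X₀ ≤ X →
    K * (Real.log X) ^ a ≤ (X : ℝ) ^ s := by
  have hlo := isLittleO_log_rpow_rpow_atTop (s := s) (a : ℝ) hs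
  have hev := hlo.bound (c := 1 / (|K| + 1)) (by positivity)
  have hev2 := tendsto_natCast_atTop_atTop.eventually hev
  obtain ⟨X₀, hX₀⟩ := Filter.eventually_atTop.1 hev2
  refine ⟨max X₀ 1, fun X hX => ?_⟩
  have h1 := hX₀ X ((le_max_left _ _).trans hX)
  have hX1 : (1 : ℝ) ≤ (X : ℝ) := by exact_mod_cast (le_max_right _ _).trans hX
  have hl : 0 ≤ Real.log X := Real.log_nonneg hX1
  rw [Real.rpow_natCast, Real.norm_of_nonneg (pow_nonneg hl a),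
    Real.norm_of_nonneg (Real.rpow_nonneg (by linarith) s)] at h1
  have h2 : (|K| + 1) * (Real.log X) ^ a ≤ (X : ℝ) ^ s := by
    have h3 := mul_le_mul_of_nonneg_left h1 (by positivity : 0 ≤ |K| + 1)
    refine h3.trans (le_of_eq ?_)
    field_simp
  have h3 : K * (Real.log X) ^ a ≤ (|K| + 1) * (Real.log X) ^ a :=
    mul_le_mul_of_nonneg_right (by have := le_abs_self K; linarith) (pow_nonneg hl a)
  exact h3.trans h2

private theorem wclose_trunc {K : ℕ} {ε c : ℝ} {X z m : ℕ} (hX : 1 ≤ X) (hε : ε ≤ 1)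
    (hT : Tr K ε c X z m) (Ω : ℕ → Finset ℕ) (hK : ∀ p, (Ω p).card ≤ K)
    (hΩ : ∀ p ∈ PP 0 z, ∀ c ∈ Ω p, c < p)
    (w : ℕ → ℂ) (M : ℝ) (hM : 0 ≤ M) (hw : ∀ n ∈ Ioc X (2 * X), ‖w n‖ ≤ M) :
    ‖∑ x ∈ Pre Ω z X, w x -
        ∑ d ∈ (PP 0 z).powerset with d.card ≤ m, ((-1 : ℂ) ^ d.card *
          ∑ x ∈ (Ioc X (2 * X)).filter (fun x => ∀ p ∈ d, x % p ∈ Ω p), w x)‖ ≤
      4 * M * X * (X : ℝ) ^ (-c) := by
  have h1 := layB_trunc hX hε hT Ω hK hΩ (fun x => (w x).re) M hM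
    (fun n hn => (Complex.abs_re_le_norm _).trans (hw n hn))
  have h2 := layB_trunc hX hε hT Ω hK hΩ (fun x => (w x).im) M hM
    (fun n hn => (Complex.abs_im_le_norm _).trans (hw n hn))
  have hc : ∀ n : ℕ, (-1 : ℂ) ^ n = (((-1 : ℝ) ^ n : ℝ) : ℂ) := by
    intro n
    push_cast
    rfl
  refine (Complex.norm_le_abs_re_add_abs_im _).trans ?_
  have e1 : (∑ x ∈ Pre Ω z X, w x -
        ∑ d ∈ (PP 0 z).powerset with d.card ≤ m, ((-1 : ℂ) ^ d.card *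
          ∑ x ∈ (Ioc X (2 * X)).filter (fun x => ∀ p ∈ d, x % p ∈ Ω p), w x)).re =
      ∑ x ∈ Pre Ω z X, (w x).re -
        ∑ d ∈ (PP 0 z).powerset with d.card ≤ m, ((-1 : ℝ) ^ d.card *
          ∑ x ∈ (Ioc X (2 * X)).filter (fun x => ∀ p ∈ d, x % p ∈ Ω p), (w x).re) := by
    simp only [hc, Complex.sub_re, Complex.re_sum, Complex.re_ofReal_mul]
  have e2 : (∑ x ∈ Pre Ω z X, w x -
        ∑ d ∈ (PP 0 z).powerset with d.card ≤ m, ((-1 : ℂ) ^ d.card *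
          ∑ x ∈ (Ioc X (2 * X)).filter (fun x => ∀ p ∈ d, x % p ∈ Ω p), w x)).im =
      ∑ x ∈ Pre Ω z X, (w x).im -
        ∑ d ∈ (PP 0 z).powerset with d.card ≤ m, ((-1 : ℝ) ^ d.card *
          ∑ x ∈ (Ioc X (2 * X)).filter (fun x => ∀ p ∈ d, x % p ∈ Ω p), (w x).im) := by
    simp only [hc, Complex.sub_im, Complex.im_sum, Complex.im_ofReal_mul]
  rw [e1, e2]
  linarith

private theorem wclose_prime {z R p : ℕ} (hp : p ∈ PP z R) : p.Prime ∧ z < p := by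
  unfold PP at hp
  exact (mem_filter.mp hp).2

/-- the part of the proof without asymptotics -/
private theorem wclose_core {k : ℕ} {c : ℝ} {X z R m : ℕ} (hX : 1 ≤ X) (hz : 2 ≤ z) (hR : 1 ≤ R)
    (hT : Tr k (1 / 1000) c X z m) (h : Fin k → ℕ) (hinj : Function.Injective h) (hh : ∀ i, h i ≤ z)
    (Ω : ℕ → Finset ℕ) (hN : Nice k Ω) (L : Col (PP z R) (Fin k) → ℝ) (M P3 M1 V4 : ℝ)
    (hM : M = ∏ p : {p : ℕ // p ∈ PP z R}, (1 + (k : ℝ) / ((p : ℕ) : ℝ)))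
    (hP3 : P3 = ∏ p : {p : ℕ // p ∈ PP z R}, (1 + 3 * (k : ℝ) / ((p : ℕ) : ℝ)))
    (hL : ∀ σ, |L σ| ≤ M) (hLR : ∀ σ, L σ ≠ 0 → tot σ ≤ R)
    (hM1 : 0 ≤ M1) (hF : ∀ x ∈ Ioc X (2 * X), |FF h L x| ^ 2 ≤ M1)
    (hV4 : ∑ d ∈ (PP 0 z).powerset, ∏ p ∈ d, (((Ω p).card : ℝ) / p) ≤ V4) (α : ℝ) :
    ‖∑ x ∈ Pre Ω z X, (((FF h L x) ^ 2 : ℝ) : ℂ) * GT.e (α * x) -
        ((Qf (q1 (ι := Fin k)) L : ℝ) : ℂ) * ∑ x ∈ Pre Ω z X, GT.e (α * x)‖ ≤
      4 * M1 * X * (X : ℝ) ^ (-c) + M ^ 2 * P3 * (4 * 1 * X * (X : ℝ) ^ (-c)) +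
        ((X : ℝ) ^ (1 / 1000 : ℝ) * (((R : ℝ) ^ 4 + 2) * (R * M ^ 2) ^ 2) +
          2 * X * (M ^ 2 * (3 * k / z) * P3) * V4) := by
  have hΩ : ∀ p ∈ PP 0 z, ∀ c ∈ Ω p, c < p := fun p _ c hc => hN.lt p c hc
  have hPP : ∀ p ∈ PP z R, p.Prime := fun p hp => (wclose_prime hp).1
  have hPz : ∀ p ∈ PP z R, z < p := fun p hp => (wclose_prime hp).2
  have hM0 : 0 ≤ M := by
    rw [hM]
    exact prod_nonneg fun p _ => by positivity
  have hP30 : 0 ≤ P3 := by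
    rw [hP3]
    exact prod_nonneg fun p _ => by positivity
  have hz0 : (0 : ℝ) < z := by exact_mod_cast (by omega : 0 < z)
  -- the signed sums
  set F2 : ℕ → ℂ := fun x => (((FF h L x) ^ 2 : ℝ) : ℂ) * GT.e (α * x) with hF2
  set E1 : ℕ → ℂ := fun x => GT.e (α * x) with hE1
  set q : ℂ := ((Qf (q1 (ι := Fin k)) L : ℝ) : ℂ) with hq
  set Sd : Finset ℕ → Finset ℕ := fun d => (Ioc X (2 * X)).filter (fun x => ∀ p ∈ d, x % p ∈ Ω p)
    with hSd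
  have t1 := wclose_trunc hX (by norm_num) hT Ω hN.card hΩ F2 M1 hM1 (by
    intro n hn
    rw [hF2]
    show ‖(((FF h L n) ^ 2 : ℝ) : ℂ) * GT.e (α * n)‖ ≤ M1
    rw [norm_mul, GT.norm_e, mul_one, Complex.norm_real, Real.norm_eq_abs, abs_pow]
    exact hF n hn)
  have t2 := wclose_trunc hX (by norm_num) hT Ω hN.card hΩ E1 1 zero_le_one (by
    intro n hn
    exact le_of_eq (GT.norm_e _))
  have hqn : ‖q‖ ≤ M ^ 2 * P3 := by
    rw [hq, Complex.norm_real, Real.norm_eq_abs]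
    have h1 := layA_Qf (q1 (ι := Fin k)) (fun p i => by unfold q1; positivity) L M hL
    refine h1.trans (le_of_eq ?_)
    rw [hP3]
    congr 1
    refine prod_congr rfl fun p _ => ?_
    unfold q1
    rw [sum_const, card_univ, Fintype.card_fin, nsmul_eq_mul]
    ring
  -- fixed `d`
  have hS0 : 0 ≤ M ^ 2 * (3 * k / z) * P3 := by positivity
  have hSg : ∀ p : {p : ℕ // p ∈ PP z R}, Sg L p ≤ M ^ 2 * (3 * k / z) * P3 := by
    intro p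
    have h1 := sg_le (fun p hp => (hPP p hp).one_le) L M hL p
    rw [Fintype.card_fin, ← hP3] at h1
    refine h1.trans ?_
    have h2 : (z : ℝ) ≤ ((p : ℕ) : ℝ) := by exact_mod_cast (hPz p p.2).le
    gcongr
  have hLsum : ∑ σ, |L σ| ≤ R * M ^ 2 :=
    layA_sum (fun p hp => (hPP p hp).one_le) L M (by rw [hM, Fintype.card_fin]) hL R hLR
  have hLsum0 : 0 ≤ ∑ σ, |L σ| := sum_nonneg fun σ _ => abs_nonneg _
  have hd : ∀ d ∈ (PP 0 z).powerset.filter (fun d => d.card ≤ m),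
      ‖∑ x ∈ Sd d, F2 x - q * ∑ x ∈ Sd d, E1 x‖ ≤
        (∏ p ∈ d, ((Ω p).card : ℝ)) * (((R : ℝ) ^ 4 + 2) * (R * M ^ 2) ^ 2) +
          2 * X * (M ^ 2 * (3 * k / z) * P3) * ∏ p ∈ d, (((Ω p).card : ℝ) / p) := by
    intro d hd
    have hdP : d ⊆ PP 0 z := mem_powerset.mp (mem_filter.mp hd).1
    have h1 := fixd hPP z X R hR hPz h L (by
      intro σ τ _ _ p i j _ _ hij hmod
      refine hij (hinj ?_)
      have h2 : z < (p : ℕ) := hPz p p.2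
      have h3 : h i % (p : ℕ) = h j % (p : ℕ) := hmod
      rwa [Nat.mod_eq_of_lt (lt_of_le_of_lt (hh i) h2), Nat.mod_eq_of_lt (lt_of_le_of_lt (hh j) h2)]
        at h3) hLR Ω hΩ d hdP _ hS0 hSg α
    refine h1.trans ?_
    have h2 : (∑ σ, |L σ|) ^ 2 ≤ (R * M ^ 2) ^ 2 := pow_le_pow_left₀ hLsum0 hLsum 2
    have h3 : 0 ≤ ∏ p ∈ d, ((Ω p).card : ℝ) := prod_nonneg fun p _ => Nat.cast_nonneg _
    have h4 : ((R : ℝ) ^ 4 + 2) * (∑ σ, |L σ|) ^ 2 ≤ ((R : ℝ) ^ 4 + 2) * (R * M ^ 2) ^ 2 :=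
      mul_le_mul_of_nonneg_left h2 (by positivity)
    have h5 : (∏ p ∈ d, (((Ω p).card : ℝ) / p)) =
        (∏ p ∈ d, ((Ω p).card : ℝ)) / ∏ p ∈ d, (p : ℝ) := prod_div_distrib _ _
    rw [h5, mul_add]
    have h6 := mul_le_mul_of_nonneg_left h4 h3
    have h7 : (∏ p ∈ d, ((Ω p).card : ℝ)) * (2 * X / (∏ p ∈ d, (p : ℝ)) *
        (M ^ 2 * (3 * k / z) * P3)) = 2 * X * (M ^ 2 * (3 * k / z) * P3) *
          ((∏ p ∈ d, ((Ω p).card : ℝ)) / ∏ p ∈ d, (p : ℝ)) := by ring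
    rw [h7]
    linarith
  have hsum : ‖∑ d ∈ (PP 0 z).powerset with d.card ≤ m, ((-1 : ℂ) ^ d.card * ∑ x ∈ Sd d, F2 x) -
      q * ∑ d ∈ (PP 0 z).powerset with d.card ≤ m, ((-1 : ℂ) ^ d.card * ∑ x ∈ Sd d, E1 x)‖ ≤
      (X : ℝ) ^ (1 / 1000 : ℝ) * (((R : ℝ) ^ 4 + 2) * (R * M ^ 2) ^ 2) +
          2 * X * (M ^ 2 * (3 * k / z) * P3) * V4 := by
    have h1 : ∑ d ∈ (PP 0 z).powerset with d.card ≤ m, ((-1 : ℂ) ^ d.card * ∑ x ∈ Sd d, F2 x) -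
      q * ∑ d ∈ (PP 0 z).powerset with d.card ≤ m, ((-1 : ℂ) ^ d.card * ∑ x ∈ Sd d, E1 x) =
      ∑ d ∈ (PP 0 z).powerset with d.card ≤ m, ((-1 : ℂ) ^ d.card *
        (∑ x ∈ Sd d, F2 x - q * ∑ x ∈ Sd d, E1 x)) := by
      rw [mul_sum, ← sum_sub_distrib]
      exact sum_congr rfl fun d _ => by ring
    rw [h1]
    refine (norm_sum_le _ _).trans ?_
    have h2 : ∀ d ∈ (PP 0 z).powerset.filter (fun d => d.card ≤ m),
        ‖(-1 : ℂ) ^ d.card * (∑ x ∈ Sd d, F2 x - q * ∑ x ∈ Sd d, E1 x)‖ ≤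
        (∏ p ∈ d, ((Ω p).card : ℝ)) * (((R : ℝ) ^ 4 + 2) * (R * M ^ 2) ^ 2) +
          2 * X * (M ^ 2 * (3 * k / z) * P3) * ∏ p ∈ d, (((Ω p).card : ℝ) / p) := by
      intro d hd'
      rw [norm_mul, norm_pow, norm_neg, norm_one, one_pow, one_mul]
      exact hd d hd'
    refine (sum_le_sum h2).trans ?_
    rw [sum_add_distrib, ← sum_mul, ← mul_sum]
    have h3 := layB_low hX hT Ω hN.card
    have h4 : ∑ d ∈ (PP 0 z).powerset with d.card ≤ m, ∏ p ∈ d, (((Ω p).card : ℝ) / p) ≤ V4 := by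
      refine le_trans (sum_le_sum_of_subset_of_nonneg (filter_subset _ _) fun d _ _ => ?_) hV4
      exact prod_nonneg fun p _ => by positivity
    refine add_le_add ?_ ?_
    · exact mul_le_mul_of_nonneg_right h3 (by positivity)
    · exact mul_le_mul_of_nonneg_left h4 (by positivity)
  -- assembly
  set A : ℂ := ∑ x ∈ Pre Ω z X, F2 x with hA
  set E : ℂ := ∑ x ∈ Pre Ω z X, E1 x with hE
  set A' : ℂ := ∑ d ∈ (PP 0 z).powerset with d.card ≤ m, ((-1 : ℂ) ^ d.card * ∑ x ∈ Sd d, F2 x)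
    with hA'
  set E' : ℂ := ∑ d ∈ (PP 0 z).powerset with d.card ≤ m, ((-1 : ℂ) ^ d.card * ∑ x ∈ Sd d, E1 x)
    with hE'
  have e1 : A - q * E = (A - A') + (A' - q * E') - q * (E - E') := by ring
  have e2 : ‖A - q * E‖ ≤ ‖A - A'‖ + ‖A' - q * E'‖ + ‖q‖ * ‖E - E'‖ := by
    rw [e1]
    refine (norm_sub_le _ _).trans ?_
    rw [norm_mul]
    have := norm_add_le (A - A') (A' - q * E')
    linarith
  have e3 : ‖q‖ * ‖E - E'‖ ≤ M ^ 2 * P3 * (4 * 1 * X * (X : ℝ) ^ (-c)) :=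
    mul_le_mul hqn t2 (norm_nonneg _) (by positivity)
  show ‖A - q * E‖ ≤ _
  linarith

theorem wclose (k : ℕ) : ∃ D : ℕ, ∀ B : ℕ, ∃ X₀ : ℕ, ∀ X z R : ℕ, X₀ ≤ X → 2 ≤ z →
    (z : ℝ) ≤ (Real.log X) ^ B → (R : ℝ) ≤ (X : ℝ) ^ (1 / 1000 : ℝ) →
    ∀ h : Fin k → ℕ, Function.Injective h → (∀ i, h i ≤ z) →
    ∀ Ω : ℕ → Finset ℕ, Nice k Ω → ∀ L : Col (PP z R) (Fin k) → ℝ,
    (∀ σ, |L σ| ≤ ∏ p : {p : ℕ // p ∈ PP z R}, (1 + (k : ℝ) / ((p : ℕ) : ℝ))) →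
    (∀ σ, L σ ≠ 0 → tot σ ≤ R) → ∀ α : ℝ,
    ‖∑ x ∈ Pre Ω z X, (((FF h L x) ^ 2 : ℝ) : ℂ) * GT.e (α * x) -
        ((Qf (q1 (ι := Fin k)) L : ℝ) : ℂ) * ∑ x ∈ Pre Ω z X, GT.e (α * x)‖ ≤
      X * (Real.log X) ^ D / z := by
  obtain ⟨C1, hC1, hprod1⟩ := layA_prod k
  obtain ⟨C3, hC3, hprod3⟩ := layA_prod (3 * k)
  obtain ⟨C4, hC4, hsum4⟩ := num_sum k
  refine ⟨6 * k + 1, fun B => ?_⟩
  obtain ⟨c, hc, X1, hpar⟩ := layB_param k B (1 / 1000) (by norm_num)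
  obtain ⟨X2, hFF⟩ := layA_FF (Fin k) (c / 8) (by positivity)
  obtain ⟨Ca, hCa⟩ : ∃ Ca : ℝ, Ca = C1 ^ (2 * k) * C3 ^ (3 * k) := ⟨_, rfl⟩
  obtain ⟨X3, hv1⟩ := wclose_ev (5 * k + B) c hc (16 * Ca)
  obtain ⟨X4, hv2⟩ := wclose_ev B (3 * c / 4) (by positivity) 16
  obtain ⟨X5, hv3⟩ := wclose_ev (4 * k + B) (993 / 1000) (by norm_num) (12 * C1 ^ (4 * k))
  obtain ⟨X6, hv5⟩ := wclose_ev B 1 one_pos 1
  obtain ⟨X7, hv4⟩ : ∃ X7 : ℕ, ∀ X : ℕ, X7 ≤ X → 24 * k * Ca * C4 ^ k + 1 ≤ Real.log X := by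
    have h1 := Real.tendsto_log_atTop.comp (tendsto_natCast_atTop_atTop (R := ℝ))
    have h2 := h1.eventually (Filter.eventually_ge_atTop (24 * k * Ca * C4 ^ k + 1))
    exact Filter.eventually_atTop.1 h2
  have hC10 : 0 ≤ C1 := by linarith
  have hC30 : 0 ≤ C3 := by linarith
  have hC40 : 0 ≤ C4 := by linarith
  have hCa0 : 0 ≤ Ca := by rw [hCa]; positivity
  refine ⟨max 3 (max X1 (max X2 (max X3 (max X4 (max X5 (max X6 X7)))))), ?_⟩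
  intro X z R hX hz hzB hR h hinj hh Ω hN L hL hLR α
  simp only [max_le_iff] at hX
  obtain ⟨g0, g1, g2, g3, g4, g5, g6, g7⟩ := hX
  have hX1 : 1 ≤ X := by omega
  have hXr : (1 : ℝ) ≤ (X : ℝ) := by exact_mod_cast hX1
  have hXp : (0 : ℝ) < (X : ℝ) := by linarith
  have hz0 : (0 : ℝ) < z := by exact_mod_cast (by omega : 0 < z)
  have hl1 : 1 ≤ Real.log X := by
    have h1 := hv4 X g7
    have h2 : 0 ≤ 24 * (k : ℝ) * Ca * C4 ^ k := by positivity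
    linarith
  have hl0 : 0 ≤ Real.log X := by linarith
  have hRX : R ≤ X := by
    have h1 : (R : ℝ) ≤ (X : ℝ) ^ (1 : ℝ) :=
      hR.trans (Real.rpow_le_rpow_of_exponent_le hXr (by norm_num))
    rw [Real.rpow_one] at h1
    exact_mod_cast h1
  have hzX : z ≤ X := by
    have h1 := hv5 X g6
    rw [one_mul, Real.rpow_one] at h1
    exact_mod_cast hzB.trans h1
  obtain ⟨M, hM⟩ : ∃ M : ℝ, M = ∏ p : {p : ℕ // p ∈ PP z R}, (1 + (k : ℝ) / ((p : ℕ) : ℝ)) :=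
    ⟨_, rfl⟩
  obtain ⟨P3, hP3⟩ : ∃ P3 : ℝ, P3 = ∏ p : {p : ℕ // p ∈ PP z R}, (1 + 3 * (k : ℝ) / ((p : ℕ) : ℝ)) :=
    ⟨_, rfl⟩
  have hM0 : 0 ≤ M := by
    rw [hM]
    exact prod_nonneg fun p _ => by positivity
  have hP30 : 0 ≤ P3 := by
    rw [hP3]
    exact prod_nonneg fun p _ => by positivity
  have hMle : M ≤ (C1 * Real.log X) ^ k := by rw [hM]; exact hprod1 X z R g0 hRX
  have hP3le : P3 ≤ (C3 * Real.log X) ^ (3 * k) := by
    have h1 := hprod3 X z R g0 hRX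
    rw [hP3]
    refine le_trans (le_of_eq (prod_congr rfl fun p _ => ?_)) h1
    push_cast
    rfl
  obtain ⟨ℓ, hℓ⟩ : ∃ ℓ, ℓ = Real.log X := ⟨_, rfl⟩
  rw [← hℓ] at hl1 hl0 hMle hP3le hzB ⊢
  have hMP : M ^ 2 * P3 ≤ Ca * ℓ ^ (5 * k) := by
    calc M ^ 2 * P3 ≤ ((C1 * ℓ) ^ k) ^ 2 * (C3 * ℓ) ^ (3 * k) :=
          mul_le_mul (pow_le_pow_left₀ hM0 hMle 2) hP3le hP30 (by positivity)
      _ = Ca * ℓ ^ (5 * k) := by rw [hCa]; ring
  have hMP0 : 0 ≤ M ^ 2 * P3 := by positivity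
  have hM4 : (M ^ 2) ^ 2 ≤ C1 ^ (4 * k) * ℓ ^ (4 * k) := by
    calc (M ^ 2) ^ 2 ≤ (((C1 * ℓ) ^ k) ^ 2) ^ 2 :=
          pow_le_pow_left₀ (by positivity) (pow_le_pow_left₀ hM0 hMle 2) 2
      _ = _ := by ring
  have hD1 : 1 ≤ ℓ ^ (6 * k + 1) := one_le_pow₀ hl1
  have hRHS : 0 ≤ X * ℓ ^ (6 * k + 1) / z := by positivity
  -- the case `R = 0`
  rcases Nat.eq_zero_or_pos R with h0 | hR1
  · have hL0 : ∀ σ, L σ = 0 := by
      intro σ
      by_contra hcon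
      have h1 := hLR σ hcon
      have h2 : 0 < tot σ := by
        unfold tot
        refine prod_pos fun p _ => ?_
        split_ifs
        · exact one_pos
        · exact (wclose_prime p.2).1.pos
      omega
    have hF0 : ∀ x, FF h L x = 0 := by
      intro x
      unfold FF
      exact sum_eq_zero fun σ _ => hL0 σ
    have hQ0 : Qf (q1 (ι := Fin k)) L = 0 := by
      unfold Qf
      refine sum_eq_zero fun σ _ => sum_eq_zero fun τ _ => ?_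
      rw [hL0 σ, zero_mul, mul_zero]
    rw [hQ0]
    have h3 : ∑ x ∈ Pre Ω z X, (((FF h L x) ^ 2 : ℝ) : ℂ) * GT.e (α * x) = 0 := by
      refine sum_eq_zero fun x _ => ?_
      rw [hF0 x]
      simp
    rw [h3, Complex.ofReal_zero, zero_mul, sub_zero, norm_zero]
    exact hRHS
  · obtain ⟨m, hT⟩ := hpar X z g1 (by rw [← hℓ]; exact hzB)
    have hFb : ∀ x ∈ Ioc X (2 * X), |FF h L x| ^ 2 ≤ (X : ℝ) ^ (c / 4) := by
      intro x hx
      have h1 := hFF X z R g2 hRX h (fun i => (hh i).trans hzX) L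
        (by intro σ; rw [Fintype.card_fin]; exact hL σ) x hx
      calc |FF h L x| ^ 2 ≤ ((X : ℝ) ^ (c / 8)) ^ 2 := pow_le_pow_left₀ (abs_nonneg _) h1 2
        _ = (X : ℝ) ^ (c / 4) := by
          rw [← Real.rpow_natCast, ← Real.rpow_mul hXp.le]
          congr 1
          push_cast
          ring
    have hcore := wclose_core hX1 hz hR1 hT h hinj hh Ω hN L M P3 ((X : ℝ) ^ (c / 4))
      ((C4 * Real.log z) ^ k) hM hP3 (by intro σ; rw [hM]; exact hL σ) hLR (by positivity) hFb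
      (hsum4 Ω hN z hz) α
    refine hcore.trans ?_
    have hlz : Real.log z ≤ ℓ := by
      rw [hℓ]
      exact Real.log_le_log hz0 (by exact_mod_cast hzX)
    have hlz0 : 0 ≤ Real.log z := Real.log_nonneg (by exact_mod_cast (by omega : 1 ≤ z))
    have hq : (X : ℝ) / z ≤ X * ℓ ^ (6 * k + 1) / z := by
      rw [mul_div_right_comm]
      exact le_mul_of_one_le_right (by positivity) hD1
    -- first term
    have b1 : 4 * (X : ℝ) ^ (c / 4) * X * (X : ℝ) ^ (-c) ≤ X / z / 4 := by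
      have h1 := hv2 X g4
      rw [← hℓ] at h1
      have h2 : (X : ℝ) ^ (c / 4) * (X : ℝ) ^ (-c) * (X : ℝ) ^ (3 * c / 4) = 1 := by
        rw [← Real.rpow_add hXp, ← Real.rpow_add hXp,
          show c / 4 + -c + 3 * c / 4 = 0 by ring, Real.rpow_zero]
      have h3 : 16 * (z : ℝ) ≤ (X : ℝ) ^ (3 * c / 4) := by linarith
      have h4 : 0 ≤ (X : ℝ) ^ (c / 4) * (X : ℝ) ^ (-c) := by positivity
      rw [div_div, le_div_iff₀ (by positivity)]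
      calc 4 * (X : ℝ) ^ (c / 4) * X * (X : ℝ) ^ (-c) * (z * 4)
          = X * ((X : ℝ) ^ (c / 4) * (X : ℝ) ^ (-c) * (16 * z)) := by ring
        _ ≤ X * ((X : ℝ) ^ (c / 4) * (X : ℝ) ^ (-c) * (X : ℝ) ^ (3 * c / 4)) := by gcongr
        _ = X := by rw [h2, mul_one]
    -- second term
    have b2 : M ^ 2 * P3 * (4 * 1 * X * (X : ℝ) ^ (-c)) ≤ X / z / 4 := by
      have h1 := hv1 X g3
      rw [← hℓ] at h1
      have h2 : (X : ℝ) ^ (-c) * (X : ℝ) ^ c = 1 := by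
        rw [← Real.rpow_add hXp, show -c + c = 0 by ring, Real.rpow_zero]
      have h3 : 16 * (M ^ 2 * P3 * z) ≤ (X : ℝ) ^ c := by
        refine le_trans ?_ h1
        calc 16 * (M ^ 2 * P3 * z) ≤ 16 * (Ca * ℓ ^ (5 * k) * ℓ ^ B) := by gcongr
          _ = 16 * Ca * ℓ ^ (5 * k + B) := by rw [pow_add]; ring
      rw [div_div, le_div_iff₀ (by positivity)]
      calc M ^ 2 * P3 * (4 * 1 * X * (X : ℝ) ^ (-c)) * (z * 4)
          = X * ((X : ℝ) ^ (-c) * (16 * (M ^ 2 * P3 * z))) := by ring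
        _ ≤ X * ((X : ℝ) ^ (-c) * (X : ℝ) ^ c) := by gcongr
        _ = X := by rw [h2, mul_one]
    -- third term
    have b3 : (X : ℝ) ^ (1 / 1000 : ℝ) * (((R : ℝ) ^ 4 + 2) * (R * M ^ 2) ^ 2) ≤ X / z / 4 := by
      have h1 := hv3 X g5
      rw [← hℓ] at h1
      have hR1r : (1 : ℝ) ≤ R := by exact_mod_cast hR1
      have h2 : ((R : ℝ) ^ 4 + 2) * (R * M ^ 2) ^ 2 ≤ 3 * (R : ℝ) ^ 6 * (M ^ 2) ^ 2 := by
        have e1 : (R : ℝ) ^ 4 + 2 ≤ 3 * (R : ℝ) ^ 4 := by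
          have : (1 : ℝ) ≤ (R : ℝ) ^ 4 := one_le_pow₀ hR1r
          linarith
        calc ((R : ℝ) ^ 4 + 2) * (R * M ^ 2) ^ 2 ≤ (3 * (R : ℝ) ^ 4) * (R * M ^ 2) ^ 2 := by gcongr
          _ = _ := by ring
      have h3 : (R : ℝ) ^ 6 ≤ (X : ℝ) ^ (6 / 1000 : ℝ) := by
        calc (R : ℝ) ^ 6 ≤ ((X : ℝ) ^ (1 / 1000 : ℝ)) ^ 6 := pow_le_pow_left₀ (by positivity) hR 6
          _ = (X : ℝ) ^ (6 / 1000 : ℝ) := by
            rw [← Real.rpow_natCast, ← Real.rpow_mul hXp.le]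
            norm_num
      have h4 : (X : ℝ) ^ (1 / 1000 : ℝ) * (X : ℝ) ^ (6 / 1000 : ℝ) * (X : ℝ) ^ (993 / 1000 : ℝ) =
          X := by
        rw [← Real.rpow_add hXp, ← Real.rpow_add hXp]
        norm_num
      rw [div_div, le_div_iff₀ (by positivity)]
      calc (X : ℝ) ^ (1 / 1000 : ℝ) * (((R : ℝ) ^ 4 + 2) * (R * M ^ 2) ^ 2) * (z * 4)
          ≤ (X : ℝ) ^ (1 / 1000 : ℝ) * (3 * (R : ℝ) ^ 6 * (M ^ 2) ^ 2) * (z * 4) := by gcongr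
        _ ≤ (X : ℝ) ^ (1 / 1000 : ℝ) * (3 * (X : ℝ) ^ (6 / 1000 : ℝ) *
            (C1 ^ (4 * k) * ℓ ^ (4 * k))) * (ℓ ^ B * 4) := by gcongr
        _ = (X : ℝ) ^ (1 / 1000 : ℝ) * (X : ℝ) ^ (6 / 1000 : ℝ) *
            (12 * C1 ^ (4 * k) * ℓ ^ (4 * k + B)) := by rw [pow_add]; ring
        _ ≤ (X : ℝ) ^ (1 / 1000 : ℝ) * (X : ℝ) ^ (6 / 1000 : ℝ) * (X : ℝ) ^ (993 / 1000 : ℝ) := by
            gcongr
        _ = X := h4
    -- fourth term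
    have b4 : 2 * X * (M ^ 2 * (3 * k / z) * P3) * (C4 * Real.log z) ^ k ≤
        X * ℓ ^ (6 * k + 1) / z / 4 := by
      have h1 := hv4 X g7
      rw [← hℓ] at h1
      have h2 : (C4 * Real.log z) ^ k ≤ C4 ^ k * ℓ ^ k := by
        rw [← mul_pow]
        exact pow_le_pow_left₀ (by positivity) (mul_le_mul_of_nonneg_left hlz hC40) k
      calc 2 * X * (M ^ 2 * (3 * k / z) * P3) * (C4 * Real.log z) ^ k
          = X / z * (6 * k * (M ^ 2 * P3) * (C4 * Real.log z) ^ k) := by ring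
        _ ≤ X / z * (6 * k * (Ca * ℓ ^ (5 * k)) * (C4 ^ k * ℓ ^ k)) := by gcongr
        _ = X / z * ((24 * k * Ca * C4 ^ k) * ℓ ^ (6 * k)) / 4 := by
            rw [show 6 * k = 5 * k + k by ring, pow_add]; ring
        _ ≤ X / z * (ℓ * ℓ ^ (6 * k)) / 4 := by
            have h3 : 24 * (k : ℝ) * Ca * C4 ^ k ≤ ℓ := by linarith
            gcongr
        _ = X * ℓ ^ (6 * k + 1) / z / 4 := by rw [pow_succ]; ring
    linarith

end Pool.Agent.Lib.SG
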