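import Pool.Agent.Lib.SG.Wclose7
import Pool.Agent.Lib.SG.Defs7
import Pool.Agent.Lib.SG.Pclose

/-!
# SG-Pclose7: `pclose` with a presieve of up to `K` classes

PROOF. Copy the proof of `pclose` (Pclose.lean) with Ω in place of Om h, `Nice K Ω`; `wclose7 k K`; `bve (A + 2k + 1) (K + (k+1)²)`; `layB_param K B`, `∏ |Ω p| ≤ K^|d|`. The only other use of Om h is `rz_pre`: for
x ∈ Pre Ω z X and p ≤ z prime, `p ∣ x + h i` would give `x % p ∈ Ω p` by `Cov`, so `rz z (x + h i) = (kap z)⁻¹`.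
-/

set_option autoImplicit false

open Finset

namespace Pool.Agent.Lib.SG

open Pool.Agent.Lib.MT

private theorem pclose7_trunc {K : ℕ} {ε c : ℝ} {X z m : ℕ} (hX : 1 ≤ X) (hε : ε ≤ 1) (hT : Tr K ε c X z m)
    (Ω : ℕ → Finset ℕ) (hK : ∀ p, (Ω p).card ≤ K) (hΩ : ∀ p ∈ PP 0 z, ∀ c ∈ Ω p, c < p)
    (w : ℕ → ℝ) (M : ℝ) (hM : 0 ≤ M) (hw : ∀ n ∈ Ioc X (2 * X), |w n| ≤ M) (α : ℝ) :
    ‖∑ x ∈ Pre Ω z X, (w x : ℂ) * GT.e (α * x) -
        ∑ d ∈ (PP 0 z).powerset with d.card ≤ m, ((((-1 : ℝ) ^ d.card : ℝ) : ℂ) *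
          ∑ x ∈ (Ioc X (2 * X)).filter (fun x => ∀ p ∈ d, x % p ∈ Ω p), (w x : ℂ) * GT.e (α * x))‖ ≤
      4 * M * X * (X : ℝ) ^ (-c) := by
  have hre : ∀ x : ℕ, |(GT.e (α * x)).re| ≤ 1 := fun x => by
    have h1 := Complex.abs_re_le_norm (GT.e (α * x))
    rwa [GT.norm_e] at h1
  have him : ∀ x : ℕ, |(GT.e (α * x)).im| ≤ 1 := fun x => by
    have h1 := Complex.abs_im_le_norm (GT.e (α * x))
    rwa [GT.norm_e] at h1
  have h1 := layB_trunc hX hε hT Ω hK hΩ (fun x => w x * (GT.e (α * x)).re) M hM (fun n hn => by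
    rw [abs_mul]
    calc |w n| * |(GT.e (α * n)).re| ≤ M * 1 :=
          mul_le_mul (hw n hn) (hre n) (abs_nonneg _) hM
      _ = M := mul_one M)
  have h2 := layB_trunc hX hε hT Ω hK hΩ (fun x => w x * (GT.e (α * x)).im) M hM (fun n hn => by
    rw [abs_mul]
    calc |w n| * |(GT.e (α * n)).im| ≤ M * 1 :=
          mul_le_mul (hw n hn) (him n) (abs_nonneg _) hM
      _ = M := mul_one M)
  refine (Complex.norm_le_abs_re_add_abs_im _).trans ?_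
  have e1 : (∑ x ∈ Pre Ω z X, (w x : ℂ) * GT.e (α * x) -
        ∑ d ∈ (PP 0 z).powerset with d.card ≤ m, ((((-1 : ℝ) ^ d.card : ℝ) : ℂ) *
          ∑ x ∈ (Ioc X (2 * X)).filter (fun x => ∀ p ∈ d, x % p ∈ Ω p),
            (w x : ℂ) * GT.e (α * x))).re =
      ∑ x ∈ Pre Ω z X, w x * (GT.e (α * x)).re -
        ∑ d ∈ (PP 0 z).powerset with d.card ≤ m, ((-1 : ℝ) ^ d.card *
          ∑ x ∈ (Ioc X (2 * X)).filter (fun x => ∀ p ∈ d, x % p ∈ Ω p),
            w x * (GT.e (α * x)).re) := by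
    rw [Complex.sub_re, Complex.re_sum, Complex.re_sum]
    congr 1
    · exact sum_congr rfl fun x _ => Complex.re_ofReal_mul _ _
    · refine sum_congr rfl fun d _ => ?_
      rw [Complex.re_ofReal_mul, Complex.re_sum]
      congr 1
      exact sum_congr rfl fun x _ => Complex.re_ofReal_mul _ _
  have e2 : (∑ x ∈ Pre Ω z X, (w x : ℂ) * GT.e (α * x) -
        ∑ d ∈ (PP 0 z).powerset with d.card ≤ m, ((((-1 : ℝ) ^ d.card : ℝ) : ℂ) *
          ∑ x ∈ (Ioc X (2 * X)).filter (fun x => ∀ p ∈ d, x % p ∈ Ω p),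
            (w x : ℂ) * GT.e (α * x))).im =
      ∑ x ∈ Pre Ω z X, w x * (GT.e (α * x)).im -
        ∑ d ∈ (PP 0 z).powerset with d.card ≤ m, ((-1 : ℝ) ^ d.card *
          ∑ x ∈ (Ioc X (2 * X)).filter (fun x => ∀ p ∈ d, x % p ∈ Ω p),
            w x * (GT.e (α * x)).im) := by
    rw [Complex.sub_im, Complex.im_sum, Complex.im_sum]
    congr 1
    · exact sum_congr rfl fun x _ => Complex.im_ofReal_mul _ _
    · refine sum_congr rfl fun d _ => ?_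
      rw [Complex.im_ofReal_mul, Complex.im_sum]
      congr 1
      exact sum_congr rfl fun x _ => Complex.im_ofReal_mul _ _
  rw [e1, e2]
  linarith

private theorem pclose7_col {P : Finset ℕ} {ι : Type} [Fintype ι] [DecidableEq ι] (h : ι → ℕ) (m : ι)
    (L : Col P ι → ℝ) :
    ∃ L' : Col P ι → ℝ, (∀ x, (∀ p ∈ P, ¬ p ∣ x + h m) → FF h L x = FF h L' x) ∧
      (∀ σ, L' σ ≠ 0 → L σ ≠ 0 ∧ ∀ p, σ p ≠ some m) ∧ ∀ σ, |L' σ| ≤ |L σ| := by
  refine ⟨_, fun x hx => ff_col h m L x hx, fun σ hσ => ?_, fun σ => ?_⟩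
  · split_ifs at hσ with h1
    · exact ⟨hσ, h1⟩
    · exact absurd rfl hσ
  · split_ifs
    · exact le_rfl
    · rw [abs_zero]
      exact abs_nonneg _

private theorem pclose7_pairs {P : Finset ℕ} {ι : Type} [Fintype ι] [DecidableEq ι]
    (L : Col P ι → ℝ) (M : ℝ) (hM : ∀ σ, |L σ| ≤ M) (Y Z : Col P ι × Col P ι → ℝ)
    (hY : ∀ s, 0 ≤ Y s ∧ Y s ≤ Z s) (S : Finset (Col P ι × Col P ι))
    (hS : ∀ s, s ∈ S ↔ L s.1 ≠ 0 ∧ L s.2 ≠ 0) :
    ∑ σ : Col P ι, ∑ τ : Col P ι, |L σ * L τ| * Y (σ, τ) ≤ M ^ 2 * ∑ s ∈ S, Z s := by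
  classical
  have hM0 : 0 ≤ M := (abs_nonneg _).trans (hM fun _ => none)
  rw [← sum_product' (s := (univ : Finset (Col P ι))) (t := (univ : Finset (Col P ι)))
      (f := fun σ τ => |L σ * L τ| * Y (σ, τ)), univ_product_univ, mul_sum]
  have h1 : ∑ s : Col P ι × Col P ι, |L s.1 * L s.2| * Y (s.1, s.2) =
      ∑ s ∈ S, |L s.1 * L s.2| * Y (s.1, s.2) := by
    refine (sum_subset (subset_univ S) fun s _ hs => ?_).symm
    rw [hS] at hs
    have h2 : L s.1 * L s.2 = 0 := by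
      by_contra h3
      exact hs ⟨left_ne_zero_of_mul h3, right_ne_zero_of_mul h3⟩
    rw [h2, abs_zero, zero_mul]
  rw [h1]
  refine sum_le_sum fun s _ => ?_
  rw [abs_mul, sq]
  exact mul_le_mul (mul_le_mul (hM _) (hM _) (abs_nonneg _) hM0) (hY s).2 (hY s).1 (by positivity)

private theorem pclose7_rz {k : ℕ} (h : Fin k → ℕ) (Ω : ℕ → Finset ℕ) (hcov : Cov Ω h) (z X x : ℕ)
    (hx : x ∈ Pre Ω z X) (i : Fin k) : rz z (x + h i) = (kap z)⁻¹ := by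
  unfold rz
  rw [if_pos]
  intro p hp hd
  unfold Pre at hx
  rw [mem_filter] at hx
  exact hx.2 p hp (hcov p (mem_filter.1 hp).2.1 i x hd)

theorem pclose7 (k K A : ℕ) : ∃ B₀ : ℕ, ∀ B : ℕ, B₀ ≤ B → ∃ X₀ : ℕ, ∀ X z R : ℕ, X₀ ≤ X →
    (Real.log X) ^ B₀ ≤ z → (z : ℝ) ≤ (Real.log X) ^ B → (R : ℝ) ≤ (X : ℝ) ^ (1 / 1000 : ℝ) →
    ∀ h : Fin k → ℕ, Function.Injective h → (∀ i, h i ≤ z) → ∀ Ω : ℕ → Finset ℕ, Nice K Ω → Cov Ω h →
    ∀ L : Col (PP z R) (Fin k) → ℝ,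
    (∀ σ, |L σ| ≤ ∏ p : {p : ℕ // p ∈ PP z R}, (1 + (k : ℝ) / ((p : ℕ) : ℝ))) →
    (∀ σ, L σ ≠ 0 → tot σ ≤ R) → ∀ i : Fin k, ∃ G : ℝ, ∀ α : ℝ,
    ‖∑ x ∈ Pre Ω z X, (((FF h L x) ^ 2 * BV.th (x + h i) : ℝ) : ℂ) * GT.e (α * x) -
        (G : ℂ) * ∑ x ∈ Pre Ω z X, GT.e (α * x)‖ ≤ X / (Real.log X) ^ A := by
  classical
  obtain ⟨D, hD⟩ := wclose7 k K
  obtain ⟨C, hC, hprod⟩ := layA_prod k
  obtain ⟨C3, hC3, hkap⟩ := num_kap
  obtain ⟨B1, hB1⟩ := bve (A + 2 * k + 1) (K + (k + 1) ^ 2)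
  refine ⟨max B1 (D + A + 4), fun B hB => ?_⟩
  obtain ⟨X1, h1⟩ := hB1 B ((le_max_left _ _).trans hB)
  obtain ⟨X2, h2⟩ := hD B
  obtain ⟨c0, hc0, X3, h3⟩ := layB_param K B (1 / 1000) (by norm_num)
  obtain ⟨X4, h4⟩ := layA_FF (Fin k) (c0 / 8) (by positivity)
  obtain ⟨X5, h5⟩ := Pool.Agent.Lib.MP_092512_nt.P3.B.ev_pow (16 * (2 + C3)) (c0 / 2) (by positivity)
    (A + 1)
  obtain ⟨X6, h6⟩ : ∃ X6 : ℕ, ∀ X : ℕ, X6 ≤ X → max 2 (max (4 * C3) (4 * C ^ (2 * k))) ≤ Real.log X :=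
    Filter.eventually_atTop.1
      ((Real.tendsto_log_atTop.comp tendsto_natCast_atTop_atTop).eventually_ge_atTop _)
  refine ⟨X1 + X2 + X3 + X4 + X5 + X6 + 3, fun X z R hX hzl hz hR h hinj hhz Ω hN hcov L hL hLR i => ?_⟩
  have hX3 : 3 ≤ X := by omega
  have hX1 : (1 : ℝ) ≤ X := by
    have : 1 ≤ X := by omega
    exact_mod_cast this
  have hX0 : (0 : ℝ) < X := by linarith
  obtain ⟨l, hl⟩ : ∃ l : ℝ, l = Real.log X := ⟨_, rfl⟩
  have hl2 : 2 ≤ l := by rw [hl]; exact le_trans (le_max_left _ _) (h6 X (by omega))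
  have hlC3 : 4 * C3 ≤ l := by
    rw [hl]; exact le_trans ((le_max_left _ _).trans (le_max_right _ _)) (h6 X (by omega))
  have hlC : 4 * C ^ (2 * k) ≤ l := by
    rw [hl]; exact le_trans ((le_max_right _ _).trans (le_max_right _ _)) (h6 X (by omega))
  have hl0 : 0 < l := by linarith
  have hl1 : 1 ≤ l := by linarith
  have hzlA : l ^ (D + A + 4) ≤ z := by
    rw [← hl] at hzl
    exact (pow_le_pow_right₀ hl1 (le_max_right _ _)).trans hzl
  have hzlB : l ^ B1 ≤ z := by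
    rw [← hl] at hzl
    exact (pow_le_pow_right₀ hl1 (le_max_left _ _)).trans hzl
  have hz2r : (2 : ℝ) ≤ z := by
    refine le_trans hl2 (le_trans ?_ hzlA)
    calc l = l ^ 1 := (pow_one l).symm
      _ ≤ l ^ (D + A + 4) := pow_le_pow_right₀ hl1 (by omega)
  have hz2 : 2 ≤ z := by exact_mod_cast hz2r
  have hz0 : (0 : ℝ) < z := by linarith
  have hpw : ∀ t : ℝ, t ≤ 1 → (X : ℝ) ^ t ≤ X := fun t ht => by
    calc (X : ℝ) ^ t ≤ (X : ℝ) ^ (1 : ℝ) := Real.rpow_le_rpow_of_exponent_le hX1 ht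
      _ = X := Real.rpow_one _
  have hRX : R ≤ X := by exact_mod_cast hR.trans (hpw _ (by norm_num))
  obtain ⟨mm, hm⟩ := h3 X z (by omega) hz
  have hzm : (((z : ℝ) + 1) ^ mm) ≤ (X : ℝ) ^ (1 / 1000 : ℝ) ∧ (z : ℝ) ≤ (X : ℝ) ^ (1 / 1000 : ℝ) := by
    have hK0 : (0 : ℝ) ≤ (K : ℝ) := Nat.cast_nonneg K
    have hb1 : (1 : ℝ) ≤ ((K : ℝ) + 2) * (z + 1) := by nlinarith
    have hb2 : (z : ℝ) ≤ ((K : ℝ) + 2) * (z + 1) := by nlinarith
    have hb4 : (z : ℝ) + 1 ≤ ((K : ℝ) + 2) * (z + 1) := by nlinarith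
    have hb3 := hm.2.1
    constructor
    · refine le_trans ?_ hb3
      exact (pow_le_pow_left₀ (by linarith) hb4 mm).trans (pow_le_pow_right₀ hb1 (by omega))
    · refine le_trans (hb2.trans ?_) hb3
      calc ((K : ℝ) + 2) * (z + 1) = (((K : ℝ) + 2) * (z + 1)) ^ 1 := (pow_one _).symm
        _ ≤ (((K : ℝ) + 2) * (z + 1)) ^ (mm + 1) := pow_le_pow_right₀ hb1 (by omega)
  have hzX : z ≤ X := by exact_mod_cast hzm.2.trans (hpw _ (by norm_num))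
  have hhX : ∀ i, h i ≤ X := fun i => (hhz i).trans hzX
  have hκ0 := (hkap z hz2).1
  have hκ1 : (kap z)⁻¹ ≤ C3 * l := by
    refine (hkap z hz2).2.trans (mul_le_mul_of_nonneg_left ?_ (by linarith))
    rw [hl]
    exact Real.log_le_log hz0 (by exact_mod_cast hzX)
  obtain ⟨κ, hκ⟩ : ∃ κ : ℝ, κ = (kap z)⁻¹ := ⟨_, rfl⟩
  have hrz : ∀ x ∈ Pre Ω z X, rz z (x + h i) = κ := fun x hx => by
    rw [hκ]
    exact pclose7_rz h Ω hcov z X x hx i
  have hrzb : ∀ n, |rz z n| ≤ κ := by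
    intro n
    unfold rz
    rw [hκ]
    split_ifs
    · exact le_of_eq (abs_of_nonneg (by linarith))
    · rw [abs_zero]
      linarith
  rw [← hκ] at hκ0 hκ1
  -- the colouring without the colour i
  obtain ⟨L', g1, g2, g3⟩ := pclose7_col h i L
  obtain ⟨M0, hM0⟩ : ∃ M0 : ℝ, M0 = ∏ p : {p : ℕ // p ∈ PP z R}, (1 + (k : ℝ) / ((p : ℕ) : ℝ)) :=
    ⟨_, rfl⟩
  have hL' : ∀ σ, |L' σ| ≤ ∏ p : {p : ℕ // p ∈ PP z R}, (1 + (k : ℝ) / ((p : ℕ) : ℝ)) :=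
    fun σ => (g3 σ).trans (hL σ)
  have hLR' : ∀ σ, L' σ ≠ 0 → tot σ ≤ R := fun σ hσ => hLR σ (g2 σ hσ).1
  have hM : ∀ σ, |L' σ| ≤ M0 := by
    rw [hM0]
    exact hL'
  have hM00 : 0 ≤ M0 := (abs_nonneg _).trans (hM fun _ => none)
  have hM0C : M0 ≤ (C * l) ^ k := by
    rw [hM0, hl]
    exact hprod X z R hX3 hRX
  have hij : ∀ p ∈ PP z R, ∀ i j, i ≠ j → ¬ h i ≡ h j [MOD p] := by
    intro p hp i j hne hmod
    have hzp : z < p := (mem_filter.1 hp).2.2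
    exact hne (hinj (Nat.ModEq.eq_of_lt_of_lt hmod (lt_of_le_of_lt (hhz i) hzp)
      (lt_of_le_of_lt (hhz j) hzp)))
  have hPp : ∀ p ∈ PP z R, p.Prime := fun p hp => (mem_filter.1 hp).2.1
  have hPz : ∀ p ∈ PP z R, z < p := fun p hp => (mem_filter.1 hp).2.2
  refine ⟨κ * Qf (q1 (ι := Fin k)) L', fun α => ?_⟩
  obtain ⟨w, hw⟩ : ∃ w : ℕ → ℝ, w = fun x => (FF h L' x) ^ 2 * (BV.th (x + h i) - rz z (x + h i)) :=
    ⟨_, rfl⟩
  -- the decomposition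
  have hA : ∑ x ∈ Pre Ω z X, (((FF h L x) ^ 2 * BV.th (x + h i) : ℝ) : ℂ) * GT.e (α * x) -
        ((κ * Qf (q1 (ι := Fin k)) L' : ℝ) : ℂ) * ∑ x ∈ Pre Ω z X, GT.e (α * x) =
      ∑ x ∈ Pre Ω z X, (w x : ℂ) * GT.e (α * x) +
        (κ : ℂ) * (∑ x ∈ Pre Ω z X, (((FF h L' x) ^ 2 : ℝ) : ℂ) * GT.e (α * x) -
        ((Qf (q1 (ι := Fin k)) L' : ℝ) : ℂ) * ∑ x ∈ Pre Ω z X, GT.e (α * x)) := by
    have hB' : ∑ x ∈ Pre Ω z X, (((FF h L x) ^ 2 * BV.th (x + h i) : ℝ) : ℂ) * GT.e (α * x) =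
        ∑ x ∈ Pre Ω z X, (w x : ℂ) * GT.e (α * x) +
        (κ : ℂ) * ∑ x ∈ Pre Ω z X, (((FF h L' x) ^ 2 : ℝ) : ℂ) * GT.e (α * x) := by
      rw [mul_sum, ← sum_add_distrib]
      refine sum_congr rfl fun x hx => ?_
      have hFL : (FF h L x) ^ 2 * BV.th (x + h i) = (FF h L' x) ^ 2 * BV.th (x + h i) := by
        by_cases hp : (x + h i).Prime
        · rw [g1 x]
          intro p hp1 hdvd
          have h8 := (Nat.prime_dvd_prime_iff_eq (hPp p hp1) hp).1 hdvd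
          have h9 : p < R + 1 := mem_range.1 (mem_filter.1 hp1).1
          have h10 := (mem_Ioc.1 (mem_filter.1 hx).1).1
          omega
        · have h8 : BV.th (x + h i) = 0 := by
            unfold BV.th
            rw [if_neg hp]
          rw [h8, mul_zero, mul_zero]
      have hwx : w x = (FF h L' x) ^ 2 * BV.th (x + h i) - κ * (FF h L' x) ^ 2 := by
        rw [hw]
        simp only []
        rw [hrz x hx]
        ring
      rw [hFL, hwx]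
      push_cast
      ring
    rw [hB']
    push_cast
    ring
  rw [hA]
  have hwc := h2 X z R (by omega) hz2 hz hR h hinj hhz Ω hN L' hL' hLR' α
  have hthb : ∀ x ∈ Ioc X (2 * X), |BV.th (x + h i)| ≤ 2 * (1 + l) := by
    intro x hx
    rw [mem_Ioc] at hx
    have hxr : (0 : ℝ) < ((x + h i : ℕ) : ℝ) := by
      have : 0 < x + h i := by omega
      exact_mod_cast this
    have h7 : Real.log ((x + h i : ℕ) : ℝ) ≤ Real.log (3 * X) := by
      refine Real.log_le_log hxr ?_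
      have := hhX i
      have h8 : x + h i ≤ 3 * X := by omega
      exact_mod_cast h8
    have h8 : Real.log (3 * X) ≤ 2 * (1 + l) := by
      rw [Real.log_mul (by norm_num) hX0.ne', ← hl]
      have h9 : Real.log 3 ≤ 2 := by
        have := Real.log_le_sub_one_of_pos (show (0 : ℝ) < 3 by norm_num)
        linarith
      linarith
    unfold BV.th
    split_ifs
    · rw [abs_of_nonneg (Real.log_natCast_nonneg _)]
      exact h7.trans h8
    · rw [abs_zero]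
      linarith
  have hwb : ∀ x ∈ Ioc X (2 * X), |w x| ≤ (X : ℝ) ^ (c0 / 4) * ((2 + C3) * (1 + l)) := by
    intro x hx
    have h8 := h4 X z R (by omega) hRX h hhX L' (by
      intro σ
      rw [Fintype.card_fin]
      exact hL' σ) x hx
    rw [hw]
    simp only []
    rw [abs_mul, abs_pow]
    refine mul_le_mul ?_ ?_ (abs_nonneg _) (by positivity)
    · calc |FF h L' x| ^ 2 ≤ ((X : ℝ) ^ (c0 / 8)) ^ 2 := pow_le_pow_left₀ (abs_nonneg _) h8 2
        _ = (X : ℝ) ^ (c0 / 4) := by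
            rw [← Real.rpow_natCast, ← Real.rpow_mul hX0.le]
            congr 1
            push_cast
            ring
    · refine (abs_sub _ _).trans ?_
      have h9 := hthb x hx
      have h10 := hrzb (x + h i)
      nlinarith
  have t1 := pclose7_trunc (by omega) (by norm_num) hm Ω hN.card (fun p _ => hN.lt p) w
    ((X : ℝ) ^ (c0 / 4) * ((2 + C3) * (1 + l))) (by positivity) hwb α
  -- fixed d
  obtain ⟨E, hE0, hE1, hE2⟩ := h1 X z (h i) (by omega) (by rw [← hl]; exact hzlB) hz (hhX i) α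
  obtain ⟨Q, hQ⟩ : ∃ Q : ℕ, Q = ⌊(X : ℝ) ^ (1 / 50 : ℝ)⌋₊ := ⟨_, rfl⟩
  have hQr : (Q : ℝ) ≤ (X : ℝ) ^ (1 / 50 : ℝ) := by
    rw [hQ]
    exact Nat.floor_le (by positivity)
  obtain ⟨S, hS⟩ : ∃ S : Finset (Col (PP z R) (Fin k) × Col (PP z R) (Fin k)),
      ∀ s, s ∈ S ↔ L' s.1 ≠ 0 ∧ L' s.2 ≠ 0 :=
    ⟨univ.filter (fun s => L' s.1 ≠ 0 ∧ L' s.2 ≠ 0), fun s => by
      rw [mem_filter]
      exact and_iff_right (mem_univ _)⟩
  have hqQ : ∀ d ⊆ PP 0 z, d.card ≤ mm → ∀ s ∈ S, (∏ p ∈ d, p) * mod2 s.1 s.2 ≤ Q := by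
    intro d hd hdm s hs
    have hs' := (hS s).1 hs
    have h7 := mod2_le hPp s.1 s.2
    have h8 := hLR' s.1 hs'.1
    have h9 := hLR' s.2 hs'.2
    rw [hQ]
    refine Nat.le_floor ?_
    have hprodd : (∏ p ∈ d, p) ≤ (z + 1) ^ mm := by
      calc ∏ p ∈ d, p ≤ ∏ _p ∈ d, (z + 1) := prod_le_prod' fun p hp => by
            have h10 := mem_range.1 (mem_filter.1 (hd hp)).1
            omega
        _ = (z + 1) ^ d.card := by rw [prod_const]
        _ ≤ (z + 1) ^ mm := Nat.pow_le_pow_right (by omega) hdm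
    have h10 : (((∏ p ∈ d, p) * mod2 s.1 s.2 : ℕ) : ℝ) ≤ ((z : ℝ) + 1) ^ mm * ((R : ℝ) * R) := by
      have h11 : (∏ p ∈ d, p) * mod2 s.1 s.2 ≤ (z + 1) ^ mm * (R * R) :=
        Nat.mul_le_mul hprodd (h7.trans (Nat.mul_le_mul h8 h9))
      exact_mod_cast h11
    refine h10.trans ?_
    calc ((z : ℝ) + 1) ^ mm * ((R : ℝ) * R) ≤
        (X : ℝ) ^ (1 / 1000 : ℝ) * ((X : ℝ) ^ (1 / 1000 : ℝ) * (X : ℝ) ^ (1 / 1000 : ℝ)) := by
          have hR0 : (0 : ℝ) ≤ (R : ℝ) := Nat.cast_nonneg R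
          exact mul_le_mul hzm.1 (mul_le_mul hR hR hR0 (by positivity)) (by positivity) (by positivity)
      _ = (X : ℝ) ^ (3 / 1000 : ℝ) := by
          rw [← Real.rpow_add hX0, ← Real.rpow_add hX0]
          norm_num
      _ ≤ (X : ℝ) ^ (1 / 50 : ℝ) := Real.rpow_le_rpow_of_exponent_le hX1 (by norm_num)
  have t2 : ∀ d ∈ (PP 0 z).powerset.filter (fun d => d.card ≤ mm),
      ‖(((-1 : ℝ) ^ d.card : ℝ) : ℂ) *
          ∑ x ∈ (Ioc X (2 * X)).filter (fun x => ∀ p ∈ d, x % p ∈ Ω p),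
            (w x : ℂ) * GT.e (α * x)‖ ≤
      M0 ^ 2 * ∑ s ∈ S, (K : ℝ) ^ d.card * E ((∏ p ∈ d, p) * mod2 s.1 s.2) := by
    intro d hd
    have hdz := mem_powerset.1 (mem_filter.1 hd).1
    have h7 := pfix hPp z X hPz hzX h i hij Ω (fun p _ => hN.lt p) d hdz L'
      (fun σ hσ => (g2 σ hσ).2) α E hE0 hE1
    have h8 : ‖(((-1 : ℝ) ^ d.card : ℝ) : ℂ)‖ = 1 := by
      rw [Complex.norm_real, norm_pow, norm_neg, norm_one, one_pow]
    rw [norm_mul, h8, one_mul, hw]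
    refine h7.trans ?_
    refine pclose7_pairs L' M0 hM (fun s => (∏ p ∈ d, ((Ω p).card : ℝ)) *
        E ((∏ p ∈ d, p) * mod2 s.1 s.2))
      (fun s => (K : ℝ) ^ d.card * E ((∏ p ∈ d, p) * mod2 s.1 s.2)) (fun s => ⟨?_, ?_⟩) S hS
    · exact mul_nonneg (prod_nonneg fun p _ => Nat.cast_nonneg _) (hE0 _)
    · refine mul_le_mul_of_nonneg_right ?_ (hE0 _)
      rw [← prod_const]
      exact prod_le_prod (fun p _ => Nat.cast_nonneg _) fun p _ => by exact_mod_cast hN.card p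
  have t3 : ‖∑ d ∈ (PP 0 z).powerset with d.card ≤ mm, ((((-1 : ℝ) ^ d.card : ℝ) : ℂ) *
          ∑ x ∈ (Ioc X (2 * X)).filter (fun x => ∀ p ∈ d, x % p ∈ Ω p),
            (w x : ℂ) * GT.e (α * x))‖ ≤ M0 ^ 2 * (X / l ^ (A + 2 * k + 1)) := by
    refine (norm_sum_le _ _).trans ((sum_le_sum t2).trans ?_)
    rw [← mul_sum]
    refine mul_le_mul_of_nonneg_left ?_ (by positivity)
    have h7 := layE_fibre hPp z mm K Q hPz S hqQ E hE0
    rw [Fintype.card_fin] at h7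
    rw [hl]
    exact h7.trans (hE2 Q hQr)
  -- numbers
  have hlA : 0 < l ^ A := by positivity
  have e1 : 4 * ((X : ℝ) ^ (c0 / 4) * ((2 + C3) * (1 + l))) * X * (X : ℝ) ^ (-c0) ≤
      X / (4 * l ^ A) := by
    rw [le_div_iff₀ (by positivity)]
    have h8 := h5 X (by omega)
    rw [← hl] at h8
    have h9 : (1 + l) * l ^ A ≤ (1 + l) ^ (A + 1) := by
      rw [pow_succ, mul_comm]
      exact mul_le_mul_of_nonneg_right (pow_le_pow_left₀ hl0.le (by linarith) _) (by linarith)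
    calc 4 * ((X : ℝ) ^ (c0 / 4) * ((2 + C3) * (1 + l))) * X * (X : ℝ) ^ (-c0) * (4 * l ^ A)
        = (16 * (2 + C3) * ((1 + l) * l ^ A)) * ((X : ℝ) ^ (c0 / 4) * X * (X : ℝ) ^ (-c0)) := by
          ring
      _ ≤ (X : ℝ) ^ (c0 / 2) * ((X : ℝ) ^ (c0 / 4) * X * (X : ℝ) ^ (-c0)) := by
          refine mul_le_mul_of_nonneg_right (le_trans ?_ h8) (by positivity)
          exact mul_le_mul_of_nonneg_left h9 (by positivity)
      _ = (X : ℝ) ^ (c0 / 2 + (c0 / 4 + 1 + -c0)) := by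
          rw [Real.rpow_add hX0, Real.rpow_add hX0, Real.rpow_add hX0, Real.rpow_one]
      _ ≤ X := hpw _ (by linarith)
  have e2 : M0 ^ 2 * (X / l ^ (A + 2 * k + 1)) ≤ X / (4 * l ^ A) := by
    have h11 : M0 ^ 2 ≤ C ^ (2 * k) * l ^ (2 * k) := by
      refine (pow_le_pow_left₀ hM00 hM0C 2).trans (le_of_eq ?_)
      rw [← pow_mul, mul_pow, mul_comm k 2]
    rw [le_div_iff₀ (by positivity)]
    calc M0 ^ 2 * (X / l ^ (A + 2 * k + 1)) * (4 * l ^ A)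
        ≤ C ^ (2 * k) * l ^ (2 * k) * (X / l ^ (A + 2 * k + 1)) * (4 * l ^ A) := by
          refine mul_le_mul_of_nonneg_right (mul_le_mul_of_nonneg_right h11 (by positivity))
            (by positivity)
      _ = X * ((4 * C ^ (2 * k)) * (l ^ (A + 2 * k) / l ^ (A + 2 * k + 1))) := by
          rw [pow_add l A (2 * k)]
          ring
      _ = X * ((4 * C ^ (2 * k)) * (1 / l)) := by
          have e : l ^ (A + 2 * k) / l ^ (A + 2 * k + 1) = 1 / l := by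
            rw [div_eq_div_iff (by positivity) (by positivity), one_mul, ← pow_succ]
          rw [e]
      _ ≤ X * 1 := by
          refine mul_le_mul_of_nonneg_left ?_ hX0.le
          rw [mul_one_div, div_le_one hl0]
          exact hlC
      _ = X := mul_one _
  have e3 : κ * (X * l ^ D / z) ≤ X / (4 * l ^ A) := by
    rw [le_div_iff₀ (by positivity)]
    calc κ * (X * l ^ D / z) * (4 * l ^ A) ≤
        (C3 * l) * (X * l ^ D / l ^ (D + A + 4)) * (4 * l ^ A) := by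
          gcongr
      _ = X * ((4 * C3) * (l ^ (D + A + 1) / l ^ (D + A + 4))) := by
          rw [pow_add l (D + A) 1, pow_add l D A]
          ring
      _ ≤ X * (l * (l ^ (D + A + 1) / l ^ (D + A + 4))) := by
          gcongr
      _ ≤ X * 1 := by
          refine mul_le_mul_of_nonneg_left ?_ hX0.le
          rw [mul_div_assoc', div_le_one (by positivity), ← pow_succ']
          exact pow_le_pow_right₀ hl1 (by omega)
      _ = X := mul_one _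
  refine (norm_add_le _ _).trans ?_
  have e4 : ‖(κ : ℂ) * (∑ x ∈ Pre Ω z X, (((FF h L' x) ^ 2 : ℝ) : ℂ) * GT.e (α * x) -
        ((Qf (q1 (ι := Fin k)) L' : ℝ) : ℂ) * ∑ x ∈ Pre Ω z X, GT.e (α * x))‖ ≤
      X / (4 * l ^ A) := by
    rw [norm_mul, Complex.norm_real, Real.norm_of_nonneg (by linarith)]
    refine le_trans ?_ e3
    rw [← hl] at hwc
    exact mul_le_mul_of_nonneg_left hwc (by linarith)
  have e5 : ‖∑ x ∈ Pre Ω z X, (w x : ℂ) * GT.e (α * x)‖ ≤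
      X / (4 * l ^ A) + X / (4 * l ^ A) := by
    have h8 := norm_sub_norm_le (∑ x ∈ Pre Ω z X, (w x : ℂ) * GT.e (α * x))
      (∑ d ∈ (PP 0 z).powerset with d.card ≤ mm, ((((-1 : ℝ) ^ d.card : ℝ) : ℂ) *
          ∑ x ∈ (Ioc X (2 * X)).filter (fun x => ∀ p ∈ d, x % p ∈ Ω p),
            (w x : ℂ) * GT.e (α * x)))
    have h9 := t1.trans e1
    have h10 := t3.trans e2
    linarith
  have e6 : X / l ^ A = X / (4 * l ^ A) + X / (4 * l ^ A) + X / (4 * l ^ A) + X / (4 * l ^ A) := by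
    field_simp
    ring
  have e7 : 0 ≤ X / (4 * l ^ A) := by positivity
  rw [← hl, e6]
  linarith

end Pool.Agent.Lib.SG
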