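import Pool.Agent.Lib.SG.Num
import Pool.Agent.Lib.MT.LayB

/-!
# SG-Rtr: the rough numbers in a class, truncated inclusion-exclusion

PROOF. `T_m` = the d ⊆ PP 0 z with |d| ≤ m; take m from the same parameters as `layB_param 1 B (1/1000)` (`Tr 1 (1/1000) c X z m`: m even,
`(3 (z+1))^(m+1) ≤ X^(1/1000)`, `exp(T · 2 (1 + log z))/T^(m+1) ≤ X^(-c)` for some T ≥ 1). So `∏ d ≤ z^m ≤ X^(1/1000)` for d ∈ T_m.
Bonferroni pointwise: for n put `S = {p ≤ z : p ∣ n}`; `|1[S = ∅] - ∑_{d ⊆ S, |d| ≤ m} (-1)^|d|| ≤ #{d ⊆ S : |d| = m + 1}` (the alternating sum of binomial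
coefficients `∑_{i ≤ m} (-1)^i C(|S|, i) = (-1)^m C(|S|-1, m)` for |S| ≥ 1, `Int.alternating_sum_range_choose`-like, and `C(s-1, m) ≤ C(s, m+1)` if s ≥ m+1, zero
otherwise). So the error is at most `(kap z)⁻¹ ∑_{|d| = m+1} #{n ∈ (A, A+Y], n ≡ c [MOD q], ∏ d ∣ n}`. If a prime of d divides q there is no such n
(c coprime to q); otherwise the number is at most `Y/(q ∏ d) + 1`. `∑_{|d| = m+1} 1/∏ d ≤ T^(-(m+1)) ∏ (1 + T/p) ≤ exp(T ∑ 1/p)/T^(m+1) ≤ X^(-c)`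
(`∑_{p ≤ z} 1/p ≤ 2 (1 + log z)`), the number of d with |d| = m + 1 is at most `(z+1)^(m+1) ≤ X^(1/1000)`. Total
`(kap z)⁻¹ (2X · X^(-c)/q + X^(1/1000)) ≤ X^(1-c/2)/q` for q ≤ X^(1/40) and c ≤ 1/2 (take a smaller c if necessary), X ≥ X₀.
-/

set_option autoImplicit false

open Finset

namespace Pool.Agent.Lib.SG

open Pool.Agent.Lib.MT Pool.Agent.Lib.SW Pool.Agent.Lib.MP_092512_nt.P3.B

private theorem rtr_count (A Y r v : ℕ) (hr : 0 < r) :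
    (((Ioc A (A + Y)).filter (fun n => n ≡ v [MOD r])).card : ℝ) ≤ (Y : ℝ) / r + 1 := by
  have h1 := Nat.Ioc_filter_modEq_card A (A + Y) hr v
  have hrq : (0 : ℚ) < (r : ℚ) := by exact_mod_cast hr
  have h2 : (((((Ioc A (A + Y)).filter (fun n => n ≡ v [MOD r])).card : ℤ) : ℚ)) ≤ (Y : ℚ) / r + 1 := by
    rw [h1, Int.cast_max, Int.cast_sub, Int.cast_zero]
    refine max_le ?_ (by positivity)
    have h3 := Int.floor_le ((((A + Y : ℕ) : ℚ) - (v : ℚ)) / (r : ℚ))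
    have h4 := Int.lt_floor_add_one (((A : ℚ) - (v : ℚ)) / (r : ℚ))
    have h5 : (((A + Y : ℕ) : ℚ) - (v : ℚ)) / (r : ℚ) = ((A : ℚ) - (v : ℚ)) / (r : ℚ) + (Y : ℚ) / r := by
      push_cast
      field_simp
      ring
    rw [h5] at h3 ⊢
    linarith
  have h6 : ((((Ioc A (A + Y)).filter (fun n => n ≡ v [MOD r])).card : ℕ) : ℚ) ≤ (Y : ℚ) / r + 1 := by
    exact_mod_cast h2
  have h7 : (((((Ioc A (A + Y)).filter (fun n => n ≡ v [MOD r])).card : ℕ) : ℚ) : ℝ) ≤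
      (((Y : ℚ) / r + 1 : ℚ) : ℝ) := Rat.cast_le.mpr h6
  push_cast at h7
  exact h7

private theorem rtr_count2 (A Y q a D : ℕ) (hq : 1 ≤ q) (hD : 1 ≤ D) (haq : Nat.Coprime a q) :
    (((Ioc A (A + Y)).filter (fun n => n ≡ a [MOD q] ∧ D ∣ n)).card : ℝ) ≤
      (Y : ℝ) / (q * D) + 1 := by
  by_cases hc : Nat.Coprime q D
  · obtain ⟨v, hv1, hv2⟩ := Nat.chineseRemainder hc a 0
    have h1 : (Ioc A (A + Y)).filter (fun n => n ≡ a [MOD q] ∧ D ∣ n) ⊆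
        (Ioc A (A + Y)).filter (fun n => n ≡ v [MOD q * D]) := by
      intro n hn
      rw [mem_filter] at hn ⊢
      refine ⟨hn.1, ?_⟩
      rw [← Nat.modEq_and_modEq_iff_modEq_mul hc]
      exact ⟨hn.2.1.trans hv1.symm, ((Nat.modEq_zero_iff_dvd).mpr hn.2.2).trans hv2.symm⟩
    have h2 : (((Ioc A (A + Y)).filter (fun n => n ≡ a [MOD q] ∧ D ∣ n)).card : ℝ) ≤
        (((Ioc A (A + Y)).filter (fun n => n ≡ v [MOD q * D])).card : ℝ) := by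
      exact_mod_cast card_le_card h1
    refine h2.trans ?_
    have h3 := rtr_count A Y (q * D) v (Nat.mul_pos hq hD)
    rwa [Nat.cast_mul] at h3
  · have h1 : (Ioc A (A + Y)).filter (fun n => n ≡ a [MOD q] ∧ D ∣ n) = ∅ := by
      rw [filter_eq_empty_iff]
      rintro n _ ⟨hn1, hn2⟩
      apply hc
      have h2 : Nat.Coprime n q := by
        have h3 := hn1.gcd_eq
        unfold Nat.Coprime
        rw [h3]
        exact haq
      exact (Nat.Coprime.coprime_dvd_left hn2 h2).symm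
    rw [h1, card_empty, Nat.cast_zero]
    positivity

private theorem rtr_dvd (d : Finset ℕ) (hd : ∀ p ∈ d, p.Prime) (n : ℕ) :
    (∏ p ∈ d, p) ∣ n ↔ ∀ p ∈ d, n % p ∈ ({0} : Finset ℕ) := by
  constructor
  · intro h p hp
    rw [mem_singleton]
    exact Nat.mod_eq_zero_of_dvd ((dvd_prod_of_mem _ hp).trans h)
  · intro h
    refine Finset.prod_primes_dvd n (fun p hp => (hd p hp).prime) (fun p hp => ?_)
    exact Nat.dvd_of_mod_eq_zero (mem_singleton.mp (h p hp))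

private theorem rtr_prime (z : ℕ) : ∀ p ∈ PP 0 z, p.Prime := by
  intro p hp
  unfold PP at hp
  exact (mem_filter.mp hp).2.1

private theorem rtr_le (z : ℕ) : ∀ p ∈ PP 0 z, p ≤ z := by
  intro p hp
  unfold PP at hp
  rw [mem_filter, mem_range] at hp
  exact Nat.lt_succ_iff.mp hp.1

private theorem rtr_point (z m n : ℕ) (hm : Even m) :
    |(if ∀ p ∈ PP 0 z, ¬ p ∣ n then (1 : ℝ) else 0) -
      ∑ d ∈ (PP 0 z).powerset with d.card ≤ m,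
        ((-1 : ℝ) ^ d.card * if (∏ p ∈ d, p) ∣ n then 1 else 0)| ≤
      ∑ d ∈ (PP 0 z).powerset with d.card = m + 1, (if (∏ p ∈ d, p) ∣ n then (1 : ℝ) else 0) := by
  have h1 := trunc_ind (PP 0 z) (fun _ => {0}) m n hm
  have h2 : (if ∀ p ∈ PP 0 z, n % p ∉ (fun _ : ℕ => ({0} : Finset ℕ)) p then (1 : ℝ) else 0) =
      (if ∀ p ∈ PP 0 z, ¬ p ∣ n then (1 : ℝ) else 0) := by
    refine if_congr ?_ rfl rfl
    refine forall₂_congr fun p _ => ?_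
    rw [mem_singleton, Nat.dvd_iff_mod_eq_zero]
  have h3 : ∀ d ⊆ PP 0 z,
      (if ∀ p ∈ d, n % p ∈ (fun _ : ℕ => ({0} : Finset ℕ)) p then (1 : ℝ) else 0) =
      (if (∏ p ∈ d, p) ∣ n then (1 : ℝ) else 0) := by
    intro d hd
    refine if_congr ?_ rfl rfl
    exact (rtr_dvd d (fun p hp => rtr_prime z p (hd hp)) n).symm
  have h4 : ∑ d ∈ (PP 0 z).powerset with d.card ≤ m, ((-1 : ℝ) ^ d.card *
        if ∀ p ∈ d, n % p ∈ (fun _ : ℕ => ({0} : Finset ℕ)) p then 1 else 0) =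
      ∑ d ∈ (PP 0 z).powerset with d.card ≤ m,
        ((-1 : ℝ) ^ d.card * if (∏ p ∈ d, p) ∣ n then 1 else 0) := by
    refine sum_congr rfl fun d hd => ?_
    rw [mem_filter, mem_powerset] at hd
    rw [h3 d hd.1]
  have h5 : ∑ d ∈ (PP 0 z).powerset with d.card = m + 1,
        (if ∀ p ∈ d, n % p ∈ (fun _ : ℕ => ({0} : Finset ℕ)) p then (1 : ℝ) else 0) =
      ∑ d ∈ (PP 0 z).powerset with d.card = m + 1, (if (∏ p ∈ d, p) ∣ n then (1 : ℝ) else 0) := by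
    refine sum_congr rfl fun d hd => ?_
    rw [mem_filter, mem_powerset] at hd
    rw [h3 d hd.1]
  rw [← h2, ← h4, ← h5]
  exact h1

private theorem rtr_num (z m : ℕ) :
    (((PP 0 z).powerset.filter (fun d => d.card = m + 1)).card : ℝ) ≤ ((z : ℝ) + 1) ^ (m + 1) := by
  have h1 : ((PP 0 z).powerset.filter (fun d => d.card = m + 1)).card ≤ (z + 1) ^ (m + 1) := by
    rw [← powersetCard_eq_filter, card_powersetCard]
    refine (Nat.choose_le_pow _ _).trans ?_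
    refine Nat.pow_le_pow_left ?_ _
    unfold PP
    refine (card_filter_le _ _).trans ?_
    rw [card_range]
  exact_mod_cast h1

private theorem rtr_main {z m X : ℕ} {c₀ : ℝ} (hm : Even m)
    (hN : (((1 : ℕ) : ℝ) + 2) * (z + 1) ≤ 0 ∨ ((((1 : ℕ) : ℝ) + 2) * (z + 1)) ^ (m + 1) ≤ (X : ℝ) ^ (1 / 1000 : ℝ))
    (T : ℝ) (hT : 1 ≤ T)
    (hE : Real.exp (T * (2 * ((1 : ℕ) : ℝ) * (1 + Real.log z))) / T ^ (m + 1) ≤ (X : ℝ) ^ (-c₀))
    (hk : 0 ≤ (kap z)⁻¹) (A Y q a : ℕ) (hY : Y ≤ 3 * X) (hq : 1 ≤ q) (haq : Nat.Coprime a q)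
    (g : ℕ → ℂ) (hg : ∀ n, ‖g n‖ ≤ 1) :
    ‖∑ n ∈ (Ioc A (A + Y)).filter (fun n => n ≡ a [MOD q]), (rz z n : ℂ) * g n -
      (((kap z)⁻¹ : ℝ) : ℂ) * ∑ d ∈ (PP 0 z).powerset with d.card ≤ m, (-1 : ℂ) ^ d.card *
        ∑ n ∈ (Ioc A (A + Y)).filter (fun n => n ≡ a [MOD q] ∧ (∏ p ∈ d, p) ∣ n), g n‖ ≤
      (kap z)⁻¹ * (3 * X / q * (X : ℝ) ^ (-c₀) + (X : ℝ) ^ (1 / 1000 : ℝ)) := by
  set R := (Ioc A (A + Y)).filter (fun n => n ≡ a [MOD q]) with hR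
  set ind : ℕ → ℝ := fun n => if ∀ p ∈ PP 0 z, ¬ p ∣ n then (1 : ℝ) else 0 with hind
  set tr : ℕ → ℝ := fun n => ∑ d ∈ (PP 0 z).powerset with d.card ≤ m,
        ((-1 : ℝ) ^ d.card * if (∏ p ∈ d, p) ∣ n then 1 else 0) with htr
  have e1 : ∀ n, rz z n = (kap z)⁻¹ * ind n := by
    intro n
    rw [hind]
    unfold rz
    by_cases h : ∀ p ∈ PP 0 z, ¬ p ∣ n
    · simp only [if_pos h, mul_one]
    · simp only [if_neg h, mul_zero]
  have e2 : (((kap z)⁻¹ : ℝ) : ℂ) * ∑ d ∈ (PP 0 z).powerset with d.card ≤ m, (-1 : ℂ) ^ d.card *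
        ∑ n ∈ (Ioc A (A + Y)).filter (fun n => n ≡ a [MOD q] ∧ (∏ p ∈ d, p) ∣ n), g n =
      ∑ n ∈ R, (((kap z)⁻¹ * tr n : ℝ) : ℂ) * g n := by
    have e3 : ∀ d : Finset ℕ, (-1 : ℂ) ^ d.card *
        ∑ n ∈ (Ioc A (A + Y)).filter (fun n => n ≡ a [MOD q] ∧ (∏ p ∈ d, p) ∣ n), g n =
        ∑ n ∈ R, (((-1 : ℝ) ^ d.card * (if (∏ p ∈ d, p) ∣ n then 1 else 0) : ℝ) : ℂ) * g n := by
      intro d
      rw [← filter_filter, ← hR, sum_filter, mul_sum]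
      refine sum_congr rfl fun n _ => ?_
      by_cases h : (∏ p ∈ d, p) ∣ n
      · rw [if_pos h, if_pos h]
        push_cast
        ring
      · rw [if_neg h, if_neg h]
        push_cast
        ring
    simp_rw [e3]
    rw [sum_comm, mul_sum]
    refine sum_congr rfl fun n _ => ?_
    rw [← sum_mul, ← mul_assoc]
    rw [htr]
    push_cast
    rfl
  rw [e2]
  have e4 : ∑ n ∈ R, (rz z n : ℂ) * g n - ∑ n ∈ R, (((kap z)⁻¹ * tr n : ℝ) : ℂ) * g n =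
      ∑ n ∈ R, (((kap z)⁻¹ * (ind n - tr n) : ℝ) : ℂ) * g n := by
    rw [← sum_sub_distrib]
    refine sum_congr rfl fun n _ => ?_
    rw [e1 n]
    push_cast
    ring
  rw [e4]
  refine (norm_sum_le _ _).trans ?_
  have e5 : ∀ n ∈ R, ‖(((kap z)⁻¹ * (ind n - tr n) : ℝ) : ℂ) * g n‖ ≤
      (kap z)⁻¹ * ∑ d ∈ (PP 0 z).powerset with d.card = m + 1,
        (if (∏ p ∈ d, p) ∣ n then (1 : ℝ) else 0) := by
    intro n _
    rw [norm_mul, Complex.norm_real, Real.norm_eq_abs, abs_mul, abs_of_nonneg hk]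
    have h1 := rtr_point z m n hm
    calc (kap z)⁻¹ * |ind n - tr n| * ‖g n‖ ≤ (kap z)⁻¹ * |ind n - tr n| * 1 :=
          mul_le_mul_of_nonneg_left (hg n) (mul_nonneg hk (abs_nonneg _))
      _ = (kap z)⁻¹ * |ind n - tr n| := mul_one _
      _ ≤ _ := mul_le_mul_of_nonneg_left h1 hk
  refine (sum_le_sum e5).trans ?_
  rw [← mul_sum]
  refine mul_le_mul_of_nonneg_left ?_ hk
  rw [sum_comm]
  have hq0 : (0 : ℝ) < q := by exact_mod_cast hq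
  have hX0 : (0 : ℝ) ≤ X := Nat.cast_nonneg X
  have e6 : ∀ d ∈ (PP 0 z).powerset.filter (fun d => d.card = m + 1),
      ∑ n ∈ R, (if (∏ p ∈ d, p) ∣ n then (1 : ℝ) else 0) ≤
        3 * X / q * ∏ p ∈ d, (((1 : ℕ) : ℝ) / p) + 1 := by
    intro d hd
    rw [mem_filter, mem_powerset] at hd
    have hD : 1 ≤ ∏ p ∈ d, p := Nat.one_le_iff_ne_zero.mpr
      (prod_ne_zero_iff.mpr fun p hp => (rtr_prime z p (hd.1 hp)).ne_zero)
    rw [← sum_filter, sum_const, nsmul_eq_mul, mul_one, hR, filter_filter]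
    have h1 := rtr_count2 A Y q a (∏ p ∈ d, p) hq hD haq
    refine h1.trans ?_
    have hD0 : (0 : ℝ) < ((∏ p ∈ d, p : ℕ) : ℝ) := by exact_mod_cast hD
    have h2 : ∏ p ∈ d, (((1 : ℕ) : ℝ) / p) = 1 / ((∏ p ∈ d, p : ℕ) : ℝ) := by
      rw [prod_div_distrib, Nat.cast_prod, Nat.cast_one, prod_const_one]
    rw [h2]
    have h3 : 3 * (X : ℝ) / q * (1 / ((∏ p ∈ d, p : ℕ) : ℝ)) = 3 * X / (q * ((∏ p ∈ d, p : ℕ) : ℝ)) := by
      rw [div_mul_div_comm, mul_one]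
    rw [h3]
    have h4 : (Y : ℝ) ≤ 3 * X := by exact_mod_cast hY
    have h5 : (Y : ℝ) / (q * ((∏ p ∈ d, p : ℕ) : ℝ)) ≤ 3 * X / (q * ((∏ p ∈ d, p : ℕ) : ℝ)) :=
      div_le_div_of_nonneg_right h4 (by positivity)
    linarith
  refine (sum_le_sum e6).trans ?_
  rw [sum_add_distrib, ← mul_sum, sum_const, nsmul_eq_mul, mul_one]
  have hG : ∑ p ∈ PP 0 z, (((1 : ℕ) : ℝ) / p) ≤ 2 * ((1 : ℕ) : ℝ) * (1 + Real.log z) := by
    rw [PP_pz]
    exact (B2_card 1 z (fun _ => 1) (fun _ => le_rfl)).2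
  have h7 := tail_sum (PP 0 z) (fun p => (((1 : ℕ) : ℝ) / p)) (fun p _ => by positivity) _ T hG hT (m + 1)
  have h8 : ∑ d ∈ (PP 0 z).powerset with d.card = m + 1, ∏ p ∈ d, (((1 : ℕ) : ℝ) / p) ≤
      (X : ℝ) ^ (-c₀) := by
    refine le_trans ?_ (h7.trans hE)
    apply sum_le_sum_of_subset_of_nonneg
    · intro d hd
      rw [mem_filter] at hd ⊢
      exact ⟨hd.1, hd.2.ge⟩
    · intro d _ _
      exact prod_nonneg fun p _ => by positivity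
  have h9 : (((PP 0 z).powerset.filter (fun d => d.card = m + 1)).card : ℝ) ≤
      (X : ℝ) ^ (1 / 1000 : ℝ) := by
    refine (rtr_num z m).trans ?_
    rcases hN with hN | hN
    · exfalso
      have : (0 : ℝ) ≤ (z : ℝ) := Nat.cast_nonneg z
      push_cast at hN
      nlinarith
    · refine le_trans (pow_le_pow_left₀ (by positivity) ?_ _) hN
      have : (0 : ℝ) ≤ (z : ℝ) := Nat.cast_nonneg z
      push_cast
      nlinarith
  have h10 : 3 * (X : ℝ) / q * ∑ d ∈ (PP 0 z).powerset with d.card = m + 1, ∏ p ∈ d, (((1 : ℕ) : ℝ) / p) ≤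
      3 * X / q * (X : ℝ) ^ (-c₀) := mul_le_mul_of_nonneg_left h8 (by positivity)
  linarith

theorem rtr (B : ℕ) : ∃ c : ℝ, 0 < c ∧ ∃ X₀ : ℕ, ∀ X z : ℕ, X₀ ≤ X → 2 ≤ z →
    (z : ℝ) ≤ (Real.log X) ^ B → ∃ m : ℕ, Tr 1 (1 / 1000) c X z m ∧
    (∀ d ⊆ PP 0 z, d.card ≤ m → ((∏ p ∈ d, p : ℕ) : ℝ) ≤ (X : ℝ) ^ (1 / 1000 : ℝ)) ∧
    ∀ A Y q a : ℕ, Y ≤ 3 * X → 1 ≤ q → (q : ℝ) ≤ (X : ℝ) ^ (1 / 40 : ℝ) → Nat.Coprime a q →
    ∀ g : ℕ → ℂ, (∀ n, ‖g n‖ ≤ 1) →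
    ‖∑ n ∈ (Ioc A (A + Y)).filter (fun n => n ≡ a [MOD q]), (rz z n : ℂ) * g n -
      (((kap z)⁻¹ : ℝ) : ℂ) * ∑ d ∈ (PP 0 z).powerset with d.card ≤ m, (-1 : ℂ) ^ d.card *
        ∑ n ∈ (Ioc A (A + Y)).filter (fun n => n ≡ a [MOD q] ∧ (∏ p ∈ d, p) ∣ n), g n‖ ≤
      (X : ℝ) ^ (1 - c) / q := by
  obtain ⟨c₀, hc₀, X₁, h1⟩ := layB_param 1 B (1 / 1000) (by norm_num)
  obtain ⟨K, hK, hkap⟩ := num_kap
  have hc : 0 < min (c₀ / 2) (1 / 4 : ℝ) := lt_min (by linarith) (by norm_num)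
  obtain ⟨X₂, h2⟩ := ev_pow (4 * K) (min (c₀ / 2) (1 / 4 : ℝ)) hc B
  set c := min (c₀ / 2) (1 / 4 : ℝ) with hcdef
  have hc1 : c ≤ c₀ / 2 := min_le_left _ _
  have hc2 : c ≤ 1 / 4 := min_le_right _ _
  refine ⟨c, hc, X₁ + X₂ + 3, fun X z hX hz hzB => ?_⟩
  have hX1 : X₁ ≤ X := by omega
  have hX2 : X₂ ≤ X := by omega
  have hX3 : 3 ≤ X := by omega
  have hXr : (1 : ℝ) ≤ X := by
    have : 1 ≤ X := by omega
    exact_mod_cast this
  have hX0 : (0 : ℝ) < X := by linarith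
  obtain ⟨m, hm, hN, T, hT, hE⟩ := h1 X z hX1 hzB
  refine ⟨m, ⟨hm, hN, T, hT, hE.trans ?_⟩, ?_, ?_⟩
  · exact Real.rpow_le_rpow_of_exponent_le hXr (by linarith)
  · intro d hd hcard
    refine le_trans ?_ hN
    have g1 : ∏ p ∈ d, p ≤ z ^ d.card := prod_le_pow_card _ _ _ (fun p hp => rtr_le z p (hd hp))
    have g2 : z ^ d.card ≤ (z + 1) ^ (m + 1) := by
      refine (Nat.pow_le_pow_left (Nat.le_succ z) _).trans ?_
      exact Nat.pow_le_pow_right (Nat.succ_pos z) (by omega)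
    have g3 : ((∏ p ∈ d, p : ℕ) : ℝ) ≤ ((z : ℝ) + 1) ^ (m + 1) := by exact_mod_cast g1.trans g2
    refine g3.trans (pow_le_pow_left₀ (by positivity) ?_ _)
    have : (0 : ℝ) ≤ (z : ℝ) := Nat.cast_nonneg z
    push_cast
    nlinarith
  · intro A Y q a hY hq hqX haq g hg
    have hk := hkap z hz
    have hk0 : 0 ≤ (kap z)⁻¹ := by linarith [hk.1]
    refine (rtr_main hm (Or.inr hN) T hT hE hk0 A Y q a hY hq haq g hg).trans ?_
    have hq0 : (0 : ℝ) < q := by exact_mod_cast hq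
    rw [le_div_iff₀ hq0]
    have hz0 : (0 : ℝ) < z := by
      have : 0 < z := by omega
      exact_mod_cast this
    have f1 : (kap z)⁻¹ ≤ K * (1 + Real.log X) ^ B := by
      refine hk.2.trans (mul_le_mul_of_nonneg_left ?_ (by linarith))
      have g1 : Real.log z ≤ z := by
        have := Real.log_le_sub_one_of_pos hz0
        linarith
      refine g1.trans (hzB.trans ?_)
      have g2 : 0 ≤ Real.log X := Real.log_natCast_nonneg X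
      exact pow_le_pow_left₀ g2 (by linarith) _
    have f2 : 4 * K * (1 + Real.log X) ^ B ≤ (X : ℝ) ^ c := h2 X hX2
    have f3 : 3 * (X : ℝ) / q * (X : ℝ) ^ (-c₀) * q ≤ 3 * (X : ℝ) ^ (1 - 2 * c) := by
      have g1 : 3 * (X : ℝ) / q * (X : ℝ) ^ (-c₀) * q = 3 * (X * (X : ℝ) ^ (-c₀)) := by
        field_simp
      rw [g1]
      have g2 : (X : ℝ) * (X : ℝ) ^ (-c₀) = (X : ℝ) ^ (1 - c₀) := by
        rw [sub_eq_add_neg, Real.rpow_add hX0, Real.rpow_one]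
      rw [g2]
      have g3 : (X : ℝ) ^ (1 - c₀) ≤ (X : ℝ) ^ (1 - 2 * c) :=
        Real.rpow_le_rpow_of_exponent_le hXr (by linarith)
      linarith
    have f4 : (X : ℝ) ^ (1 / 1000 : ℝ) * q ≤ (X : ℝ) ^ (1 - 2 * c) := by
      calc (X : ℝ) ^ (1 / 1000 : ℝ) * q ≤ (X : ℝ) ^ (1 / 1000 : ℝ) * (X : ℝ) ^ (1 / 40 : ℝ) :=
            mul_le_mul_of_nonneg_left hqX (by positivity)
        _ = (X : ℝ) ^ (1 / 1000 + 1 / 40 : ℝ) := (Real.rpow_add hX0 _ _).symm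
        _ ≤ _ := Real.rpow_le_rpow_of_exponent_le hXr (by linarith)
    have f5 : (3 * (X : ℝ) / q * (X : ℝ) ^ (-c₀) + (X : ℝ) ^ (1 / 1000 : ℝ)) * q ≤
        4 * (X : ℝ) ^ (1 - 2 * c) := by
      rw [add_mul]
      linarith
    have hp : (0 : ℝ) ≤ (X : ℝ) ^ (1 - 2 * c) := by positivity
    calc (kap z)⁻¹ * (3 * X / q * (X : ℝ) ^ (-c₀) + (X : ℝ) ^ (1 / 1000 : ℝ)) * q
        = (kap z)⁻¹ * ((3 * X / q * (X : ℝ) ^ (-c₀) + (X : ℝ) ^ (1 / 1000 : ℝ)) * q) := by ring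
      _ ≤ (kap z)⁻¹ * (4 * (X : ℝ) ^ (1 - 2 * c)) := mul_le_mul_of_nonneg_left f5 hk0
      _ ≤ (K * (1 + Real.log X) ^ B) * (4 * (X : ℝ) ^ (1 - 2 * c)) :=
          mul_le_mul_of_nonneg_right f1 (by linarith)
      _ = (4 * K * (1 + Real.log X) ^ B) * (X : ℝ) ^ (1 - 2 * c) := by ring
      _ ≤ (X : ℝ) ^ c * (X : ℝ) ^ (1 - 2 * c) := mul_le_mul_of_nonneg_right f2 hp
      _ = (X : ℝ) ^ (1 - c) := by
          rw [← Real.rpow_add hX0]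
          ring_nf

end Pool.Agent.Lib.SG
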