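import Pool.Agent.Lib.SG.Rtr

/-!
# SG-Rzap: the rough numbers in a class

PROOF. `rtr B` with g = 1: the sum is `(kap z)⁻¹ ∑_{|d| ≤ m} (-1)^|d| N_d + O(X^(1-c)/q)`, `N_d = #{n ∈ (A, A+Y], n ≡ a [MOD q], ∏ d ∣ n}`: 0 if a prime of d
divides q, otherwise `Y/(q ∏ d) + O(1)`; `∑ 1 ≤ X^(1/1000)` (`layB_low` with Ω p = {0}, K = 1). The sum over the d without prime factors of q of
`(-1)^|d|/∏ d` is `∏_{p ≤ z, p ∤ q} (1 - 1/p) + O(X^(-c))` (`layB_V` with Ω p = {0} if p ∤ q and ∅ if p ∣ q, K = 1, and the same m). And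
`(kap z)⁻¹ ∏_{p ≤ z, p ∤ q} (1 - 1/p) = ∏_{p ≤ z, p ∣ q} (1 - 1/p)⁻¹`. `(kap z)⁻¹ ≤ C log z` (`num_kap`). Smaller c, larger X₀.
-/

set_option autoImplicit false

open Finset

namespace Pool.Agent.Lib.SG

open Pool.Agent.Lib.MT

private theorem rzap_class (A Y r v : ℕ) (hr : 0 < r) :
    |((((Ioc A (A + Y)).filter (fun n => n ≡ v [MOD r])).card : ℕ) : ℝ) - (Y : ℝ) / r| ≤ 1 := by
  have h := Nat.Ioc_filter_modEq_card A (A + Y) hr v
  have hr' : (0 : ℚ) < (r : ℚ) := by exact_mod_cast hr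
  have huw : ((A + Y : ℕ) - (v : ℚ)) / (r : ℚ) = ((A : ℚ) - v) / r + (Y : ℚ) / r := by
    push_cast; ring
  have hY : (0 : ℚ) ≤ (Y : ℚ) / r := by positivity
  set w : ℚ := ((A : ℚ) - v) / r with hw
  have h1 : ⌊w⌋ ≤ ⌊((A + Y : ℕ) - (v : ℚ)) / (r : ℚ)⌋ := by
    rw [huw]; exact Int.floor_le_floor (by linarith)
  rw [max_eq_left (by linarith)] at h
  have h2 := Int.floor_le w
  have h3 := Int.lt_floor_add_one w
  have h4 := Int.floor_le (((A + Y : ℕ) - (v : ℚ)) / (r : ℚ))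
  have h5 := Int.lt_floor_add_one (((A + Y : ℕ) - (v : ℚ)) / (r : ℚ))
  have hq : |((((Ioc A (A + Y)).filter (fun n => n ≡ v [MOD r])).card : ℕ) : ℚ) - (Y : ℚ) / r| ≤ 1 := by
    have h6 : ((((Ioc A (A + Y)).filter (fun n => n ≡ v [MOD r])).card : ℕ) : ℚ) =
        ((⌊((A + Y : ℕ) - (v : ℚ)) / (r : ℚ)⌋ : ℤ) : ℚ) - ((⌊w⌋ : ℤ) : ℚ) := by
      rw [← Int.cast_sub, ← h]; norm_cast
    rw [h6, abs_le]
    rw [huw] at h4 h5 ⊢
    constructor <;> linarith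
  have h7 : ((|((((Ioc A (A + Y)).filter (fun n => n ≡ v [MOD r])).card : ℕ) : ℚ) - (Y : ℚ) / r| : ℚ) : ℝ) ≤
      ((1 : ℚ) : ℝ) := by exact_mod_cast hq
  push_cast at h7
  exact h7

private theorem rzap_none (A Y q a : ℕ) (ha : Nat.Coprime a q) (d : Finset ℕ) {p : ℕ} (hp : p.Prime)
    (hpd : p ∈ d) (hpq : p ∣ q) :
    (Ioc A (A + Y)).filter (fun n => n ≡ a [MOD q] ∧ (∏ p ∈ d, p) ∣ n) = ∅ := by
  rw [Finset.filter_eq_empty_iff]
  rintro n _ ⟨h1, h2⟩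
  have h3 : p ∣ n := (Finset.dvd_prod_of_mem (fun p => p) hpd).trans h2
  have h4 : p ∣ a := ((h1.of_dvd hpq).dvd_iff dvd_rfl).1 h3
  exact hp.one_lt.ne' (Nat.dvd_one.1 (ha ▸ Nat.dvd_gcd h4 hpq))

private theorem rzap_some (A Y q a : ℕ) (hq : 1 ≤ q) (d : Finset ℕ) (hd : ∀ p ∈ d, p.Prime ∧ ¬ p ∣ q) :
    |((((Ioc A (A + Y)).filter (fun n => n ≡ a [MOD q] ∧ (∏ p ∈ d, p) ∣ n)).card : ℕ) : ℝ) -
      (Y : ℝ) / q * ∏ p ∈ d, (1 : ℝ) / p| ≤ 1 := by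
  have hco : Nat.Coprime q (∏ p ∈ d, p) :=
    Nat.Coprime.prod_right fun p hp => ((Nat.Prime.coprime_iff_not_dvd (hd p hp).1).2 (hd p hp).2).symm
  have hD : 0 < ∏ p ∈ d, p := Finset.prod_pos fun p hp => (hd p hp).1.pos
  obtain ⟨r, hr1, hr2⟩ := Nat.chineseRemainder hco a 0
  have h1 : (Ioc A (A + Y)).filter (fun n => n ≡ a [MOD q] ∧ (∏ p ∈ d, p) ∣ n) =
      (Ioc A (A + Y)).filter (fun n => n ≡ r [MOD q * ∏ p ∈ d, p]) := by
    apply Finset.filter_congr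
    intro n _
    rw [← Nat.modEq_and_modEq_iff_modEq_mul hco]
    constructor
    · rintro ⟨h1, h2⟩
      exact ⟨h1.trans hr1.symm, ((Nat.modEq_zero_iff_dvd.2 h2)).trans hr2.symm⟩
    · rintro ⟨h1, h2⟩
      exact ⟨h1.trans hr1, Nat.modEq_zero_iff_dvd.1 (h2.trans hr2)⟩
  rw [h1]
  have h2 := rzap_class A Y (q * ∏ p ∈ d, p) r (Nat.mul_pos hq hD)
  have h3 : (Y : ℝ) / ((q * ∏ p ∈ d, p : ℕ) : ℝ) = (Y : ℝ) / q * ∏ p ∈ d, (1 : ℝ) / p := by
    rw [Finset.prod_div_distrib, Finset.prod_const_one]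
    push_cast
    rw [div_mul_div_comm, mul_one]
  rw [h3] at h2
  exact h2

private theorem rzap_num (c1 C : ℝ) (B : ℕ) (hc : 0 < c1) (hC : 1 ≤ C) : ∃ X₀ : ℕ, ∀ X : ℕ, X₀ ≤ X →
    3 ≤ X ∧ 1 + 3 * C * (B * Real.log X) ≤ (X : ℝ) ^ (min c1 (1 / 2) / 2) / 2 ∧
    2 * C * (B * Real.log X) ≤ (X : ℝ) ^ ((1 : ℝ) / 2) / 2 := by
  have key : ∀ (u v e : ℝ), 0 < e → ∀ᶠ x : ℝ in Filter.atTop, u + v * Real.log x ≤ x ^ e / 2 := by
    intro u v e he
    have h1 : (fun x : ℝ => u + v * Real.log x) =o[Filter.atTop] fun x : ℝ => x ^ e := by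
      refine Asymptotics.IsLittleO.add ?_ ?_
      · exact Asymptotics.isLittleO_const_left.2 (Or.inr (by
          simpa using (tendsto_rpow_atTop he).congr' (by
            filter_upwards [Filter.eventually_ge_atTop (0 : ℝ)] with x hx
            rw [Function.comp_apply, Real.norm_of_nonneg (Real.rpow_nonneg hx _)])))
      · exact (isLittleO_log_rpow_atTop he).const_mul_left v
    have h2 := h1.def (show (0 : ℝ) < 1 / 2 by norm_num)
    filter_upwards [h2, Filter.eventually_ge_atTop (0 : ℝ)] with x hx hx0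
    rw [Real.norm_of_nonneg (Real.rpow_nonneg hx0 _)] at hx
    have := (le_abs_self _).trans hx
    linarith
  have h1 := key 1 (3 * C * B) (min c1 (1 / 2) / 2) (by
    have : 0 < min c1 (1 / 2) := lt_min hc (by norm_num)
    linarith)
  have h2 := key 0 (2 * C * B) (1 / 2) (by norm_num)
  have h3 := ((h1.and h2).and (Filter.eventually_ge_atTop (3 : ℝ)))
  obtain ⟨x0, hx0⟩ := Filter.eventually_atTop.1 h3
  refine ⟨⌈x0⌉₊, fun X hX => ?_⟩
  obtain ⟨⟨h4, h5⟩, h6⟩ := hx0 X ((Nat.le_ceil x0).trans (by exact_mod_cast hX))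
  refine ⟨by exact_mod_cast h6, ?_, ?_⟩
  · refine le_trans (le_of_eq ?_) h4; ring
  · refine le_trans (le_of_eq ?_) h5; ring

theorem rzap (B : ℕ) : ∃ c : ℝ, 0 < c ∧ ∃ X₀ : ℕ, ∀ X z : ℕ, X₀ ≤ X → 2 ≤ z →
    (z : ℝ) ≤ (Real.log X) ^ B →
    ∀ A Y q a : ℕ, Y ≤ 3 * X → 1 ≤ q → (q : ℝ) ≤ (X : ℝ) ^ (1 / 40 : ℝ) → Nat.Coprime a q →
    |∑ n ∈ (Ioc A (A + Y)).filter (fun n => n ≡ a [MOD q]), rz z n -
      Y / q * ∏ p ∈ (PP 0 z).filter (fun p => p ∣ q), (1 - 1 / (p : ℝ))⁻¹| ≤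
      (X : ℝ) ^ (1 - c) / q := by
  classical
  obtain ⟨c1, hc1, X1, H⟩ := rtr B
  obtain ⟨C, hC, hkap⟩ := num_kap
  obtain ⟨X2, H2⟩ := rzap_num c1 C B hc1 hC
  have hm0 : 0 < min c1 (1 / 2) := lt_min hc1 (by norm_num)
  refine ⟨min c1 (1 / 2) / 2, by linarith, max X1 X2, fun X z hX hz hzB A Y q a hY hq hqX ha => ?_⟩
  obtain ⟨m, hT, _, hmain⟩ := H X z (le_trans (le_max_left _ _) hX) hz hzB
  obtain ⟨hX3, hn1, hn2⟩ := H2 X (le_trans (le_max_right _ _) hX)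
  have h0 := hmain A Y q a hY hq hqX ha (fun _ => 1) (fun _ => by simp)
  set c := min c1 (1 / 2) / 2 with hc
  have hXr : (3 : ℝ) ≤ (X : ℝ) := by exact_mod_cast hX3
  have hX1 : 1 ≤ X := by omega
  have hX0 : (0 : ℝ) < X := by linarith
  have hq0 : (0 : ℝ) < q := by exact_mod_cast hq
  have hprime : ∀ p ∈ PP 0 z, p.Prime := fun p hp => by
    unfold PP at hp; exact (Finset.mem_filter.1 hp).2.1
  -- the real form
  set K := (kap z)⁻¹ with hK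
  have hK1 : 1 ≤ K := (hkap z hz).1
  have hK2 : K ≤ C * Real.log z := (hkap z hz).2
  let N : Finset ℕ → ℝ := fun d =>
    ((((Ioc A (A + Y)).filter (fun n => n ≡ a [MOD q] ∧ (∏ p ∈ d, p) ∣ n)).card : ℕ) : ℝ)
  have h1 : |∑ n ∈ (Ioc A (A + Y)).filter (fun n => n ≡ a [MOD q]), rz z n -
      K * ∑ d ∈ (PP 0 z).powerset with d.card ≤ m, (-1 : ℝ) ^ d.card * N d| ≤ (X : ℝ) ^ (1 - c1) / q := by
    refine le_trans (le_of_eq ?_) h0
    have e : (((∑ n ∈ (Ioc A (A + Y)).filter (fun n => n ≡ a [MOD q]), rz z n -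
      K * ∑ d ∈ (PP 0 z).powerset with d.card ≤ m, (-1 : ℝ) ^ d.card * N d : ℝ)) : ℂ) =
      ∑ n ∈ (Ioc A (A + Y)).filter (fun n => n ≡ a [MOD q]), (rz z n : ℂ) * 1 -
      ((K : ℝ) : ℂ) * ∑ d ∈ (PP 0 z).powerset with d.card ≤ m, (-1 : ℂ) ^ d.card *
        ∑ n ∈ (Ioc A (A + Y)).filter (fun n => n ≡ a [MOD q] ∧ (∏ p ∈ d, p) ∣ n), (1 : ℂ) := by
      rw [Complex.ofReal_sub, Complex.ofReal_mul, Complex.ofReal_sum, Complex.ofReal_sum]
      congr 1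
      · exact Finset.sum_congr rfl fun n _ => (mul_one _).symm
      · congr 1
        refine Finset.sum_congr rfl fun d _ => ?_
        rw [Finset.sum_const, nsmul_eq_mul, mul_one]
        push_cast
        rfl
    rw [← e, Complex.norm_real, Real.norm_eq_abs]
  let Om1 : ℕ → Finset ℕ := fun p => if p ∣ q then ∅ else {0}
  have hOm : ∀ p, (Om1 p).card ≤ 1 := by
    intro p
    by_cases h : p ∣ q <;> simp [Om1, h]
  have hV := (layB_V hT Om1 hOm).1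
  have hlow := layB_low hX1 hT (fun _ => {0}) (fun _ => by simp)
  have hterm : ∀ d ∈ (PP 0 z).powerset.filter (fun d => d.card ≤ m),
      |N d - (Y : ℝ) / q * ∏ p ∈ d, ((Om1 p).card : ℝ) / p| ≤ 1 := by
    intro d hd
    have hdP : d ⊆ PP 0 z := Finset.mem_powerset.1 (Finset.mem_filter.1 hd).1
    by_cases hex : ∃ p ∈ d, p ∣ q
    · obtain ⟨p, hp, hpq⟩ := hex
      have e1 : N d = 0 := by
        change ((((Ioc A (A + Y)).filter (fun n => n ≡ a [MOD q] ∧ (∏ p ∈ d, p) ∣ n)).card : ℕ) : ℝ) = 0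
        rw [rzap_none A Y q a ha d (hprime p (hdP hp)) hp hpq]; simp
      have e2 : ∏ p ∈ d, ((Om1 p).card : ℝ) / p = 0 :=
        Finset.prod_eq_zero hp (by simp [Om1, hpq])
      rw [e1, e2]; simp
    · push Not at hex
      have e2 : ∏ p ∈ d, ((Om1 p).card : ℝ) / p = ∏ p ∈ d, (1 : ℝ) / p :=
        Finset.prod_congr rfl fun p hp => by simp [Om1, hex p hp]
      rw [e2]
      exact rzap_some A Y q a hq d fun p hp => ⟨hprime p (hdP hp), hex p hp⟩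
  have hcard : (((PP 0 z).powerset.filter (fun d => d.card ≤ m)).card : ℝ) ≤ (X : ℝ) ^ ((1 : ℝ) / 1000) := by
    refine le_trans (le_of_eq ?_) hlow
    simp
  have hsum : |∑ d ∈ (PP 0 z).powerset with d.card ≤ m, (-1 : ℝ) ^ d.card * N d -
      (Y : ℝ) / q * ∑ d ∈ (PP 0 z).powerset with d.card ≤ m,
        ((-1 : ℝ) ^ d.card * ∏ p ∈ d, ((Om1 p).card : ℝ) / p)| ≤ (X : ℝ) ^ ((1 : ℝ) / 1000) := by
    rw [Finset.mul_sum, ← Finset.sum_sub_distrib]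
    refine (Finset.abs_sum_le_sum_abs _ _).trans ?_
    refine le_trans (Finset.sum_le_sum (g := fun _ => (1 : ℝ)) fun d hd => ?_) ?_
    · have e : (-1 : ℝ) ^ d.card * N d - (Y : ℝ) / q * ((-1 : ℝ) ^ d.card * ∏ p ∈ d, ((Om1 p).card : ℝ) / p) =
          (-1 : ℝ) ^ d.card * (N d - (Y : ℝ) / q * ∏ p ∈ d, ((Om1 p).card : ℝ) / p) := by ring
      rw [e, abs_mul, abs_pow, abs_neg, abs_one, one_pow, one_mul]
      exact hterm d hd
    · rw [Finset.sum_const, nsmul_eq_mul, mul_one]; exact hcard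
  -- the product
  have hprod : K * V1 Om1 z = ∏ p ∈ (PP 0 z).filter (fun p => p ∣ q), (1 - 1 / (p : ℝ))⁻¹ := by
    have hne : ∀ p ∈ PP 0 z, (1 - 1 / (p : ℝ)) ≠ 0 := by
      intro p hp
      have : (2 : ℝ) ≤ p := by exact_mod_cast (hprime p hp).two_le
      have h2 : 1 / (p : ℝ) ≤ 1 / 2 := by
        apply one_div_le_one_div_of_le <;> linarith
      intro h; linarith
    have e1 : kap z = (∏ p ∈ (PP 0 z).filter (fun p => p ∣ q), (1 - 1 / (p : ℝ))) *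
        ∏ p ∈ (PP 0 z).filter (fun p => ¬ p ∣ q), (1 - 1 / (p : ℝ)) := by
      unfold kap
      rw [Finset.prod_filter_mul_prod_filter_not]
    have e2 : V1 Om1 z = ∏ p ∈ (PP 0 z).filter (fun p => ¬ p ∣ q), (1 - 1 / (p : ℝ)) := by
      unfold V1
      rw [← Finset.prod_filter_mul_prod_filter_not (PP 0 z) (fun p => p ∣ q)]
      rw [Finset.prod_eq_one (s := (PP 0 z).filter (fun p => p ∣ q)), one_mul]
      · refine Finset.prod_congr rfl fun p hp => ?_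
        simp [Om1, (Finset.mem_filter.1 hp).2]
      · intro p hp
        simp [Om1, (Finset.mem_filter.1 hp).2]
    have hne2 : ∏ p ∈ (PP 0 z).filter (fun p => ¬ p ∣ q), (1 - 1 / (p : ℝ)) ≠ 0 :=
      Finset.prod_ne_zero_iff.2 fun p hp => hne p (Finset.mem_filter.1 hp).1
    rw [hK, e1, e2, mul_inv, mul_assoc, inv_mul_cancel₀ hne2, mul_one, ← Finset.prod_inv_distrib]
  -- numbers
  have hlogz : Real.log z ≤ B * Real.log X := by
    have hz0 : (0 : ℝ) < z := by exact_mod_cast (by omega : 0 < z)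
    have hlX : 0 < Real.log X := Real.log_pos (by linarith)
    calc Real.log z ≤ Real.log ((Real.log X) ^ B) := Real.log_le_log hz0 hzB
      _ = B * Real.log (Real.log X) := by rw [Real.log_pow]
      _ ≤ B * Real.log X := by
          apply mul_le_mul_of_nonneg_left _ (Nat.cast_nonneg B)
          exact (Real.log_le_sub_one_of_pos hlX).trans (by linarith [Real.log_le_sub_one_of_pos hX0, (Real.log_le_log hlX (Real.log_le_sub_one_of_pos hX0 |>.trans (by linarith) : Real.log X ≤ X))])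
  have hKB : K ≤ C * (B * Real.log X) := hK2.trans (mul_le_mul_of_nonneg_left hlogz (by linarith))
  have hYX : (Y : ℝ) ≤ 3 * X := by exact_mod_cast hY
  have hfin : |∑ n ∈ (Ioc A (A + Y)).filter (fun n => n ≡ a [MOD q]), rz z n -
      Y / q * ∏ p ∈ (PP 0 z).filter (fun p => p ∣ q), (1 - 1 / (p : ℝ))⁻¹| ≤
      (X : ℝ) ^ (1 - c1) / q + (K * (X : ℝ) ^ ((1 : ℝ) / 1000) + K * ((Y : ℝ) / q * (X : ℝ) ^ (-c1))) := by
    rw [← hprod]
    set S0 := ∑ n ∈ (Ioc A (A + Y)).filter (fun n => n ≡ a [MOD q]), rz z n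
    set S1 := ∑ d ∈ (PP 0 z).powerset with d.card ≤ m, (-1 : ℝ) ^ d.card * N d
    set S2 := ∑ d ∈ (PP 0 z).powerset with d.card ≤ m,
        ((-1 : ℝ) ^ d.card * ∏ p ∈ d, ((Om1 p).card : ℝ) / p)
    have e : S0 - Y / q * (K * V1 Om1 z) = (S0 - K * S1) + (K * (S1 - (Y : ℝ) / q * S2) +
        K * ((Y : ℝ) / q * (S2 - V1 Om1 z))) := by ring
    rw [e]
    refine (abs_add_le _ _).trans (add_le_add h1 ((abs_add_le _ _).trans (add_le_add ?_ ?_)))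
    · rw [abs_mul, abs_of_nonneg (by linarith : (0 : ℝ) ≤ K)]
      exact mul_le_mul_of_nonneg_left hsum (by linarith)
    · rw [abs_mul, abs_of_nonneg (by linarith : (0 : ℝ) ≤ K), abs_mul,
        abs_of_nonneg (by positivity : (0 : ℝ) ≤ (Y : ℝ) / q)]
      exact mul_le_mul_of_nonneg_left (mul_le_mul_of_nonneg_left hV (by positivity)) (by linarith)
  refine hfin.trans ?_
  have hXc : (X : ℝ) * (X : ℝ) ^ (-c1) = (X : ℝ) ^ (1 - c1) := by
    rw [sub_eq_add_neg, Real.rpow_add hX0, Real.rpow_one]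
  have e1 : (K * ((Y : ℝ) / q * (X : ℝ) ^ (-c1))) ≤ K * (3 * (X : ℝ) ^ (1 - c1) / q) := by
    apply mul_le_mul_of_nonneg_left _ (by linarith)
    rw [← hXc]
    have : 0 ≤ (X : ℝ) ^ (-c1) := Real.rpow_nonneg hX0.le _
    calc (Y : ℝ) / q * (X : ℝ) ^ (-c1) ≤ (3 * X) / q * (X : ℝ) ^ (-c1) := by gcongr
      _ = 3 * (X * (X : ℝ) ^ (-c1)) / q := by ring
  have hcle : c1 - c ≥ c := by
    have : min c1 (1 / 2) ≤ c1 := min_le_left _ _
    rw [hc]; linarith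
  have hc4 : c ≤ 1 / 4 := by
    have : min c1 (1 / 2) ≤ 1 / 2 := min_le_right _ _
    rw [hc]; linarith
  have hX1r : (1 : ℝ) ≤ X := by linarith
  have e2 : (1 + 3 * K) * (X : ℝ) ^ (1 - c1) ≤ (X : ℝ) ^ (1 - c) / 2 := by
    have e3 : 1 + 3 * K ≤ (X : ℝ) ^ c / 2 := by
      refine le_trans ?_ hn1
      nlinarith
    calc (1 + 3 * K) * (X : ℝ) ^ (1 - c1) ≤ ((X : ℝ) ^ c / 2) * (X : ℝ) ^ (1 - c1) :=
          mul_le_mul_of_nonneg_right e3 (Real.rpow_nonneg hX0.le _)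
      _ = (X : ℝ) ^ (c + (1 - c1)) / 2 := by rw [Real.rpow_add hX0]; ring
      _ ≤ (X : ℝ) ^ (1 - c) / 2 := by
          have := Real.rpow_le_rpow_of_exponent_le hX1r (show c + (1 - c1) ≤ 1 - c by linarith)
          linarith
  have e4 : K * (X : ℝ) ^ ((1 : ℝ) / 1000) * q ≤ (X : ℝ) ^ (1 - c) / 2 := by
    have e5 : K ≤ (X : ℝ) ^ ((1 : ℝ) / 2) / 2 := by
      refine hKB.trans (le_trans ?_ hn2)
      have : 0 ≤ C * (B * Real.log X) := by linarith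
      linarith
    calc K * (X : ℝ) ^ ((1 : ℝ) / 1000) * q ≤
        ((X : ℝ) ^ ((1 : ℝ) / 2) / 2) * (X : ℝ) ^ ((1 : ℝ) / 1000) * (X : ℝ) ^ ((1 : ℝ) / 40) := by gcongr
      _ = (X : ℝ) ^ ((1 : ℝ) / 2 + 1 / 1000 + 1 / 40) / 2 := by
          rw [Real.rpow_add hX0, Real.rpow_add hX0]; ring
      _ ≤ (X : ℝ) ^ (1 - c) / 2 := by
          have := Real.rpow_le_rpow_of_exponent_le hX1r
            (show (1 : ℝ) / 2 + 1 / 1000 + 1 / 40 ≤ 1 - c by norm_num at hc4 ⊢; linarith)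
          linarith
  have e6 : (X : ℝ) ^ (1 - c1) / q + (K * (X : ℝ) ^ ((1 : ℝ) / 1000) + K * (3 * (X : ℝ) ^ (1 - c1) / q)) =
      ((1 + 3 * K) * (X : ℝ) ^ (1 - c1) + K * (X : ℝ) ^ ((1 : ℝ) / 1000) * q) / q := by
    field_simp
    ring
  calc (X : ℝ) ^ (1 - c1) / q + (K * (X : ℝ) ^ ((1 : ℝ) / 1000) + K * ((Y : ℝ) / q * (X : ℝ) ^ (-c1)))
      ≤ (X : ℝ) ^ (1 - c1) / q + (K * (X : ℝ) ^ ((1 : ℝ) / 1000) + K * (3 * (X : ℝ) ^ (1 - c1) / q)) := by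
        linarith
    _ = ((1 + 3 * K) * (X : ℝ) ^ (1 - c1) + K * (X : ℝ) ^ ((1 : ℝ) / 1000) * q) / q := e6
    _ ≤ (X : ℝ) ^ (1 - c) / q := by
        apply div_le_div_of_nonneg_right _ hq0.le
        linarith

end Pool.Agent.Lib.SG
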