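import Pool.Agent.Lib.SG.Defs
import Pool.Agent.Lib.MT.LayA

/-!
# SG-Sg: the pairs of colourings which use a given prime

PROOF of `sg_le`: bound `|L σ L τ| ≤ M²`; the sum over σ, τ of `∏_r Kmat (q1 r) (σ r) (τ r)` with the restriction at `p` factors
(`Finset.prod_univ_sum` / `Fintype.piFinset`, see the private `layA_prod_sum` in MT/LayA): at r ≠ p the factor is
`∑_{s,t} Kmat = 1 + 3k/r` (`layA_K_sum`: ∑_t ∑_s Kmat (q r) s t = 1 + 3 ∑ q r i), at p it is `3k/p`. So the sum is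
`(3k/p) ∏_{r ≠ p} (1 + 3k/r) ≤ (3k/p) ∏_r (1 + 3k/r)`. (k = card ι.) To use the factorisation write the restriction as a factor
`if r = p ∧ σ r = none ∧ τ r = none then 0 else 1` at every r.
-/

set_option autoImplicit false

open Finset

namespace Pool.Agent.Lib.SG

open Pool.Agent.Lib.MT

variable {P : Finset ℕ} {ι : Type} [Fintype ι] [DecidableEq ι]

/-- the sum over the pairs of colourings which use the prime `p` -/
noncomputable def Sg (L : Col P ι → ℝ) (p : {p : ℕ // p ∈ P}) : ℝ :=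
  ∑ σ : Col P ι, ∑ τ : Col P ι, if σ p = none ∧ τ p = none then 0 else
    (∏ r : {p : ℕ // p ∈ P}, Kmat (q1 r) (σ r) (τ r)) * |L σ * L τ|

omit [DecidableEq ι] in
private theorem sg_prod_sum (f : {p : ℕ // p ∈ P} → Option ι → ℝ) :
    ∑ σ : Col P ι, ∏ p : {p : ℕ // p ∈ P}, f p (σ p) =
      ∏ p : {p : ℕ // p ∈ P}, ∑ s : Option ι, f p s := by
  rw [Finset.prod_univ_sum, Fintype.piFinset_univ]

omit [Fintype ι] in
private theorem sg_K_nonneg (q : ι → ℝ) (hq : ∀ i, 0 ≤ q i) (a b : Option ι) :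
    0 ≤ Kmat q a b := by
  cases a with
  | none =>
    cases b with
    | none => exact zero_le_one
    | some j => exact hq j
  | some i =>
    cases b with
    | none => exact hq i
    | some j =>
      show (0 : ℝ) ≤ if i = j then q i else 0
      split_ifs
      · exact hq i
      · exact le_rfl

private theorem sg_K_sum (q : ι → ℝ) :
    ∑ s : Option ι, ∑ t : Option ι, Kmat q s t = 1 + 3 * ∑ i, q i := by
  rw [Fintype.sum_option, Fintype.sum_option]
  have h1 : ∀ i : ι, ∑ t : Option ι, Kmat q (some i) t = 2 * q i := by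
    intro i
    rw [Fintype.sum_option]
    simp only [Kmat]
    rw [Finset.sum_ite_eq univ i (fun _ => q i), if_pos (mem_univ i)]
    ring
  simp only [h1]
  rw [← mul_sum]
  simp only [Kmat]
  ring

/-- the restricted kernel -/
private noncomputable def sgF (p r : {p : ℕ // p ∈ P}) (s t : Option ι) : ℝ :=
  if r = p ∧ s = none ∧ t = none then 0 else Kmat (q1 r) s t

private theorem sgF_nonneg (p r : {p : ℕ // p ∈ P}) (s t : Option ι) : 0 ≤ sgF p r s t := by
  unfold sgF
  split_ifs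
  · exact le_rfl
  · apply sg_K_nonneg
    intro i
    unfold q1
    positivity

private theorem sgF_sum_ne (p r : {p : ℕ // p ∈ P}) (h : r ≠ p) :
    ∑ s : Option ι, ∑ t : Option ι, sgF p r s t = 1 + 3 * Fintype.card ι / ((r : ℕ) : ℝ) := by
  have h1 : ∀ s t : Option ι, sgF p r s t = Kmat (q1 r) s t := by
    intro s t
    unfold sgF
    rw [if_neg (fun h' => h h'.1)]
  simp only [h1]
  rw [sg_K_sum]
  unfold q1
  rw [Finset.sum_const, nsmul_eq_mul, Finset.card_univ]
  ring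

private theorem sgF_sum_eq (p : {p : ℕ // p ∈ P}) :
    ∑ s : Option ι, ∑ t : Option ι, sgF p p s t = 3 * Fintype.card ι / ((p : ℕ) : ℝ) := by
  have h1 : ∀ s t : Option ι, sgF p p s t = Kmat (q1 p) s t -
      (if s = none then (if t = none then 1 else 0) else 0) := by
    intro s t
    unfold sgF
    cases s with
    | none =>
      cases t with
      | none => simp [Kmat]
      | some j => simp
    | some i => simp
  simp only [h1, Finset.sum_sub_distrib]
  rw [sg_K_sum]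
  have h2 : ∑ s : Option ι, ∑ t : Option ι,
      (if s = none then (if t = none then (1 : ℝ) else 0) else 0) = 1 := by
    rw [Fintype.sum_option, Fintype.sum_option]
    simp
  rw [h2]
  unfold q1
  rw [Finset.sum_const, nsmul_eq_mul, Finset.card_univ]
  ring

theorem sg_le (hP : ∀ p ∈ P, 1 ≤ p) (L : Col P ι → ℝ) (M : ℝ) (hL : ∀ σ, |L σ| ≤ M)
    (p : {p : ℕ // p ∈ P}) :
    Sg L p ≤ M ^ 2 * (3 * Fintype.card ι / ((p : ℕ) : ℝ)) *
      ∏ r : {p : ℕ // p ∈ P}, (1 + 3 * Fintype.card ι / ((r : ℕ) : ℝ)) := by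
  have hM0 : 0 ≤ M := (abs_nonneg _).trans (hL fun _ => none)
  have h1 : Sg L p ≤ M ^ 2 * ∑ σ : Col P ι, ∑ τ : Col P ι,
      ∏ r : {p : ℕ // p ∈ P}, sgF p r (σ r) (τ r) := by
    unfold Sg
    rw [Finset.mul_sum]
    refine Finset.sum_le_sum fun σ _ => ?_
    rw [Finset.mul_sum]
    refine Finset.sum_le_sum fun τ _ => ?_
    have hF : 0 ≤ ∏ r : {p : ℕ // p ∈ P}, sgF p r (σ r) (τ r) :=
      Finset.prod_nonneg fun r _ => sgF_nonneg p r _ _
    split_ifs with hc
    · exact mul_nonneg (sq_nonneg _) hF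
    · have h2 : ∏ r : {p : ℕ // p ∈ P}, Kmat (q1 r) (σ r) (τ r) =
          ∏ r : {p : ℕ // p ∈ P}, sgF p r (σ r) (τ r) := by
        apply Finset.prod_congr rfl
        intro r _
        unfold sgF
        rw [if_neg]
        rintro ⟨h3, h4, h5⟩
        rw [h3] at h4 h5
        exact hc ⟨h4, h5⟩
      rw [h2, mul_comm]
      apply mul_le_mul_of_nonneg_right _ hF
      rw [abs_mul, sq]
      exact mul_le_mul (hL σ) (hL τ) (abs_nonneg _) hM0
  have h2 : ∑ σ : Col P ι, ∑ τ : Col P ι, ∏ r : {p : ℕ // p ∈ P}, sgF p r (σ r) (τ r) =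
      ∏ r : {p : ℕ // p ∈ P}, ∑ s : Option ι, ∑ t : Option ι, sgF p r s t := by
    have h3 : ∀ σ : Col P ι, ∑ τ : Col P ι, ∏ r : {p : ℕ // p ∈ P}, sgF p r (σ r) (τ r) =
        ∏ r : {p : ℕ // p ∈ P}, ∑ t : Option ι, sgF p r (σ r) t := fun σ =>
      sg_prod_sum (fun r t => sgF p r (σ r) t)
    simp only [h3]
    exact sg_prod_sum (fun r s => ∑ t : Option ι, sgF p r s t)
  rw [h2, ← Finset.mul_prod_erase Finset.univ _ (Finset.mem_univ p), sgF_sum_eq] at h1
  refine h1.trans ?_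
  rw [mul_assoc]
  apply mul_le_mul_of_nonneg_left _ (sq_nonneg _)
  apply mul_le_mul_of_nonneg_left _ (by positivity)
  have h4 : ∏ r ∈ Finset.univ.erase p, ∑ s : Option ι, ∑ t : Option ι, sgF p r s t =
      ∏ r ∈ Finset.univ.erase p, (1 + 3 * (Fintype.card ι : ℝ) / ((r : ℕ) : ℝ)) := by
    apply Finset.prod_congr rfl
    intro r hr
    exact sgF_sum_ne p r (Finset.ne_of_mem_erase hr)
  rw [h4, ← Finset.mul_prod_erase Finset.univ
    (fun r : {p : ℕ // p ∈ P} => (1 + 3 * (Fintype.card ι : ℝ) / ((r : ℕ) : ℝ))) (Finset.mem_univ p)]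
  have h5 : 0 ≤ ∏ r ∈ Finset.univ.erase p, (1 + 3 * (Fintype.card ι : ℝ) / ((r : ℕ) : ℝ)) :=
    Finset.prod_nonneg fun r _ => by positivity
  have h6 : 0 ≤ 3 * (Fintype.card ι : ℝ) / ((p : ℕ) : ℝ) := by positivity
  nlinarith [mul_nonneg h6 h5]

end Pool.Agent.Lib.SG
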