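import Pool.Agent.Lib.SG.Dfd
import Pool.Agent.Lib.SG.Num
import Pool.Agent.Lib.MT.LayB

/-!
# SG-Sqstep: the presieve up to `y₁` against the presieve up to `y₂ ≤ y₁²`

PROOF. Write V p = V1 Ω (p - 1) for a prime p. For real x: `mu Ω p X x - mu Ω (p-1) X x = mu Ω (p-1) X x (|Ω p|/p - 1[x % p ∈ Ω p]) /
(1 - |Ω p|/p)`, and mu Ω n = mu Ω (n-1) if n is not prime; so
`ES (mu y₂) - ES (mu y₁) = ∑_{y₁ < p ≤ y₂} (1 - |Ω p|/p)⁻¹ (V p)⁻¹ G_p`, `G_p = ∑_{x ∈ Pre Ω (p-1) X} (|Ω p|/p - 1[x % p ∈ Ω p]) e(α x)`.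
`layB_param k B (1/1000)` for z = y₂ gives m with `Tr k (1/1000) c X y₂ m`; all conditions of `Tr` are monotone in z, so also
`Tr .. X (p-1) m`. `layB_trunc` (real and imaginary part, |.| ≤ 1): `G_p = ∑_{d ⊆ PP 0 (p-1), |d| ≤ m} (-1)^|d| G_{p,d} + O(4 X^(1-c))`,
`G_{p,d} = ∑_{x ∈ S_d} (|Ω p|/p - 1[x % p ∈ Ω p]) e(α x) = - ∑_{c ∈ Ω p} dfd Ω d X α p c` (`x % p = c ↔ x ≡ c [MOD p]` as c < p).
`dfd_bound` with Q := y₂ gives for every d one exceptional `p*(d)`: `‖G_{p,d}‖ ≤ k ω_d y₂² + [p = p*(d)] k ω_d (2X/(Δ_d p) + 2)`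
(p* ∣ p, both prime, means p = p*; the primes of d are < p). Exchange the sums: for each d ⊆ PP 0 y₂ with |d| ≤ m at most one p is
exceptional, and p > y₁: in total
`‖..‖ ≤ 2 (V1 Ω y₂)⁻¹ [y₂ k (y₂² + 2) ∑_d ω_d + (2 k X/y₁) ∑_d ω_d/Δ_d + 4 y₂ X^(1-c)]` (`(1 - |Ω p|/p)⁻¹ ≤ 2`, `(V p)⁻¹ ≤ (V1 Ω y₂)⁻¹`).
`(V1 Ω y₂)⁻¹ ≤ (C log y₂)^(2k)` (`num_V1`), `∑_d ω_d ≤ X^(1/1000)` (`layB_low`), `∑ ω_d/Δ_d ≤ (C log y₂)^k` (`num_sum`), `log y₂ ≤ 2 log y₁`,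
y₂ ≤ (log X)^B. So the middle term is `≤ C' X (log y₁)^(3k) / y₁` and the other terms are at most that for X ≥ X₀ (`y₁ ≥ 2`,
`(log y₁)^D ≥ (log 2)^D`). D = 3k.
-/

set_option autoImplicit false

open Finset

namespace Pool.Agent.Lib.SG

open Pool.Agent.Lib.MT


private theorem sqs_mem (z p : ℕ) : p ∈ PP 0 z ↔ p.Prime ∧ p ≤ z := by
  unfold PP
  rw [mem_filter, mem_range]
  constructor
  · rintro ⟨h1, h2, _⟩
    exact ⟨h2, by omega⟩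
  · rintro ⟨h1, h2⟩
    exact ⟨by omega, h1, h1.pos⟩

private theorem sqs_PP_prime {n : ℕ} (hp : (n + 1).Prime) :
    PP 0 (n + 1) = insert (n + 1) (PP 0 n) := by
  ext q
  rw [mem_insert, sqs_mem, sqs_mem]
  constructor
  · rintro ⟨h1, h2⟩
    rcases Nat.lt_or_ge n q with h | h
    · exact Or.inl (by omega)
    · exact Or.inr ⟨h1, h⟩
  · rintro (h | ⟨h1, h2⟩)
    · exact ⟨by rw [h]; exact hp, by omega⟩
    · exact ⟨h1, by omega⟩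

private theorem sqs_PP_not {n : ℕ} (hp : ¬ (n + 1).Prime) : PP 0 (n + 1) = PP 0 n := by
  ext q
  rw [sqs_mem, sqs_mem]
  constructor
  · rintro ⟨h1, h2⟩
    rcases Nat.lt_or_ge n q with h | h
    · exact absurd (by rwa [show q = n + 1 by omega] at h1) hp
    · exact ⟨h1, h⟩
  · rintro ⟨h1, h2⟩
    exact ⟨h1, by omega⟩

private theorem sqs_mu_not {Ω : ℕ → Finset ℕ} {n : ℕ} (hp : ¬ (n + 1).Prime) (X x : ℕ) :
    mu Ω (n + 1) X x = mu Ω n X x := by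
  unfold mu Pre V1
  rw [sqs_PP_not hp]

private noncomputable def sqs_g (Ω : ℕ → Finset ℕ) (p x : ℕ) : ℝ :=
  ((Ω p).card : ℝ) / p - if x % p ∈ Ω p then 1 else 0

private theorem sqs_V {Ω : ℕ → Finset ℕ} {n : ℕ} (hp : (n + 1).Prime) :
    V1 Ω (n + 1) = (1 - ((Ω (n + 1)).card : ℝ) / ((n + 1 : ℕ) : ℝ)) * V1 Ω n := by
  unfold V1
  rw [sqs_PP_prime hp, prod_insert]
  intro h
  rw [sqs_mem] at h
  omega

private theorem sqs_pre {Ω : ℕ → Finset ℕ} {n : ℕ} (hp : (n + 1).Prime) (X x : ℕ) :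
    x ∈ Pre Ω (n + 1) X ↔ x ∈ Pre Ω n X ∧ x % (n + 1) ∉ Ω (n + 1) := by
  unfold Pre
  rw [sqs_PP_prime hp, mem_filter, mem_filter]
  constructor
  · rintro ⟨h1, h2⟩
    exact ⟨⟨h1, fun p hp => h2 p (mem_insert_of_mem hp)⟩, h2 (n + 1) (mem_insert_self _ _)⟩
  · rintro ⟨⟨h1, h2⟩, h3⟩
    refine ⟨h1, fun p hp => ?_⟩
    rcases mem_insert.mp hp with h | h
    · rw [h]; exact h3
    · exact h2 p h

private theorem sqs_mu_prime {Ω : ℕ → Finset ℕ} {n : ℕ} (hp : (n + 1).Prime) (X x : ℕ)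
    (ht : 1 - ((Ω (n + 1)).card : ℝ) / ((n + 1 : ℕ) : ℝ) ≠ 0) (hV : V1 Ω n ≠ 0) :
    mu Ω (n + 1) X x - mu Ω n X x =
      (1 - ((Ω (n + 1)).card : ℝ) / ((n + 1 : ℕ) : ℝ))⁻¹ * (V1 Ω n)⁻¹ *
        (if x ∈ Pre Ω n X then sqs_g Ω (n + 1) x else 0) := by
  unfold mu
  by_cases h1 : x ∈ Pre Ω n X
  · by_cases h2 : x % (n + 1) ∈ Ω (n + 1)
    · have h3 : x ∉ Pre Ω (n + 1) X := fun h => ((sqs_pre hp X x).mp h).2 h2
      rw [if_neg h3, if_pos h1, if_pos h1]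
      unfold sqs_g
      rw [if_pos h2]
      generalize ((Ω (n + 1)).card : ℝ) / ((n + 1 : ℕ) : ℝ) = t at ht ⊢
      field_simp
      ring
    · have h3 : x ∈ Pre Ω (n + 1) X := (sqs_pre hp X x).mpr ⟨h1, h2⟩
      rw [if_pos h3, if_pos h1, if_pos h1, sqs_V hp]
      unfold sqs_g
      rw [if_neg h2]
      generalize ((Ω (n + 1)).card : ℝ) / ((n + 1 : ℕ) : ℝ) = t at ht ⊢
      field_simp
      ring
  · have h3 : x ∉ Pre Ω (n + 1) X := fun h => h1 ((sqs_pre hp X x).mp h).1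
    rw [if_neg h3, if_neg h1, if_neg h1]
    ring

private theorem sqs_tel (f : ℕ → ℂ) (a b : ℕ) (h : a ≤ b) :
    f b - f a = ∑ n ∈ Ico a b, (f (n + 1) - f n) := by
  induction b, h using Nat.le_induction with
  | base => simp
  | succ b hb ih =>
    rw [sum_Ico_succ_top hb, ← ih]
    ring

private theorem sqs_tbound {k : ℕ} {Ω : ℕ → Finset ℕ} (hN : Nice k Ω) {p : ℕ} (hp : p.Prime) :
    0 ≤ ((Ω p).card : ℝ) / p ∧ ((Ω p).card : ℝ) / p ≤ 1 / 2 := by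
  have hp2 : (2 : ℝ) ≤ p := by exact_mod_cast hp.two_le
  refine ⟨by positivity, ?_⟩
  rw [div_le_iff₀ (by linarith)]
  rcases Nat.lt_or_ge (2 * k) p with h | h
  · have h1 : ((Ω p).card : ℝ) ≤ k := by exact_mod_cast hN.card p
    have h2 : (2 : ℝ) * k ≤ p := by exact_mod_cast h.le
    linarith
  · have h1 : ((Ω p).card : ℝ) ≤ 1 := by exact_mod_cast hN.small p h
    linarith

private theorem sqs_V1pos {k : ℕ} {Ω : ℕ → Finset ℕ} (hN : Nice k Ω) (n : ℕ) : 0 < V1 Ω n := by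
  unfold V1
  refine prod_pos (fun p hp => ?_)
  have := sqs_tbound hN ((sqs_mem n p).mp hp).1
  linarith [this.2]

private theorem sqs_V1mono {k : ℕ} {Ω : ℕ → Finset ℕ} (hN : Nice k Ω) {n z : ℕ} (h : n ≤ z) :
    (V1 Ω n)⁻¹ ≤ (V1 Ω z)⁻¹ := by
  refine inv_anti₀ (sqs_V1pos hN z) ?_
  induction z, h using Nat.le_induction with
  | base => exact le_refl _
  | succ b hb ih =>
    refine le_trans ?_ ih
    by_cases hp : (b + 1).Prime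
    · rw [sqs_V hp]
      have h1 := sqs_tbound hN hp
      have h2 := sqs_V1pos hN b
      nlinarith [h1.1, h1.2]
    · unfold V1
      rw [sqs_PP_not hp]

private theorem sqs_gabs {k : ℕ} {Ω : ℕ → Finset ℕ} (hN : Nice k Ω) {p : ℕ} (hp : p.Prime)
    (x : ℕ) : |sqs_g Ω p x| ≤ 1 := by
  have h := sqs_tbound hN hp
  unfold sqs_g
  rw [abs_le]
  split_ifs <;> constructor <;> linarith [h.1, h.2]

private theorem sqs_truncC {K : ℕ} {ε c : ℝ} {X z m : ℕ} (hX : 1 ≤ X) (hε : ε ≤ 1)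
    (hT : Tr K ε c X z m) (Ω : ℕ → Finset ℕ) (hK : ∀ p, (Ω p).card ≤ K)
    (hΩ : ∀ p ∈ PP 0 z, ∀ c ∈ Ω p, c < p) (w : ℕ → ℂ) (M : ℝ) (hM : 0 ≤ M)
    (hw : ∀ n ∈ Ioc X (2 * X), ‖w n‖ ≤ M) :
    ‖∑ x ∈ Pre Ω z X, w x -
        ∑ d ∈ (PP 0 z).powerset with d.card ≤ m, ((-1 : ℂ) ^ d.card *
          ∑ x ∈ (Ioc X (2 * X)).filter (fun x => ∀ p ∈ d, x % p ∈ Ω p), w x)‖ ≤
      4 * M * X * (X : ℝ) ^ (-c) := by
  have h1 := layB_trunc hX hε hT Ω hK hΩ (fun x => (w x).re) M hM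
    (fun n hn => le_trans (Complex.abs_re_le_norm _) (hw n hn))
  have h2 := layB_trunc hX hε hT Ω hK hΩ (fun x => (w x).im) M hM
    (fun n hn => le_trans (Complex.abs_im_le_norm _) (hw n hn))
  have hs : ∀ (n : ℕ) (y : ℂ), ((-1 : ℂ) ^ n * y).re = (-1 : ℝ) ^ n * y.re ∧
      ((-1 : ℂ) ^ n * y).im = (-1 : ℝ) ^ n * y.im := by
    intro n y
    rcases neg_one_pow_eq_or ℝ n with h | h
    · have h' : (-1 : ℂ) ^ n = 1 := by
        have : (((-1 : ℝ) ^ n : ℝ) : ℂ) = 1 := by rw [h]; simp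
        simpa using this
      rw [h, h']; simp
    · have h' : (-1 : ℂ) ^ n = -1 := by
        have : (((-1 : ℝ) ^ n : ℝ) : ℂ) = -1 := by rw [h]; simp
        simpa using this
      rw [h, h']; simp
  refine le_trans (Complex.norm_le_abs_re_add_abs_im _) ?_
  rw [Complex.sub_re, Complex.sub_im, Complex.re_sum, Complex.im_sum, Complex.re_sum,
    Complex.im_sum]
  have e1 : ∑ d ∈ (PP 0 z).powerset with d.card ≤ m, ((-1 : ℂ) ^ d.card *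
          ∑ x ∈ (Ioc X (2 * X)).filter (fun x => ∀ p ∈ d, x % p ∈ Ω p), w x).re =
      ∑ d ∈ (PP 0 z).powerset with d.card ≤ m, ((-1 : ℝ) ^ d.card *
          ∑ x ∈ (Ioc X (2 * X)).filter (fun x => ∀ p ∈ d, x % p ∈ Ω p), (w x).re) := by
    refine sum_congr rfl (fun d _ => ?_)
    rw [(hs _ _).1, Complex.re_sum]
  have e2 : ∑ d ∈ (PP 0 z).powerset with d.card ≤ m, ((-1 : ℂ) ^ d.card *
          ∑ x ∈ (Ioc X (2 * X)).filter (fun x => ∀ p ∈ d, x % p ∈ Ω p), w x).im =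
      ∑ d ∈ (PP 0 z).powerset with d.card ≤ m, ((-1 : ℝ) ^ d.card *
          ∑ x ∈ (Ioc X (2 * X)).filter (fun x => ∀ p ∈ d, x % p ∈ Ω p), (w x).im) := by
    refine sum_congr rfl (fun d _ => ?_)
    rw [(hs _ _).2, Complex.im_sum]
  rw [e1, e2]
  linarith [h1, h2]

/-- the sum over `S_d` -/
private theorem sqs_Gd {k : ℕ} {Ω : ℕ → Finset ℕ} (hN : Nice k Ω) {p : ℕ} (hp : p.Prime)
    (d : Finset ℕ) (X : ℕ) (α : ℝ) :
    ∑ x ∈ (Ioc X (2 * X)).filter (fun x => ∀ r ∈ d, x % r ∈ Ω r),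
        ((sqs_g Ω p x : ℝ) : ℂ) * GT.e (α * x) =
      - ∑ c ∈ Ω p, dfd Ω d X α p c := by
  have h1 : ∀ c ∈ Ω p, dfd Ω d X α p c =
      ∑ x ∈ (Ioc X (2 * X)).filter (fun x => ∀ r ∈ d, x % r ∈ Ω r),
        ((if x % p = c then GT.e (α * x) else 0) - (1 / (p : ℂ)) * GT.e (α * x)) := by
    intro c hc
    unfold dfd
    rw [sum_sub_distrib, sum_filter, ← mul_sum]
    congr 1
    refine sum_congr rfl (fun x _ => ?_)
    have hcp := hN.lt p c hc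
    by_cases h : x % p = c
    · rw [if_pos h, if_pos]
      unfold Nat.ModEq
      rw [h, Nat.mod_eq_of_lt hcp]
    · rw [if_neg h, if_neg]
      intro h2
      unfold Nat.ModEq at h2
      rw [Nat.mod_eq_of_lt hcp] at h2
      exact h h2
  rw [sum_congr rfl h1, sum_comm, ← sum_neg_distrib]
  refine sum_congr rfl (fun x _ => ?_)
  rw [sum_sub_distrib, sum_ite_eq, sum_const, nsmul_eq_mul]
  unfold sqs_g
  have hp0 : (p : ℂ) ≠ 0 := by exact_mod_cast hp.ne_zero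
  by_cases h : x % p ∈ Ω p
  · rw [if_pos h, if_pos h]
    push_cast
    field_simp
    ring
  · rw [if_neg h, if_neg h]
    push_cast
    field_simp
    ring

private theorem sqs_Tr {K : ℕ} {ε c : ℝ} {X z m n : ℕ} (hT : Tr K ε c X z m) (h : n ≤ z) :
    Tr K ε c X n m := by
  obtain ⟨hm, h1, T, hT1, h2⟩ := hT
  have hn : (n : ℝ) ≤ z := by exact_mod_cast h
  have hn0 : (0 : ℝ) ≤ n := Nat.cast_nonneg n
  have hK0 : (0 : ℝ) ≤ K := Nat.cast_nonneg K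
  have hlog : Real.log n ≤ Real.log z := by
    rcases Nat.eq_zero_or_pos n with h0 | h0
    · rw [h0, Nat.cast_zero, Real.log_zero]
      exact Real.log_natCast_nonneg z
    · exact Real.log_le_log (by exact_mod_cast h0) hn
  refine ⟨hm, le_trans (pow_le_pow_left₀ (by positivity) ?_ _) h1, T, hT1, le_trans ?_ h2⟩
  · exact mul_le_mul_of_nonneg_left (by linarith) (by positivity)
  · refine div_le_div_of_nonneg_right (Real.exp_le_exp.mpr ?_) (by positivity)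
    refine mul_le_mul_of_nonneg_left (mul_le_mul_of_nonneg_left ?_ (by positivity)) (by linarith)
    linarith

private theorem sqs_atmost (a b q : ℕ) (F : ℕ → ℝ) (B : ℝ) (hB : 0 ≤ B)
    (hF : ∀ n ∈ Ico a b, F n ≤ B) : ∑ n ∈ Ico a b, (if n + 1 = q then F n else 0) ≤ B := by
  rw [← sum_filter]
  refine le_trans (sum_le_card_nsmul _ _ B (fun n hn => hF n (mem_filter.mp hn).1)) ?_
  rw [nsmul_eq_mul]
  have h1 : ((Ico a b).filter (fun n => n + 1 = q)).card ≤ 1 := by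
    rw [card_le_one]
    intro x hx y hy
    rw [mem_filter] at hx hy
    omega
  have h2 : (((Ico a b).filter (fun n => n + 1 = q)).card : ℝ) ≤ 1 := by exact_mod_cast h1
  nlinarith

private theorem sqs_diff {k : ℕ} {Ω : ℕ → Finset ℕ} (hN : Nice k Ω) {n y₂ : ℕ} (hn : n + 1 ≤ y₂)
    (hp : (n + 1).Prime) (X : ℕ) (α : ℝ) :
    ‖ES (mu Ω (n + 1) X) X α - ES (mu Ω n X) X α‖ ≤ 2 * (V1 Ω y₂)⁻¹ *
      ‖∑ x ∈ Pre Ω n X, ((sqs_g Ω (n + 1) x : ℝ) : ℂ) * GT.e (α * x)‖ := by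
  have ht := sqs_tbound hN hp
  have hV := sqs_V1pos hN n
  have e1 : ES (mu Ω (n + 1) X) X α - ES (mu Ω n X) X α =
      (((1 - ((Ω (n + 1)).card : ℝ) / ((n + 1 : ℕ) : ℝ))⁻¹ * (V1 Ω n)⁻¹ : ℝ) : ℂ) *
      ∑ x ∈ Pre Ω n X, ((sqs_g Ω (n + 1) x : ℝ) : ℂ) * GT.e (α * x) := by
    unfold ES
    rw [← sum_sub_distrib]
    have e2 : ∀ x ∈ Ioc X (2 * X), ((mu Ω (n + 1) X x : ℝ) : ℂ) * GT.e (α * x) -
        ((mu Ω n X x : ℝ) : ℂ) * GT.e (α * x) =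
        (((1 - ((Ω (n + 1)).card : ℝ) / ((n + 1 : ℕ) : ℝ))⁻¹ * (V1 Ω n)⁻¹ : ℝ) : ℂ) *
        (if x ∈ Pre Ω n X then ((sqs_g Ω (n + 1) x : ℝ) : ℂ) * GT.e (α * x) else 0) := by
      intro x _
      rw [← sub_mul, ← Complex.ofReal_sub, sqs_mu_prime hp X x (by linarith [ht.2]) hV.ne']
      by_cases h : x ∈ Pre Ω n X
      · rw [if_pos h, if_pos h, Complex.ofReal_mul, mul_assoc]
      · rw [if_neg h, if_neg h]; simp
    rw [sum_congr rfl e2, ← mul_sum, sum_ite_mem]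
    congr 2
    exact inter_eq_right.mpr (filter_subset _ _)
  rw [e1, norm_mul, Complex.norm_real, Real.norm_eq_abs, abs_of_nonneg]
  · refine mul_le_mul_of_nonneg_right ?_ (norm_nonneg _)
    have h1 : (1 - ((Ω (n + 1)).card : ℝ) / ((n + 1 : ℕ) : ℝ))⁻¹ ≤ 2 := by
      rw [inv_le_comm₀ (by linarith [ht.2]) (by norm_num)]
      linarith [ht.2]
    have h2 := sqs_V1mono hN (show n ≤ y₂ by omega)
    have h3 : 0 < (V1 Ω n)⁻¹ := inv_pos.mpr hV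
    exact mul_le_mul h1 h2 h3.le (by norm_num)
  · have h3 : 0 < (V1 Ω n)⁻¹ := inv_pos.mpr hV
    have h4 : 0 < (1 - ((Ω (n + 1)).card : ℝ) / ((n + 1 : ℕ) : ℝ))⁻¹ :=
      inv_pos.mpr (by linarith [ht.2])
    positivity

private noncomputable def sqs_W (Ω : ℕ → Finset ℕ) (d : Finset ℕ) : ℝ := ∏ r ∈ d, ((Ω r).card : ℝ)

private noncomputable def sqs_D (d : Finset ℕ) : ℝ := ∏ r ∈ d, (r : ℝ)

private theorem sqs_W0 (Ω : ℕ → Finset ℕ) (d : Finset ℕ) : 0 ≤ sqs_W Ω d :=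
  prod_nonneg (fun _ _ => Nat.cast_nonneg _)

private theorem sqs_key {k : ℕ} {Ω : ℕ → Finset ℕ} (hN : Nice k Ω) (X Q : ℕ) (hQ : 1 ≤ Q)
    (α : ℝ) (d : Finset ℕ) : ∃ s : ℕ, (∀ r ∈ d, r.Prime) → ∀ q : ℕ, q.Prime → q ≤ Q →
      (∀ r ∈ d, r < q) → ∀ a : ℕ, ‖dfd Ω d X α q a‖ ≤ sqs_W Ω d * (Q : ℝ) ^ 2 +
        (if q = s then sqs_W Ω d * (2 * X / (sqs_D d * q) + 2) else 0) := by
  by_cases hd : ∀ r ∈ d, r.Prime
  · obtain ⟨s, hs, h⟩ := dfd_bound Ω d hd (fun r _ => hN.lt r) X Q hQ α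
    refine ⟨s, fun _ q hq hqQ hr a => ?_⟩
    have h1 := h q a hq.one_lt.le hqQ (fun r hrd hdiv => by
      rcases (Nat.dvd_prime hq).mp hdiv with h2 | h2
      · exact (hd r hrd).one_lt.ne' h2
      · have := hr r hrd
        omega)
    refine le_trans h1 ?_
    unfold sqs_W sqs_D
    by_cases h3 : q = s
    · rw [if_pos h3, if_pos (by rw [h3])]
    · rw [if_neg h3, if_neg]
      intro h4
      rcases hs with h5 | h5
      · rw [h5] at h4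
        exact hq.ne_zero (Nat.eq_zero_of_zero_dvd h4)
      · rcases (Nat.dvd_prime hq).mp h4 with h6 | h6
        · exact h5.one_lt.ne' h6
        · exact h3 h6.symm
  · exact ⟨0, fun h => absurd h hd⟩

private theorem sqs_one {k : ℕ} {Ω : ℕ → Finset ℕ} (hN : Nice k Ω) {ε c : ℝ} {X y₂ m : ℕ}
    (hX : 1 ≤ X) (hε : ε ≤ 1) (hT : Tr k ε c X y₂ m) {n : ℕ} (hn : n + 1 ≤ y₂)
    (hp : (n + 1).Prime) (α : ℝ) (s : Finset ℕ → ℕ)
    (hs : ∀ d : Finset ℕ, (∀ r ∈ d, r.Prime) → ∀ q : ℕ, q.Prime → q ≤ y₂ →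
      (∀ r ∈ d, r < q) → ∀ a : ℕ, ‖dfd Ω d X α q a‖ ≤ sqs_W Ω d * (y₂ : ℝ) ^ 2 +
        (if q = s d then sqs_W Ω d * (2 * X / (sqs_D d * q) + 2) else 0)) :
    ‖∑ x ∈ Pre Ω n X, ((sqs_g Ω (n + 1) x : ℝ) : ℂ) * GT.e (α * x)‖ ≤
      ∑ d ∈ (PP 0 y₂).powerset with d.card ≤ m, (k * (sqs_W Ω d * (y₂ : ℝ) ^ 2) +
        (if n + 1 = s d then k * (sqs_W Ω d * (2 * X / (sqs_D d * ((n + 1 : ℕ) : ℝ)) + 2)) else 0)) +
      4 * X * (X : ℝ) ^ (-c) := by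
  have hT' := sqs_Tr hT (show n ≤ y₂ by omega)
  have h1 := sqs_truncC hX hε hT' Ω hN.card (fun p _ => hN.lt p)
    (fun x => ((sqs_g Ω (n + 1) x : ℝ) : ℂ) * GT.e (α * x)) 1 (by norm_num)
    (fun x _ => by
      rw [norm_mul, GT.norm_e, mul_one, Complex.norm_real, Real.norm_eq_abs]
      exact sqs_gabs hN hp x)
  have hterm : ∀ d : Finset ℕ, 0 ≤ k * (sqs_W Ω d * (y₂ : ℝ) ^ 2) +
        (if n + 1 = s d then k * (sqs_W Ω d * (2 * X / (sqs_D d * ((n + 1 : ℕ) : ℝ)) + 2)) else 0) := by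
    intro d
    have hW := sqs_W0 Ω d
    have hD : 0 ≤ sqs_D d := prod_nonneg (fun _ _ => Nat.cast_nonneg _)
    split_ifs <;> positivity
  have h2 : ‖∑ d ∈ (PP 0 n).powerset with d.card ≤ m, ((-1 : ℂ) ^ d.card *
          ∑ x ∈ (Ioc X (2 * X)).filter (fun x => ∀ p ∈ d, x % p ∈ Ω p),
            ((sqs_g Ω (n + 1) x : ℝ) : ℂ) * GT.e (α * x))‖ ≤
      ∑ d ∈ (PP 0 y₂).powerset with d.card ≤ m, (k * (sqs_W Ω d * (y₂ : ℝ) ^ 2) +
        (if n + 1 = s d then k * (sqs_W Ω d * (2 * X / (sqs_D d * ((n + 1 : ℕ) : ℝ)) + 2)) else 0)) := by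
    refine le_trans (norm_sum_le _ _) ?_
    refine le_trans (sum_le_sum (g := fun d => k * (sqs_W Ω d * (y₂ : ℝ) ^ 2) +
        (if n + 1 = s d then k * (sqs_W Ω d * (2 * X / (sqs_D d * ((n + 1 : ℕ) : ℝ)) + 2)) else 0)) ?_) ?_
    · intro d hd
      rw [mem_filter, mem_powerset] at hd
      have hdp : ∀ r ∈ d, r.Prime := fun r hr => ((sqs_mem n r).mp (hd.1 hr)).1
      have hdl : ∀ r ∈ d, r < n + 1 := fun r hr => by
        have := ((sqs_mem n r).mp (hd.1 hr)).2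
        omega
      rw [norm_mul, norm_pow, norm_neg, norm_one, one_pow, one_mul, sqs_Gd hN hp, norm_neg]
      refine le_trans (norm_sum_le _ _) ?_
      refine le_trans (sum_le_card_nsmul _ _ _
        (fun a _ => hs d hdp (n + 1) hp hn hdl a)) ?_
      rw [nsmul_eq_mul]
      have hk : ((Ω (n + 1)).card : ℝ) ≤ k := by exact_mod_cast hN.card (n + 1)
      have hW := sqs_W0 Ω d
      have hD : 0 ≤ sqs_D d := prod_nonneg (fun _ _ => Nat.cast_nonneg _)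
      have h0 : 0 ≤ sqs_W Ω d * (y₂ : ℝ) ^ 2 +
        (if n + 1 = s d then sqs_W Ω d * (2 * X / (sqs_D d * ((n + 1 : ℕ) : ℝ)) + 2) else 0) := by
        split_ifs <;> positivity
      refine le_trans (mul_le_mul_of_nonneg_right hk h0) ?_
      rw [mul_add, mul_ite, mul_zero]
    · refine sum_le_sum_of_subset_of_nonneg ?_ (fun d _ _ => hterm d)
      intro d hd
      rw [mem_filter, mem_powerset] at hd ⊢
      refine ⟨fun r hr => ?_, hd.2⟩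
      have h3 := (sqs_mem n r).mp (hd.1 hr)
      exact (sqs_mem y₂ r).mpr ⟨h3.1, by omega⟩
  have h3 := norm_sub_norm_le (∑ x ∈ Pre Ω n X, ((sqs_g Ω (n + 1) x : ℝ) : ℂ) * GT.e (α * x))
    (∑ d ∈ (PP 0 n).powerset with d.card ≤ m, ((-1 : ℂ) ^ d.card *
          ∑ x ∈ (Ioc X (2 * X)).filter (fun x => ∀ p ∈ d, x % p ∈ Ω p),
            ((sqs_g Ω (n + 1) x : ℝ) : ℂ) * GT.e (α * x)))
  have h4 : 4 * (1 : ℝ) * X * (X : ℝ) ^ (-c) = 4 * X * (X : ℝ) ^ (-c) := by ring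
  rw [h4] at h1
  linarith

private theorem sqs_sum {k : ℕ} {Ω : ℕ → Finset ℕ} (hN : Nice k Ω) {ε c : ℝ} {X y₁ y₂ m : ℕ}
    (hX : 1 ≤ X) (hε : ε ≤ 1) (hT : Tr k ε c X y₂ m) (h1 : 1 ≤ y₁) (h12 : y₁ ≤ y₂) (α : ℝ) :
    ‖ES (mu Ω y₂ X) X α - ES (mu Ω y₁ X) X α‖ ≤ 2 * (V1 Ω y₂)⁻¹ *
      (k * ((y₂ : ℝ) ^ 3 + 2) *
          (∑ d ∈ (PP 0 y₂).powerset with d.card ≤ m, ∏ p ∈ d, ((Ω p).card : ℝ)) +
        2 * k * X / y₁ * (∑ d ∈ (PP 0 y₂).powerset, ∏ p ∈ d, (((Ω p).card : ℝ) / p)) +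
        y₂ * (4 * X * (X : ℝ) ^ (-c))) := by
  choose s hs using sqs_key hN X y₂ (le_trans h1 h12) α
  have hV0 : 0 < (V1 Ω y₂)⁻¹ := inv_pos.mpr (sqs_V1pos hN y₂)
  have hy1 : (1 : ℝ) ≤ y₁ := by exact_mod_cast h1
  rw [sqs_tel (fun n => ES (mu Ω n X) X α) y₁ y₂ h12]
  refine le_trans (norm_sum_le _ _) ?_
  have hterm : ∀ (n : ℕ) (d : Finset ℕ), 0 ≤ k * (sqs_W Ω d * (y₂ : ℝ) ^ 2) +
        (if n + 1 = s d then k * (sqs_W Ω d * (2 * X / (sqs_D d * ((n + 1 : ℕ) : ℝ)) + 2)) else 0) := by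
    intro n d
    have hW := sqs_W0 Ω d
    have hD : 0 ≤ sqs_D d := prod_nonneg (fun _ _ => Nat.cast_nonneg _)
    split_ifs <;> positivity
  have hE : 0 ≤ 4 * X * (X : ℝ) ^ (-c) := by positivity
  have h2 : ∀ n ∈ Ico y₁ y₂, ‖ES (mu Ω (n + 1) X) X α - ES (mu Ω n X) X α‖ ≤
      2 * (V1 Ω y₂)⁻¹ * (∑ d ∈ (PP 0 y₂).powerset with d.card ≤ m,
        (k * (sqs_W Ω d * (y₂ : ℝ) ^ 2) +
        (if n + 1 = s d then k * (sqs_W Ω d * (2 * X / (sqs_D d * ((n + 1 : ℕ) : ℝ)) + 2)) else 0)) +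
      4 * X * (X : ℝ) ^ (-c)) := by
    intro n hn
    rw [mem_Ico] at hn
    by_cases hp : (n + 1).Prime
    · refine le_trans (sqs_diff hN (show n + 1 ≤ y₂ by omega) hp X α) ?_
      refine mul_le_mul_of_nonneg_left ?_ (by positivity)
      exact sqs_one hN hX hε hT (show n + 1 ≤ y₂ by omega) hp α s hs
    · have e1 : ES (mu Ω (n + 1) X) X α = ES (mu Ω n X) X α := by
        unfold ES
        refine sum_congr rfl (fun x _ => ?_)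
        rw [sqs_mu_not hp]
      rw [e1, sub_self, norm_zero]
      refine mul_nonneg (by positivity) (add_nonneg (sum_nonneg (fun d _ => hterm n d)) hE)
  refine le_trans (sum_le_sum h2) ?_
  rw [← mul_sum]
  refine mul_le_mul_of_nonneg_left ?_ (by positivity)
  rw [sum_add_distrib, sum_comm]
  have h3 : ∑ d ∈ (PP 0 y₂).powerset with d.card ≤ m, ∑ n ∈ Ico y₁ y₂,
      (k * (sqs_W Ω d * (y₂ : ℝ) ^ 2) +
        (if n + 1 = s d then k * (sqs_W Ω d * (2 * X / (sqs_D d * ((n + 1 : ℕ) : ℝ)) + 2)) else 0)) ≤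
      ∑ d ∈ (PP 0 y₂).powerset with d.card ≤ m,
        (k * ((y₂ : ℝ) ^ 3 + 2) * sqs_W Ω d + 2 * k * X / y₁ * (sqs_W Ω d / sqs_D d)) := by
    refine sum_le_sum (fun d hd => ?_)
    rw [mem_filter, mem_powerset] at hd
    have hW := sqs_W0 Ω d
    have hD : 0 < sqs_D d := prod_pos (fun r hr => by
      exact_mod_cast ((sqs_mem y₂ r).mp (hd.1 hr)).1.pos)
    rw [sum_add_distrib, sum_const, nsmul_eq_mul, Nat.card_Ico]
    have h4 : ((y₂ - y₁ : ℕ) : ℝ) ≤ y₂ := by exact_mod_cast Nat.sub_le _ _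
    have h5 : ((y₂ - y₁ : ℕ) : ℝ) * (k * (sqs_W Ω d * (y₂ : ℝ) ^ 2)) ≤
        y₂ * (k * (sqs_W Ω d * (y₂ : ℝ) ^ 2)) := mul_le_mul_of_nonneg_right h4 (by positivity)
    have h6 := sqs_atmost y₁ y₂ (s d)
      (fun n => k * (sqs_W Ω d * (2 * X / (sqs_D d * ((n + 1 : ℕ) : ℝ)) + 2)))
      (k * (sqs_W Ω d * (2 * X / (sqs_D d * (y₁ : ℝ)) + 2))) (by positivity) (fun n hn => by
        rw [mem_Ico] at hn
        refine mul_le_mul_of_nonneg_left (mul_le_mul_of_nonneg_left ?_ hW) (Nat.cast_nonneg _)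
        have h7 : 2 * (X : ℝ) / (sqs_D d * ((n + 1 : ℕ) : ℝ)) ≤ 2 * X / (sqs_D d * (y₁ : ℝ)) := by
          refine div_le_div_of_nonneg_left (by positivity) (by positivity) ?_
          refine mul_le_mul_of_nonneg_left ?_ hD.le
          exact_mod_cast (by omega : y₁ ≤ n + 1)
        linarith)
    refine le_trans (add_le_add h5 h6) (le_of_eq ?_)
    field_simp
    ring
  have h4 : ∑ d ∈ (PP 0 y₂).powerset with d.card ≤ m,
        (k * ((y₂ : ℝ) ^ 3 + 2) * sqs_W Ω d + 2 * k * X / y₁ * (sqs_W Ω d / sqs_D d)) ≤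
      k * ((y₂ : ℝ) ^ 3 + 2) *
          (∑ d ∈ (PP 0 y₂).powerset with d.card ≤ m, ∏ p ∈ d, ((Ω p).card : ℝ)) +
        2 * k * X / y₁ * (∑ d ∈ (PP 0 y₂).powerset, ∏ p ∈ d, (((Ω p).card : ℝ) / p)) := by
    rw [sum_add_distrib, ← mul_sum, ← mul_sum]
    refine add_le_add (le_of_eq rfl) (mul_le_mul_of_nonneg_left ?_ (by positivity))
    have e1 : ∀ d : Finset ℕ, sqs_W Ω d / sqs_D d = ∏ p ∈ d, (((Ω p).card : ℝ) / p) := by
      intro d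
      unfold sqs_W sqs_D
      rw [prod_div_distrib]
    rw [sum_congr rfl (fun d _ => e1 d)]
    exact sum_le_sum_of_subset_of_nonneg (filter_subset _ _)
      (fun d _ _ => prod_nonneg (fun _ _ => by positivity))
  have h5 : ∑ _n ∈ Ico y₁ y₂, 4 * (X : ℝ) * (X : ℝ) ^ (-c) ≤ y₂ * (4 * X * (X : ℝ) ^ (-c)) := by
    rw [sum_const, nsmul_eq_mul, Nat.card_Ico]
    refine mul_le_mul_of_nonneg_right ?_ hE
    exact_mod_cast Nat.sub_le _ _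
  linarith

private theorem sqs_big (A : ℝ) (E : ℕ) (δ : ℝ) (hδ : 0 < δ) :
    ∃ X₀ : ℕ, ∀ X : ℕ, X₀ ≤ X → A * (Real.log X) ^ E ≤ (X : ℝ) ^ δ := by
  have h1 := (isLittleO_log_rpow_rpow_atTop (E : ℝ) hδ).comp_tendsto
    (tendsto_natCast_atTop_atTop (R := ℝ))
  have h2 := h1.bound (show (0 : ℝ) < (|A| + 1)⁻¹ by positivity)
  obtain ⟨X₀, hX₀⟩ := Filter.eventually_atTop.mp h2
  refine ⟨max X₀ 1, fun X hX => ?_⟩
  have h3 := hX₀ X (le_trans (le_max_left _ _) hX)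
  simp only [Function.comp] at h3
  have hX1 : (1 : ℝ) ≤ X := by exact_mod_cast le_trans (le_max_right _ _) hX
  have hlog : 0 ≤ Real.log X := Real.log_nonneg hX1
  rw [Real.rpow_natCast, Real.norm_of_nonneg (by positivity),
    Real.norm_of_nonneg (by positivity)] at h3
  have h4 : (|A| + 1) * (Real.log X) ^ E ≤ (X : ℝ) ^ δ := by
    have h5 := mul_le_mul_of_nonneg_left h3 (show (0 : ℝ) ≤ |A| + 1 by positivity)
    rwa [← mul_assoc, mul_inv_cancel₀ (by positivity), one_mul] at h5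
  refine le_trans ?_ h4
  refine mul_le_mul_of_nonneg_right ?_ (by positivity)
  linarith [le_abs_self A]

private theorem sqs_mid (k : ℕ) (C₁ C₂ V S X y l₁ l₂ : ℝ) (hC₁ : 1 ≤ C₁) (hC₂ : 1 ≤ C₂)
    (hX : 0 ≤ X) (hy : 1 ≤ y) (hl₂ : 0 ≤ l₂) (h12 : l₂ ≤ 2 * l₁)
    (hV : V ≤ (C₁ * l₂) ^ (2 * k)) (hS0 : 0 ≤ S) (hS : S ≤ (C₂ * l₂) ^ k) :
    2 * V * (2 * k * X / y * S) ≤
      4 * k * (2 * C₁) ^ (2 * k) * (2 * C₂) ^ k * (X * l₁ ^ (3 * k) / y) := by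
  have hl₁ : 0 ≤ l₁ := by linarith
  have h1 : V ≤ ((2 * C₁) * l₁) ^ (2 * k) := by
    refine le_trans hV (pow_le_pow_left₀ (by positivity) ?_ _)
    nlinarith
  have h2 : S ≤ ((2 * C₂) * l₁) ^ k := by
    refine le_trans hS (pow_le_pow_left₀ (by positivity) ?_ _)
    nlinarith
  have h3 : V * S ≤ ((2 * C₁) * l₁) ^ (2 * k) * ((2 * C₂) * l₁) ^ k :=
    mul_le_mul h1 h2 hS0 (by positivity)
  have h4 : (0 : ℝ) ≤ 4 * k * X / y := by positivity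
  have e1 : 2 * V * (2 * k * X / y * S) = 4 * k * X / y * (V * S) := by ring
  have e2 : 4 * k * (2 * C₁) ^ (2 * k) * (2 * C₂) ^ k * (X * l₁ ^ (3 * k) / y) =
      4 * k * X / y * (((2 * C₁) * l₁) ^ (2 * k) * ((2 * C₂) * l₁) ^ k) := by
    rw [mul_pow, mul_pow (2 * C₂), show 3 * k = 2 * k + k by ring, pow_add]
    ring
  rw [e1, e2]
  exact mul_le_mul_of_nonneg_left h3 h4

private theorem sqs_rest (k B : ℕ) (C₁ c δ V S L X y₁ y₂ l₁ l₂ : ℝ) (hC₁ : 1 ≤ C₁) (hX : 1 ≤ X)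
    (hL : 1 ≤ L) (hy₁ : 1 ≤ y₁) (hy₁L : y₁ ≤ L ^ B) (hy₂ : 0 ≤ y₂) (hy₂L : y₂ ≤ L ^ B)
    (hl₂ : 0 ≤ l₂) (hl₂L : l₂ ≤ L ^ B) (hl₁ : Real.log 2 ≤ l₁)
    (hV : V ≤ (C₁ * l₂) ^ (2 * k)) (hS0 : 0 ≤ S) (hS : S ≤ X ^ (1 / 1000 : ℝ))
    (hδ : δ ≤ c) (hδ' : δ ≤ 999 / 1000)
    (hbig : 2 * C₁ ^ (2 * k) * (3 * k + 4) * ((Real.log 2) ^ (3 * k))⁻¹ * L ^ (2 * k * B + 4 * B) ≤
      X ^ δ) :
    2 * V * (k * (y₂ ^ 3 + 2) * S + y₂ * (4 * X * X ^ (-c))) ≤ X * l₁ ^ (3 * k) / y₁ := by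
  have hX0 : 0 < X := by linarith
  have hLB : 1 ≤ L ^ B := one_le_pow₀ hL
  have hl2 : 0 < Real.log 2 := Real.log_pos (by norm_num)
  have hl10 : 0 < l₁ := by linarith
  have h1 : S ≤ X * X ^ (-δ) := by
    refine le_trans hS ?_
    have : X * X ^ (-δ) = X ^ (1 - δ) := by
      rw [sub_eq_add_neg, Real.rpow_add hX0, Real.rpow_one]
    rw [this]
    exact Real.rpow_le_rpow_of_exponent_le hX (by linarith)
  have h2 : X ^ (-c) ≤ X ^ (-δ) := Real.rpow_le_rpow_of_exponent_le hX (by linarith)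
  have hXd : 0 < X ^ (-δ) := Real.rpow_pos_of_pos hX0 _
  have h3 : V ≤ (C₁ * L ^ B) ^ (2 * k) :=
    le_trans hV (pow_le_pow_left₀ (by positivity) (mul_le_mul_of_nonneg_left hl₂L (by linarith)) _)
  have hy3 : y₂ ^ 3 ≤ (L ^ B) ^ 3 := pow_le_pow_left₀ hy₂ hy₂L 3
  have hLB3 : L ^ B ≤ (L ^ B) ^ 3 := by
    calc L ^ B = (L ^ B) ^ 1 := (pow_one _).symm
      _ ≤ (L ^ B) ^ 3 := pow_le_pow_right₀ hLB (by norm_num)
  have h4 : k * (y₂ ^ 3 + 2) * S ≤ k * (3 * (L ^ B) ^ 3) * (X * X ^ (-δ)) := by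
    refine mul_le_mul (mul_le_mul_of_nonneg_left ?_ (Nat.cast_nonneg _)) h1 hS0 (by positivity)
    linarith
  have h5 : y₂ * (4 * X * X ^ (-c)) ≤ (L ^ B) ^ 3 * (4 * X * X ^ (-δ)) := by
    refine mul_le_mul (by linarith) ?_ (by positivity) (by positivity)
    exact mul_le_mul_of_nonneg_left h2 (by positivity)
  have h6 : k * (y₂ ^ 3 + 2) * S + y₂ * (4 * X * X ^ (-c)) ≤
      (3 * k + 4) * (L ^ B) ^ 3 * (X * X ^ (-δ)) := by
    have : (3 * k + 4) * (L ^ B) ^ 3 * (X * X ^ (-δ)) =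
      k * (3 * (L ^ B) ^ 3) * (X * X ^ (-δ)) + (L ^ B) ^ 3 * (4 * X * X ^ (-δ)) := by ring
    linarith
  have h7 : 2 * V * (k * (y₂ ^ 3 + 2) * S + y₂ * (4 * X * X ^ (-c))) ≤
      2 * (C₁ * L ^ B) ^ (2 * k) * ((3 * k + 4) * (L ^ B) ^ 3 * (X * X ^ (-δ))) :=
    mul_le_mul (mul_le_mul_of_nonneg_left h3 (by norm_num)) h6 (by positivity) (by positivity)
  have h8 : X * (Real.log 2) ^ (3 * k) / L ^ B ≤ X * l₁ ^ (3 * k) / y₁ := by
    refine div_le_div₀ (by positivity) ?_ (by linarith) hy₁L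
    exact mul_le_mul_of_nonneg_left (pow_le_pow_left₀ hl2.le hl₁ _) hX0.le
  refine le_trans h7 (le_trans ?_ h8)
  rw [le_div_iff₀ (by positivity)]
  have e1 : 2 * (C₁ * L ^ B) ^ (2 * k) * ((3 * k + 4) * (L ^ B) ^ 3 * (X * X ^ (-δ))) * L ^ B =
      (2 * C₁ ^ (2 * k) * (3 * k + 4) * ((Real.log 2) ^ (3 * k))⁻¹ * L ^ (2 * k * B + 4 * B)) *
        (X * (Real.log 2) ^ (3 * k) * X ^ (-δ)) := by
    have e2 : L ^ (2 * k * B + 4 * B) = (L ^ B) ^ (2 * k) * (L ^ B) ^ 4 := by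
      rw [← pow_mul, ← pow_mul, ← pow_add]
      congr 1
      ring
    rw [e2, mul_pow C₁]
    field_simp
  rw [e1]
  have h9 : X * (Real.log 2) ^ (3 * k) = X ^ δ * (X * (Real.log 2) ^ (3 * k) * X ^ (-δ)) := by
    have : X ^ δ * X ^ (-δ) = 1 := by rw [← Real.rpow_add hX0, add_neg_cancel, Real.rpow_zero]
    calc X * (Real.log 2) ^ (3 * k) = X * (Real.log 2) ^ (3 * k) * (X ^ δ * X ^ (-δ)) := by
          rw [this, mul_one]
      _ = _ := by ring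
  conv_rhs => rw [h9]
  exact mul_le_mul_of_nonneg_right hbig (by positivity)

theorem sqstep (k : ℕ) : ∃ C : ℝ, 1 ≤ C ∧ ∃ D : ℕ, ∀ B : ℕ, ∃ X₀ : ℕ, ∀ X : ℕ, X₀ ≤ X →
    ∀ Ω : ℕ → Finset ℕ, Nice k Ω → ∀ y₁ y₂ : ℕ, 2 ≤ y₁ → y₁ ≤ y₂ → y₂ ≤ y₁ ^ 2 →
    (y₂ : ℝ) ≤ (Real.log X) ^ B → ∀ α : ℝ,
    ‖ES (mu Ω y₂ X) X α - ES (mu Ω y₁ X) X α‖ ≤ C * X * (Real.log y₁) ^ D / y₁ := by
  obtain ⟨C₁, hC₁, hV⟩ := num_V1 k
  obtain ⟨C₂, hC₂, hS⟩ := num_sum k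
  refine ⟨4 * k * (2 * C₁) ^ (2 * k) * (2 * C₂) ^ k + 1, ?_, 3 * k, fun B => ?_⟩
  · have h10 : 0 < C₁ := by linarith
    have h20 : 0 < C₂ := by linarith
    have : 0 ≤ 4 * k * (2 * C₁) ^ (2 * k) * (2 * C₂) ^ k := by positivity
    linarith
  obtain ⟨c, hc, X₁, hpar⟩ := layB_param k B (1 / 1000) (by norm_num)
  obtain ⟨X₂, hX₂⟩ := sqs_big (2 * C₁ ^ (2 * k) * (3 * k + 4) * ((Real.log 2) ^ (3 * k))⁻¹)
    (2 * k * B + 4 * B) (min c (999 / 1000)) (lt_min hc (by norm_num))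
  refine ⟨max (max X₁ X₂) 3, fun X hX Ω hN y₁ y₂ h1 h12 hsq hB α => ?_⟩
  have hXX₁ : X₁ ≤ X := le_trans (le_trans (le_max_left _ _) (le_max_left _ _)) hX
  have hXX₂ : X₂ ≤ X := le_trans (le_trans (le_max_right _ _) (le_max_left _ _)) hX
  have hX3 : 3 ≤ X := le_trans (le_max_right _ _) hX
  obtain ⟨m, hT⟩ := hpar X y₂ hXX₁ hB
  have hXr : (3 : ℝ) ≤ X := by exact_mod_cast hX3
  have hL : 1 ≤ Real.log X := by
    rw [Real.le_log_iff_exp_le (by linarith)]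
    linarith [Real.exp_one_lt_d9]
  have hy1 : (2 : ℝ) ≤ y₁ := by exact_mod_cast h1
  have hy12 : (y₁ : ℝ) ≤ y₂ := by exact_mod_cast h12
  have hy2 : 2 ≤ y₂ := le_trans h1 h12
  have hy2r : (2 : ℝ) ≤ y₂ := by exact_mod_cast hy2
  have hl2 : 0 ≤ Real.log y₂ := Real.log_natCast_nonneg y₂
  have hl12 : Real.log y₂ ≤ 2 * Real.log y₁ := by
    have e1 : (y₂ : ℝ) ≤ (y₁ : ℝ) ^ 2 := by exact_mod_cast hsq
    have e2 := Real.log_le_log (by linarith) e1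
    rw [Real.log_pow] at e2
    exact_mod_cast e2
  obtain ⟨hV0, _, hV2⟩ := hV Ω hN y₂ hy2
  have hVi : 0 < (V1 Ω y₂)⁻¹ := inv_pos.mpr hV0
  have hmain := sqs_sum hN (show 1 ≤ X by omega) (by norm_num) hT (show 1 ≤ y₁ by omega) h12 α
  have hlow := layB_low (show 1 ≤ X by omega) hT Ω hN.card
  have hS0 : 0 ≤ ∑ d ∈ (PP 0 y₂).powerset with d.card ≤ m, ∏ p ∈ d, ((Ω p).card : ℝ) :=
    sum_nonneg (fun d _ => prod_nonneg (fun _ _ => Nat.cast_nonneg _))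
  have hS20 : 0 ≤ ∑ d ∈ (PP 0 y₂).powerset, ∏ p ∈ d, (((Ω p).card : ℝ) / p) :=
    sum_nonneg (fun d _ => prod_nonneg (fun _ _ => by positivity))
  have hmid := sqs_mid k C₁ C₂ ((V1 Ω y₂)⁻¹)
    (∑ d ∈ (PP 0 y₂).powerset, ∏ p ∈ d, (((Ω p).card : ℝ) / p)) X y₁ (Real.log y₁) (Real.log y₂)
    hC₁ hC₂ (by linarith) (by linarith) hl2 hl12 hV2 hS20 (hS Ω hN y₂ hy2)
  have hrest := sqs_rest k B C₁ c (min c (999 / 1000)) ((V1 Ω y₂)⁻¹)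
    (∑ d ∈ (PP 0 y₂).powerset with d.card ≤ m, ∏ p ∈ d, ((Ω p).card : ℝ)) (Real.log X) X y₁ y₂
    (Real.log y₁) (Real.log y₂) hC₁ (by linarith) hL (by linarith) (by linarith) (by linarith) hB
    hl2 (le_trans (Real.log_le_self (by linarith)) hB)
    (Real.log_le_log (by norm_num) hy1) hV2 hS0 hlow (min_le_left _ _) (min_le_right _ _)
    (hX₂ X hXX₂)
  refine le_trans hmain ?_
  have e3 : (4 * k * (2 * C₁) ^ (2 * k) * (2 * C₂) ^ k + 1) * (X : ℝ) * Real.log y₁ ^ (3 * k) / y₁ =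
      4 * k * (2 * C₁) ^ (2 * k) * (2 * C₂) ^ k * (X * Real.log y₁ ^ (3 * k) / y₁) +
      X * Real.log y₁ ^ (3 * k) / y₁ := by ring
  rw [e3]
  linarith

end Pool.Agent.Lib.SG
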