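import Pool.Agent.Lib.SG.Clus
import Pool.Agent.Lib.SG.Amft
import Pool.Agent.Lib.SG.Defs7

/-!
# SG-Stp7: Maynard-Tao against a test function

PROOF. As in Step.lean: for x ∈ (X, 2X] `clus`: `g - (m-1) - k bad ≤ k a` with a = the number of i with x + h i ∈ A prime; multiply by `w x ψ x ≥ 0` and sum: `∑ w g ψ - (m-1) ∑ w ψ - k ∑ w bad ψ ≤ k ∑_i ∑ fa_i ψ`; `w g ≥ ∑_i v_i`, `∑ w bad ψ ≤ κ X` (ψ ≤ 1);
`∑ v_i ψ ≥ M'_i ∑ ρ ψ - δ X`, `∑ w ψ ≤ M ∑ ρ ψ + δ X`; `∑ M'_i - (m-1) M ≥ 2 - m κ ≥ 1`. Total error `(k + m - 1) δ X + k κ X`.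
-/

set_option autoImplicit false

open Finset

namespace Pool.Agent.Lib.SG

open Pool.Agent.Lib.MT

theorem stp7 {m k H z X c : ℕ} (hm : 1 ≤ m) (hk : 1 ≤ k) (Ω : ℕ → Finset ℕ) (h : Fin k → ℕ)
    (hinj : Function.Injective h) (hh : ∀ i, 1 ≤ h i ∧ h i ≤ H) (w : ℕ → ℝ) (v : Fin k → ℕ → ℝ)
    (M : ℝ) (M' : Fin k → ℝ) (κ : ℝ) (hκ : 0 ≤ κ) (hmκ : m * κ ≤ 1) (hW : Wg m k H z X c Ω h w v M M' κ)
    (A : Set ℕ) (hA : Hit m H (2 * X) A) (ρ ψ : ℕ → ℝ) (hρ : ∀ x, 0 ≤ ρ x)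
    (hψ : ∀ x, 0 ≤ ψ x ∧ ψ x ≤ 1) (δ : ℝ) (hδ : 0 ≤ δ)
    (hcw : |∑ x ∈ Ioc X (2 * X), (w x - M * ρ x) * ψ x| ≤ δ * X)
    (hcv : ∀ i, |∑ x ∈ Ioc X (2 * X), (v i x - M' i * ρ x) * ψ x| ≤ δ * X) :
    ∑ x ∈ Ioc X (2 * X), ρ x * ψ x ≤
      k * ∑ i, ∑ x ∈ Ioc X (2 * X), fa A h w i x * ψ x + (k + m) * δ * X + k * κ * X := by
  classical
  have hk0 : (0 : ℝ) < k := by exact_mod_cast hk
  have hk1 : (1 : ℝ) ≤ k := by exact_mod_cast hk
  have hm1 : (1 : ℝ) ≤ m := by exact_mod_cast hm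
  have hX0 : (0 : ℝ) ≤ X := Nat.cast_nonneg _
  -- the clusters, pointwise
  have h6 : ∀ x ∈ Ioc X (2 * X),
      ((∑ i, v i x) * ψ x - (m - 1) * (w x * ψ x)) -
        k * (w x * (((Icc 1 H).filter (fun t => (∀ i, t ≠ h i) ∧ (x + t).Prime)).card : ℝ)) ≤
      k * ∑ i, fa A h w i x * ψ x := by
    intro x hx
    have hc := clus hm h hinj hh A hA x hx
    set g : ℝ := ((univ.filter (fun i : Fin k => (x + h i).Prime)).card : ℝ) with hg
    set b : ℝ := (((Icc 1 H).filter (fun t => (∀ i, t ≠ h i) ∧ (x + t).Prime)).card : ℝ) with hb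
    set a : ℝ := ((univ.filter (fun i : Fin k => x + h i ∈ A ∧ (x + h i).Prime)).card : ℝ) with ha
    have hb0 : 0 ≤ b := Nat.cast_nonneg _
    have e1 : ∑ i, fa A h w i x * ψ x = a * (w x * ψ x) := by
      rw [← Finset.sum_mul]
      have : ∑ i, fa A h w i x = a * w x := by
        unfold fa
        rw [← Finset.sum_filter, Finset.sum_const, nsmul_eq_mul]
      rw [this]
      ring
    have e2 : ∑ i, v i x ≤ g * w x := by
      have : ∀ i, v i x ≤ if (x + h i).Prime then w x else 0 := by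
        intro i
        split_ifs with hp
        · exact hW.vw i x
        · by_contra hcon
          exact hp (hW.vp i x (fun h0 => hcon (h0 ▸ le_refl _)))
      calc ∑ i, v i x ≤ ∑ i, (if (x + h i).Prime then w x else 0) :=
            Finset.sum_le_sum fun i _ => this i
        _ = g * w x := by rw [← Finset.sum_filter, Finset.sum_const, nsmul_eq_mul]
    rw [e1]
    have hwφ : 0 ≤ w x * ψ x := mul_nonneg (hW.w0 x) (hψ x).1
    have e3 : (g - (m - 1) - k * b) * (w x * ψ x) ≤ (k * a) * (w x * ψ x) :=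
      mul_le_mul_of_nonneg_right hc hwφ
    have e4 : (∑ i, v i x) * ψ x ≤ g * (w x * ψ x) := by
      calc (∑ i, v i x) * ψ x ≤ (g * w x) * ψ x := mul_le_mul_of_nonneg_right e2 (hψ x).1
        _ = g * (w x * ψ x) := by ring
    have e5 : k * (b * (w x * ψ x)) ≤ k * (w x * b) := by
      refine mul_le_mul_of_nonneg_left ?_ hk0.le
      calc b * (w x * ψ x) = (w x * b) * ψ x := by ring
        _ ≤ (w x * b) * 1 := mul_le_mul_of_nonneg_left (hψ x).2 (mul_nonneg (hW.w0 x) hb0)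
        _ = w x * b := mul_one _
    linarith
  have h7 := Finset.sum_le_sum h6
  rw [Finset.sum_sub_distrib, ← Finset.mul_sum, ← Finset.mul_sum, Finset.sum_sub_distrib,
    ← Finset.mul_sum] at h7
  have h8 : ∑ x ∈ Ioc X (2 * X), ∑ i, fa A h w i x * ψ x =
      ∑ i, ∑ x ∈ Ioc X (2 * X), fa A h w i x * ψ x := Finset.sum_comm
  rw [h8] at h7
  have h9 : (k : ℝ) * ∑ x ∈ Ioc X (2 * X), w x *
      (((Icc 1 H).filter (fun t => (∀ i, t ≠ h i) ∧ (x + t).Prime)).card : ℝ) ≤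
      k * (κ * X) := mul_le_mul_of_nonneg_left hW.bad hk0.le
  set R : ℝ := ∑ x ∈ Ioc X (2 * X), ρ x * ψ x with hR
  have hR0 : 0 ≤ R := Finset.sum_nonneg fun x _ => mul_nonneg (hρ x) (hψ x).1
  have h10 : ∑ x ∈ Ioc X (2 * X), w x * ψ x ≤ M * R + δ * X := by
    have h11 := (abs_le.1 hcw).2
    have h12 : ∑ x ∈ Ioc X (2 * X), (w x - M * ρ x) * ψ x =
        ∑ x ∈ Ioc X (2 * X), w x * ψ x - M * R := by
      rw [hR, Finset.mul_sum, ← Finset.sum_sub_distrib]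
      exact Finset.sum_congr rfl fun x _ => by ring
    rw [h12] at h11
    linarith
  have h13 : ∀ i, M' i * R - δ * X ≤ ∑ x ∈ Ioc X (2 * X), v i x * ψ x := by
    intro i
    have h11 := (abs_le.1 (hcv i)).1
    have h12 : ∑ x ∈ Ioc X (2 * X), (v i x - M' i * ρ x) * ψ x =
        ∑ x ∈ Ioc X (2 * X), v i x * ψ x - M' i * R := by
      rw [hR, Finset.mul_sum, ← Finset.sum_sub_distrib]
      exact Finset.sum_congr rfl fun x _ => by ring
    rw [h12] at h11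
    linarith
  have h14 : (∑ i, M' i) * R - k * (δ * X) ≤
      ∑ x ∈ Ioc X (2 * X), (∑ i, v i x) * ψ x := by
    have h15 := Finset.sum_le_sum fun i (_ : i ∈ (univ : Finset (Fin k))) => h13 i
    rw [Finset.sum_sub_distrib, ← Finset.sum_mul] at h15
    have h16 : ∑ x ∈ Ioc X (2 * X), (∑ i, v i x) * ψ x =
        ∑ i, ∑ x ∈ Ioc X (2 * X), v i x * ψ x := by
      rw [Finset.sum_comm]
      exact Finset.sum_congr rfl fun x _ => by rw [Finset.sum_mul]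
    rw [h16]
    simpa using h15
  have h17 : (1 : ℝ) ≤ (∑ i, M' i) - (m - 1) * M := by
    have h18 := hW.M'2
    have h19 : ((m : ℝ) - 1) * M ≤ (m - 1) * (1 + κ) :=
      mul_le_mul_of_nonneg_left hW.M1 (by linarith)
    nlinarith
  have h20 : R - (k + (m - 1)) * (δ * X) ≤
      ∑ x ∈ Ioc X (2 * X), (∑ i, v i x) * ψ x - (m - 1) * ∑ x ∈ Ioc X (2 * X), w x * ψ x := by
    have h21 : ((m : ℝ) - 1) * ∑ x ∈ Ioc X (2 * X), w x * ψ x ≤ (m - 1) * (M * R + δ * X) :=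
      mul_le_mul_of_nonneg_left h10 (by linarith)
    have h22 : R ≤ ((∑ i, M' i) - (m - 1) * M) * R := by
      calc R = 1 * R := (one_mul R).symm
        _ ≤ _ := mul_le_mul_of_nonneg_right h17 hR0
    nlinarith
  have h24 : 0 ≤ δ * (X : ℝ) := mul_nonneg hδ hX0
  nlinarith

end Pool.Agent.Lib.SG
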