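import Pool.Agent.Lib.SG.Ratio6
import Pool.Agent.Lib.SG.Pclose
import Pool.Agent.Lib.SG.Mumass
import Pool.Agent.Lib.MT.Moment

/-!
# SG-Weights: the weights (helper10)

PROOF. k from `ratio6 m`. C_M = exponent of `FF_moment (Fin k)`, exponent e of `prod_col_le k`: `c = 4 e + C_M + 3`. D from `wclose k`; B₀ from `pclose k (4c + 3)`;
`B = max(5c + 1, D + 4c + 5, B₀ + 1)`. z = ⌊(log X)^B⌋. w = F² X/T on Pre, v_i = w th(x + h i)/log(3X), `M = ∑ w/∑ mu`, `M'_i = ∑ v_i/∑ mu`.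
-/

set_option autoImplicit false

open Finset

namespace Pool.Agent.Lib.SG

open Pool.Agent.Lib.MT

private theorem Weights_pre (Ω : ℕ → Finset ℕ) (z X : ℕ) (f : ℕ → ℝ) (α : ℝ) (g : ℕ → ℝ)
    (hf : ∀ x ∈ Pre Ω z X, f x = g x) (hf0 : ∀ x, x ∉ Pre Ω z X → f x = 0) :
    ES f X α = ∑ x ∈ Pre Ω z X, (g x : ℂ) * GT.e (α * x) := by
  classical
  unfold ES
  have hsub : Pre Ω z X ⊆ Ioc X (2 * X) := filter_subset _ _
  rw [← sum_subset hsub (fun x _ hx => by rw [hf0 x hx]; simp)]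
  exact sum_congr rfl fun x hx => by rw [hf x hx]

private theorem Weights_e0 (x : ℕ) : GT.e ((0 : ℝ) * x) = 1 := by
  unfold GT.e
  simp

private theorem Weights_zero (f : ℕ → ℝ) (X : ℕ) :
    ES f X 0 = ((∑ x ∈ Ioc X (2 * X), f x : ℝ) : ℂ) := by
  unfold ES
  push_cast
  exact sum_congr rfl fun x _ => by rw [Weights_e0, mul_one]

private theorem Weights_norm (f : ℕ → ℝ) (hf : ∀ x, 0 ≤ f x) (X : ℕ) (α : ℝ) :
    ‖ES f X α‖ ≤ ∑ x ∈ Ioc X (2 * X), f x := by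
  unfold ES
  refine (norm_sum_le _ _).trans (le_of_eq (sum_congr rfl fun x _ => ?_))
  rw [norm_mul, SW.norm_e', mul_one, Complex.norm_real, Real.norm_of_nonneg (hf x)]

/-- the constant may be replaced by the quotient of the masses -/
private theorem Weights_ratio (f ρ : ℕ → ℝ) (X : ℕ) (G η : ℝ) (hρ : ∀ x, 0 ≤ ρ x)
    (hS : 0 < ∑ x ∈ Ioc X (2 * X), ρ x) (h : ∀ α : ℝ, ‖ES f X α - G * ES ρ X α‖ ≤ η) (α : ℝ) :
    ‖ES f X α - (((∑ x ∈ Ioc X (2 * X), f x) / ∑ x ∈ Ioc X (2 * X), ρ x : ℝ) : ℂ) * ES ρ X α‖ ≤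
      2 * η := by
  obtain ⟨S, hSd⟩ : ∃ S : ℝ, S = ∑ x ∈ Ioc X (2 * X), ρ x := ⟨_, rfl⟩
  obtain ⟨F, hFd⟩ : ∃ F : ℝ, F = ∑ x ∈ Ioc X (2 * X), f x := ⟨_, rfl⟩
  rw [← hSd, ← hFd]
  rw [← hSd] at hS
  have h0 := h 0
  rw [Weights_zero, Weights_zero, ← hSd, ← hFd] at h0
  have h1 : |F - G * S| ≤ η := by
    have : ((F : ℂ) - (G : ℂ) * (S : ℂ)) = ((F - G * S : ℝ) : ℂ) := by push_cast; ring
    rw [this, Complex.norm_real] at h0
    exact h0
  have h2 : ES f X α - ((F / S : ℝ) : ℂ) * ES ρ X α =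
      (ES f X α - G * ES ρ X α) + ((G - F / S : ℝ) : ℂ) * ES ρ X α := by
    push_cast
    ring
  rw [h2]
  refine (norm_add_le _ _).trans ?_
  have h3 : ‖((G - F / S : ℝ) : ℂ) * ES ρ X α‖ ≤ η := by
    rw [norm_mul, Complex.norm_real]
    calc ‖G - F / S‖ * ‖ES ρ X α‖ ≤ ‖G - F / S‖ * S := by
          apply mul_le_mul_of_nonneg_left _ (norm_nonneg _)
          rw [hSd]
          exact Weights_norm ρ hρ X α
      _ = |(G - F / S) * S| := by
          rw [abs_mul, abs_of_pos hS, Real.norm_eq_abs]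
      _ = |F - G * S| := by
          rw [sub_mul, div_mul_cancel₀ _ hS.ne', abs_sub_comm]
      _ ≤ η := h1
  have h4 := h α
  linarith

private theorem Weights_n1 (a κ κ₁ : ℝ) (ha : a * (1 - κ₁) ≤ 1 + κ₁) (ha0 : 0 ≤ a) (hκ : 0 < κ)
    (h1 : κ₁ ≤ κ / 4) (h2 : κ₁ ≤ 1 / 4) (h3 : 0 < κ₁) : a ≤ 1 + κ := by
  by_contra hc
  push Not at hc
  have h4 : (1 + κ) * (1 - κ₁) < a * (1 - κ₁) := by
    apply mul_lt_mul_of_pos_right hc
    linarith
  have h5 : κ * κ₁ ≤ κ / 4 := by nlinarith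
  nlinarith

private theorem Weights_n2 (m κ κ₁ s : ℝ) (hm : 0 ≤ m) (hκ : 0 < κ) (h1 : κ₁ ≤ κ / 4)
    (h2 : κ₁ * (m + 1) ≤ κ / 2) (h3 : 0 < κ₁) (hs : m + 1 - κ₁ ≤ s * (1 + κ₁)) (hs0 : 0 ≤ s) :
    m + 1 - κ ≤ s := by
  by_contra hc
  push Not at hc
  have h4 : s * (1 + κ₁) ≤ (m + 1 - κ) * (1 + κ₁) := by
    apply mul_le_mul_of_nonneg_right hc.le
    linarith
  nlinarith

private theorem Weights_n3 (X T l q κ : ℝ) (hT : T ≠ 0) (hl : l ≠ 0) :
    (X / T) / l * (T * q * l - κ * T) = X * q - X * κ / l := by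
  field_simp

theorem weights (m : ℕ) (hm : 1 ≤ m) : ∃ k c B : ℕ, 1 ≤ k ∧ 1 ≤ c ∧ 5 * c + 1 ≤ B ∧
    ∀ H : ℕ, ∀ κ : ℝ, 0 < κ → ∃ X₀ : ℕ, ∀ X : ℕ, X₀ ≤ X → ∀ h : Fin k → ℕ, Function.Injective h →
    (∀ i, 1 ≤ h i ∧ h i ≤ H) → Nice k (Om h) →
    ∃ (w : ℕ → ℝ) (v : Fin k → ℕ → ℝ) (M : ℝ) (M' : Fin k → ℝ),
      Wt m k H ⌊(Real.log X) ^ B⌋₊ X c h w v M M' κ := by
  classical
  obtain ⟨k, hk, hR6⟩ := ratio6 m hm
  haveI : Nonempty (Fin k) := ⟨⟨0, by omega⟩⟩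
  obtain ⟨CM, XM, hFM⟩ := FF_moment (Fin k)
  obtain ⟨e, Xe, hcol⟩ := prod_col_le k
  obtain ⟨D, hWc⟩ := wclose k
  obtain ⟨c, hc⟩ : ∃ c : ℕ, c = 4 * e + CM + 3 := ⟨_, rfl⟩
  obtain ⟨B₀, hPc⟩ := pclose k (4 * c + 3)
  obtain ⟨B, hB1, hB2, hB3⟩ : ∃ B : ℕ, 5 * c + 1 ≤ B ∧ D + 4 * c + 5 ≤ B ∧ B₀ + 1 ≤ B :=
    ⟨max (5 * c + 1) (max (D + 4 * c + 5) (B₀ + 1)), le_max_left _ _,
      (le_max_left _ _).trans (le_max_right _ _), (le_max_right _ _).trans (le_max_right _ _)⟩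
  refine ⟨k, c, B, hk, by omega, hB1, fun H κ hκ => ?_⟩
  have hkR : (1 : ℝ) ≤ k := by exact_mod_cast hk
  have hmR : (0 : ℝ) ≤ m := Nat.cast_nonneg m
  -- the small constants
  obtain ⟨κ₁, hκ₁, hκa, hκb, hκc⟩ : ∃ κ₁ : ℝ, 0 < κ₁ ∧ κ₁ ≤ κ / 4 ∧ κ₁ ≤ 1 / 4 ∧ κ₁ * (m + 1) ≤ κ / 2 := by
    refine ⟨min (min (κ / 4) (1 / 4)) (κ / (2 * (m + 1))), by positivity,
      (min_le_left _ _).trans (min_le_left _ _), (min_le_left _ _).trans (min_le_right _ _), ?_⟩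
    have h1 : min (min (κ / 4) (1 / 4)) (κ / (2 * ((m : ℝ) + 1))) ≤ κ / (2 * (m + 1)) := min_le_right _ _
    calc _ ≤ κ / (2 * ((m : ℝ) + 1)) * (m + 1) := by gcongr
      _ = κ / 2 := by field_simp
  obtain ⟨κ₂, hκ₂, hκ₂b, hκ₂c⟩ : ∃ κ₂ : ℝ, 0 < κ₂ ∧ κ₂ * k ≤ κ₁ ∧ κ₂ ≤ κ₁ :=
    ⟨κ₁ / k, by positivity, by rw [div_mul_cancel₀]; positivity, div_le_self hκ₁.le hkR⟩
  obtain ⟨X₁, h1⟩ := hR6 B H κ₂ hκ₂
  obtain ⟨X₂, h2⟩ := hWc B
  obtain ⟨X₃, h3⟩ := hPc B (by omega)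
  obtain ⟨X₄, h4⟩ := mumass k B κ₁ hκ₁
  obtain ⟨X₅, h5⟩ := Filter.eventually_atTop.1 ((RNum6_log.eventually_ge_atTop
    (16 * (k : ℝ) ^ 2 + H + 4)))
  obtain ⟨X₆, h6⟩ := mu2 k B
  refine ⟨max (max (max X₁ X₂) (max X₃ X₄)) (max (max X₅ X₆) (max (max XM Xe) (H + 3))),
    fun X hX h hinj hh hN => ?_⟩
  simp only [max_le_iff] at hX
  obtain ⟨⟨⟨hX1, hX2⟩, hX3, hX4⟩, ⟨hX5, hX6⟩, ⟨hXM, hXe⟩, hXH⟩ := hX
  have hlog := h5 X hX5
  have hH0 : (0 : ℝ) ≤ H := Nat.cast_nonneg H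
  have hk2 : (1 : ℝ) ≤ (k : ℝ) ^ 2 := one_le_pow₀ hkR
  have hlog2 : 2 ≤ Real.log X := by linarith
  have hlog0 : 0 < Real.log X := by linarith
  have hlog1 : 1 ≤ Real.log X := by linarith
  obtain ⟨z, hz⟩ : ∃ z : ℕ, z = ⌊(Real.log X) ^ B⌋₊ := ⟨_, rfl⟩
  rw [← hz]
  have hzB : (z : ℝ) ≤ (Real.log X) ^ B := by
    rw [hz]
    exact Nat.floor_le (by positivity)
  have hzlow : (Real.log X) ^ (B - 1) ≤ z := by
    have a1 : (Real.log X) ^ B < z + 1 := by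
      rw [hz]
      exact Nat.lt_floor_add_one _
    have a2 : (Real.log X) ^ B = (Real.log X) ^ (B - 1) * Real.log X := by
      rw [← pow_succ]
      congr 1
      omega
    have a3 : 1 ≤ (Real.log X) ^ (B - 1) := one_le_pow₀ hlog1
    nlinarith
  have hzlog : Real.log X ≤ z := by
    refine le_trans ?_ hzlow
    calc Real.log X = (Real.log X) ^ 1 := (pow_one _).symm
      _ ≤ (Real.log X) ^ (B - 1) := pow_le_pow_right₀ hlog1 (by omega)
  have hzbig : 16 * k ^ 2 + H + 2 ≤ z := by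
    have : (16 * (k : ℝ) ^ 2 + H + 2) ≤ z := by linarith
    exact_mod_cast this
  have hz2 : 2 ≤ z := by omega
  have hz0 : (0 : ℝ) < z := by linarith
  have hX3' : 3 ≤ X := by omega
  have hXX : (3 : ℝ) ≤ X := by exact_mod_cast hX3'
  have hX0 : (0 : ℝ) < X := by linarith
  obtain ⟨R, hR⟩ : ∃ R : ℕ, R = ⌊(X : ℝ) ^ (1 / 1000 : ℝ)⌋₊ := ⟨_, rfl⟩
  have hRle : (R : ℝ) ≤ (X : ℝ) ^ (1 / 1000 : ℝ) := by
    rw [hR]
    exact Nat.floor_le (by positivity)
  have hRX : R ≤ X := by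
    have : (R : ℝ) ≤ X := hRle.trans (by
      calc (X : ℝ) ^ (1 / 1000 : ℝ) ≤ (X : ℝ) ^ (1 : ℝ) :=
            Real.rpow_le_rpow_of_exponent_le (by linarith) (by norm_num)
        _ = X := Real.rpow_one _)
    exact_mod_cast this
  have hr := h1 X z hX1 hzbig hzB h hinj hh hN
  rw [← hR] at hr
  obtain ⟨L, T, r1, r2, r3, r4, r5, r6⟩ := hr
  have hT0 : 0 < T := lt_of_lt_of_le (by positivity) r3
  have hXT : X / T ≤ Real.log X := by
    rw [div_le_iff₀ hT0]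
    rw [div_le_iff₀ hlog0] at r3
    linarith
  have hXT0 : 0 < X / T := by positivity
  have hlog3 : Real.log X ≤ Real.log (3 * X) := by
    apply Real.log_le_log hX0
    linarith
  have hl30 : 0 < Real.log (3 * X) := by linarith
  have hhz : ∀ i, h i ≤ z := fun i => by
    have := (hh i).2
    omega
  have hhX : ∀ i, h i ≤ X := fun i => by
    have := (hh i).2
    omega
  -- the functions
  obtain ⟨w, hw⟩ : ∃ w : ℕ → ℝ, w = fun x => if x ∈ Pre (Om h) z X then (FF h L x) ^ 2 * (X / T) else 0 :=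
    ⟨_, rfl⟩
  obtain ⟨v, hv⟩ : ∃ v : Fin k → ℕ → ℝ, v = fun i x => w x * (BV.th (x + h i) / Real.log (3 * X)) :=
    ⟨_, rfl⟩
  have hw0 : ∀ x, 0 ≤ w x := by
    intro x
    rw [hw]
    simp only
    split_ifs
    · positivity
    · exact le_rfl
  have hwp : ∀ x ∈ Pre (Om h) z X, w x = (FF h L x) ^ 2 * (X / T) := by
    intro x hx
    rw [hw]
    simp only
    rw [if_pos hx]
  have hws : ∀ x, x ∉ Pre (Om h) z X → w x = 0 := by
    intro x hx
    rw [hw]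
    simp only
    rw [if_neg hx]
  have hvx : ∀ i x, v i x = w x * (BV.th (x + h i) / Real.log (3 * X)) := fun i x => by rw [hv]
  have hth0 : ∀ n, 0 ≤ BV.th n := BV.th_nonneg
  have hv0 : ∀ i x, 0 ≤ v i x := by
    intro i x
    rw [hvx]
    exact mul_nonneg (hw0 x) (div_nonneg (hth0 _) hl30.le)
  have hsub : Pre (Om h) z X ⊆ Ioc X (2 * X) := filter_subset _ _
  have hvw : ∀ i x, v i x ≤ w x := by
    intro i x
    by_cases hx : x ∈ Pre (Om h) z X
    · rw [hvx]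
      have hx1 := mem_Ioc.1 (hsub hx)
      have a1 : BV.th (x + h i) ≤ Real.log (3 * X) := by
        refine (BV.th_le _).trans ?_
        apply Real.log_le_log
        · have : 0 < x + h i := by omega
          exact_mod_cast this
        · have a2 : x + h i ≤ 3 * X := by
            have := hhX i
            omega
          exact_mod_cast a2
      calc w x * (BV.th (x + h i) / Real.log (3 * X)) ≤ w x * 1 := by
            apply mul_le_mul_of_nonneg_left _ (hw0 x)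
            rw [div_le_one hl30]
            exact a1
        _ = w x := mul_one _
    · rw [hvx, hws x hx, zero_mul]
  have hvp : ∀ i x, v i x ≠ 0 → (x + h i).Prime := by
    intro i x hne
    by_contra hp
    apply hne
    rw [hvx]
    unfold BV.th
    rw [if_neg hp, zero_div, mul_zero]
  have hsumw : ∀ g : ℕ → ℝ, ∑ x ∈ Ioc X (2 * X), w x * g x =
      (X / T) * ∑ x ∈ Pre (Om h) z X, (FF h L x) ^ 2 * g x := by
    intro g
    rw [← sum_subset hsub (fun x _ hx => by rw [hws x hx, zero_mul]), mul_sum]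
    exact sum_congr rfl fun x hx => by rw [hwp x hx]; ring
  -- the mass of mu
  obtain ⟨S, hS⟩ : ∃ S : ℝ, S = ∑ x ∈ Ioc X (2 * X), mu (Om h) z X x := ⟨_, rfl⟩
  have hSm := h4 X z hX4 hz2 hzB (Om h) hN
  rw [← hS, abs_le] at hSm
  have hSl : (1 - κ₁) * X ≤ S := by linarith [hSm.1]
  have hSu : S ≤ (1 + κ₁) * X := by linarith [hSm.2]
  have hS0 : 0 < S := by
    have : 0 < (1 - κ₁) * X := mul_pos (by linarith) hX0
    linarith
  have hmu0 := (h6 X z hX6 hz2 hzB (Om h) hN).1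
  have hmuES : ∀ α : ℝ, ES (mu (Om h) z X) X α =
      (((V1 (Om h) z)⁻¹ : ℝ) : ℂ) * ∑ x ∈ Pre (Om h) z X, GT.e (α * x) := by
    intro α
    rw [Weights_pre (Om h) z X (mu (Om h) z X) α (fun _ => (V1 (Om h) z)⁻¹)
      (fun x hx => by unfold mu; rw [if_pos hx]) (fun x hx => by unfold mu; rw [if_neg hx]), mul_sum]
  obtain ⟨C₀, hC₀, hV1⟩ := num_V1 k
  have hVpos : 0 < V1 (Om h) z := (hV1 (Om h) hN z hz2).1
  have hsume : ∀ α : ℝ, ∑ x ∈ Pre (Om h) z X, GT.e (α * x) =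
      ((V1 (Om h) z : ℝ) : ℂ) * ES (mu (Om h) z X) X α := by
    intro α
    rw [hmuES, ← mul_assoc, ← Complex.ofReal_mul, mul_inv_cancel₀ hVpos.ne', Complex.ofReal_one, one_mul]
  -- closeness of w
  have hzpow : ∀ n : ℕ, n + (D + 1) ≤ B - 1 → (Real.log X) ^ (D + 1) / z ≤ 1 / (Real.log X) ^ n := by
    intro n hn
    rw [div_le_div_iff₀ hz0 (by positivity), one_mul, ← pow_add]
    refine le_trans (pow_le_pow_right₀ hlog1 (by omega)) hzlow
  have hη : 2 * (X / (Real.log X) ^ (4 * c + 2)) ≤ X / (Real.log X) ^ (4 * c) := by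
    have a1 : (Real.log X) ^ (4 * c + 2) = (Real.log X) ^ (4 * c) * (Real.log X) ^ 2 := pow_add _ _ _
    have a2 : 2 ≤ (Real.log X) ^ 2 := by nlinarith
    rw [a1, ← mul_div_assoc, div_le_div_iff₀ (by positivity) (by positivity)]
    have a3 : 0 < (Real.log X) ^ (4 * c) := by positivity
    calc 2 * X * (Real.log X) ^ (4 * c) = X * ((Real.log X) ^ (4 * c) * 2) := by ring
      _ ≤ X * ((Real.log X) ^ (4 * c) * (Real.log X) ^ 2) := by gcongr
  have hclw : ∀ α : ℝ, ‖ES w X α - (((X / T) * Qf (q1 (ι := Fin k)) L * V1 (Om h) z : ℝ) : ℂ) *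
      ES (mu (Om h) z X) X α‖ ≤ X / (Real.log X) ^ (4 * c + 2) := by
    intro α
    have a1 := h2 X z R hX2 hz2 hzB hRle h hinj hhz (Om h) hN L r1 r2 α
    rw [hsume] at a1
    have a2 : ES w X α = ((X / T : ℝ) : ℂ) *
        ∑ x ∈ Pre (Om h) z X, (((FF h L x) ^ 2 : ℝ) : ℂ) * GT.e (α * x) := by
      rw [Weights_pre (Om h) z X w α (fun x => (FF h L x) ^ 2 * (X / T)) hwp hws, mul_sum]
      refine sum_congr rfl fun x _ => ?_
      push_cast
      ring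
    have a3 : ES w X α - (((X / T) * Qf (q1 (ι := Fin k)) L * V1 (Om h) z : ℝ) : ℂ) *
        ES (mu (Om h) z X) X α = ((X / T : ℝ) : ℂ) *
        (∑ x ∈ Pre (Om h) z X, (((FF h L x) ^ 2 : ℝ) : ℂ) * GT.e (α * x) -
        ((Qf (q1 (ι := Fin k)) L : ℝ) : ℂ) * (((V1 (Om h) z : ℝ) : ℂ) * ES (mu (Om h) z X) X α)) := by
      rw [a2]
      push_cast
      ring
    rw [a3, norm_mul, Complex.norm_real, Real.norm_of_nonneg hXT0.le]
    calc X / T * _ ≤ Real.log X * (X * (Real.log X) ^ D / z) :=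
          mul_le_mul hXT a1 (norm_nonneg _) hlog0.le
      _ = X * ((Real.log X) ^ (D + 1) / z) := by
          rw [pow_succ]
          ring
      _ ≤ X * (1 / (Real.log X) ^ (4 * c + 2)) := by
          apply mul_le_mul_of_nonneg_left _ hX0.le
          exact hzpow _ (by omega)
      _ = X / (Real.log X) ^ (4 * c + 2) := by ring
  have hclv : ∀ i, ∃ G : ℝ, ∀ α : ℝ, ‖ES (v i) X α - (G : ℂ) * ES (mu (Om h) z X) X α‖ ≤
      X / (Real.log X) ^ (4 * c + 2) := by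
    intro i
    obtain ⟨G, hG⟩ := h3 X z R hX3 (le_trans (pow_le_pow_right₀ hlog1 (by omega)) hzlow) hzB hRle h
      hinj hhz hN L r1 r2 i
    refine ⟨(X / T) / Real.log (3 * X) * G * V1 (Om h) z, fun α => ?_⟩
    have a1 := hG α
    rw [hsume] at a1
    have a2 : ES (v i) X α = (((X / T) / Real.log (3 * X) : ℝ) : ℂ) *
        ∑ x ∈ Pre (Om h) z X, (((FF h L x) ^ 2 * BV.th (x + h i) : ℝ) : ℂ) * GT.e (α * x) := by
      rw [Weights_pre (Om h) z X (v i) α (fun x => (FF h L x) ^ 2 * (X / T) *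
        (BV.th (x + h i) / Real.log (3 * X))) (fun x hx => by rw [hvx, hwp x hx])
        (fun x hx => by rw [hvx, hws x hx, zero_mul]), mul_sum]
      refine sum_congr rfl fun x _ => ?_
      push_cast
      ring
    have a3 : ES (v i) X α - (((X / T) / Real.log (3 * X) * G * V1 (Om h) z : ℝ) : ℂ) *
        ES (mu (Om h) z X) X α = (((X / T) / Real.log (3 * X) : ℝ) : ℂ) *
        (∑ x ∈ Pre (Om h) z X, (((FF h L x) ^ 2 * BV.th (x + h i) : ℝ) : ℂ) * GT.e (α * x) -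
        (G : ℂ) * (((V1 (Om h) z : ℝ) : ℂ) * ES (mu (Om h) z X) X α)) := by
      rw [a2]
      push_cast
      ring
    rw [a3, norm_mul, Complex.norm_real, Real.norm_of_nonneg (by positivity)]
    calc X / T / Real.log (3 * X) * _ ≤ Real.log X / Real.log (3 * X) * (X / (Real.log X) ^ (4 * c + 3)) := by
          apply mul_le_mul _ a1 (norm_nonneg _) (by positivity)
          gcongr
      _ ≤ 1 * (X / (Real.log X) ^ (4 * c + 2)) := by
          apply mul_le_mul _ _ (by positivity) zero_le_one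
          · rw [div_le_one hl30]
            exact hlog3
          · apply div_le_div_of_nonneg_left hX0.le (by positivity)
            exact pow_le_pow_right₀ hlog1 (by omega)
      _ = X / (Real.log X) ^ (4 * c + 2) := one_mul _
  -- masses
  have hM1 : ∑ x ∈ Ioc X (2 * X), w x ≤ (1 + κ₁) * X := by
    have a1 := hsumw (fun _ => 1)
    simp only [mul_one] at a1
    rw [a1]
    calc X / T * ∑ x ∈ Pre (Om h) z X, (FF h L x) ^ 2 ≤ X / T * (T * (1 + κ₂)) := by gcongr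
      _ = (1 + κ₂) * X := by
          field_simp
      _ ≤ (1 + κ₁) * X := by gcongr
  obtain ⟨M, hM⟩ : ∃ M : ℝ, M = (∑ x ∈ Ioc X (2 * X), w x) / S := ⟨_, rfl⟩
  obtain ⟨M', hM'⟩ : ∃ M' : Fin k → ℝ, M' = fun i => (∑ x ∈ Ioc X (2 * X), v i x) / S := ⟨_, rfl⟩
  have hM0 : 0 ≤ M := by
    rw [hM]
    exact div_nonneg (sum_nonneg fun x _ => hw0 x) hS0.le
  have hMS : M * S = ∑ x ∈ Ioc X (2 * X), w x := by
    rw [hM, div_mul_cancel₀ _ hS0.ne']
  have hMle : M ≤ 1 + κ := by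
    refine Weights_n1 M κ κ₁ ?_ hM0 hκ hκa hκb hκ₁
    have a1 : M * ((1 - κ₁) * X) ≤ (1 + κ₁) * X := by
      calc M * ((1 - κ₁) * X) ≤ M * S := by gcongr
        _ ≤ (1 + κ₁) * X := by rw [hMS]; exact hM1
    have a2 : (M * (1 - κ₁)) * X ≤ (1 + κ₁) * X := by linarith
    exact le_of_mul_le_mul_right a2 hX0
  have hM'M : ∀ i, M' i ≤ M := by
    intro i
    rw [hM', hM]
    exact div_le_div_of_nonneg_right (sum_le_sum fun x _ => hvw i x) hS0.le
  have hM'0 : ∀ i, 0 ≤ M' i := by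
    intro i
    rw [hM']
    exact div_nonneg (sum_nonneg fun x _ => hv0 i x) hS0.le
  have hM'2 : (m : ℝ) + 1 - κ ≤ ∑ i, M' i := by
    refine Weights_n2 m κ κ₁ (∑ i, M' i) hmR hκ hκa hκc hκ₁ ?_ (sum_nonneg fun i _ => hM'0 i)
    have a1 : ∀ i, X * (((m + 1) / k) - κ₂) ≤ ∑ x ∈ Ioc X (2 * X), v i x := by
      intro i
      have b1 : ∑ x ∈ Ioc X (2 * X), v i x = (X / T) / Real.log (3 * X) *
          ∑ x ∈ Pre (Om h) z X, (FF h L x) ^ 2 * BV.th (x + h i) := by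
        have := hsumw (fun x => BV.th (x + h i) / Real.log (3 * X))
        rw [sum_congr rfl fun x _ => hvx i x, this, mul_sum, mul_sum]
        refine sum_congr rfl fun x _ => ?_
        ring
      rw [b1]
      have b2 : (X / T) / Real.log (3 * X) * (T * ((m + 1) / k) * Real.log (3 * X) - κ₂ * T) ≤
          (X / T) / Real.log (3 * X) * ∑ x ∈ Pre (Om h) z X, (FF h L x) ^ 2 * BV.th (x + h i) := by
        apply mul_le_mul_of_nonneg_left (r5 i)
        positivity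
      refine le_trans ?_ b2
      have b3 : (X / T) / Real.log (3 * X) * (T * ((m + 1) / k) * Real.log (3 * X) - κ₂ * T) =
          X * ((m + 1) / k) - X * κ₂ / Real.log (3 * X) :=
        Weights_n3 X T (Real.log (3 * X)) ((m + 1) / k) κ₂ hT0.ne' hl30.ne'
      rw [b3]
      have b4 : X * κ₂ / Real.log (3 * X) ≤ X * κ₂ := div_le_self (by positivity) (by linarith)
      linarith
    have a2 : ∑ i : Fin k, X * ((((m : ℝ) + 1) / k) - κ₂) ≤ ∑ i, ∑ x ∈ Ioc X (2 * X), v i x :=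
      sum_le_sum fun i _ => a1 i
    rw [sum_const, card_univ, Fintype.card_fin, nsmul_eq_mul] at a2
    have a3 : (∑ i, M' i) * S = ∑ i, ∑ x ∈ Ioc X (2 * X), v i x := by
      rw [sum_mul]
      refine sum_congr rfl fun i _ => ?_
      rw [hM']
      simp only
      rw [div_mul_cancel₀ _ hS0.ne']
    have a4 : (k : ℝ) * (X * ((((m : ℝ) + 1) / k) - κ₂)) = X * (m + 1 - κ₂ * k) := by
      have b1 : (k : ℝ) * ((((m : ℝ) + 1) / k)) = m + 1 := by
        rw [mul_div_cancel₀]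
        positivity
      calc (k : ℝ) * (X * ((((m : ℝ) + 1) / k) - κ₂)) = X * ((k : ℝ) * ((((m : ℝ) + 1) / k)) - κ₂ * k) := by
            ring
        _ = X * (m + 1 - κ₂ * k) := by rw [b1]
    have a5 : X * ((m : ℝ) + 1 - κ₁) ≤ X * ((∑ i, M' i) * (1 + κ₁)) := by
      calc X * ((m : ℝ) + 1 - κ₁) ≤ X * (m + 1 - κ₂ * k) := by gcongr
        _ ≤ (∑ i, M' i) * S := by rw [a3, ← a4]; exact a2
        _ ≤ (∑ i, M' i) * ((1 + κ₁) * X) := by
            apply mul_le_mul_of_nonneg_left hSu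
            exact sum_nonneg fun i _ => hM'0 i
        _ = X * ((∑ i, M' i) * (1 + κ₁)) := by ring
    exact le_of_mul_le_mul_left a5 hX0
  refine ⟨w, v, M, M', ⟨hw0, hws, hv0, hvw, hvp, ?_, hM0, hMle, hM'0,
    fun i => (hM'M i).trans hMle, hM'2, fun α => ?_, fun i α => ?_, ?_⟩⟩
  · -- second moment
    have a1 : ∑ x ∈ Ioc X (2 * X), (w x) ^ 2 ≤ ∑ x ∈ Ioc X (2 * X), (FF h L x) ^ 4 * (Real.log X) ^ 2 := by
      refine sum_le_sum fun x _ => ?_
      by_cases hx : x ∈ Pre (Om h) z X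
      · rw [hwp x hx, mul_pow, ← pow_mul]
        have : (X / T) ^ 2 ≤ (Real.log X) ^ 2 := by gcongr
        have a2 : 0 ≤ (FF h L x) ^ (2 * 2) := by
          rw [pow_mul]
          positivity
        calc (FF h L x) ^ (2 * 2) * (X / T) ^ 2 ≤ (FF h L x) ^ (2 * 2) * (Real.log X) ^ 2 :=
              mul_le_mul_of_nonneg_left this a2
          _ = _ := by norm_num
      · rw [hws x hx]
        have a2 : 0 ≤ (FF h L x) ^ 4 := by positivity
        have a3 : (0 : ℝ) ^ 2 = 0 := by norm_num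
        rw [a3]
        exact mul_nonneg a2 (by positivity)
    have hcol' := hcol X hXe z R hRX
    have hPR : ∀ p ∈ PP z R, p.Prime := by
      intro p hp
      unfold PP at hp
      exact (mem_filter.mp hp).2.1
    have a3 := hFM X hXM (PP z R) hPR h hhX
      ((Real.log X) ^ e) L (by positivity) (fun σ => (r1 σ).trans hcol')
    rw [← sum_mul] at a1
    calc ∑ x ∈ Ioc X (2 * X), (w x) ^ 2 ≤ (∑ x ∈ Ioc X (2 * X), (FF h L x) ^ 4) * (Real.log X) ^ 2 := a1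
      _ ≤ (((Real.log X) ^ e) ^ 4 * X * (Real.log X) ^ CM) * (Real.log X) ^ 2 := by gcongr
      _ = X * (Real.log X) ^ (4 * e + CM + 2) := by
          rw [← pow_mul, pow_add, pow_add, mul_comm e 4]
          ring
      _ ≤ X * (Real.log X) ^ c := by
          apply mul_le_mul_of_nonneg_left _ hX0.le
          exact pow_le_pow_right₀ hlog1 (by omega)
  · have := Weights_ratio w (mu (Om h) z X) X _ _ hmu0 (by rw [← hS]; exact hS0) hclw α
    rw [← hS, ← hM] at this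
    exact this.trans hη
  · obtain ⟨G, hG⟩ := hclv i
    have := Weights_ratio (v i) (mu (Om h) z X) X _ _ hmu0 (by rw [← hS]; exact hS0) hG α
    rw [← hS] at this
    have e1 : M' i = (∑ x ∈ Ioc X (2 * X), v i x) / S := by rw [hM']
    rw [← e1] at this
    exact this.trans hη
  · rw [hsumw]
    calc X / T * _ ≤ X / T * (κ₂ * T) := by gcongr
      _ = κ₂ * X := by field_simp
      _ ≤ κ * X := by
          apply mul_le_mul_of_nonneg_right _ hX0.le
          linarith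

end Pool.Agent.Lib.SG
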